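import Mathlib

set_option autoImplicit false

/-!
# MP_ec0ede_nt, project EN: definitions for the analytic modules (prime sums and the walk)
-/

noncomputable section

namespace Pool.Agent.EN

open Real Filter Topology Finset

/-- the primes `p` with `u < log p ≤ u + h` -/
def win (u h : ℝ) : Finset ℕ :=
  (Nat.primesLE ⌊Real.exp (u + h)⌋₊).filter fun p => u < Real.log p

/-- the sum of `1 / p` over the primes with `u < log p ≤ u + h` -/
def ws (u h : ℝ) : ℝ := ∑ p ∈ win u h, 1 / (p : ℝ)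

/-- the sum of `1 / p` over the primes up to `n` -/
def G (n : ℕ) : ℝ := ∑ p ∈ Nat.primesLE n, 1 / (p : ℝ)

/-- the Fejer kernel -/
def fej (lam x : ℝ) : ℝ := if x = 0 then lam / π else (Real.sin (lam * x)) ^ 2 / (π * lam * x ^ 2)

/-- the weights of the Poisson law with mean one -/
def pw (k : ℕ) : ℝ := Real.exp (-1) / (k.factorial : ℝ)

/-- the ballot probabilities `(b / n) exp (-n) n ^ (n - b) / (n - b)!`: the walk with steps
`Poisson(1) - 1` started at `b` hits `0` for the first time at time `n` -/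
def fp (n b : ℕ) : ℝ :=
  if b ≤ n ∧ 1 ≤ n then
    (b : ℝ) / n * (Real.exp (-(n : ℝ)) * (n : ℝ) ^ (n - b) / ((n - b).factorial : ℝ)) else 0

/-- the weighted transition probabilities of the walk with steps `Poisson(1) - 1` killed at `0`:
`n` steps from `b` to `a`, all positions after the start are at least `1`, the `i`-th step
`k_i - 1` has the additional weight `exp (t * k_i / 2 ^ (i - 1))` -/
def kpw : ℝ → ℕ → ℕ → ℕ → ℝ
  | _, 0, b, a => if b = a then 1 else 0
  | t, n + 1, b, a => ∑ k ∈ range (a + n + 2),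
      pw k * Real.exp (t * k) * (if 2 ≤ b + k then kpw (t / 2) n (b + k - 1) a else 0)

/-- the transition probabilities without weights -/
def kp (n b a : ℕ) : ℝ := kpw 0 n b a

/-- the harmonic function: `n ^ (3 / 2) * kp n b a` tends to `b * hg a` -/
def hg (a : ℕ) : ℝ := Real.exp a * (1 / √(2 * π) - ∑ i : Fin a, hg i * fp a i)
decreasing_by exact i.2

/-- the tilt `1 / log 2` -/
def zz : ℝ := 1 / Real.log 2

/-! ### Counts: `ν i` is the number of primes of level `i + 1` -/

/-- the Poisson weight of the vector of counts -/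
def wt {L : ℕ} (ν : Fin L → ℕ) : ℝ := ∏ i, pw (ν i)

/-- the number of primes of level at most `j` -/
def cnt {L : ℕ} (ν : Fin L → ℕ) (j : ℕ) : ℕ := ∑ i : Fin L, if (i : ℕ) < j then ν i else 0

/-- the walk `j - #(primes of level at most j)` -/
def X {L : ℕ} (ν : Fin L → ℕ) (j : ℕ) : ℤ := (j : ℤ) - cnt ν j

/-- the size of the primes of level at most `j`, in units of `2 ^ j` -/
def Q {L : ℕ} (ν : Fin L → ℕ) (j : ℕ) : ℝ :=
  ∑ i : Fin L, if (i : ℕ) < j then (ν i : ℝ) * 2 ^ ((i : ℕ) + 1) / 2 ^ j else 0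

/-- the expectation over the counts of `L` levels -/
def PW (L : ℕ) (F : (Fin L → ℕ) → ENNReal) : ENNReal :=
  ∑' ν : Fin L → ℕ, ENNReal.ofReal (wt ν) * F ν

/-- the bound for the probability of a divisor which is obtained from the primes above level `j` -/
def Hj (c : ℝ) {L : ℕ} (ν : Fin L → ℕ) (j : ℕ) : ℝ :=
  (if c * 2 ^ L ≤ 2 ^ j * Q ν j then 1 else 0) +
  (Q ν j + 1) * ∑ l : Fin L, if j ≤ (l : ℕ) ∧ c * 2 ^ L ≤ 2 ^ ((l : ℕ) + 1) * Q ν (l + 1) then
    (ν l : ℝ) * (2 : ℝ) ^ (X ν j - X ν (l + 1)) else 0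

/-- the good paths: they stay above `-c1` and end below `c2` -/
def E0 (c1 c2 : ℕ) {L : ℕ} (ν : Fin L → ℕ) : Prop :=
  (∀ j ≤ L, -(c1 : ℤ) ≤ X ν j) ∧ X ν L ≤ c2

end Pool.Agent.EN
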