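import Mathlib
import Pool.Agent.Lib.MP_ec0ede_nt_EN.Defs1

set_option autoImplicit false

/-!
# MP_ec0ede_nt, project EN, module LapP: the Laplace transform of `psi`
-/

noncomputable section

namespace Pool.Agent.EN

open Real Filter Topology Finset

namespace LapP

open MeasureTheory ArithmeticFunction

theorem psi_eq (x : ℝ) :
    ((Chebyshev.psi x : ℝ) : ℂ) = ∑ k ∈ Icc 1 ⌊x⌋₊, ((vonMangoldt k : ℝ) : ℂ) := by
  rw [Chebyshev.psi, Complex.ofReal_sum]
  rfl

theorem bigO : (fun n : ℕ => ∑ k ∈ Icc 1 n, vonMangoldt k) =O[atTop] fun n : ℕ => (n : ℝ) ^ (1 : ℝ) := by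
  refine Asymptotics.IsBigO.of_bound (Real.log 4 + 4) (Eventually.of_forall fun n => ?_)
  have h1 : ∑ k ∈ Icc 1 n, vonMangoldt k = Chebyshev.psi (n : ℝ) := by
    rw [Chebyshev.psi, Nat.floor_natCast]
    rfl
  rw [h1, Real.rpow_one, Real.norm_of_nonneg (Chebyshev.psi_nonneg _),
    Real.norm_of_nonneg (Nat.cast_nonneg n)]
  exact Chebyshev.psi_le_const_mul_self (Nat.cast_nonneg n)

theorem integral_psi {s : ℂ} (hs : 1 < s.re) :
    ∫ x in Set.Ioi (1 : ℝ), ((Chebyshev.psi x : ℝ) : ℂ) * (x : ℂ) ^ (-(s + 1)) =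
      -deriv riemannZeta s / riemannZeta s / s := by
  have h0 : s ≠ 0 := by
    rintro rfl
    simp at hs
    linarith
  have h1 := LSeries_eq_mul_integral_of_nonneg (fun n => vonMangoldt n) (zero_le_one' ℝ) hs bigO
    (fun n => vonMangoldt_nonneg)
  have h2 := LSeries_vonMangoldt_eq_deriv_riemannZeta_div hs
  rw [h2] at h1
  rw [h1, mul_div_cancel_left₀ _ h0]
  refine setIntegral_congr_fun measurableSet_Ioi fun x _ => ?_
  simp only [psi_eq]

theorem integrable_exp {z : ℂ} (hz : 0 < z.re) :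
    IntegrableOn (fun u : ℝ => Complex.exp (-z * u)) (Set.Ioi 0) :=
  integrableOn_exp_mul_complex_Ioi (by simpa using hz) 0

theorem integral_exp {z : ℂ} (hz : 0 < z.re) :
    ∫ u in Set.Ioi (0 : ℝ), Complex.exp (-z * u) = 1 / z := by
  rw [integral_exp_mul_complex_Ioi (by simpa using hz) 0]
  simp

theorem integral_psi_exp {z : ℂ} (hz : 0 < z.re) :
    ∫ u in Set.Ioi (0 : ℝ), ((Chebyshev.psi (Real.exp u) * Real.exp (-u) : ℝ) : ℂ) *
      Complex.exp (-z * u) =
      -deriv riemannZeta (1 + z) / riemannZeta (1 + z) / (1 + z) := by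
  rw [← integral_psi (s := 1 + z) (by simpa using hz)]
  have h := integral_comp_exp_Ioi
    (fun x : ℝ => ((Chebyshev.psi x : ℝ) : ℂ) * (x : ℂ) ^ (-((1 + z) + 1))) 0
  rw [Real.exp_zero] at h
  rw [← h]
  refine setIntegral_congr_fun measurableSet_Ioi fun u _ => ?_
  simp only [Complex.real_smul]
  have h1 : (Real.exp u : ℂ) ≠ 0 := by exact_mod_cast (Real.exp_pos u).ne'
  rw [Complex.cpow_def_of_ne_zero h1, ← Complex.ofReal_log (Real.exp_pos u).le, Real.log_exp]
  push_cast
  have h2 : Complex.exp u * (((Chebyshev.psi (Real.exp u) : ℝ) : ℂ) *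
      Complex.exp (u * (-(1 + z + 1)))) = ((Chebyshev.psi (Real.exp u) : ℝ) : ℂ) *
      (Complex.exp u * Complex.exp (u * (-(1 + z + 1)))) := by ring
  rw [h2, ← Complex.exp_add, mul_assoc, ← Complex.exp_add]
  congr 2
  ring

theorem integrable_psi_exp {z : ℂ} (hz : 0 < z.re) :
    IntegrableOn (fun u : ℝ => ((Chebyshev.psi (Real.exp u) * Real.exp (-u) : ℝ) : ℂ) *
      Complex.exp (-z * u)) (Set.Ioi 0) := by
  refine Integrable.bdd_mul (c := Real.log 4 + 4) (integrable_exp hz) ?_ ?_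
  · have hm : Measurable fun u : ℝ => Chebyshev.psi (Real.exp u) * Real.exp (-u) :=
      (Chebyshev.psi_mono.measurable.comp Real.measurable_exp).mul
        (Real.measurable_exp.comp measurable_neg)
    exact (Complex.measurable_ofReal.comp hm).aestronglyMeasurable
  · refine Eventually.of_forall fun u => ?_
    rw [Complex.norm_real, Real.norm_of_nonneg
      (mul_nonneg (Chebyshev.psi_nonneg _) (Real.exp_pos _).le)]
    have h := Chebyshev.psi_le_const_mul_self (Real.exp_pos u).le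
    calc Chebyshev.psi (Real.exp u) * Real.exp (-u)
        ≤ ((Real.log 4 + 4) * Real.exp u) * Real.exp (-u) :=
          mul_le_mul_of_nonneg_right h (Real.exp_pos _).le
      _ = Real.log 4 + 4 := by
          rw [mul_assoc, ← Real.exp_add, add_neg_cancel, Real.exp_zero, mul_one]

end LapP

theorem laplace_psi (ε t : ℝ) (hε : 0 < ε) :
    ∫ u in Set.Ioi (0 : ℝ), ((Chebyshev.psi (Real.exp u) * Real.exp (-u) - 1 : ℝ) : ℂ) *
      Complex.exp (-(ε + t * Complex.I) * u) =
    -deriv riemannZeta (1 + ε + t * Complex.I) / riemannZeta (1 + ε + t * Complex.I) /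
        (1 + ε + t * Complex.I) - 1 / (ε + t * Complex.I) := by
  have hz : 0 < ((ε : ℂ) + t * Complex.I).re := by simpa using hε
  have h1 := LapP.integral_psi_exp hz
  rw [← add_assoc] at h1
  rw [← h1, ← LapP.integral_exp hz, ← MeasureTheory.integral_sub (LapP.integrable_psi_exp hz)
    (LapP.integrable_exp hz)]
  refine MeasureTheory.setIntegral_congr_fun measurableSet_Ioi fun u _ => ?_
  simp only [Complex.ofReal_sub, Complex.ofReal_one]
  ring

end Pool.Agent.EN
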