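import Mathlib
import Pool.Agent.Lib.MP_ec0ede_nt_EN.Defs1

/-!
# MP_ec0ede_nt, project EN: the Fejer kernel
-/

set_option autoImplicit false

noncomputable section

namespace Pool.Agent.EN

open Real Filter Topology Finset

theorem fej_nonneg {lam : ℝ} (hl : 0 < lam) (x : ℝ) : 0 ≤ fej lam x := by
  unfold fej
  split_ifs
  · positivity
  · positivity

theorem fej_neg (lam x : ℝ) : fej lam (-x) = fej lam x := by
  unfold fej
  simp only [neg_eq_zero, mul_neg, Real.sin_neg, neg_sq]

namespace FejerAux

open MeasureTheory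

theorem measurable_fej (lam : ℝ) : Measurable (fej lam) := by
  unfold fej
  refine Measurable.ite (measurableSet_eq_fun measurable_id measurable_const) measurable_const ?_
  exact ((Real.measurable_sin.comp (measurable_id.const_mul lam)).pow_const 2).div
    ((measurable_id.pow_const 2).const_mul (π * lam))

theorem fej_mul_sq {lam : ℝ} (hl : 0 < lam) (x : ℝ) : fej lam x * x ^ 2 ≤ 1 / (π * lam) := by
  unfold fej
  split_ifs with h
  · rw [h]
    simp only [ne_eq, OfNat.ofNat_ne_zero, not_false_eq_true, zero_pow, mul_zero]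
    positivity
  · have hx : x ^ 2 ≠ 0 := by positivity
    have h1 : (Real.sin (lam * x)) ^ 2 ≤ 1 := Real.sin_sq_le_one _
    have h2 : (Real.sin (lam * x)) ^ 2 / (π * lam * x ^ 2) * x ^ 2 =
        (Real.sin (lam * x)) ^ 2 / (π * lam) := by
      field_simp
    rw [h2]
    gcongr

theorem fej_le {lam : ℝ} (hl : 0 < lam) (x : ℝ) : fej lam x ≤ lam / π := by
  unfold fej
  split_ifs with h
  · exact le_rfl
  · have hx : 0 < x ^ 2 := by positivity
    rw [div_le_div_iff₀ (by positivity) (by positivity)]
    have h1 : (Real.sin (lam * x)) ^ 2 ≤ (lam * x) ^ 2 := by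
      rw [sq_le_sq]
      exact Real.abs_sin_le_abs
    calc (Real.sin (lam * x)) ^ 2 * π ≤ (lam * x) ^ 2 * π := by gcongr
      _ = lam * (π * lam * x ^ 2) := by ring

theorem fej_bound {lam : ℝ} (hl : 0 < lam) (x : ℝ) :
    fej lam x ≤ (lam / π + 1 / (π * lam)) * (1 + x ^ 2)⁻¹ := by
  rw [← div_eq_mul_inv, le_div_iff₀ (by positivity)]
  have h1 := fej_le hl x
  have h2 := fej_mul_sq hl x
  linarith

/-- The antiderivative computation. -/
theorem tent_cos {a x : ℝ} (ha : 0 < a) (hx : x ≠ 0) :
    ∫ t in (0 : ℝ)..a, (1 - t / a) * (2 * Real.cos (x * t)) =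
      2 * (1 - Real.cos (a * x)) / (a * x ^ 2) := by
  have hd : ∀ t ∈ Set.uIcc (0 : ℝ) a, HasDerivAt
      (fun t : ℝ => 2 * ((1 - t / a) * (Real.sin (x * t) / x)) -
        2 * (Real.cos (x * t) / (a * x ^ 2)))
      ((1 - t / a) * (2 * Real.cos (x * t))) t := by
    intro t _
    have h1 : HasDerivAt (fun t : ℝ => x * t) x t := by
      simpa using (hasDerivAt_id t).const_mul x
    have h2 : HasDerivAt (fun t : ℝ => 1 - t / a) (-(1 / a)) t := by
      simpa using ((hasDerivAt_id t).div_const a).const_sub 1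
    have h3 := (h2.mul ((h1.sin).div_const x)).const_mul 2
    have h4 := ((h1.cos).div_const (a * x ^ 2)).const_mul 2
    have h5 := h3.sub h4
    refine h5.congr_deriv ?_
    field_simp
    ring
  rw [intervalIntegral.integral_eq_sub_of_hasDerivAt hd
    (by apply Continuous.intervalIntegrable; fun_prop)]
  have e : a * x = x * a := mul_comm _ _
  simp only [mul_zero, Real.sin_zero, zero_div, Real.cos_zero, e]
  field_simp
  ring

end FejerAux

open FejerAux in
theorem fej_integrable {lam : ℝ} (hl : 0 < lam) : MeasureTheory.Integrable (fej lam) := by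
  refine (integrable_inv_one_add_sq.const_mul (lam / π + 1 / (π * lam))).mono'
    (measurable_fej lam).aestronglyMeasurable (Filter.Eventually.of_forall fun x => ?_)
  rw [Real.norm_of_nonneg (fej_nonneg hl x)]
  exact fej_bound hl x

open FejerAux in
theorem fej_fourier {lam : ℝ} (hl : 0 < lam) (x : ℝ) : (fej lam x : ℂ) =
    (1 / (2 * π)) * ∫ t in Set.Icc (-(2 * lam)) (2 * lam),
      ((1 - |t| / (2 * lam) : ℝ) : ℂ) * Complex.exp (x * t * Complex.I) := by
  have ha : 0 < 2 * lam := by positivity
  set a : ℝ := 2 * lam with ha'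
  have hcont : Continuous (fun t : ℝ => ((1 - |t| / a : ℝ) : ℂ) * Complex.exp (x * t * Complex.I)) := by
    fun_prop
  have h1 : ∫ t in Set.Icc (-a) a, ((1 - |t| / a : ℝ) : ℂ) * Complex.exp (x * t * Complex.I) =
      ((∫ t in (0 : ℝ)..a, (1 - t / a) * (2 * Real.cos (x * t)) : ℝ) : ℂ) := by
    rw [MeasureTheory.integral_Icc_eq_integral_Ioc,
      ← intervalIntegral.integral_of_le (by linarith : -a ≤ a),
      ← intervalIntegral.integral_add_adjacent_intervals (b := 0)
        (hcont.intervalIntegrable _ _) (hcont.intervalIntegrable _ _)]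
    have h2 := intervalIntegral.integral_comp_neg (a := 0) (b := a)
      (fun t : ℝ => ((1 - |t| / a : ℝ) : ℂ) * Complex.exp (x * t * Complex.I))
    rw [neg_zero] at h2
    rw [← h2, ← intervalIntegral.integral_add ((by fun_prop : Continuous _).intervalIntegrable _ _)
      (hcont.intervalIntegrable _ _), ← intervalIntegral.integral_ofReal]
    refine intervalIntegral.integral_congr fun t ht => ?_
    rw [Set.uIcc_of_le ha.le] at ht
    have h3 : |t| = t := abs_of_nonneg ht.1
    rw [abs_neg, h3]
    have h4 : Complex.exp (x * ((-t : ℝ) : ℂ) * Complex.I) + Complex.exp (x * t * Complex.I) =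
        ((2 * Real.cos (x * t) : ℝ) : ℂ) := by
      have h5 : (x : ℂ) * ((-t : ℝ) : ℂ) * Complex.I = -((x * t : ℝ) : ℂ) * Complex.I := by
        push_cast; ring
      have h6 : (x : ℂ) * (t : ℂ) * Complex.I = ((x * t : ℝ) : ℂ) * Complex.I := by
        push_cast; ring
      rw [h5, h6, Complex.ofReal_mul 2, Complex.ofReal_cos, Complex.ofReal_ofNat, Complex.two_cos]
      ring
    rw [← mul_add, h4, ← Complex.ofReal_mul]
  rw [h1]
  have h2 : fej lam x = 1 / (2 * π) * ∫ t in (0 : ℝ)..a, (1 - t / a) * (2 * Real.cos (x * t)) := by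
    by_cases hx : x = 0
    · subst hx
      have h3 : ∫ t in (0 : ℝ)..a, (1 - t / a) * (2 * Real.cos (0 * t)) = a := by
        have hd : ∀ t ∈ Set.uIcc (0 : ℝ) a, HasDerivAt (fun t : ℝ => 2 * (t - t ^ 2 / (2 * a)))
            ((1 - t / a) * (2 * Real.cos (0 * t))) t := by
          intro t _
          have h5 := ((hasDerivAt_id t).sub (((hasDerivAt_id t).pow 2).div_const (2 * a))).const_mul 2
          refine h5.congr_deriv ?_
          simp
          field_simp
        rw [intervalIntegral.integral_eq_sub_of_hasDerivAt hd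
          (by apply Continuous.intervalIntegrable; fun_prop)]
        field_simp
        ring
      rw [h3]
      unfold fej
      rw [if_pos rfl, ha']
      field_simp
    · rw [tent_cos ha hx]
      unfold fej
      rw [if_neg hx, ha', Real.sin_sq_eq_half_sub]
      have h4 : 2 * (lam * x) = 2 * lam * x := by ring
      rw [h4]
      field_simp
  rw [h2]
  push_cast
  ring

open FejerAux in
theorem fej_integral {lam : ℝ} (hl : 0 < lam) : ∫ x, fej lam x = 1 := by
  have ha : 0 < 2 * lam := by positivity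
  let f : ℝ → ℂ := fun t => ((max 0 (1 - |t| / (2 * lam)) : ℝ) : ℂ)
  have hfc : Continuous f := by
    show Continuous fun t : ℝ => ((max 0 (1 - |t| / (2 * lam)) : ℝ) : ℂ)
    fun_prop
  have hf0 : ∀ t, t ∉ Set.Icc (-(2 * lam)) (2 * lam) → f t = 0 := by
    intro t ht
    have h1 : 2 * lam < |t| := by
      rw [Set.mem_Icc, ← abs_le] at ht
      exact not_le.1 ht
    have h2 : 1 - |t| / (2 * lam) ≤ 0 := by
      rw [sub_nonpos, le_div_iff₀ ha]
      linarith
    show ((max 0 (1 - |t| / (2 * lam)) : ℝ) : ℂ) = 0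
    rw [max_eq_left h2, Complex.ofReal_zero]
  have hsupp : HasCompactSupport f :=
    HasCompactSupport.intro isCompact_Icc hf0
  have hfi : MeasureTheory.Integrable f := hfc.integrable_of_hasCompactSupport hsupp
  have hF : ∀ w : ℝ, FourierTransform.fourier f w = ((2 * π * fej lam (-(2 * π) * w) : ℝ) : ℂ) := by
    intro w
    rw [Real.fourier_real_eq_integral_exp_smul, Complex.ofReal_mul, fej_fourier hl]
    have h1 : ∫ v : ℝ, Complex.exp (↑(-2 * π * v * w) * Complex.I) • f v =
        ∫ v in Set.Icc (-(2 * lam)) (2 * lam),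
          Complex.exp (↑(-2 * π * v * w) * Complex.I) • f v := by
      rw [MeasureTheory.setIntegral_eq_integral_of_forall_compl_eq_zero]
      intro v hv
      rw [hf0 v hv, smul_zero]
    rw [h1]
    have h2 : ∫ v in Set.Icc (-(2 * lam)) (2 * lam),
          Complex.exp (↑(-2 * π * v * w) * Complex.I) • f v =
        ∫ t in Set.Icc (-(2 * lam)) (2 * lam),
          ((1 - |t| / (2 * lam) : ℝ) : ℂ) * Complex.exp (((-(2 * π) * w : ℝ) : ℂ) * t * Complex.I) := by
      refine MeasureTheory.setIntegral_congr_fun measurableSet_Icc fun t ht => ?_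
      have h3 : 0 ≤ 1 - |t| / (2 * lam) := by
        rw [sub_nonneg, div_le_one ha]
        exact abs_le.2 ht
      show Complex.exp (↑(-2 * π * t * w) * Complex.I) • ((max 0 (1 - |t| / (2 * lam)) : ℝ) : ℂ) = _
      rw [max_eq_right h3, smul_eq_mul, mul_comm]
      congr 2
      push_cast
      ring
    rw [h2]
    have hpi : (π : ℂ) ≠ 0 := Complex.ofReal_ne_zero.2 Real.pi_ne_zero
    generalize (∫ t in Set.Icc (-(2 * lam)) (2 * lam),
          ((1 - |t| / (2 * lam) : ℝ) : ℂ) *
            Complex.exp (((-(2 * π) * w : ℝ) : ℂ) * t * Complex.I)) = I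
    push_cast
    field_simp
  have hFi : MeasureTheory.Integrable (FourierTransform.fourier f) := by
    have h1 : FourierTransform.fourier f =
        fun w : ℝ => ((2 * π * fej lam (-(2 * π) * w) : ℝ) : ℂ) := funext hF
    rw [h1]
    exact (((fej_integrable hl).comp_mul_left' (by
      simp [Real.pi_ne_zero])).const_mul (2 * π)).ofReal
  have hinv := hfi.fourierInv_fourier_eq hFi (v := 0) hfc.continuousAt
  rw [Real.fourierInv_eq'] at hinv
  have h5 : ∫ w : ℝ, ((2 * π * fej lam (-(2 * π) * w) : ℝ) : ℂ) = 1 := by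
    have h6 : f 0 = 1 := by
      show ((max 0 (1 - |(0 : ℝ)| / (2 * lam)) : ℝ) : ℂ) = 1
      simp
    rw [h6] at hinv
    rw [← hinv]
    refine MeasureTheory.integral_congr_ae (Filter.Eventually.of_forall fun w => ?_)
    beta_reduce
    rw [hF w]
    simp
  rw [integral_complex_ofReal, MeasureTheory.integral_const_mul,
    MeasureTheory.Measure.integral_comp_mul_left] at h5
  have h7 : 2 * π * (|(-(2 * π))⁻¹| • ∫ x, fej lam x) = 1 := by exact_mod_cast h5
  rw [abs_inv, abs_neg, abs_of_pos (by positivity), smul_eq_mul] at h7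
  rw [← mul_assoc, mul_inv_cancel₀ (by positivity), one_mul] at h7
  exact h7

open FejerAux in
theorem fej_tail {lam δ : ℝ} (hl : 0 < lam) (hδ : 0 < δ) :
    1 - 1 / (lam * δ) ≤ ∫ x in Set.Icc (-δ) δ, fej lam x := by
  have h1 := MeasureTheory.integral_add_compl (measurableSet_Icc (a := -δ) (b := δ))
    (fej_integrable hl)
  rw [fej_integral hl] at h1
  have hI : MeasureTheory.IntegrableOn (fun x : ℝ => x ^ (-2 : ℝ)) (Set.Ioi δ) :=
    integrableOn_Ioi_rpow_of_lt (by norm_num) hδ
  have h2 : ∫ x in Set.Ioi δ, fej lam x ≤ 1 / (π * lam * δ) := by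
    calc ∫ x in Set.Ioi δ, fej lam x ≤ ∫ x in Set.Ioi δ, 1 / (π * lam) * x ^ (-2 : ℝ) := by
          refine MeasureTheory.setIntegral_mono_on (fej_integrable hl).integrableOn
            (hI.const_mul _) measurableSet_Ioi fun x hx => ?_
          have hx0 : 0 < x := lt_trans hδ hx
          have h3 := fej_mul_sq hl x
          rw [Real.rpow_neg hx0.le, Real.rpow_two, ← div_eq_mul_inv, le_div_iff₀ (by positivity)]
          exact h3
      _ = 1 / (π * lam * δ) := by
          rw [MeasureTheory.integral_const_mul, integral_Ioi_rpow_of_lt (by norm_num) hδ]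
          have h4 : δ ^ ((-2 : ℝ) + 1) = δ⁻¹ := by
            rw [show (-2 : ℝ) + 1 = -1 by norm_num, Real.rpow_neg_one]
          rw [h4]
          field_simp
          norm_num
  have h3 : ∫ x in Set.Iio (-δ), fej lam x = ∫ x in Set.Ioi δ, fej lam x := by
    have h4 := integral_comp_neg_Iic (-δ) (fej lam)
    rw [neg_neg] at h4
    rw [← h4, MeasureTheory.integral_Iic_eq_integral_Iio]
    simp only [fej_neg]
  have h4 : ∫ x in (Set.Icc (-δ) δ)ᶜ, fej lam x =
      (∫ x in Set.Iio (-δ), fej lam x) + ∫ x in Set.Ioi δ, fej lam x := by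
    have h5 : (Set.Icc (-δ) δ)ᶜ = Set.Iio (-δ) ∪ Set.Ioi δ := by
      ext x
      simp only [Set.mem_compl_iff, Set.mem_Icc, Set.mem_union, Set.mem_Iio, Set.mem_Ioi,
        not_and_or, not_le]
    rw [h5]
    refine MeasureTheory.setIntegral_union ?_ measurableSet_Ioi (fej_integrable hl).integrableOn
      (fej_integrable hl).integrableOn
    rw [Set.disjoint_left]
    intro x hx hx'
    have := Set.mem_Iio.1 hx
    have := Set.mem_Ioi.1 hx'
    linarith
  have h5 : 2 * (1 / (π * lam * δ)) ≤ 1 / (lam * δ) := by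
    rw [← mul_div_assoc, mul_one, div_le_div_iff₀ (by positivity) (by positivity)]
    have := Real.two_le_pi
    nlinarith [mul_pos hl hδ]
  linarith

end Pool.Agent.EN
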