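import Mathlib
import Pool.Agent.Lib.MP_ec0ede_nt_EN.Defs1
import Pool.Agent.Lib.MP_ec0ede_nt_EN.Fejer

set_option autoImplicit false

/-!
# MP_ec0ede_nt, project EN: a Wiener-Ikehara theorem for bounded functions
-/

noncomputable section

namespace Pool.Agent.EN

open Real Filter Topology Finset

namespace Taub

open MeasureTheory

/-! ### the kernel -/

theorem K_int {lam : ℝ} (hl : 0 < lam) (y : ℝ) : Integrable (fun u => fej lam (y - u)) :=
  (fej_integrable hl).comp_sub_left y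

theorem K_integral {lam : ℝ} (hl : 0 < lam) (y : ℝ) : ∫ u, fej lam (y - u) = 1 := by
  rw [integral_sub_left_eq_self (fej lam) volume y]
  exact fej_integral hl

theorem K_shift (lam y δ : ℝ) :
    ∫ u in Set.Icc (y - δ) (y + δ), fej lam (y - u) = ∫ x in Set.Icc (-δ) δ, fej lam x := by
  rw [← integral_indicator measurableSet_Icc, ← integral_indicator measurableSet_Icc,
    ← integral_sub_left_eq_self ((Set.Icc (-δ) δ).indicator (fej lam)) volume y]
  congr 1
  ext u
  by_cases hu : u ∈ Set.Icc (y - δ) (y + δ)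
  · have h2 : y - u ∈ Set.Icc (-δ) δ := ⟨by linarith [hu.2], by linarith [hu.1]⟩
    rw [Set.indicator_of_mem hu, Set.indicator_of_mem h2]
  · have h2 : y - u ∉ Set.Icc (-δ) δ := fun h => hu ⟨by linarith [h.2], by linarith [h.1]⟩
    rw [Set.indicator_of_notMem hu, Set.indicator_of_notMem h2]

theorem K_set_le {lam : ℝ} (hl : 0 < lam) (y : ℝ) (s : Set ℝ) :
    ∫ u in s, fej lam (y - u) ≤ 1 := by
  rw [← K_integral hl y]
  exact setIntegral_le_integral (K_int hl y) (Eventually.of_forall fun u => fej_nonneg hl _)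

/-- the mass outside of a window -/
theorem K_out {lam δ : ℝ} (hl : 0 < lam) (hδ : 0 < δ) (y : ℝ) :
    ∫ u in (Set.Icc (y - δ) (y + δ))ᶜ, fej lam (y - u) ≤ 1 / (lam * δ) := by
  have h1 := integral_add_compl (μ := volume) (measurableSet_Icc (a := y - δ) (b := y + δ))
    (K_int hl y)
  rw [K_integral hl y, K_shift] at h1
  have h2 := fej_tail hl hδ
  linarith

theorem K_half {lam : ℝ} (hl : 0 < lam) :
    Tendsto (fun y : ℝ => ∫ u in Set.Ioi (0 : ℝ), fej lam (y - u)) atTop (𝓝 1) := by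
  have h1 : Tendsto (fun y : ℝ => 1 - 1 / (lam * (y / 2))) atTop (𝓝 (1 - 0)) := by
    refine tendsto_const_nhds.sub ?_
    refine (tendsto_const_nhds (x := (1:ℝ))).div_atTop ?_
    exact (tendsto_id.atTop_div_const two_pos).const_mul_atTop hl
  rw [sub_zero] at h1
  refine tendsto_of_tendsto_of_tendsto_of_le_of_le' h1 tendsto_const_nhds ?_ ?_
  · filter_upwards [eventually_gt_atTop (0:ℝ)] with y hy
    refine (fej_tail hl (by linarith : 0 < y / 2)).trans ?_
    rw [← K_shift lam y (y / 2)]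
    refine setIntegral_mono_set (K_int hl y).integrableOn
      (Eventually.of_forall fun u => fej_nonneg hl _) ?_
    refine (LE.le.eventuallyLE ?_)
    intro u hu
    show 0 < u
    linarith [hu.1]
  · exact Eventually.of_forall fun y => K_set_le hl y _

/-! ### Fubini -/

section
variable {f : ℝ → ℝ} {C : ℝ}

theorem norm_le (h0 : ∀ u, 0 ≤ f u) (hC : ∀ u, f u ≤ C) (u : ℝ) : |f u - 1| ≤ C + 1 := by
  rw [abs_le]
  have := h0 u
  have := hC u
  constructor <;> linarith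

theorem exp_int {ε : ℝ} (hε : 0 < ε) :
    IntegrableOn (fun u : ℝ => Real.exp (-ε * u)) (Set.Ioi 0) :=
  integrableOn_exp_mul_Ioi (by linarith) 0

theorem prod_int {lam : ℝ} (hl : 0 < lam) (hm : Measurable f) (h0 : ∀ u, 0 ≤ f u)
    (hC : ∀ u, f u ≤ C) {ε : ℝ} (hε : 0 < ε) (y : ℝ) :
    Integrable (Function.uncurry fun t u : ℝ =>
      (((1 - |t| / (2 * lam) : ℝ) : ℂ) * Complex.exp (y * t * Complex.I)) *
        (((f u - 1 : ℝ) : ℂ) * Complex.exp (-(ε + t * Complex.I) * u)))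
      ((volume.restrict (Set.Icc (-(2 * lam)) (2 * lam))).prod
        (volume.restrict (Set.Ioi (0 : ℝ)))) := by
  have hg : Integrable (fun u : ℝ => (C + 1) * Real.exp (-ε * u))
      (volume.restrict (Set.Ioi (0 : ℝ))) := (exp_int hε).const_mul _
  have hf : Integrable (fun _ : ℝ => (1:ℝ) + 1)
      (volume.restrict (Set.Icc (-(2 * lam)) (2 * lam))) :=
    integrableOn_const (by simp)
  have hp := hf.mul_prod hg
  refine Integrable.mono' hp ?_ ?_
  · refine Measurable.aestronglyMeasurable ?_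
    have h1 : Measurable fun p : ℝ × ℝ => (((1 - |p.1| / (2 * lam) : ℝ) : ℂ)) := by fun_prop
    have h2 : Measurable fun p : ℝ × ℝ => Complex.exp (y * p.1 * Complex.I) := by fun_prop
    have h3 : Measurable fun p : ℝ × ℝ => (((f p.2 - 1 : ℝ) : ℂ)) := by fun_prop
    have h4 : Measurable fun p : ℝ × ℝ => Complex.exp (-(ε + p.1 * Complex.I) * p.2) := by fun_prop
    exact (h1.mul h2).mul (h3.mul h4)
  · rw [Measure.prod_restrict, ae_restrict_iff' (measurableSet_Icc.prod measurableSet_Ioi)]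
    refine Eventually.of_forall fun p hp => ?_
    obtain ⟨hp1, _⟩ := hp
    have hw : ‖(((1 - |p.1| / (2 * lam) : ℝ) : ℂ))‖ ≤ 1 + 1 := by
      rw [Complex.norm_real, Real.norm_eq_abs]
      have h5 : |p.1| ≤ 2 * lam := abs_le.2 ⟨hp1.1, hp1.2⟩
      have h6 : |p.1| / (2 * lam) ≤ 1 := by rw [div_le_one (by positivity)]; exact h5
      have h7 : 0 ≤ |p.1| / (2 * lam) := by positivity
      rw [abs_le]
      constructor <;> linarith
    have he : ‖Complex.exp (y * p.1 * Complex.I)‖ = 1 := by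
      have : (y * p.1 * Complex.I : ℂ) = ((y * p.1 : ℝ) : ℂ) * Complex.I := by push_cast; ring
      rw [this, Complex.norm_exp_ofReal_mul_I]
    have hfn : ‖(((f p.2 - 1 : ℝ) : ℂ))‖ ≤ C + 1 := by
      rw [Complex.norm_real, Real.norm_eq_abs]
      exact norm_le h0 hC _
    have he2 : ‖Complex.exp (-(ε + p.1 * Complex.I) * p.2)‖ = Real.exp (-ε * p.2) := by
      rw [Complex.norm_exp]
      congr 1
      simp
    show ‖(((1 - |p.1| / (2 * lam) : ℝ) : ℂ) * Complex.exp (y * p.1 * Complex.I)) *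
        (((f p.2 - 1 : ℝ) : ℂ) * Complex.exp (-(ε + p.1 * Complex.I) * p.2))‖ ≤
      (1 + 1) * ((C + 1) * Real.exp (-ε * p.2))
    rw [norm_mul, norm_mul, norm_mul, he, he2, mul_one]
    have hexp := Real.exp_pos (-ε * p.2)
    refine mul_le_mul hw (mul_le_mul_of_nonneg_right hfn hexp.le) (by positivity) (by norm_num)

theorem fub {lam : ℝ} (hl : 0 < lam) (hm : Measurable f) (h0 : ∀ u, 0 ≤ f u)
    (hC : ∀ u, f u ≤ C) {ε : ℝ} (hε : 0 < ε) (y : ℝ) :
    ∫ u in Set.Ioi (0 : ℝ), (((f u - 1) * Real.exp (-ε * u) * fej lam (y - u) : ℝ) : ℂ) =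
    (1 / (2 * π)) * ∫ t in Set.Icc (-(2 * lam)) (2 * lam),
      (((1 - |t| / (2 * lam) : ℝ) : ℂ) * Complex.exp (y * t * Complex.I)) *
        ∫ u in Set.Ioi (0 : ℝ), ((f u - 1 : ℝ) : ℂ) * Complex.exp (-(ε + t * Complex.I) * u) := by
  have h1 : ∀ t : ℝ, (((1 - |t| / (2 * lam) : ℝ) : ℂ) * Complex.exp (y * t * Complex.I)) *
        (∫ u in Set.Ioi (0 : ℝ), ((f u - 1 : ℝ) : ℂ) * Complex.exp (-(ε + t * Complex.I) * u)) =
      ∫ u in Set.Ioi (0 : ℝ), (((1 - |t| / (2 * lam) : ℝ) : ℂ) * Complex.exp (y * t * Complex.I)) *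
        (((f u - 1 : ℝ) : ℂ) * Complex.exp (-(ε + t * Complex.I) * u)) := by
    intro t
    rw [integral_const_mul]
  simp_rw [h1]
  rw [integral_integral_swap (prod_int hl hm h0 hC hε y), ← integral_const_mul]
  congr 1
  ext u
  have h2 : ∀ t : ℝ, (((1 - |t| / (2 * lam) : ℝ) : ℂ) * Complex.exp (y * t * Complex.I)) *
        (((f u - 1 : ℝ) : ℂ) * Complex.exp (-(ε + t * Complex.I) * u)) =
      (((f u - 1 : ℝ) : ℂ) * Complex.exp (-ε * u)) *
        (((1 - |t| / (2 * lam) : ℝ) : ℂ) * Complex.exp ((y - u : ℝ) * t * Complex.I)) := by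
    intro t
    have h3 : Complex.exp (y * t * Complex.I) * Complex.exp (-(ε + t * Complex.I) * u) =
        Complex.exp (-ε * u) * Complex.exp ((y - u : ℝ) * t * Complex.I) := by
      rw [← Complex.exp_add, ← Complex.exp_add]
      congr 1
      push_cast
      ring
    linear_combination (((1 - |t| / (2 * lam) : ℝ) : ℂ) * ((f u - 1 : ℝ) : ℂ)) * h3
  simp_rw [h2]
  rw [integral_const_mul]
  have h4 := fej_fourier hl (y - u)
  push_cast at h4 ⊢
  rw [h4]
  ring

/-- the transform is integrable on the bounded interval -/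
theorem F_int {lam : ℝ} (hl : 0 < lam) (hm : Measurable f) (h0 : ∀ u, 0 ≤ f u)
    (hC : ∀ u, f u ≤ C) {ε : ℝ} (hε : 0 < ε) (y : ℝ) :
    IntegrableOn (fun t : ℝ => (((1 - |t| / (2 * lam) : ℝ) : ℂ) * Complex.exp (y * t * Complex.I)) *
      ∫ u in Set.Ioi (0 : ℝ), ((f u - 1 : ℝ) : ℂ) * Complex.exp (-(ε + t * Complex.I) * u))
      (Set.Icc (-(2 * lam)) (2 * lam)) := by
  have h1 := (prod_int hl hm h0 hC hε y).integral_prod_left
  refine h1.congr (Eventually.of_forall fun t => ?_)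
  show (∫ u in Set.Ioi (0 : ℝ), (((1 - |t| / (2 * lam) : ℝ) : ℂ) *
    Complex.exp (y * t * Complex.I)) *
        (((f u - 1 : ℝ) : ℂ) * Complex.exp (-(ε + t * Complex.I) * u))) = _
  rw [integral_const_mul]

/-! ### the limit `ε → 0` -/

theorem lim_left {lam : ℝ} (hl : 0 < lam) (hm : Measurable f) (h0 : ∀ u, 0 ≤ f u)
    (hC : ∀ u, f u ≤ C) (y : ℝ) :
    Tendsto (fun ε : ℝ => ∫ u in Set.Ioi (0 : ℝ),
      (((f u - 1) * Real.exp (-ε * u) * fej lam (y - u) : ℝ) : ℂ)) (𝓝[>] 0)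
      (𝓝 (∫ u in Set.Ioi (0 : ℝ), (((f u - 1) * fej lam (y - u) : ℝ) : ℂ))) := by
  have hK := K_int hl y
  refine tendsto_integral_filter_of_dominated_convergence
    (fun u => (C + 1) * fej lam (y - u)) ?_ ?_ ((hK.const_mul (C + 1)).integrableOn) ?_
  · refine Eventually.of_forall fun ε => ?_
    have h1 : AEStronglyMeasurable (fun u => fej lam (y - u)) (volume.restrict (Set.Ioi (0:ℝ))) :=
      hK.aestronglyMeasurable.restrict
    have h2 : Measurable fun u : ℝ => (f u - 1) * Real.exp (-ε * u) := by fun_prop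
    exact Complex.continuous_ofReal.comp_aestronglyMeasurable (h2.aestronglyMeasurable.mul h1)
  · filter_upwards [self_mem_nhdsWithin] with ε hε
    rw [ae_restrict_iff' measurableSet_Ioi]
    refine Eventually.of_forall fun u hu => ?_
    have hu0 : (0:ℝ) < u := hu
    have hε0 : (0:ℝ) < ε := hε
    rw [Complex.norm_real, Real.norm_eq_abs, abs_mul, abs_mul, abs_of_pos (Real.exp_pos _),
      abs_of_nonneg (fej_nonneg hl _)]
    have h1 : Real.exp (-ε * u) ≤ 1 := by
      rw [Real.exp_le_one_iff]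
      nlinarith
    have h2 := norm_le h0 hC u
    have h3 := fej_nonneg hl (y - u)
    have h4 := Real.exp_pos (-ε * u)
    refine mul_le_mul_of_nonneg_right ?_ h3
    calc |f u - 1| * Real.exp (-ε * u) ≤ |f u - 1| * 1 :=
          mul_le_mul_of_nonneg_left h1 (abs_nonneg _)
      _ ≤ C + 1 := by linarith
  · refine Eventually.of_forall fun u => ?_
    have h1 : Tendsto (fun ε : ℝ => (((f u - 1) * Real.exp (-ε * u) * fej lam (y - u) : ℝ) : ℂ))
        (𝓝 0) (𝓝 (((f u - 1) * Real.exp (-0 * u) * fej lam (y - u) : ℝ) : ℂ)) := by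
      have hc : Continuous fun ε : ℝ =>
        (((f u - 1) * Real.exp (-ε * u) * fej lam (y - u) : ℝ) : ℂ) := by fun_prop
      exact hc.tendsto 0
    rw [neg_zero, zero_mul, Real.exp_zero, mul_one] at h1
    exact h1.mono_left nhdsWithin_le_nhds

theorem lim_right {lam : ℝ} (hl : 0 < lam) (hm : Measurable f) (h0 : ∀ u, 0 ≤ f u)
    (hC : ∀ u, f u ≤ C) (g : ℝ → ℂ) (hg : Continuous g)
    (hlim : ∀ T : ℝ, TendstoUniformlyOn (fun (ε : ℝ) (t : ℝ) =>
      ∫ u in Set.Ioi (0 : ℝ), ((f u - 1 : ℝ) : ℂ) * Complex.exp (-(ε + t * Complex.I) * u))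
      g (𝓝[>] 0) (Set.Icc (-T) T)) (y : ℝ) :
    Tendsto (fun ε : ℝ => ∫ t in Set.Icc (-(2 * lam)) (2 * lam),
      (((1 - |t| / (2 * lam) : ℝ) : ℂ) * Complex.exp (y * t * Complex.I)) *
        ∫ u in Set.Ioi (0 : ℝ), ((f u - 1 : ℝ) : ℂ) * Complex.exp (-(ε + t * Complex.I) * u))
      (𝓝[>] 0)
      (𝓝 (∫ t in Set.Icc (-(2 * lam)) (2 * lam),
        (((1 - |t| / (2 * lam) : ℝ) : ℂ) * Complex.exp (y * t * Complex.I)) * g t)) := by
  have hu := hlim (2 * lam)
  have hu1 : ∀ᶠ ε : ℝ in 𝓝[>] 0, ∀ t ∈ Set.Icc (-(2 * lam)) (2 * lam),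
      dist (g t) (∫ u in Set.Ioi (0 : ℝ), ((f u - 1 : ℝ) : ℂ) *
        Complex.exp (-(ε + t * Complex.I) * u)) < 1 :=
    Metric.tendstoUniformlyOn_iff.1 hu 1 one_pos
  refine tendsto_integral_filter_of_dominated_convergence
    (fun t => 2 * (‖g t‖ + 1)) ?_ ?_ ?_ ?_
  · filter_upwards [self_mem_nhdsWithin] with ε hε
    exact (F_int hl hm h0 hC hε y).aestronglyMeasurable
  · filter_upwards [hu1] with ε hε
    rw [ae_restrict_iff' measurableSet_Icc]
    refine Eventually.of_forall fun t ht => ?_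
    have h1 := hε t ht
    have hw : ‖(((1 - |t| / (2 * lam) : ℝ) : ℂ))‖ ≤ 2 := by
      rw [Complex.norm_real, Real.norm_eq_abs]
      have h5 : |t| ≤ 2 * lam := abs_le.2 ⟨ht.1, ht.2⟩
      have h6 : |t| / (2 * lam) ≤ 1 := by rw [div_le_one (by positivity)]; exact h5
      have h7 : 0 ≤ |t| / (2 * lam) := by positivity
      rw [abs_le]
      constructor <;> linarith
    have he : ‖Complex.exp (y * t * Complex.I)‖ = 1 := by
      have : (y * t * Complex.I : ℂ) = ((y * t : ℝ) : ℂ) * Complex.I := by push_cast; ring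
      rw [this, Complex.norm_exp_ofReal_mul_I]
    rw [norm_mul, norm_mul, he, mul_one]
    rw [dist_eq_norm] at h1
    have h2 : ‖∫ u in Set.Ioi (0 : ℝ), ((f u - 1 : ℝ) : ℂ) *
        Complex.exp (-(ε + t * Complex.I) * u)‖ ≤ ‖g t‖ + 1 := by
      have := norm_sub_norm_le (∫ u in Set.Ioi (0 : ℝ), ((f u - 1 : ℝ) : ℂ) *
        Complex.exp (-(ε + t * Complex.I) * u)) (g t)
      rw [norm_sub_rev] at this
      linarith
    exact mul_le_mul hw h2 (norm_nonneg _) (by norm_num)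
  · have hc : Continuous fun t : ℝ => 2 * (‖g t‖ + 1) := by fun_prop
    exact hc.continuousOn.integrableOn_Icc
  · rw [ae_restrict_iff' measurableSet_Icc]
    refine Eventually.of_forall fun t ht => ?_
    exact (hu.tendsto_at ht).const_mul _

theorem I_eq {lam : ℝ} (hl : 0 < lam) (hm : Measurable f) (h0 : ∀ u, 0 ≤ f u)
    (hC : ∀ u, f u ≤ C) (g : ℝ → ℂ) (hg : Continuous g)
    (hlim : ∀ T : ℝ, TendstoUniformlyOn (fun (ε : ℝ) (t : ℝ) =>
      ∫ u in Set.Ioi (0 : ℝ), ((f u - 1 : ℝ) : ℂ) * Complex.exp (-(ε + t * Complex.I) * u))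
      g (𝓝[>] 0) (Set.Icc (-T) T)) (y : ℝ) :
    ∫ u in Set.Ioi (0 : ℝ), (((f u - 1) * fej lam (y - u) : ℝ) : ℂ) =
    (1 / (2 * π)) * ∫ t in Set.Icc (-(2 * lam)) (2 * lam),
      (((1 - |t| / (2 * lam) : ℝ) : ℂ) * Complex.exp (y * t * Complex.I)) * g t := by
  have hL := lim_left hl hm h0 hC y
  have hR := (lim_right hl hm h0 hC g hg hlim y).const_mul (1 / (2 * π) : ℂ)
  refine tendsto_nhds_unique hL (hR.congr' ?_)
  filter_upwards [self_mem_nhdsWithin] with ε hε
  exact (fub hl hm h0 hC hε y).symm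

end

/-! ### Riemann-Lebesgue -/

theorem RL (lam : ℝ) (g : ℝ → ℂ) :
    Tendsto (fun y : ℝ => ∫ t in Set.Icc (-(2 * lam)) (2 * lam),
      (((1 - |t| / (2 * lam) : ℝ) : ℂ) * Complex.exp (y * t * Complex.I)) * g t) atTop (𝓝 0) := by
  have h1 := Real.tendsto_integral_exp_smul_cocompact
    ((Set.Icc (-(2 * lam)) (2 * lam)).indicator fun t : ℝ => (((1 - |t| / (2 * lam) : ℝ) : ℂ)) * g t)
  have h2 : Tendsto (fun y : ℝ => -(y / (2 * π))) atTop (cocompact ℝ) := by
    have h3 : Tendsto (fun y : ℝ => y / (2 * π)) atTop atTop :=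
      tendsto_id.atTop_div_const (by positivity)
    exact (tendsto_neg_atTop_atBot.comp h3).mono_right atBot_le_cocompact
  refine (h1.comp h2).congr fun y => ?_
  rw [← integral_indicator measurableSet_Icc]
  show (∫ v : ℝ, Real.fourierChar (-(v * -(y / (2 * π)))) •
    ((Set.Icc (-(2 * lam)) (2 * lam)).indicator fun t : ℝ =>
      (((1 - |t| / (2 * lam) : ℝ) : ℂ)) * g t) v) = _
  congr 1
  ext t
  by_cases ht : t ∈ Set.Icc (-(2 * lam)) (2 * lam)
  · rw [Set.indicator_of_mem ht, Set.indicator_of_mem ht, Circle.smul_def,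
      Real.fourierChar_apply, smul_eq_mul]
    have h3 : ((2 * π * -(t * -(y / (2 * π))) : ℝ) : ℂ) * Complex.I = y * t * Complex.I := by
      have h4 : 2 * π * -(t * -(y / (2 * π))) = y * t := by
        field_simp
      rw [h4]
      push_cast
      ring
    rw [h3]
    ring
  · rw [Set.indicator_of_notMem ht, Set.indicator_of_notMem ht, smul_zero]

/-! ### the mean values -/

section
variable {f : ℝ → ℝ} {C : ℝ}

theorem fK_int {lam : ℝ} (hl : 0 < lam) (hm : Measurable f) (h0 : ∀ u, 0 ≤ f u)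
    (hC : ∀ u, f u ≤ C) (y : ℝ) : Integrable (fun u => f u * fej lam (y - u)) := by
  have hK := K_int hl y
  refine Integrable.mono' (hK.const_mul C) (hm.aestronglyMeasurable.mul hK.aestronglyMeasurable)
    (Eventually.of_forall fun u => ?_)
  rw [Real.norm_eq_abs, abs_mul, abs_of_nonneg (h0 u), abs_of_nonneg (fej_nonneg hl _)]
  exact mul_le_mul_of_nonneg_right (hC u) (fej_nonneg hl _)

theorem J_tendsto {lam : ℝ} (hl : 0 < lam) (hm : Measurable f) (h0 : ∀ u, 0 ≤ f u)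
    (hC : ∀ u, f u ≤ C) (g : ℝ → ℂ) (hg : Continuous g)
    (hlim : ∀ T : ℝ, TendstoUniformlyOn (fun (ε : ℝ) (t : ℝ) =>
      ∫ u in Set.Ioi (0 : ℝ), ((f u - 1 : ℝ) : ℂ) * Complex.exp (-(ε + t * Complex.I) * u))
      g (𝓝[>] 0) (Set.Icc (-T) T)) :
    Tendsto (fun y : ℝ => ∫ u in Set.Ioi (0 : ℝ), f u * fej lam (y - u)) atTop (𝓝 1) := by
  have h1 : Tendsto (fun y : ℝ => ((∫ u in Set.Ioi (0 : ℝ), (f u - 1) * fej lam (y - u) : ℝ) : ℂ))
      atTop (𝓝 0) := by
    have h2 := (RL lam g).const_mul (1 / (2 * π) : ℂ)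
    rw [mul_zero] at h2
    refine h2.congr fun y => ?_
    rw [← I_eq hl hm h0 hC g hg hlim y]
    exact integral_complex_ofReal
  have h3 : Tendsto (fun y : ℝ => ∫ u in Set.Ioi (0 : ℝ), (f u - 1) * fej lam (y - u))
      atTop (𝓝 0) := by
    have h4 := (Complex.continuous_re.tendsto 0).comp h1
    exact h4
  have h5 := h3.add (K_half hl)
  rw [zero_add] at h5
  refine h5.congr fun y => ?_
  have hK := (K_int hl y).integrableOn (s := Set.Ioi (0:ℝ))
  have hF := (fK_int hl hm h0 hC y).integrableOn (s := Set.Ioi (0:ℝ))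
  have h6 : IntegrableOn (fun u => (f u - 1) * fej lam (y - u)) (Set.Ioi (0:ℝ)) := by
    refine (hF.sub hK).congr (Eventually.of_forall fun u => ?_)
    show f u * fej lam (y - u) - fej lam (y - u) = (f u - 1) * fej lam (y - u)
    ring
  rw [← integral_add h6 hK]
  congr 1
  ext u
  ring

theorem J_lower {lam δ : ℝ} (hl : 0 < lam) (hδ : 0 < δ) (hm : Measurable f) (h0 : ∀ u, 0 ≤ f u)
    (hC : ∀ u, f u ≤ C)
    (hmono : ∀ u v, 0 ≤ u → u ≤ v → Real.exp u * f u ≤ Real.exp v * f v) {y : ℝ} (hy : 0 < y) :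
    f y * Real.exp (-(2 * δ)) * (1 - 1 / (lam * δ)) ≤
      ∫ u in Set.Ioi (0 : ℝ), f u * fej lam ((y + δ) - u) := by
  have hF := fK_int hl hm h0 hC (y + δ)
  have hK := K_int hl (y + δ)
  have h1 : ∫ u in Set.Icc ((y + δ) - δ) ((y + δ) + δ), f u * fej lam ((y + δ) - u) ≤
      ∫ u in Set.Ioi (0 : ℝ), f u * fej lam ((y + δ) - u) := by
    refine setIntegral_mono_set hF.integrableOn
      (Eventually.of_forall fun u => mul_nonneg (h0 u) (fej_nonneg hl _)) ?_
    refine (LE.le.eventuallyLE ?_)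
    intro u hu
    show 0 < u
    linarith [hu.1]
  have h2 : ∫ u in Set.Icc ((y + δ) - δ) ((y + δ) + δ),
        (f y * Real.exp (-(2 * δ))) * fej lam ((y + δ) - u) ≤
      ∫ u in Set.Icc ((y + δ) - δ) ((y + δ) + δ), f u * fej lam ((y + δ) - u) := by
    refine setIntegral_mono_on (hK.const_mul _).integrableOn hF.integrableOn measurableSet_Icc
      fun u hu => ?_
    refine mul_le_mul_of_nonneg_right ?_ (fej_nonneg hl _)
    have hu1 : y ≤ u := by linarith [hu.1]
    have hu2 : u ≤ y + 2 * δ := by linarith [hu.2]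
    have h3 := hmono y u hy.le hu1
    have h4 : Real.exp y * f y * Real.exp (-u) ≤ f u := by
      have h5 := mul_le_mul_of_nonneg_right h3 (Real.exp_pos (-u)).le
      have h6 : Real.exp u * f u * Real.exp (-u) = f u := by
        rw [mul_comm (Real.exp u), mul_assoc, ← Real.exp_add, add_neg_cancel, Real.exp_zero,
          mul_one]
      rw [h6] at h5
      exact h5
    refine le_trans ?_ h4
    have h7 : Real.exp (-(2 * δ)) ≤ Real.exp y * Real.exp (-u) := by
      rw [← Real.exp_add, Real.exp_le_exp]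
      linarith
    calc f y * Real.exp (-(2 * δ)) ≤ f y * (Real.exp y * Real.exp (-u)) :=
          mul_le_mul_of_nonneg_left h7 (h0 y)
      _ = Real.exp y * f y * Real.exp (-u) := by ring
  rw [integral_const_mul, K_shift] at h2
  have h3 := fej_tail hl hδ
  have h4 : f y * Real.exp (-(2 * δ)) * (1 - 1 / (lam * δ)) ≤
      f y * Real.exp (-(2 * δ)) * ∫ x in Set.Icc (-δ) δ, fej lam x :=
    mul_le_mul_of_nonneg_left h3 (mul_nonneg (h0 y) (Real.exp_pos _).le)
  linarith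

theorem J_upper {lam δ : ℝ} (hl : 0 < lam) (hδ : 0 < δ) (hm : Measurable f) (h0 : ∀ u, 0 ≤ f u)
    (hC : ∀ u, f u ≤ C)
    (hmono : ∀ u v, 0 ≤ u → u ≤ v → Real.exp u * f u ≤ Real.exp v * f v) {y : ℝ}
    (hy : 2 * δ < y) :
    ∫ u in Set.Ioi (0 : ℝ), f u * fej lam ((y - δ) - u) ≤
      f y * Real.exp (2 * δ) + C / (lam * δ) := by
  have hF := fK_int hl hm h0 hC (y - δ)
  have hK := K_int hl (y - δ)
  have hC0 : 0 ≤ C := (h0 0).trans (hC 0)
  have h1 : ∫ u in Set.Ioi (0 : ℝ), f u * fej lam ((y - δ) - u) ≤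
      ∫ u, f u * fej lam ((y - δ) - u) :=
    setIntegral_le_integral hF (Eventually.of_forall fun u => mul_nonneg (h0 u) (fej_nonneg hl _))
  rw [← integral_add_compl (measurableSet_Icc (a := (y - δ) - δ) (b := (y - δ) + δ)) hF] at h1
  have h2 : ∫ u in Set.Icc ((y - δ) - δ) ((y - δ) + δ), f u * fej lam ((y - δ) - u) ≤
      ∫ u in Set.Icc ((y - δ) - δ) ((y - δ) + δ),
        (f y * Real.exp (2 * δ)) * fej lam ((y - δ) - u) := by
    refine setIntegral_mono_on hF.integrableOn (hK.const_mul _).integrableOn measurableSet_Icc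
      fun u hu => ?_
    refine mul_le_mul_of_nonneg_right ?_ (fej_nonneg hl _)
    have hu1 : y - 2 * δ ≤ u := by linarith [hu.1]
    have hu2 : u ≤ y := by linarith [hu.2]
    have h3 := hmono u y (by linarith) hu2
    have h5 := mul_le_mul_of_nonneg_right h3 (Real.exp_pos (-u)).le
    have h6 : Real.exp u * f u * Real.exp (-u) = f u := by
      rw [mul_comm (Real.exp u), mul_assoc, ← Real.exp_add, add_neg_cancel, Real.exp_zero,
        mul_one]
    rw [h6] at h5
    refine h5.trans ?_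
    have h7 : Real.exp y * Real.exp (-u) ≤ Real.exp (2 * δ) := by
      rw [← Real.exp_add, Real.exp_le_exp]
      linarith
    calc Real.exp y * f y * Real.exp (-u) = f y * (Real.exp y * Real.exp (-u)) := by ring
      _ ≤ f y * Real.exp (2 * δ) := mul_le_mul_of_nonneg_left h7 (h0 y)
  have h3 : ∫ u in (Set.Icc ((y - δ) - δ) ((y - δ) + δ))ᶜ, f u * fej lam ((y - δ) - u) ≤
      ∫ u in (Set.Icc ((y - δ) - δ) ((y - δ) + δ))ᶜ, C * fej lam ((y - δ) - u) := by
    refine setIntegral_mono_on hF.integrableOn (hK.const_mul _).integrableOn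
      measurableSet_Icc.compl fun u _ => ?_
    exact mul_le_mul_of_nonneg_right (hC u) (fej_nonneg hl _)
  rw [integral_const_mul] at h2 h3
  have h4 := K_set_le hl (y - δ) (Set.Icc ((y - δ) - δ) ((y - δ) + δ))
  have h5 := K_out hl hδ (y - δ)
  have h6 : f y * Real.exp (2 * δ) * ∫ u in Set.Icc ((y - δ) - δ) ((y - δ) + δ),
      fej lam ((y - δ) - u) ≤ f y * Real.exp (2 * δ) * 1 :=
    mul_le_mul_of_nonneg_left h4 (mul_nonneg (h0 y) (Real.exp_pos _).le)
  have h7 : C * ∫ u in (Set.Icc ((y - δ) - δ) ((y - δ) + δ))ᶜ, fej lam ((y - δ) - u) ≤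
      C * (1 / (lam * δ)) := mul_le_mul_of_nonneg_left h5 hC0
  rw [mul_one_div] at h7
  linarith

end

end Taub

open Taub in
theorem tauberian (f : ℝ → ℝ) (C : ℝ) (hm : Measurable f) (h0 : ∀ u, 0 ≤ f u) (hC : ∀ u, f u ≤ C)
    (hmono : ∀ u v, 0 ≤ u → u ≤ v → Real.exp u * f u ≤ Real.exp v * f v)
    (g : ℝ → ℂ) (hg : Continuous g)
    (hlim : ∀ T : ℝ, TendstoUniformlyOn (fun (ε : ℝ) (t : ℝ) =>
      ∫ u in Set.Ioi (0 : ℝ), ((f u - 1 : ℝ) : ℂ) * Complex.exp (-(ε + t * Complex.I) * u))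
      g (𝓝[>] 0) (Set.Icc (-T) T)) :
    Tendsto f atTop (𝓝 1) := by
  have hC0 : 0 ≤ C := (h0 0).trans (hC 0)
  rw [tendsto_order]
  constructor
  · -- lower bound
    intro a ha
    -- choose `δ` with `a < exp (-2δ) (1 - C δ)`
    have hcont : Tendsto (fun δ : ℝ => Real.exp (-(2 * δ)) * (1 - C * δ)) (𝓝 0)
        (𝓝 (Real.exp (-(2 * 0)) * (1 - C * 0))) := by
      have : Continuous fun δ : ℝ => Real.exp (-(2 * δ)) * (1 - C * δ) := by fun_prop
      exact this.tendsto 0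
    have e0 : Real.exp (-(2 * 0)) * (1 - C * 0) = 1 := by simp
    rw [e0] at hcont
    have h1 : ∀ᶠ δ : ℝ in 𝓝[>] 0, a < Real.exp (-(2 * δ)) * (1 - C * δ) :=
      (hcont.mono_left nhdsWithin_le_nhds).eventually (lt_mem_nhds ha)
    obtain ⟨δ, hδa, hδ0⟩ := (h1.and self_mem_nhdsWithin).exists
    have hδ : 0 < δ := hδ0
    have hl : 0 < 1 / δ ^ 2 := by positivity
    have hlδ : C / (1 / δ ^ 2 * δ) = C * δ := by field_simp
    have hJ := J_tendsto hl hm h0 hC g hg hlim
    have hs : Tendsto (fun y : ℝ => y - δ) atTop atTop := tendsto_atTop_add_const_right _ _ tendsto_id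
    have hJ2 := hJ.comp hs
    have h2 : Tendsto (fun y : ℝ => Real.exp (-(2 * δ)) *
        ((∫ u in Set.Ioi (0 : ℝ), f u * fej (1 / δ ^ 2) ((y - δ) - u)) - C * δ)) atTop
        (𝓝 (Real.exp (-(2 * δ)) * (1 - C * δ))) := (hJ2.sub_const _).const_mul _
    filter_upwards [h2.eventually (lt_mem_nhds hδa), eventually_gt_atTop (2 * δ)] with y hy hy2
    refine lt_of_lt_of_le hy ?_
    have h3 := J_upper hl hδ hm h0 hC hmono hy2
    rw [hlδ] at h3
    have h4 : Real.exp (-(2 * δ)) * Real.exp (2 * δ) = 1 := by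
      rw [← Real.exp_add, neg_add_cancel, Real.exp_zero]
    calc Real.exp (-(2 * δ)) * ((∫ u in Set.Ioi (0 : ℝ), f u * fej (1 / δ ^ 2) ((y - δ) - u)) - C * δ)
        ≤ Real.exp (-(2 * δ)) * (f y * Real.exp (2 * δ)) :=
          mul_le_mul_of_nonneg_left (by linarith) (Real.exp_pos _).le
      _ = (Real.exp (-(2 * δ)) * Real.exp (2 * δ)) * f y := by ring
      _ = f y := by rw [h4, one_mul]
  · -- upper bound
    intro b hb
    have hcont : Tendsto (fun δ : ℝ => b * (Real.exp (-(2 * δ)) * (1 - δ))) (𝓝 0)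
        (𝓝 (b * (Real.exp (-(2 * 0)) * (1 - 0)))) := by
      have : Continuous fun δ : ℝ => b * (Real.exp (-(2 * δ)) * (1 - δ)) := by fun_prop
      exact this.tendsto 0
    have e0 : b * (Real.exp (-(2 * 0)) * (1 - 0)) = b := by simp
    rw [e0] at hcont
    have h1 : ∀ᶠ δ : ℝ in 𝓝[>] 0, 1 < b * (Real.exp (-(2 * δ)) * (1 - δ)) :=
      (hcont.mono_left nhdsWithin_le_nhds).eventually (lt_mem_nhds hb)
    have h1' : ∀ᶠ δ : ℝ in 𝓝[>] 0, δ < 1 :=
      (tendsto_id.mono_left nhdsWithin_le_nhds).eventually (gt_mem_nhds one_pos)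
    obtain ⟨δ, ⟨hδa, hδ1⟩, hδ0⟩ := ((h1.and h1').and self_mem_nhdsWithin).exists
    have hδ : 0 < δ := hδ0
    have hl : 0 < 1 / δ ^ 2 := by positivity
    have hlδ : 1 / (1 / δ ^ 2 * δ) = δ := by field_simp
    have hJ := J_tendsto hl hm h0 hC g hg hlim
    have hs : Tendsto (fun y : ℝ => y + δ) atTop atTop := tendsto_atTop_add_const_right _ _ tendsto_id
    have hJ2 : Tendsto (fun y : ℝ => ∫ u in Set.Ioi (0 : ℝ), f u * fej (1 / δ ^ 2) ((y + δ) - u))
      atTop (𝓝 1) := hJ.comp hs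
    filter_upwards [hJ2.eventually (gt_mem_nhds hδa), eventually_gt_atTop (0:ℝ)] with y hy hy2
    have h3 := J_lower hl hδ hm h0 hC hmono hy2
    rw [hlδ] at h3
    have h4 : 0 < Real.exp (-(2 * δ)) * (1 - δ) := mul_pos (Real.exp_pos _) (by linarith)
    have h5 : f y * (Real.exp (-(2 * δ)) * (1 - δ)) < b * (Real.exp (-(2 * δ)) * (1 - δ)) := by
      have h6 : f y * Real.exp (-(2 * δ)) * (1 - δ) = f y * (Real.exp (-(2 * δ)) * (1 - δ)) := by ring
      linarith
    exact lt_of_mul_lt_mul_right h5 h4.le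

end Pool.Agent.EN
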