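import Mathlib
import Pool.Agent.Lib.MP_ec0ede_nt_EN.Defs1

set_option autoImplicit false

/-!
# MP_ec0ede_nt, project EN: the logarithmic derivative of zeta near the line `Re s = 1`
-/

noncomputable section

namespace Pool.Agent.EN

open Real Filter Topology Finset

namespace ZetaC

/-- `(s - 1) ζ(s)`, completed at `s = 1` -/
abbrev Z1 : ℂ → ℂ := DirichletCharacter.LFunctionTrivChar₁ 1

/-- the regular part of `-ζ'/ζ` -/
def K (s : ℂ) : ℂ := -deriv Z1 s / Z1 s

theorem triv_eq : DirichletCharacter.LFunctionTrivChar 1 = riemannZeta :=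
  DirichletCharacter.LFunction_modOne_eq

theorem continuousOn_K : ContinuousOn K {s : ℂ | 1 ≤ s.re} := by
  refine (DirichletCharacter.continuousOn_neg_logDeriv_LFunctionTrivChar₁ 1).mono ?_
  intro s hs
  right
  rw [triv_eq]
  exact riemannZeta_ne_zero_of_one_le_re hs

theorem K_eq {s : ℂ} (hs : s ≠ 1) (hre : 1 ≤ s.re) :
    -deriv riemannZeta s / riemannZeta s / s - 1 / (s - 1) = (K s - 1) / s := by
  have h0 : riemannZeta s ≠ 0 := riemannZeta_ne_zero_of_one_le_re hre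
  have h1 : s - 1 ≠ 0 := sub_ne_zero.mpr hs
  have h2 : s ≠ 0 := by
    intro h
    rw [h] at hre
    simp at hre
    linarith
  have h3 : Z1 s = (s - 1) * riemannZeta s := by
    show Function.update _ _ _ s = _
    rw [Function.update_of_ne hs, triv_eq]
  have h4 : deriv Z1 s = (s - 1) * deriv riemannZeta s + riemannZeta s := by
    have := DirichletCharacter.deriv_LFunctionTrivChar₁_apply_of_ne_one 1 hs
    rw [triv_eq] at this
    exact this
  unfold K
  rw [h3, h4]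
  field_simp
  ring

/-- the extended function -/
def F (ε t : ℝ) : ℂ := (K (1 + ε + t * Complex.I) - 1) / (1 + ε + t * Complex.I)

theorem re_eq (ε t : ℝ) : ((1 : ℂ) + ε + t * Complex.I).re = 1 + ε := by simp

theorem continuousOn_F (U : Set ℝ) : ContinuousOn (Function.uncurry F) (Set.Ici (0 : ℝ) ×ˢ U) := by
  have hc : Continuous (fun p : ℝ × ℝ => (1 : ℂ) + (p.1 : ℂ) + (p.2 : ℂ) * Complex.I) := by
    fun_prop
  have hm : Set.MapsTo (fun p : ℝ × ℝ => (1 : ℂ) + (p.1 : ℂ) + (p.2 : ℂ) * Complex.I)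
      (Set.Ici (0 : ℝ) ×ˢ U) {s : ℂ | 1 ≤ s.re} := by
    rintro ⟨ε, t⟩ ⟨h, -⟩
    show 1 ≤ ((1 : ℂ) + (ε : ℂ) + (t : ℂ) * Complex.I).re
    rw [re_eq]
    have : (0 : ℝ) ≤ ε := h
    linarith
  have hK : ContinuousOn (fun p : ℝ × ℝ => K ((1 : ℂ) + (p.1 : ℂ) + (p.2 : ℂ) * Complex.I))
      (Set.Ici (0 : ℝ) ×ˢ U) := continuousOn_K.comp hc.continuousOn hm
  refine (hK.sub continuousOn_const).div hc.continuousOn ?_
  rintro ⟨ε, t⟩ ⟨h, -⟩ h0
  have h1 : ((1 : ℂ) + (ε : ℂ) + (t : ℂ) * Complex.I).re = 0 := by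
    have h0' : ((1 : ℂ) + (ε : ℂ) + (t : ℂ) * Complex.I) = 0 := h0
    rw [h0']; simp
  rw [re_eq] at h1
  have : (0 : ℝ) ≤ ε := h
  linarith

theorem continuous_F0 : Continuous (fun t : ℝ => F 0 t) := by
  have h := continuousOn_F Set.univ
  have h2 : Continuous (fun t : ℝ => ((0 : ℝ), t)) := by fun_prop
  have h3 := h.comp_continuous h2 (fun t => ⟨le_refl (0 : ℝ), Set.mem_univ t⟩)
  exact h3

theorem F_eq {ε t : ℝ} (hε : 0 < ε) :
    -deriv riemannZeta (1 + ε + t * Complex.I) / riemannZeta (1 + ε + t * Complex.I) /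
      (1 + ε + t * Complex.I) - 1 / (ε + t * Complex.I) = F ε t := by
  have hre : 1 ≤ ((1 : ℂ) + ε + t * Complex.I).re := by rw [re_eq]; linarith
  have hne : ((1 : ℂ) + ε + t * Complex.I) ≠ 1 := by
    intro h
    have : ((1 : ℂ) + ε + t * Complex.I).re = 1 := by rw [h]; simp
    rw [re_eq] at this
    linarith
  have e : ((ε : ℂ) + t * Complex.I) = (1 + ε + t * Complex.I) - 1 := by ring
  unfold F
  rw [e]
  exact K_eq hne hre

end ZetaC

theorem zeta_unif : ∃ g : ℝ → ℂ, Continuous g ∧ ∀ T : ℝ,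
    TendstoUniformlyOn (fun (ε : ℝ) (t : ℝ) =>
      -deriv riemannZeta (1 + ε + t * Complex.I) / riemannZeta (1 + ε + t * Complex.I) /
        (1 + ε + t * Complex.I) - 1 / (ε + t * Complex.I)) g (𝓝[>] 0) (Set.Icc (-T) T) := by
  refine ⟨fun t => ZetaC.F 0 t, ZetaC.continuous_F0, fun T => ?_⟩
  intro u hu
  have hu' : Prod.swap ⁻¹' u ∈ uniformity ℂ := symm_le_uniformity hu
  obtain ⟨v, hv, hv2⟩ := isCompact_Icc.mem_uniformity_of_prod
    (ZetaC.continuousOn_F (Set.Icc (-T) T)) (Set.mem_Ici.mpr (le_refl (0 : ℝ))) hu'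
  have hv' : v ∈ 𝓝[>] (0 : ℝ) := nhdsWithin_mono 0 (Set.Ioi_subset_Ici_self) hv
  filter_upwards [hv', self_mem_nhdsWithin] with ε hε hpos t ht
  rw [ZetaC.F_eq hpos]
  exact hv2 ε hε t ht

end Pool.Agent.EN
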