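import Mathlib
import Pool.Agent.Lib.MP_ec0ede_nt_EN.Defs1
import Pool.Agent.Lib.MP_ec0ede_nt_EN.ZetaC
import Pool.Agent.Lib.MP_ec0ede_nt_EN.LapP
import Pool.Agent.Lib.MP_ec0ede_nt_EN.Taub

set_option autoImplicit false

/-!
# MP_ec0ede_nt, project EN: the prime number theorem
-/

noncomputable section

namespace Pool.Agent.EN

open Real Filter Topology Finset

namespace Pnt

theorem psi_exp_tendsto :
    Tendsto (fun u : ℝ => Chebyshev.psi (Real.exp u) * Real.exp (-u)) atTop (𝓝 1) := by
  obtain ⟨g, hg, hlim⟩ := zeta_unif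
  refine tauberian (fun u : ℝ => Chebyshev.psi (Real.exp u) * Real.exp (-u)) (Real.log 4 + 4)
    ?_ ?_ ?_ ?_ g hg ?_
  · exact (Chebyshev.psi_mono.measurable.comp Real.measurable_exp).mul
      (Real.measurable_exp.comp measurable_neg)
  · intro u
    exact mul_nonneg (Chebyshev.psi_nonneg _) (Real.exp_pos _).le
  · intro u
    have h := Chebyshev.psi_le_const_mul_self (Real.exp_pos u).le
    calc Chebyshev.psi (Real.exp u) * Real.exp (-u)
        ≤ (Real.log 4 + 4) * Real.exp u * Real.exp (-u) :=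
          mul_le_mul_of_nonneg_right h (Real.exp_pos _).le
      _ = Real.log 4 + 4 := by
          rw [mul_assoc, ← Real.exp_add, add_neg_cancel, Real.exp_zero, mul_one]
  · intro u v _ huv
    have h : ∀ w : ℝ, Real.exp w * (Chebyshev.psi (Real.exp w) * Real.exp (-w)) =
        Chebyshev.psi (Real.exp w) := by
      intro w
      rw [mul_comm, mul_assoc, ← Real.exp_add, neg_add_cancel, Real.exp_zero, mul_one]
    show Real.exp u * (Chebyshev.psi (Real.exp u) * Real.exp (-u)) ≤
      Real.exp v * (Chebyshev.psi (Real.exp v) * Real.exp (-v))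
    rw [h, h]
    exact Chebyshev.psi_mono (Real.exp_le_exp.2 huv)
  · intro T
    refine (hlim T).congr ?_
    filter_upwards [self_mem_nhdsWithin] with ε hε t _
    exact (laplace_psi ε t hε).symm

theorem psi_div_tendsto : Tendsto (fun x : ℝ => Chebyshev.psi x / x) atTop (𝓝 1) := by
  refine (psi_exp_tendsto.comp Real.tendsto_log_atTop).congr' ?_
  filter_upwards [eventually_gt_atTop (0 : ℝ)] with x hx
  show Chebyshev.psi (Real.exp (Real.log x)) * Real.exp (-Real.log x) = Chebyshev.psi x / x
  rw [Real.exp_neg, Real.exp_log hx, div_eq_mul_inv]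

end Pnt

theorem pnt : Tendsto (fun x : ℝ => Chebyshev.theta x / x) atTop (𝓝 1) := by
  obtain ⟨C, hC⟩ := Chebyshev.psi_sub_theta_le_mul_sqrt
  have h1 : Tendsto (fun x : ℝ => C * (√x)⁻¹) atTop (𝓝 0) := by
    rw [← mul_zero C]
    exact (tendsto_inv_atTop_zero.comp tendsto_sqrt_atTop).const_mul C
  have h2 : Tendsto (fun x : ℝ => Chebyshev.psi x / x - Chebyshev.theta x / x) atTop (𝓝 0) := by
    refine squeeze_zero' ?_ ?_ h1
    · filter_upwards [eventually_gt_atTop (0 : ℝ)] with x hx
      rw [← sub_div]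
      exact div_nonneg (sub_nonneg.2 (Chebyshev.theta_le_psi x)) hx.le
    · filter_upwards [eventually_gt_atTop (0 : ℝ)] with x hx
      rw [← sub_div, div_le_iff₀ hx]
      refine (hC x).trans (le_of_eq ?_)
      have h3 : √x * √x = x := Real.mul_self_sqrt hx.le
      have h4 : √x ≠ 0 := (Real.sqrt_pos.2 hx).ne'
      field_simp
      rw [sq, h3]
  have h3 := Pnt.psi_div_tendsto.sub h2
  rw [sub_zero] at h3
  refine h3.congr fun x => ?_
  ring

end Pool.Agent.EN
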