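import Mathlib
import Pool.Agent.Lib.MP_ec0ede_nt_EN.Defs1

set_option autoImplicit false

/-!
# MP_ec0ede_nt, project EN: the levels of the primes, tuples of primes, divisor windows
-/

noncomputable section

namespace Pool.Agent.EN

open Real Filter Topology Finset

/-! ### Indicators -/

open Classical in
/-- the indicator of a proposition -/
def ind (p : Prop) : ℝ := if p then 1 else 0

theorem ind_of {p : Prop} (h : p) : ind p = 1 := if_pos h

theorem ind_not_of {p : Prop} (h : ¬ p) : ind p = 0 := if_neg h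

theorem ind_nonneg (p : Prop) : 0 ≤ ind p := by unfold ind; split <;> norm_num

theorem ind_le_one (p : Prop) : ind p ≤ 1 := by unfold ind; split <;> norm_num

theorem ind_mono {p q : Prop} (h : p → q) : ind p ≤ ind q := by
  by_cases hp : p
  · rw [ind_of hp, ind_of (h hp)]
  · rw [ind_not_of hp]; exact ind_nonneg q

theorem ind_congr {p q : Prop} (h : p ↔ q) : ind p = ind q := le_antisymm (ind_mono h.1) (ind_mono h.2)

theorem ind_and (p q : Prop) : ind (p ∧ q) = ind p * ind q := by
  by_cases hp : p <;> by_cases hq : q <;> simp [ind, hp, hq]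

theorem ind_not (p : Prop) : ind (¬ p) = 1 - ind p := by
  by_cases hp : p <;> simp [ind, hp]

theorem ind_or_le (p q : Prop) : ind (p ∨ q) ≤ ind p + ind q := by
  by_cases hp : p <;> by_cases hq : q <;> simp [ind, hp, hq]

/-! ### The laws of the levels -/

/-- the tent function -/
def tent (x : ℝ) : ℝ := max 0 (1 - |x|)

/-- the law of the primes of level `j`: the prime `p` is represented by the interval
`[G (p - 1), G p]` of length `1 / p`, and level `j` has the density
`tent (g / log 2 - j) / log 2` -/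
def mu (j p : ℕ) : ℝ := 1 / Real.log 2 * ∫ g in (G (p - 1))..(G p), tent (g / Real.log 2 - j)

/-- the primes of level at most `L` are smaller than `bd L` -/
def bd (L : ℕ) : ℕ := sInf {n : ℕ | ((L : ℝ) + 1) * Real.log 2 ≤ G n} + 1

/-- the mass of the interval `(a, b]` (for the logarithms of the primes) in level `j` -/
def mass (j : ℕ) (a b : ℝ) : ℝ :=
  ∑ p ∈ (range (bd j)).filter (fun p : ℕ => a < Real.log p ∧ Real.log p ≤ b), mu j p

/-- Mertens' constant -/
def Mer : ℝ := limUnder atTop (fun N : ℕ => G N - Real.log (Real.log N))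

/-- the density of the logarithms of the primes of level `l` is asymptotically
`psi (x / 2 ^ l) / 2 ^ l` -/
def psi (x : ℝ) : ℝ :=
  if 0 < x then tent ((Real.log x + Mer) / Real.log 2) / (x * Real.log 2) else 0

/-! ### Expectations over tuples of primes -/

/-- the expectation of `F τ`, the coordinates `τ i` are independent with laws `m i` on `P` -/
def Ex {ι : Type} [Fintype ι] [DecidableEq ι] (P : Finset ℕ) (m : ι → ℕ → ℝ)
    (F : (ι → ℕ) → ℝ) : ℝ :=
  ∑ τ ∈ Fintype.piFinset (fun _ : ι => P), (∏ i, m i (τ i)) * F τ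

/-- a system of laws: mass one, density at most `D / 2 ^ lev i` on intervals of length at least
one, positions at most `D * 2 ^ lev i` -/
structure Laws {ι : Type} (P : Finset ℕ) (m : ι → ℕ → ℝ) (lev : ι → ℕ) (D : ℝ) : Prop where
  nonneg : ∀ i p, 0 ≤ m i p
  mass : ∀ i, ∑ p ∈ P, m i p = 1
  dens : ∀ i (u h : ℝ), 1 ≤ h →
    ∑ p ∈ P.filter (fun p : ℕ => u ≤ Real.log p ∧ Real.log p ≤ u + h), m i p ≤ D * h / 2 ^ lev i
  supp : ∀ i p, m i p ≠ 0 → 0 ≤ Real.log p ∧ Real.log p ≤ D * 2 ^ lev i

/-- the index set of the tuples with counts `ν` -/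
abbrev Idx {n : ℕ} (ν : Fin n → ℕ) : Type := (l : Fin n) × Fin (ν l)

/-- the level of an index, the first level is `K + 1` -/
def lv (K : ℕ) {n : ℕ} (ν : Fin n → ℕ) (i : Idx ν) : ℕ := K + i.1 + 1

/-- the expectation over the tuples with counts `ν` on the levels `K + 1, ..., K + n`; all the
primes are smaller than `bd L` -/
def EX (L K : ℕ) {n : ℕ} (ν : Fin n → ℕ) (F : (Idx ν → ℕ) → ℝ) : ℝ :=
  Ex (range (bd L)) (fun i => mu (lv K ν i)) F

/-- the number of indices whose level is at most the level of `i` -/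
def nb {ι : Type} [Fintype ι] (lev : ι → ℕ) (i : ι) : ℕ :=
  (univ.filter fun i' : ι => lev i' ≤ lev i).card

/-- the quantity `2 ^ (nb i) / 2 ^ (lev i)` -/
def th {ι : Type} [Fintype ι] (lev : ι → ℕ) (i : ι) : ℝ := 2 ^ nb lev i / 2 ^ lev i

/-- the indices of two consecutive blocks of levels -/
def idxF {m n : ℕ} (ν : Fin m → ℕ) (ν' : Fin n → ℕ) :
    Idx ν ⊕ Idx ν' → Idx (Fin.append ν ν') :=
  Sum.elim (fun i => ⟨Fin.castAdd n i.1, Fin.cast (by simp) i.2⟩)
    (fun i => ⟨Fin.natAdd m i.1, Fin.cast (by simp) i.2⟩)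

theorem idxF_bijective {m n : ℕ} (ν : Fin m → ℕ) (ν' : Fin n → ℕ) :
    Function.Bijective (idxF ν ν') := by
  constructor
  · rintro (⟨i, a⟩ | ⟨i, a⟩) (⟨j, b⟩ | ⟨j, b⟩) h
    · simp only [idxF, Sum.elim_inl, Sigma.mk.injEq] at h
      obtain ⟨h1, h2⟩ := h
      have h3 : i = j := Fin.castAdd_injective _ _ h1
      subst h3
      have h4 := eq_of_heq h2
      simpa using h4
    · simp only [idxF, Sum.elim_inl, Sum.elim_inr, Sigma.mk.injEq] at h
      exact absurd (congrArg Fin.val h.1) (by simp; omega)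
    · simp only [idxF, Sum.elim_inl, Sum.elim_inr, Sigma.mk.injEq] at h
      exact absurd (congrArg Fin.val h.1) (by simp; omega)
    · simp only [idxF, Sum.elim_inr, Sigma.mk.injEq] at h
      obtain ⟨h1, h2⟩ := h
      have h3 : i = j := Fin.natAdd_injective _ _ h1
      subst h3
      have h4 := eq_of_heq h2
      simpa using h4
  · rintro ⟨l, a⟩
    induction l using Fin.addCases with
    | left i => exact ⟨Sum.inl ⟨i, Fin.cast (by simp) a⟩, by simp [idxF]⟩
    | right i => exact ⟨Sum.inr ⟨i, Fin.cast (by simp) a⟩, by simp [idxF]⟩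

/-- the equivalence `idxF` -/
def idxE {m n : ℕ} (ν : Fin m → ℕ) (ν' : Fin n → ℕ) :
    Idx ν ⊕ Idx ν' ≃ Idx (Fin.append ν ν') :=
  Equiv.ofBijective (idxF ν ν') (idxF_bijective ν ν')

/-- joining the tuples of two consecutive blocks of levels -/
def jn {m n : ℕ} {ν : Fin m → ℕ} {ν' : Fin n → ℕ} (τ : Idx ν → ℕ) (τ' : Idx ν' → ℕ)
    (i : Idx (Fin.append ν ν')) : ℕ := Sum.elim τ τ' ((idxE ν ν').symm i)

/-- the logarithm of the product over a subset of indices -/
def sz {ι : Type} (τ : ι → ℕ) (S : Finset ι) : ℝ := ∑ i ∈ S, Real.log (τ i)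

open Classical in
/-- the number of subsets `S` with `y - sz τ S ∈ T` -/
def Wn {ι : Type} [Fintype ι] (T : Set ℝ) (y : ℝ) (τ : ι → ℕ) : ℕ :=
  (univ.filter fun S : Finset ι => y - sz τ S ∈ T).card

/-- the union of the windows `[log d, log d + log 2)` over the divisors `d` of `f * ∏ τ` -/
def TW (f : ℕ) {ι : Type} (τ : ι → ℕ) : Set ℝ :=
  {t | ∃ d ∈ f.divisors, ∃ S : Finset ι,
    Real.log d + sz τ S ≤ t ∧ t < Real.log d + sz τ S + Real.log 2}

/-- the primes `τ i` are distinct and do not divide `f` -/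
def Inj (f : ℕ) {ι : Type} (τ : ι → ℕ) : Prop :=
  Function.Injective τ ∧ ∀ i, ¬ τ i ∣ f

/-- the union of the windows `[q, q + log 2)`, `q ∈ Z` -/
def UW (Z : Finset ℝ) : Set ℝ := {t | ∃ q ∈ Z, q ≤ t ∧ t < q + Real.log 2}

/-! ### Vectors of zeros and ones -/

/-- the vector of zeros and ones -/
def bv {k : ℕ} (b : Fin k → Bool) (a : Fin k) : ℚ := if b a then 1 else 0

open Classical in
/-- the indices at which the span of the previous vectors increases -/
def jmp {ι : Type} [Fintype ι] [LinearOrder ι] {k : ℕ} (v : ι → Fin k → Bool) : Finset ι :=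
  univ.filter fun i => bv (v i) ∉ Submodule.span ℚ {u | ∃ i' < i, u = bv (v i')}

/-- the `k` sets described by `v` are nonempty and distinct -/
def Dist {ι : Type} {k : ℕ} (v : ι → Fin k → Bool) : Prop :=
  (∀ a, ∃ i, v i a = true) ∧ ∀ a b, a ≠ b → ∃ i, v i a ≠ v i b

/-- each of the `k` sets described by `v` has a private element in `B` -/
def Priv {ι : Type} {k : ℕ} (v : ι → Fin k → Bool) (B : Finset ι) : Prop :=
  ∀ a, ∃ i ∈ B, ∀ b, v i b = true ↔ b = a

/-- the sum of the logarithms over the set number `a` described by `v` -/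
def sv {ι : Type} [Fintype ι] {k : ℕ} (τ : ι → ℕ) (v : ι → Fin k → Bool) (a : Fin k) : ℝ :=
  ∑ i, if v i a = true then Real.log (τ i) else 0

/-! ### The reduction -/

/-- the exponent `δ` -/
def dl : ℝ := 1 - (1 + Real.log (Real.log 2)) / Real.log 2

/-- the weight of the part `f` (exponents at least two, and primes of level `0`) -/
def wf (f : ℕ) : ℝ := ∏ p ∈ f.primeFactors,
  if f.factorization p = 1 then Real.log 2 * mu 0 p else (1 / (p : ℝ)) ^ (f.factorization p)

/-- `f` is nonzero and all its prime factors are at most `N` -/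
def Sm (N f : ℕ) : Prop := f ≠ 0 ∧ ∀ p, p.Prime → p ∣ f → p ≤ N

/-- the weighted probability of a divisor in the window, for given `f` -/
def Z (f L : ℕ) (y : ℝ) : ℝ :=
  ∑' ν : Fin L → ℕ, wt ν * zz ^ (X ν L) * EX L 0 ν (fun τ => ind (Inj f τ ∧ y ∈ TW f τ))

/-- the normalising constant -/
def cN (N L : ℕ) : ℝ :=
  (∏ p ∈ Nat.primesLE N, (1 - 1 / (p : ℝ))) *
  (∏ p ∈ (range (bd L)).filter (fun p => N < p), (1 + Real.log 2 * ∑ j ∈ Icc 1 L, mu j p))⁻¹ *
  2 ^ L

/-- `n` has a divisor in `(N / 2, N]` -/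
def HasDiv (N n : ℕ) : Prop := ∃ d, d ∣ n ∧ N < 2 * d ∧ d ≤ N

open Classical in
/-- `e` is the natural density of the integers with a divisor in `(N / 2, N]` -/
def IsDens (N : ℕ) (e : ℝ) : Prop :=
  Tendsto (fun x : ℕ => (((Icc 1 x).filter fun n => HasDiv N n).card : ℝ) / x) atTop (𝓝 e)

open Classical in
/-- the density of the integers with a divisor in `(N / 2, N]` -/
def eps (N : ℕ) : ℝ :=
  (((range N.factorial).filter fun n => HasDiv N n).card : ℝ) / N.factorial

/-! ### The top end -/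

/-- the smoothed number of divisors of the top part just below `exp y`, at the scale `2 ^ a` -/
def RA {ι : Type} [Fintype ι] (a : ℕ) (y : ℝ) (τ : ι → ℕ) : ℝ :=
  ∑ S : Finset ι, tent ((y - sz τ S) / 2 ^ a - 1)

/-- the length of a set of reals -/
def vol (T : Set ℝ) : ℝ := (MeasureTheory.volume T).toReal

end Pool.Agent.EN
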