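import Mathlib
import Pool.Agent.Lib.MP_ec0ede_nt_EN.Defs2

set_option autoImplicit false

/-!
# MP_ec0ede_nt, project EN: weighted sums over counts, the limit functions
-/

noncomputable section

namespace Pool.Agent.EN

open Real Filter Topology Finset

/-! ### Weighted sums over the counts -/

/-- the weighted sum over the counts of `L` levels -/
def ZS (L : ℕ) (F : (Fin L → ℕ) → ℝ) : ℝ := ∑' ν : Fin L → ℕ, wt ν * zz ^ (X ν L) * F ν

/-- the probability of a divisor in the window, given the counts -/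
def PrA (f L : ℕ) (y : ℝ) (ν : Fin L → ℕ) : ℝ :=
  EX L 0 ν (fun τ => ind (Inj f τ ∧ y ∈ TW f τ))

/-- the same, with the condition on coincidences for the first `K` levels only -/
def PrB (f K m : ℕ) (y : ℝ) (νC : Fin K → ℕ) (ν : Fin m → ℕ) : ℝ :=
  EX (K + m) 0 νC (fun τ => ind (Inj f τ) *
    EX (K + m) K ν (fun τ' => ind (0 < Wn (TW f τ) y τ')))

/-- the main term for the probability of a divisor in the window, given the counts of the first
`K` levels, the number `N` of primes on the next `n` levels and the counts of the last `s` levels -/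
def PrC (f K n s : ℕ) (y : ℝ) (νC : Fin K → ℕ) (N : ℕ) (νA : Fin s → ℕ) : ℝ :=
  EX (K + (n + s)) 0 νC (fun τ => ind (Inj f τ) *
    EX (K + (n + s)) (K + n) νA (fun τ' =>
      1 - Real.exp (-(RA (K + n) y τ' / 2 ^ (K + n) * 2 ^ N * vol (TW f τ)))))

/-- the sum of `(ν_l + 1) 2 ^ (- X_l)` over the levels `l` with `K < l ≤ a` -/
def xi {L : ℕ} (K a : ℕ) (ν : Fin L → ℕ) : ℝ :=
  ∑ l : Fin L, if K ≤ (l : ℕ) ∧ (l : ℕ) + 1 ≤ a then
    ((ν l : ℝ) + 1) * (2 : ℝ) ^ (-X ν (l + 1)) else 0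

/-- the good counts -/
def Nice (D0 C1 η1 : ℝ) (κ s1 K n s : ℕ) (ν : Fin (K + (n + s)) → ℕ) : Prop :=
  xi 0 (K + (n + s)) ν ≤ D0 ∧ xi K (K + n + (s - s / 2)) ν ≤ η1 ∧ Q ν (K + n) ≤ C1 ∧
  κ ≤ cnt ν (K + n) - cnt ν (K + n - s1)

/-! ### The limit functions -/

/-- the limit of `RA`: the position of a prime of level `l` is `exp (-Mer) 2 ^ (l + t)` with `t`
distributed with the density `tent` -/
def RAinf {s : ℕ} (ν : Fin s → ℕ) (Y : ℝ) (t : Idx ν → ℝ) : ℝ :=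
  ∑ S : Finset (Idx ν), tent (Y * 2 ^ s -
    ∑ i ∈ S, Real.exp (-Mer) * (2 : ℝ) ^ ((i.1 : ℝ) + 1 + t i) - 1)

/-- the limit of the expectation over the last `s` levels -/
def EAinf {s : ℕ} (ν : Fin s → ℕ) (Y r : ℝ) : ℝ :=
  ∫ t : Idx ν → ℝ, (∏ i, tent (t i)) * (1 - Real.exp (-(r * RAinf ν Y t)))

/-- the factor of the last `s` levels: the walk enters them at the height `b - c1 - 1` -/
def psA (c1 c2 s : ℕ) (Y r : ℝ) : ℝ :=
  ∑' b : ℕ, (b : ℝ) * ∑' ν : Fin s → ℕ, wt ν *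
    ind ((∀ j ≤ s, -(c1 : ℤ) ≤ (b : ℤ) - c1 - 1 + X ν j) ∧ (b : ℤ) - c1 - 1 + X ν s ≤ c2) *
    zz ^ ((b : ℤ) - c1 - 1 + X ν s) * EAinf ν Y (r * (2 : ℝ) ^ (-((b : ℤ) - c1 - 1)))

/-- the limit of `L ^ (3 / 2)` times the sum over the good paths, for given `f` -/
def Psi (K s c1 c2 f : ℕ) (Y : ℝ) : ℝ :=
  ∑' ν : Fin K → ℕ, wt ν * ind (∀ j ≤ K, -(c1 : ℤ) ≤ X ν j) * hg (X ν K + c1 + 1).toNat *
    EX K 0 ν (fun τ => ind (Inj f τ) * psA c1 c2 s Y (vol (TW f τ) / 2 ^ cnt ν K))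

/-- the limit of `cN` -/
def cinf : ℝ :=
  Real.exp (∑' p : Nat.Primes, (Real.log (1 - 1 / (p : ℝ)) + 1 / (p : ℝ))) / √2

/-- the approximations of the limit function, as functions of `t = log Y / log 2` -/
def Th (K s c1 c2 F0 : ℕ) (t : ℝ) : ℝ :=
  cinf * (Real.log 2) ^ (3 / 2 : ℝ) * (2 : ℝ) ^ (dl * t) *
    ∑ f ∈ Icc 1 F0, wf f * Psi K s c1 c2 f ((2 : ℝ) ^ t)

/-- `loglog N / log 2` -/
def xx (N : ℕ) : ℝ := Real.log (Real.log N) / Real.log 2

/-- the left end of the window for `xx N - L` -/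
def al : ℝ := -Mer / Real.log 2 - 5 / 2

/-- the normalised densities -/
def AA (N : ℕ) : ℝ := eps N * (Real.log N) ^ dl * (Real.log (Real.log N)) ^ (3 / 2 : ℝ)

/-- `T` approximates `A` with error `ε` in the window -/
def Appr (A : ℕ → ℝ) (α : ℝ) (T : ℝ → ℝ) (ε : ℝ) : Prop :=
  ContinuousOn T (Set.Icc α (α + 2)) ∧ ∃ N0 : ℕ, ∀ N ≥ N0, ∀ L : ℕ,
    α ≤ xx N - L → xx N - L ≤ α + 2 → |A N - T (xx N - L)| ≤ ε

end Pool.Agent.EN
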