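import Mathlib
import Pool.Agent.Lib.MP_ec0ede_nt_EN.Defs3

set_option autoImplicit false

/-!
# MP_ec0ede_nt, project EN: blocks of counts
-/

noncomputable section

namespace Pool.Agent.EN

open Real Filter Topology Finset

/-- the counts of the first `m` levels -/
def lo {m n : ℕ} (ν : Fin (m + n) → ℕ) : Fin m → ℕ := fun i => ν (Fin.castAdd n i)

/-- the counts of the last `n` levels -/
def hi {m n : ℕ} (ν : Fin (m + n) → ℕ) : Fin n → ℕ := fun i => ν (Fin.natAdd m i)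

theorem append_lo_hi {m n : ℕ} (ν : Fin (m + n) → ℕ) : Fin.append (lo ν) (hi ν) = ν := by
  funext i
  refine Fin.addCases (fun i => ?_) (fun i => ?_) i
  · simp [lo]
  · simp [hi]

theorem lo_append {m n : ℕ} (ν : Fin m → ℕ) (ν' : Fin n → ℕ) : lo (Fin.append ν ν') = ν := by
  funext i; simp [lo]

theorem hi_append {m n : ℕ} (ν : Fin m → ℕ) (ν' : Fin n → ℕ) : hi (Fin.append ν ν') = ν' := by
  funext i; simp [hi]

/-- the counts on `s` levels with exactly one prime, on level number `c` -/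
def tp (c s : ℕ) : Fin s → ℕ := fun i => if (i : ℕ) + 1 = c then 1 else 0

/-- the counts used for the lower bound -/
def NP (K1 : ℕ) (D0 C1 : ℝ) {b : ℕ} (ν : Fin b → ℕ) : Prop :=
  (∀ l : Fin b, (l : ℕ) < K1 → ν l = 0) ∧ (∀ j ≤ b, 0 ≤ X ν j) ∧ X ν b = 0 ∧
  xi 0 b ν ≤ D0 ∧ Q ν b ≤ C1

end Pool.Agent.EN
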