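import Mathlib
import Pool.Agent.Lib.MP_ec0ede_nt_EN.Defs2

set_option autoImplicit false

/-!
# MP_ec0ede_nt, project EN, module ExB: finite sum manipulations for the expectation over tuples
-/

noncomputable section

namespace Pool.Agent.EN

open Real Filter Topology Finset

section ExB

variable {ι : Type} [Fintype ι] [DecidableEq ι]

theorem Ex_add (P : Finset ℕ) (m : ι → ℕ → ℝ) (F F' : (ι → ℕ) → ℝ) :
    Ex P m (fun τ => F τ + F' τ) = Ex P m F + Ex P m F' := by
  unfold Ex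
  rw [← Finset.sum_add_distrib]
  exact Finset.sum_congr rfl fun τ _ => mul_add _ _ _

theorem Ex_sub (P : Finset ℕ) (m : ι → ℕ → ℝ) (F F' : (ι → ℕ) → ℝ) :
    Ex P m (fun τ => F τ - F' τ) = Ex P m F - Ex P m F' := by
  unfold Ex
  rw [← Finset.sum_sub_distrib]
  exact Finset.sum_congr rfl fun τ _ => mul_sub _ _ _

theorem Ex_mul (P : Finset ℕ) (m : ι → ℕ → ℝ) (c : ℝ) (F : (ι → ℕ) → ℝ) :
    Ex P m (fun τ => c * F τ) = c * Ex P m F := by
  unfold Ex
  rw [Finset.mul_sum]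
  exact Finset.sum_congr rfl fun τ _ => by ring

theorem Ex_fsum (P : Finset ℕ) (m : ι → ℕ → ℝ) {κ : Type} (s : Finset κ)
    (F : κ → (ι → ℕ) → ℝ) :
    Ex P m (fun τ => ∑ k ∈ s, F k τ) = ∑ k ∈ s, Ex P m (F k) := by
  unfold Ex
  rw [Finset.sum_comm]
  exact Finset.sum_congr rfl fun τ _ => Finset.mul_sum _ _ _

/-- monotonicity, only the tuples in the support count -/
theorem Ex_mono (P : Finset ℕ) (m : ι → ℕ → ℝ) (hm : ∀ i p, 0 ≤ m i p)
    (F F' : (ι → ℕ) → ℝ) (h : ∀ τ : ι → ℕ, (∀ i, τ i ∈ P ∧ m i (τ i) ≠ 0) → F τ ≤ F' τ) :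
    Ex P m F ≤ Ex P m F' := by
  unfold Ex
  refine Finset.sum_le_sum fun τ hτ => ?_
  by_cases hne : ∀ i, m i (τ i) ≠ 0
  · exact mul_le_mul_of_nonneg_left
      (h τ fun i => ⟨Fintype.mem_piFinset.1 hτ i, hne i⟩)
      (Finset.prod_nonneg fun i _ => hm i _)
  · push Not at hne
    obtain ⟨i, hi⟩ := hne
    rw [Finset.prod_eq_zero (Finset.mem_univ i) hi, zero_mul, zero_mul]

theorem Ex_congr (P : Finset ℕ) (m : ι → ℕ → ℝ)
    (F F' : (ι → ℕ) → ℝ) (h : ∀ τ : ι → ℕ, (∀ i, τ i ∈ P ∧ m i (τ i) ≠ 0) → F τ = F' τ) :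
    Ex P m F = Ex P m F' := by
  unfold Ex
  refine Finset.sum_congr rfl fun τ hτ => ?_
  by_cases hne : ∀ i, m i (τ i) ≠ 0
  · rw [h τ fun i => ⟨Fintype.mem_piFinset.1 hτ i, hne i⟩]
  · push Not at hne
    obtain ⟨i, hi⟩ := hne
    rw [Finset.prod_eq_zero (Finset.mem_univ i) hi, zero_mul, zero_mul]

theorem Ex_nonneg (P : Finset ℕ) (m : ι → ℕ → ℝ) (hm : ∀ i p, 0 ≤ m i p)
    (F : (ι → ℕ) → ℝ) (h : ∀ τ : ι → ℕ, (∀ i, τ i ∈ P ∧ m i (τ i) ≠ 0) → 0 ≤ F τ) :
    0 ≤ Ex P m F := by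
  have h0 : Ex P m (fun _ => (0 : ℝ)) = 0 := by
    unfold Ex
    exact Finset.sum_eq_zero fun τ _ => mul_zero _
  rw [← h0]
  exact Ex_mono P m hm _ _ h

theorem Ex_abs_le (P : Finset ℕ) (m : ι → ℕ → ℝ) (hm : ∀ i p, 0 ≤ m i p)
    (F : (ι → ℕ) → ℝ) : |Ex P m F| ≤ Ex P m (fun τ => |F τ|) := by
  unfold Ex
  refine (Finset.abs_sum_le_sum_abs _ _).trans (le_of_eq ?_)
  refine Finset.sum_congr rfl fun τ _ => ?_
  rw [abs_mul, abs_of_nonneg (Finset.prod_nonneg fun i _ => hm i _)]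

theorem Ex_prod (P : Finset ℕ) (m : ι → ℕ → ℝ) (f : ι → ℕ → ℝ) :
    Ex P m (fun τ => ∏ i, f i (τ i)) = ∏ i, ∑ p ∈ P, m i p * f i p := by
  unfold Ex
  rw [Finset.prod_univ_sum]
  exact Finset.sum_congr rfl fun τ _ => (Finset.prod_mul_distrib).symm

theorem Ex_const (P : Finset ℕ) (m : ι → ℕ → ℝ) (h1 : ∀ i, ∑ p ∈ P, m i p = 1) (c : ℝ) :
    Ex P m (fun _ => c) = c := by
  have h := Ex_prod P m (fun _ _ => (1 : ℝ))
  simp only [Finset.prod_const_one, mul_one, h1] at h
  have h2 := Ex_mul P m c (fun _ => (1 : ℝ))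
  rw [h] at h2
  simpa using h2

/-- summing out the coordinates in `J` first -/
theorem Ex_pivots (P : Finset ℕ) (m : ι → ℕ → ℝ) (h1 : ∀ i, ∑ p ∈ P, m i p = 1)
    (J : Finset ι) (F : (ι → ℕ) → ℝ) :
    Ex P m F = Ex P m (fun τ => Ex P m (fun σ => F (fun i => if i ∈ J then σ i else τ i))) := by
  have hmass : ∑ τ ∈ Fintype.piFinset (fun _ : ι => P), ∏ i, m i (τ i) = 1 := by
    have h := Ex_const P m h1 1
    unfold Ex at h
    simpa using h
  have hL : Ex P m F = ∑ x ∈ (Fintype.piFinset (fun _ : ι => P)) ×ˢ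
      (Fintype.piFinset (fun _ : ι => P)),
      ((∏ i, m i (x.1 i)) * F x.1) * ∏ i, m i (x.2 i) := by
    rw [Finset.sum_product]
    unfold Ex
    refine Finset.sum_congr rfl fun τ _ => ?_
    simp only
    rw [← Finset.mul_sum, hmass, mul_one]
  have hR : Ex P m (fun τ => Ex P m (fun σ => F (fun i => if i ∈ J then σ i else τ i)))
      = ∑ x ∈ (Fintype.piFinset (fun _ : ι => P)) ×ˢ
      (Fintype.piFinset (fun _ : ι => P)),
      (∏ i, m i (x.1 i)) * ((∏ i, m i (x.2 i)) *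
        F (fun i => if i ∈ J then x.2 i else x.1 i)) := by
    rw [Finset.sum_product]
    unfold Ex
    refine Finset.sum_congr rfl fun τ _ => ?_
    rw [Finset.mul_sum]
  rw [hL, hR]
  refine Finset.sum_nbij'
    (fun x => (fun i => if i ∈ J then x.2 i else x.1 i, fun i => if i ∈ J then x.1 i else x.2 i))
    (fun x => (fun i => if i ∈ J then x.2 i else x.1 i, fun i => if i ∈ J then x.1 i else x.2 i))
    ?_ ?_ ?_ ?_ ?_
  · intro x hx
    rw [Finset.mem_product, Fintype.mem_piFinset, Fintype.mem_piFinset] at hx ⊢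
    refine ⟨fun i => ?_, fun i => ?_⟩
    · by_cases hi : i ∈ J
      · simp only [hi, if_true]; exact hx.2 i
      · simp only [hi, if_false]; exact hx.1 i
    · by_cases hi : i ∈ J
      · simp only [hi, if_true]; exact hx.1 i
      · simp only [hi, if_false]; exact hx.2 i
  · intro x hx
    rw [Finset.mem_product, Fintype.mem_piFinset, Fintype.mem_piFinset] at hx ⊢
    refine ⟨fun i => ?_, fun i => ?_⟩
    · by_cases hi : i ∈ J
      · simp only [hi, if_true]; exact hx.2 i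
      · simp only [hi, if_false]; exact hx.1 i
    · by_cases hi : i ∈ J
      · simp only [hi, if_true]; exact hx.1 i
      · simp only [hi, if_false]; exact hx.2 i
  · intro x _
    refine Prod.ext (funext fun i => ?_) (funext fun i => ?_)
    · by_cases hi : i ∈ J <;> simp [hi]
    · by_cases hi : i ∈ J <;> simp [hi]
  · intro x _
    refine Prod.ext (funext fun i => ?_) (funext fun i => ?_)
    · by_cases hi : i ∈ J <;> simp [hi]
    · by_cases hi : i ∈ J <;> simp [hi]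
  · intro x _
    have hw : (∏ i, m i (if i ∈ J then x.2 i else x.1 i)) *
        ∏ i, m i (if i ∈ J then x.1 i else x.2 i) = (∏ i, m i (x.1 i)) * ∏ i, m i (x.2 i) := by
      rw [← Finset.prod_mul_distrib, ← Finset.prod_mul_distrib]
      refine Finset.prod_congr rfl fun i _ => ?_
      by_cases hi : i ∈ J
      · simp only [hi, if_true]; exact mul_comm _ _
      · simp only [hi, if_false]
    have hF : F (fun i => if i ∈ J then (if i ∈ J then x.1 i else x.2 i) else
        (if i ∈ J then x.2 i else x.1 i)) = F x.1 := by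
      congr 1
      funext i
      by_cases hi : i ∈ J <;> simp [hi]
    simp only
    rw [hF, ← mul_assoc, hw]
    ring

/-- summing out one coordinate first -/
theorem Ex_pivot (P : Finset ℕ) (m : ι → ℕ → ℝ) (h1 : ∀ i, ∑ p ∈ P, m i p = 1) (i0 : ι)
    (F : (ι → ℕ) → ℝ) :
    Ex P m F = Ex P m (fun τ => ∑ p ∈ P, m i0 p * F (Function.update τ i0 p)) := by
  rw [Ex_pivots P m h1 {i0} F]
  congr 1
  funext τ
  have h := Ex_prod P m (fun i p => if i = i0 then F (Function.update τ i0 p) else 1)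
  have hL : (fun σ : ι → ℕ => ∏ i, (if i = i0 then F (Function.update τ i0 (σ i)) else 1))
      = fun σ : ι → ℕ => F (fun i => if i ∈ ({i0} : Finset ι) then σ i else τ i) := by
    funext σ
    rw [Finset.prod_ite_eq' Finset.univ i0 (fun i => F (Function.update τ i0 (σ i)))]
    simp only [Finset.mem_univ, if_true]
    congr 1
    funext i
    by_cases hi : i = i0
    · subst hi; simp
    · simp [hi]
  rw [hL] at h
  rw [h, Finset.prod_eq_single i0]
  · exact Finset.sum_congr rfl fun p _ => by simp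
  · intro i _ hi
    simp only [hi, if_false, mul_one]
    exact h1 i
  · intro hni
    exact absurd (Finset.mem_univ i0) hni

theorem Ex_equiv {κ : Type} [Fintype κ] [DecidableEq κ] (e : ι ≃ κ) (P : Finset ℕ)
    (m : κ → ℕ → ℝ) (F : (ι → ℕ) → ℝ) :
    Ex P (fun i => m (e i)) F = Ex P m (fun τ => F (fun i => τ (e i))) := by
  unfold Ex
  refine Finset.sum_nbij' (fun τ k => τ (e.symm k)) (fun τ i => τ (e i)) ?_ ?_ ?_ ?_ ?_
  · intro τ hτ
    rw [Fintype.mem_piFinset] at hτ ⊢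
    exact fun k => hτ _
  · intro τ hτ
    rw [Fintype.mem_piFinset] at hτ ⊢
    exact fun k => hτ _
  · intro τ _
    funext i
    simp
  · intro τ _
    funext k
    simp
  · intro τ _
    have hw : ∏ i, m (e i) (τ i) = ∏ k, m k (τ (e.symm k)) := by
      rw [← Equiv.prod_comp e]
      exact Finset.prod_congr rfl fun i _ => by simp
    simp only [Equiv.symm_apply_apply]
    rw [hw]

theorem Ex_sumType {κ : Type} [Fintype κ] [DecidableEq κ] (P : Finset ℕ) (m : ι → ℕ → ℝ)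
    (m' : κ → ℕ → ℝ) (F : (ι ⊕ κ → ℕ) → ℝ) :
    Ex P (Sum.elim m m') F = Ex P m (fun τ => Ex P m' (fun τ' => F (Sum.elim τ τ'))) := by
  have hR : Ex P m (fun τ => Ex P m' (fun τ' => F (Sum.elim τ τ')))
      = ∑ x ∈ (Fintype.piFinset (fun _ : ι => P)) ×ˢ
      (Fintype.piFinset (fun _ : κ => P)),
      (∏ i, m i (x.1 i)) * ((∏ i, m' i (x.2 i)) * F (Sum.elim x.1 x.2)) := by
    rw [Finset.sum_product]
    unfold Ex
    refine Finset.sum_congr rfl fun τ _ => ?_
    rw [Finset.mul_sum]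
  rw [hR]
  unfold Ex
  refine Finset.sum_nbij' (fun τ => (fun i => τ (Sum.inl i), fun k => τ (Sum.inr k)))
    (fun x => Sum.elim x.1 x.2) ?_ ?_ ?_ ?_ ?_
  · intro τ hτ
    rw [Finset.mem_product, Fintype.mem_piFinset, Fintype.mem_piFinset]
    rw [Fintype.mem_piFinset] at hτ
    exact ⟨fun i => hτ _, fun i => hτ _⟩
  · intro x hx
    rw [Finset.mem_product, Fintype.mem_piFinset, Fintype.mem_piFinset] at hx
    rw [Fintype.mem_piFinset]
    rintro (i | i)
    · exact hx.1 i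
    · exact hx.2 i
  · intro τ _
    funext i
    rcases i with i | i <;> rfl
  · intro x _
    rfl
  · intro τ _
    have hF : (Sum.elim (fun i => τ (Sum.inl i)) fun k => τ (Sum.inr k)) = τ := by
      funext i
      rcases i with i | i <;> rfl
    simp only
    rw [hF, Fintype.prod_sum_type]
    simp only [Sum.elim_inl, Sum.elim_inr]
    ring

/-- enlarging the range -/
theorem Ex_range {P P' : Finset ℕ} (hP : P ⊆ P') (m : ι → ℕ → ℝ)
    (h : ∀ i, ∀ p ∈ P', p ∉ P → m i p = 0) (F : (ι → ℕ) → ℝ) : Ex P m F = Ex P' m F := by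
  unfold Ex
  refine Finset.sum_subset (fun τ hτ => ?_) ?_
  · rw [Fintype.mem_piFinset] at hτ ⊢
    exact fun i => hP (hτ i)
  · intro τ hτ hτn
    rw [Fintype.mem_piFinset] at hτ hτn
    push Not at hτn
    obtain ⟨i, hi⟩ := hτn
    rw [Finset.prod_eq_zero (Finset.mem_univ i) (h i _ (hτ i) hi), zero_mul]

end ExB

end Pool.Agent.EN
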