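import Mathlib
import Pool.Agent.Lib.MP_ec0ede_nt_EN.Defs2

set_option autoImplicit false

/-!
# MP_ec0ede_nt, project EN, module LawA: the laws of the levels
-/

noncomputable section

namespace Pool.Agent.EN

open Real Filter Topology Finset

theorem tent_nonneg (x : ℝ) : 0 ≤ tent x := le_max_left _ _

theorem tent_le_one (x : ℝ) : tent x ≤ 1 :=
  max_le zero_le_one (by have := abs_nonneg x; linarith)

theorem tent_lip (x y : ℝ) : |tent x - tent y| ≤ |x - y| := by
  unfold tent
  rw [max_comm 0 (1 - |x|), max_comm 0 (1 - |y|)]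
  refine (abs_max_sub_max_le_abs _ _ _).trans ?_
  have e : (1 - |x|) - (1 - |y|) = |y| - |x| := by ring
  rw [e, abs_sub_comm x y]
  exact abs_abs_sub_abs_le y x

theorem tent_eq_zero {x : ℝ} (h : 1 ≤ |x|) : tent x = 0 :=
  max_eq_left (by linarith)

theorem tent_continuous : Continuous tent := by
  unfold tent
  fun_prop

namespace LawA

lemma log2 : 0 < Real.log 2 := Real.log_pos (by norm_num)

lemma G_eq_sum (n : ℕ) :
    G n = ∑ i ∈ range (n + 1), Set.indicator {p : ℕ | p.Prime} (fun i : ℕ => 1 / (i : ℝ)) i := by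
  unfold G
  rw [Nat.primesLE_eq_filter_range, Finset.sum_filter]
  refine Finset.sum_congr rfl fun i _ => ?_
  by_cases hi : i.Prime
  · rw [if_pos hi, Set.indicator_of_mem (show i ∈ {p : ℕ | p.Prime} from hi)]
  · rw [if_neg hi, Set.indicator_of_notMem (show i ∉ {p : ℕ | p.Prime} from hi)]

lemma G_zero : G 0 = 0 := by
  simp [G]

lemma G_step (p : ℕ) : G p = G (p - 1) + if p.Prime then 1 / (p : ℝ) else 0 := by
  rcases p with _ | p
  · simp
  · rw [Nat.add_sub_cancel]
    unfold G
    rw [Nat.primesLE_succ]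
    by_cases hp : (p + 1).Prime
    · rw [if_pos hp, if_pos hp, Finset.sum_insert (Nat.notMem_primesLE p), add_comm]
    · rw [if_neg hp, if_neg hp, add_zero]

lemma G_sub {p : ℕ} (hp : p.Prime) : G p - G (p - 1) = 1 / (p : ℝ) := by
  rw [G_step p, if_pos hp]
  ring

lemma G_eq {p : ℕ} (hp : ¬ p.Prime) : G p = G (p - 1) := by
  rw [G_step p, if_neg hp, add_zero]

end LawA

theorem G_mono : Monotone G := by
  intro a b hab
  rw [LawA.G_eq_sum, LawA.G_eq_sum]
  refine Finset.sum_le_sum_of_subset_of_nonneg ?_ fun i _ _ => ?_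
  · exact Finset.range_mono (by omega)
  · exact Set.indicator_nonneg (fun i _ => by positivity) i

theorem G_tendsto : Tendsto G atTop atTop := by
  have h := (not_summable_iff_tendsto_nat_atTop_of_nonneg (f :=
    Set.indicator {p : ℕ | p.Prime} (fun i : ℕ => 1 / (i : ℝ)))
    (fun i => Set.indicator_nonneg (fun i _ => by positivity) i)).1
    not_summable_one_div_on_primes
  have h2 := h.comp (tendsto_add_atTop_nat 1)
  refine h2.congr fun n => ?_
  rw [LawA.G_eq_sum]
  rfl

namespace LawA

lemma G_nonneg (n : ℕ) : 0 ≤ G n := by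
  rw [← G_zero]
  exact G_mono (Nat.zero_le n)

lemma G_pred_le (p : ℕ) : G (p - 1) ≤ G p := G_mono (Nat.sub_le p 1)

lemma cont (j : ℕ) : Continuous (fun g : ℝ => tent (g / Real.log 2 - j)) :=
  tent_continuous.comp (by fun_prop)

lemma ii (j : ℕ) (a b : ℝ) :
    IntervalIntegrable (fun g : ℝ => tent (g / Real.log 2 - j)) MeasureTheory.volume a b :=
  (cont j).intervalIntegrable _ _

end LawA

theorem mu_nonneg (j p : ℕ) : 0 ≤ mu j p := by
  unfold mu
  have := LawA.log2
  refine mul_nonneg (by positivity) ?_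
  exact intervalIntegral.integral_nonneg (LawA.G_pred_le p) fun g _ => tent_nonneg _

theorem mu_not_prime {p : ℕ} (j : ℕ) (h : ¬ p.Prime) : mu j p = 0 := by
  unfold mu
  rw [← LawA.G_eq h, intervalIntegral.integral_same, mul_zero]

theorem mu_le (j p : ℕ) : mu j p ≤ 1 / (Real.log 2 * p) := by
  have hl := LawA.log2
  by_cases hp : p.Prime
  · unfold mu
    have h1 : ∫ g in (G (p - 1))..(G p), tent (g / Real.log 2 - j) ≤
        ∫ _g in (G (p - 1))..(G p), (1 : ℝ) :=
      intervalIntegral.integral_mono_on (LawA.G_pred_le p) (LawA.ii j _ _)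
        intervalIntegrable_const fun g _ => tent_le_one _
    rw [intervalIntegral.integral_const, smul_eq_mul, mul_one, LawA.G_sub hp] at h1
    rw [one_div_mul_eq_div, div_eq_mul_inv, ← one_div_mul_one_div (Real.log 2) (p : ℝ),
      mul_comm (1 / Real.log 2)]
    rw [one_div (Real.log 2)]
    exact mul_le_mul_of_nonneg_right h1 (by positivity)
  · rw [mu_not_prime j hp]
    positivity

theorem mu_supp {j p : ℕ} (h : mu j p ≠ 0) :
    p.Prime ∧ ((j : ℝ) - 1) * Real.log 2 < G p ∧ G (p - 1) < ((j : ℝ) + 1) * Real.log 2 := by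
  have hl := LawA.log2
  refine ⟨by_contra fun hp => h (mu_not_prime j hp), ?_, ?_⟩
  · by_contra hc
    push Not at hc
    apply h
    unfold mu
    rw [intervalIntegral.integral_congr (g := fun _ => (0 : ℝ)), intervalIntegral.integral_zero,
      mul_zero]
    intro g hg
    rw [Set.uIcc_of_le (LawA.G_pred_le p)] at hg
    apply tent_eq_zero
    have h1 : g / Real.log 2 ≤ (j : ℝ) - 1 := by
      rw [div_le_iff₀ hl]; exact hg.2.trans hc
    rw [abs_of_nonpos (by linarith)]
    linarith
  · by_contra hc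
    push Not at hc
    apply h
    unfold mu
    rw [intervalIntegral.integral_congr (g := fun _ => (0 : ℝ)), intervalIntegral.integral_zero,
      mul_zero]
    intro g hg
    rw [Set.uIcc_of_le (LawA.G_pred_le p)] at hg
    apply tent_eq_zero
    have h1 : (j : ℝ) + 1 ≤ g / Real.log 2 := by
      rw [le_div_iff₀ hl]; exact hc.trans hg.1
    rw [abs_of_nonneg (by linarith)]
    linarith

namespace LawA

lemma bd_nonempty (L : ℕ) : {n : ℕ | ((L : ℝ) + 1) * Real.log 2 ≤ G n}.Nonempty :=
  (G_tendsto.eventually_ge_atTop (((L : ℝ) + 1) * Real.log 2)).exists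

end LawA

theorem G_bd (L : ℕ) : ((L : ℝ) + 1) * Real.log 2 ≤ G (bd L - 1) := by
  unfold bd
  rw [Nat.add_sub_cancel]
  exact Nat.sInf_mem (LawA.bd_nonempty L)

theorem bd_mono {j L : ℕ} (h : j ≤ L) : bd j ≤ bd L := by
  unfold bd
  apply Nat.add_le_add_right
  apply Nat.sInf_le
  have h1 : ((L : ℝ) + 1) * Real.log 2 ≤ G (sInf {n : ℕ | ((L : ℝ) + 1) * Real.log 2 ≤ G n}) :=
    Nat.sInf_mem (LawA.bd_nonempty L)
  refine le_trans ?_ h1
  have h2 : (j : ℝ) ≤ L := by exact_mod_cast h
  exact mul_le_mul_of_nonneg_right (by linarith) LawA.log2.le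

theorem mu_bd {j L p : ℕ} (hj : j ≤ L) (hp : bd L ≤ p) : mu j p = 0 := by
  by_contra hc
  obtain ⟨-, -, h3⟩ := mu_supp hc
  have h1 : G (bd L - 1) ≤ G (p - 1) := G_mono (by omega)
  have h2 := G_bd L
  have h4 : ((j : ℝ) + 1) * Real.log 2 ≤ ((L : ℝ) + 1) * Real.log 2 := by
    have h2 : (j : ℝ) ≤ L := by exact_mod_cast hj
    exact mul_le_mul_of_nonneg_right (by linarith) LawA.log2.le
  linarith

namespace LawA

/-- telescoping -/
lemma sum_mu (j L : ℕ) : ∑ p ∈ range (bd L), mu j p =
    ∫ x in (-(j : ℝ))..(G (bd L - 1) / Real.log 2 - j), tent x := by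
  have hl := log2
  have hb : bd L = (bd L - 1) + 1 := by unfold bd; simp
  rw [hb, Finset.sum_range_succ']
  rw [mu_not_prime j Nat.not_prime_zero, add_zero]
  unfold mu
  rw [← Finset.mul_sum]
  have h1 := intervalIntegral.sum_integral_adjacent_intervals (a := G) (n := bd L - 1)
    (f := fun g : ℝ => tent (g / Real.log 2 - j)) (μ := MeasureTheory.volume)
    (fun k _ => ii j _ _)
  simp only [Nat.add_sub_cancel] at h1 ⊢
  rw [h1, intervalIntegral.integral_comp_div_sub _ hl.ne', G_zero, smul_eq_mul, ← mul_assoc,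
    one_div, inv_mul_cancel₀ hl.ne', one_mul]
  congr 1
  · rw [zero_div, zero_sub]

lemma int_zero {a b : ℝ} (hab : a ≤ b) (h : ∀ x ∈ Set.Icc a b, 1 ≤ |x|) :
    ∫ x in a..b, tent x = 0 := by
  rw [intervalIntegral.integral_congr (g := fun _ => (0 : ℝ)), intervalIntegral.integral_zero]
  intro x hx
  rw [Set.uIcc_of_le hab] at hx
  exact tent_eq_zero (h x hx)

lemma tii (a b : ℝ) : IntervalIntegrable tent MeasureTheory.volume a b :=
  tent_continuous.intervalIntegrable _ _

lemma int_right : ∫ x in (0 : ℝ)..1, tent x = 1 / 2 := by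
  rw [intervalIntegral.integral_congr (g := fun x : ℝ => 1 - x)]
  · have h1 := intervalIntegral.integral_sub (μ := MeasureTheory.volume) (a := (0 : ℝ)) (b := 1)
      (f := fun _ : ℝ => (1 : ℝ)) (g := fun x : ℝ => x) intervalIntegrable_const
      (continuous_id.intervalIntegrable _ _)
    rw [h1, intervalIntegral.integral_const, integral_id]
    norm_num
  · intro x hx
    rw [Set.uIcc_of_le zero_le_one] at hx
    unfold tent
    simp only
    rw [abs_of_nonneg hx.1, max_eq_right (by linarith [hx.2])]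

lemma int_left : ∫ x in (-1 : ℝ)..0, tent x = 1 / 2 := by
  rw [intervalIntegral.integral_congr (g := fun x : ℝ => 1 + x)]
  · have h1 := intervalIntegral.integral_add (μ := MeasureTheory.volume) (a := (-1 : ℝ)) (b := 0)
      (f := fun _ : ℝ => (1 : ℝ)) (g := fun x : ℝ => x) intervalIntegrable_const
      (continuous_id.intervalIntegrable _ _)
    rw [h1, intervalIntegral.integral_const, integral_id]
    norm_num
  · intro x hx
    rw [Set.uIcc_of_le (by norm_num)] at hx
    unfold tent
    simp only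
    rw [abs_of_nonpos hx.2, max_eq_right (by linarith [hx.1])]
    ring

lemma right_end {j L : ℕ} (hj : j ≤ L) : 1 ≤ G (bd L - 1) / Real.log 2 - j := by
  have hl := log2
  have h1 : (L : ℝ) + 1 ≤ G (bd L - 1) / Real.log 2 := by
    rw [le_div_iff₀ hl]; exact G_bd L
  have h2 : (j : ℝ) ≤ L := by exact_mod_cast hj
  linarith

/-- the sum of the tents, for nonnegative arguments -/
lemma tents (L : ℕ) {x : ℝ} (hx : 0 ≤ x) :
    ∑ j ∈ range (L + 1), tent (x - j) = max 0 (min 1 ((L : ℝ) + 1 - x)) := by
  induction L with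
  | zero =>
    rw [zero_add, Finset.sum_range_one]
    unfold tent
    rw [Nat.cast_zero, sub_zero, zero_add, abs_of_nonneg hx, min_eq_right (by linarith)]
  | succ L ih =>
    rw [Finset.sum_range_succ, ih]
    unfold tent
    push_cast
    rcases le_total x L with h1 | h1
    · rw [min_eq_left (by linarith), max_eq_right zero_le_one, abs_of_nonpos (by linarith),
        max_eq_left (by linarith), min_eq_left (by linarith), max_eq_right zero_le_one, add_zero]
    · rcases le_total x (L + 1) with h2 | h2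
      · rw [min_eq_right (by linarith), max_eq_right (by linarith), abs_of_nonpos (by linarith),
          max_eq_right (by linarith), min_eq_left (by linarith), max_eq_right zero_le_one]
        ring
      · rw [min_eq_right (by linarith), max_eq_left (by linarith), abs_of_nonneg (by linarith),
          min_eq_right (by linarith), zero_add]
        congr 1
        ring

lemma sum_part (p L : ℕ) : Real.log 2 * ∑ j ∈ range (L + 1), mu j p =
    ∫ g in (G (p - 1))..(G p), max 0 (min 1 ((L : ℝ) + 1 - g / Real.log 2)) := by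
  have hl := log2
  unfold mu
  rw [← Finset.mul_sum, ← mul_assoc, mul_one_div, div_self hl.ne', one_mul,
    ← intervalIntegral.integral_finsetSum (fun j _ => ii j _ _)]
  refine intervalIntegral.integral_congr fun g hg => ?_
  rw [Set.uIcc_of_le (G_pred_le p)] at hg
  have h0 : 0 ≤ g / Real.log 2 := div_nonneg ((G_nonneg _).trans hg.1) hl.le
  exact tents L h0

end LawA

theorem mu_mass {j L : ℕ} (h1 : 1 ≤ j) (hj : j ≤ L) : ∑ p ∈ range (bd L), mu j p = 1 := by
  rw [LawA.sum_mu]
  have hr := LawA.right_end hj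
  have h1' : (1 : ℝ) ≤ j := by exact_mod_cast h1
  set B := G (bd L - 1) / Real.log 2 - j with hB
  rw [← intervalIntegral.integral_add_adjacent_intervals (LawA.tii (-(j : ℝ)) (-1))
    (LawA.tii (-1) B), ← intervalIntegral.integral_add_adjacent_intervals (LawA.tii (-1) 0)
    (LawA.tii 0 B), ← intervalIntegral.integral_add_adjacent_intervals (LawA.tii 0 1)
    (LawA.tii 1 B), LawA.int_left, LawA.int_right]
  rw [LawA.int_zero (by linarith) (fun x hx => by
      rw [abs_of_nonpos (by linarith [hx.2])]; linarith [hx.2]),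
    LawA.int_zero hr (fun x hx => by
      rw [abs_of_nonneg (by linarith [hx.1])]; exact hx.1)]
  norm_num

theorem mu_mass_zero (L : ℕ) : ∑ p ∈ range (bd L), mu 0 p = 1 / 2 := by
  rw [LawA.sum_mu]
  have hr := LawA.right_end (Nat.zero_le L)
  set B := G (bd L - 1) / Real.log 2 - (0 : ℕ) with hB
  have e : (-((0 : ℕ) : ℝ)) = 0 := by simp
  rw [e, ← intervalIntegral.integral_add_adjacent_intervals (LawA.tii 0 1)
    (LawA.tii 1 B), LawA.int_right]
  rw [LawA.int_zero hr (fun x hx => by
      rw [abs_of_nonneg (by linarith [hx.1])]; exact hx.1), add_zero]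

theorem mu_part {p L : ℕ} (hp : p.Prime) (hL : G p ≤ L * Real.log 2) :
    Real.log 2 * ∑ j ∈ range (L + 1), mu j p = 1 / p := by
  have hl := LawA.log2
  rw [LawA.sum_part, ← LawA.G_sub hp]
  rw [intervalIntegral.integral_congr (g := fun _ => (1 : ℝ))]
  · rw [intervalIntegral.integral_const, smul_eq_mul, mul_one]
  · intro g hg
    rw [Set.uIcc_of_le (LawA.G_pred_le p)] at hg
    have h1 : g / Real.log 2 ≤ L := by
      rw [div_le_iff₀ hl]; exact hg.2.trans hL
    simp only
    rw [min_eq_left (by linarith), max_eq_right zero_le_one]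

theorem mu_part_le (p L : ℕ) : Real.log 2 * ∑ j ∈ range (L + 1), mu j p ≤ 1 / p := by
  by_cases hp : p.Prime
  · rw [LawA.sum_part, ← LawA.G_sub hp]
    have h1 : ∫ g in (G (p - 1))..(G p), max 0 (min 1 ((L : ℝ) + 1 - g / Real.log 2)) ≤
        ∫ _g in (G (p - 1))..(G p), (1 : ℝ) :=
      intervalIntegral.integral_mono_on (LawA.G_pred_le p)
        ((by fun_prop : Continuous fun g : ℝ =>
          max 0 (min 1 ((L : ℝ) + 1 - g / Real.log 2))).intervalIntegrable _ _)
        intervalIntegrable_const fun g _ => max_le zero_le_one (min_le_left _ _)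
    rwa [intervalIntegral.integral_const, smul_eq_mul, mul_one] at h1
  · rw [Finset.sum_eq_zero fun j _ => mu_not_prime j hp, mul_zero]
    positivity

end Pool.Agent.EN
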