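import Mathlib
import Pool.Agent.Lib.MP_ec0ede_nt_EN.Defs1

set_option autoImplicit false

/-!
# MP_ec0ede_nt, project EN, module MertA: the first theorem of Mertens
-/

noncomputable section

namespace Pool.Agent.EN

open Real Filter Topology Finset

namespace MertA

/-- the prime factorization of `N !` -/
lemma log_fact (N : ℕ) : Real.log (N.factorial : ℝ) =
    ∑ p ∈ Nat.primesLE N, (N.factorial.factorization p : ℝ) * Real.log p := by
  rw [Real.log_nat_eq_sum_factorization, Finsupp.sum]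
  apply Finset.sum_subset
  · intro p hp
    rw [Nat.support_factorization, Nat.mem_primeFactors] at hp
    rw [Nat.mem_primesLE]
    exact ⟨(hp.1.dvd_factorial).mp hp.2.1, hp.1⟩
  · intro p _ hp
    rw [Finsupp.notMem_support_iff.mp hp]
    simp

/-- `N log N - N ≤ log N !` -/
lemma fact_ge (N : ℕ) (hN : 1 ≤ N) : N * Real.log N - N ≤ Real.log (N.factorial : ℝ) := by
  have hN0 : (0 : ℝ) < N := by exact_mod_cast hN
  have h1 : (N : ℝ) ^ N / N.factorial ≤ Real.exp N := Real.pow_div_factorial_le_exp _ hN0.le N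
  have h2 : (0 : ℝ) < (N.factorial : ℝ) := by exact_mod_cast N.factorial_pos
  have h3 := Real.log_le_log (by positivity) h1
  rw [Real.log_exp, Real.log_div (by positivity) h2.ne', Real.log_pow] at h3
  linarith

/-- `log N ! ≤ N log N` -/
lemma fact_le (N : ℕ) : Real.log (N.factorial : ℝ) ≤ N * Real.log N := by
  have h2 : (0 : ℝ) < (N.factorial : ℝ) := by exact_mod_cast N.factorial_pos
  rw [← Real.log_pow]
  apply Real.log_le_log h2
  exact_mod_cast Nat.factorial_le_pow N

/-- the upper bound for the exponent -/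
lemma fac_le (N p : ℕ) (hp : p.Prime) :
    (N.factorial.factorization p : ℝ) ≤ N / p + N / ((p : ℝ) * (p - 1)) := by
  have h1 := Nat.factorization_factorial_le_div_pred hp N
  have h2 : (2 : ℝ) ≤ p := by exact_mod_cast hp.two_le
  have h3 : ((N / (p - 1) : ℕ) : ℝ) ≤ N / (p - 1) := by
    have := Nat.cast_div_le (α := ℝ) (m := N) (n := p - 1)
    rwa [Nat.cast_sub hp.one_le, Nat.cast_one] at this
  have h4 : (N.factorial.factorization p : ℝ) ≤ N / ((p : ℝ) - 1) :=
    le_trans (by exact_mod_cast h1) h3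
  have h5 : (N : ℝ) / ((p : ℝ) - 1) = N / p + N / ((p : ℝ) * (p - 1)) := by
    have h6 : (p : ℝ) - 1 ≠ 0 := by linarith
    have h7 : (p : ℝ) ≠ 0 := by linarith
    field_simp
    ring
  rw [← h5]
  exact h4

/-- the lower bound for the exponent -/
lemma le_fac (N p : ℕ) (hp : p.Prime) :
    (N : ℝ) / p - 1 ≤ (N.factorial.factorization p : ℝ) := by
  have h0 : (0 : ℝ) < p := by exact_mod_cast hp.pos
  have h1 : N / p ≤ N.factorial.factorization p := by
    rw [Nat.factorization_factorial hp (b := Nat.log p N + 2) (by omega)]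
    have h2 : N / p ^ 1 ≤ ∑ i ∈ Finset.Ico 1 (Nat.log p N + 2), N / p ^ i :=
      Finset.single_le_sum (f := fun i => N / p ^ i) (fun _ _ => Nat.zero_le _)
        (by rw [Finset.mem_Ico]; omega)
    rwa [pow_one] at h2
  have h2 : (N : ℝ) / p < (N / p : ℕ) + 1 := by
    rw [div_lt_iff₀ h0]
    have := Nat.lt_mul_div_succ N hp.pos
    have h3 : (N : ℝ) < ((p * (N / p + 1) : ℕ) : ℝ) := by exact_mod_cast this
    push_cast at h3
    linarith
  have h3 : ((N / p : ℕ) : ℝ) ≤ (N.factorial.factorization p : ℝ) := by exact_mod_cast h1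
  linarith

/-- the majorant -/
lemma term_le (n : ℕ) (hn : 2 ≤ n) :
    Real.log n / ((n : ℝ) * (n - 1)) ≤ 4 * (1 / (n : ℝ) ^ (3 / 2 : ℝ)) := by
  have h2 : (2 : ℝ) ≤ n := by exact_mod_cast hn
  have h0 : (0 : ℝ) < n := by linarith
  have h1 : Real.log n ≤ (n : ℝ) ^ (1 / 2 : ℝ) / (1 / 2) :=
    Real.log_le_rpow_div h0.le (by norm_num)
  have h3 : (n : ℝ) * n ≤ 2 * (n * (n - 1)) := by nlinarith
  have h4 : (n : ℝ) ^ (3 / 2 : ℝ) * (n : ℝ) ^ (1 / 2 : ℝ) = n * n := by
    rw [← Real.rpow_add h0]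
    norm_num
    ring
  have h5 : (0 : ℝ) < (n : ℝ) ^ (3 / 2 : ℝ) := Real.rpow_pos_of_pos h0 _
  rw [mul_one_div, div_le_div_iff₀ (by nlinarith) h5]
  calc Real.log n * (n : ℝ) ^ (3 / 2 : ℝ)
      ≤ ((n : ℝ) ^ (1 / 2 : ℝ) / (1 / 2)) * (n : ℝ) ^ (3 / 2 : ℝ) := by gcongr
    _ = 2 * (n * n) := by rw [← h4]; ring
    _ ≤ 4 * (n * (n - 1)) := by linarith

end MertA

open MertA in
theorem mertens_first : ∃ C : ℝ, ∀ N : ℕ, 1 ≤ N →
    |∑ p ∈ Nat.primesLE N, Real.log p / p - Real.log N| ≤ C := by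
  have hs : Summable fun n : ℕ => 4 * (1 / (n : ℝ) ^ (3 / 2 : ℝ)) :=
    (Real.summable_one_div_nat_rpow.mpr (by norm_num)).mul_left 4
  set K : ℝ := ∑' n : ℕ, 4 * (1 / (n : ℝ) ^ (3 / 2 : ℝ)) with hK
  refine ⟨max (Real.log 4) (1 + K), fun N hN => ?_⟩
  have hN0 : (0 : ℝ) < N := by exact_mod_cast hN
  set S : ℝ := ∑ p ∈ Nat.primesLE N, Real.log p / p with hS
  have hlow : N * S - Real.log 4 * N ≤ Real.log (N.factorial : ℝ) := by
    have h1 : Chebyshev.theta N ≤ Real.log 4 * N := Chebyshev.theta_le_log4_mul_x hN0.le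
    rw [Chebyshev.theta_eq_sum_primesLE_log] at h1
    rw [log_fact]
    have h2 : ∑ p ∈ Nat.primesLE N, ((N : ℝ) / p - 1) * Real.log p ≤
        ∑ p ∈ Nat.primesLE N, (N.factorial.factorization p : ℝ) * Real.log p := by
      apply Finset.sum_le_sum
      intro p hp
      rw [Nat.mem_primesLE] at hp
      exact mul_le_mul_of_nonneg_right (le_fac N p hp.2) (Real.log_natCast_nonneg p)
    have h3 : ∑ p ∈ Nat.primesLE N, ((N : ℝ) / p - 1) * Real.log p =
        N * S - ∑ p ∈ Nat.primesLE N, Real.log p := by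
      rw [hS, Finset.mul_sum, ← Finset.sum_sub_distrib]
      apply Finset.sum_congr rfl
      intro p _
      ring
    linarith
  have hup : Real.log (N.factorial : ℝ) ≤ N * S + N * K := by
    rw [log_fact]
    have h2 : ∑ p ∈ Nat.primesLE N, (N.factorial.factorization p : ℝ) * Real.log p ≤
        ∑ p ∈ Nat.primesLE N, (N * (Real.log p / p) + N * (4 * (1 / (p : ℝ) ^ (3 / 2 : ℝ)))) := by
      apply Finset.sum_le_sum
      intro p hp
      rw [Nat.mem_primesLE] at hp
      have h3 := mul_le_mul_of_nonneg_right (fac_le N p hp.2) (Real.log_natCast_nonneg p)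
      have h4 := mul_le_mul_of_nonneg_left (term_le p hp.2.two_le) hN0.le
      calc (N.factorial.factorization p : ℝ) * Real.log p
          ≤ (N / p + N / ((p : ℝ) * (p - 1))) * Real.log p := h3
        _ = N * (Real.log p / p) + N * (Real.log p / ((p : ℝ) * (p - 1))) := by ring
        _ ≤ _ := by linarith
    rw [Finset.sum_add_distrib, ← Finset.mul_sum, ← Finset.mul_sum] at h2
    have h5 : ∑ p ∈ Nat.primesLE N, 4 * (1 / (p : ℝ) ^ (3 / 2 : ℝ)) ≤ K :=
      hs.sum_le_tsum _ (fun n _ => by positivity)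
    have h6 := mul_le_mul_of_nonneg_left h5 hN0.le
    linarith
  have h7 := fact_ge N hN
  have h8 := fact_le N
  rw [abs_le]
  constructor
  · have h9 : -(1 + K) ≤ S - Real.log N := by
      by_contra hcon
      push Not at hcon
      have := mul_lt_mul_of_pos_left hcon hN0
      nlinarith
    linarith [le_max_right (Real.log 4) (1 + K)]
  · have h9 : S - Real.log N ≤ Real.log 4 := by
      by_contra hcon
      push Not at hcon
      have := mul_lt_mul_of_pos_left hcon hN0
      nlinarith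
    linarith [le_max_left (Real.log 4) (1 + K)]

end Pool.Agent.EN
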