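import Mathlib
import Pool.Agent.Lib.MP_ec0ede_nt_EN.Defs1
import Pool.Agent.Lib.MP_ec0ede_nt_EN.MertA

set_option autoImplicit false

/-!
# MP_ec0ede_nt, project EN, module MertB: the second theorem of Mertens
-/

noncomputable section

namespace Pool.Agent.EN

open Real Filter Topology Finset

namespace MertB

/-- the first Mertens sum -/
def A (n : ℕ) : ℝ := ∑ p ∈ Nat.primesLE n, Real.log p / p

lemma log_pos_of {n : ℕ} (hn : 2 ≤ n) : 0 < Real.log (n : ℝ) :=
  Real.log_pos (by exact_mod_cast (by omega : 1 < n))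

/-- one step of the two sums -/
lemma step {n : ℕ} (hn : 2 ≤ n) :
    G (n + 1) - G n = (A (n + 1) - A n) / Real.log ((n + 1 : ℕ) : ℝ) := by
  have hl : 0 < Real.log ((n + 1 : ℕ) : ℝ) := log_pos_of (by omega)
  unfold G A
  rw [Nat.primesLE_succ]
  by_cases hp : (n + 1).Prime
  · rw [if_pos hp, Finset.sum_insert (Nat.notMem_primesLE n),
      Finset.sum_insert (Nat.notMem_primesLE n)]
    rw [add_sub_cancel_right, add_sub_cancel_right]
    have h0 : ((n + 1 : ℕ) : ℝ) ≠ 0 := by positivity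
    field_simp
  · rw [if_neg hp]
    simp

/-- the corrected sequence -/
def S (n : ℕ) : ℝ :=
  G n - Real.log (Real.log n) - (A n - Real.log n) / Real.log n

/-- the elementary estimate for the main term -/
lemma main_term {a b : ℝ} (ha : 0 < a) (hab : a ≤ b) (hb : b - a ≤ 1) :
    |1 - a / b - (Real.log b - Real.log a)| ≤ 1 / a - 1 / b := by
  have hb0 : 0 < b := lt_of_lt_of_le ha hab
  have h1 : Real.log (a / b) ≤ a / b - 1 := Real.log_le_sub_one_of_pos (by positivity)
  have h2 : Real.log (b / a) ≤ b / a - 1 := Real.log_le_sub_one_of_pos (by positivity)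
  rw [Real.log_div ha.ne' hb0.ne'] at h1
  rw [Real.log_div hb0.ne' ha.ne'] at h2
  have h3 : 1 / a - 1 / b = (b - a) / (a * b) := by field_simp
  have h4 : (b - a) * (b - a) / (a * b) ≤ (b - a) / (a * b) := by
    apply div_le_div_of_nonneg_right _ (by positivity)
    nlinarith
  have h5 : a / b + b / a - 2 = (b - a) * (b - a) / (a * b) := by field_simp; ring
  have h6 : 0 ≤ (b - a) / (a * b) := div_nonneg (by linarith) (by positivity)
  rw [abs_le, h3]
  constructor
  · linarith
  · linarith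

lemma S_step {C : ℝ} (hC : ∀ N : ℕ, 1 ≤ N → |A N - Real.log N| ≤ C) {n : ℕ} (hn : 2 ≤ n) :
    |S (n + 1) - S n| ≤ (C + 1) * (1 / Real.log n - 1 / Real.log ((n + 1 : ℕ) : ℝ)) := by
  have ha : 0 < Real.log (n : ℝ) := log_pos_of hn
  have hn0 : (0 : ℝ) < n := by positivity
  have hab : Real.log (n : ℝ) ≤ Real.log ((n + 1 : ℕ) : ℝ) :=
    Real.log_le_log hn0 (by push_cast; linarith)
  have hb0 : 0 < Real.log ((n + 1 : ℕ) : ℝ) := lt_of_lt_of_le ha hab
  have hb : Real.log ((n + 1 : ℕ) : ℝ) - Real.log (n : ℝ) ≤ 1 := by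
    rw [← Real.log_div (by positivity) hn0.ne']
    have h1 : ((n + 1 : ℕ) : ℝ) / n ≤ 2 := by
      rw [div_le_iff₀ hn0]
      push_cast
      have : (2 : ℝ) ≤ n := by exact_mod_cast hn
      linarith
    have h2 := Real.log_le_sub_one_of_pos (x := ((n + 1 : ℕ) : ℝ) / n) (by positivity)
    linarith
  have hst := step hn
  have hR := hC n (by omega)
  set a := Real.log (n : ℝ) with hadef
  set b := Real.log ((n + 1 : ℕ) : ℝ) with hbdef
  have hm := main_term ha hab hb
  have key : S (n + 1) - S n = (A n - a) * (1 / a - 1 / b) +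
      (1 - a / b - (Real.log b - Real.log a)) := by
    unfold S
    rw [← hadef, ← hbdef]
    have h1 : G (n + 1) = G n + (A (n + 1) - A n) / b := by linarith
    rw [h1]
    field_simp
    ring
  have h7 : 0 ≤ 1 / a - 1 / b := by
    have := one_div_le_one_div_of_le ha hab
    linarith
  rw [key]
  calc |(A n - a) * (1 / a - 1 / b) + (1 - a / b - (Real.log b - Real.log a))|
      ≤ |(A n - a) * (1 / a - 1 / b)| + |1 - a / b - (Real.log b - Real.log a)| := abs_add_le _ _
    _ ≤ C * (1 / a - 1 / b) + (1 / a - 1 / b) := by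
        apply add_le_add _ hm
        rw [abs_mul, abs_of_nonneg h7]
        exact mul_le_mul_of_nonneg_right hR h7
    _ = (C + 1) * (1 / a - 1 / b) := by ring

lemma inv_log_tendsto : Tendsto (fun n : ℕ => 1 / Real.log ((n : ℕ) : ℝ)) atTop (𝓝 0) := by
  have h := (Real.tendsto_log_atTop.comp tendsto_natCast_atTop_atTop).inv_tendsto_atTop
  refine h.congr fun n => ?_
  simp

end MertB

theorem mertens_second : ∃ M : ℝ,
    Tendsto (fun N : ℕ => G N - Real.log (Real.log N)) atTop (𝓝 M) := by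
  obtain ⟨C, hC⟩ := mertens_first
  have hC' : ∀ N : ℕ, 1 ≤ N → |MertB.A N - Real.log N| ≤ C := hC
  have hC0 : 0 ≤ C := (abs_nonneg _).trans (hC' 1 le_rfl)
  set U : ℕ → ℝ := fun n => MertB.S (n + 2) - (C + 1) * (1 / Real.log ((n + 2 : ℕ) : ℝ)) with hU
  set V : ℕ → ℝ := fun n => MertB.S (n + 2) + (C + 1) * (1 / Real.log ((n + 2 : ℕ) : ℝ)) with hV
  have hUm : Monotone U := by
    apply monotone_nat_of_le_succ
    intro n
    have h := (abs_le.1 (MertB.S_step hC' (n := n + 2) (by omega))).1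
    simp only [hU]
    have e : (n + 1 + 2 : ℕ) = n + 2 + 1 := by omega
    rw [e]
    linarith
  have hVa : Antitone V := by
    apply antitone_nat_of_succ_le
    intro n
    have h := (abs_le.1 (MertB.S_step hC' (n := n + 2) (by omega))).2
    simp only [hV]
    have e : (n + 1 + 2 : ℕ) = n + 2 + 1 := by omega
    rw [e]
    linarith
  have hUV : ∀ n, U n ≤ V n := by
    intro n
    simp only [hU, hV]
    have h1 : 0 ≤ (C + 1) * (1 / Real.log ((n + 2 : ℕ) : ℝ)) := by
      have := MertB.log_pos_of (n := n + 2) (by omega)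
      positivity
    linarith
  have hbdd : BddAbove (Set.range U) := by
    refine ⟨V 0, ?_⟩
    rintro _ ⟨n, rfl⟩
    exact (hUV n).trans (hVa (Nat.zero_le n))
  have hlim := tendsto_atTop_ciSup hUm hbdd
  have hinv : Tendsto (fun n : ℕ => 1 / Real.log ((n + 2 : ℕ) : ℝ)) atTop (𝓝 0) :=
    MertB.inv_log_tendsto.comp (tendsto_add_atTop_nat 2)
  refine ⟨⨆ n, U n, ?_⟩
  rw [← tendsto_add_atTop_iff_nat 2]
  have hR : Tendsto (fun n : ℕ => (MertB.A (n + 2) - Real.log ((n + 2 : ℕ) : ℝ)) /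
      Real.log ((n + 2 : ℕ) : ℝ)) atTop (𝓝 0) := by
    have h0 : Tendsto (fun n : ℕ => C * (1 / Real.log ((n + 2 : ℕ) : ℝ))) atTop (𝓝 0) := by
      simpa using hinv.const_mul C
    refine squeeze_zero_norm (fun n => ?_) h0
    have hp := MertB.log_pos_of (n := n + 2) (by omega)
    rw [Real.norm_eq_abs, abs_div, abs_of_pos hp, mul_one_div]
    exact div_le_div_of_nonneg_right (hC' (n + 2) (by omega)) hp.le
  have h2 : Tendsto (fun n : ℕ => U n + (C + 1) * (1 / Real.log ((n + 2 : ℕ) : ℝ)) +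
      (MertB.A (n + 2) - Real.log ((n + 2 : ℕ) : ℝ)) / Real.log ((n + 2 : ℕ) : ℝ)) atTop
      (𝓝 ((⨆ n, U n) + (C + 1) * 0 + 0)) := (hlim.add (hinv.const_mul (C + 1))).add hR
  rw [mul_zero, add_zero, add_zero] at h2
  refine h2.congr fun n => ?_
  simp only [hU, MertB.S]
  ring

end Pool.Agent.EN
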