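import Mathlib
import Pool.Agent.Lib.MP_ec0ede_nt_EN.Defs2
import Pool.Agent.Lib.MP_ec0ede_nt_EN.MertB
import Pool.Agent.Lib.MP_ec0ede_nt_EN.LawA

set_option autoImplicit false

/-!
# MP_ec0ede_nt, project EN, module LawB: positions of the primes of a level
-/

noncomputable section

namespace Pool.Agent.EN

open Real Filter Topology Finset

theorem mer_tendsto : Tendsto (fun N : ℕ => G N - Real.log (Real.log N)) atTop (𝓝 Mer) := by
  obtain ⟨M, hM⟩ := mertens_second
  have h : Mer = M := hM.limUnder_eq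
  rw [h]
  exact hM

namespace LawB

/-- Mertens' second theorem as a bound -/
theorem bound : ∃ C : ℝ, 0 ≤ C ∧ ∀ n : ℕ, |G n - Real.log (Real.log n)| ≤ C := by
  have h := Metric.isBounded_range_of_tendsto _ mer_tendsto
  obtain ⟨C, hC⟩ := isBounded_iff_forall_norm_le.1 h
  have hC' : ∀ n : ℕ, |G n - Real.log (Real.log n)| ≤ C := fun n => by
    have := hC _ ⟨n, rfl⟩
    rwa [Real.norm_eq_abs] at this
  exact ⟨C, (abs_nonneg _).trans (hC' 0), hC'⟩

theorem two_pow_eq (j : ℕ) : Real.exp ((j : ℝ) * Real.log 2) = 2 ^ j := by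
  rw [mul_comm, Real.exp_mul, Real.exp_log (by norm_num), Real.rpow_natCast]

end LawB

theorem supp_bounds : ∃ D : ℝ, 1 ≤ D ∧ ∀ j p : ℕ, mu j p ≠ 0 →
    2 ^ j / D ≤ Real.log p ∧ Real.log p ≤ D * 2 ^ j := by
  obtain ⟨C, hC0, hC⟩ := LawB.bound
  have hl := LawA.log2
  refine ⟨2 * Real.exp (C + 1 / 2), ?_, ?_⟩
  · have : (1 : ℝ) ≤ Real.exp (C + 1 / 2) := Real.one_le_exp (by linarith)
    linarith
  intro j p h
  obtain ⟨hp, h1, h2⟩ := mu_supp h
  have hp2 : (2 : ℝ) ≤ p := by exact_mod_cast hp.two_le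
  have hlogp : 0 < Real.log p := Real.log_pos (by linarith)
  have hCp := abs_le.1 (hC p)
  constructor
  · have h3 : ((j : ℝ) - 1) * Real.log 2 - C ≤ Real.log (Real.log p) := by linarith [hCp.2]
    have h4 : Real.exp (((j : ℝ) - 1) * Real.log 2 - C) ≤ Real.log p := by
      rw [← Real.exp_log hlogp]
      exact Real.exp_le_exp.2 h3
    refine le_trans ?_ h4
    rw [div_le_iff₀ (by positivity)]
    have h5 : Real.exp (((j : ℝ) - 1) * Real.log 2 - C) * (2 * Real.exp (C + 1 / 2)) =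
        2 ^ j * Real.exp (1 / 2) := by
      rw [← LawB.two_pow_eq]
      have h6 : (2 : ℝ) = Real.exp (Real.log 2) := (Real.exp_log (by norm_num)).symm
      conv_lhs => rw [show (2 * Real.exp (C + 1 / 2) : ℝ) =
        Real.exp (Real.log 2) * Real.exp (C + 1 / 2) by rw [← h6]]
      rw [← Real.exp_add, ← Real.exp_add, ← Real.exp_add]
      congr 1
      ring
    rw [h5]
    have : (1 : ℝ) ≤ Real.exp (1 / 2) := Real.one_le_exp (by norm_num)
    have h7 : (0 : ℝ) < 2 ^ j := by positivity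
    nlinarith
  · have h3 : G p ≤ G (p - 1) + 1 / 2 := by
      have h4 := LawA.G_sub hp
      have h5 : 1 / (p : ℝ) ≤ 1 / 2 := one_div_le_one_div_of_le (by norm_num) hp2
      linarith
    have h4 : Real.log (Real.log p) ≤ ((j : ℝ) + 1) * Real.log 2 + 1 / 2 + C := by
      linarith [hCp.1]
    have h5 : Real.log p ≤ Real.exp (((j : ℝ) + 1) * Real.log 2 + 1 / 2 + C) := by
      rw [← Real.exp_log hlogp]
      exact Real.exp_le_exp.2 h4
    refine h5.trans (le_of_eq ?_)
    rw [← LawB.two_pow_eq]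
    have h6 : (2 : ℝ) = Real.exp (Real.log 2) := (Real.exp_log (by norm_num)).symm
    conv_rhs => rw [show (2 * Real.exp (C + 1 / 2) : ℝ) =
      Real.exp (Real.log 2) * Real.exp (C + 1 / 2) by rw [← h6]]
    rw [← Real.exp_add, ← Real.exp_add]
    congr 1
    ring

theorem mu_small : ∃ D : ℝ, 1 ≤ D ∧ ∀ j p : ℕ, mu j p ≤ 2 * Real.exp (-(2 ^ j / D)) := by
  obtain ⟨D, hD, h⟩ := supp_bounds
  refine ⟨D, hD, fun j p => ?_⟩
  by_cases h0 : mu j p = 0
  · rw [h0]; positivity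
  obtain ⟨h1, -⟩ := h j p h0
  obtain ⟨hp, -, -⟩ := mu_supp h0
  have hp0 : (0 : ℝ) < p := by exact_mod_cast hp.pos
  have h2 : Real.exp (2 ^ j / D) ≤ p := by
    calc Real.exp (2 ^ j / D) ≤ Real.exp (Real.log p) := Real.exp_le_exp.2 h1
      _ = p := Real.exp_log hp0
  have hl : (1 / 2 : ℝ) ≤ Real.log 2 := by
    have := Real.log_two_gt_d9
    linarith
  calc mu j p ≤ 1 / (Real.log 2 * p) := mu_le j p
    _ ≤ 1 / ((1 / 2) * Real.exp (2 ^ j / D)) := by
        refine one_div_le_one_div_of_le (by positivity) ?_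
        exact mul_le_mul hl h2 (Real.exp_pos _).le (by linarith)
    _ = 2 * Real.exp (-(2 ^ j / D)) := by
        rw [Real.exp_neg]
        field_simp

theorem pos_asymp {ε : ℝ} (hε : 0 < ε) : ∃ l0 : ℕ, ∀ l ≥ l0, ∀ p : ℕ, mu l p ≠ 0 →
    ∀ g ∈ Set.Icc (G (p - 1)) (G p), |Real.log p - Real.exp (-Mer) * Real.exp g| ≤ ε * 2 ^ l := by
  obtain ⟨D, hD, hb⟩ := supp_bounds
  have hD0 : 0 < D := by linarith
  obtain ⟨η, hη0, hη1, hη2⟩ : ∃ η : ℝ, 0 < η ∧ η ≤ 1 ∧ D * (2 * η) ≤ ε := by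
    refine ⟨min 1 (ε / (2 * D)), lt_min one_pos (by positivity), min_le_left _ _, ?_⟩
    calc D * (2 * min 1 (ε / (2 * D))) ≤ D * (2 * (ε / (2 * D))) := by
          gcongr
          exact min_le_right _ _
      _ = ε := by field_simp
  obtain ⟨P1, hP1⟩ := (Metric.tendsto_atTop.1 mer_tendsto) (η / 2) (by positivity)
  obtain ⟨P2, hP2⟩ := exists_nat_gt (2 / η)
  obtain ⟨l0, hl0⟩ := pow_unbounded_of_one_lt (D * ((P1 : ℝ) + P2)) (one_lt_two)
  refine ⟨l0, fun l hl p hp g hg => ?_⟩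
  obtain ⟨h1, h2⟩ := hb l p hp
  obtain ⟨hpp, -, -⟩ := mu_supp hp
  have hp2 : (2 : ℝ) ≤ p := by exact_mod_cast hpp.two_le
  have hp0 : (0 : ℝ) < p := by linarith
  have hlogp : 0 < Real.log p := Real.log_pos (by linarith)
  have hpow : (2 : ℝ) ^ l0 ≤ 2 ^ l := pow_le_pow_right₀ (by norm_num) hl
  have hbig : (P1 : ℝ) + P2 ≤ p := by
    have h3 : (P1 : ℝ) + P2 ≤ 2 ^ l / D := by
      rw [le_div_iff₀ hD0]
      nlinarith
    exact h3.trans (h1.trans (Real.log_le_self hp0.le))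
  have hP1p : P1 ≤ p := by
    have : (P1 : ℝ) ≤ p := by
      have : (0 : ℝ) ≤ P2 := by positivity
      linarith
    exact_mod_cast this
  have hu := hP1 p hP1p
  rw [Real.dist_eq] at hu
  have hinv : 1 / (p : ℝ) ≤ η / 2 := by
    have h3 : 2 / η ≤ p := by
      have : (0 : ℝ) ≤ P1 := by positivity
      linarith
    rw [div_le_iff₀ hη0] at h3
    rw [div_le_iff₀ hp0]
    linarith
  have hG := LawA.G_sub hpp
  have hs1 : G p - g ≤ 1 / (p : ℝ) := by linarith [hg.1]
  have hs0 : 0 ≤ G p - g := by linarith [hg.2]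
  have hx : |g - Real.log (Real.log p) - Mer| ≤ η := by
    have h3 := abs_lt.1 hu
    rw [abs_le]
    constructor
    · linarith [h3.1]
    · linarith [h3.2]
  have heq : Real.exp (-Mer) * Real.exp g =
      Real.log p * Real.exp (g - Real.log (Real.log p) - Mer) := by
    conv_rhs => rw [← Real.exp_log hlogp]
    rw [← Real.exp_add, ← Real.exp_add, Real.exp_log hlogp]
    congr 1
    ring
  rw [heq]
  have h5 := Real.abs_exp_sub_one_le (hx.trans hη1)
  calc |Real.log p - Real.log p * Real.exp (g - Real.log (Real.log p) - Mer)|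
      = Real.log p * |Real.exp (g - Real.log (Real.log p) - Mer) - 1| := by
        rw [← abs_of_pos hlogp, ← abs_mul, abs_of_pos hlogp, abs_sub_comm]
        congr 1
        ring
    _ ≤ (D * 2 ^ l) * (2 * η) := by
        refine mul_le_mul h2 (h5.trans ?_) (abs_nonneg _) (by positivity)
        linarith
    _ = D * (2 * η) * 2 ^ l := by ring
    _ ≤ ε * 2 ^ l := by gcongr

end Pool.Agent.EN
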