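import Mathlib
import Pool.Agent.Lib.MP_ec0ede_nt_EN.Defs4
import Pool.Agent.Lib.MP_ec0ede_nt_EN.LawA
import Pool.Agent.Lib.MP_ec0ede_nt_EN.LawB
import Pool.Agent.Lib.MP_ec0ede_nt_EN.ExB

set_option autoImplicit false

/-!
# MP_ec0ede_nt, project EN, module ALim: the last levels
-/

noncomputable section

namespace Pool.Agent.EN

open Real Filter Topology Finset

namespace ALim

/-- the indicator of the cell of the prime `p` of level `l` -/
def hI (l p : ℕ) (t : ℝ) : ℝ :=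
  Set.indicator (Set.Ioc (G (p - 1) / Real.log 2 - l) (G p / Real.log 2 - l))
    (fun _ => (1 : ℝ)) t

lemma hI_of {l p : ℕ} {t : ℝ} (h : G (p - 1) / Real.log 2 - l < t ∧ t ≤ G p / Real.log 2 - l) :
    hI l p t = 1 := Set.indicator_of_mem (show t ∈ Set.Ioc _ _ from h) _

lemma hI_not {l p : ℕ} {t : ℝ}
    (h : ¬ (G (p - 1) / Real.log 2 - l < t ∧ t ≤ G p / Real.log 2 - l)) :
    hI l p t = 0 := Set.indicator_of_notMem (show t ∉ Set.Ioc _ _ from h) _

lemma hI_mem {l p : ℕ} {t : ℝ} (h : hI l p t ≠ 0) :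
    G (p - 1) / Real.log 2 - l < t ∧ t ≤ G p / Real.log 2 - l := by
  by_contra hc
  exact h (hI_not hc)

lemma hI_nonneg (l p : ℕ) (t : ℝ) : 0 ≤ hI l p t :=
  Set.indicator_nonneg (fun _ _ => zero_le_one) _

lemma mu_eq (l p : ℕ) : mu l p = ∫ t, tent t * hI l p t := by
  have hl := LawA.log2
  have h1 : ∀ t, tent t * hI l p t =
      Set.indicator (Set.Ioc (G (p - 1) / Real.log 2 - l) (G p / Real.log 2 - l)) tent t := by
    intro t
    unfold hI
    by_cases h : t ∈ Set.Ioc (G (p - 1) / Real.log 2 - l) (G p / Real.log 2 - l)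
    · rw [Set.indicator_of_mem h, Set.indicator_of_mem h, mul_one]
    · rw [Set.indicator_of_notMem h, Set.indicator_of_notMem h, mul_zero]
  simp_rw [h1]
  rw [MeasureTheory.integral_indicator measurableSet_Ioc]
  have hle : G (p - 1) / Real.log 2 - l ≤ G p / Real.log 2 - l := by
    have := div_le_div_of_nonneg_right (LawA.G_pred_le p) hl.le
    linarith
  rw [← intervalIntegral.integral_of_le hle]
  unfold mu
  rw [intervalIntegral.integral_comp_div_sub tent hl.ne' (l : ℝ), smul_eq_mul, ← mul_assoc,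
    one_div, inv_mul_cancel₀ hl.ne', one_mul]

lemma sum_hI {l L : ℕ} (h1 : 1 ≤ l) (hL : l ≤ L) {t : ℝ} (ht : |t| < 1) :
    ∑ p ∈ range (bd L), hI l p t = 1 := by
  classical
  have hl := LawA.log2
  have hlR : (1 : ℝ) ≤ l := by exact_mod_cast h1
  have hLR : (l : ℝ) ≤ L := by exact_mod_cast hL
  obtain ⟨ht1, ht2⟩ := abs_lt.1 ht
  have hex : ∃ n : ℕ, t ≤ G n / Real.log 2 - l := by
    refine ⟨bd L - 1, ?_⟩
    have h3 := G_bd L
    have h4 : (L : ℝ) + 1 ≤ G (bd L - 1) / Real.log 2 := by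
      rw [le_div_iff₀ hl]
      exact h3
    linarith
  have hbd : 1 ≤ bd L := by
    unfold bd
    omega
  have hle : Nat.find hex ≤ bd L - 1 := by
    refine Nat.find_min' hex ?_
    have h3 := G_bd L
    have h4 : (L : ℝ) + 1 ≤ G (bd L - 1) / Real.log 2 := by
      rw [le_div_iff₀ hl]
      exact h3
    linarith
  have hspec := Nat.find_spec hex
  have hmin : ∀ m < Nat.find hex, ¬ t ≤ G m / Real.log 2 - l := fun m hm => Nat.find_min hex hm
  set q := Nat.find hex with hq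
  have hq0 : q ≠ 0 := by
    intro h0
    rw [h0, LawA.G_zero, zero_div] at hspec
    linarith
  rw [Finset.sum_eq_single q]
  · refine hI_of ⟨?_, hspec⟩
    have := hmin (q - 1) (by omega)
    linarith [lt_of_not_ge this]
  · intro p _ hp
    refine hI_not ?_
    rintro ⟨h5, h6⟩
    rcases lt_or_gt_of_ne hp with h7 | h7
    · exact hmin p h7 h6
    · have h8 : G q ≤ G (p - 1) := G_mono (by omega)
      have h9 := div_le_div_of_nonneg_right h8 hl.le
      linarith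
  · intro hn
    exact absurd (Finset.mem_range.2 (by omega)) hn

lemma tent_sum {l L : ℕ} (h1 : 1 ≤ l) (hL : l ≤ L) (t : ℝ) :
    ∑ p ∈ range (bd L), tent t * hI l p t = tent t := by
  rw [← Finset.mul_sum]
  by_cases ht : |t| < 1
  · rw [sum_hI h1 hL ht, mul_one]
  · rw [tent_eq_zero (not_lt.1 ht), zero_mul]

lemma cell {l p : ℕ} {t : ℝ} (h : tent t * hI l p t ≠ 0) :
    mu l p ≠ 0 ∧ ((l : ℝ) + t) * Real.log 2 ∈ Set.Icc (G (p - 1)) (G p) ∧ |t| < 1 := by
  have hl := LawA.log2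
  have ht : tent t ≠ 0 := fun h0 => h (by rw [h0, zero_mul])
  have hi : hI l p t ≠ 0 := fun h0 => h (by rw [h0, mul_zero])
  obtain ⟨h1, h2⟩ := hI_mem hi
  have h3 : G (p - 1) < ((l : ℝ) + t) * Real.log 2 := by
    have : G (p - 1) / Real.log 2 < l + t := by linarith
    rwa [div_lt_iff₀ hl] at this
  have h4 : ((l : ℝ) + t) * Real.log 2 ≤ G p := by
    have : (l : ℝ) + t ≤ G p / Real.log 2 := by linarith
    rwa [le_div_iff₀ hl] at this
  refine ⟨?_, ⟨h3.le, h4⟩, ?_⟩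
  · refine ne_of_gt ?_
    unfold mu
    refine mul_pos (by positivity) ?_
    refine intervalIntegral.integral_pos (lt_of_lt_of_le h3 h4) (LawA.cont l).continuousOn
      (fun x _ => tent_nonneg _) ⟨((l : ℝ) + t) * Real.log 2, ⟨h3.le, h4⟩, ?_⟩
    rw [mul_div_assoc, div_self hl.ne', mul_one, add_sub_cancel_left]
    exact lt_of_le_of_ne (tent_nonneg t) (Ne.symm ht)
  · by_contra hc
    exact ht (tent_eq_zero (not_lt.1 hc))

lemma tent_integrable : MeasureTheory.Integrable tent := by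
  refine tent_continuous.integrable_of_hasCompactSupport ?_
  refine HasCompactSupport.intro (isCompact_Icc (a := (-1 : ℝ)) (b := 1)) ?_
  intro x hx
  refine tent_eq_zero ?_
  by_contra hc
  exact hx (abs_le.1 (not_le.1 hc).le)

lemma cell_integrable (l p : ℕ) : MeasureTheory.Integrable (fun t => tent t * hI l p t) := by
  have h1 : (fun t => tent t * hI l p t) =
      Set.indicator (Set.Ioc (G (p - 1) / Real.log 2 - l) (G p / Real.log 2 - l)) tent := by
    funext t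
    unfold hI
    by_cases h : t ∈ Set.Ioc (G (p - 1) / Real.log 2 - l) (G p / Real.log 2 - l)
    · rw [Set.indicator_of_mem h, Set.indicator_of_mem h, mul_one]
    · rw [Set.indicator_of_notMem h, Set.indicator_of_notMem h, mul_zero]
  rw [h1]
  exact tent_integrable.indicator measurableSet_Ioc

lemma tent_int : ∫ t, tent t = 1 := by
  have h := mu_mass (j := 1) (L := 1) le_rfl le_rfl
  simp_rw [mu_eq] at h
  rw [← MeasureTheory.integral_finsetSum _ (fun p _ => cell_integrable 1 p)] at h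
  rw [← h]
  exact integral_congr_fun fun t => (tent_sum le_rfl le_rfl t).symm
where
  integral_congr_fun {f g : ℝ → ℝ} (h : ∀ t, f t = g t) : ∫ t, f t = ∫ t, g t := by
    rw [funext h]

section Pi

variable {ι : Type} [Fintype ι]

lemma tents_integrable : MeasureTheory.Integrable (fun t : ι → ℝ => ∏ i, tent (t i)) := by
  have := MeasureTheory.Integrable.fintype_prod (ι := ι) (E := ℝ) (𝕜 := ℝ)
    (f := fun _ => tent) (μ := fun _ => MeasureTheory.volume) (fun _ => tent_integrable)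
  exact this

lemma tents_int : ∫ t : ι → ℝ, ∏ i, tent (t i) = 1 := by
  rw [MeasureTheory.integral_fintype_prod_volume_eq_prod (fun _ : ι => tent)]
  simp [tent_int]

lemma tents_nonneg (t : ι → ℝ) : 0 ≤ ∏ i, tent (t i) :=
  Finset.prod_nonneg fun _ _ => tent_nonneg _

lemma mul_integrable {w : (ι → ℝ) → ℝ} (hw : MeasureTheory.Integrable w) {H : (ι → ℝ) → ℝ}
    (hc : Continuous H) {C : ℝ} (hC : ∀ t, |H t| ≤ C) :
    MeasureTheory.Integrable (fun t => w t * H t) :=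
  hw.mul_bdd hc.aestronglyMeasurable (Filter.Eventually.of_forall fun t => by
    rw [Real.norm_eq_abs]; exact hC t)

lemma int_bound {H : (ι → ℝ) → ℝ} (hc : Continuous H) {B : ℝ} (hB : ∀ t, |H t| ≤ B) :
    |∫ t : ι → ℝ, (∏ i, tent (t i)) * H t| ≤ B := by
  refine (MeasureTheory.abs_integral_le_integral_abs).trans ?_
  have h1 : ∫ t : ι → ℝ, |(∏ i, tent (t i)) * H t| ≤ ∫ t : ι → ℝ, (∏ i, tent (t i)) * B := by
    refine MeasureTheory.integral_mono (mul_integrable tents_integrable hc hB).abs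
      (tents_integrable.mul_const B) ?_
    intro t
    show |(∏ i, tent (t i)) * H t| ≤ (∏ i, tent (t i)) * B
    rw [abs_mul, abs_of_nonneg (tents_nonneg t)]
    exact mul_le_mul_of_nonneg_left (hB t) (tents_nonneg t)
  rw [MeasureTheory.integral_mul_const, tents_int, one_mul] at h1
  exact h1

lemma diff_bound [DecidableEq ι] (L : ℕ) (lev : ι → ℕ) (hlev : ∀ i, 1 ≤ lev i ∧ lev i ≤ L)
    (F1 : (ι → ℕ) → ℝ) (F2 : (ι → ℝ) → ℝ) (hF2 : Continuous F2) {C : ℝ} (hC : ∀ t, |F2 t| ≤ C)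
    {B : ℝ} (h : ∀ (τ : ι → ℕ) (t : ι → ℝ),
      (∀ i, tent (t i) * hI (lev i) (τ i) (t i) ≠ 0) → |F1 τ - F2 t| ≤ B) :
    |Ex (range (bd L)) (fun i => mu (lev i)) F1 - ∫ t : ι → ℝ, (∏ i, tent (t i)) * F2 t| ≤ B := by
  classical
  set P : Finset (ι → ℕ) := Fintype.piFinset (fun _ : ι => range (bd L)) with hP
  let w : (ι → ℕ) → (ι → ℝ) → ℝ := fun τ t => ∏ i, (tent (t i) * hI (lev i) (τ i) (t i))
  have w0 : ∀ τ t, 0 ≤ w τ t := fun τ t =>
    Finset.prod_nonneg fun i _ => mul_nonneg (tent_nonneg _) (hI_nonneg _ _ _)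
  have wi : ∀ τ, MeasureTheory.Integrable (w τ) := fun τ =>
    MeasureTheory.Integrable.fintype_prod (ι := ι) (E := ℝ) (𝕜 := ℝ)
      (f := fun i t => tent t * hI (lev i) (τ i) t) (μ := fun _ => MeasureTheory.volume)
      (fun i => cell_integrable (lev i) (τ i))
  have wint : ∀ τ, ∫ t, w τ t = ∏ i, mu (lev i) (τ i) := by
    intro τ
    show ∫ t : ι → ℝ, ∏ i, (tent (t i) * hI (lev i) (τ i) (t i)) = _
    rw [MeasureTheory.integral_fintype_prod_volume_eq_prod
      (fun (i : ι) (t : ℝ) => tent t * hI (lev i) (τ i) t)]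
    exact Finset.prod_congr rfl fun i _ => (mu_eq _ _).symm
  have wsum : ∀ t : ι → ℝ, ∏ i, tent (t i) = ∑ τ ∈ P, w τ t := by
    intro t
    have h1 : ∏ i, tent (t i) = ∏ i, ∑ p ∈ range (bd L), tent (t i) * hI (lev i) p (t i) :=
      Finset.prod_congr rfl fun i _ => (tent_sum (hlev i).1 (hlev i).2 (t i)).symm
    rw [h1, Finset.prod_univ_sum]
  have hwF : ∀ τ, MeasureTheory.Integrable (fun t => w τ t * F2 t) := fun τ =>
    mul_integrable (wi τ) hF2 hC
  have e1 : Ex (range (bd L)) (fun i => mu (lev i)) F1 = ∑ τ ∈ P, ∫ t, w τ t * F1 τ := by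
    unfold Ex
    refine Finset.sum_congr rfl fun τ _ => ?_
    rw [MeasureTheory.integral_mul_const, wint]
  have e2 : ∫ t : ι → ℝ, (∏ i, tent (t i)) * F2 t = ∑ τ ∈ P, ∫ t, w τ t * F2 t := by
    rw [← MeasureTheory.integral_finsetSum _ (fun τ _ => hwF τ)]
    congr 1
    funext t
    rw [wsum t, Finset.sum_mul]
  have e3 : ∑ τ ∈ P, ∏ i, mu (lev i) (τ i) = 1 := by
    have := Ex_const (range (bd L)) (fun i => mu (lev i))
      (fun i => mu_mass (hlev i).1 (hlev i).2) 1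
    unfold Ex at this
    simpa using this
  rw [e1, e2, ← Finset.sum_sub_distrib]
  have e4 : ∀ τ ∈ P, |(∫ t, w τ t * F1 τ) - (∫ t, w τ t * F2 t)| ≤
      (∏ i, mu (lev i) (τ i)) * B := by
    intro τ _
    rw [← MeasureTheory.integral_sub ((wi τ).mul_const _) (hwF τ)]
    refine (MeasureTheory.abs_integral_le_integral_abs).trans ?_
    rw [← wint τ, ← MeasureTheory.integral_mul_const]
    refine MeasureTheory.integral_mono (((wi τ).mul_const _).sub (hwF τ)).abs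
      ((wi τ).mul_const B) ?_
    intro t
    show |w τ t * F1 τ - w τ t * F2 t| ≤ w τ t * B
    rw [← mul_sub, abs_mul, abs_of_nonneg (w0 τ t)]
    by_cases hz : ∀ i, tent (t i) * hI (lev i) (τ i) (t i) ≠ 0
    · exact mul_le_mul_of_nonneg_left (h τ t hz) (w0 τ t)
    · push Not at hz
      obtain ⟨i, hi⟩ := hz
      have : w τ t = 0 := Finset.prod_eq_zero (Finset.mem_univ i) hi
      rw [this, zero_mul, zero_mul]
  calc |∑ τ ∈ P, ((∫ t, w τ t * F1 τ) - (∫ t, w τ t * F2 t))| ≤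
      ∑ τ ∈ P, |(∫ t, w τ t * F1 τ) - (∫ t, w τ t * F2 t)| := Finset.abs_sum_le_sum_abs _ _
    _ ≤ ∑ τ ∈ P, (∏ i, mu (lev i) (τ i)) * B := Finset.sum_le_sum e4
    _ = B := by rw [← Finset.sum_mul, e3, one_mul]

end Pi

lemma phi_nonneg {A : ℝ} (hA : 0 ≤ A) : 0 ≤ 1 - Real.exp (-A) := by
  have : Real.exp (-A) ≤ 1 := Real.exp_le_one_iff.2 (by linarith)
  linarith

lemma phi_le (A : ℝ) : 1 - Real.exp (-A) ≤ A := by
  have := Real.add_one_le_exp (-A)
  linarith

lemma phi_le_one (A : ℝ) : 1 - Real.exp (-A) ≤ 1 := by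
  have := Real.exp_pos (-A)
  linarith

lemma phi_lip_aux {A B : ℝ} (hA : 0 ≤ A) (h : A ≤ B) :
    |(1 - Real.exp (-A)) - (1 - Real.exp (-B))| ≤ |A - B| := by
  have h1 : Real.exp (-B) = Real.exp (-A) * Real.exp (-(B - A)) := by
    rw [← Real.exp_add]; ring_nf
  have h2 : Real.exp (-A) ≤ 1 := Real.exp_le_one_iff.2 (by linarith)
  have h3 := Real.exp_pos (-A)
  have h4 := phi_le (B - A)
  have h5 := phi_nonneg (A := B - A) (by linarith)
  have h6 : (1 - Real.exp (-A)) - (1 - Real.exp (-B)) =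
      -(Real.exp (-A) * (1 - Real.exp (-(B - A)))) := by rw [h1]; ring
  rw [h6, abs_neg, abs_of_nonneg (mul_nonneg h3.le h5), abs_sub_comm, abs_of_nonneg (by linarith)]
  calc Real.exp (-A) * (1 - Real.exp (-(B - A))) ≤ 1 * (1 - Real.exp (-(B - A))) :=
      mul_le_mul_of_nonneg_right h2 h5
    _ ≤ B - A := by linarith

lemma phi_lip {A B : ℝ} (hA : 0 ≤ A) (hB : 0 ≤ B) :
    |(1 - Real.exp (-A)) - (1 - Real.exp (-B))| ≤ |A - B| := by
  rcases le_total A B with h | h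
  · exact phi_lip_aux hA h
  · rw [abs_sub_comm, abs_sub_comm A B]
    exact phi_lip_aux hB h

lemma card_fin {ι : Type} [Fintype ι] [DecidableEq ι] :
    ((Finset.univ : Finset (Finset ι)).card : ℝ) = 2 ^ Fintype.card ι := by
  rw [Finset.card_univ, Fintype.card_finset]
  push_cast
  rfl

lemma RA_nonneg {ι : Type} [Fintype ι] (a : ℕ) (y : ℝ) (τ : ι → ℕ) : 0 ≤ RA a y τ :=
  Finset.sum_nonneg fun _ _ => tent_nonneg _

lemma RA_le {ι : Type} [Fintype ι] [DecidableEq ι] (a : ℕ) (y : ℝ) (τ : ι → ℕ) :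
    RA a y τ ≤ 2 ^ Fintype.card ι := by
  unfold RA
  rw [← card_fin]
  have := Finset.sum_le_card_nsmul (Finset.univ : Finset (Finset ι))
    (fun S => tent ((y - sz τ S) / 2 ^ a - 1)) 1 (fun _ _ => tent_le_one _)
  simpa using this

variable {s : ℕ} (ν : Fin s → ℕ)

lemma RAinf_nonneg (Y : ℝ) (t : Idx ν → ℝ) : 0 ≤ RAinf ν Y t :=
  Finset.sum_nonneg fun _ _ => tent_nonneg _

lemma RAinf_le (Y : ℝ) (t : Idx ν → ℝ) : RAinf ν Y t ≤ 2 ^ Fintype.card (Idx ν) := by
  unfold RAinf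
  rw [← card_fin]
  refine (Finset.sum_le_card_nsmul _ _ 1 (fun _ _ => tent_le_one _)).trans ?_
  simp

lemma RAinf_continuous (Y : ℝ) : Continuous (RAinf ν Y) := by
  unfold RAinf
  refine continuous_finsetSum _ fun S _ => tent_continuous.comp ?_
  refine (continuous_const.sub (continuous_finsetSum _ fun i _ => ?_)).sub continuous_const
  refine continuous_const.mul ?_
  exact (Real.continuous_const_rpow (by norm_num)).comp
    (continuous_const.add (continuous_apply i))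

lemma F2_continuous (Y r : ℝ) :
    Continuous (fun t : Idx ν → ℝ => 1 - Real.exp (-(r * RAinf ν Y t))) := by
  have := RAinf_continuous ν Y
  fun_prop

lemma F2_abs (Y : ℝ) {r : ℝ} (hr : 0 ≤ r) (t : Idx ν → ℝ) :
    |1 - Real.exp (-(r * RAinf ν Y t))| ≤ 1 := by
  rw [abs_of_nonneg (phi_nonneg (mul_nonneg hr (RAinf_nonneg ν Y t)))]
  exact phi_le_one _

/-- a bound for the difference of `RA` and `RAinf` -/
lemma RA_diff (a : ℕ) (Y : ℝ) (τ : Idx ν → ℕ) (t : Idx ν → ℝ) {δ : ℝ}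
    (h : ∀ i : Idx ν, |Real.log (τ i) / 2 ^ a -
      Real.exp (-Mer) * (2 : ℝ) ^ ((i.1 : ℝ) + 1 + t i)| ≤ δ) (hδ : 0 ≤ δ) :
    |RA a (Y * 2 ^ (a + s)) τ - RAinf ν Y t| ≤
      2 ^ Fintype.card (Idx ν) * (Fintype.card (Idx ν) * δ) := by
  classical
  unfold RA RAinf
  rw [← Finset.sum_sub_distrib]
  refine (Finset.abs_sum_le_sum_abs _ _).trans ?_
  rw [← card_fin, ← nsmul_eq_mul]
  refine Finset.sum_le_card_nsmul _ _ _ fun S _ => ?_
  refine (tent_lip _ _).trans ?_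
  have h2 : (2 : ℝ) ^ a ≠ 0 := by positivity
  have e : (Y * 2 ^ (a + s) - sz τ S) / 2 ^ a - 1 - (Y * 2 ^ s -
      ∑ i ∈ S, Real.exp (-Mer) * (2 : ℝ) ^ ((i.1 : ℝ) + 1 + t i) - 1) =
      -∑ i ∈ S, (Real.log (τ i) / 2 ^ a - Real.exp (-Mer) * (2 : ℝ) ^ ((i.1 : ℝ) + 1 + t i)) := by
    rw [Finset.sum_sub_distrib, ← Finset.sum_div]
    unfold sz
    rw [pow_add]
    field_simp
    ring
  rw [e, abs_neg]
  refine (Finset.abs_sum_le_sum_abs _ _).trans ?_
  refine (Finset.sum_le_card_nsmul _ _ δ fun i _ => h i).trans ?_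
  rw [nsmul_eq_mul]
  refine mul_le_mul_of_nonneg_right ?_ hδ
  exact_mod_cast Finset.card_le_univ S

lemma card_Idx' : (Fintype.card (Idx ν) : ℕ) = cnt ν s := by
  unfold cnt
  rw [Fintype.card_sigma]
  refine Finset.sum_congr rfl fun i _ => ?_
  rw [if_pos i.2, Fintype.card_fin]

end ALim

open ALim in
theorem a_lim {s : ℕ} (ν : Fin s → ℕ) : ∃ e : ℕ → ℝ, Tendsto e atTop (𝓝 0) ∧ (∀ a, 0 ≤ e a) ∧
    ∀ (a : ℕ) (Y r : ℝ), 0 ≤ r →
    |EX (a + s) a ν (fun τ => 1 - Real.exp (-(r * RA a (Y * 2 ^ (a + s)) τ))) - EAinf ν Y r| ≤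
      e a * r := by
  classical
  set N : ℝ := 2 ^ Fintype.card (Idx ν) with hN
  have hN1 : 1 ≤ N := one_le_pow₀ (by norm_num)
  let SS : ℕ → Set ℝ := fun a => {e : ℝ | 0 ≤ e ∧ ∀ (Y r : ℝ), 0 ≤ r →
    |EX (a + s) a ν (fun τ => 1 - Real.exp (-(r * RA a (Y * 2 ^ (a + s)) τ))) - EAinf ν Y r| ≤
      e * r}
  have hlev : ∀ a : ℕ, ∀ i : Idx ν, 1 ≤ lv a ν i ∧ lv a ν i ≤ a + s := by
    intro a i
    unfold lv
    have := i.1.2
    omega
  have hmemN : ∀ a, N ∈ SS a := by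
    intro a
    refine ⟨by linarith, fun Y r hr => ?_⟩
    refine diff_bound (a + s) (lv a ν) (hlev a) _ _ (F2_continuous ν Y r) (F2_abs ν Y hr) ?_
    intro τ t _
    have h1 := phi_nonneg (mul_nonneg hr (RA_nonneg a (Y * 2 ^ (a + s)) τ))
    have h2 := phi_nonneg (mul_nonneg hr (RAinf_nonneg ν Y t))
    have h3 := phi_le (r * RA a (Y * 2 ^ (a + s)) τ)
    have h4 := phi_le (r * RAinf ν Y t)
    have h5 : r * RA a (Y * 2 ^ (a + s)) τ ≤ r * N :=
      mul_le_mul_of_nonneg_left (RA_le a (Y * 2 ^ (a + s)) τ) hr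
    have h6 : r * RAinf ν Y t ≤ r * N := mul_le_mul_of_nonneg_left (RAinf_le ν Y t) hr
    rw [abs_le]
    constructor <;> nlinarith
  have hbdd : ∀ a, BddBelow (SS a) := fun a => ⟨0, fun e he => he.1⟩
  have hmem : ∀ a, sInf (SS a) ∈ SS a := by
    intro a
    refine ⟨le_csInf ⟨N, hmemN a⟩ fun e he => he.1, fun Y r hr => ?_⟩
    rcases eq_or_lt_of_le hr with h0 | h0
    · have := (hmemN a).2 Y r hr
      rw [← h0, mul_zero] at this ⊢
      exact this
    · rw [← div_le_iff₀ h0]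
      refine le_csInf ⟨N, hmemN a⟩ fun e he => ?_
      rw [div_le_iff₀ h0]
      exact he.2 Y r hr
  refine ⟨fun a => sInf (SS a), ?_, fun a => (hmem a).1, fun a => (hmem a).2⟩
  rw [Metric.tendsto_atTop]
  intro ε hε
  set c : ℝ := (Fintype.card (Idx ν) : ℝ) with hc
  have hc0 : 0 ≤ c := Nat.cast_nonneg _
  set ε' : ℝ := ε / 2 / (N * (c + 1) * 2 ^ s) with hε'
  have hD : 0 < N * (c + 1) * 2 ^ s := by positivity
  have hε'0 : 0 < ε' := by positivity
  obtain ⟨l0, hl0⟩ := pos_asymp hε'0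
  refine ⟨l0, fun a ha => ?_⟩
  rw [Real.dist_eq, sub_zero, abs_of_nonneg (hmem a).1]
  refine lt_of_le_of_lt (csInf_le (hbdd a) (a := ε / 2) ?_) (by linarith)
  refine ⟨by linarith, fun Y r hr => ?_⟩
  refine diff_bound (a + s) (lv a ν) (hlev a) _ _ (F2_continuous ν Y r) (F2_abs ν Y hr) ?_
  intro τ t hz
  have hstep : ∀ i : Idx ν, |Real.log (τ i) / 2 ^ a -
      Real.exp (-Mer) * (2 : ℝ) ^ ((i.1 : ℝ) + 1 + t i)| ≤ ε' * 2 ^ s := by
    intro i
    obtain ⟨h1, h2, h3⟩ := cell (hz i)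
    have h4 := hl0 (lv a ν i) (by unfold lv; omega) (τ i) h1 _ h2
    have h5 : Real.exp (((lv a ν i : ℕ) : ℝ) * 1 + t i * 1) = Real.exp _ := rfl
    have e1 : Real.exp ((((lv a ν i : ℕ) : ℝ) + t i) * Real.log 2) =
        2 ^ a * (2 : ℝ) ^ ((i.1 : ℝ) + 1 + t i) := by
      rw [mul_comm, ← Real.rpow_def_of_pos (by norm_num : (0 : ℝ) < 2), ← Real.rpow_natCast,
        ← Real.rpow_add (by norm_num : (0 : ℝ) < 2)]
      congr 1
      unfold lv
      push_cast
      ring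
    rw [e1] at h4
    have h2a : (0 : ℝ) < 2 ^ a := by positivity
    have e2 : Real.log (τ i) / 2 ^ a - Real.exp (-Mer) * (2 : ℝ) ^ ((i.1 : ℝ) + 1 + t i) =
        (Real.log (τ i) - Real.exp (-Mer) * (2 ^ a * (2 : ℝ) ^ ((i.1 : ℝ) + 1 + t i))) / 2 ^ a := by
      field_simp
    rw [e2, abs_div, abs_of_pos h2a, div_le_iff₀ h2a]
    refine h4.trans ?_
    rw [mul_assoc]
    refine mul_le_mul_of_nonneg_left ?_ hε'0.le
    rw [← pow_add]
    refine pow_le_pow_right₀ (by norm_num) ?_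
    have := (hlev a i).2
    omega
  have hd := RA_diff ν a Y τ t hstep (by positivity)
  have h6 := phi_lip (mul_nonneg hr (RA_nonneg a (Y * 2 ^ (a + s)) τ))
    (mul_nonneg hr (RAinf_nonneg ν Y t))
  refine h6.trans ?_
  rw [← mul_sub, abs_mul, abs_of_nonneg hr, mul_comm]
  refine mul_le_mul_of_nonneg_right (hd.trans ?_) hr
  rw [← hN, ← hc, hε']
  rw [show N * (c * (ε / 2 / (N * (c + 1) * 2 ^ s) * 2 ^ s)) = ε / 2 * (c / (c + 1)) by
    field_simp]
  have h7 : c / (c + 1) ≤ 1 := by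
    rw [div_le_one (by positivity)]
    linarith
  nlinarith

open ALim in
theorem EAinf_nonneg {s : ℕ} (ν : Fin s → ℕ) (Y r : ℝ) (hr : 0 ≤ r) : 0 ≤ EAinf ν Y r := by
  unfold EAinf
  refine MeasureTheory.integral_nonneg fun t => ?_
  exact mul_nonneg (tents_nonneg t) (phi_nonneg (mul_nonneg hr (RAinf_nonneg ν Y t)))

open ALim in
theorem EAinf_le_one {s : ℕ} (ν : Fin s → ℕ) (Y r : ℝ) (hr : 0 ≤ r) : EAinf ν Y r ≤ 1 :=
  (le_abs_self _).trans (int_bound (F2_continuous ν Y r) (F2_abs ν Y hr))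

open ALim in
theorem EAinf_lip {s : ℕ} (ν : Fin s → ℕ) (Y Y' r : ℝ) (hr : 0 ≤ r) :
    |EAinf ν Y r - EAinf ν Y' r| ≤ r * 2 ^ cnt ν s * 2 ^ s * |Y - Y'| := by
  classical
  unfold EAinf
  rw [← MeasureTheory.integral_sub
    (mul_integrable tents_integrable (F2_continuous ν Y r) (F2_abs ν Y hr))
    (mul_integrable tents_integrable (F2_continuous ν Y' r) (F2_abs ν Y' hr))]
  simp_rw [← mul_sub]
  refine int_bound ((F2_continuous ν Y r).sub (F2_continuous ν Y' r)) ?_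
  intro t
  refine (phi_lip (mul_nonneg hr (RAinf_nonneg ν Y t))
    (mul_nonneg hr (RAinf_nonneg ν Y' t))).trans ?_
  rw [← mul_sub, abs_mul, abs_of_nonneg hr, mul_assoc, mul_assoc]
  refine mul_le_mul_of_nonneg_left ?_ hr
  unfold RAinf
  rw [← Finset.sum_sub_distrib]
  refine (Finset.abs_sum_le_sum_abs _ _).trans ?_
  rw [← card_Idx' ν, ← ALim.card_fin (ι := Idx ν), ← nsmul_eq_mul]
  refine Finset.sum_le_card_nsmul _ _ _ fun S _ => ?_
  refine (tent_lip _ _).trans ?_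
  rw [show Y * 2 ^ s - ∑ i ∈ S, Real.exp (-Mer) * (2 : ℝ) ^ ((i.1 : ℝ) + 1 + t i) - 1 -
    (Y' * 2 ^ s - ∑ i ∈ S, Real.exp (-Mer) * (2 : ℝ) ^ ((i.1 : ℝ) + 1 + t i) - 1) =
    2 ^ s * (Y - Y') by ring, abs_mul, abs_of_pos (by positivity)]

end Pool.Agent.EN
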