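import Mathlib
import Pool.Agent.Lib.MP_ec0ede_nt_EN.Defs4

set_option autoImplicit false

/-!
# MP_ec0ede_nt, project EN, module AbM: summability of the top sums
-/

noncomputable section

namespace Pool.Agent.EN

open Real Filter Topology Finset

namespace AbM

theorem pi_summable {g : ℕ → ℝ} (h0 : ∀ k, 0 ≤ g k) (hg : Summable g) (s : ℕ) :
    Summable (fun ν : Fin s → ℕ => ∏ i, g (ν i)) := by
  induction s with
  | zero => exact Summable.of_finite
  | succ s ih =>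
    have h1 : Summable (fun x : ℕ × (Fin s → ℕ) => g x.1 * ∏ i, g (x.2 i)) :=
      hg.mul_of_nonneg ih h0 (fun ν => Finset.prod_nonneg fun i _ => h0 _)
    rw [← (Fin.consEquiv (fun _ : Fin (s + 1) => ℕ)).summable_iff]
    refine h1.congr ?_
    intro x
    simp [Fin.prod_univ_succ, Fin.consEquiv]

theorem pw_summable : Summable (fun k : ℕ => pw k * Real.exp k) := by
  have h1 : Summable (fun k : ℕ => Real.exp (-1) * (Real.exp 1 ^ k / (k.factorial : ℝ))) :=
    (Real.summable_pow_div_factorial (Real.exp 1)).mul_left _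
  refine h1.congr ?_
  intro k
  unfold pw
  rw [← Real.exp_nat_mul, mul_one]
  ring

theorem pw_nonneg (k : ℕ) : 0 ≤ pw k := by
  unfold pw
  positivity

theorem cnt_eq {s : ℕ} (ν : Fin s → ℕ) : cnt ν s = ∑ i, ν i := by
  unfold cnt
  apply Finset.sum_congr rfl
  intro i _
  simp

theorem wt_exp {s : ℕ} (ν : Fin s → ℕ) :
    wt ν * Real.exp (cnt ν s) = ∏ i, (pw (ν i) * Real.exp (ν i)) := by
  rw [Finset.prod_mul_distrib, cnt_eq, ← Real.exp_sum]
  unfold wt
  push_cast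
  rfl

theorem wt_nonneg {s : ℕ} (ν : Fin s → ℕ) : 0 ≤ wt ν :=
  Finset.prod_nonneg fun _ _ => pw_nonneg _

theorem wt_summable (s : ℕ) : Summable (fun ν : Fin s → ℕ => wt ν * Real.exp (cnt ν s)) := by
  refine (pi_summable (g := fun k => pw k * Real.exp k)
    (fun k => mul_nonneg (pw_nonneg k) (Real.exp_pos _).le) pw_summable s).congr ?_
  intro ν
  exact (wt_exp ν).symm

theorem geo_summable : Summable (fun b : ℕ => ((b : ℝ) + 1) * Real.exp (-(b : ℝ))) := by
  have hr : ‖Real.exp (-1)‖ < 1 := by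
    rw [Real.norm_of_nonneg (Real.exp_pos _).le]
    exact Real.exp_lt_one_iff.mpr (by norm_num)
  have h1 := summable_pow_mul_geometric_of_norm_lt_one 1 hr
  have h2 := summable_geometric_of_norm_lt_one hr
  refine (h1.add h2).congr ?_
  intro b
  rw [← Real.exp_nat_mul]
  rw [show (b : ℝ) * -1 = -(b : ℝ) by ring]
  ring

theorem one_le_zz : 1 ≤ zz := by
  unfold zz
  rw [le_div_iff₀ (Real.log_pos (by norm_num))]
  have := Real.log_two_lt_d9
  linarith

end AbM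

open AbM in
theorem top_sum (c1 c2 s : ℕ) : Summable (fun bν : ℕ × (Fin s → ℕ) =>
    ((bν.1 : ℝ) + 1) * (wt bν.2 * ind ((∀ j ≤ s, -(c1 : ℤ) ≤ (bν.1 : ℤ) - c1 - 1 + X bν.2 j) ∧
      (bν.1 : ℤ) - c1 - 1 + X bν.2 s ≤ c2) * zz ^ ((bν.1 : ℤ) - c1 - 1 + X bν.2 s))) := by
  have hz := one_le_zz
  have hz0 : 0 < zz := by linarith
  have hprod : Summable (fun x : ℕ × (Fin s → ℕ) =>
      (((x.1 : ℝ) + 1) * Real.exp (-(x.1 : ℝ))) * (wt x.2 * Real.exp (cnt x.2 s))) :=
    geo_summable.mul_of_nonneg (wt_summable s)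
      (fun b => mul_nonneg (by positivity) (Real.exp_pos _).le)
      (fun ν => mul_nonneg (wt_nonneg ν) (Real.exp_pos _).le)
  refine Summable.of_nonneg_of_le ?_ ?_
    (hprod.mul_left (Real.exp (c1 + c2 + 1) * zz ^ (c2 : ℤ)))
  · rintro ⟨b, ν⟩
    have h1 := wt_nonneg ν
    have h2 := ind_nonneg ((∀ j ≤ s, -(c1 : ℤ) ≤ (b : ℤ) - c1 - 1 + X ν j) ∧
      (b : ℤ) - c1 - 1 + X ν s ≤ c2)
    have h3 : 0 ≤ zz ^ ((b : ℤ) - c1 - 1 + X ν s) := by positivity
    have h4 : (0 : ℝ) ≤ (b : ℝ) + 1 := by positivity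
    exact mul_nonneg h4 (mul_nonneg (mul_nonneg h1 h2) h3)
  · rintro ⟨b, ν⟩
    have h1 := wt_nonneg ν
    have h4 : (0 : ℝ) ≤ (b : ℝ) + 1 := by positivity
    have h5 : 0 < zz ^ (c2 : ℤ) := by positivity
    by_cases hP : (∀ j ≤ s, -(c1 : ℤ) ≤ (b : ℤ) - c1 - 1 + X ν j) ∧
      (b : ℤ) - c1 - 1 + X ν s ≤ c2
    · simp only [ind_of hP, mul_one]
      have h6 : zz ^ ((b : ℤ) - c1 - 1 + X ν s) ≤ zz ^ (c2 : ℤ) := zpow_le_zpow_right₀ hz hP.2
      have h7 : (1 : ℝ) ≤ Real.exp (c1 + c2 + 1) * Real.exp (-(b : ℝ)) * Real.exp (cnt ν s) := by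
        rw [← Real.exp_add, ← Real.exp_add]
        apply Real.one_le_exp
        have h8 := hP.2
        unfold X at h8
        have h9 : (b : ℤ) ≤ c1 + c2 + 1 + cnt ν s := by
          have : (0 : ℤ) ≤ (s : ℤ) := Int.natCast_nonneg s
          linarith
        have h10 : (b : ℝ) ≤ c1 + c2 + 1 + cnt ν s := by exact_mod_cast h9
        linarith
      calc ((b : ℝ) + 1) * (wt ν * zz ^ ((b : ℤ) - c1 - 1 + X ν s))
          ≤ ((b : ℝ) + 1) * (wt ν * zz ^ (c2 : ℤ)) :=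
            mul_le_mul_of_nonneg_left (mul_le_mul_of_nonneg_left h6 h1) h4
        _ = (((b : ℝ) + 1) * (wt ν * zz ^ (c2 : ℤ))) * 1 := (mul_one _).symm
        _ ≤ (((b : ℝ) + 1) * (wt ν * zz ^ (c2 : ℤ))) *
            (Real.exp (c1 + c2 + 1) * Real.exp (-(b : ℝ)) * Real.exp (cnt ν s)) := by
            apply mul_le_mul_of_nonneg_left h7
            exact mul_nonneg h4 (mul_nonneg h1 h5.le)
        _ = _ := by ring
    · simp only [ind_not_of hP, mul_zero, zero_mul]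
      have h6 : 0 ≤ wt ν * Real.exp (cnt ν s) := mul_nonneg h1 (Real.exp_pos _).le
      positivity

end Pool.Agent.EN
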