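import Mathlib
import Pool.Agent.Lib.MP_ec0ede_nt_EN.Defs4
import Pool.Agent.Lib.MP_ec0ede_nt_EN.LawA
import Pool.Agent.Lib.MP_ec0ede_nt_EN.LawB

set_option autoImplicit false

/-!
# MP_ec0ede_nt, project EN: module CnL, the normalising constant
-/

noncomputable section

namespace Pool.Agent.EN

open Real Filter Topology Finset

namespace CnL

/-- the weight of the prime `p` in the levels `1, ..., L` -/
def w (L p : ℕ) : ℝ := Real.log 2 * ∑ j ∈ Icc 1 L, mu j p

theorem log2_pos : 0 < Real.log 2 := Real.log_pos (by norm_num)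

theorem w_nonneg (L p : ℕ) : 0 ≤ w L p :=
  mul_nonneg log2_pos.le (Finset.sum_nonneg fun j _ => mu_nonneg j p)

theorem range_eq (L p : ℕ) : ∑ j ∈ range (L + 1), mu j p = mu 0 p + ∑ j ∈ Icc 1 L, mu j p := by
  rw [Finset.sum_range_succ', add_comm]
  congr 1
  rw [Finset.range_eq_Ico, Finset.sum_Ico_add' (fun j => mu j p) 0 L 1]
  rfl

theorem w_le (L p : ℕ) : w L p ≤ 1 / p := by
  have h := mu_part_le p L
  rw [range_eq] at h
  have h0 := mul_nonneg log2_pos.le (mu_nonneg 0 p)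
  unfold w
  linarith [mul_add (Real.log 2) (mu 0 p) (∑ j ∈ Icc 1 L, mu j p)]

theorem w_eq {L p : ℕ} (hp : p.Prime) (hL : G p ≤ L * Real.log 2) :
    w L p = 1 / p - Real.log 2 * mu 0 p := by
  have h := mu_part hp hL
  rw [range_eq] at h
  unfold w
  linarith [mul_add (Real.log 2) (mu 0 p) (∑ j ∈ Icc 1 L, mu j p)]

theorem w_not_prime {L p : ℕ} (hp : ¬ p.Prime) : w L p = 0 := by
  unfold w
  rw [Finset.sum_eq_zero (fun j _ => mu_not_prime j hp), mul_zero]

theorem lt_bd {N L : ℕ} (h : G N ≤ L * Real.log 2) : N < bd L := by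
  by_contra hc
  push Not at hc
  have h1 : G (bd L - 1) ≤ G N := G_mono (by omega)
  have h2 := G_bd L
  have h3 := log2_pos
  nlinarith

theorem w_total (L : ℕ) : ∑ p ∈ range (bd L), w L p = L * Real.log 2 := by
  unfold w
  rw [← Finset.mul_sum, Finset.sum_comm]
  have : ∀ j ∈ Icc 1 L, ∑ p ∈ range (bd L), mu j p = 1 := fun j hj => by
    rw [Finset.mem_Icc] at hj
    exact mu_mass hj.1 hj.2
  rw [Finset.sum_congr rfl this]
  simp
  ring

theorem sum_primes (N : ℕ) (g : ℕ → ℝ) (h : ∀ p, ¬ p.Prime → g p = 0) :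
    ∑ p ∈ range (N + 1), g p = ∑ p ∈ Nat.primesLE N, g p := by
  symm
  apply Finset.sum_subset
  · intro p hp
    rw [Nat.mem_primesLE] at hp
    rw [Finset.mem_range]
    omega
  · intro p hp hn
    apply h
    intro hpp
    apply hn
    rw [Nat.mem_primesLE]
    rw [Finset.mem_range] at hp
    exact ⟨by omega, hpp⟩

theorem mass_zero {N : ℕ} (hN : bd 0 ≤ N) : ∑ p ∈ Nat.primesLE N, mu 0 p = 1 / 2 := by
  rw [← sum_primes N (fun p => mu 0 p) (fun p hp => mu_not_prime 0 hp)]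
  rw [← mu_mass_zero 0]
  symm
  apply Finset.sum_subset
  · intro p hp
    rw [Finset.mem_range] at *
    omega
  · intro p _ hn
    rw [Finset.mem_range, not_lt] at hn
    exact mu_bd le_rfl hn

theorem w_tail {N L : ℕ} (hN : bd 0 ≤ N) (hL : G N ≤ L * Real.log 2) :
    ∑ p ∈ (range (bd L)).filter (fun p => N < p), w L p =
      L * Real.log 2 - G N + Real.log 2 / 2 := by
  have h1 := Finset.sum_filter_add_sum_filter_not (range (bd L)) (fun p => N < p) (w L)
  rw [w_total] at h1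
  have h2 : ∑ p ∈ (range (bd L)).filter (fun p => ¬ N < p), w L p = G N - Real.log 2 / 2 := by
    have h3 : (range (bd L)).filter (fun p => ¬ N < p) = range (N + 1) := by
      ext p
      have := lt_bd hL
      simp only [Finset.mem_filter, Finset.mem_range]
      omega
    rw [h3, sum_primes N (w L) (fun p hp => w_not_prime hp)]
    have h4 : ∀ p ∈ Nat.primesLE N, w L p = 1 / p - Real.log 2 * mu 0 p := fun p hp => by
      rw [Nat.mem_primesLE] at hp
      exact w_eq hp.2 ((G_mono hp.1).trans hL)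
    rw [Finset.sum_congr rfl h4, Finset.sum_sub_distrib, ← Finset.mul_sum, mass_zero hN]
    unfold G
    ring
  linarith

/-- `log (1 + x)` against `x` -/
theorem log_one_add {x : ℝ} (hx : 0 ≤ x) : 0 ≤ x - Real.log (1 + x) ∧
    x - Real.log (1 + x) ≤ x ^ 2 := by
  have h1 : Real.log (1 + x) ≤ x := by
    have := Real.log_le_sub_one_of_pos (show 0 < 1 + x by linarith)
    linarith
  have h2 : 1 - (1 + x)⁻¹ ≤ Real.log (1 + x) := Real.one_sub_inv_le_log_of_pos (by linarith)
  refine ⟨by linarith, ?_⟩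
  have h3 : x - (1 - (1 + x)⁻¹) ≤ x ^ 2 := by
    have : x - (1 - (1 + x)⁻¹) = x ^ 2 / (1 + x) := by field_simp; ring
    rw [this, div_le_iff₀ (by linarith)]
    nlinarith [sq_nonneg x]
  linarith

theorem log_one_sub {x : ℝ} (h0 : 0 ≤ x) (h1 : x ≤ 1 / 2) : |Real.log (1 - x) + x| ≤ 2 * x ^ 2 := by
  have h2 : Real.log (1 - x) ≤ -x := by
    have := Real.log_le_sub_one_of_pos (show 0 < 1 - x by linarith)
    linarith
  have h3 : 1 - (1 - x)⁻¹ ≤ Real.log (1 - x) := Real.one_sub_inv_le_log_of_pos (by linarith)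
  have h4 : -(2 * x ^ 2) ≤ 1 - (1 - x)⁻¹ + x := by
    have : 1 - (1 - x)⁻¹ + x = -(x ^ 2 / (1 - x)) := by
      have : (1 - x) ≠ 0 := by linarith
      field_simp; ring
    rw [this, neg_le_neg_iff, div_le_iff₀ (by linarith)]
    nlinarith [sq_nonneg x]
  rw [abs_le]
  constructor <;> nlinarith [sq_nonneg x]

/-- the terms of the constant -/
def t (n : ℕ) : ℝ := if n.Prime then Real.log (1 - 1 / (n : ℝ)) + 1 / (n : ℝ) else 0

theorem t_bound (n : ℕ) : ‖t n‖ ≤ 2 * (1 / (n : ℝ) ^ 2) := by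
  unfold t
  split_ifs with h
  · have h2 : (2 : ℝ) ≤ n := by exact_mod_cast h.two_le
    have := log_one_sub (x := 1 / (n : ℝ)) (by positivity)
      (by rw [div_le_div_iff₀ (by linarith) (by norm_num)]; linarith)
    rw [Real.norm_eq_abs]
    calc _ ≤ _ := this
      _ = _ := by rw [div_pow, one_pow]
  · simp only [norm_zero]; positivity

theorem t_summable : Summable t :=
  Summable.of_norm_bounded ((Real.summable_one_div_nat_pow.2 (by norm_num)).mul_left 2) t_bound

theorem cinf_eq : cinf = Real.exp (∑' n, t n - Real.log 2 / 2) := by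
  unfold cinf
  have h1 : ∑' p : Nat.Primes, (Real.log (1 - 1 / (p : ℝ)) + 1 / (p : ℝ)) = ∑' n, t n := by
    have h2 : t = Set.indicator {p : ℕ | p.Prime}
        (fun n : ℕ => Real.log (1 - 1 / (n : ℝ)) + 1 / (n : ℝ)) := by
      funext n
      simp only [t, Set.indicator, Set.mem_ofPred_eq]
    rw [h2, ← _root_.tsum_subtype]
    rfl
  rw [h1, Real.exp_sub]
  congr 1
  rw [Real.sqrt_eq_rpow, Real.rpow_def_of_pos (by norm_num)]
  ring_nf

theorem one_sub_pos {p : ℕ} (hp : p.Prime) : 0 < 1 - 1 / (p : ℝ) := by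
  have h2 : (2 : ℝ) ≤ p := by exact_mod_cast hp.two_le
  have : 1 / (p : ℝ) ≤ 1 / 2 := one_div_le_one_div_of_le (by norm_num) h2
  linarith

theorem log_cN {N L : ℕ} (hN : bd 0 ≤ N) (hL : G N ≤ L * Real.log 2) :
    Real.log (cN N L) = ∑ n ∈ range (N + 1), t n - Real.log 2 / 2 +
      ∑ p ∈ (range (bd L)).filter (fun p => N < p), (w L p - Real.log (1 + w L p)) := by
  have e1 : Real.log (∏ p ∈ Nat.primesLE N, (1 - 1 / (p : ℝ))) =
      ∑ n ∈ range (N + 1), t n - G N := by
    rw [Real.log_prod (fun p hp => (one_sub_pos (Nat.mem_primesLE.1 hp).2).ne')]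
    rw [sum_primes N t (fun p hp => by unfold t; rw [if_neg hp])]
    unfold G
    rw [← Finset.sum_sub_distrib]
    apply Finset.sum_congr rfl
    intro p hp
    unfold t
    rw [if_pos (Nat.mem_primesLE.1 hp).2]
    ring
  have hw : ∀ p, 0 < 1 + w L p := fun p => by linarith [w_nonneg L p]
  have e2 : Real.log ((∏ p ∈ (range (bd L)).filter (fun p => N < p),
      (1 + Real.log 2 * ∑ j ∈ Icc 1 L, mu j p))⁻¹) =
      -∑ p ∈ (range (bd L)).filter (fun p => N < p), Real.log (1 + w L p) := by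
    rw [Real.log_inv]
    congr 1
    exact Real.log_prod (fun p _ => (hw p).ne')
  have hA : (∏ p ∈ Nat.primesLE N, (1 - 1 / (p : ℝ))) ≠ 0 :=
    Finset.prod_ne_zero_iff.2 fun p hp => (one_sub_pos (Nat.mem_primesLE.1 hp).2).ne'
  have hB : (∏ p ∈ (range (bd L)).filter (fun p => N < p),
      (1 + Real.log 2 * ∑ j ∈ Icc 1 L, mu j p))⁻¹ ≠ 0 :=
    inv_ne_zero (Finset.prod_ne_zero_iff.2 fun p _ => (hw p).ne')
  have h2L : ((2 : ℝ) ^ L) ≠ 0 := by positivity
  unfold cN
  rw [Real.log_mul (mul_ne_zero hA hB) h2L, Real.log_mul hA hB, e1, e2, Real.log_pow,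
    Finset.sum_sub_distrib, w_tail hN hL]
  ring

theorem sq_tail (N M : ℕ) (hN : 1 ≤ N) :
    ∑ p ∈ (range M).filter (fun p => N < p), 1 / (p : ℝ) ^ 2 ≤ 1 / (N : ℝ) := by
  have h1 : (range M).filter (fun p => N < p) = Ico (N + 1) M := by
    ext p
    simp only [Finset.mem_filter, Finset.mem_range, Finset.mem_Ico]
    omega
  rw [h1]
  have key : ∀ M : ℕ, N + 1 ≤ M → ∑ p ∈ Ico (N + 1) M, 1 / (p : ℝ) ^ 2 ≤
      1 / (N : ℝ) - 1 / ((M : ℝ) - 1) := by
    intro M hM
    induction M, hM using Nat.le_induction with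
    | base => simp
    | succ M hM ih =>
      rw [Finset.sum_Ico_succ_top hM]
      have hM0 : (1 : ℝ) < M := by
        have : 1 < M := by omega
        exact_mod_cast this
      have : 1 / (M : ℝ) ^ 2 ≤ 1 / ((M : ℝ) - 1) - 1 / (((M + 1 : ℕ) : ℝ) - 1) := by
        push_cast
        rw [show ((M : ℝ) + 1 - 1) = M by ring,
          div_sub_div _ _ (by linarith) (by linarith), div_le_div_iff₀ (by positivity)
          (by nlinarith)]
        nlinarith
      linarith
  by_cases hM : N + 1 ≤ M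
  · refine (key M hM).trans ?_
    have : (0 : ℝ) ≤ 1 / ((M : ℝ) - 1) := by
      apply div_nonneg zero_le_one
      have : (1 : ℝ) ≤ M := by exact_mod_cast (by omega : 1 ≤ M)
      linarith
    linarith
  · rw [Finset.Ico_eq_empty (by omega)]
    simp

end CnL

theorem cN_pos (N L : ℕ) : 0 < cN N L := by
  unfold cN
  have hw : ∀ p, 0 < 1 + CnL.w L p := fun p => by linarith [CnL.w_nonneg L p]
  apply mul_pos (mul_pos _ _) (by positivity)
  · exact Finset.prod_pos fun p hp => CnL.one_sub_pos (Nat.mem_primesLE.1 hp).2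
  · exact inv_pos.2 (Finset.prod_pos fun p _ => hw p)

theorem cinf_pos : 0 < cinf := by
  unfold cinf
  positivity

theorem cN_lim {ε : ℝ} (hε : 0 < ε) : ∃ N0 : ℕ, ∀ N ≥ N0, ∀ L : ℕ, G N ≤ L * Real.log 2 →
    |cN N L - cinf| ≤ ε := by
  set S := ∑' n, CnL.t n - Real.log 2 / 2 with hS
  have hcont : ContinuousAt Real.exp S := Real.continuous_exp.continuousAt
  rw [Metric.continuousAt_iff] at hcont
  obtain ⟨δ, hδ, hc⟩ := hcont ε hε
  have ht : Tendsto (fun N : ℕ => ∑ n ∈ range (N + 1), CnL.t n) atTop (𝓝 (∑' n, CnL.t n)) :=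
    (CnL.t_summable.hasSum.tendsto_sum_nat).comp (tendsto_add_atTop_nat 1)
  have h1 := (Metric.tendsto_atTop.1 ht) (δ / 2) (by linarith)
  obtain ⟨N1, h1⟩ := h1
  obtain ⟨N2, h2⟩ := exists_nat_gt (2 / δ)
  refine ⟨max (max N1 N2) (max 1 (bd 0)), fun N hN L hL => ?_⟩
  have hN1 : N1 ≤ N := by omega
  have hN2 : N2 ≤ N := by omega
  have hN3 : 1 ≤ N := by omega
  have hN4 : bd 0 ≤ N := by omega
  have hlog := CnL.log_cN hN4 hL
  have hpos := cN_pos N L
  have hNr : (0 : ℝ) < N := by exact_mod_cast hN3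
  have hsum0 : 0 ≤ ∑ p ∈ (range (bd L)).filter (fun p => N < p),
      (CnL.w L p - Real.log (1 + CnL.w L p)) :=
    Finset.sum_nonneg fun p _ => (CnL.log_one_add (CnL.w_nonneg L p)).1
  have hsum1 : ∑ p ∈ (range (bd L)).filter (fun p => N < p),
      (CnL.w L p - Real.log (1 + CnL.w L p)) ≤ 1 / N := by
    refine le_trans (Finset.sum_le_sum fun p _ => ?_) (CnL.sq_tail N (bd L) hN3)
    refine (CnL.log_one_add (CnL.w_nonneg L p)).2.trans ?_
    have := CnL.w_le L p
    have h0 := CnL.w_nonneg L p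
    calc (CnL.w L p) ^ 2 ≤ (1 / (p : ℝ)) ^ 2 := by gcongr
      _ = 1 / (p : ℝ) ^ 2 := by rw [div_pow, one_pow]
  have hNδ : 1 / (N : ℝ) < δ / 2 := by
    have : (2 / δ) < N := h2.trans_le (by exact_mod_cast hN2)
    rw [div_lt_iff₀ hδ] at this
    rw [div_lt_div_iff₀ hNr (by norm_num)]
    linarith
  have hd : dist (Real.log (cN N L)) S < δ := by
    rw [Real.dist_eq, hlog, hS]
    have h3 := h1 N hN1
    rw [Real.dist_eq] at h3
    have h4 := abs_lt.1 h3
    rw [abs_lt]
    constructor <;> linarith [h4.1, h4.2]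
  have h5 := hc hd
  rw [Real.exp_log hpos, Real.dist_eq, hS, ← CnL.cinf_eq] at h5
  exact h5.le

end Pool.Agent.EN
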