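import Mathlib
import Pool.Agent.Lib.MP_ec0ede_nt_EN.Defs4

set_option autoImplicit false

/-!
# MP_ec0ede_nt, project EN, module EpsA: the density as a sum over smooth integers
-/

noncomputable section

namespace Pool.Agent.EN

open Real Filter Topology Finset

namespace EpsA

open Classical in
/-- the number of `n` in `[1, x]` with the property `p` -/
def cn (p : ℕ → Prop) (x : ℕ) : ℕ := ((Icc 1 x).filter fun n => p n).card

open Classical in
/-- the number of `n < x` with the property `p` -/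
def rn (p : ℕ → Prop) (x : ℕ) : ℕ := ((range x).filter fun n => p n).card

theorem rn_le (p : ℕ → Prop) (x : ℕ) : rn p x ≤ x := by
  classical
  unfold rn
  exact (card_filter_le _ _).trans_eq (card_range _)

theorem rn_add (p : ℕ → Prop) {M : ℕ} (hp : ∀ n, p (n + M) ↔ p n) (x : ℕ) :
    rn p (x + M) = rn p x + rn p M := by
  classical
  have h1 : ∀ (q : ℕ → Prop) (y : ℕ), rn q y = Nat.count q y := by
    intro q y
    rw [Nat.count_eq_card_filter_range]
    unfold rn
    congr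
  rw [h1, h1, h1, Nat.count_add']
  have h2 : (fun k => p (k + M)) = p := funext fun k => propext (hp k)
  simp only [h2]

theorem rn_mul_add (p : ℕ → Prop) {M : ℕ} (hp : ∀ n, p (n + M) ↔ p n) (q s : ℕ) :
    rn p (s + q * M) = rn p s + q * rn p M := by
  induction q with
  | zero => simp
  | succ q ih =>
    have h1 : s + (q + 1) * M = (s + q * M) + M := by ring
    rw [h1, rn_add p hp, ih]
    ring

theorem cn_rn (p : ℕ → Prop) (x : ℕ) : cn p x ≤ rn p (x + 1) ∧ rn p (x + 1) ≤ cn p x + 1 := by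
  classical
  constructor
  · unfold cn rn
    apply card_le_card
    intro n hn
    rw [mem_filter, mem_Icc] at hn
    rw [mem_filter, mem_range]
    exact ⟨by omega, hn.2⟩
  · unfold cn rn
    have h1 : (range (x + 1)).filter (fun n => p n) ⊆ insert 0 ((Icc 1 x).filter fun n => p n) := by
      intro n hn
      rw [mem_filter, mem_range] at hn
      rw [mem_insert, mem_filter, mem_Icc]
      by_cases h0 : n = 0
      · exact Or.inl h0
      · exact Or.inr ⟨by omega, hn.2⟩
    exact (card_le_card h1).trans (card_insert_le _ _)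

/-- the density of a periodic set -/
theorem dens_periodic (p : ℕ → Prop) {M : ℕ} (hM : 0 < M) (hp : ∀ n, p (n + M) ↔ p n) :
    Tendsto (fun x : ℕ => (cn p x : ℝ) / x) atTop (𝓝 ((rn p M : ℝ) / M)) := by
  have hMr : (0:ℝ) < M := by exact_mod_cast hM
  have key : ∀ x : ℕ, |(cn p x : ℝ) - x * ((rn p M : ℝ) / M)| ≤ 2 * M + 2 := by
    intro x
    obtain ⟨h1, h2⟩ := cn_rn p x
    have h3 : x + 1 = (x + 1) % M + (x + 1) / M * M := by
      have := Nat.mod_add_div (x + 1) M
      rw [mul_comm] at this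
      exact this.symm
    have h4 : rn p (x + 1) = rn p ((x + 1) % M) + (x + 1) / M * rn p M := by
      conv_lhs => rw [h3]
      exact rn_mul_add p hp _ _
    have h5 : rn p ((x + 1) % M) ≤ M := (rn_le _ _).trans (Nat.mod_lt _ hM).le
    have h6 : ((x:ℝ) + 1) = ((x + 1) % M : ℕ) + ((x + 1) / M : ℕ) * M := by
      exact_mod_cast h3
    have h7 : (rn p (x + 1) : ℝ) = rn p ((x + 1) % M) + ((x + 1) / M : ℕ) * rn p M := by
      exact_mod_cast h4
    have h8 : (((x + 1) % M : ℕ) : ℝ) ≤ M := by exact_mod_cast (Nat.mod_lt (x + 1) hM).le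
    have h9 : (rn p ((x + 1) % M) : ℝ) ≤ M := by exact_mod_cast h5
    have h10 : (cn p x : ℝ) ≤ rn p (x + 1) := by exact_mod_cast h1
    have h11 : (rn p (x + 1) : ℝ) ≤ cn p x + 1 := by exact_mod_cast h2
    have h12 : (rn p M : ℝ) / M ≤ 1 := by
      rw [div_le_one hMr]
      exact_mod_cast rn_le p M
    have h13 : (0:ℝ) ≤ (rn p M : ℝ) / M := by positivity
    have h14 : (x:ℝ) * ((rn p M : ℝ) / M) = ((x + 1) % M : ℕ) * ((rn p M : ℝ) / M) +
        ((x + 1) / M : ℕ) * rn p M - (rn p M : ℝ) / M := by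
      have h15 : (x:ℝ) = ((x + 1) % M : ℕ) + ((x + 1) / M : ℕ) * M - 1 := by linarith
      rw [h15]
      field_simp
    have h16 : (0:ℝ) ≤ ((x + 1) % M : ℕ) * ((rn p M : ℝ) / M) := by positivity
    have h17 : (((x + 1) % M : ℕ) : ℝ) * ((rn p M : ℝ) / M) ≤ M := by
      calc (((x + 1) % M : ℕ) : ℝ) * ((rn p M : ℝ) / M) ≤ M * 1 :=
            mul_le_mul h8 h12 h13 hMr.le
        _ = M := mul_one _
    have h18 : (0:ℝ) ≤ rn p ((x + 1) % M) := by positivity
    rw [h14, abs_le]
    constructor <;> linarith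
  rw [tendsto_iff_norm_sub_tendsto_zero]
  have h2 : Tendsto (fun x : ℕ => (2 * (M:ℝ) + 2) / x) atTop (𝓝 0) :=
    tendsto_const_div_atTop_nhds_zero_nat _
  refine squeeze_zero' (Eventually.of_forall fun x => norm_nonneg _) ?_ h2
  filter_upwards [eventually_gt_atTop 0] with x hx
  have hx' : (0:ℝ) < x := by exact_mod_cast hx
  have h3 : (cn p x : ℝ) / x - (rn p M : ℝ) / M = ((cn p x : ℝ) - x * ((rn p M : ℝ) / M)) / x := by
    field_simp
  rw [h3, norm_div, Real.norm_eq_abs, Real.norm_eq_abs, abs_of_pos hx']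
  exact div_le_div_of_nonneg_right (key x) hx'.le

theorem hasDiv_periodic (N n : ℕ) : HasDiv N (n + N.factorial) ↔ HasDiv N n := by
  have h : ∀ d, N < 2 * d → d ≤ N → d ∣ N.factorial := fun d h1 h2 =>
    Nat.dvd_factorial (by omega) h2
  constructor
  · rintro ⟨d, h1, h2, h3⟩
    exact ⟨d, (Nat.dvd_add_left (h d h2 h3)).1 h1, h2, h3⟩
  · rintro ⟨d, h1, h2, h3⟩
    exact ⟨d, (Nat.dvd_add_left (h d h2 h3)).2 h1, h2, h3⟩

/-- multiplying by `k` coprime to `N!` does not change the divisors up to `N` -/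
theorem hasDiv_mul {N m k : ℕ} (hk : k.Coprime N.factorial) : HasDiv N (m * k) ↔ HasDiv N m := by
  constructor
  · rintro ⟨d, h1, h2, h3⟩
    have h4 : d ∣ N.factorial := Nat.dvd_factorial (by omega) h3
    have h5 : d.Coprime k := (hk.symm).coprime_dvd_left h4
    exact ⟨d, h5.dvd_of_dvd_mul_right h1, h2, h3⟩
  · rintro ⟨d, h1, h2, h3⟩
    exact ⟨d, h1.mul_right k, h2, h3⟩

/-- the integers whose smooth part is `m` -/
def Am (N m n : ℕ) : Prop := m ∣ n ∧ (n / m).Coprime N.factorial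

theorem Am_periodic {N m : ℕ} (hm : 0 < m) (n : ℕ) :
    Am N m (n + m * N.factorial) ↔ Am N m n := by
  unfold Am
  rw [Nat.dvd_add_left (dvd_mul_right m _), Nat.add_mul_div_left _ _ hm, Nat.coprime_add_self_left]

theorem Am_card {N m : ℕ} (hm : 0 < m) : rn (Am N m) (m * N.factorial) = N.factorial.totient := by
  classical
  unfold rn
  rw [Nat.totient_eq_card_coprime]
  symm
  apply card_bij (fun k _ => m * k)
  · intro k hk
    rw [mem_filter, mem_range] at hk
    rw [mem_filter, mem_range]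
    refine ⟨(Nat.mul_lt_mul_left hm).2 hk.1, dvd_mul_right m k, ?_⟩
    rw [Nat.mul_div_cancel_left _ hm]
    exact hk.2.symm
  · intro a _ b _ hab
    exact Nat.eq_of_mul_eq_mul_left hm hab
  · intro n hn
    rw [mem_filter, mem_range] at hn
    obtain ⟨h1, ⟨k, rfl⟩, h3⟩ := hn
    rw [Nat.mul_div_cancel_left _ hm] at h3
    refine ⟨k, ?_, rfl⟩
    rw [mem_filter, mem_range]
    exact ⟨(Nat.mul_lt_mul_left hm).1 h1, h3.symm⟩

/-- the product of `1 - 1 / p` over the primes `p ≤ N` -/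
def ph (N : ℕ) : ℝ := ∏ p ∈ Nat.primesLE N, (1 - 1 / (p : ℝ))

theorem totient_eq (N : ℕ) : (N.factorial.totient : ℝ) = N.factorial * ph N := by
  have h1 := Nat.totient_eq_mul_prod_factors N.factorial
  have h2 : N.factorial.primeFactors = Nat.primesLE N := by
    ext p
    rw [Nat.mem_primeFactors, Nat.mem_primesLE]
    constructor
    · rintro ⟨h3, h4, _⟩
      exact ⟨(Nat.Prime.dvd_factorial h3).1 h4, h3⟩
    · rintro ⟨h3, h4⟩
      exact ⟨h4, (Nat.Prime.dvd_factorial h4).2 h3, Nat.factorial_ne_zero N⟩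
  rw [h2] at h1
  have h3 : ((N.factorial.totient : ℚ) : ℝ) =
      ((N.factorial * ∏ p ∈ Nat.primesLE N, (1 - (p : ℚ)⁻¹) : ℚ) : ℝ) := by rw [h1]
  push_cast at h3
  rw [h3]
  unfold ph
  simp only [one_div]

theorem ph_pos (N : ℕ) : 0 < ph N := by
  apply prod_pos
  intro p hp
  have h1 : 1 < p := Nat.one_lt_of_mem_primesLE hp
  have h2 : (1:ℝ) < p := by exact_mod_cast h1
  have h3 : 1 / (p:ℝ) < 1 := by rw [div_lt_one (by linarith)]; exact h2
  linarith

theorem Am_dens {N m : ℕ} (hm : 0 < m) :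
    Tendsto (fun x : ℕ => (cn (Am N m) x : ℝ) / x) atTop (𝓝 (ph N / m)) := by
  have hf : 0 < N.factorial := Nat.factorial_pos N
  have h1 := dens_periodic (Am N m) (M := m * N.factorial) (Nat.mul_pos hm hf) (Am_periodic hm)
  rw [Am_card hm, totient_eq] at h1
  have h2 : (N.factorial : ℝ) * ph N / ((m * N.factorial : ℕ) : ℝ) = ph N / m := by
    have h3 : (N.factorial : ℝ) ≠ 0 := by exact_mod_cast hf.ne'
    have h4 : (m:ℝ) ≠ 0 := by exact_mod_cast hm.ne'
    push_cast
    field_simp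
  rwa [h2] at h1

theorem Sm_coprime {N m k : ℕ} (hm : Sm N m) (hk : k.Coprime N.factorial) : m.Coprime k := by
  apply Nat.coprime_of_dvd
  intro p hp h1 h2
  have h3 : p ∣ N.factorial := (Nat.Prime.dvd_factorial hp).2 (hm.2 p hp h1)
  have h4 := Nat.dvd_gcd h2 h3
  rw [hk] at h4
  exact hp.one_lt.ne' (Nat.dvd_one.1 h4)

theorem Am_unique {N m m' n : ℕ} (hm : Sm N m) (hm' : Sm N m') (h : Am N m n) (h' : Am N m' n) :
    m = m' := by
  obtain ⟨⟨k, rfl⟩, h2⟩ := h
  obtain ⟨⟨k', h3⟩, h4⟩ := h'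
  have hm0 : 0 < m := Nat.pos_of_ne_zero hm.1
  have hm0' : 0 < m' := Nat.pos_of_ne_zero hm'.1
  rw [Nat.mul_div_cancel_left _ hm0] at h2
  rw [h3, Nat.mul_div_cancel_left _ hm0'] at h4
  apply Nat.dvd_antisymm
  · exact (Sm_coprime hm h4).dvd_of_dvd_mul_right (h3 ▸ dvd_mul_right m k)
  · exact (Sm_coprime hm' h2).dvd_of_dvd_mul_right (h3.symm ▸ dvd_mul_right m' k')

/-- lower bound for the density of `R` by the smooth integers with the property `R` -/
theorem lower {N : ℕ} {R : ℕ → Prop} {e : ℝ}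
    (hR : Tendsto (fun x : ℕ => (cn R x : ℝ) / x) atTop (𝓝 e)) (T : Finset ℕ)
    (hT : ∀ m ∈ T, Sm N m ∧ ∀ n, Am N m n → R n) : ∑ m ∈ T, ph N / m ≤ e := by
  classical
  have h1 : Tendsto (fun x : ℕ => ∑ m ∈ T, (cn (Am N m) x : ℝ) / x) atTop
      (𝓝 (∑ m ∈ T, ph N / m)) :=
    tendsto_finsetSum _ fun m hm => Am_dens (Nat.pos_of_ne_zero (hT m hm).1.1)
  refine le_of_tendsto_of_tendsto' h1 hR fun x => ?_
  rw [← sum_div]
  apply div_le_div_of_nonneg_right _ (Nat.cast_nonneg x)
  have h2 : ∑ m ∈ T, cn (Am N m) x ≤ cn R x := by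
    have h3 : ∑ m ∈ T, cn (Am N m) x =
        (T.biUnion fun m => (Icc 1 x).filter fun n => Am N m n).card := by
      rw [card_biUnion]
      · rfl
      · intro a ha b hb hab
        rw [Function.onFun, Finset.disjoint_left]
        intro n h4 h5
        rw [mem_filter] at h4 h5
        exact hab (Am_unique (hT a ha).1 (hT b hb).1 h4.2 h5.2)
    rw [h3]
    unfold cn
    apply card_le_card
    intro n hn
    rw [mem_biUnion] at hn
    obtain ⟨m, hm, hn⟩ := hn
    rw [mem_filter] at hn ⊢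
    exact ⟨hn.1, (hT m hm).2 n hn.2⟩
  exact_mod_cast h2

/-- the function `1 / n` as a homomorphism -/
def iv : ℕ →* ℝ where
  toFun n := 1 / (n : ℝ)
  map_one' := by simp
  map_mul' a b := by
    push_cast
    rw [one_div, one_div, one_div, mul_inv]

theorem iv_apply (n : ℕ) : iv n = 1 / (n : ℝ) := rfl

theorem iv_lt {p : ℕ} (hp : p.Prime) : ‖iv p‖ < 1 := by
  have h1 : (1:ℝ) < p := by exact_mod_cast hp.one_lt
  rw [iv_apply, Real.norm_eq_abs, abs_of_pos (by positivity), div_lt_one (by linarith)]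
  exact h1

theorem Sm_iff {N n : ℕ} : Sm N n ↔ n ∈ Nat.smoothNumbers (N + 1) := by
  rw [Nat.mem_smoothNumbers']
  constructor
  · intro h p hp hd
    exact Nat.lt_succ_of_le (h.2 p hp hd)
  · intro h
    refine ⟨?_, fun p hp hd => Nat.le_of_lt_succ (h p hp hd)⟩
    rintro rfl
    obtain ⟨p, hp1, hp2⟩ := Nat.exists_infinite_primes (N + 1)
    exact absurd (h p hp2 (dvd_zero p)) (by omega)

theorem hasSum_sm (N : ℕ) : HasSum (fun n : ℕ => ind (Sm N n) / (n : ℝ)) (ph N)⁻¹ := by
  have h0 := (EulerProduct.summable_and_hasSum_smoothNumbers_prod_primesBelow_geometric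
    (f := iv) (fun hp => iv_lt hp) (N + 1)).2
  have h1 := (hasSum_subtype_iff_indicator (f := fun n : ℕ => iv n)
    (s := Nat.smoothNumbers (N + 1))).1 h0
  have h2 : (∏ p ∈ (N + 1).primesBelow, (1 - iv p)⁻¹) = (ph N)⁻¹ := by
    unfold ph
    rw [← Finset.prod_inv_distrib]
    rfl
  rw [h2] at h1
  convert h1 using 1
  funext n
  by_cases h : Sm N n
  · rw [ind_of h, Set.indicator_of_mem (Sm_iff.1 h)]
    rfl
  · rw [ind_not_of h, Set.indicator_of_notMem (fun h' => h (Sm_iff.2 h')), zero_div]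

end EpsA

open EpsA

theorem eps_isDens (N : ℕ) : IsDens N (eps N) := by
  have h1 := dens_periodic (HasDiv N) (Nat.factorial_pos N) (hasDiv_periodic N)
  exact h1

theorem isDens_unique {N : ℕ} {e e' : ℝ} (h : IsDens N e) (h' : IsDens N e') : e = e' :=
  tendsto_nhds_unique h h'

theorem summable_sm (N : ℕ) : Summable (fun n : ℕ => ind (Sm N n) / (n : ℝ)) :=
  (hasSum_sm N).summable

theorem eps_formula (N : ℕ) : eps N = (∏ p ∈ Nat.primesLE N, (1 - 1 / (p : ℝ))) *
    ∑' n : ℕ, ind (Sm N n) * ind (HasDiv N n) / n := by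
  classical
  change eps N = ph N * ∑' n : ℕ, ind (Sm N n) * ind (HasDiv N n) / n
  have hph := ph_pos N
  -- the two densities
  have hd1 : Tendsto (fun x : ℕ => (cn (HasDiv N) x : ℝ) / x) atTop (𝓝 (eps N)) := eps_isDens N
  have hd2 : Tendsto (fun x : ℕ => (cn (fun n => ¬ HasDiv N n) x : ℝ) / x) atTop
      (𝓝 (1 - eps N)) := by
    have h1 : Tendsto (fun x : ℕ => 1 - (cn (HasDiv N) x : ℝ) / x) atTop (𝓝 (1 - eps N)) :=
      hd1.const_sub 1
    refine h1.congr' ?_
    filter_upwards [eventually_gt_atTop 0] with x hx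
    have hx' : (x:ℝ) ≠ 0 := by exact_mod_cast hx.ne'
    have h2 : cn (HasDiv N) x + cn (fun n => ¬ HasDiv N n) x = x := by
      unfold cn
      have h3 := card_filter_add_card_filter_not (s := Icc 1 x) (fun n => HasDiv N n)
      rw [Nat.card_Icc] at h3
      simpa using h3
    have h4 : (cn (HasDiv N) x : ℝ) + cn (fun n => ¬ HasDiv N n) x = x := by exact_mod_cast h2
    have h5 : (cn (fun n => ¬ HasDiv N n) x : ℝ) = x - cn (HasDiv N) x := by linarith
    rw [h5, sub_div, div_self hx']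
  have hAm : ∀ m n, Am N m n → (HasDiv N n ↔ HasDiv N m) := by
    intro m n h
    obtain ⟨⟨k, rfl⟩, h2⟩ := h
    rcases Nat.eq_zero_or_pos m with h0 | h0
    · rw [h0, zero_mul]
    · rw [Nat.mul_div_cancel_left _ h0] at h2
      exact hasDiv_mul h2
  -- summability
  have hs := summable_sm N
  have hs1 : Summable (fun n : ℕ => ind (Sm N n) * ind (HasDiv N n) / (n : ℝ)) := by
    refine Summable.of_nonneg_of_le (fun n => ?_) (fun n => ?_) hs
    · exact div_nonneg (mul_nonneg (ind_nonneg _) (ind_nonneg _)) (Nat.cast_nonneg n)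
    · exact div_le_div_of_nonneg_right (mul_le_of_le_one_right (ind_nonneg _) (ind_le_one _))
        (Nat.cast_nonneg n)
  have hs2 : Summable (fun n : ℕ => ind (Sm N n) * ind (¬ HasDiv N n) / (n : ℝ)) := by
    refine Summable.of_nonneg_of_le (fun n => ?_) (fun n => ?_) hs
    · exact div_nonneg (mul_nonneg (ind_nonneg _) (ind_nonneg _)) (Nat.cast_nonneg n)
    · exact div_le_div_of_nonneg_right (mul_le_of_le_one_right (ind_nonneg _) (ind_le_one _))
        (Nat.cast_nonneg n)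
  -- the general lower bound
  have hlow : ∀ (R : ℕ → Prop) (e : ℝ),
      Tendsto (fun x : ℕ => (cn R x : ℝ) / x) atTop (𝓝 e) →
      (∀ m n, Am N m n → R m → R n) →
      ph N * ∑' n : ℕ, ind (Sm N n) * ind (R n) / (n : ℝ) ≤ e := by
    intro R e hR hRm
    rw [← tsum_mul_left]
    have hnn : ∀ n : ℕ, 0 ≤ ph N * (ind (Sm N n) * ind (R n) / (n : ℝ)) := fun n =>
      mul_nonneg hph.le (div_nonneg (mul_nonneg (ind_nonneg _) (ind_nonneg _)) (Nat.cast_nonneg n))
    refine Real.tsum_le_of_sum_le hnn ?_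
    intro s
    have h1 : ∑ n ∈ s, ph N * (ind (Sm N n) * ind (R n) / (n : ℝ)) =
        ∑ n ∈ s.filter (fun n => Sm N n ∧ R n), ph N / (n : ℝ) := by
      rw [sum_filter]
      apply sum_congr rfl
      intro n _
      by_cases h2 : Sm N n
      · by_cases h3 : R n
        · rw [ind_of h2, ind_of h3, if_pos ⟨h2, h3⟩]
          ring
        · rw [ind_not_of h3, if_neg (fun h => h3 h.2)]
          simp
      · rw [ind_not_of h2, if_neg (fun h => h2 h.1)]
        simp
    rw [h1]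
    apply lower hR
    intro m hm
    rw [mem_filter] at hm
    exact ⟨hm.2.1, fun n hn => hRm m n hn hm.2.2⟩
  have hA := hlow (HasDiv N) (eps N) hd1 (fun m n h h' => (hAm m n h).2 h')
  have hB := hlow (fun n => ¬ HasDiv N n) (1 - eps N) hd2
    (fun m n h h' h'' => h' ((hAm m n h).1 h''))
  have hsum : (∑' n : ℕ, ind (Sm N n) * ind (HasDiv N n) / (n : ℝ)) +
      (∑' n : ℕ, ind (Sm N n) * ind (¬ HasDiv N n) / (n : ℝ)) = (ph N)⁻¹ := by
    rw [← hs1.tsum_add hs2, ← (hasSum_sm N).tsum_eq]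
    congr 1
    funext n
    rw [ind_not]
    ring
  have h1 : ph N * (∑' n : ℕ, ind (Sm N n) * ind (HasDiv N n) / (n : ℝ)) +
      ph N * (∑' n : ℕ, ind (Sm N n) * ind (¬ HasDiv N n) / (n : ℝ)) = 1 := by
    rw [← mul_add, hsum, mul_inv_cancel₀ hph.ne']
  linarith

end Pool.Agent.EN
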