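import Mathlib
import Pool.Agent.Lib.MP_ec0ede_nt_EN.Defs4
import Pool.Agent.Lib.MP_ec0ede_nt_EN.LawA

set_option autoImplicit false

/-!
# MP_ec0ede_nt, project EN, module EpsB: splitting smooth integers
-/

noncomputable section

namespace Pool.Agent.EN

open Real Filter Topology Finset

namespace EpsB

/-- the factor of `p` in the weight -/
def g (n p : ℕ) : ℝ :=
  if n.factorization p = 1 then Real.log 2 * mu 0 p else (1 / (p : ℝ)) ^ (n.factorization p)

theorem g_nonneg (n p : ℕ) : 0 ≤ g n p := by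
  unfold g
  split
  · exact mul_nonneg (Real.log_nonneg (by norm_num)) (mu_nonneg 0 p)
  · positivity

theorem m0_le (p : ℕ) : Real.log 2 * mu 0 p ≤ 1 / p := by
  have h1 := mu_le 0 p
  have h2 : 0 < Real.log 2 := Real.log_pos (by norm_num)
  calc Real.log 2 * mu 0 p ≤ Real.log 2 * (1 / (Real.log 2 * p)) :=
        mul_le_mul_of_nonneg_left h1 h2.le
    _ = 1 / p := by
        rw [mul_one_div, div_mul_eq_div_div, div_self h2.ne']

theorem g_le (n p : ℕ) : g n p ≤ (1 / (p : ℝ)) ^ (n.factorization p) := by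
  unfold g
  split
  · rename_i h
    rw [h, pow_one]
    exact m0_le p
  · exact le_rfl

theorem prod_inv (n : ℕ) (hn : n ≠ 0) :
    ∏ p ∈ n.primeFactors, (1 / (p : ℝ)) ^ (n.factorization p) = 1 / n := by
  have h1 : n = ∏ p ∈ n.primeFactors, p ^ (n.factorization p) := by
    conv_lhs => rw [← Nat.prod_factorization_pow_eq_self hn]
    rfl
  have h2 : (n : ℝ) = ∏ p ∈ n.primeFactors, (p : ℝ) ^ (n.factorization p) := by
    exact_mod_cast h1
  conv_rhs => rw [h2]
  simp only [one_div, inv_pow, Finset.prod_inv_distrib]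

theorem wf_nonneg (f : ℕ) : 0 ≤ wf f := Finset.prod_nonneg fun p _ => g_nonneg f p

theorem wf_le (f : ℕ) (hf : f ≠ 0) : wf f ≤ 1 / f := by
  rw [← prod_inv f hf]
  exact Finset.prod_le_prod (fun p _ => g_nonneg f p) fun p _ => g_le f p

theorem summable_sm (N : ℕ) : Summable (fun n : ℕ => ind (Sm N n) * (1 / (n : ℝ))) := by
  let φ : ℕ →* ℝ := 
    { toFun := fun n => (n : ℝ)⁻¹
      map_one' := by simp
      map_mul' := fun a b => by push_cast; rw [mul_inv] }
  have h1 := (EulerProduct.summable_and_hasSum_factoredNumbers_prod_filter_prime_geometric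
    (f := φ) (fun {p} hp => by
      change ‖((p : ℝ))⁻¹‖ < 1
      rw [norm_inv, Real.norm_natCast]
      exact inv_lt_one_of_one_lt₀ (by exact_mod_cast hp.one_lt)) (Nat.primesLE N)).1
  have h2 : Summable (Set.indicator (Nat.factoredNumbers (Nat.primesLE N)) fun m => ‖φ m‖) :=
    summable_subtype_iff_indicator.1 h1
  refine h2.congr fun n => ?_
  by_cases hn : Sm N n
  · rw [ind_of hn, one_mul, Set.indicator_of_mem]
    · change ‖((n : ℝ))⁻¹‖ = 1 / (n : ℝ)
      rw [norm_inv, Real.norm_natCast, one_div]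
    · rw [Nat.mem_factoredNumbers]
      refine ⟨hn.1, fun p hp => ?_⟩
      rw [Nat.mem_primesLE]
      have hp1 := Nat.prime_of_mem_primeFactorsList hp
      exact ⟨hn.2 p hp1 (Nat.dvd_of_mem_primeFactorsList hp), hp1⟩
  · rw [ind_not_of hn, zero_mul, Set.indicator_of_notMem]
    intro h3
    rw [Nat.mem_factoredNumbers] at h3
    apply hn
    refine ⟨h3.1, fun p hp hpn => ?_⟩
    have h4 := h3.2 p ((Nat.mem_primeFactorsList h3.1).2 ⟨hp, hpn⟩)
    exact (Nat.mem_primesLE.1 h4).1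

end EpsB

theorem summable_wf_sm (N : ℕ) : Summable (fun f : ℕ => ind (Sm N f) * wf f) := by
  refine Summable.of_nonneg_of_le (fun f => mul_nonneg (ind_nonneg _) (EpsB.wf_nonneg f))
    (fun f => ?_) (EpsB.summable_sm N)
  by_cases hf : Sm N f
  · exact mul_le_mul_of_nonneg_left (EpsB.wf_le f hf.1) (ind_nonneg _)
  · rw [ind_not_of hf]
    simp

namespace EpsB

/-- the terms -/
def term (N : ℕ) (w1 F : ℕ → ℝ) (B : Finset ℕ) (n : ℕ) : ℝ :=
  ind (Sm N n) * ind (∀ p ∈ B, n.factorization p = 1) * (∏ p ∈ B, w1 p) *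
    (∏ p ∈ n.primeFactors \ B, g n p) * F n

theorem term_nonneg (N : ℕ) (w1 F : ℕ → ℝ) (h0 : ∀ p, 0 ≤ w1 p) (hF : ∀ n, 0 ≤ F n)
    (B : Finset ℕ) (n : ℕ) : 0 ≤ term N w1 F B n := by
  unfold term
  refine mul_nonneg (mul_nonneg (mul_nonneg (mul_nonneg (ind_nonneg _) (ind_nonneg _)) ?_) ?_)
    (hF n)
  · exact Finset.prod_nonneg fun p _ => h0 p
  · exact Finset.prod_nonneg fun p _ => g_nonneg n p

theorem sum_term (N : ℕ) (w1 F : ℕ → ℝ)
    (h : ∀ p, p.Prime → p ≤ N → w1 p + Real.log 2 * mu 0 p = 1 / p) (n : ℕ) :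
    ∑ B ∈ (Nat.primesLE N).powerset, term N w1 F B n = ind (Sm N n) * F n / n := by
  by_cases hn : Sm N n
  swap
  · rw [ind_not_of hn, zero_mul, zero_div]
    refine Finset.sum_eq_zero fun B _ => ?_
    unfold term
    rw [ind_not_of hn]
    simp
  set E := n.primeFactors.filter fun p => n.factorization p = 1 with hE
  have hEP : E ⊆ Nat.primesLE N := by
    intro p hp
    rw [hE, Finset.mem_filter, Nat.mem_primeFactors] at hp
    rw [Nat.mem_primesLE]
    exact ⟨hn.2 p hp.1.1 hp.1.2.1, hp.1.1⟩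
  have h1 : ∑ B ∈ (Nat.primesLE N).powerset, term N w1 F B n =
      ∑ B ∈ E.powerset, term N w1 F B n := by
    symm
    apply Finset.sum_subset (Finset.powerset_mono.2 hEP)
    intro B hB hBE
    rw [Finset.mem_powerset] at hB hBE
    unfold term
    rw [ind_not_of (p := ∀ p ∈ B, n.factorization p = 1)]
    · simp
    · intro hcon
      apply hBE
      intro p hp
      rw [hE, Finset.mem_filter, ← Nat.support_factorization, Finsupp.mem_support_iff, hcon p hp]
      exact ⟨one_ne_zero, rfl⟩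
  rw [h1]
  have h2 : ∀ B ∈ E.powerset, term N w1 F B n =
      ((∏ p ∈ B, w1 p) * ∏ p ∈ E \ B, (Real.log 2 * mu 0 p)) *
        ((∏ p ∈ n.primeFactors.filter (fun p => ¬ n.factorization p = 1),
          (1 / (p : ℝ)) ^ (n.factorization p)) * F n) := by
    intro B hB
    rw [Finset.mem_powerset] at hB
    have h3 : ∀ p ∈ B, n.factorization p = 1 := fun p hp => (Finset.mem_filter.1 (hB hp)).2
    unfold term
    rw [ind_of hn, ind_of h3]
    have h4 : ∏ p ∈ n.primeFactors \ B, g n p = (∏ p ∈ E \ B, (Real.log 2 * mu 0 p)) *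
        ∏ p ∈ n.primeFactors.filter (fun p => ¬ n.factorization p = 1),
          (1 / (p : ℝ)) ^ (n.factorization p) := by
      rw [← Finset.prod_filter_mul_prod_filter_not (n.primeFactors \ B)
        (fun p => n.factorization p = 1)]
      congr 1
      · have h5 : (n.primeFactors \ B).filter (fun p => n.factorization p = 1) = E \ B := by
          ext p
          simp only [hE, Finset.mem_filter, Finset.mem_sdiff]
          tauto
        rw [h5]
        refine Finset.prod_congr rfl fun p hp => ?_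
        unfold g
        rw [if_pos]
        rw [Finset.mem_sdiff, hE, Finset.mem_filter] at hp
        exact hp.1.2
      · have h5 : (n.primeFactors \ B).filter (fun p => ¬ n.factorization p = 1) =
            n.primeFactors.filter (fun p => ¬ n.factorization p = 1) := by
          ext p
          simp only [Finset.mem_filter, Finset.mem_sdiff]
          constructor
          · rintro ⟨⟨h6, h7⟩, h8⟩
            exact ⟨h6, h8⟩
          · rintro ⟨h6, h8⟩
            exact ⟨⟨h6, fun h7 => h8 (h3 p h7)⟩, h8⟩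
        rw [h5]
        refine Finset.prod_congr rfl fun p hp => ?_
        unfold g
        rw [if_neg (Finset.mem_filter.1 hp).2]
    rw [h4]
    ring
  rw [Finset.sum_congr rfl h2, ← Finset.sum_mul, ← Finset.prod_add]
  have h3 : ∏ p ∈ E, (w1 p + Real.log 2 * mu 0 p) =
      ∏ p ∈ E, (1 / (p : ℝ)) ^ (n.factorization p) := by
    refine Finset.prod_congr rfl fun p hp => ?_
    rw [hE, Finset.mem_filter, Nat.mem_primeFactors] at hp
    rw [hp.2, pow_one, h p hp.1.1 (hn.2 p hp.1.1 hp.1.2.1)]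
  rw [h3, ← mul_assoc, hE, Finset.prod_filter_mul_prod_filter_not, prod_inv n hn.1, ind_of hn]
  ring

theorem fact_prod (B : Finset ℕ) (hB : ∀ p ∈ B, p.Prime) (p : ℕ) :
    (∏ q ∈ B, q).factorization p = if p ∈ B then 1 else 0 := by
  rw [Nat.factorization_prod fun q hq => (hB q hq).ne_zero, Finsupp.finsetSum_apply]
  have h1 : ∀ q ∈ B, q.factorization p = if p = q then 1 else 0 := by
    intro q hq
    rw [(hB q hq).factorization, Finsupp.single_apply]
    by_cases h : q = p
    · rw [if_pos h, if_pos h.symm]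
    · rw [if_neg h, if_neg (Ne.symm h)]
  rw [Finset.sum_congr rfl h1, Finset.sum_ite_eq]

theorem prod_pos' (B : Finset ℕ) (hB : ∀ p ∈ B, p.Prime) : (∏ q ∈ B, q) ≠ 0 :=
  Finset.prod_ne_zero_iff.2 fun q hq => (hB q hq).ne_zero

theorem sm_mul (N : ℕ) (B : Finset ℕ) (hB : B ⊆ Nat.primesLE N) (f : ℕ) :
    Sm N (f * ∏ q ∈ B, q) ↔ Sm N f := by
  have hBp : ∀ p ∈ B, p.Prime := fun p hp => (Nat.mem_primesLE.1 (hB hp)).2
  constructor
  · rintro ⟨h1, h2⟩
    exact ⟨left_ne_zero_of_mul h1, fun p hp hpf => h2 p hp (hpf.mul_right _)⟩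
  · rintro ⟨h1, h2⟩
    refine ⟨mul_ne_zero h1 (prod_pos' B hBp), fun p hp hpf => ?_⟩
    rcases (Nat.Prime.dvd_mul hp).1 hpf with h3 | h3
    · exact h2 p hp h3
    · rw [Prime.dvd_finsetProd_iff hp.prime] at h3
      obtain ⟨q, hq, hpq⟩ := h3
      have h4 := (Nat.prime_dvd_prime_iff_eq hp (hBp q hq)).1 hpq
      rw [h4]
      exact (Nat.mem_primesLE.1 (hB hq)).1

theorem term_mul (N : ℕ) (w1 F : ℕ → ℝ) (B : Finset ℕ) (hB : B ⊆ Nat.primesLE N) (f : ℕ) :
    term N w1 F B (f * ∏ q ∈ B, q) = ind (Sm N f) * wf f *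
      ((∏ p ∈ B, w1 p) * ind (∀ p ∈ B, ¬ p ∣ f) * F (f * ∏ p ∈ B, p)) := by
  have hBp : ∀ p ∈ B, p.Prime := fun p hp => (Nat.mem_primesLE.1 (hB hp)).2
  unfold term
  rw [ind_congr (sm_mul N B hB f)]
  by_cases hf : Sm N f
  swap
  · rw [ind_not_of hf]
    simp
  have hfac : ∀ p, (f * ∏ q ∈ B, q).factorization p =
      f.factorization p + if p ∈ B then 1 else 0 := by
    intro p
    rw [Nat.factorization_mul hf.1 (prod_pos' B hBp), Finsupp.add_apply, fact_prod B hBp p]
  have hiff : (∀ p ∈ B, (f * ∏ q ∈ B, q).factorization p = 1) ↔ ∀ p ∈ B, ¬ p ∣ f := by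
    refine forall₂_congr fun p hp => ?_
    rw [hfac p, if_pos hp]
    constructor
    · intro h1 h2
      have h3 := (hBp p hp).factorization_pos_of_dvd hf.1 h2
      omega
    · intro h1
      rw [Nat.factorization_eq_zero_of_not_dvd h1]
  rw [ind_congr hiff]
  by_cases hd : ∀ p ∈ B, ¬ p ∣ f
  swap
  · rw [ind_not_of hd]
    simp
  have hpf : (f * ∏ q ∈ B, q).primeFactors \ B = f.primeFactors := by
    ext p
    rw [Finset.mem_sdiff, ← Nat.support_factorization, ← Nat.support_factorization,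
      Finsupp.mem_support_iff, Finsupp.mem_support_iff, hfac p]
    constructor
    · rintro ⟨h1, h2⟩
      rwa [if_neg h2, add_zero] at h1
    · intro h1
      refine ⟨by omega, fun h2 => ?_⟩
      exact h1 (Nat.factorization_eq_zero_of_not_dvd (hd p h2))
  have hw : ∏ p ∈ f.primeFactors, g (f * ∏ q ∈ B, q) p = wf f := by
    refine Finset.prod_congr rfl fun p hp => ?_
    have h1 : p ∉ B := fun h2 => hd p h2 (Nat.dvd_of_mem_primeFactors hp)
    unfold g
    rw [hfac p, if_neg h1, add_zero]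
  rw [hpf, hw]
  ring

theorem tsum_term (N : ℕ) (w1 F : ℕ → ℝ) (B : Finset ℕ) (hB : B ⊆ Nat.primesLE N) :
    ∑' n, term N w1 F B n = ∑' f, ind (Sm N f) * wf f *
      ((∏ p ∈ B, w1 p) * ind (∀ p ∈ B, ¬ p ∣ f) * F (f * ∏ p ∈ B, p)) := by
  have hBp : ∀ p ∈ B, p.Prime := fun p hp => (Nat.mem_primesLE.1 (hB hp)).2
  have hb := prod_pos' B hBp
  have hinj : Function.Injective fun f : ℕ => f * ∏ q ∈ B, q :=
    mul_left_injective₀ hb
  rw [← hinj.tsum_eq (f := term N w1 F B)]
  · exact tsum_congr fun f => term_mul N w1 F B hB f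
  · intro n hn
    rw [Function.mem_support] at hn
    have hn2 : ∀ p ∈ B, n.factorization p = 1 := by
      by_contra hcon
      apply hn
      unfold term
      rw [ind_not_of hcon]
      simp
    have hdvd : (∏ q ∈ B, q) ∣ n := by
      apply Finset.prod_primes_dvd
      · exact fun p hp => (hBp p hp).prime
      · intro p hp
        apply Nat.dvd_of_factorization_pos
        rw [hn2 p hp]
        exact one_ne_zero
    obtain ⟨f, rfl⟩ := hdvd
    exact ⟨f, mul_comm _ _⟩

end EpsB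

theorem smooth_split (N : ℕ) (w1 : ℕ → ℝ) (h0 : ∀ p, 0 ≤ w1 p)
    (h : ∀ p, p.Prime → p ≤ N → w1 p + Real.log 2 * mu 0 p = 1 / p)
    (F : ℕ → ℝ) (hF : ∀ n, 0 ≤ F n ∧ F n ≤ 1) :
    ∑' n : ℕ, ind (Sm N n) * F n / n =
      ∑' f : ℕ, ind (Sm N f) * wf f * ∑ B ∈ (Nat.primesLE N).powerset,
        (∏ p ∈ B, w1 p) * ind (∀ p ∈ B, ¬ p ∣ f) * F (f * ∏ p ∈ B, p) := by
  have hs1 : Summable fun n : ℕ => ind (Sm N n) * F n / n := by
    refine Summable.of_nonneg_of_le (fun n => ?_) (fun n => ?_) (EpsB.summable_sm N)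
    · exact div_nonneg (mul_nonneg (ind_nonneg _) (hF n).1) (Nat.cast_nonneg n)
    · rw [mul_div_assoc]
      apply mul_le_mul_of_nonneg_left _ (ind_nonneg _)
      exact div_le_div_of_nonneg_right (hF n).2 (Nat.cast_nonneg n)
  have hs2 : ∀ B ∈ (Nat.primesLE N).powerset, Summable (EpsB.term N w1 F B) := by
    intro B hB
    refine Summable.of_nonneg_of_le (EpsB.term_nonneg N w1 F h0 (fun n => (hF n).1) B)
      (fun n => ?_) hs1
    rw [← EpsB.sum_term N w1 F h n]
    exact Finset.single_le_sum (f := fun B => EpsB.term N w1 F B n)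
      (fun B _ => EpsB.term_nonneg N w1 F h0 (fun n => (hF n).1) B n) hB
  have hs3 : ∀ B ∈ (Nat.primesLE N).powerset, Summable fun f : ℕ => ind (Sm N f) * wf f *
      ((∏ p ∈ B, w1 p) * ind (∀ p ∈ B, ¬ p ∣ f) * F (f * ∏ p ∈ B, p)) := by
    intro B _
    refine Summable.of_nonneg_of_le (fun f => ?_) (fun f => ?_)
      ((summable_wf_sm N).mul_right (∏ p ∈ B, w1 p))
    · refine mul_nonneg (mul_nonneg (ind_nonneg _) (EpsB.wf_nonneg f)) (mul_nonneg
        (mul_nonneg (Finset.prod_nonneg fun p _ => h0 p) (ind_nonneg _)) (hF _).1)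
    · apply mul_le_mul_of_nonneg_left _ (mul_nonneg (ind_nonneg _) (EpsB.wf_nonneg f))
      rw [mul_assoc]
      apply mul_le_of_le_one_right (Finset.prod_nonneg fun p _ => h0 p)
      exact mul_le_one₀ (ind_le_one _) (hF _).1 (hF _).2
  calc ∑' n : ℕ, ind (Sm N n) * F n / n
      = ∑' n : ℕ, ∑ B ∈ (Nat.primesLE N).powerset, EpsB.term N w1 F B n :=
        tsum_congr fun n => (EpsB.sum_term N w1 F h n).symm
    _ = ∑ B ∈ (Nat.primesLE N).powerset, ∑' n : ℕ, EpsB.term N w1 F B n :=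
        Summable.tsum_finsetSum hs2
    _ = ∑ B ∈ (Nat.primesLE N).powerset, ∑' f, ind (Sm N f) * wf f *
          ((∏ p ∈ B, w1 p) * ind (∀ p ∈ B, ¬ p ∣ f) * F (f * ∏ p ∈ B, p)) :=
        Finset.sum_congr rfl fun B hB =>
          EpsB.tsum_term N w1 F B (Finset.mem_powerset.1 hB)
    _ = ∑' f, ∑ B ∈ (Nat.primesLE N).powerset, ind (Sm N f) * wf f *
          ((∏ p ∈ B, w1 p) * ind (∀ p ∈ B, ¬ p ∣ f) * F (f * ∏ p ∈ B, p)) :=
        (Summable.tsum_finsetSum hs3).symm
    _ = _ := tsum_congr fun f => by rw [Finset.mul_sum]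

end Pool.Agent.EN
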