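import Mathlib
import Pool.Agent.Lib.MP_ec0ede_nt_EN.Defs4

set_option autoImplicit false

/-!
# MP_ec0ede_nt, project EN, module LabT: labelled sets and tuples
-/

noncomputable section

namespace Pool.Agent.EN

open Real Filter Topology Finset

namespace LabT

variable {L : ℕ}

/-- the number of elements of each label -/
def cts {B : Finset ℕ} (g : B → Fin L) (l : Fin L) : ℕ := Fintype.card {p // g p = l}

/-- the number of ways to enumerate the labelled set `(B, g)` -/
theorem card_enum (ν : Fin L → ℕ) (B : Finset ℕ) (g : B → Fin L) :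
    Fintype.card {τ : Idx ν ≃ B // ∀ i, g (τ i) = i.1} =
      if cts g = ν then ∏ l, (ν l).factorial else 0 := by
  classical
  split_ifs with h
  · let e : ∀ l : Fin L, Fin (ν l) ≃ {p // g p = l} := fun l =>
      (Fintype.equivFinOfCardEq (congrFun h l)).symm
    let τ₀ : Idx ν ≃ B := (Equiv.sigmaCongrRight e).trans (Equiv.sigmaFiberEquiv g)
    have hτ₀ : ∀ i, g (τ₀ i) = i.1 := by
      rintro ⟨l, a⟩
      exact (e l a).2
    let E : {τ : Idx ν ≃ B // ∀ i, g (τ i) = i.1} ≃
        {σ : Equiv.Perm (Idx ν) // (Sigma.fst : Idx ν → Fin L) ∘ σ = Sigma.fst} :=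
      { toFun := fun τ => ⟨τ.1.trans τ₀.symm, by
          funext i
          have h1 := hτ₀ (τ₀.symm (τ.1 i))
          rw [Equiv.apply_symm_apply, τ.2 i] at h1
          exact h1.symm⟩
        invFun := fun σ => ⟨σ.1.trans τ₀, by
          intro i
          have h1 := hτ₀ (σ.1 i)
          have h2 : (σ.1 i).1 = i.1 := congrFun σ.2 i
          rw [h2] at h1
          exact h1⟩
        left_inv := fun τ => by
          apply Subtype.ext
          refine Equiv.ext fun i => ?_
          exact Equiv.apply_symm_apply τ₀ (τ.1 i)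
        right_inv := fun σ => by
          apply Subtype.ext
          refine Equiv.ext fun i => ?_
          exact Equiv.symm_apply_apply τ₀ (σ.1 i) }
    rw [Fintype.card_congr E, DomMulAct.stabilizer_card]
    refine Finset.prod_congr rfl fun l _ => ?_
    congr 1
    rw [Fintype.card_congr (Equiv.sigmaSubtype (β := fun l => Fin (ν l)) l), Fintype.card_fin]
  · rw [Fintype.card_eq_zero_iff]
    refine ⟨fun τ => h ?_⟩
    funext l
    have e : {i : Idx ν // i.1 = l} ≃ {p : B // g p = l} :=
      τ.1.subtypeEquiv fun i => by rw [τ.2 i]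
    unfold cts
    rw [← Fintype.card_congr e,
      Fintype.card_congr (Equiv.sigmaSubtype (β := fun l => Fin (ν l)) l), Fintype.card_fin]

/-- summing over the enumerations first -/
theorem sum_enum (w : Fin L → ℕ → ℝ) (ν : Fin L → ℕ) (B : Finset ℕ) :
    ∑ τ : Idx ν ≃ B, ∏ i, w i.1 (τ i) =
      ∑ g : B → Fin L, (if cts g = ν then ∏ l, ((ν l).factorial : ℝ) else 0) *
        ∏ p, w (g p) p := by
  classical
  have h1 : ∀ g : B → Fin L, (if cts g = ν then ∏ l, ((ν l).factorial : ℝ) else 0) *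
      ∏ p, w (g p) p = ∑ τ : Idx ν ≃ B, if (∀ i, g (τ i) = i.1) then ∏ p, w (g p) p else 0 := by
    intro g
    rw [← Finset.sum_filter, Finset.sum_const, nsmul_eq_mul]
    congr 1
    have h2 := card_enum ν B g
    rw [Fintype.card_subtype] at h2
    rw [h2]
    split_ifs
    · push_cast
      rfl
    · simp
  simp only [h1]
  rw [Finset.sum_comm]
  refine Finset.sum_congr rfl fun τ _ => ?_
  have h3 : ∀ g : B → Fin L, (∀ i, g (τ i) = i.1) ↔ g = fun p => (τ.symm p).1 := by
    intro g
    constructor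
    · intro h
      funext p
      have := h (τ.symm p)
      rwa [Equiv.apply_symm_apply] at this
    · rintro rfl i
      exact congrArg Sigma.fst (Equiv.symm_apply_apply τ i)
  simp only [h3]
  rw [Finset.sum_ite_eq' Finset.univ, if_pos (Finset.mem_univ _)]
  rw [← Equiv.prod_comp τ]
  refine Finset.prod_congr rfl fun i _ => ?_
  exact congrArg (fun l => w l (τ i)) (congrArg Sigma.fst (Equiv.symm_apply_apply τ i).symm)

/-- injective tuples with image `B` are the enumerations of `B` -/
theorem sum_tuples (w : Fin L → ℕ → ℝ) (ν : Fin L → ℕ) (P B : Finset ℕ) (hB : B ⊆ P) :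
    ∑ τ ∈ (Fintype.piFinset (fun _ : Idx ν => P)) with univ.image τ = B,
      (∏ i, w i.1 (τ i)) * ind (Function.Injective τ) =
      ∑ τ : Idx ν ≃ B, ∏ i, w i.1 (τ i) := by
  classical
  symm
  have h1 : ∑ τ ∈ (Fintype.piFinset (fun _ : Idx ν => P)) with univ.image τ = B,
      (∏ i, w i.1 (τ i)) * ind (Function.Injective τ) =
      ∑ τ ∈ ((Fintype.piFinset (fun _ : Idx ν => P)).filter (fun τ => univ.image τ = B)).filter
        (fun τ => Function.Injective τ), ∏ i, w i.1 (τ i) := by
    rw [Finset.sum_filter (p := fun τ : Idx ν → ℕ => Function.Injective τ)]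
    refine Finset.sum_congr rfl fun τ _ => ?_
    unfold ind
    split_ifs <;> simp
  rw [h1]
  refine Finset.sum_nbij (fun τ i => ((τ i : B) : ℕ)) ?_ ?_ ?_ ?_
  · intro τ _
    rw [Finset.mem_filter, Finset.mem_filter, Fintype.mem_piFinset]
    refine ⟨⟨fun i => hB (τ i).2, ?_⟩, fun i j hij => τ.injective (Subtype.ext hij)⟩
    ext p
    rw [Finset.mem_image]
    constructor
    · rintro ⟨i, _, rfl⟩
      exact (τ i).2
    · intro hp
      exact ⟨τ.symm ⟨p, hp⟩, Finset.mem_univ _, by rw [Equiv.apply_symm_apply]⟩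
  · intro τ _ τ' _ h
    ext i
    exact congrFun h i
  · intro τ hτ
    rw [Finset.mem_coe, Finset.mem_filter, Finset.mem_filter] at hτ
    obtain ⟨⟨-, h2⟩, h3⟩ := hτ
    have h4 : ∀ i, τ i ∈ B := fun i => by
      rw [← h2]
      exact Finset.mem_image_of_mem _ (Finset.mem_univ i)
    refine ⟨Equiv.ofBijective (fun i => (⟨τ i, h4 i⟩ : B)) ⟨fun i j hij => ?_, ?_⟩,
      Finset.mem_coe.2 (Finset.mem_univ _), ?_⟩
    · exact h3 (congrArg Subtype.val hij)
    · rintro ⟨p, hp⟩
      rw [← h2, Finset.mem_image] at hp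
      obtain ⟨i, _, hi⟩ := hp
      exact ⟨i, Subtype.ext hi⟩
    · rfl
  · intro τ _
    rfl

end LabT

open LabT in
theorem lab_tuples (L : ℕ) (P : Finset ℕ) (w : Fin L → ℕ → ℝ) (F : Finset ℕ → ℝ) :
    ∑ B ∈ P.powerset, (∏ p ∈ B, ∑ l, w l p) * F B =
    ∑' ν : Fin L → ℕ, (∏ l, 1 / ((ν l).factorial : ℝ)) *
      ∑ τ ∈ Fintype.piFinset (fun _ : Idx ν => P),
        (∏ i, w i.1 (τ i)) * (ind (Function.Injective τ) * F (univ.image τ)) := by
  classical
  have hR : ∀ ν : Fin L → ℕ, (∏ l, 1 / ((ν l).factorial : ℝ)) *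
      ∑ τ ∈ Fintype.piFinset (fun _ : Idx ν => P),
        (∏ i, w i.1 (τ i)) * (ind (Function.Injective τ) * F (univ.image τ)) =
      ∑ B ∈ P.powerset, ∑ g : B → Fin L, if cts g = ν then (∏ p, w (g p) p) * F B else 0 := by
    intro ν
    have h1 : ∑ τ ∈ Fintype.piFinset (fun _ : Idx ν => P),
        (∏ i, w i.1 (τ i)) * (ind (Function.Injective τ) * F (univ.image τ)) =
        ∑ B ∈ P.powerset, ∑ τ ∈ (Fintype.piFinset (fun _ : Idx ν => P)) with univ.image τ = B,
          (∏ i, w i.1 (τ i)) * (ind (Function.Injective τ) * F (univ.image τ)) := by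
      symm
      refine Finset.sum_fiberwise_of_maps_to (fun τ hτ => ?_) _
      rw [Finset.mem_powerset]
      intro p hp
      rw [Finset.mem_image] at hp
      obtain ⟨i, _, rfl⟩ := hp
      exact Fintype.mem_piFinset.1 hτ i
    rw [h1, Finset.mul_sum]
    refine Finset.sum_congr rfl fun B hB => ?_
    have h2 : ∑ τ ∈ (Fintype.piFinset (fun _ : Idx ν => P)) with univ.image τ = B,
          (∏ i, w i.1 (τ i)) * (ind (Function.Injective τ) * F (univ.image τ)) =
        (∑ g : B → Fin L, (if cts g = ν then ∏ l, ((ν l).factorial : ℝ) else 0) *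
          ∏ p, w (g p) p) * F B := by
      rw [← sum_enum, ← sum_tuples w ν P B (Finset.mem_powerset.1 hB), Finset.sum_mul]
      refine Finset.sum_congr rfl fun τ hτ => ?_
      rw [(Finset.mem_filter.1 hτ).2, mul_assoc]
    rw [h2, Finset.sum_mul, Finset.mul_sum]
    refine Finset.sum_congr rfl fun g _ => ?_
    split_ifs
    · have h3 : (∏ l, 1 / ((ν l).factorial : ℝ)) * ∏ l, ((ν l).factorial : ℝ) = 1 := by
        rw [← Finset.prod_mul_distrib]
        refine Finset.prod_eq_one fun l _ => ?_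
        exact one_div_mul_cancel (Nat.cast_ne_zero.2 (Nat.factorial_ne_zero _))
      rw [← mul_assoc, ← mul_assoc, h3, one_mul]
    · rw [zero_mul, zero_mul, mul_zero]
  have hL : ∀ B : Finset ℕ, (∏ p ∈ B, ∑ l, w l p) * F B =
      ∑ g : B → Fin L, (∏ p, w (g p) p) * F B := by
    intro B
    rw [← Finset.sum_mul, ← Finset.prod_coe_sort, Finset.prod_univ_sum, Fintype.piFinset_univ]
  simp only [hL, hR]
  refine (HasSum.tsum_eq ?_).symm
  refine hasSum_sum fun B _ => hasSum_sum fun g _ => ?_
  have h := hasSum_ite_eq (cts g) ((∏ p, w (g p) p) * F B)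
  refine h.congr_fun ?_
  intro ν
  by_cases h1 : cts g = ν
  · rw [if_pos h1, if_pos h1.symm]
  · rw [if_neg h1, if_neg (fun h2 => h1 h2.symm)]

end Pool.Agent.EN
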