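import Mathlib
import Pool.Agent.Lib.MP_ec0ede_nt_EN.Defs4
import Pool.Agent.Lib.MP_ec0ede_nt_EN.LawA
import Pool.Agent.Lib.MP_ec0ede_nt_EN.EpsA
import Pool.Agent.Lib.MP_ec0ede_nt_EN.EpsB
import Pool.Agent.Lib.MP_ec0ede_nt_EN.LabT

set_option autoImplicit false

/-!
# MP_ec0ede_nt, project EN: the identity for the density in terms of counts and tuples
-/

noncomputable section

namespace Pool.Agent.EN

open Real Filter Topology Finset

namespace EpsC

theorem log2_pos : 0 < Real.log 2 := Real.log_pos (by norm_num)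

/-- the weight of a prime with a label between `1` and `L` -/
def w1 (L p : ℕ) : ℝ := Real.log 2 * ∑ j ∈ Icc 1 L, mu j p

theorem w1_nonneg (L p : ℕ) : 0 ≤ w1 L p :=
  mul_nonneg log2_pos.le (Finset.sum_nonneg fun j _ => mu_nonneg j p)

theorem w1_not_prime (L : ℕ) {p : ℕ} (h : ¬ p.Prime) : w1 L p = 0 := by
  unfold w1
  rw [Finset.sum_eq_zero fun j _ => mu_not_prime j h, mul_zero]

theorem sum_Icc_eq (L p : ℕ) : ∑ j ∈ Icc 1 L, mu j p = ∑ l : Fin L, mu (l + 1) p := by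
  rw [Fin.sum_univ_eq_sum_range (fun l => mu (l + 1) p) L]
  rw [Finset.range_eq_Ico, Finset.sum_Ico_add' (fun j => mu j p) 0 L 1]
  rfl

theorem w1_eq_fin (L p : ℕ) : w1 L p = ∑ l : Fin L, Real.log 2 * mu (l + 1) p := by
  rw [w1, sum_Icc_eq, Finset.mul_sum]

theorem w1_part {N L p : ℕ} (hL : G N ≤ L * Real.log 2) (hp : p.Prime) (hpN : p ≤ N) :
    w1 L p + Real.log 2 * mu 0 p = 1 / p := by
  rw [← mu_part hp ((G_mono hpN).trans hL), Finset.sum_range_succ', w1, sum_Icc_eq,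
    Fin.sum_univ_eq_sum_range (fun l => mu (l + 1) p) L]
  ring

theorem lt_bd {N L : ℕ} (hL : G N ≤ L * Real.log 2) : N < bd L := by
  by_contra h
  have h1 : bd L - 1 ≤ N := by omega
  have h2 := G_mono h1
  have h3 := G_bd L
  have h4 := log2_pos
  nlinarith

/-! ### splitting sums over subsets -/

theorem sum_powerset_union {A C : Finset ℕ} (h : Disjoint A C) (g : Finset ℕ → ℝ) :
    ∑ B ∈ (A ∪ C).powerset, g B = ∑ B1 ∈ A.powerset, ∑ B2 ∈ C.powerset, g (B1 ∪ B2) := by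
  rw [← Finset.sum_product']
  symm
  refine Finset.sum_nbij' (fun x => x.1 ∪ x.2) (fun B => (B ∩ A, B ∩ C)) ?_ ?_ ?_ ?_ ?_
  · rintro ⟨B1, B2⟩ hx
    rw [mem_product, mem_powerset, mem_powerset] at hx
    rw [mem_powerset]
    exact union_subset_union hx.1 hx.2
  · intro B _
    rw [mem_product, mem_powerset, mem_powerset]
    exact ⟨inter_subset_right, inter_subset_right⟩
  · rintro ⟨B1, B2⟩ hx
    rw [mem_product, mem_powerset, mem_powerset] at hx
    obtain ⟨h1, h2⟩ := hx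
    simp only at h1 h2
    have e1 : (B1 ∪ B2) ∩ A = B1 := by
      rw [union_inter_distrib_right, inter_eq_left.2 h1]
      have : B2 ∩ A = ∅ := disjoint_iff_inter_eq_empty.1 (h.symm.mono_left h2)
      rw [this, union_empty]
    have e2 : (B1 ∪ B2) ∩ C = B2 := by
      rw [union_inter_distrib_right, inter_eq_left.2 h2]
      have : B1 ∩ C = ∅ := disjoint_iff_inter_eq_empty.1 (h.mono_left h1)
      rw [this, empty_union]
    simp only [e1, e2]
  · intro B hB
    rw [mem_powerset] at hB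
    simp only
    rw [← inter_union_distrib_left, inter_eq_left.2 hB]
  · intro x _
    rfl

/-- the function of the set of labelled primes -/
def FF (N f : ℕ) (B : Finset ℕ) : ℝ := ind (∀ p ∈ B, ¬ p ∣ f) * ind (HasDiv N (f * ∏ p ∈ B, p))

theorem FF_union {N f : ℕ} (hf : Sm N f) {B1 B2 : Finset ℕ} (hd : Disjoint B1 B2)
    (hB : ∀ p ∈ B2, p.Prime ∧ N < p) : FF N f (B1 ∪ B2) = FF N f B1 := by
  unfold FF
  congr 1
  · refine ind_congr ⟨fun h p hp => h p (mem_union_left _ hp), fun h p hp => ?_⟩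
    rcases mem_union.1 hp with h1 | h1
    · exact h p h1
    · intro h2
      have h3 := hf.2 p (hB p h1).1 h2
      have h4 := (hB p h1).2
      omega
  · rw [Finset.prod_union hd, ← mul_assoc]
    refine ind_congr ⟨?_, ?_⟩
    · rintro ⟨d, h1, h2, h3⟩
      refine ⟨d, ?_, h2, h3⟩
      refine (Nat.Coprime.dvd_of_dvd_mul_right ?_ h1)
      refine Nat.Coprime.prod_right fun p hp => ?_
      rw [Nat.coprime_comm, (hB p hp).1.coprime_iff_not_dvd]
      intro h4
      have h5 := Nat.le_of_dvd (by omega) h4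
      have h6 := (hB p hp).2
      omega
    · rintro ⟨d, h1, h2, h3⟩
      exact ⟨d, h1.mul_right _, h2, h3⟩

/-- primes larger than `N` can be added -/
theorem extend {N L f : ℕ} (hL : G N ≤ L * Real.log 2) (hf : Sm N f) :
    (∑ B ∈ (Nat.primesLE N).powerset, (∏ p ∈ B, w1 L p) * FF N f B) *
      ∏ p ∈ (range (bd L)).filter (fun p => N < p), (1 + w1 L p) =
    ∑ B ∈ (range (bd L)).powerset, (∏ p ∈ B, w1 L p) * FF N f B := by
  set C := (range (bd L)).filter (fun p => N < p) with hC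
  set A := (range (bd L)).filter (fun p => ¬ N < p) with hA
  have hAC : A ∪ C = range (bd L) := by
    rw [union_comm]
    exact filter_union_filter_not_eq _ _
  have hdis : Disjoint A C := (disjoint_filter_filter_not _ _ _).symm
  have h1 : ∑ B ∈ (Nat.primesLE N).powerset, (∏ p ∈ B, w1 L p) * FF N f B =
      ∑ B ∈ A.powerset, (∏ p ∈ B, w1 L p) * FF N f B := by
    refine Finset.sum_subset (powerset_mono.2 ?_) ?_
    · intro p hp
      rw [Nat.mem_primesLE] at hp
      rw [hA, mem_filter, mem_range]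
      have := lt_bd hL
      omega
    · intro B hB hB'
      rw [mem_powerset] at hB hB'
      obtain ⟨p, hp, hp'⟩ := not_subset.1 hB'
      have h2 : ¬ p.Prime := by
        intro h3
        apply hp'
        rw [Nat.mem_primesLE]
        have h4 := hB hp
        rw [hA, mem_filter] at h4
        exact ⟨by omega, h3⟩
      rw [Finset.prod_eq_zero hp (w1_not_prime L h2), zero_mul]
  rw [h1, Finset.prod_one_add, ← hAC, sum_powerset_union hdis, Finset.sum_mul]
  refine Finset.sum_congr rfl fun B1 hB1 => ?_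
  rw [Finset.mul_sum]
  refine Finset.sum_congr rfl fun B2 hB2 => ?_
  rw [mem_powerset] at hB1 hB2
  have hd : Disjoint B1 B2 := (hdis.mono_left hB1).mono_right hB2
  rw [Finset.prod_union hd]
  by_cases hp : ∀ p ∈ B2, p.Prime
  · rw [FF_union hf hd fun p h => ⟨hp p h, (mem_filter.1 (hB2 h)).2⟩]
    ring
  · push Not at hp
    obtain ⟨p, hpB, hp⟩ := hp
    rw [Finset.prod_eq_zero hpB (w1_not_prime L hp)]
    ring

/-! ### divisors and windows -/

theorem dvd_prod_primes {ι : Type} [DecidableEq ι] (s : Finset ι) (τ : ι → ℕ)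
    (h : ∀ i ∈ s, (τ i).Prime) {e : ℕ} (he : e ∣ ∏ i ∈ s, τ i) :
    ∃ S ⊆ s, e = ∏ i ∈ S, τ i := by
  induction s using Finset.induction_on generalizing e with
  | empty =>
    rw [prod_empty, Nat.dvd_one] at he
    exact ⟨∅, Subset.refl _, by rw [he, prod_empty]⟩
  | insert a s ha ih =>
    rw [prod_insert ha] at he
    obtain ⟨y, z, hy, hz, hyz⟩ := (Nat.dvd_mul).1 he
    obtain ⟨S, hS, rfl⟩ := ih (fun i hi => h i (mem_insert_of_mem hi)) hz
    rcases (Nat.dvd_prime (h a (mem_insert_self _ _))).1 hy with h1 | h1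
    · exact ⟨S, hS.trans (subset_insert _ _), by rw [← hyz, h1, one_mul]⟩
    · refine ⟨insert a S, insert_subset_insert _ hS, ?_⟩
      rw [prod_insert fun h2 => ha (hS h2), ← hyz, h1]

theorem hasDiv_iff {N f : ℕ} (hN : 1 ≤ N) (hf : f ≠ 0) {ι : Type} [Fintype ι] [DecidableEq ι]
    (τ : ι → ℕ) (hτ : ∀ i, (τ i).Prime) :
    HasDiv N (f * ∏ i, τ i) ↔ Real.log N ∈ TW f τ := by
  have key : ∀ d : ℕ, d ≠ 0 → ∀ S : Finset ι, (Real.log d + sz τ S ≤ Real.log N ∧
      Real.log N < Real.log d + sz τ S + Real.log 2) ↔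
      (N < 2 * (d * ∏ i ∈ S, τ i) ∧ d * ∏ i ∈ S, τ i ≤ N) := by
    intro d hd S
    have hS : (∏ i ∈ S, τ i) ≠ 0 := Finset.prod_ne_zero_iff.2 fun i _ => (hτ i).ne_zero
    have hD : 0 < d * ∏ i ∈ S, τ i := Nat.pos_of_ne_zero (mul_ne_zero hd hS)
    have h1 : Real.log d + sz τ S = Real.log ((d * ∏ i ∈ S, τ i : ℕ) : ℝ) := by
      unfold sz
      push_cast
      rw [Real.log_mul (Nat.cast_ne_zero.2 hd)
        (Finset.prod_ne_zero_iff.2 fun i _ => Nat.cast_ne_zero.2 (hτ i).ne_zero),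
        Real.log_prod fun i _ => Nat.cast_ne_zero.2 (hτ i).ne_zero]
    have hDr : (0:ℝ) < ((d * ∏ i ∈ S, τ i : ℕ) : ℝ) := Nat.cast_pos.2 hD
    have hNr : (0:ℝ) < (N : ℝ) := Nat.cast_pos.2 hN
    rw [h1, ← Real.log_mul hDr.ne' two_ne_zero, Real.log_le_log_iff hDr hNr,
      Real.log_lt_log_iff hNr (by positivity), Nat.cast_le, and_comm]
    refine and_congr_left fun _ => ?_
    rw [← Nat.cast_two, ← Nat.cast_mul, Nat.cast_lt, mul_comm (d * _) 2]
  constructor
  · rintro ⟨D, h1, h2, h3⟩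
    obtain ⟨d, e, hd, he, hde⟩ := (Nat.dvd_mul).1 h1
    obtain ⟨S, _, rfl⟩ := dvd_prod_primes univ τ (fun i _ => hτ i) he
    have hd0 : d ≠ 0 := fun h => hf (Nat.eq_zero_of_zero_dvd (h ▸ hd))
    refine ⟨d, Nat.mem_divisors.2 ⟨hd, hf⟩, S, (key d hd0 S).2 ?_⟩
    rw [hde]
    exact ⟨h2, h3⟩
  · rintro ⟨d, hd, S, h⟩
    have hd1 := Nat.dvd_of_mem_divisors hd
    have hd0 : d ≠ 0 := fun h => hf (Nat.eq_zero_of_zero_dvd (h ▸ hd1))
    obtain ⟨h2, h3⟩ := (key d hd0 S).1 h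
    exact ⟨d * ∏ i ∈ S, τ i, Nat.mul_dvd_mul hd1
      (Finset.prod_dvd_prod_of_subset _ _ _ (subset_univ _)), h2, h3⟩

theorem FF_image {N f : ℕ} (hN : 1 ≤ N) (hf : f ≠ 0) {ι : Type} [Fintype ι] [DecidableEq ι]
    (τ : ι → ℕ) (hτ : ∀ i, (τ i).Prime) :
    ind (Function.Injective τ) * FF N f (univ.image τ) =
      ind (Inj f τ ∧ Real.log N ∈ TW f τ) := by
  by_cases h : Function.Injective τ
  · rw [ind_of h, one_mul, FF, Finset.prod_image fun x _ y _ hxy => h hxy, ← ind_and]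
    refine ind_congr (and_congr ⟨fun h1 => ⟨h, fun i => h1 _ (mem_image_of_mem _ (mem_univ i))⟩,
      fun h1 p hp => ?_⟩ (hasDiv_iff hN hf τ hτ))
    obtain ⟨i, _, rfl⟩ := mem_image.1 hp
    exact h1.2 i
  · rw [ind_not_of h, zero_mul, ind_not_of]
    rintro ⟨h1, _⟩
    exact h h1.1

/-! ### the sum over the counts -/

theorem card_Idx {L : ℕ} (ν : Fin L → ℕ) : Fintype.card (Idx ν) = cnt ν L := by
  rw [Fintype.card_sigma, cnt]
  refine Finset.sum_congr rfl fun l _ => ?_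
  rw [if_pos l.2, Fintype.card_fin]

theorem wt_zz {L : ℕ} (ν : Fin L → ℕ) : (Real.exp 1 * Real.log 2) ^ L * (wt ν * zz ^ (X ν L)) =
    (∏ l, 1 / ((ν l).factorial : ℝ)) * Real.log 2 ^ cnt ν L := by
  have h2 := log2_pos.ne'
  have h1 : wt ν = (∏ l, 1 / ((ν l).factorial : ℝ)) * Real.exp (-1) ^ L := by
    unfold wt pw
    rw [show Real.exp (-1) ^ L = ∏ _l : Fin L, Real.exp (-1) by simp, ← Finset.prod_mul_distrib]
    refine Finset.prod_congr rfl fun l _ => ?_
    ring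
  have h3 : zz ^ (X ν L) = Real.log 2 ^ cnt ν L * (Real.log 2 ^ L)⁻¹ := by
    unfold zz X
    rw [one_div, inv_zpow', neg_sub, zpow_sub₀ h2, zpow_natCast, zpow_natCast, div_eq_mul_inv]
  have h4 : Real.exp 1 ^ L * Real.exp (-1) ^ L = 1 := by
    rw [← mul_pow, ← Real.exp_add, add_neg_cancel, Real.exp_zero, one_pow]
  have h5 : Real.log 2 ^ L * (Real.log 2 ^ L)⁻¹ = 1 := mul_inv_cancel₀ (pow_ne_zero _ h2)
  rw [h1, h3, mul_pow]
  linear_combination (∏ l, 1 / ((ν l).factorial : ℝ)) * Real.log 2 ^ cnt ν L *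
    (Real.log 2 ^ L * (Real.log 2 ^ L)⁻¹ * h4 + h5)

theorem count_term {N L f : ℕ} (hN : 1 ≤ N) (hf : f ≠ 0) (ν : Fin L → ℕ) :
    (∏ l, 1 / ((ν l).factorial : ℝ)) *
      ∑ τ ∈ Fintype.piFinset (fun _ : Idx ν => range (bd L)),
        (∏ i, Real.log 2 * mu (i.1 + 1) (τ i)) *
          (ind (Function.Injective τ) * FF N f (univ.image τ)) =
    (Real.exp 1 * Real.log 2) ^ L * (wt ν * zz ^ (X ν L) *
      EX L 0 ν (fun τ => ind (Inj f τ ∧ Real.log N ∈ TW f τ))) := by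
  rw [← mul_assoc ((Real.exp 1 * Real.log 2) ^ L), wt_zz, mul_assoc, EX, Ex]
  congr 1
  rw [Finset.mul_sum]
  refine Finset.sum_congr rfl fun τ _ => ?_
  rw [Finset.prod_mul_distrib, Finset.prod_const, Finset.card_univ, card_Idx, mul_assoc]
  have e : ∀ i : Idx ν, lv 0 ν i = i.1 + 1 := fun i => by rw [lv, zero_add]
  simp only [e]
  by_cases hp : ∀ i, (τ i).Prime
  · rw [FF_image hN hf τ hp]
  · push Not at hp
    obtain ⟨i, hi⟩ := hp
    have h0 : ∏ i : Idx ν, mu (i.1 + 1) (τ i) = 0 :=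
      Finset.prod_eq_zero (mem_univ i) (mu_not_prime _ hi)
    rw [h0]
    ring

theorem two_pow (L : ℕ) : (Real.exp 1 * Real.log 2) ^ L * (2 : ℝ) ^ (dl * L) = 2 ^ L := by
  have h2 := log2_pos
  have h1 : (2 : ℝ) ^ dl = 2 / (Real.exp 1 * Real.log 2) := by
    rw [Real.rpow_def_of_pos (by norm_num : (0:ℝ) < 2), dl]
    have h3 : Real.log 2 * (1 - (1 + Real.log (Real.log 2)) / Real.log 2) =
        Real.log 2 - (1 + Real.log (Real.log 2)) := by
      field_simp
    rw [h3, Real.exp_sub, Real.exp_add, Real.exp_log (by norm_num : (0:ℝ) < 2), Real.exp_log h2]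
  rw [Real.rpow_mul_natCast (by norm_num : (0:ℝ) ≤ 2), h1, ← mul_pow]
  congr 1
  have := Real.exp_pos 1
  field_simp

/-- the sum over labelled sets in terms of tuples -/
theorem sum_eq_Z {N L f : ℕ} (hN : 1 ≤ N) (hL : G N ≤ L * Real.log 2) (hf : Sm N f) :
    (∑ B ∈ (Nat.primesLE N).powerset, (∏ p ∈ B, w1 L p) * FF N f B) *
      ∏ p ∈ (range (bd L)).filter (fun p => N < p), (1 + w1 L p) =
    (Real.exp 1 * Real.log 2) ^ L * Z f L (Real.log N) := by
  rw [extend hL hf, Z, ← tsum_mul_left]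
  have h := lab_tuples L (range (bd L)) (fun l p => Real.log 2 * mu (l + 1) p) (FF N f)
  simp only [← w1_eq_fin] at h
  rw [h]
  refine tsum_congr fun ν => ?_
  exact count_term hN hf.1 ν

end EpsC

open EpsC in
theorem main_identity (N L : ℕ) (hN : 1 ≤ N) (hL : G N ≤ L * Real.log 2) :
    eps N * (2 : ℝ) ^ (dl * L) =
      cN N L * ∑' f : ℕ, ind (Sm N f) * wf f * Z f L (Real.log N) := by
  have h1 := smooth_split N (w1 L) (w1_nonneg L) (fun p hp hpN => w1_part hL hp hpN)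
    (fun n => ind (HasDiv N n)) (fun n => ⟨ind_nonneg _, ind_le_one _⟩)
  set E := ∏ p ∈ (range (bd L)).filter (fun p => N < p), (1 + w1 L p) with hE
  have hE0 : 0 < E := Finset.prod_pos fun p _ => by
    have := w1_nonneg L p
    linarith
  have h2 : cN N L = (∏ p ∈ Nat.primesLE N, (1 - 1 / (p : ℝ))) * E⁻¹ * 2 ^ L := rfl
  rw [eps_formula, h1, h2, mul_assoc, mul_assoc, mul_assoc]
  congr 1
  rw [← mul_assoc, ← tsum_mul_right, ← tsum_mul_left]
  refine tsum_congr fun f => ?_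
  by_cases hf : Sm N f
  · have h3 := sum_eq_Z hN hL hf
    have h4 := two_pow L
    have h5 : ∑ B ∈ (Nat.primesLE N).powerset, (∏ p ∈ B, w1 L p) *
        ind (∀ p ∈ B, ¬ p ∣ f) * ind (HasDiv N (f * ∏ p ∈ B, p)) =
        ∑ B ∈ (Nat.primesLE N).powerset, (∏ p ∈ B, w1 L p) * FF N f B :=
      Finset.sum_congr rfl fun B _ => by rw [FF, mul_assoc]
    rw [h5]
    set S := ∑ B ∈ (Nat.primesLE N).powerset, (∏ p ∈ B, w1 L p) * FF N f B with hS
    rw [← hE] at h3
    have h6 : S * (2 : ℝ) ^ (dl * L) = E⁻¹ * 2 ^ L * Z f L (Real.log N) := by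
      have h7 : S = E⁻¹ * ((Real.exp 1 * Real.log 2) ^ L * Z f L (Real.log N)) := by
        rw [← h3]
        field_simp
      rw [h7, ← h4]
      ring
    linear_combination ind (Sm N f) * wf f * h6
  · rw [ind_not_of hf]
    ring

end Pool.Agent.EN
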