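import Mathlib
import Pool.Agent.Lib.MP_ec0ede_nt_EN.Defs1

set_option autoImplicit false

/-!
# MP_ec0ede_nt, project EN, module Bal: the ballot probabilities
-/

noncomputable section

namespace Pool.Agent.EN

open Real Filter Topology Finset

namespace Bal

theorem fp_of_le {n b : ℕ} (h : b ≤ n) (hn : 1 ≤ n) :
    fp n b = (b : ℝ) / n * (Real.exp (-(n : ℝ)) * (n : ℝ) ^ (n - b) / ((n - b).factorial : ℝ)) := by
  rw [fp, if_pos ⟨h, hn⟩]

theorem fp_of_lt {n b : ℕ} (h : n < b) : fp n b = 0 := by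
  rw [fp, if_neg (fun h' => absurd h'.1 (not_le.2 h))]

/-- the factor with the factorials -/
theorem pois_eq {n b : ℕ} (h : b ≤ n) (hn : 1 ≤ n) :
    Real.exp (-(n : ℝ)) * (n : ℝ) ^ (n - b) / ((n - b).factorial : ℝ) =
      1 / (Stirling.stirlingSeq n * √(2 * n)) * ((n.descFactorial b : ℝ) / (n : ℝ) ^ b) := by
  have hn0 : (0 : ℝ) < n := by exact_mod_cast hn
  have hf : (0 : ℝ) < ((n - b).factorial : ℝ) := by exact_mod_cast Nat.factorial_pos _
  have hF : (0 : ℝ) < (n.factorial : ℝ) := by exact_mod_cast Nat.factorial_pos _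
  have hs : (0 : ℝ) < √(2 * (n : ℝ)) := Real.sqrt_pos.2 (by linarith)
  have hmul : ((n - b).factorial : ℝ) * (n.descFactorial b : ℝ) = n.factorial := by
    exact_mod_cast Nat.factorial_mul_descFactorial h
  have hpow : (n : ℝ) ^ (n - b) * (n : ℝ) ^ b = (n : ℝ) ^ n := by
    rw [← pow_add, Nat.sub_add_cancel h]
  have hexp : (Real.exp 1) ^ n = Real.exp n := by
    rw [← Real.exp_nat_mul, mul_one]
  have h1 : Stirling.stirlingSeq n * √(2 * n) = n.factorial * Real.exp n / (n : ℝ) ^ n := by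
    rw [Stirling.stirlingSeq, div_pow, hexp]
    have := Real.exp_pos (n : ℝ)
    field_simp
  rw [h1, Real.exp_neg]
  have he := Real.exp_pos (n : ℝ)
  have hnb : (0 : ℝ) < (n : ℝ) ^ b := by positivity
  have hd : (0 : ℝ) < (n.descFactorial b : ℝ) := by
    exact_mod_cast Nat.descFactorial_pos.2 h
  have hp : (0 : ℝ) < (n : ℝ) ^ (n - b) := by positivity
  rw [div_eq_iff hf.ne', ← hmul, ← hpow]
  field_simp

theorem fp_eq {n b : ℕ} (h : b ≤ n) (hn : 1 ≤ n) :
    (n : ℝ) ^ (3 / 2 : ℝ) * fp n b =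
      b * (1 / (√2 * Stirling.stirlingSeq n)) * ((n.descFactorial b : ℝ) / (n : ℝ) ^ b) := by
  have hn0 : (0 : ℝ) < n := by exact_mod_cast hn
  have hst : Stirling.stirlingSeq n ≠ 0 := by
    have h1 := Stirling.sqrt_pi_le_stirlingSeq (n := n) (by omega)
    have h2 : 0 < √π := Real.sqrt_pos.2 Real.pi_pos
    exact (lt_of_lt_of_le h2 h1).ne'
  have h32 : (n : ℝ) ^ (3 / 2 : ℝ) = n * √n := by
    rw [Real.sqrt_eq_rpow, show (3 / 2 : ℝ) = 1 + 1 / 2 by norm_num, Real.rpow_add hn0,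
      Real.rpow_one]
  rw [fp_of_le h hn, pois_eq h hn, h32, Real.sqrt_mul (by norm_num : (0 : ℝ) ≤ 2)]
  have hs : √(n : ℝ) ≠ 0 := (Real.sqrt_pos.2 hn0).ne'
  have hs2 : √(2 : ℝ) ≠ 0 := (Real.sqrt_pos.2 (by norm_num)).ne'
  have hnb : (n : ℝ) ^ b ≠ 0 := by positivity
  field_simp

theorem desc_le (n b : ℕ) (hn : 1 ≤ n) : (n.descFactorial b : ℝ) / (n : ℝ) ^ b ≤ 1 := by
  have hn0 : (0 : ℝ) < n := by exact_mod_cast hn
  rw [div_le_one (by positivity)]
  exact_mod_cast Nat.descFactorial_le_pow n b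

/-- the descending factorial is large -/
theorem desc_ge (m : ℕ) : ∀ k : ℕ, k ≤ m →
    (m : ℝ) ^ k * (m - (k : ℝ) * (k - 1) / 2) ≤ m * (m.descFactorial k : ℝ) := by
  intro k
  induction k with
  | zero => intro _; simp
  | succ k ih =>
    intro hk
    have hk' : k ≤ m := by omega
    have h1 := ih hk'
    have hcast : ((m - k : ℕ) : ℝ) = m - k := by rw [Nat.cast_sub hk']
    rw [Nat.descFactorial_succ]
    push_cast
    rw [hcast]
    have hmk : (0 : ℝ) ≤ (m : ℝ) - k := by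
      rw [sub_nonneg]; exact_mod_cast hk'
    have hm : (0 : ℝ) ≤ (m : ℝ) ^ k := by positivity
    have hk0 : (0 : ℝ) ≤ (k : ℝ) * (k - 1) := by
      rcases Nat.eq_zero_or_pos k with h | h
      · rw [h]; simp
      · have : (1 : ℝ) ≤ k := by exact_mod_cast h
        nlinarith
    have h2 := mul_le_mul_of_nonneg_left h1 hmk
    have h3 : 0 ≤ (m : ℝ) ^ k * ((k : ℝ) * ((k : ℝ) * (k - 1) / 2)) :=
      mul_nonneg hm (mul_nonneg (by positivity) (by linarith))
    calc (m : ℝ) ^ (k + 1) * (m - ((k : ℝ) + 1) * (((k : ℝ) + 1) - 1) / 2)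
        = (m - k) * ((m : ℝ) ^ k * (m - (k : ℝ) * (k - 1) / 2))
          - (m : ℝ) ^ k * ((k : ℝ) * ((k : ℝ) * (k - 1) / 2)) := by ring
      _ ≤ (m - k) * ((m : ℝ) ^ k * (m - (k : ℝ) * (k - 1) / 2)) := by linarith
      _ ≤ (m - k) * (m * (m.descFactorial k : ℝ)) := h2
      _ = m * ((m - k) * (m.descFactorial k : ℝ)) := by ring

/-- the mean value of the binomial distribution -/
theorem sum_mean (N : ℕ) (x : ℝ) :
    (x + 1) * ∑ k ∈ range (N + 1), (k : ℝ) * (N.choose k * x ^ (N - k)) = N * (x + 1) ^ N := by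
  cases N with
  | zero => simp
  | succ N =>
    rw [Finset.sum_range_succ']
    simp only [Nat.cast_zero, zero_mul, add_zero]
    have h1 : ∀ k ∈ range (N + 1), (((k + 1 : ℕ) : ℝ)) * (((N + 1).choose (k + 1) : ℕ) *
        x ^ (N + 1 - (k + 1))) = ((N + 1 : ℕ) : ℝ) * ((N.choose k : ℕ) * x ^ (N - k)) := by
      intro k _
      have h2 : ((N + 1 : ℕ) : ℝ) * (N.choose k : ℕ) = ((N + 1).choose (k + 1) : ℕ) * ((k + 1 : ℕ) : ℝ) := by
        exact_mod_cast Nat.add_one_mul_choose_eq N k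
      rw [Nat.add_sub_add_right, ← mul_assoc, ← mul_assoc, h2, mul_comm (((k + 1 : ℕ) : ℝ))]
    rw [Finset.sum_congr rfl h1, ← Finset.mul_sum]
    have h3 : ∑ k ∈ range (N + 1), ((N.choose k : ℕ) : ℝ) * x ^ (N - k) = (x + 1) ^ N := by
      rw [add_comm x 1, add_pow]
      refine Finset.sum_congr rfl fun k _ => ?_
      rw [one_pow, one_mul, mul_comm]
    rw [h3, pow_succ]
    ring

theorem sum_one (N : ℕ) (x : ℝ) :
    ∑ k ∈ range (N + 1), ((N.choose k : ℕ) : ℝ) * x ^ (N - k) = (x + 1) ^ N := by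
  rw [add_comm x 1, add_pow]
  refine Finset.sum_congr rfl fun k _ => ?_
  rw [one_pow, one_mul, mul_comm]

end Bal

theorem fp_nonneg (n b : ℕ) : 0 ≤ fp n b := by
  rw [fp]
  split_ifs
  · positivity
  · exact le_rfl

theorem fp_one : fp 1 1 = Real.exp (-1) := by
  rw [Bal.fp_of_le le_rfl le_rfl]
  simp

theorem fp_self (a : ℕ) (ha : 1 ≤ a) : fp a a = Real.exp (-(a : ℝ)) := by
  rw [Bal.fp_of_le le_rfl ha]
  have : (a : ℝ) ≠ 0 := by
    have : 0 < a := ha
    exact_mod_cast this.ne'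
  simp [this]

theorem fp_rec (n b M : ℕ) (hn : 1 ≤ n) (hb : 1 ≤ b) (hM : n + 2 ≤ M) :
    fp (n + 1) b = ∑ k ∈ range M, pw k * (if 2 ≤ b + k then fp n (b + k - 1) else 0) := by
  have hn0 : (0 : ℝ) < n := by exact_mod_cast hn
  rcases Nat.lt_or_ge (n + 1) b with hlt | hle
  · rw [Bal.fp_of_lt hlt, eq_comm]
    refine Finset.sum_eq_zero fun k _ => ?_
    rw [if_pos (by omega), Bal.fp_of_lt (by omega), mul_zero]
  · obtain ⟨N, hN⟩ : ∃ N, N + b = n + 1 := ⟨n + 1 - b, by omega⟩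
    have hsub : range (N + 1) ⊆ range M := Finset.range_subset_range.2 (by omega)
    rw [← Finset.sum_subset hsub]
    · have hterm : ∀ k ∈ range (N + 1), pw k * (if 2 ≤ b + k then fp n (b + k - 1) else 0) =
          Real.exp (-((n : ℝ) + 1)) / (n * (N.factorial : ℝ)) *
            (((b : ℝ) - 1) * ((N.choose k : ℕ) * (n : ℝ) ^ (N - k)) +
              (k : ℝ) * ((N.choose k : ℕ) * (n : ℝ) ^ (N - k))) := by
        intro k hk
        have hk' : k ≤ N := by
          have := Finset.mem_range.1 hk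
          omega
        have hfk : (0 : ℝ) < (k.factorial : ℝ) := by exact_mod_cast Nat.factorial_pos _
        have hfN : (0 : ℝ) < (N.factorial : ℝ) := by exact_mod_cast Nat.factorial_pos _
        have hfNk : (0 : ℝ) < ((N - k).factorial : ℝ) := by exact_mod_cast Nat.factorial_pos _
        have hch : ((N.choose k : ℕ) : ℝ) * k.factorial * (N - k).factorial = N.factorial := by
          exact_mod_cast Nat.choose_mul_factorial_mul_factorial hk'
        have hchE : ((N.choose k : ℕ) : ℝ) =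
            (N.factorial : ℝ) / (k.factorial * (N - k).factorial) := by
          rw [eq_div_iff (by positivity), ← hch]; ring
        have hexp : Real.exp (-((n : ℝ) + 1)) = Real.exp (-1) * Real.exp (-(n : ℝ)) := by
          rw [← Real.exp_add]; congr 1; ring
        by_cases h2 : 2 ≤ b + k
        · rw [if_pos h2, Bal.fp_of_le (by omega) hn]
          have h3 : n - (b + k - 1) = N - k := by omega
          have h4 : ((b + k - 1 : ℕ) : ℝ) = (b : ℝ) - 1 + k := by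
            rw [Nat.cast_sub (by omega)]; push_cast; ring
          rw [h3, h4, pw, hchE, hexp]
          field_simp
        · have hb1 : b = 1 := by omega
          have hk0 : k = 0 := by omega
          rw [if_neg h2, hb1, hk0]
          simp
      rw [Finset.sum_congr rfl hterm, ← Finset.mul_sum, Finset.sum_add_distrib, ← Finset.mul_sum,
        Bal.sum_one]
      have hmean := Bal.sum_mean N (n : ℝ)
      have hn1 : ((n : ℝ) + 1) ≠ 0 := by positivity
      have hm2 : ∑ k ∈ range (N + 1), (k : ℝ) * ((N.choose k : ℕ) * (n : ℝ) ^ (N - k)) =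
          N * ((n : ℝ) + 1) ^ N / (n + 1) := by
        rw [eq_div_iff hn1, ← hmean]; ring
      rw [hm2, Bal.fp_of_le (by omega) (by omega)]
      have h5 : n + 1 - b = N := by omega
      have hNr : (N : ℝ) = n + 1 - b := by
        have : ((N + b : ℕ) : ℝ) = ((n + 1 : ℕ) : ℝ) := by rw [hN]
        push_cast at this
        linarith
      have hfN : (0 : ℝ) < (N.factorial : ℝ) := by exact_mod_cast Nat.factorial_pos _
      rw [h5, hNr]
      push_cast
      field_simp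
      ring
    · intro k _ hk
      have hk' : N < k := by
        by_contra h
        exact hk (Finset.mem_range.2 (by omega))
      rw [if_pos (by omega), Bal.fp_of_lt (by omega), mul_zero]

theorem fp_le (n b : ℕ) (hn : 1 ≤ n) : fp n b ≤ b / (n : ℝ) ^ (3 / 2 : ℝ) := by
  have hn0 : (0 : ℝ) < n := by exact_mod_cast hn
  have hp : (0 : ℝ) < (n : ℝ) ^ (3 / 2 : ℝ) := Real.rpow_pos_of_pos hn0 _
  rcases Nat.lt_or_ge n b with hlt | hle
  · rw [Bal.fp_of_lt hlt]; positivity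
  · rw [le_div_iff₀ hp, mul_comm, Bal.fp_eq hle hn]
    have h1 := Stirling.sqrt_pi_le_stirlingSeq (n := n) (by omega)
    have h2 : 1 ≤ √π := by
      rw [Real.one_le_sqrt]; linarith [Real.pi_gt_three]
    have h3 : 1 ≤ √(2 : ℝ) := by
      rw [Real.one_le_sqrt]; norm_num
    have h4 : 1 ≤ √2 * Stirling.stirlingSeq n := by nlinarith
    have h5 : 1 / (√2 * Stirling.stirlingSeq n) ≤ 1 := by
      rw [div_le_one (by linarith)]; exact h4
    have h6 := Bal.desc_le n b hn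
    have h7 : 0 ≤ (n.descFactorial b : ℝ) / (n : ℝ) ^ b := by positivity
    have h8 : 0 ≤ 1 / (√2 * Stirling.stirlingSeq n) := by positivity
    have hb0 : (0 : ℝ) ≤ b := by positivity
    calc (b : ℝ) * (1 / (√2 * Stirling.stirlingSeq n)) * ((n.descFactorial b : ℝ) / (n : ℝ) ^ b)
        ≤ (b : ℝ) * (1 / (√2 * Stirling.stirlingSeq n)) * 1 := by gcongr
      _ ≤ (b : ℝ) * 1 * 1 := by gcongr
      _ = b := by ring

theorem fp_lower : ∃ c : ℝ, 0 < c ∧ ∀ a : ℕ, 1 ≤ a → c / (a : ℝ) ^ 2 ≤ fp (a ^ 2) a := by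
  refine ⟨1 / (2 * Real.exp 1), by positivity, fun a ha => ?_⟩
  have ha0 : (0 : ℝ) < a := by exact_mod_cast ha
  have hm : 1 ≤ a ^ 2 := Nat.one_le_pow _ _ ha
  have hle : a ≤ a ^ 2 := by nlinarith
  have h1 := Bal.fp_eq hle hm
  have h32 : ((a ^ 2 : ℕ) : ℝ) ^ (3 / 2 : ℝ) = (a : ℝ) ^ 3 := by
    push_cast
    rw [← Real.rpow_natCast (a : ℝ) 2, ← Real.rpow_mul ha0.le, ← Real.rpow_natCast (a : ℝ) 3]
    norm_num
  have hst : Stirling.stirlingSeq (a ^ 2) ≤ Real.exp 1 / √2 := by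
    rw [← Stirling.stirlingSeq_one]
    have := Stirling.stirlingSeq'_antitone (Nat.zero_le (a ^ 2 - 1))
    simp only [Function.comp_apply, Nat.succ_eq_add_one] at this
    rwa [Nat.sub_add_cancel hm] at this
  have hst0 : 0 < Stirling.stirlingSeq (a ^ 2) := by
    have h1 := Stirling.sqrt_pi_le_stirlingSeq (n := a ^ 2) (by omega)
    exact lt_of_lt_of_le (Real.sqrt_pos.2 Real.pi_pos) h1
  have hs2 : (0 : ℝ) < √2 := Real.sqrt_pos.2 (by norm_num)
  have h4 : √2 * Stirling.stirlingSeq (a ^ 2) ≤ Real.exp 1 := by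
    calc √2 * Stirling.stirlingSeq (a ^ 2) ≤ √2 * (Real.exp 1 / √2) := by gcongr
      _ = Real.exp 1 := by field_simp
  have h5 : 1 / Real.exp 1 ≤ 1 / (√2 * Stirling.stirlingSeq (a ^ 2)) :=
    one_div_le_one_div_of_le (by positivity) h4
  have h6 : (1 / 2 : ℝ) ≤ ((a ^ 2).descFactorial a : ℝ) / ((a ^ 2 : ℕ) : ℝ) ^ a := by
    have h7 := Bal.desc_ge (a ^ 2) a hle
    have hp : (0 : ℝ) < ((a ^ 2 : ℕ) : ℝ) ^ a := by positivity
    rw [le_div_iff₀ hp]
    have h8 : (1 / 2 : ℝ) * ((a ^ 2 : ℕ) : ℝ) ≤ ((a ^ 2 : ℕ) : ℝ) - (a : ℝ) * (a - 1) / 2 := by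
      push_cast
      nlinarith
    have h9 : (0 : ℝ) < ((a ^ 2 : ℕ) : ℝ) := by positivity
    have h10 : ((a ^ 2 : ℕ) : ℝ) * (1 / 2 * ((a ^ 2 : ℕ) : ℝ) ^ a) ≤
        ((a ^ 2 : ℕ) : ℝ) * ((a ^ 2).descFactorial a : ℝ) := by
      calc ((a ^ 2 : ℕ) : ℝ) * (1 / 2 * ((a ^ 2 : ℕ) : ℝ) ^ a)
          = ((a ^ 2 : ℕ) : ℝ) ^ a * (1 / 2 * ((a ^ 2 : ℕ) : ℝ)) := by ring
        _ ≤ ((a ^ 2 : ℕ) : ℝ) ^ a * (((a ^ 2 : ℕ) : ℝ) - (a : ℝ) * (a - 1) / 2) := by gcongr
        _ ≤ _ := h7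
    exact le_of_mul_le_mul_left h10 h9
  rw [h32] at h1
  have h11 : (a : ℝ) * (1 / Real.exp 1) * (1 / 2) ≤ (a : ℝ) ^ 3 * fp (a ^ 2) a := by
    rw [h1]
    gcongr
  have h12 : (a : ℝ) ^ 3 * (1 / (2 * Real.exp 1) / (a : ℝ) ^ 2) ≤ (a : ℝ) ^ 3 * fp (a ^ 2) a := by
    refine le_trans (le_of_eq ?_) h11
    have := Real.exp_pos 1
    field_simp
  exact le_of_mul_le_mul_left h12 (by positivity)

theorem fp_tendsto (b m : ℕ) : Tendsto (fun n : ℕ => (n : ℝ) ^ (3 / 2 : ℝ) * fp (n + m) b) atTop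
    (𝓝 (b / √(2 * π))) := by
  -- the main part
  have hs2 : √(2 : ℝ) ≠ 0 := (Real.sqrt_pos.2 (by norm_num)).ne'
  have hpi : √π ≠ 0 := (Real.sqrt_pos.2 Real.pi_pos).ne'
  have hdesc : Tendsto (fun n : ℕ => (n.descFactorial b : ℝ) / (n : ℝ) ^ b) atTop (𝓝 1) := by
    have h := isEquivalent_descFactorial b
    rw [Asymptotics.isEquivalent_iff_tendsto_one] at h
    · exact h
    · filter_upwards [eventually_ge_atTop 1] with n hn
      have : (0 : ℝ) < n := by exact_mod_cast hn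
      positivity
  have h0 : Tendsto (fun n : ℕ => (n : ℝ) ^ (3 / 2 : ℝ) * fp n b) atTop (𝓝 (b / √(2 * π))) := by
    have h1 : Tendsto (fun n : ℕ => (b : ℝ) * (1 / (√2 * Stirling.stirlingSeq n)) *
        ((n.descFactorial b : ℝ) / (n : ℝ) ^ b)) atTop (𝓝 (b * (1 / (√2 * √π)) * 1)) := by
      refine ((tendsto_const_nhds.div (tendsto_const_nhds.mul
        Stirling.tendsto_stirlingSeq_sqrt_pi) (mul_ne_zero hs2 hpi)).const_mul _).mul hdesc
    have h2 : (b : ℝ) * (1 / (√2 * √π)) * 1 = b / √(2 * π) := by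
      rw [Real.sqrt_mul (by norm_num : (0 : ℝ) ≤ 2)]; ring
    rw [h2] at h1
    refine h1.congr' ?_
    filter_upwards [eventually_ge_atTop (max b 1)] with n hn
    exact (Bal.fp_eq (le_trans (le_max_left _ _) hn) (le_trans (le_max_right _ _) hn)).symm
  have hr : Tendsto (fun n : ℕ => ((n : ℝ) / ((n + m : ℕ) : ℝ)) ^ (3 / 2 : ℝ)) atTop (𝓝 1) := by
    have h1 : Tendsto (fun n : ℕ => (n : ℝ) / ((n + m : ℕ) : ℝ)) atTop (𝓝 1) := by
      have := tendsto_natCast_div_add_atTop (m : ℝ)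
      refine this.congr fun n => ?_
      push_cast
      rfl
    have h2 := h1.rpow_const (p := (3 / 2 : ℝ)) (Or.inl one_ne_zero)
    rwa [Real.one_rpow] at h2
  have h3 := hr.mul (h0.comp (tendsto_add_atTop_nat m))
  rw [one_mul] at h3
  refine h3.congr' ?_
  filter_upwards [eventually_ge_atTop 1] with n hn
  have hn0 : (0 : ℝ) < n := by exact_mod_cast hn
  have hnm : (0 : ℝ) < ((n + m : ℕ) : ℝ) := by positivity
  simp only [Function.comp_apply]
  rw [Real.div_rpow hn0.le hnm.le]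
  have : (0 : ℝ) < ((n + m : ℕ) : ℝ) ^ (3 / 2 : ℝ) := Real.rpow_pos_of_pos hnm _
  field_simp

end Pool.Agent.EN
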