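import Mathlib
import Pool.Agent.Lib.MP_ec0ede_nt_EN.Defs1
import Pool.Agent.Lib.MP_ec0ede_nt_EN.Bal

set_option autoImplicit false

/-!
# MP_ec0ede_nt, project EN, module Ker: the kernels of the killed walk
-/

noncomputable section

namespace Pool.Agent.EN

open Real Filter Topology Finset

namespace Ker

theorem pw_nonneg (k : ℕ) : 0 ≤ pw k := by
  unfold pw
  positivity

theorem kpw_zero (t : ℝ) (b a : ℕ) : kpw t 0 b a = if b = a then 1 else 0 := by
  rw [kpw]

theorem kpw_succ (t : ℝ) (n b a : ℕ) : kpw t (n + 1) b a = ∑ k ∈ range (a + n + 2),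
    pw k * Real.exp (t * k) * (if 2 ≤ b + k then kpw (t / 2) n (b + k - 1) a else 0) := by
  rw [kpw]

theorem sum_pw (M : ℕ) : ∑ k ∈ range M, pw k ≤ 1 := by
  have h := Real.sum_le_exp_of_nonneg (x := 1) zero_le_one M
  have h2 : ∑ k ∈ range M, pw k = Real.exp (-1) * ∑ i ∈ range M, (1 : ℝ) ^ i / (i.factorial : ℝ) := by
    rw [mul_sum]
    refine sum_congr rfl fun k _ => ?_
    unfold pw
    rw [one_pow]
    ring
  rw [h2]
  calc _ ≤ Real.exp (-1) * Real.exp 1 := mul_le_mul_of_nonneg_left h (Real.exp_pos _).le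
    _ = 1 := by rw [← Real.exp_add]; simp

theorem sum_pw_mul (M : ℕ) : ∑ k ∈ range M, pw k * k ≤ 1 := by
  cases M with
  | zero => simp
  | succ M =>
    rw [sum_range_succ']
    have h : ∀ k ∈ range M, pw (k + 1) * ((k + 1 : ℕ) : ℝ) = pw k := by
      intro k _
      unfold pw
      rw [Nat.factorial_succ]
      push_cast
      field_simp
    rw [sum_congr rfl h]
    simp only [Nat.cast_zero, mul_zero, add_zero]
    exact sum_pw M

end Ker

theorem kpw_nonneg (t : ℝ) (n b a : ℕ) : 0 ≤ kpw t n b a := by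
  induction n generalizing t b with
  | zero =>
    rw [Ker.kpw_zero]
    split_ifs <;> norm_num
  | succ n ih =>
    rw [Ker.kpw_succ]
    refine sum_nonneg fun k _ => mul_nonneg (mul_nonneg (Ker.pw_nonneg k) (Real.exp_pos _).le) ?_
    split_ifs
    · exact ih _ _
    · exact le_rfl

theorem kp_nonneg (n b a : ℕ) : 0 ≤ kp n b a := kpw_nonneg 0 n b a

theorem kpw_mono {t t' : ℝ} (h : t ≤ t') (h0 : 0 ≤ t) (n b a : ℕ) : kpw t n b a ≤ kpw t' n b a := by
  induction n generalizing t t' b with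
  | zero => rw [Ker.kpw_zero, Ker.kpw_zero]
  | succ n ih =>
    rw [Ker.kpw_succ, Ker.kpw_succ]
    refine sum_le_sum fun k _ => ?_
    have h1 : pw k * Real.exp (t * k) ≤ pw k * Real.exp (t' * k) :=
      mul_le_mul_of_nonneg_left (Real.exp_le_exp.2 (mul_le_mul_of_nonneg_right h (Nat.cast_nonneg k)))
        (Ker.pw_nonneg k)
    split_ifs with h2
    · exact mul_le_mul h1 (ih (by linarith) (by linarith) _) (kpw_nonneg _ _ _ _)
        (mul_nonneg (Ker.pw_nonneg k) (Real.exp_pos _).le)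
    · simp

theorem kpw_eq_zero (t : ℝ) {n b a : ℕ} (h : a + n < b) : kpw t n b a = 0 := by
  induction n generalizing t b with
  | zero =>
    rw [Ker.kpw_zero, if_neg (by omega)]
  | succ n ih =>
    rw [Ker.kpw_succ]
    refine sum_eq_zero fun k _ => ?_
    rw [ih (t / 2) (b := b + k - 1) (by omega)]
    simp

namespace Ker

theorem kp_zero (b a : ℕ) : kp 0 b a = if b = a then 1 else 0 := kpw_zero 0 b a

theorem kp_succ (n b a M : ℕ) (hM : a + n + 2 ≤ M) : kp (n + 1) b a = ∑ k ∈ range M,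
    pw k * (if 2 ≤ b + k then kp n (b + k - 1) a else 0) := by
  have h1 : kp (n + 1) b a = ∑ k ∈ range (a + n + 2),
      pw k * (if 2 ≤ b + k then kp n (b + k - 1) a else 0) := by
    unfold kp
    rw [kpw_succ]
    simp
  rw [h1]
  refine sum_subset (fun k hk => ?_) fun k _ hk2 => ?_
  · rw [mem_range] at hk ⊢
    omega
  · rw [mem_range] at hk2
    have h3 : kp n (b + k - 1) a = 0 := kpw_eq_zero 0 (by omega)
    rw [h3]
    simp

theorem kp_b_zero {n b : ℕ} (hb : 1 ≤ b) : kp n b 0 = 0 := by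
  induction n generalizing b with
  | zero => rw [kp_zero, if_neg (by omega)]
  | succ n ih =>
    rw [kp_succ n b 0 (0 + n + 2) le_rfl]
    refine sum_eq_zero fun k _ => ?_
    split_ifs with h
    · rw [ih (by omega), mul_zero]
    · rw [mul_zero]

theorem kp_succ_zero (n b : ℕ) : kp (n + 1) b 0 = 0 := by
  rw [kp_succ n b 0 (0 + n + 2) le_rfl]
  refine sum_eq_zero fun k _ => ?_
  split_ifs with h
  · rw [kp_b_zero (by omega), mul_zero]
  · rw [mul_zero]

theorem fp_zero (n : ℕ) : fp n 0 = 0 := by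
  unfold fp
  simp

theorem fp_lt {n b : ℕ} (h : n < b) : fp n b = 0 := by
  unfold fp
  rw [if_neg (by omega)]

end Ker

theorem kp_fp (n b m : ℕ) (hm : 1 ≤ m) (hb : 1 ≤ b) :
    ∑ a ∈ Icc 1 m, kp n b a * fp m a = fp (n + m) b := by
  induction n generalizing b with
  | zero =>
    rw [Nat.zero_add]
    by_cases hbm : b ≤ m
    · rw [sum_eq_single_of_mem b (by rw [mem_Icc]; exact ⟨hb, hbm⟩)]
      · rw [Ker.kp_zero, if_pos rfl, one_mul]
      · intro a _ ha
        rw [Ker.kp_zero, if_neg (Ne.symm ha), zero_mul]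
    · rw [Ker.fp_lt (by omega)]
      refine sum_eq_zero fun a ha => ?_
      rw [mem_Icc] at ha
      rw [Ker.kp_zero, if_neg (by omega), zero_mul]
  | succ n ih =>
    have h1 : ∀ a ∈ Icc 1 m, kp (n + 1) b a * fp m a = ∑ k ∈ range (m + n + 2),
        pw k * (if 2 ≤ b + k then kp n (b + k - 1) a * fp m a else 0) := by
      intro a ha
      rw [mem_Icc] at ha
      rw [Ker.kp_succ n b a (m + n + 2) (by omega), sum_mul]
      refine sum_congr rfl fun k _ => ?_
      split_ifs <;> ring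
    rw [sum_congr rfl h1, sum_comm]
    rw [show n + 1 + m = (n + m) + 1 by ring, fp_rec (n + m) b (m + n + 2) (by omega) hb (by omega)]
    refine sum_congr rfl fun k _ => ?_
    rw [← mul_sum]
    congr 1
    split_ifs with h2
    · exact ih (b + k - 1) (by omega)
    · simp

theorem kp_le : ∃ C : ℝ, 0 < C ∧ ∀ n b a : ℕ,
    kp n b a ≤ C * (b + 1) * (a + 1) ^ 2 / ((n : ℝ) + 1) ^ (3 / 2 : ℝ) := by
  obtain ⟨c, hc, hcl⟩ := fp_lower
  -- the case `b ≥ 1`, `a ≥ 1`
  have main : ∀ n b a : ℕ, 1 ≤ b → 1 ≤ a →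
      kp n b a ≤ (1 / c) * b * (a + 1) ^ 2 / ((n : ℝ) + 1) ^ (3 / 2 : ℝ) := by
    intro n b a hb ha
    have ha2 : 1 ≤ a ^ 2 := Nat.one_le_pow _ _ ha
    have h1 : kp n b a * fp (a ^ 2) a ≤ fp (n + a ^ 2) b := by
      rw [← kp_fp n b (a ^ 2) ha2 hb]
      refine single_le_sum (f := fun a' => kp n b a' * fp (a ^ 2) a')
        (fun a' _ => mul_nonneg (kp_nonneg _ _ _) (fp_nonneg _ _)) ?_
      rw [mem_Icc]
      exact ⟨ha, Nat.le_self_pow two_ne_zero a⟩
    have h2 : fp (n + a ^ 2) b ≤ b / ((n : ℝ) + 1) ^ (3 / 2 : ℝ) := by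
      refine (fp_le (n + a ^ 2) b (by omega)).trans ?_
      refine div_le_div_of_nonneg_left (Nat.cast_nonneg b) (by positivity) ?_
      refine Real.rpow_le_rpow (by positivity) ?_ (by norm_num)
      have : (1 : ℝ) ≤ ((a ^ 2 : ℕ) : ℝ) := by exact_mod_cast ha2
      rw [Nat.cast_add]
      linarith
    have h3 := hcl a ha
    have ha0 : (0 : ℝ) < a := by exact_mod_cast ha
    have h4 : kp n b a * (c / (a : ℝ) ^ 2) ≤ b / ((n : ℝ) + 1) ^ (3 / 2 : ℝ) :=
      (mul_le_mul_of_nonneg_left h3 (kp_nonneg _ _ _)).trans (h1.trans h2)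
    have h5 : kp n b a ≤ (b / ((n : ℝ) + 1) ^ (3 / 2 : ℝ)) * ((a : ℝ) ^ 2 / c) := by
      have e : kp n b a = kp n b a * (c / (a : ℝ) ^ 2) * ((a : ℝ) ^ 2 / c) := by
        field_simp
      rw [e]
      exact mul_le_mul_of_nonneg_right h4 (by positivity)
    refine h5.trans ?_
    have h6 : ((b : ℝ) / ((n : ℝ) + 1) ^ (3 / 2 : ℝ)) * ((a : ℝ) ^ 2 / c) =
        (1 / c) * b * (a : ℝ) ^ 2 / ((n : ℝ) + 1) ^ (3 / 2 : ℝ) := by
      ring
    rw [h6]
    refine div_le_div_of_nonneg_right ?_ (by positivity)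
    refine mul_le_mul_of_nonneg_left ?_ (by positivity)
    nlinarith
  refine ⟨3 / c + 1, by positivity, ?_⟩
  intro n b a
  have hn : (0 : ℝ) < ((n : ℝ) + 1) ^ (3 / 2 : ℝ) := by positivity
  have hbig : ∀ b : ℝ, 0 ≤ b → (1 / c) * b * ((a : ℝ) + 1) ^ 2 / ((n : ℝ) + 1) ^ (3 / 2 : ℝ) ≤
      (3 / c + 1) * (b + 1) * (a + 1) ^ 2 / ((n : ℝ) + 1) ^ (3 / 2 : ℝ) := by
    intro b hb
    refine div_le_div_of_nonneg_right ?_ hn.le
    refine mul_le_mul_of_nonneg_right ?_ (by positivity)
    have h1 : (1 / c) * b ≤ (3 / c) * b := by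
      refine mul_le_mul_of_nonneg_right ?_ hb
      gcongr
      norm_num
    have h2 : (0 : ℝ) < 3 / c := by positivity
    nlinarith
  rcases Nat.eq_zero_or_pos a with rfl | ha
  · -- `a = 0`
    rcases Nat.eq_zero_or_pos n with rfl | hn0
    · rw [Ker.kp_zero]
      split_ifs with h
      · subst h
        simp only [Nat.cast_zero, zero_add, one_pow, mul_one, Real.one_rpow, div_one]
        have : 0 < 3 / c := by positivity
        linarith
      · positivity
    · obtain ⟨n, rfl⟩ : ∃ n', n = n' + 1 := ⟨n - 1, by omega⟩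
      rw [Ker.kp_succ_zero]
      positivity
  · rcases Nat.eq_zero_or_pos b with rfl | hb
    · -- `b = 0`
      rcases Nat.eq_zero_or_pos n with rfl | hn0
      · rw [Ker.kp_zero, if_neg (by omega)]
        positivity
      · obtain ⟨n, rfl⟩ : ∃ n', n = n' + 1 := ⟨n - 1, by omega⟩
        rw [Ker.kp_succ n 0 a (a + n + 2) le_rfl]
        have h1 : ∀ k ∈ range (a + n + 2), pw k * (if 2 ≤ 0 + k then kp n (0 + k - 1) a else 0) ≤
            (pw k * k) * ((1 / c) * ((a : ℝ) + 1) ^ 2 / ((n : ℝ) + 1) ^ (3 / 2 : ℝ)) := by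
          intro k _
          rw [mul_assoc]
          refine mul_le_mul_of_nonneg_left ?_ (Ker.pw_nonneg k)
          split_ifs with h
          · refine (main n (0 + k - 1) a (by omega) ha).trans ?_
            have hk : ((0 + k - 1 : ℕ) : ℝ) ≤ k := by
              exact_mod_cast (by omega : 0 + k - 1 ≤ k)
            have e : (k : ℝ) * ((1 / c) * ((a : ℝ) + 1) ^ 2 / ((n : ℝ) + 1) ^ (3 / 2 : ℝ)) =
                (1 / c) * k * ((a : ℝ) + 1) ^ 2 / ((n : ℝ) + 1) ^ (3 / 2 : ℝ) := by ring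
            rw [e]
            gcongr
          · positivity
        refine (sum_le_sum h1).trans ?_
        rw [← sum_mul]
        have h2 : (∑ k ∈ range (a + n + 2), pw k * k) *
            ((1 / c) * ((a : ℝ) + 1) ^ 2 / ((n : ℝ) + 1) ^ (3 / 2 : ℝ)) ≤
            1 * ((1 / c) * ((a : ℝ) + 1) ^ 2 / ((n : ℝ) + 1) ^ (3 / 2 : ℝ)) :=
          mul_le_mul_of_nonneg_right (Ker.sum_pw_mul _) (by positivity)
        refine h2.trans ?_
        rw [one_mul]
        have h3 : (((n + 1 : ℕ) : ℝ) + 1) ^ (3 / 2 : ℝ) ≤ 3 * ((n : ℝ) + 1) ^ (3 / 2 : ℝ) := by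
          have h4 : (((n + 1 : ℕ) : ℝ) + 1) ≤ 2 * ((n : ℝ) + 1) := by
            push_cast
            have : (0 : ℝ) ≤ n := Nat.cast_nonneg n
            linarith
          refine (Real.rpow_le_rpow (by positivity) h4 (by norm_num)).trans ?_
          rw [Real.mul_rpow (by norm_num) (by positivity)]
          refine mul_le_mul_of_nonneg_right ?_ (by positivity)
          have h5 : (2 : ℝ) ^ (3 / 2 : ℝ) = 2 * √2 := by
            rw [show (3 / 2 : ℝ) = 1 + 1 / 2 by norm_num, Real.rpow_add (by norm_num),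
              Real.rpow_one, ← Real.sqrt_eq_rpow]
          rw [h5]
          have h6 : √2 ≤ 3 / 2 := by
            rw [Real.sqrt_le_left (by norm_num)]
            norm_num
          linarith
        rw [div_le_div_iff₀ (by positivity) (by positivity)]
        have h7 : (1 / c) * ((a : ℝ) + 1) ^ 2 * (((n + 1 : ℕ) : ℝ) + 1) ^ (3 / 2 : ℝ) ≤
            (1 / c) * ((a : ℝ) + 1) ^ 2 * (3 * ((n : ℝ) + 1) ^ (3 / 2 : ℝ)) :=
          mul_le_mul_of_nonneg_left h3 (by positivity)
        refine h7.trans ?_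
        have e : (1 / c) * ((a : ℝ) + 1) ^ 2 * (3 * ((n : ℝ) + 1) ^ (3 / 2 : ℝ)) =
            (3 / c) * ((a : ℝ) + 1) ^ 2 * ((n : ℝ) + 1) ^ (3 / 2 : ℝ) := by ring
        rw [e]
        refine mul_le_mul_of_nonneg_right ?_ (by positivity)
        refine mul_le_mul_of_nonneg_right ?_ (by positivity)
        push_cast
        linarith
    · exact (main n b a hb ha).trans (hbig b (Nat.cast_nonneg b))

theorem kp_harmonic (n b M : ℕ) : ∑ a ∈ range M, (a : ℝ) * kp n b a ≤ b + 1 := by
  -- one step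
  have step : ∀ n b : ℕ, ∑ a ∈ range M, (a : ℝ) * kp (n + 1) b a = ∑ k ∈ range (M + n + 2),
      pw k * (if 2 ≤ b + k then ∑ a ∈ range M, (a : ℝ) * kp n (b + k - 1) a else 0) := by
    intro n b
    have h1 : ∀ a ∈ range M, (a : ℝ) * kp (n + 1) b a = ∑ k ∈ range (M + n + 2),
        pw k * (if 2 ≤ b + k then (a : ℝ) * kp n (b + k - 1) a else 0) := by
      intro a ha
      rw [mem_range] at ha
      rw [Ker.kp_succ n b a (M + n + 2) (by omega), mul_sum]
      refine sum_congr rfl fun k _ => ?_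
      split_ifs <;> ring
    rw [sum_congr rfl h1, sum_comm]
    refine sum_congr rfl fun k _ => ?_
    rw [← mul_sum]
    congr 1
    split_ifs
    · rfl
    · simp
  have base : ∀ b : ℕ, ∑ a ∈ range M, (a : ℝ) * kp 0 b a ≤ b := by
    intro b
    by_cases hb : b ∈ range M
    · rw [sum_eq_single_of_mem b hb]
      · rw [Ker.kp_zero, if_pos rfl, mul_one]
      · intro a _ ha
        rw [Ker.kp_zero, if_neg (Ne.symm ha), mul_zero]
    · rw [sum_eq_zero]
      · exact Nat.cast_nonneg b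
      · intro a ha
        rw [Ker.kp_zero, if_neg, mul_zero]
        rintro rfl
        exact hb ha
  have pos : ∀ n b : ℕ, 1 ≤ b → ∑ a ∈ range M, (a : ℝ) * kp n b a ≤ b := by
    intro n
    induction n with
    | zero => intro b _; exact base b
    | succ n ih =>
      intro b hb
      rw [step]
      have h1 : ∀ k ∈ range (M + n + 2), pw k * (if 2 ≤ b + k then
          ∑ a ∈ range M, (a : ℝ) * kp n (b + k - 1) a else 0) ≤
          ((b : ℝ) - 1) * pw k + pw k * k := by
        intro k _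
        have hb1 : (1 : ℝ) ≤ b := by exact_mod_cast hb
        have e : ((b : ℝ) - 1) * pw k + pw k * k = pw k * (b - 1 + k) := by ring
        rw [e]
        refine mul_le_mul_of_nonneg_left ?_ (Ker.pw_nonneg k)
        split_ifs with h
        · refine (ih (b + k - 1) (by omega)).trans (le_of_eq ?_)
          rw [Nat.cast_sub (by omega)]
          push_cast
          ring
        · have : (0 : ℝ) ≤ k := Nat.cast_nonneg k
          linarith
      refine (sum_le_sum h1).trans ?_
      rw [sum_add_distrib, ← mul_sum]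
      have hb1 : (0 : ℝ) ≤ (b : ℝ) - 1 := by
        have : (1 : ℝ) ≤ b := by exact_mod_cast hb
        linarith
      have h2 := mul_le_mul_of_nonneg_left (Ker.sum_pw (M + n + 2)) hb1
      have h3 := Ker.sum_pw_mul (M + n + 2)
      linarith
  rcases Nat.eq_zero_or_pos b with rfl | hb
  · cases n with
    | zero =>
      have := base 0
      simp only [Nat.cast_zero] at this ⊢
      linarith
    | succ n =>
      rw [step]
      have h1 : ∀ k ∈ range (M + n + 2), pw k * (if 2 ≤ 0 + k then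
          ∑ a ∈ range M, (a : ℝ) * kp n (0 + k - 1) a else 0) ≤ pw k * k := by
        intro k _
        refine mul_le_mul_of_nonneg_left ?_ (Ker.pw_nonneg k)
        split_ifs with h
        · refine (pos n (0 + k - 1) (by omega)).trans ?_
          exact_mod_cast (by omega : 0 + k - 1 ≤ k)
        · exact Nat.cast_nonneg k
      refine (sum_le_sum h1).trans ?_
      have h3 := Ker.sum_pw_mul (M + n + 2)
      simp only [Nat.cast_zero]
      linarith
  · have := pos n b hb
    linarith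

namespace Ker

theorem hg_eq (a : ℕ) : hg a = Real.exp a * (1 / √(2 * π) - ∑ i ∈ range a, hg i * fp a i) := by
  rw [hg, Finset.sum_range (fun i => hg i * fp a i)]

theorem hg_zero : hg 0 = 1 / √(2 * π) := by
  rw [hg_eq]
  simp

end Ker

theorem kp_tendsto (b a : ℕ) (hb : 1 ≤ b) (ha : 1 ≤ a) :
    Tendsto (fun n : ℕ => (n : ℝ) ^ (3 / 2 : ℝ) * kp n b a) atTop (𝓝 (b * hg a)) := by
  induction a using Nat.strong_induction_on with
  | _ a ih =>
    -- the identity
    have h1 : ∀ n : ℕ, kp n b a = Real.exp a * (fp (n + a) b - ∑ i ∈ range a, kp n b i * fp a i) := by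
      intro n
      have h2 := kp_fp n b a ha hb
      have h3 : ∑ i ∈ Icc 1 a, kp n b i * fp a i = ∑ i ∈ range (a + 1), kp n b i * fp a i := by
        refine sum_subset (fun i hi => ?_) fun i hi hi2 => ?_
        · rw [mem_Icc] at hi
          rw [mem_range]
          omega
        · rw [mem_range] at hi
          rw [mem_Icc] at hi2
          have : i = 0 := by omega
          rw [this, Ker.fp_zero, mul_zero]
      rw [h3, sum_range_succ, fp_self a ha] at h2
      have h4 : fp (n + a) b - ∑ i ∈ range a, kp n b i * fp a i =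
          kp n b a * Real.exp (-(a : ℝ)) := by linarith
      rw [h4, mul_comm (kp n b a), ← mul_assoc, ← Real.exp_add]
      simp
    have h5 : ∀ i ∈ range a, Tendsto (fun n : ℕ => ((n : ℝ) ^ (3 / 2 : ℝ) * kp n b i) * fp a i)
        atTop (𝓝 ((b * hg i) * fp a i)) := by
      intro i hi
      rw [mem_range] at hi
      rcases Nat.eq_zero_or_pos i with rfl | hi0
      · rw [Ker.fp_zero]
        simp
      · exact (ih i hi hi0).mul_const _
    have h6 : Tendsto (fun n : ℕ => Real.exp a * ((n : ℝ) ^ (3 / 2 : ℝ) * fp (n + a) b -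
        ∑ i ∈ range a, ((n : ℝ) ^ (3 / 2 : ℝ) * kp n b i) * fp a i)) atTop
        (𝓝 (Real.exp a * (b / √(2 * π) - ∑ i ∈ range a, (b * hg i) * fp a i))) :=
      ((fp_tendsto b a).sub (tendsto_finsetSum _ h5)).const_mul _
    have h7 : Real.exp a * (b / √(2 * π) - ∑ i ∈ range a, (b * hg i) * fp a i) = b * hg a := by
      rw [Ker.hg_eq a]
      have : ∑ i ∈ range a, (b * hg i) * fp a i = b * ∑ i ∈ range a, hg i * fp a i := by
        rw [mul_sum]
        exact sum_congr rfl fun i _ => by ring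
      rw [this]
      ring
    rw [h7] at h6
    refine h6.congr fun n => ?_
    rw [h1 n]
    have : ∑ i ∈ range a, ((n : ℝ) ^ (3 / 2 : ℝ) * kp n b i) * fp a i =
        (n : ℝ) ^ (3 / 2 : ℝ) * ∑ i ∈ range a, kp n b i * fp a i := by
      rw [mul_sum]
      exact sum_congr rfl fun i _ => by ring
    rw [this]
    ring

theorem hg_nonneg (a : ℕ) : 0 ≤ hg a := by
  rcases Nat.eq_zero_or_pos a with rfl | ha
  · rw [Ker.hg_zero]
    positivity
  · have h := kp_tendsto 1 a le_rfl ha
    simp only [Nat.cast_one, one_mul] at h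
    exact ge_of_tendsto' h fun n => mul_nonneg (by positivity) (kp_nonneg _ _ _)

theorem hg_le : ∃ C : ℝ, ∀ a : ℕ, hg a ≤ C * (a + 1) ^ 2 := by
  obtain ⟨C, hC, hk⟩ := kp_le
  refine ⟨2 * C + 1, fun a => ?_⟩
  rcases Nat.eq_zero_or_pos a with rfl | ha
  · rw [Ker.hg_zero]
    simp only [Nat.cast_zero, zero_add, one_pow, mul_one]
    have h1 : 1 ≤ √(2 * π) := by
      rw [Real.one_le_sqrt]
      have := Real.pi_gt_three
      linarith
    have h2 : 1 / √(2 * π) ≤ 1 := by
      rw [div_le_one (by positivity)]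
      exact h1
    linarith
  · have h := kp_tendsto 1 a le_rfl ha
    simp only [Nat.cast_one, one_mul] at h
    refine le_of_tendsto' h fun n => ?_
    have h1 := hk n 1 a
    have h2 : (n : ℝ) ^ (3 / 2 : ℝ) ≤ ((n : ℝ) + 1) ^ (3 / 2 : ℝ) :=
      Real.rpow_le_rpow (Nat.cast_nonneg n) (by linarith) (by norm_num)
    have h3 : (0 : ℝ) < ((n : ℝ) + 1) ^ (3 / 2 : ℝ) := by positivity
    calc (n : ℝ) ^ (3 / 2 : ℝ) * kp n 1 a ≤ ((n : ℝ) + 1) ^ (3 / 2 : ℝ) *
          (C * ((1 : ℕ) + 1) * (a + 1) ^ 2 / ((n : ℝ) + 1) ^ (3 / 2 : ℝ)) :=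
          mul_le_mul h2 h1 (kp_nonneg _ _ _) h3.le
      _ = C * ((1 : ℕ) + 1) * (a + 1) ^ 2 := by field_simp
      _ ≤ (2 * C + 1) * (a + 1) ^ 2 := by
          refine mul_le_mul_of_nonneg_right ?_ (by positivity)
          push_cast
          linarith

end Pool.Agent.EN
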