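import Mathlib
import Pool.Agent.Lib.MP_ec0ede_nt_EN.Defs1

set_option autoImplicit false

/-!
# MP_ec0ede_nt, project EN: sums over paths and the kernels
-/

noncomputable section

namespace Pool.Agent.EN

open Real Filter Topology Finset

/-! ### auxiliary lemmas -/

namespace Path

theorem pw_pos (k : ℕ) : 0 < pw k := by
  unfold pw
  positivity

theorem wt_nonneg {L : ℕ} (ν : Fin L → ℕ) : 0 ≤ wt ν :=
  Finset.prod_nonneg fun _ _ => (pw_pos _).le

theorem tsum_pw : ∑' k, ENNReal.ofReal (pw k) = 1 := by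
  have h : HasSum pw 1 := by
    have h1 := (NormedSpace.expSeries_div_hasSum_exp (1 : ℝ)).mul_left (Real.exp (-1))
    rw [← Real.exp_eq_exp_ℝ, ← Real.exp_add] at h1
    simp only [neg_add_cancel, Real.exp_zero, one_pow] at h1
    have h2 : pw = fun k : ℕ => Real.exp (-1) * (1 / (k.factorial : ℝ)) := by
      funext k
      unfold pw
      ring
    rw [h2]
    exact h1
  rw [← ENNReal.ofReal_tsum_of_nonneg (fun k => (pw_pos k).le) h.summable, h.tsum_eq,
    ENNReal.ofReal_one]


theorem PW_const_mul {L : ℕ} (a : ENNReal) (F : (Fin L → ℕ) → ENNReal) :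
    PW L (fun ν => a * F ν) = a * PW L F := by
  unfold PW
  rw [← ENNReal.tsum_mul_left]
  refine tsum_congr fun ν => ?_
  ring

theorem PW_zero {L : ℕ} : PW L (fun _ => 0) = 0 := by
  unfold PW
  simp

theorem PW_nil (F : (Fin 0 → ℕ) → ENNReal) : PW 0 F = F Fin.elim0 := by
  unfold PW
  rw [tsum_eq_single Fin.elim0]
  · unfold wt
    simp
  · intro ν hν
    exact absurd (Subsingleton.elim _ _) hν

theorem PW_cons (n : ℕ) (F : (Fin (n + 1) → ℕ) → ENNReal) :
    PW (n + 1) F = ∑' k, ENNReal.ofReal (pw k) *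
      PW n (fun ν' => F (Fin.cons (α := fun _ => ℕ) k ν')) := by
  unfold PW
  rw [← (Fin.consEquiv fun _ : Fin (n + 1) => ℕ).tsum_eq, ENNReal.tsum_prod']
  refine tsum_congr fun k => ?_
  rw [← ENNReal.tsum_mul_left]
  refine tsum_congr fun ν' => ?_
  have h : wt (Fin.cons (α := fun _ => ℕ) k ν') = pw k * wt ν' := by
    unfold wt
    rw [Fin.prod_univ_succ]
    simp
  change ENNReal.ofReal (wt (Fin.cons (α := fun _ => ℕ) k ν')) *
    F (Fin.cons (α := fun _ => ℕ) k ν') = _
  rw [h, ENNReal.ofReal_mul (pw_pos k).le]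
  ring

/-- the tuples of length `m + n` -/
def appE (m n : ℕ) : (Fin m → ℕ) × (Fin n → ℕ) ≃ (Fin (m + n) → ℕ) where
  toFun p := Fin.append p.1 p.2
  invFun f := (fun i => f (Fin.castAdd n i), fun i => f (Fin.natAdd m i))
  left_inv p := by
    ext i
    · simp
    · simp
  right_inv f := by
    ext i
    refine Fin.addCases (fun j => ?_) (fun j => ?_) i
    · simp
    · simp

theorem wt_append {m n : ℕ} (ν : Fin m → ℕ) (ν' : Fin n → ℕ) :
    wt (Fin.append ν ν') = wt ν * wt ν' := by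
  unfold wt
  rw [Fin.prod_univ_add]
  simp

theorem kpw_succ (t : ℝ) (n b a : ℕ) : kpw t (n + 1) b a = ∑ k ∈ range (a + n + 2),
    pw k * Real.exp (t * k) * (if 2 ≤ b + k then kpw (t / 2) n (b + k - 1) a else 0) := rfl

theorem kpw_nonneg (t : ℝ) (n b a : ℕ) : 0 ≤ kpw t n b a := by
  induction n generalizing t b with
  | zero =>
    unfold kpw
    split_ifs <;> norm_num
  | succ n ih =>
    unfold kpw
    refine Finset.sum_nonneg fun k _ => ?_
    refine mul_nonneg (mul_nonneg (pw_pos k).le (Real.exp_pos _).le) ?_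
    split_ifs
    · exact ih _ _
    · exact le_rfl

theorem kpw_eq_zero (t : ℝ) {n b a : ℕ} (h : a + n < b) : kpw t n b a = 0 := by
  induction n generalizing t b with
  | zero =>
    unfold kpw
    rw [if_neg (by omega)]
  | succ n ih =>
    unfold kpw
    refine Finset.sum_eq_zero fun k _ => ?_
    split_ifs
    · rw [ih (t / 2) (by omega), mul_zero]
    · rw [mul_zero]

theorem cnt_zero {L : ℕ} (ν : Fin L → ℕ) : cnt ν 0 = 0 := by
  unfold cnt
  simp

theorem X_zero {L : ℕ} (ν : Fin L → ℕ) : X ν 0 = 0 := by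
  unfold X
  rw [cnt_zero]
  simp

theorem cnt_cons {n : ℕ} (k : ℕ) (ν : Fin n → ℕ) (j : ℕ) :
    cnt (Fin.cons (α := fun _ => ℕ) k ν) (j + 1) = k + cnt ν j := by
  unfold cnt
  rw [Fin.sum_univ_succ]
  simp

theorem X_cons {n : ℕ} (k : ℕ) (ν : Fin n → ℕ) (j : ℕ) :
    X (Fin.cons (α := fun _ => ℕ) k ν) (j + 1) = 1 - k + X ν j := by
  unfold X
  rw [cnt_cons]
  push_cast
  ring

/-- the weight of a path read forward -/
def W {n : ℕ} (ν : Fin n → ℕ) : ℝ := ∑ i, (ν i : ℝ) / 2 ^ (i : ℕ)

theorem W_cons {n : ℕ} (k : ℕ) (ν : Fin n → ℕ) :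
    W (Fin.cons (α := fun _ => ℕ) k ν) = k + W ν / 2 := by
  unfold W
  rw [Fin.sum_univ_succ, Finset.sum_div]
  simp only [Fin.cons_zero, Fin.cons_succ, Fin.val_zero, pow_zero, div_one, Fin.val_succ]
  congr 1
  refine Finset.sum_congr rfl fun i _ => ?_
  rw [pow_succ]
  field_simp

theorem forward (t : ℝ) (n b a : ℕ) :
    PW n (fun ν => if (∀ i, 1 ≤ i → i ≤ n → 1 ≤ (b : ℤ) - X ν i) ∧ (b : ℤ) - X ν n = a then
      ENNReal.ofReal (Real.exp (t * W ν)) else 0) = ENNReal.ofReal (kpw t n b a) := by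
  induction n generalizing t b with
  | zero =>
    rw [PW_nil, X_zero]
    unfold kpw
    by_cases h : b = a
    · rw [if_pos ⟨fun i h1 h2 => absurd h2 (by omega), by simp [h]⟩, if_pos h]
      unfold W
      simp
    · rw [if_neg, if_neg h, ENNReal.ofReal_zero]
      rintro ⟨_, h1⟩
      apply h
      have : (b : ℤ) = a := by linarith
      exact_mod_cast this
  | succ n ih =>
    rw [PW_cons]
    have key : ∀ k : ℕ, PW n (fun ν' =>
        if (∀ i, 1 ≤ i → i ≤ n + 1 → 1 ≤ (b : ℤ) - X (Fin.cons (α := fun _ => ℕ) k ν') i) ∧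
          (b : ℤ) - X (Fin.cons (α := fun _ => ℕ) k ν') (n + 1) = a then
          ENNReal.ofReal (Real.exp (t * W (Fin.cons (α := fun _ => ℕ) k ν'))) else 0) =
        ENNReal.ofReal (Real.exp (t * k) *
          (if 2 ≤ b + k then kpw (t / 2) n (b + k - 1) a else 0)) := by
      intro k
      by_cases h2 : 2 ≤ b + k
      · rw [if_pos h2, ENNReal.ofReal_mul (Real.exp_pos _).le, ← ih (t / 2) (b + k - 1),
          ← PW_const_mul]
        congr 1
        funext ν'
        have hb : (((b + k - 1 : ℕ)) : ℤ) = b + k - 1 := by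
          rw [Nat.cast_sub (by omega)]
          push_cast
          ring
        have hiff : ((∀ i, 1 ≤ i → i ≤ n + 1 →
            1 ≤ (b : ℤ) - X (Fin.cons (α := fun _ => ℕ) k ν') i) ∧
            (b : ℤ) - X (Fin.cons (α := fun _ => ℕ) k ν') (n + 1) = a) ↔
            ((∀ i, 1 ≤ i → i ≤ n → 1 ≤ (((b + k - 1 : ℕ)) : ℤ) - X ν' i) ∧
            (((b + k - 1 : ℕ)) : ℤ) - X ν' n = a) := by
          rw [X_cons, hb]
          constructor
          · rintro ⟨h3, h4⟩
            refine ⟨fun i hi1 hi2 => ?_, by linarith⟩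
            have h5 := h3 (i + 1) (by omega) (by omega)
            rw [X_cons] at h5
            linarith
          · rintro ⟨h3, h4⟩
            refine ⟨fun i hi1 hi2 => ?_, by linarith⟩
            obtain ⟨j, rfl⟩ : ∃ j, i = j + 1 := ⟨i - 1, by omega⟩
            rw [X_cons]
            rcases Nat.eq_zero_or_pos j with rfl | hj
            · rw [X_zero]
              have : (2 : ℤ) ≤ b + k := by exact_mod_cast h2
              linarith
            · have h5 := h3 j hj (by omega)
              linarith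
        by_cases hc : ((∀ i, 1 ≤ i → i ≤ n → 1 ≤ (((b + k - 1 : ℕ)) : ℤ) - X ν' i) ∧
            (((b + k - 1 : ℕ)) : ℤ) - X ν' n = a)
        · rw [if_pos (hiff.2 hc), if_pos hc, ← ENNReal.ofReal_mul (Real.exp_pos _).le,
            ← Real.exp_add, W_cons]
          congr 2
          ring
        · rw [if_neg (fun h => hc (hiff.1 h)), if_neg hc, mul_zero]
      · rw [if_neg h2, mul_zero, ENNReal.ofReal_zero]
        refine (congrArg (PW n) ?_).trans (PW_zero (L := n))
        funext ν'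
        rw [if_neg]
        rintro ⟨h3, _⟩
        have h5 := h3 (0 + 1) (by omega) (by omega)
        rw [X_cons, X_zero] at h5
        apply h2
        have : (2 : ℤ) ≤ b + k := by linarith
        exact_mod_cast this
    simp only [key]
    rw [tsum_eq_sum (s := range (a + n + 2))]
    · rw [kpw_succ, ENNReal.ofReal_sum_of_nonneg]
      · refine Finset.sum_congr rfl fun k _ => ?_
        rw [← ENNReal.ofReal_mul (pw_pos k).le, mul_assoc]
      · intro k _
        refine mul_nonneg (mul_nonneg (pw_pos k).le (Real.exp_pos _).le) ?_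
        split_ifs
        · exact kpw_nonneg _ _ _ _
        · exact le_rfl
    · intro k hk
      rw [Finset.mem_range] at hk
      split_ifs
      · rw [kpw_eq_zero (t / 2) (by omega)]
        simp
      · simp

theorem cnt_rev {L : ℕ} (ν : Fin L → ℕ) {j : ℕ} (hj : j ≤ L) :
    cnt (ν ∘ Fin.rev) j + cnt ν (L - j) = cnt ν L := by
  unfold cnt
  have h : ∑ i : Fin L, (if (i : ℕ) < j then (ν ∘ Fin.rev) i else 0) =
      ∑ i : Fin L, (if L - j ≤ (i : ℕ) then ν i else 0) := by
    refine Fintype.sum_equiv Fin.revPerm _ _ fun i => ?_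
    simp only [Fin.revPerm_apply, Function.comp_apply, Fin.val_rev]
    have hi := i.2
    by_cases h1 : (i : ℕ) < j
    · rw [if_pos h1, if_pos (by omega)]
    · rw [if_neg h1, if_neg (by omega)]
  rw [h, ← Finset.sum_add_distrib]
  refine Finset.sum_congr rfl fun i _ => ?_
  have hi := i.2
  by_cases h1 : L - j ≤ (i : ℕ)
  · rw [if_pos h1, if_neg (by omega), if_pos hi, add_zero]
  · rw [if_neg h1, if_pos (by omega), if_pos hi, zero_add]

theorem X_rev {L : ℕ} (ν : Fin L → ℕ) {j : ℕ} (hj : j ≤ L) :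
    X (ν ∘ Fin.rev) j = X ν L - X ν (L - j) := by
  unfold X
  have h1 : ((cnt (ν ∘ Fin.rev) j : ℕ) : ℤ) + (cnt ν (L - j) : ℕ) = (cnt ν L : ℕ) := by
    exact_mod_cast cnt_rev ν hj
  rw [Nat.cast_sub hj]
  linarith

theorem Q_rev {L : ℕ} (ν : Fin L → ℕ) : Q (ν ∘ Fin.rev) L = W ν := by
  unfold Q W
  refine Fintype.sum_equiv Fin.revPerm _ _ fun i => ?_
  simp only [Fin.revPerm_apply, Function.comp_apply, Fin.val_rev]
  have hi := i.2
  rw [if_pos hi]
  have h1 : (2 : ℝ) ^ L = 2 ^ ((i : ℕ) + 1) * 2 ^ (L - ((i : ℕ) + 1)) := by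
    rw [← pow_add]
    congr 1
    omega
  rw [h1]
  have h2 : (2 : ℝ) ^ ((i : ℕ) + 1) ≠ 0 := by positivity
  have h3 : (2 : ℝ) ^ (L - ((i : ℕ) + 1)) ≠ 0 := by positivity
  field_simp

end Path

/-! ### the statements -/

theorem PW_mono {L : ℕ} {F F' : (Fin L → ℕ) → ENNReal} (h : ∀ ν, F ν ≤ F' ν) :
    PW L F ≤ PW L F' := by
  unfold PW
  exact ENNReal.tsum_le_tsum fun ν => mul_le_mul_right (h ν) _

/-- product functions -/
theorem PW_prod (L : ℕ) (f : Fin L → ℕ → ENNReal) :
    PW L (fun ν => ∏ i, f i (ν i)) = ∏ i, ∑' k, ENNReal.ofReal (pw k) * f i k := by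
  induction L with
  | zero =>
    rw [Path.PW_nil]
    simp
  | succ L ih =>
    rw [Path.PW_cons, Fin.prod_univ_succ]
    simp only [Fin.prod_univ_succ, Fin.cons_zero, Fin.cons_succ]
    rw [← ih (fun i => f i.succ), ← ENNReal.tsum_mul_right]
    refine tsum_congr fun k => ?_
    rw [Path.PW_const_mul, mul_assoc]

theorem PW_one (L : ℕ) : PW L (fun _ => 1) = 1 := by
  have h := PW_prod L (fun _ _ => 1)
  simp only [Finset.prod_const_one, mul_one, Path.tsum_pw] at h
  exact h

/-- splitting the levels -/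
theorem PW_append (m n : ℕ) (F : (Fin (m + n) → ℕ) → ENNReal) :
    PW (m + n) F = PW m (fun ν => PW n (fun ν' => F (Fin.append ν ν'))) := by
  unfold PW
  rw [← (Path.appE m n).tsum_eq, ENNReal.tsum_prod']
  refine tsum_congr fun ν => ?_
  rw [← ENNReal.tsum_mul_left]
  refine tsum_congr fun ν' => ?_
  change ENNReal.ofReal (wt (Fin.append ν ν')) * F (Fin.append ν ν') = _
  rw [Path.wt_append, ENNReal.ofReal_mul (Path.wt_nonneg ν)]
  ring

/-- reversing the levels -/
theorem PW_rev (L : ℕ) (F : (Fin L → ℕ) → ENNReal) :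
    PW L F = PW L (fun ν => F (ν ∘ Fin.rev)) := by
  unfold PW
  rw [← (Equiv.arrowCongr (Fin.revPerm (n := L)) (Equiv.refl ℕ)).tsum_eq]
  refine tsum_congr fun ν => ?_
  have h : (Equiv.arrowCongr (Fin.revPerm (n := L)) (Equiv.refl ℕ)) ν = ν ∘ Fin.rev := by
    funext i
    simp [Equiv.arrowCongr]
  rw [h]
  have h2 : wt (ν ∘ Fin.rev) = wt ν := by
    unfold wt
    refine Fintype.prod_equiv Fin.revPerm _ _ fun i => ?_
    simp
  rw [h2]

theorem X_append_left {m n : ℕ} (ν : Fin m → ℕ) (ν' : Fin n → ℕ) {j : ℕ} (hj : j ≤ m) :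
    X (Fin.append ν ν') j = X ν j := by
  have h : cnt (Fin.append ν ν') j = cnt ν j := by
    unfold cnt
    rw [Fin.sum_univ_add]
    simp only [Fin.val_castAdd, Fin.append_left, Fin.val_natAdd, Fin.append_right]
    have h1 : ∑ i : Fin n, (if m + (i : ℕ) < j then ν' i else 0) = 0 :=
      Finset.sum_eq_zero fun i _ => if_neg (by omega)
    rw [h1, add_zero]
  unfold X
  rw [h]

theorem X_append_right {m n : ℕ} (ν : Fin m → ℕ) (ν' : Fin n → ℕ) (j : ℕ) :
    X (Fin.append ν ν') (m + j) = X ν m + X ν' j := by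
  have h : cnt (Fin.append ν ν') (m + j) = cnt ν m + cnt ν' j := by
    unfold cnt
    rw [Fin.sum_univ_add]
    simp only [Fin.val_castAdd, Fin.append_left, Fin.val_natAdd, Fin.append_right]
    congr 1
    · refine Finset.sum_congr rfl fun i _ => ?_
      have hi := i.2
      rw [if_pos (by omega), if_pos hi]
    · refine Finset.sum_congr rfl fun i _ => ?_
      simp only [add_lt_add_iff_left]
  unfold X
  rw [h]
  push_cast
  ring

theorem Q_append_left {m n : ℕ} (ν : Fin m → ℕ) (ν' : Fin n → ℕ) {j : ℕ} (hj : j ≤ m) :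
    Q (Fin.append ν ν') j = Q ν j := by
  unfold Q
  rw [Fin.sum_univ_add]
  simp only [Fin.val_castAdd, Fin.append_left, Fin.val_natAdd, Fin.append_right]
  have h1 : ∑ i : Fin n, (if m + (i : ℕ) < j then (ν' i : ℝ) * 2 ^ (m + (i : ℕ) + 1) / 2 ^ j
      else 0) = 0 := Finset.sum_eq_zero fun i _ => if_neg (by omega)
  rw [h1, add_zero]

theorem Q_append_right {m n : ℕ} (ν : Fin m → ℕ) (ν' : Fin n → ℕ) (j : ℕ) :
    Q (Fin.append ν ν') (m + j) = Q ν m / 2 ^ j + Q ν' j := by
  unfold Q
  rw [Fin.sum_univ_add]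
  simp only [Fin.val_castAdd, Fin.append_left, Fin.val_natAdd, Fin.append_right]
  congr 1
  · rw [Finset.sum_div]
    refine Finset.sum_congr rfl fun i _ => ?_
    have hi := i.2
    rw [if_pos (by omega), if_pos hi, pow_add 2 m j, div_div]
  · refine Finset.sum_congr rfl fun i _ => ?_
    simp only [add_lt_add_iff_left]
    split_ifs with h1
    · have h2 : (2 : ℝ) ^ (m + (i : ℕ) + 1) = 2 ^ m * 2 ^ ((i : ℕ) + 1) := by
        rw [← pow_add]
        congr 1
      rw [h2, pow_add 2 m j]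
      have h3 : (2 : ℝ) ^ m ≠ 0 := by positivity
      field_simp
    · rfl

/-- the path measure between two heights above a barrier, weighted by `exp (t * Q)` -/
theorem path_kernel (t : ℝ) (n : ℕ) (x w c : ℤ) (hx : -c ≤ x) (hw : -c ≤ w) :
    PW n (fun ν => if (∀ j ≤ n, -c ≤ x + X ν j) ∧ x + X ν n = w then
      ENNReal.ofReal (Real.exp (t * Q ν n)) else 0) =
    ENNReal.ofReal (kpw t n (w + c + 1).toNat (x + c + 1).toNat) := by
  rw [PW_rev, ← Path.forward]
  congr 1
  funext ν
  have hb : (((w + c + 1).toNat : ℕ) : ℤ) = w + c + 1 := Int.toNat_of_nonneg (by linarith)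
  have ha : (((x + c + 1).toNat : ℕ) : ℤ) = x + c + 1 := Int.toNat_of_nonneg (by linarith)
  have hn : X (ν ∘ Fin.rev) n = X ν n := by
    rw [Path.X_rev ν le_rfl, Nat.sub_self, Path.X_zero, sub_zero]
  rw [Path.Q_rev, hb, ha, hn]
  refine if_congr ?_ rfl rfl
  constructor
  · rintro ⟨h1, h2⟩
    refine ⟨fun i hi1 hi2 => ?_, by linarith⟩
    have h3 := h1 (n - i) (by omega)
    rw [Path.X_rev ν (by omega), show n - (n - i) = i by omega] at h3
    linarith
  · rintro ⟨h1, h2⟩
    refine ⟨fun j hj => ?_, by linarith⟩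
    rw [Path.X_rev ν hj]
    rcases Nat.eq_zero_or_pos (n - j) with h3 | h3
    · rw [h3, Path.X_zero]
      linarith
    · have h4 := h1 (n - j) h3 (by omega)
      linarith

/-- the same with a strict barrier before the end, which is the first minimum -/
theorem path_kernel_min (t : ℝ) (n : ℕ) (a : ℕ) :
    PW n (fun ν => if (∀ j < n, X ν n < X ν j) ∧ X ν n = -(a : ℤ) then
      ENNReal.ofReal (Real.exp (t * Q ν n)) else 0) =
    ENNReal.ofReal (kpw t n 0 a) := by
  rw [PW_rev, ← Path.forward]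
  congr 1
  funext ν
  have hn : X (ν ∘ Fin.rev) n = X ν n := by
    rw [Path.X_rev ν le_rfl, Nat.sub_self, Path.X_zero, sub_zero]
  rw [Path.Q_rev, hn]
  refine if_congr ?_ rfl rfl
  push_cast
  constructor
  · rintro ⟨h1, h2⟩
    refine ⟨fun i hi1 hi2 => ?_, by linarith⟩
    have h3 := h1 (n - i) (by omega)
    rw [Path.X_rev ν (by omega), show n - (n - i) = i by omega] at h3
    linarith
  · rintro ⟨h1, h2⟩
    refine ⟨fun j hj => ?_, by linarith⟩
    rw [Path.X_rev ν hj.le]
    have h4 := h1 (n - j) (by omega) (by omega)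
    linarith

end Pool.Agent.EN
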