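import Mathlib
import Pool.Agent.Lib.MP_ec0ede_nt_EN.Defs4
import Pool.Agent.Lib.MP_ec0ede_nt_EN.Path
import Pool.Agent.Lib.MP_ec0ede_nt_EN.Ker

set_option autoImplicit false

/-!
# MP_ec0ede_nt, project EN: summing over the middle block
-/

noncomputable section

namespace Pool.Agent.EN

open Real Filter Topology Finset

namespace Blk

theorem zz_pos : 0 < zz := by
  unfold zz
  have := Real.log_pos (show (1 : ℝ) < 2 by norm_num)
  positivity

theorem wt_pos {L : ℕ} (ν : Fin L → ℕ) : 0 < wt ν :=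
  Finset.prod_pos fun _ _ => Path.pw_pos _

theorem zz_prod {L : ℕ} (ν : Fin L → ℕ) : zz ^ (X ν L) = ∏ i, (zz * (zz⁻¹) ^ (ν i)) := by
  have h1 : cnt ν L = ∑ i, ν i := by
    unfold cnt
    exact Finset.sum_congr rfl fun i _ => if_pos i.2
  unfold X
  rw [h1, zpow_sub₀ zz_pos.ne', zpow_natCast, zpow_natCast, Finset.prod_mul_distrib,
    Finset.prod_const, Finset.card_univ, Fintype.card_fin, Finset.prod_pow_eq_pow_sum, inv_pow,
    div_eq_mul_inv]

theorem PW_zz (L : ℕ) : PW L (fun ν => ENNReal.ofReal (zz ^ (X ν L))) ≠ ⊤ := by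
  have h1 : (fun ν : Fin L → ℕ => ENNReal.ofReal (zz ^ (X ν L))) =
      fun ν => ∏ i, ENNReal.ofReal (zz * (zz⁻¹) ^ (ν i)) := by
    funext ν
    rw [zz_prod, ENNReal.ofReal_prod_of_nonneg]
    intro i _
    have := zz_pos
    positivity
  rw [h1, PW_prod L (fun _ k => ENNReal.ofReal (zz * (zz⁻¹) ^ k))]
  apply ENNReal.prod_ne_top
  intro i _
  have h2 : Summable (fun k : ℕ => pw k * (zz * (zz⁻¹) ^ k)) := by
    have h3 := (Real.summable_pow_div_factorial (zz⁻¹)).mul_left (Real.exp (-1) * zz)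
    refine h3.congr fun k => ?_
    unfold pw
    ring
  have h4 : (fun k : ℕ => ENNReal.ofReal (pw k) * ENNReal.ofReal (zz * (zz⁻¹) ^ k)) =
      fun k => ENNReal.ofReal (pw k * (zz * (zz⁻¹) ^ k)) := by
    funext k
    rw [ENNReal.ofReal_mul (Path.pw_pos k).le]
  rw [h4]
  exact h2.tsum_ofReal_ne_top

theorem ZS_PW1 {L : ℕ} (F : (Fin L → ℕ) → ℝ) (h0 : ∀ ν, 0 ≤ F ν) (hF : ∀ ν, F ν ≤ 1) :
    ENNReal.ofReal (ZS L F) = PW L (fun ν => ENNReal.ofReal (zz ^ (X ν L) * F ν)) := by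
  have hz : ∀ ν : Fin L → ℕ, 0 ≤ zz ^ (X ν L) := fun ν => (zpow_pos zz_pos _).le
  have h1 : PW L (fun ν => ENNReal.ofReal (zz ^ (X ν L) * F ν)) ≠ ⊤ := by
    refine ne_top_of_le_ne_top (PW_zz L) (PW_mono fun ν => ?_)
    apply ENNReal.ofReal_le_ofReal
    have := mul_le_mul_of_nonneg_left (hF ν) (hz ν)
    linarith
  have h2 : ∀ ν : Fin L → ℕ, ENNReal.ofReal (wt ν) * ENNReal.ofReal (zz ^ (X ν L) * F ν) =
      ENNReal.ofReal (wt ν * zz ^ (X ν L) * F ν) := by
    intro ν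
    rw [← ENNReal.ofReal_mul (wt_pos ν).le, mul_assoc]
  unfold PW at h1 ⊢
  rw [tsum_congr h2] at h1 ⊢
  have hnn : ∀ ν : Fin L → ℕ, 0 ≤ wt ν * zz ^ (X ν L) * F ν := fun ν =>
    mul_nonneg (mul_nonneg (wt_pos ν).le (hz ν)) (h0 ν)
  have h3 : Summable (fun ν : Fin L → ℕ => wt ν * zz ^ (X ν L) * F ν) := by
    have := ENNReal.summable_toReal h1
    refine this.congr fun ν => ?_
    rw [ENNReal.toReal_ofReal (hnn ν)]
  unfold ZS
  rw [ENNReal.ofReal_tsum_of_nonneg hnn h3]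

/-- the event for the top block entered at height `w` -/
def evA (c1 c2 : ℕ) (w : ℤ) {s : ℕ} (νA : Fin s → ℕ) : Prop :=
  (∀ j ≤ s, -(c1 : ℤ) ≤ w + X νA j) ∧ w + X νA s ≤ c2

theorem E0_append {K n s : ℕ} (c1 c2 : ℕ) (νC : Fin K → ℕ) (νB : Fin n → ℕ) (νA : Fin s → ℕ) :
    E0 c1 c2 (Fin.append νC (Fin.append νB νA)) ↔
      (∀ j ≤ K, -(c1 : ℤ) ≤ X νC j) ∧ (∀ j ≤ n, -(c1 : ℤ) ≤ X νC K + X νB j) ∧
      evA c1 c2 (X νC K + X νB n) νA := by
  unfold E0 evA
  constructor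
  · rintro ⟨h1, h2⟩
    refine ⟨fun j hj => ?_, fun j hj => ?_, fun j hj => ?_, ?_⟩
    · have := h1 j (by omega)
      rwa [X_append_left _ _ hj] at this
    · have := h1 (K + j) (by omega)
      rwa [X_append_right, X_append_left _ _ hj] at this
    · have := h1 (K + (n + j)) (by omega)
      rw [X_append_right, X_append_right] at this
      rw [add_assoc]
      exact this
    · rw [X_append_right, X_append_right] at h2
      rw [add_assoc]
      exact h2
  · rintro ⟨h1, h2, h3, h4⟩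
    refine ⟨fun j hj => ?_, ?_⟩
    · by_cases hj1 : j ≤ K
      · rw [X_append_left _ _ hj1]
        exact h1 j hj1
      · obtain ⟨i, rfl⟩ : ∃ i, j = K + i := ⟨j - K, by omega⟩
        rw [X_append_right]
        by_cases hi1 : i ≤ n
        · rw [X_append_left _ _ hi1]
          exact h2 i hi1
        · obtain ⟨k, rfl⟩ : ∃ k, i = n + k := ⟨i - n, by omega⟩
          rw [X_append_right, ← add_assoc]
          exact h3 k (by omega)
    · rw [X_append_right, X_append_right, ← add_assoc]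
      exact h4

theorem kernel (n : ℕ) (x : ℤ) (c1 : ℕ) (hx : -(c1 : ℤ) ≤ x) (b : ℕ) (hb : 1 ≤ b) :
    PW n (fun νB => if (∀ j ≤ n, -(c1 : ℤ) ≤ x + X νB j) ∧ x + X νB n = (b : ℤ) - c1 - 1 then
      1 else 0) = ENNReal.ofReal (kp n b (x + c1 + 1).toNat) := by
  have h := path_kernel 0 n x ((b : ℤ) - c1 - 1) c1 hx (by omega)
  have h2 : ((b : ℤ) - c1 - 1 + c1 + 1).toNat = b := by omega
  rw [h2] at h
  unfold kp
  rw [← h]
  congr 1
  funext νB
  simp

theorem inner (n : ℕ) (x : ℤ) (c1 : ℕ) (hx : -(c1 : ℤ) ≤ x) (G : ℤ → ENNReal)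
    (hG : G (-(c1 : ℤ) - 1) = 0) :
    PW n (fun νB => (if (∀ j ≤ n, -(c1 : ℤ) ≤ x + X νB j) then 1 else 0) * G (x + X νB n)) =
    ∑' b : ℕ, ENNReal.ofReal (kp n b (x + c1 + 1).toNat) * G ((b : ℤ) - c1 - 1) := by
  have h1 : ∀ νB : Fin n → ℕ,
      (if (∀ j ≤ n, -(c1 : ℤ) ≤ x + X νB j) then (1 : ENNReal) else 0) * G (x + X νB n) =
      ∑' b : ℕ, (if (∀ j ≤ n, -(c1 : ℤ) ≤ x + X νB j) ∧ x + X νB n = (b : ℤ) - c1 - 1 then
        (1 : ENNReal) else 0) * G ((b : ℤ) - c1 - 1) := by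
    intro νB
    by_cases h : ∀ j ≤ n, -(c1 : ℤ) ≤ x + X νB j
    · rw [if_pos h, one_mul]
      have hw := h n le_rfl
      rw [tsum_eq_single (x + X νB n + c1 + 1).toNat]
      · have hb : (((x + X νB n + c1 + 1).toNat : ℕ) : ℤ) = x + X νB n + c1 + 1 := by omega
        rw [if_pos ⟨h, by rw [hb]; ring⟩, hb, one_mul]
        congr 1
        ring
      · intro b hb
        rw [if_neg, zero_mul]
        rintro ⟨_, h2⟩
        apply hb
        omega
    · rw [if_neg h, zero_mul]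
      symm
      rw [ENNReal.tsum_eq_zero]
      intro b
      rw [if_neg, zero_mul]
      rintro ⟨h2, _⟩
      exact h h2
  have h2 : PW n (fun νB => (if (∀ j ≤ n, -(c1 : ℤ) ≤ x + X νB j) then (1 : ENNReal) else 0) *
      G (x + X νB n)) = ∑' b : ℕ, PW n (fun νB =>
      (if (∀ j ≤ n, -(c1 : ℤ) ≤ x + X νB j) ∧ x + X νB n = (b : ℤ) - c1 - 1 then
        (1 : ENNReal) else 0) * G ((b : ℤ) - c1 - 1)) := by
    unfold PW
    rw [ENNReal.tsum_comm]
    refine tsum_congr fun νB => ?_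
    rw [ENNReal.tsum_mul_left]
    exact congrArg (fun z => ENNReal.ofReal (wt νB) * z) (h1 νB)
  rw [h2]
  refine tsum_congr fun b => ?_
  rcases Nat.eq_zero_or_pos b with hb | hb
  · subst hb
    have h3 : ((0 : ℕ) : ℤ) - c1 - 1 = -(c1 : ℤ) - 1 := by push_cast; ring
    rw [h3, hG, mul_zero]
    have h4 : (fun νB : Fin n → ℕ =>
      (if (∀ j ≤ n, -(c1 : ℤ) ≤ x + X νB j) ∧ x + X νB n = -(c1 : ℤ) - 1 then
        (1 : ENNReal) else 0) * 0) = fun _ => 0 := by
      funext νB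
      rw [mul_zero]
    rw [h4, Path.PW_zero]
  · rw [← kernel n x c1 hx b hb]
    rw [mul_comm, ← Path.PW_const_mul]
    congr 1
    funext νB
    rw [mul_comm]

end Blk

open Blk in
theorem blk (K n s c1 c2 : ℕ) (H : (Fin K → ℕ) → ℕ → (Fin s → ℕ) → ℝ)
    (h0 : ∀ νC N νA, 0 ≤ H νC N νA) (h1 : ∀ νC N νA, H νC N νA ≤ 1) :
    ZS (K + (n + s)) (fun ν => ind (E0 c1 c2 ν) * H (lo ν) (cnt (lo (hi ν)) n) (hi (hi ν))) =
    ∑' νC : Fin K → ℕ, wt νC * ind (∀ j ≤ K, -(c1 : ℤ) ≤ X νC j) *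
      ∑' b : ℕ, kp n b (X νC K + c1 + 1).toNat *
        ∑' νA : Fin s → ℕ, wt νA *
          ind ((∀ j ≤ s, -(c1 : ℤ) ≤ (b : ℤ) - c1 - 1 + X νA j) ∧
            (b : ℤ) - c1 - 1 + X νA s ≤ c2) *
          zz ^ ((b : ℤ) - c1 - 1 + X νA s) *
          H νC ((n : ℤ) + X νC K - ((b : ℤ) - c1 - 1)).toNat νA := by
  set F : (Fin (K + (n + s)) → ℕ) → ℝ :=
    fun ν => ind (E0 c1 c2 ν) * H (lo ν) (cnt (lo (hi ν)) n) (hi (hi ν)) with hF
  have hF0 : ∀ ν, 0 ≤ F ν := fun ν => mul_nonneg (ind_nonneg _) (h0 _ _ _)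
  have hF1 : ∀ ν, F ν ≤ 1 := fun ν => by
    calc F ν ≤ 1 * 1 := mul_le_mul (ind_le_one _) (h1 _ _ _) (h0 _ _ _) zero_le_one
      _ = 1 := one_mul 1
  -- the terms
  set T : (Fin K → ℕ) → ℕ → (Fin s → ℕ) → ℝ := fun νC b νA => wt νA *
          ind ((∀ j ≤ s, -(c1 : ℤ) ≤ (b : ℤ) - c1 - 1 + X νA j) ∧
            (b : ℤ) - c1 - 1 + X νA s ≤ c2) *
          zz ^ ((b : ℤ) - c1 - 1 + X νA s) *
          H νC ((n : ℤ) + X νC K - ((b : ℤ) - c1 - 1)).toNat νA with hT
  have hT0 : ∀ νC b νA, 0 ≤ T νC b νA := fun νC b νA =>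
    mul_nonneg (mul_nonneg (mul_nonneg (wt_pos _).le (ind_nonneg _)) (zpow_pos zz_pos _).le)
      (h0 _ _ _)
  -- the ENNReal identity
  have key : PW (K + (n + s)) (fun ν => ENNReal.ofReal (zz ^ (X ν (K + (n + s))) * F ν)) =
      ∑' νC : Fin K → ℕ, ENNReal.ofReal (wt νC * ind (∀ j ≤ K, -(c1 : ℤ) ≤ X νC j)) *
        ∑' b : ℕ, ENNReal.ofReal (kp n b (X νC K + c1 + 1).toNat) *
          ∑' νA : Fin s → ℕ, ENNReal.ofReal (T νC b νA) := by
    rw [PW_append]
    unfold PW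
    refine tsum_congr fun νC => ?_
    rw [ENNReal.ofReal_mul (wt_pos νC).le, mul_assoc]
    congr 1
    change PW (n + s) _ = _
    rw [PW_append]
    by_cases hC : ∀ j ≤ K, -(c1 : ℤ) ≤ X νC j
    · rw [ind_of hC, ENNReal.ofReal_one, one_mul]
      set G : ℤ → ENNReal := fun w => PW s (fun νA => ENNReal.ofReal (ind (evA c1 c2 w νA) *
        zz ^ (w + X νA s) * H νC ((n : ℤ) + X νC K - w).toNat νA)) with hG
      have hGz : G (-(c1 : ℤ) - 1) = 0 := by
        rw [hG]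
        have h4 : (fun νA : Fin s → ℕ => ENNReal.ofReal (ind (evA c1 c2 (-(c1 : ℤ) - 1) νA) *
          zz ^ (-(c1 : ℤ) - 1 + X νA s) * H νC ((n : ℤ) + X νC K - (-(c1 : ℤ) - 1)).toNat νA)) =
            fun _ => 0 := by
          funext νA
          rw [ind_not_of, zero_mul, zero_mul, ENNReal.ofReal_zero]
          rintro ⟨h5, _⟩
          have := h5 0 (Nat.zero_le _)
          rw [Path.X_zero] at this
          omega
        show PW s (fun νA : Fin s → ℕ => ENNReal.ofReal (ind (evA c1 c2 (-(c1 : ℤ) - 1) νA) *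
          zz ^ (-(c1 : ℤ) - 1 + X νA s) * H νC ((n : ℤ) + X νC K - (-(c1 : ℤ) - 1)).toNat νA)) = 0
        rw [h4, Path.PW_zero]
      have h5 : (fun νB : Fin n → ℕ => PW s (fun νA => ENNReal.ofReal
          (zz ^ (X (Fin.append νC (Fin.append νB νA)) (K + (n + s))) *
            F (Fin.append νC (Fin.append νB νA))))) =
          fun νB => (if (∀ j ≤ n, -(c1 : ℤ) ≤ X νC K + X νB j) then 1 else 0) *
            G (X νC K + X νB n) := by
        funext νB
        rw [hG]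
        simp only
        rw [← Path.PW_const_mul]
        congr 1
        funext νA
        rw [hF]
        simp only
        rw [lo_append, hi_append, lo_append, hi_append, X_append_right, X_append_right]
        have hcnt : ((n : ℤ) + X νC K - (X νC K + X νB n)).toNat = cnt νB n := by
          unfold X
          omega
        rw [hcnt]
        by_cases hB : ∀ j ≤ n, -(c1 : ℤ) ≤ X νC K + X νB j
        · rw [if_pos hB, one_mul]
          congr 1
          have h6 : ind (E0 c1 c2 (Fin.append νC (Fin.append νB νA))) =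
              ind (evA c1 c2 (X νC K + X νB n) νA) := by
            apply ind_congr
            rw [E0_append]
            tauto
          rw [h6, ← add_assoc]
          ring
        · rw [if_neg hB, zero_mul]
          have h6 : ¬ E0 c1 c2 (Fin.append νC (Fin.append νB νA)) := by
            rw [E0_append]
            tauto
          rw [ind_not_of h6, zero_mul, mul_zero, ENNReal.ofReal_zero]
      rw [h5, inner n (X νC K) c1 (hC K le_rfl) G hGz]
      refine tsum_congr fun b => ?_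
      congr 1
      rw [hG]
      simp only
      unfold PW
      refine tsum_congr fun νA => ?_
      rw [hT]
      simp only
      rw [← ENNReal.ofReal_mul (wt_pos νA).le]
      congr 1
      unfold evA
      ring
    · rw [ind_not_of hC, ENNReal.ofReal_zero, zero_mul]
      have h4 : (fun νB : Fin n → ℕ => PW s (fun νA => ENNReal.ofReal
          (zz ^ (X (Fin.append νC (Fin.append νB νA)) (K + (n + s))) *
            F (Fin.append νC (Fin.append νB νA))))) = fun _ => 0 := by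
        funext νB
        have h5 : (fun νA : Fin s → ℕ => ENNReal.ofReal
          (zz ^ (X (Fin.append νC (Fin.append νB νA)) (K + (n + s))) *
            F (Fin.append νC (Fin.append νB νA)))) = fun _ => 0 := by
          funext νA
          rw [hF]
          simp only
          have h6 : ¬ E0 c1 c2 (Fin.append νC (Fin.append νB νA)) := by
            rw [E0_append]
            tauto
          rw [ind_not_of h6, zero_mul, mul_zero, ENNReal.ofReal_zero]
        rw [h5, Path.PW_zero]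
      rw [h4, Path.PW_zero]
  have hPW := ZS_PW1 F hF0 hF1
  rw [key] at hPW
  have hZ0 : 0 ≤ ZS (K + (n + s)) F := by
    unfold ZS
    exact tsum_nonneg fun ν => mul_nonneg (mul_nonneg (wt_pos _).le (zpow_pos zz_pos _).le) (hF0 ν)
  have hZ : ZS (K + (n + s)) F = (∑' νC : Fin K → ℕ,
      ENNReal.ofReal (wt νC * ind (∀ j ≤ K, -(c1 : ℤ) ≤ X νC j)) *
        ∑' b : ℕ, ENNReal.ofReal (kp n b (X νC K + c1 + 1).toNat) *
          ∑' νA : Fin s → ℕ, ENNReal.ofReal (T νC b νA)).toReal := by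
    rw [← hPW, ENNReal.toReal_ofReal hZ0]
  have hfin : ∀ νC : Fin K → ℕ,
      ENNReal.ofReal (wt νC * ind (∀ j ≤ K, -(c1 : ℤ) ≤ X νC j)) *
        ∑' b : ℕ, ENNReal.ofReal (kp n b (X νC K + c1 + 1).toNat) *
          ∑' νA : Fin s → ℕ, ENNReal.ofReal (T νC b νA) ≠ ⊤ := by
    apply ENNReal.ne_top_of_tsum_ne_top
    rw [← hPW]
    exact ENNReal.ofReal_ne_top
  rw [hZ, ENNReal.tsum_toReal_eq hfin]
  refine tsum_congr fun νC => ?_
  rw [ENNReal.toReal_mul, ENNReal.toReal_ofReal (mul_nonneg (wt_pos _).le (ind_nonneg _))]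
  by_cases hC : ∀ j ≤ K, -(c1 : ℤ) ≤ X νC j
  · congr 1
    have h2 := hfin νC
    rw [ind_of hC, mul_one] at h2
    have h3 : ∑' b : ℕ, ENNReal.ofReal (kp n b (X νC K + c1 + 1).toNat) *
          ∑' νA : Fin s → ℕ, ENNReal.ofReal (T νC b νA) ≠ ⊤ := by
      intro h4
      rw [h4, ENNReal.mul_top] at h2
      · exact h2 rfl
      · rw [Ne, ENNReal.ofReal_eq_zero, not_le]
        exact wt_pos νC
    rw [ENNReal.tsum_toReal_eq (ENNReal.ne_top_of_tsum_ne_top h3)]
    refine tsum_congr fun b => ?_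
    rw [ENNReal.toReal_mul, ENNReal.toReal_ofReal (kp_nonneg _ _ _)]
    congr 1
    rw [ENNReal.tsum_toReal_eq (fun νA => ENNReal.ofReal_ne_top)]
    refine tsum_congr fun νA => ?_
    rw [ENNReal.toReal_ofReal (hT0 _ _ _)]
  · rw [ind_not_of hC, mul_zero, zero_mul, zero_mul]

end Pool.Agent.EN
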