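import Mathlib
import Pool.Agent.Lib.MP_ec0ede_nt_EN.Defs2
import Pool.Agent.Lib.MP_ec0ede_nt_EN.ExB
import Pool.Agent.Lib.MP_ec0ede_nt_EN.LawA

set_option autoImplicit false

/-!
# MP_ec0ede_nt, project EN: splitting the levels
-/

noncomputable section

namespace Pool.Agent.EN

open Real Filter Topology Finset

namespace Spl

theorem jn_idxE {m n : ℕ} {ν : Fin m → ℕ} {ν' : Fin n → ℕ} (τ : Idx ν → ℕ) (τ' : Idx ν' → ℕ)
    (i : Idx ν ⊕ Idx ν') : jn τ τ' (idxE ν ν' i) = Sum.elim τ τ' i := by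
  unfold jn
  rw [Equiv.symm_apply_apply]

theorem lv_left (K : ℕ) {m n : ℕ} (ν : Fin m → ℕ) (ν' : Fin n → ℕ) (i : Idx ν) :
    lv K (Fin.append ν ν') (idxE ν ν' (Sum.inl i)) = lv K ν i := by
  simp [lv, idxE, idxF]

theorem lv_right (K : ℕ) {m n : ℕ} (ν : Fin m → ℕ) (ν' : Fin n → ℕ) (i : Idx ν') :
    lv K (Fin.append ν ν') (idxE ν ν' (Sum.inr i)) = lv (K + m) ν' i := by
  simp [lv, idxE, idxF]
  omega

theorem sz_disjSum {ι κ : Type} (τ : ι → ℕ) (τ' : κ → ℕ) (S : Finset ι) (S' : Finset κ) :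
    sz (Sum.elim τ τ') (S.disjSum S') = sz τ S + sz τ' S' := by
  unfold sz
  rw [Finset.sum_disjSum]
  simp

theorem sz_map {m n : ℕ} {ν : Fin m → ℕ} {ν' : Fin n → ℕ} (τ : Idx ν → ℕ) (τ' : Idx ν' → ℕ)
    (U : Finset (Idx ν ⊕ Idx ν')) :
    sz (jn τ τ') (U.map (idxE ν ν').toEmbedding) = sz (Sum.elim τ τ') U := by
  unfold sz
  rw [Finset.sum_map]
  refine Finset.sum_congr rfl fun i _ => ?_
  rw [Equiv.coe_toEmbedding, jn_idxE]

theorem exists_map {m n : ℕ} {ν : Fin m → ℕ} {ν' : Fin n → ℕ}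
    (S : Finset (Idx (Fin.append ν ν'))) :
    ∃ S1 : Finset (Idx ν), ∃ S2 : Finset (Idx ν'),
      S = (S1.disjSum S2).map (idxE ν ν').toEmbedding := by
  refine ⟨(S.map (idxE ν ν').symm.toEmbedding).toLeft,
    (S.map (idxE ν ν').symm.toEmbedding).toRight, ?_⟩
  rw [Finset.toLeft_disjSum_toRight]
  ext x
  simp

end Spl

open Spl

theorem EX_append (L K : ℕ) {m n : ℕ} (ν : Fin m → ℕ) (ν' : Fin n → ℕ)
    (F : (Idx (Fin.append ν ν') → ℕ) → ℝ) :
    EX L K (Fin.append ν ν') F =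
      EX L K ν (fun τ => EX L (K + m) ν' (fun τ' => F (jn τ τ'))) := by
  have h1 := Ex_equiv (idxE ν ν') (range (bd L)) (fun i => mu (lv K (Fin.append ν ν') i))
    (fun σ => F (fun i => σ ((idxE ν ν').symm i)))
  have h2 : (fun τ : Idx (Fin.append ν ν') → ℕ => F (fun i => τ (idxE ν ν' ((idxE ν ν').symm i))))
      = F := by
    funext τ
    simp only [Equiv.apply_symm_apply]
  have h3 : (fun i => mu (lv K (Fin.append ν ν') (idxE ν ν' i))) =
      Sum.elim (fun i => mu (lv K ν i)) (fun i => mu (lv (K + m) ν' i)) := by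
    funext i
    rcases i with i | i
    · rw [lv_left, Sum.elim_inl]
    · rw [lv_right, Sum.elim_inr]
  rw [h3, Ex_sumType] at h1
  unfold EX
  rw [h2] at h1
  exact h1.symm

theorem EX_indep {L L' K n : ℕ} (ν : Fin n → ℕ) (h : K + n ≤ L) (h' : K + n ≤ L')
    (F : (Idx ν → ℕ) → ℝ) : EX L K ν F = EX L' K ν F := by
  have key : ∀ M : ℕ, K + n ≤ M → EX (K + n) K ν F = EX M K ν F := by
    intro M hM
    unfold EX
    apply Ex_range
    · exact Finset.range_mono (bd_mono hM)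
    · intro i p _ hp
      have h1 : lv K ν i ≤ K + n := by
        unfold lv
        have := i.1.2
        omega
      exact mu_bd h1 (by simpa using hp)
  rw [← key L h, ← key L' h']

theorem sum_jn {m n : ℕ} {ν : Fin m → ℕ} {ν' : Fin n → ℕ} (τ : Idx ν → ℕ) (τ' : Idx ν' → ℕ) :
    ∑ i, Real.log (jn τ τ' i) = ∑ i, Real.log (τ i) + ∑ i, Real.log (τ' i) := by
  rw [← Equiv.sum_comp (idxE ν ν'), Fintype.sum_sum_type]
  simp only [jn_idxE, Sum.elim_inl, Sum.elim_inr]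

theorem mem_TW_jn (f : ℕ) (y : ℝ) {m n : ℕ} {ν : Fin m → ℕ} {ν' : Fin n → ℕ}
    (τ : Idx ν → ℕ) (τ' : Idx ν' → ℕ) : y ∈ TW f (jn τ τ') ↔ 0 < Wn (TW f τ) y τ' := by
  classical
  unfold Wn
  rw [Finset.card_pos]
  constructor
  · rintro ⟨d, hd, S, h1, h2⟩
    obtain ⟨S1, S2, rfl⟩ := exists_map S
    rw [sz_map, sz_disjSum] at h1 h2
    refine ⟨S2, ?_⟩
    rw [Finset.mem_filter]
    exact ⟨Finset.mem_univ _, d, hd, S1, by linarith, by linarith⟩
  · rintro ⟨S2, hS2⟩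
    rw [Finset.mem_filter] at hS2
    obtain ⟨_, d, hd, S1, h1, h2⟩ := hS2
    refine ⟨d, hd, (S1.disjSum S2).map (idxE ν ν').toEmbedding, ?_, ?_⟩
    · rw [sz_map, sz_disjSum]; linarith
    · rw [sz_map, sz_disjSum]; linarith

theorem Inj_jn {f m n : ℕ} {ν : Fin m → ℕ} {ν' : Fin n → ℕ}
    (τ : Idx ν → ℕ) (τ' : Idx ν' → ℕ) (h : Inj f (jn τ τ')) : Inj f τ := by
  obtain ⟨h1, h2⟩ := h
  have e : ∀ i, jn τ τ' (idxE ν ν' (Sum.inl i)) = τ i := fun i => by rw [jn_idxE, Sum.elim_inl]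
  refine ⟨fun i j hij => ?_, fun i => ?_⟩
  · have h3 : jn τ τ' (idxE ν ν' (Sum.inl i)) = jn τ τ' (idxE ν ν' (Sum.inl j)) := by
      rw [e, e, hij]
    exact Sum.inl_injective ((idxE ν ν').injective (h1 h3))
  · rw [← e i]
    exact h2 _

theorem Wn_jn (T : Set ℝ) (y : ℝ) {m n : ℕ} {ν : Fin m → ℕ} {ν' : Fin n → ℕ}
    (τ : Idx ν → ℕ) (τ' : Idx ν' → ℕ) :
    Wn T y (jn τ τ') = Wn T y (Sum.elim τ τ') := by
  unfold Wn
  symm
  refine Finset.card_equiv (idxE ν ν').finsetCongr fun S => ?_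
  simp only [Finset.mem_filter, Finset.mem_univ, true_and, Equiv.finsetCongr_apply]
  rw [sz_map]

theorem card_Idx {n : ℕ} (ν : Fin n → ℕ) : Fintype.card (Idx ν) = cnt ν n := by
  unfold cnt Idx
  rw [Fintype.card_sigma]
  refine Finset.sum_congr rfl fun i _ => ?_
  rw [if_pos i.2, Fintype.card_fin]

theorem TW_eq_UW (f : ℕ) (hf : f ≠ 0) {ι : Type} [Fintype ι] [DecidableEq ι] (τ : ι → ℕ) :
    ∃ Z : Finset ℝ, Z.Nonempty ∧ TW f τ = UW Z ∧
      Z.card ≤ f.divisors.card * 2 ^ Fintype.card ι ∧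
      ∀ q ∈ Z, 0 ≤ q ∧ q ≤ Real.log f + ∑ i, Real.log (τ i) := by
  classical
  refine ⟨(f.divisors ×ˢ (univ : Finset (Finset ι))).image
    (fun p => Real.log p.1 + sz τ p.2), ?_, ?_, ?_, ?_⟩
  · rw [Finset.image_nonempty]
    exact ⟨(1, ∅), by simp [hf]⟩
  · ext t
    constructor
    · rintro ⟨d, hd, S, h1, h2⟩
      refine ⟨Real.log d + sz τ S, ?_, h1, h2⟩
      rw [Finset.mem_image]
      exact ⟨(d, S), by simpa using hd, rfl⟩
    · rintro ⟨q, hq, h1, h2⟩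
      rw [Finset.mem_image] at hq
      obtain ⟨⟨d, S⟩, hd, rfl⟩ := hq
      exact ⟨d, (Finset.mem_product.mp hd).1, S, h1, h2⟩
  · refine Finset.card_image_le.trans ?_
    rw [Finset.card_product, Finset.card_univ, Fintype.card_finset]
  · intro q hq
    rw [Finset.mem_image] at hq
    obtain ⟨⟨d, S⟩, hd, rfl⟩ := hq
    have hd' : d ∈ f.divisors := (Finset.mem_product.mp hd).1
    have hdvd : d ∣ f := Nat.dvd_of_mem_divisors hd'
    have hd0 : 0 < d := Nat.pos_of_mem_divisors hd'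
    have hdf : d ≤ f := Nat.le_of_dvd (Nat.pos_of_ne_zero hf) hdvd
    have a1 : 0 ≤ Real.log d := Real.log_natCast_nonneg d
    have a2 : Real.log d ≤ Real.log f :=
      Real.log_le_log (by exact_mod_cast hd0) (by exact_mod_cast hdf)
    have a3 : 0 ≤ sz τ S := Finset.sum_nonneg fun i _ => Real.log_natCast_nonneg _
    have a4 : sz τ S ≤ ∑ i, Real.log (τ i) :=
      Finset.sum_le_sum_of_subset_of_nonneg (Finset.subset_univ _)
        fun i _ _ => Real.log_natCast_nonneg _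
    exact ⟨by simpa using add_nonneg a1 a3, by simpa using add_le_add a2 a4⟩

end Pool.Agent.EN
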