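import Mathlib
import Pool.Agent.Lib.MP_ec0ede_nt_EN.Defs4
import Pool.Agent.Lib.MP_ec0ede_nt_EN.Path

set_option autoImplicit false

/-!
# MP_ec0ede_nt, project EN, module ZBd: weighted sums over counts
-/

noncomputable section

namespace Pool.Agent.EN

open Real Filter Topology Finset

namespace ZBd

theorem zz_pos : 0 < zz := by
  unfold zz
  have := Real.log_pos (one_lt_two)
  positivity

/-- the total weight of a vector of counts -/
def wz {L : ℕ} (ν : Fin L → ℕ) : ℝ := wt ν * zz ^ (X ν L)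

theorem wz_nonneg {L : ℕ} (ν : Fin L → ℕ) : 0 ≤ wz ν :=
  mul_nonneg (Path.wt_nonneg ν) (zpow_pos zz_pos _).le

theorem cnt_full {L : ℕ} (ν : Fin L → ℕ) : cnt ν L = ∑ i, ν i := by
  unfold cnt
  refine Finset.sum_congr rfl fun i _ => if_pos i.2

theorem zz_pow {L : ℕ} (ν : Fin L → ℕ) :
    zz ^ (X ν L) = ∏ i, (zz * (Real.log 2) ^ (ν i)) := by
  rw [Finset.prod_mul_distrib, Finset.prod_const, Finset.card_univ, Fintype.card_fin,
    Finset.prod_pow_eq_pow_sum, ← cnt_full]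
  unfold X
  rw [zpow_sub₀ zz_pos.ne', zpow_natCast, zpow_natCast, div_eq_mul_inv, ← inv_pow]
  congr 2
  unfold zz
  rw [one_div, inv_inv]

theorem tsum_one : ∑' k, ENNReal.ofReal (pw k) * ENNReal.ofReal (zz * (Real.log 2) ^ k) =
    ENNReal.ofReal ((2 : ℝ) ^ dl) := by
  have hl := Real.log_pos (one_lt_two)
  have h1 : HasSum (fun k : ℕ => pw k * (zz * (Real.log 2) ^ k)) ((2 : ℝ) ^ dl) := by
    have h2 := (NormedSpace.expSeries_div_hasSum_exp (Real.log 2)).mul_left (Real.exp (-1) * zz)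
    rw [← Real.exp_eq_exp_ℝ, Real.exp_log (by norm_num)] at h2
    have h3 : Real.exp (-1) * zz * 2 = (2 : ℝ) ^ dl := by
      rw [Real.rpow_def_of_pos (by norm_num)]
      have h4 : zz = Real.exp (-Real.log (Real.log 2)) := by
        rw [Real.exp_neg, Real.exp_log hl]
        unfold zz
        rw [one_div]
      have h6 : Real.exp (-1) * Real.exp (-Real.log (Real.log 2)) * 2 =
          Real.exp (-1 + -Real.log (Real.log 2) + Real.log 2) := by
        rw [Real.exp_add, Real.exp_add, Real.exp_log (by norm_num : (0:ℝ) < 2)]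
      rw [h4, h6]
      congr 1
      unfold dl
      field_simp
      ring
    rw [h3] at h2
    have h7 : (fun k : ℕ => pw k * (zz * (Real.log 2) ^ k)) =
        fun i : ℕ => Real.exp (-1) * zz * (Real.log 2 ^ i / (i.factorial : ℝ)) := by
      funext k
      unfold pw
      ring
    rw [h7]
    exact h2
  rw [← h1.tsum_eq, ENNReal.ofReal_tsum_of_nonneg _ h1.summable]
  · refine tsum_congr fun k => ?_
    rw [ENNReal.ofReal_mul (Path.pw_pos k).le]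
  · intro k
    exact mul_nonneg (Path.pw_pos k).le (mul_nonneg zz_pos.le (pow_nonneg hl.le _))

theorem tsum_wz (L : ℕ) : ∑' ν : Fin L → ℕ, ENNReal.ofReal (wz ν) =
    ENNReal.ofReal ((2 : ℝ) ^ (dl * L)) := by
  have hl := Real.log_pos (one_lt_two)
  have h1 : ∑' ν : Fin L → ℕ, ENNReal.ofReal (wz ν) =
      PW L (fun ν => ∏ i, ENNReal.ofReal (zz * (Real.log 2) ^ (ν i))) := by
    unfold PW
    refine tsum_congr fun ν => ?_
    unfold wz
    rw [ENNReal.ofReal_mul (Path.wt_nonneg ν), zz_pow, ENNReal.ofReal_prod_of_nonneg]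
    intro i _
    exact mul_nonneg zz_pos.le (pow_nonneg hl.le _)
  rw [h1, PW_prod L (fun _ k => ENNReal.ofReal (zz * (Real.log 2) ^ k))]
  simp only [tsum_one]
  rw [Finset.prod_const, Finset.card_univ, Fintype.card_fin, ← ENNReal.ofReal_pow (by positivity),
    Real.rpow_mul (by norm_num), Real.rpow_natCast]

theorem summable_wz (L : ℕ) : Summable (fun ν : Fin L → ℕ => wz ν) := by
  have h1 : ∑' ν : Fin L → ℕ, ENNReal.ofReal (wz ν) ≠ ⊤ := by
    rw [tsum_wz]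
    exact ENNReal.ofReal_ne_top
  have h2 := ENNReal.summable_toReal h1
  refine h2.congr fun ν => ?_
  rw [ENNReal.toReal_ofReal (wz_nonneg ν)]

end ZBd

theorem wt_append {m n : ℕ} (ν : Fin m → ℕ) (ν' : Fin n → ℕ) :
    wt (Fin.append ν ν') = wt ν * wt ν' := Path.wt_append ν ν'

theorem ZS_summable {L : ℕ} (F : (Fin L → ℕ) → ℝ) (C : ℝ) (h : ∀ ν, |F ν| ≤ C) :
    Summable (fun ν : Fin L → ℕ => wt ν * zz ^ (X ν L) * F ν) := by
  refine Summable.of_norm_bounded ((ZBd.summable_wz L).mul_right C) fun ν => ?_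
  show ‖ZBd.wz ν * F ν‖ ≤ _
  rw [norm_mul, Real.norm_of_nonneg (ZBd.wz_nonneg ν), Real.norm_eq_abs]
  exact mul_le_mul_of_nonneg_left (h ν) (ZBd.wz_nonneg ν)

theorem ZS_one (L : ℕ) : ZS L (fun _ => 1) = (2 : ℝ) ^ (dl * L) := by
  have h1 := ZBd.tsum_wz L
  rw [← ENNReal.ofReal_tsum_of_nonneg ZBd.wz_nonneg (ZBd.summable_wz L),
    ENNReal.ofReal_eq_ofReal_iff (tsum_nonneg ZBd.wz_nonneg) (by positivity)] at h1
  rw [← h1]
  unfold ZS
  refine tsum_congr fun ν => ?_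
  rw [mul_one]
  rfl

theorem ZS_mono {L : ℕ} (F F' : (Fin L → ℕ) → ℝ) (C : ℝ) (hF : ∀ ν, |F ν| ≤ C)
    (hF' : ∀ ν, |F' ν| ≤ C) (h : ∀ ν, F ν ≤ F' ν) : ZS L F ≤ ZS L F' := by
  unfold ZS
  exact (ZS_summable F C hF).tsum_le_tsum
    (fun ν => mul_le_mul_of_nonneg_left (h ν) (ZBd.wz_nonneg ν)) (ZS_summable F' C hF')

theorem ZS_mul {L : ℕ} (c : ℝ) (F : (Fin L → ℕ) → ℝ) :
    ZS L (fun ν => c * F ν) = c * ZS L F := by
  unfold ZS
  rw [← tsum_mul_left]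
  refine tsum_congr fun ν => ?_
  ring

theorem ZS_add {L : ℕ} (F F' : (Fin L → ℕ) → ℝ) (C : ℝ) (hF : ∀ ν, |F ν| ≤ C)
    (hF' : ∀ ν, |F' ν| ≤ C) : ZS L (fun ν => F ν + F' ν) = ZS L F + ZS L F' := by
  unfold ZS
  rw [← (ZS_summable F C hF).tsum_add (ZS_summable F' C hF')]
  refine tsum_congr fun ν => ?_
  ring

theorem ZS_dist {L : ℕ} (F F' H : (Fin L → ℕ) → ℝ) (C : ℝ) (hF : ∀ ν, |F ν| ≤ C)
    (hF' : ∀ ν, |F' ν| ≤ C) (hH : ∀ ν, |H ν| ≤ C) (h : ∀ ν, |F ν - F' ν| ≤ H ν) :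
    |ZS L F - ZS L F'| ≤ ZS L H := by
  have h1 : ZS L F - ZS L F' = ∑' ν : Fin L → ℕ, ZBd.wz ν * (F ν - F' ν) := by
    unfold ZS
    rw [← (ZS_summable F C hF).tsum_sub (ZS_summable F' C hF')]
    refine tsum_congr fun ν => ?_
    unfold ZBd.wz
    ring
  have h2 : Summable fun ν : Fin L → ℕ => ‖ZBd.wz ν * (F ν - F' ν)‖ := by
    refine Summable.of_nonneg_of_le (fun _ => norm_nonneg _) (fun ν => ?_) (ZS_summable H C hH)
    rw [norm_mul, Real.norm_of_nonneg (ZBd.wz_nonneg ν), Real.norm_eq_abs]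
    exact mul_le_mul_of_nonneg_left (h ν) (ZBd.wz_nonneg ν)
  rw [h1, ← Real.norm_eq_abs]
  refine (norm_tsum_le_tsum_norm h2).trans ?_
  unfold ZS
  refine h2.tsum_le_tsum (fun ν => ?_) (ZS_summable H C hH)
  rw [norm_mul, Real.norm_of_nonneg (ZBd.wz_nonneg ν), Real.norm_eq_abs]
  exact mul_le_mul_of_nonneg_left (h ν) (ZBd.wz_nonneg ν)

theorem ZS_PW {L : ℕ} (F : (Fin L → ℕ) → ℝ) (C : ℝ) (h0 : ∀ ν, 0 ≤ F ν) (hF : ∀ ν, F ν ≤ C) :
    ENNReal.ofReal (ZS L F) = PW L (fun ν => ENNReal.ofReal (zz ^ (X ν L) * F ν)) := by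
  unfold ZS PW
  have h1 : ∀ ν : Fin L → ℕ, 0 ≤ wt ν * zz ^ (X ν L) * F ν :=
    fun ν => mul_nonneg (ZBd.wz_nonneg ν) (h0 ν)
  rw [ENNReal.ofReal_tsum_of_nonneg h1
    (ZS_summable F C fun ν => by rw [abs_of_nonneg (h0 ν)]; exact hF ν)]
  refine tsum_congr fun ν => ?_
  rw [mul_assoc, ENNReal.ofReal_mul (Path.wt_nonneg ν)]

theorem ZS_le {L : ℕ} (F : (Fin L → ℕ) → ℝ) (C B : ℝ) (h0 : ∀ ν, 0 ≤ F ν) (hF : ∀ ν, F ν ≤ C)
    (hB : 0 ≤ B) (h : PW L (fun ν => ENNReal.ofReal (zz ^ (X ν L) * F ν)) ≤ ENNReal.ofReal B) :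
    ZS L F ≤ B := by
  rw [← ZS_PW F C h0 hF] at h
  exact (ENNReal.ofReal_le_ofReal_iff hB).1 h

end Pool.Agent.EN
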