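import Mathlib
import Pool.Agent.Lib.MP_ec0ede_nt_EN.Defs4
import Pool.Agent.Lib.MP_ec0ede_nt_EN.Ker
import Pool.Agent.Lib.MP_ec0ede_nt_EN.LawA
import Pool.Agent.Lib.MP_ec0ede_nt_EN.ExB
import Pool.Agent.Lib.MP_ec0ede_nt_EN.Spl
import Pool.Agent.Lib.MP_ec0ede_nt_EN.ZBd
import Pool.Agent.Lib.MP_ec0ede_nt_EN.Blk
import Pool.Agent.Lib.MP_ec0ede_nt_EN.AbM
import Pool.Agent.Lib.MP_ec0ede_nt_EN.ALim

set_option autoImplicit false

/-!
# MP_ec0ede_nt, project EN, module MP: the main limit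
-/

noncomputable section

namespace Pool.Agent.EN

open Real Filter Topology Finset

namespace MP

/-! ### Elementary facts -/

theorem zz_pos : 0 < zz := by
  unfold zz
  have := Real.log_pos one_lt_two
  positivity

theorem pw_nonneg (k : ℕ) : 0 ≤ pw k := by unfold pw; positivity

theorem wt_nonneg {L : ℕ} (ν : Fin L → ℕ) : 0 ≤ wt ν := by
  unfold wt
  exact Finset.prod_nonneg (fun i _ => pw_nonneg _)

theorem vol_nonneg (T : Set ℝ) : 0 ≤ vol T := ENNReal.toReal_nonneg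

theorem RA_nonneg {ι : Type} [Fintype ι] (a : ℕ) (y : ℝ) (τ : ι → ℕ) : 0 ≤ RA a y τ := by
  unfold RA
  exact Finset.sum_nonneg (fun _ _ => tent_nonneg _)

theorem X_le {L : ℕ} (ν : Fin L → ℕ) (j : ℕ) : X ν j ≤ j := by
  unfold X
  have : (0 : ℤ) ≤ (cnt ν j : ℤ) := Int.natCast_nonneg _
  linarith

/-! ### The expectations -/

theorem EX_nonneg (L K : ℕ) {n : ℕ} (ν : Fin n → ℕ) (F : (Idx ν → ℕ) → ℝ) (h : ∀ τ, 0 ≤ F τ) :
    0 ≤ EX L K ν F :=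
  Ex_nonneg _ _ (fun _ _ => mu_nonneg _ _) _ (fun τ _ => h τ)

theorem EX_mono (L K : ℕ) {n : ℕ} (ν : Fin n → ℕ) (F F' : (Idx ν → ℕ) → ℝ)
    (h : ∀ τ, F τ ≤ F' τ) : EX L K ν F ≤ EX L K ν F' :=
  Ex_mono _ _ (fun _ _ => mu_nonneg _ _) _ _ (fun τ _ => h τ)

theorem EX_const {L K n : ℕ} (ν : Fin n → ℕ) (h : K + n ≤ L) (c : ℝ) :
    EX L K ν (fun _ => c) = c := by
  refine Ex_const _ _ (fun i => mu_mass ?_ ?_) c
  · unfold lv; omega
  · unfold lv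
    have := i.1.2
    omega

theorem EX_le_one {L K n : ℕ} (ν : Fin n → ℕ) (h : K + n ≤ L) (F : (Idx ν → ℕ) → ℝ)
    (hF : ∀ τ, F τ ≤ 1) : EX L K ν F ≤ 1 := by
  rw [← EX_const (L := L) (K := K) ν h 1]
  exact EX_mono _ _ _ _ _ hF

theorem EX_dist (L K : ℕ) {n : ℕ} (ν : Fin n → ℕ) (F F' H : (Idx ν → ℕ) → ℝ)
    (h : ∀ τ, |F τ - F' τ| ≤ H τ) : |EX L K ν F - EX L K ν F'| ≤ EX L K ν H := by
  have h1 : EX L K ν F - EX L K ν F' = EX L K ν (fun τ => F τ - F' τ) :=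
    (Ex_sub _ _ F F').symm
  rw [h1]
  refine le_trans (Ex_abs_le _ _ (fun _ _ => mu_nonneg _ _) _) ?_
  exact EX_mono _ _ _ _ _ h

theorem EX_mul (L K : ℕ) {n : ℕ} (ν : Fin n → ℕ) (c : ℝ) (F : (Idx ν → ℕ) → ℝ) :
    EX L K ν (fun τ => c * F τ) = c * EX L K ν F := Ex_mul _ _ c F

theorem one_sub_exp_mem {x : ℝ} (hx : 0 ≤ x) :
    0 ≤ 1 - Real.exp (-x) ∧ 1 - Real.exp (-x) ≤ 1 := by
  constructor
  · have : Real.exp (-x) ≤ 1 := Real.exp_le_one_iff.mpr (by linarith)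
    linarith
  · have := Real.exp_pos (-x)
    linarith

theorem PrC_inner (K n s : ℕ) (y : ℝ) (N : ℕ) (νA : Fin s → ℕ) (v : ℝ) (hv : 0 ≤ v) :
    0 ≤ EX (K + (n + s)) (K + n) νA (fun τ' =>
      1 - Real.exp (-(RA (K + n) y τ' / 2 ^ (K + n) * 2 ^ N * v))) ∧
    EX (K + (n + s)) (K + n) νA (fun τ' =>
      1 - Real.exp (-(RA (K + n) y τ' / 2 ^ (K + n) * 2 ^ N * v))) ≤ 1 := by
  have hx : ∀ τ' : Idx νA → ℕ, 0 ≤ RA (K + n) y τ' / 2 ^ (K + n) * 2 ^ N * v := by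
    intro τ'
    have := RA_nonneg (K + n) y τ'
    positivity
  exact ⟨EX_nonneg _ _ _ _ (fun τ' => (one_sub_exp_mem (hx τ')).1),
    EX_le_one _ (by omega) _ (fun τ' => (one_sub_exp_mem (hx τ')).2)⟩

theorem PrC_nonneg (f K n s : ℕ) (y : ℝ) (νC : Fin K → ℕ) (N : ℕ) (νA : Fin s → ℕ) :
    0 ≤ PrC f K n s y νC N νA := by
  unfold PrC
  refine EX_nonneg _ _ _ _ (fun τ => mul_nonneg (ind_nonneg _) ?_)
  exact (PrC_inner K n s y N νA _ (vol_nonneg _)).1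

theorem PrC_le_one (f K n s : ℕ) (y : ℝ) (νC : Fin K → ℕ) (N : ℕ) (νA : Fin s → ℕ) :
    PrC f K n s y νC N νA ≤ 1 := by
  unfold PrC
  refine EX_le_one _ (by omega) _ (fun τ => ?_)
  exact mul_le_one₀ (ind_le_one _) (PrC_inner K n s y N νA _ (vol_nonneg _)).1
    (PrC_inner K n s y N νA _ (vol_nonneg _)).2

/-! ### The pieces -/

/-- the weight of the top block -/
def gB (c1 c2 s : ℕ) (b : ℕ) (ν : Fin s → ℕ) : ℝ :=
  wt ν * ind ((∀ j ≤ s, -(c1 : ℤ) ≤ (b : ℤ) - c1 - 1 + X ν j) ∧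
    (b : ℤ) - c1 - 1 + X ν s ≤ c2) * zz ^ ((b : ℤ) - c1 - 1 + X ν s)

/-- the weight of the low block -/
def uC (c1 K : ℕ) (ν : Fin K → ℕ) : ℝ := wt ν * ind (∀ j ≤ K, -(c1 : ℤ) ≤ X ν j)

/-- the height at which the walk enters the middle block -/
def aC (c1 K : ℕ) (ν : Fin K → ℕ) : ℕ := (X ν K + c1 + 1).toNat

/-- the rate of the exponential -/
def rr (K c1 f b : ℕ) (νC : Fin K → ℕ) (τ : Idx νC → ℕ) : ℝ :=
  vol (TW f τ) / 2 ^ cnt νC K * (2 : ℝ) ^ (-((b : ℤ) - c1 - 1))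

/-- the limit of the probabilities -/
def EE (K s c1 f b : ℕ) (νC : Fin K → ℕ) (νA : Fin s → ℕ) (Y : ℝ) : ℝ :=
  EX K 0 νC (fun τ => ind (Inj f τ) * EAinf νA Y (rr K c1 f b νC τ))

theorem gB_nonneg (c1 c2 s b : ℕ) (ν : Fin s → ℕ) : 0 ≤ gB c1 c2 s b ν := by
  unfold gB
  have := zz_pos
  have := wt_nonneg ν
  have := ind_nonneg ((∀ j ≤ s, -(c1 : ℤ) ≤ (b : ℤ) - c1 - 1 + X ν j) ∧
    (b : ℤ) - c1 - 1 + X ν s ≤ c2)
  positivity

theorem gB_zero (c1 c2 s : ℕ) (ν : Fin s → ℕ) : gB c1 c2 s 0 ν = 0 := by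
  unfold gB
  rw [ind_not_of]
  · ring
  · rintro ⟨h, -⟩
    have := h 0 (Nat.zero_le _)
    have h2 := X_le ν 0
    push_cast at this h2
    linarith

theorem uC_nonneg (c1 K : ℕ) (ν : Fin K → ℕ) : 0 ≤ uC c1 K ν :=
  mul_nonneg (wt_nonneg _) (ind_nonneg _)

theorem uC_ne {c1 K : ℕ} {ν : Fin K → ℕ} (h : uC c1 K ν ≠ 0) : 1 ≤ aC c1 K ν := by
  by_contra hc
  apply h
  unfold uC
  rw [ind_not_of, mul_zero]
  intro h2
  have h3 := h2 K le_rfl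
  apply hc
  unfold aC
  omega

theorem aC_le (c1 K : ℕ) (ν : Fin K → ℕ) : aC c1 K ν ≤ K + c1 + 1 := by
  unfold aC
  have := X_le ν K
  omega

theorem rr_nonneg (K c1 f b : ℕ) (νC : Fin K → ℕ) (τ : Idx νC → ℕ) :
    0 ≤ rr K c1 f b νC τ := by
  unfold rr
  have := vol_nonneg (TW f τ)
  positivity

theorem EE_nonneg (K s c1 f b : ℕ) (νC : Fin K → ℕ) (νA : Fin s → ℕ) (Y : ℝ) :
    0 ≤ EE K s c1 f b νC νA Y :=
  EX_nonneg _ _ _ _ (fun τ => mul_nonneg (ind_nonneg _)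
    (EAinf_nonneg _ _ _ (rr_nonneg K c1 f b νC τ)))

theorem EE_le_one (K s c1 f b : ℕ) (νC : Fin K → ℕ) (νA : Fin s → ℕ) (Y : ℝ) :
    EE K s c1 f b νC νA Y ≤ 1 :=
  EX_le_one _ (by omega) _ (fun τ => mul_le_one₀ (ind_le_one _)
    (EAinf_nonneg _ _ _ (rr_nonneg K c1 f b νC τ)) (EAinf_le_one _ _ _ (rr_nonneg K c1 f b νC τ)))

/-! ### Summability -/

theorem uC_summable (c1 K : ℕ) : Summable (uC c1 K) := by
  have h := ZS_summable (L := K)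
    (fun ν => zz ^ (-X ν K) * ind (∀ j ≤ K, -(c1 : ℤ) ≤ X ν j)) (zz ^ (c1 : ℤ)) (by
      intro ν
      have hz := zz_pos
      have h1 : (1 : ℝ) ≤ zz := by
        unfold zz
        rw [le_div_iff₀ (Real.log_pos one_lt_two)]
        have := Real.log_two_lt_d9
        linarith
      rw [abs_of_nonneg (mul_nonneg (by positivity) (ind_nonneg _))]
      by_cases hp : ∀ j ≤ K, -(c1 : ℤ) ≤ X ν j
      · rw [ind_of hp, mul_one]
        exact zpow_le_zpow_right₀ h1 (by have := hp K le_rfl; linarith)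
      · rw [ind_not_of hp, mul_zero]
        positivity)
  refine h.congr (fun ν => ?_)
  unfold uC
  have hz := zz_pos.ne'
  rw [zpow_neg]
  field_simp

theorem w_summable (K s c1 c2 : ℕ) :
    Summable (fun i : (Fin K → ℕ) × (ℕ × (Fin s → ℕ)) =>
      uC c1 K i.1 * (((i.2.1 : ℝ) + 1) * gB c1 c2 s i.2.1 i.2.2)) := by
  have h2 : Summable (fun j : ℕ × (Fin s → ℕ) => ((j.1 : ℝ) + 1) * gB c1 c2 s j.1 j.2) :=
    top_sum c1 c2 s
  exact Summable.mul_of_nonneg (uC_summable c1 K) h2 (fun ν => uC_nonneg c1 K ν)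
    (fun j => mul_nonneg (by positivity) (gB_nonneg _ _ _ _ _))

/-! ### Bounds and limits of the kernels -/

/-- the scale -/
def sc (K n s : ℕ) : ℝ := (((K + (n + s) : ℕ) : ℝ) + 1) ^ (3 / 2 : ℝ)

theorem sc_nonneg (K n s : ℕ) : 0 ≤ sc K n s := by unfold sc; positivity

theorem sc_le (K n s : ℕ) :
    sc K n s ≤ ((K : ℝ) + s + 1) ^ (3 / 2 : ℝ) * ((n : ℝ) + 1) ^ (3 / 2 : ℝ) := by
  unfold sc
  rw [← Real.mul_rpow (by positivity) (by positivity)]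
  refine Real.rpow_le_rpow (by positivity) ?_ (by norm_num)
  push_cast
  have h1 : (0 : ℝ) ≤ K := Nat.cast_nonneg _
  have h2 : (0 : ℝ) ≤ s := Nat.cast_nonneg _
  have h3 : (0 : ℝ) ≤ n := Nat.cast_nonneg _
  nlinarith [mul_nonneg h1 h3, mul_nonneg h2 h3]

theorem cn_le (K s c1 : ℕ) : ∃ C : ℝ, 0 ≤ C ∧ ∀ (n b : ℕ) (νC : Fin K → ℕ),
    sc K n s * kp n b (aC c1 K νC) ≤ C * ((b : ℝ) + 1) := by
  obtain ⟨C, hC, h⟩ := kp_le
  refine ⟨((K : ℝ) + s + 1) ^ (3 / 2 : ℝ) * (C * ((K : ℝ) + c1 + 2) ^ 2), by positivity, ?_⟩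
  intro n b νC
  have ha : ((aC c1 K νC : ℕ) : ℝ) ≤ (K : ℝ) + c1 + 1 := by
    have := aC_le c1 K νC
    exact_mod_cast this
  have ha0 : (0 : ℝ) ≤ (aC c1 K νC : ℕ) := Nat.cast_nonneg _
  have hn : (0 : ℝ) < ((n : ℝ) + 1) ^ (3 / 2 : ℝ) := by positivity
  have h2 : (((aC c1 K νC : ℕ) : ℝ) + 1) ^ 2 ≤ ((K : ℝ) + c1 + 2) ^ 2 :=
    pow_le_pow_left₀ (by linarith) (by linarith) 2
  have h1 := h n b (aC c1 K νC)
  have h3 : kp n b (aC c1 K νC) * ((n : ℝ) + 1) ^ (3 / 2 : ℝ) ≤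
      C * ((K : ℝ) + c1 + 2) ^ 2 * ((b : ℝ) + 1) := by
    rw [le_div_iff₀ hn] at h1
    refine le_trans h1 ?_
    have hb : (0 : ℝ) ≤ C * ((b : ℝ) + 1) := by positivity
    nlinarith [mul_le_mul_of_nonneg_left h2 hb]
  have hk := kp_nonneg n b (aC c1 K νC)
  have hs := sc_le K n s
  calc sc K n s * kp n b (aC c1 K νC)
      ≤ ((K : ℝ) + s + 1) ^ (3 / 2 : ℝ) * ((n : ℝ) + 1) ^ (3 / 2 : ℝ) *
          kp n b (aC c1 K νC) := mul_le_mul_of_nonneg_right hs hk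
    _ = ((K : ℝ) + s + 1) ^ (3 / 2 : ℝ) *
          (kp n b (aC c1 K νC) * ((n : ℝ) + 1) ^ (3 / 2 : ℝ)) := by ring
    _ ≤ ((K : ℝ) + s + 1) ^ (3 / 2 : ℝ) * (C * ((K : ℝ) + c1 + 2) ^ 2 * ((b : ℝ) + 1)) :=
        mul_le_mul_of_nonneg_left h3 (by positivity)
    _ = _ := by ring

theorem pn_le (K c1 : ℕ) : ∃ C : ℝ, 0 ≤ C ∧ ∀ (b : ℕ) (νC : Fin K → ℕ),
    (b : ℝ) * hg (aC c1 K νC) ≤ C * ((b : ℝ) + 1) := by
  obtain ⟨C, h⟩ := hg_le
  refine ⟨|C| * ((K : ℝ) + c1 + 2) ^ 2, by positivity, ?_⟩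
  intro b νC
  have ha : ((aC c1 K νC : ℕ) : ℝ) ≤ (K : ℝ) + c1 + 1 := by
    have := aC_le c1 K νC
    exact_mod_cast this
  have ha0 : (0 : ℝ) ≤ (aC c1 K νC : ℕ) := Nat.cast_nonneg _
  have h2 : (((aC c1 K νC : ℕ) : ℝ) + 1) ^ 2 ≤ ((K : ℝ) + c1 + 2) ^ 2 :=
    pow_le_pow_left₀ (by linarith) (by linarith) 2
  have h3 : hg (aC c1 K νC) ≤ |C| * ((K : ℝ) + c1 + 2) ^ 2 := by
    refine le_trans (h _) ?_
    refine le_trans (mul_le_mul_of_nonneg_right (le_abs_self C) (by positivity)) ?_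
    exact mul_le_mul_of_nonneg_left h2 (abs_nonneg C)
  have hb : (0 : ℝ) ≤ b := Nat.cast_nonneg _
  have h4 := hg_nonneg (aC c1 K νC)
  calc (b : ℝ) * hg (aC c1 K νC) ≤ b * (|C| * ((K : ℝ) + c1 + 2) ^ 2) :=
        mul_le_mul_of_nonneg_left h3 hb
    _ ≤ _ := by
        have : 0 ≤ |C| * ((K : ℝ) + c1 + 2) ^ 2 := by positivity
        nlinarith

theorem cn_tendsto (K s b a : ℕ) (hb : 1 ≤ b) (ha : 1 ≤ a) :
    Tendsto (fun n : ℕ => sc K n s * kp n b a) atTop (𝓝 (b * hg a)) := by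
  have h1 := kp_tendsto b a hb ha
  have h2 : Tendsto (fun n : ℕ => ((((K + (n + s) : ℕ) : ℝ) + 1) / n) ^ (3 / 2 : ℝ)) atTop
      (𝓝 (1 ^ (3 / 2 : ℝ))) := by
    refine Tendsto.rpow_const ?_ (Or.inl one_ne_zero)
    have h3 : Tendsto (fun n : ℕ => 1 + ((K : ℝ) + s + 1) / n) atTop (𝓝 (1 + 0)) :=
      tendsto_const_nhds.add (tendsto_const_div_atTop_nhds_zero_nat _)
    rw [add_zero] at h3
    refine h3.congr' ?_
    filter_upwards [eventually_ge_atTop 1] with n hn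
    have hn' : (n : ℝ) ≠ 0 := by positivity
    push_cast
    field_simp
    ring
  rw [Real.one_rpow] at h2
  have h3 := h2.mul h1
  rw [one_mul] at h3
  refine h3.congr' ?_
  filter_upwards [eventually_ge_atTop 1] with n hn
  have hn' : (0 : ℝ) < n := by positivity
  have h4 : ((((K + (n + s) : ℕ) : ℝ) + 1) / n) ^ (3 / 2 : ℝ) * (n : ℝ) ^ (3 / 2 : ℝ) =
      sc K n s := by
    unfold sc
    rw [← Real.mul_rpow (by positivity) (by positivity), div_mul_cancel₀ _ hn'.ne']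
  rw [← mul_assoc, h4]

/-! ### The distance of the probabilities -/

theorem rate_eq (K n s c1 f b : ℕ) (νC : Fin K → ℕ) (y : ℝ) (νA : Fin s → ℕ)
    (hN : (b : ℤ) - c1 - 1 ≤ n + X νC K) (τ : Idx νC → ℕ) (τ' : Idx νA → ℕ) :
    RA (K + n) y τ' / 2 ^ (K + n) *
      2 ^ ((n : ℤ) + X νC K - ((b : ℤ) - c1 - 1)).toNat * vol (TW f τ) =
    rr K c1 f b νC τ * RA (K + n) y τ' := by
  have h2 : (2 : ℝ) ≠ 0 := two_ne_zero
  have h1 : (2 : ℝ) ^ ((n : ℤ) + X νC K - ((b : ℤ) - c1 - 1)).toNat =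
      (2 : ℝ) ^ (K + n) * ((2 : ℝ) ^ (-((b : ℤ) - c1 - 1)) / 2 ^ cnt νC K) := by
    have h3 : ((((n : ℤ) + X νC K - ((b : ℤ) - c1 - 1)).toNat : ℕ) : ℤ) =
        (n : ℤ) + X νC K - ((b : ℤ) - c1 - 1) := Int.toNat_of_nonneg (by linarith)
    rw [← zpow_natCast, h3, ← zpow_natCast, ← zpow_natCast, ← zpow_sub₀ h2, ← zpow_add₀ h2]
    congr 1
    unfold X
    push_cast
    ring
  rw [h1]
  unfold rr
  have h4 : (2 : ℝ) ^ (K + n) ≠ 0 := by positivity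
  have h5 : (2 : ℝ) ^ cnt νC K ≠ 0 := by positivity
  field_simp

theorem key_dist {s : ℕ} (νA : Fin s → ℕ) (e : ℕ → ℝ)
    (he : ∀ (a : ℕ) (Y r : ℝ), 0 ≤ r →
    |EX (a + s) a νA (fun τ => 1 - Real.exp (-(r * RA a (Y * 2 ^ (a + s)) τ))) - EAinf νA Y r| ≤
      e a * r) (K n c1 f b : ℕ) (νC : Fin K → ℕ)
    (hN : (b : ℤ) - c1 - 1 ≤ n + X νC K) (Y : ℝ) :
    |PrC f K n s (Y * 2 ^ (K + (n + s))) νC
      ((n : ℤ) + X νC K - ((b : ℤ) - c1 - 1)).toNat νA - EE K s c1 f b νC νA Y| ≤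
    e (K + n) * EX K 0 νC (rr K c1 f b νC) := by
  unfold PrC EE
  rw [EX_indep (L := K + (n + s)) (L' := K) νC (by omega) (by omega), ← EX_mul]
  refine EX_dist _ _ _ _ _ _ (fun τ => ?_)
  rw [← mul_sub, abs_mul, abs_of_nonneg (ind_nonneg _)]
  have h1 := he (K + n) Y (rr K c1 f b νC τ) (rr_nonneg K c1 f b νC τ)
  have h2 : (fun τ' : Idx νA → ℕ => 1 - Real.exp (-(RA (K + n) (Y * 2 ^ (K + (n + s))) τ' /
      2 ^ (K + n) * 2 ^ ((n : ℤ) + X νC K - ((b : ℤ) - c1 - 1)).toNat * vol (TW f τ)))) =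
      (fun τ' : Idx νA → ℕ => 1 - Real.exp (-(rr K c1 f b νC τ *
        RA (K + n) (Y * 2 ^ (K + n + s)) τ'))) := by
    funext τ'
    rw [rate_eq K n s c1 f b νC _ νA hN τ τ', Nat.add_assoc]
  rw [h2, ← Nat.add_assoc]
  refine le_trans ?_ h1
  exact mul_le_of_le_one_left (abs_nonneg _) (ind_le_one _)

/-! ### The sums as sums over one index -/

/-- the terms of the sum over the paths -/
def TT (K n s c1 c2 f : ℕ) (Y : ℝ) (i : (Fin K → ℕ) × (ℕ × (Fin s → ℕ))) : ℝ :=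
  uC c1 K i.1 * (sc K n s * kp n i.2.1 (aC c1 K i.1) * (gB c1 c2 s i.2.1 i.2.2 *
    PrC f K n s (Y * 2 ^ (K + (n + s))) i.1
      ((n : ℤ) + X i.1 K - ((i.2.1 : ℤ) - c1 - 1)).toNat i.2.2))

/-- the terms of the limit -/
def PP (K s c1 c2 f : ℕ) (Y : ℝ) (i : (Fin K → ℕ) × (ℕ × (Fin s → ℕ))) : ℝ :=
  uC c1 K i.1 * ((i.2.1 : ℝ) * hg (aC c1 K i.1) * (gB c1 c2 s i.2.1 i.2.2 *
    EE K s c1 f i.2.1 i.1 i.2.2 Y))

theorem TT_summable (K n s c1 c2 f : ℕ) (Y : ℝ) : Summable (TT K n s c1 c2 f Y) := by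
  obtain ⟨C, hC, h⟩ := cn_le K s c1
  refine Summable.of_nonneg_of_le (fun i => ?_) (fun i => ?_)
    ((w_summable K s c1 c2).mul_left C)
  · unfold TT
    exact mul_nonneg (uC_nonneg _ _ _) (mul_nonneg (mul_nonneg (sc_nonneg _ _ _)
      (kp_nonneg _ _ _)) (mul_nonneg (gB_nonneg _ _ _ _ _) (PrC_nonneg _ _ _ _ _ _ _ _)))
  · unfold TT
    have h1 := h n i.2.1 i.1
    have h2 := uC_nonneg c1 K i.1
    have h3 := gB_nonneg c1 c2 s i.2.1 i.2.2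
    have h4 := PrC_le_one f K n s (Y * 2 ^ (K + (n + s))) i.1
      ((n : ℤ) + X i.1 K - ((i.2.1 : ℤ) - c1 - 1)).toNat i.2.2
    have h5 := mul_nonneg (sc_nonneg K n s) (kp_nonneg n i.2.1 (aC c1 K i.1))
    calc _ ≤ uC c1 K i.1 * (C * ((i.2.1 : ℝ) + 1) * (gB c1 c2 s i.2.1 i.2.2 * 1)) := by
          refine mul_le_mul_of_nonneg_left ?_ h2
          exact mul_le_mul h1 (mul_le_mul_of_nonneg_left h4 h3)
            (mul_nonneg h3 (PrC_nonneg _ _ _ _ _ _ _ _)) (by positivity)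
      _ = _ := by ring

theorem PP_summable (K s c1 c2 f : ℕ) (Y : ℝ) : Summable (PP K s c1 c2 f Y) := by
  obtain ⟨C, hC, h⟩ := pn_le K c1
  refine Summable.of_nonneg_of_le (fun i => ?_) (fun i => ?_)
    ((w_summable K s c1 c2).mul_left C)
  · unfold PP
    exact mul_nonneg (uC_nonneg _ _ _) (mul_nonneg (mul_nonneg (Nat.cast_nonneg _)
      (hg_nonneg _)) (mul_nonneg (gB_nonneg _ _ _ _ _) (EE_nonneg _ _ _ _ _ _ _ _)))
  · unfold PP
    have h1 := h i.2.1 i.1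
    have h2 := uC_nonneg c1 K i.1
    have h3 := gB_nonneg c1 c2 s i.2.1 i.2.2
    have h4 := EE_le_one K s c1 f i.2.1 i.1 i.2.2 Y
    calc _ ≤ uC c1 K i.1 * (C * ((i.2.1 : ℝ) + 1) * (gB c1 c2 s i.2.1 i.2.2 * 1)) := by
          refine mul_le_mul_of_nonneg_left ?_ h2
          exact mul_le_mul h1 (mul_le_mul_of_nonneg_left h4 h3)
            (mul_nonneg h3 (EE_nonneg _ _ _ _ _ _ _ _)) (by positivity)
      _ = _ := by ring

theorem main_A (K n s c1 c2 f : ℕ) (Y : ℝ) :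
    (((K + (n + s) : ℕ) : ℝ) + 1) ^ (3 / 2 : ℝ) *
      ZS (K + (n + s)) (fun ν => ind (E0 c1 c2 ν) *
        PrC f K n s (Y * 2 ^ (K + (n + s))) (lo ν) (cnt (lo (hi ν)) n) (hi (hi ν))) =
    ∑' i, TT K n s c1 c2 f Y i := by
  rw [blk K n s c1 c2 (PrC f K n s (Y * 2 ^ (K + (n + s)))) (PrC_nonneg _ _ _ _ _)
    (PrC_le_one _ _ _ _ _)]
  have hs := TT_summable K n s c1 c2 f Y
  rw [Summable.tsum_prod hs, ← tsum_mul_left]
  refine tsum_congr (fun νC => ?_)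
  have hs1 := hs.prod_factor νC
  rw [Summable.tsum_prod hs1]
  change sc K n s * (uC c1 K νC * _) = _
  rw [← mul_assoc, ← tsum_mul_left]
  refine tsum_congr (fun b => ?_)
  rw [← mul_assoc, ← tsum_mul_left]
  refine tsum_congr (fun νA => ?_)
  simp only [TT, gB, uC, aC]
  ring

theorem main_B (K s c1 c2 f : ℕ) (Y : ℝ) :
    Psi K s c1 c2 f Y = ∑' i, PP K s c1 c2 f Y i := by
  have hs := PP_summable K s c1 c2 f Y
  rw [Summable.tsum_prod hs]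
  unfold Psi
  refine tsum_congr (fun νC => ?_)
  change uC c1 K νC * hg (aC c1 K νC) * _ = _
  -- the inner sum
  have hE : EX K 0 νC (fun τ => ind (Inj f τ) *
      psA c1 c2 s Y (vol (TW f τ) / 2 ^ cnt νC K)) =
      ∑' j : ℕ × (Fin s → ℕ), (j.1 : ℝ) * (gB c1 c2 s j.1 j.2 *
        EE K s c1 f j.1 νC j.2 Y) := by
    have hsum : ∀ τ : Idx νC → ℕ, Summable (fun j : ℕ × (Fin s → ℕ) =>
        (j.1 : ℝ) * (gB c1 c2 s j.1 j.2 * EAinf j.2 Y (rr K c1 f j.1 νC τ))) := by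
      intro τ
      refine Summable.of_nonneg_of_le (fun j => ?_) (fun j => ?_) (top_sum c1 c2 s)
      · exact mul_nonneg (Nat.cast_nonneg _) (mul_nonneg (gB_nonneg _ _ _ _ _)
          (EAinf_nonneg _ _ _ (rr_nonneg _ _ _ _ _ _)))
      · change _ ≤ ((j.1 : ℝ) + 1) * gB c1 c2 s j.1 j.2
        have h1 := gB_nonneg c1 c2 s j.1 j.2
        have h2 := EAinf_le_one j.2 Y (rr K c1 f j.1 νC τ) (rr_nonneg _ _ _ _ _ _)
        have h3 := EAinf_nonneg j.2 Y (rr K c1 f j.1 νC τ) (rr_nonneg _ _ _ _ _ _)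
        have h4 : (0 : ℝ) ≤ j.1 := Nat.cast_nonneg _
        exact mul_le_mul (by linarith) (mul_le_of_le_one_right h1 h2)
          (mul_nonneg h1 h3) (by positivity)
    have hpsA : ∀ τ : Idx νC → ℕ, psA c1 c2 s Y (vol (TW f τ) / 2 ^ cnt νC K) =
        ∑' j : ℕ × (Fin s → ℕ), (j.1 : ℝ) * (gB c1 c2 s j.1 j.2 *
          EAinf j.2 Y (rr K c1 f j.1 νC τ)) := by
      intro τ
      rw [Summable.tsum_prod (hsum τ)]
      unfold psA
      refine tsum_congr (fun b => ?_)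
      rw [← tsum_mul_left]
      refine tsum_congr (fun νA => ?_)
      rfl
    have h1 : EX K 0 νC (fun τ => ind (Inj f τ) *
        psA c1 c2 s Y (vol (TW f τ) / 2 ^ cnt νC K)) =
        ∑ τ ∈ Fintype.piFinset (fun _ : Idx νC => range (bd K)),
          ∑' j : ℕ × (Fin s → ℕ), (∏ i, mu (lv 0 νC i) (τ i)) * (ind (Inj f τ) *
            ((j.1 : ℝ) * (gB c1 c2 s j.1 j.2 * EAinf j.2 Y (rr K c1 f j.1 νC τ)))) := by
      unfold EX Ex
      refine Finset.sum_congr rfl (fun τ _ => ?_)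
      beta_reduce
      rw [hpsA τ, tsum_mul_left, tsum_mul_left]
    rw [h1, ← Summable.tsum_finsetSum
      (fun τ _ => (((hsum τ).mul_left (ind (Inj f τ))).mul_left _))]
    refine tsum_congr (fun j => ?_)
    unfold EE EX Ex
    rw [← mul_assoc, Finset.mul_sum]
    refine Finset.sum_congr rfl (fun τ _ => ?_)
    ring
  rw [hE, ← tsum_mul_left]
  refine tsum_congr (fun j => ?_)
  simp only [PP]
  ring

/-! ### The limit -/

open Classical in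
/-- the bound for the distance of the probabilities -/
def en (K s c1 f : ℕ) (e : (Fin s → ℕ) → ℕ → ℝ) (n : ℕ)
    (i : (Fin K → ℕ) × (ℕ × (Fin s → ℕ))) : ℝ :=
  if (i.2.1 : ℤ) - c1 - 1 ≤ n + X i.1 K then
    min 1 (e i.2.2 (K + n) * EX K 0 i.1 (rr K c1 f i.2.1 i.1)) else 1

/-- the dominating terms -/
def MM (K s c1 c2 f : ℕ) (e : (Fin s → ℕ) → ℕ → ℝ) (n : ℕ)
    (i : (Fin K → ℕ) × (ℕ × (Fin s → ℕ))) : ℝ :=
  uC c1 K i.1 * (gB c1 c2 s i.2.1 i.2.2 *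
    (|sc K n s * kp n i.2.1 (aC c1 K i.1) - (i.2.1 : ℝ) * hg (aC c1 K i.1)| +
      (i.2.1 : ℝ) * hg (aC c1 K i.1) * en K s c1 f e n i))

end MP

theorem mp_lim (K s c1 c2 f : ℕ) {ε : ℝ} (hε : 0 < ε) : ∃ n0 : ℕ, ∀ n ≥ n0, ∀ Y : ℝ,
    |(((K + (n + s) : ℕ) : ℝ) + 1) ^ (3 / 2 : ℝ) *
      ZS (K + (n + s)) (fun ν => ind (E0 c1 c2 ν) *
        PrC f K n s (Y * 2 ^ (K + (n + s))) (lo ν) (cnt (lo (hi ν)) n) (hi (hi ν))) -
      Psi K s c1 c2 f Y| ≤ ε := by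
  choose e he0 hepos he using (fun ν : Fin s → ℕ => a_lim ν)
  obtain ⟨C1, hC1, hc⟩ := MP.cn_le K s c1
  obtain ⟨C2, hC2, hp⟩ := MP.pn_le K c1
  have hR : ∀ i : (Fin K → ℕ) × (ℕ × (Fin s → ℕ)),
      0 ≤ EX K 0 i.1 (MP.rr K c1 f i.2.1 i.1) :=
    fun i => MP.EX_nonneg _ _ _ _ (fun τ => MP.rr_nonneg _ _ _ _ _ _)
  have hen0 : ∀ n i, 0 ≤ MP.en K s c1 f e n i := by
    intro n i
    unfold MP.en
    split
    · exact le_min zero_le_one (mul_nonneg (hepos _ _) (hR i))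
    · exact zero_le_one
  have hen1 : ∀ n i, MP.en K s c1 f e n i ≤ 1 := by
    intro n i
    unfold MP.en
    split
    · exact min_le_left _ _
    · exact le_rfl
  -- the dominated bound
  have hM0 : ∀ n i, 0 ≤ MP.MM K s c1 c2 f e n i := by
    intro n i
    unfold MP.MM
    exact mul_nonneg (MP.uC_nonneg _ _ _) (mul_nonneg (MP.gB_nonneg _ _ _ _ _)
      (add_nonneg (abs_nonneg _) (mul_nonneg (mul_nonneg (Nat.cast_nonneg _) (hg_nonneg _))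
        (hen0 n i))))
  have hMle : ∀ n i, MP.MM K s c1 c2 f e n i ≤
      (C1 + C2 + C2) * (MP.uC c1 K i.1 * (((i.2.1 : ℝ) + 1) * MP.gB c1 c2 s i.2.1 i.2.2)) := by
    intro n i
    unfold MP.MM
    have h1 := MP.uC_nonneg c1 K i.1
    have h2 := MP.gB_nonneg c1 c2 s i.2.1 i.2.2
    have h3 := hc n i.2.1 i.1
    have h4 := hp i.2.1 i.1
    have h5 : 0 ≤ MP.sc K n s * kp n i.2.1 (MP.aC c1 K i.1) :=
      mul_nonneg (MP.sc_nonneg _ _ _) (kp_nonneg _ _ _)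
    have h6 : 0 ≤ (i.2.1 : ℝ) * hg (MP.aC c1 K i.1) :=
      mul_nonneg (Nat.cast_nonneg _) (hg_nonneg _)
    have h7 : |MP.sc K n s * kp n i.2.1 (MP.aC c1 K i.1) -
        (i.2.1 : ℝ) * hg (MP.aC c1 K i.1)| ≤ C1 * ((i.2.1 : ℝ) + 1) + C2 * ((i.2.1 : ℝ) + 1) := by
      rw [abs_le]
      constructor <;> nlinarith
    have h8 : (i.2.1 : ℝ) * hg (MP.aC c1 K i.1) * MP.en K s c1 f e n i ≤
        C2 * ((i.2.1 : ℝ) + 1) :=
      le_trans (mul_le_of_le_one_right h6 (hen1 n i)) h4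
    calc _ ≤ MP.uC c1 K i.1 * (MP.gB c1 c2 s i.2.1 i.2.2 *
          (C1 * ((i.2.1 : ℝ) + 1) + C2 * ((i.2.1 : ℝ) + 1) + C2 * ((i.2.1 : ℝ) + 1))) :=
          mul_le_mul_of_nonneg_left (mul_le_mul_of_nonneg_left (add_le_add h7 h8) h2) h1
      _ = _ := by ring
  have hMsum : ∀ n, Summable (MP.MM K s c1 c2 f e n) := fun n =>
    Summable.of_nonneg_of_le (hM0 n) (hMle n) ((MP.w_summable K s c1 c2).mul_left _)
  -- pointwise convergence
  have hpt : ∀ i, Tendsto (fun n => MP.MM K s c1 c2 f e n i) atTop (𝓝 0) := by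
    intro i
    by_cases hu : MP.uC c1 K i.1 = 0
    · simp only [MP.MM, hu, zero_mul]
      exact tendsto_const_nhds
    by_cases hb : i.2.1 = 0
    · simp only [MP.MM, hb, MP.gB_zero, zero_mul, mul_zero]
      exact tendsto_const_nhds
    have ha1 := MP.uC_ne hu
    have hb1 : 1 ≤ i.2.1 := Nat.one_le_iff_ne_zero.mpr hb
    have h1 : Tendsto (fun n => |MP.sc K n s * kp n i.2.1 (MP.aC c1 K i.1) -
        (i.2.1 : ℝ) * hg (MP.aC c1 K i.1)|) atTop (𝓝 0) := by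
      have := (MP.cn_tendsto K s i.2.1 (MP.aC c1 K i.1) hb1 ha1).sub_const
        ((i.2.1 : ℝ) * hg (MP.aC c1 K i.1))
      rw [sub_self] at this
      simpa using this.abs
    have h2 : Tendsto (fun n => MP.en K s c1 f e n i) atTop (𝓝 0) := by
      have h3 : Tendsto (fun n => e i.2.2 (K + n) * EX K 0 i.1 (MP.rr K c1 f i.2.1 i.1)) atTop
          (𝓝 0) := by
        have h4 : Tendsto (fun n => e i.2.2 (K + n)) atTop (𝓝 0) :=
          (he0 i.2.2).comp (tendsto_add_atTop_nat K |>.congr (fun n => Nat.add_comm n K))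
        have := h4.mul_const (EX K 0 i.1 (MP.rr K c1 f i.2.1 i.1))
        rwa [zero_mul] at this
      refine tendsto_of_tendsto_of_tendsto_of_le_of_le' tendsto_const_nhds h3
        (Eventually.of_forall (fun n => hen0 n i)) ?_
      filter_upwards [eventually_ge_atTop ((i.2.1 : ℤ) - c1 - 1 - X i.1 K).toNat] with n hn
      unfold MP.en
      rw [if_pos (by omega)]
      exact min_le_right _ _
    have h3 := (h1.add (h2.const_mul ((i.2.1 : ℝ) * hg (MP.aC c1 K i.1)))).const_mul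
      (MP.gB c1 c2 s i.2.1 i.2.2)
    have h4 := h3.const_mul (MP.uC c1 K i.1)
    simpa [MP.MM] using h4
  have hlim : Tendsto (fun n => ∑' i, MP.MM K s c1 c2 f e n i) atTop (𝓝 0) := by
    have h := tendsto_tsum_of_dominated_convergence
      (f := fun n i => MP.MM K s c1 c2 f e n i) (g := fun _ => (0 : ℝ))
      (bound := fun i => (C1 + C2 + C2) * (MP.uC c1 K i.1 *
        (((i.2.1 : ℝ) + 1) * MP.gB c1 c2 s i.2.1 i.2.2))) (𝓕 := atTop)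
      ((MP.w_summable K s c1 c2).mul_left _) hpt
      (Eventually.of_forall (fun n i => by
        rw [Real.norm_of_nonneg (hM0 n i)]
        exact hMle n i))
    simpa using h
  -- conclusion
  obtain ⟨n0, hn0⟩ := (hlim.eventually (ge_mem_nhds hε)).exists_forall_of_atTop
  refine ⟨n0, fun n hn Y => ?_⟩
  refine le_trans ?_ (hn0 n hn)
  rw [MP.main_A, MP.main_B, ← Summable.tsum_sub (MP.TT_summable K n s c1 c2 f Y)
    (MP.PP_summable K s c1 c2 f Y), ← Real.norm_eq_abs]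
  have hterm : ∀ i, ‖MP.TT K n s c1 c2 f Y i - MP.PP K s c1 c2 f Y i‖ ≤
      MP.MM K s c1 c2 f e n i := by
    intro i
    have h1 := MP.uC_nonneg c1 K i.1
    have h2 := MP.gB_nonneg c1 c2 s i.2.1 i.2.2
    have h6 : 0 ≤ (i.2.1 : ℝ) * hg (MP.aC c1 K i.1) :=
      mul_nonneg (Nat.cast_nonneg _) (hg_nonneg _)
    set H := PrC f K n s (Y * 2 ^ (K + (n + s))) i.1
      ((n : ℤ) + X i.1 K - ((i.2.1 : ℤ) - c1 - 1)).toNat i.2.2 with hH
    set E := MP.EE K s c1 f i.2.1 i.1 i.2.2 Y with hE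
    have hH0 : 0 ≤ H := MP.PrC_nonneg _ _ _ _ _ _ _ _
    have hH1 : H ≤ 1 := MP.PrC_le_one _ _ _ _ _ _ _ _
    have hE0 : 0 ≤ E := MP.EE_nonneg _ _ _ _ _ _ _ _
    have hE1 : E ≤ 1 := MP.EE_le_one _ _ _ _ _ _ _ _
    have hHE : |H - E| ≤ MP.en K s c1 f e n i := by
      have h7 : |H - E| ≤ 1 := by
        rw [abs_le]
        constructor <;> linarith
      unfold MP.en
      split
      · rename_i hN
        exact le_min h7 (MP.key_dist i.2.2 (e i.2.2) (he i.2.2) K n c1 f i.2.1 i.1 hN Y)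
      · exact h7
    have heq : MP.TT K n s c1 c2 f Y i - MP.PP K s c1 c2 f Y i =
        MP.uC c1 K i.1 * (MP.gB c1 c2 s i.2.1 i.2.2 *
          ((MP.sc K n s * kp n i.2.1 (MP.aC c1 K i.1) -
            (i.2.1 : ℝ) * hg (MP.aC c1 K i.1)) * H +
          (i.2.1 : ℝ) * hg (MP.aC c1 K i.1) * (H - E))) := by
      simp only [MP.TT, MP.PP, ← hH, ← hE]
      ring
    rw [heq, Real.norm_eq_abs, abs_mul, abs_mul, abs_of_nonneg h1, abs_of_nonneg h2]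
    unfold MP.MM
    refine mul_le_mul_of_nonneg_left (mul_le_mul_of_nonneg_left ?_ h2) h1
    refine le_trans (abs_add_le _ _) (add_le_add ?_ ?_)
    · rw [abs_mul, abs_of_nonneg hH0]
      exact mul_le_of_le_one_right (abs_nonneg _) hH1
    · rw [abs_mul, abs_of_nonneg h6]
      exact mul_le_mul_of_nonneg_left hHE h6
  exact tsum_of_norm_bounded (hMsum n).hasSum hterm

end Pool.Agent.EN
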