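import Mathlib
import Pool.Agent.Lib.MP_ec0ede_nt_EN.Defs4
import Pool.Agent.Lib.MP_ec0ede_nt_EN.LawA
import Pool.Agent.Lib.MP_ec0ede_nt_EN.Path
import Pool.Agent.Lib.MP_ec0ede_nt_EN.Ker
import Pool.Agent.Lib.MP_ec0ede_nt_EN.AbM
import Pool.Agent.Lib.MP_ec0ede_nt_EN.ALim

set_option autoImplicit false

/-!
# MP_ec0ede_nt, project EN: continuity of the limit functions
-/

noncomputable section

namespace Pool.Agent.EN

open Real Filter Topology Finset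

namespace PsiC

/-- the weight of the last levels -/
def Gt (c1 c2 s : ℕ) (b : ℕ) (ν : Fin s → ℕ) : ℝ :=
  wt ν * ind ((∀ j ≤ s, -(c1 : ℤ) ≤ (b : ℤ) - c1 - 1 + X ν j) ∧ (b : ℤ) - c1 - 1 + X ν s ≤ c2) *
    zz ^ ((b : ℤ) - c1 - 1 + X ν s)

theorem zz_pos : 0 < zz := by
  unfold zz
  have : 0 < Real.log 2 := Real.log_pos (by norm_num)
  positivity

theorem wt_nonneg' {L : ℕ} (ν : Fin L → ℕ) : 0 ≤ wt ν := by
  unfold wt
  exact Finset.prod_nonneg fun i _ => by unfold pw; positivity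

theorem Gt_nonneg (c1 c2 s b : ℕ) (ν : Fin s → ℕ) : 0 ≤ Gt c1 c2 s b ν :=
  mul_nonneg (mul_nonneg (wt_nonneg' ν) (ind_nonneg _)) (zpow_pos zz_pos _).le

theorem sum_pair (c1 c2 s : ℕ) :
    Summable (fun bν : ℕ × (Fin s → ℕ) => ((bν.1 : ℝ) + 1) * Gt c1 c2 s bν.1 bν.2) :=
  top_sum c1 c2 s

/-- the bound for the term `b` -/
def ub (c1 c2 s b : ℕ) : ℝ := ∑' ν : Fin s → ℕ, ((b : ℝ) + 1) * Gt c1 c2 s b ν

theorem sum_ub (c1 c2 s : ℕ) : Summable (ub c1 c2 s) := (sum_pair c1 c2 s).prod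

theorem sum_fac (c1 c2 s b : ℕ) : Summable (fun ν : Fin s → ℕ => ((b : ℝ) + 1) * Gt c1 c2 s b ν) :=
  (sum_pair c1 c2 s).prod_factor b

theorem sum_Gt (c1 c2 s b : ℕ) : Summable (fun ν : Fin s → ℕ => Gt c1 c2 s b ν) := by
  refine Summable.of_nonneg_of_le (fun ν => Gt_nonneg c1 c2 s b ν) (fun ν => ?_)
    (sum_fac c1 c2 s b)
  have h0 := Gt_nonneg c1 c2 s b ν
  have hb : (0 : ℝ) ≤ b := Nat.cast_nonneg b
  nlinarith

theorem ub_nonneg (c1 c2 s b : ℕ) : 0 ≤ ub c1 c2 s b :=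
  tsum_nonneg fun ν => mul_nonneg (by positivity) (Gt_nonneg c1 c2 s b ν)

theorem two_zpow_nonneg (r : ℝ) (hr : 0 ≤ r) (z : ℤ) : 0 ≤ r * (2 : ℝ) ^ z :=
  mul_nonneg hr (zpow_pos (by norm_num) _).le

theorem EA_cont {s : ℕ} (ν : Fin s → ℕ) (r : ℝ) (hr : 0 ≤ r) :
    Continuous (fun Y => EAinf ν Y r) := by
  have hC : 0 ≤ r * 2 ^ cnt ν s * 2 ^ s := by positivity
  have : LipschitzWith ⟨r * 2 ^ cnt ν s * 2 ^ s, hC⟩ (fun Y => EAinf ν Y r) := by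
    refine LipschitzWith.of_dist_le_mul fun Y Y' => ?_
    rw [Real.dist_eq, Real.dist_eq]
    exact EAinf_lip ν Y Y' r hr
  exact this.continuous

theorem psA_eq (c1 c2 s : ℕ) (Y r : ℝ) : psA c1 c2 s Y r =
    ∑' b : ℕ, (b : ℝ) * ∑' ν : Fin s → ℕ, Gt c1 c2 s b ν *
      EAinf ν Y (r * (2 : ℝ) ^ (-((b : ℤ) - c1 - 1))) := rfl

theorem inner_bound (c1 c2 s b : ℕ) (ν : Fin s → ℕ) (Y r : ℝ) (hr : 0 ≤ r) :
    ‖Gt c1 c2 s b ν * EAinf ν Y (r * (2 : ℝ) ^ (-((b : ℤ) - c1 - 1)))‖ ≤ Gt c1 c2 s b ν := by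
  have h0 := Gt_nonneg c1 c2 s b ν
  have hr' := two_zpow_nonneg r hr (-((b : ℤ) - c1 - 1))
  have h1 := EAinf_nonneg ν Y _ hr'
  have h2 := EAinf_le_one ν Y _ hr'
  rw [Real.norm_eq_abs, abs_of_nonneg (mul_nonneg h0 h1)]
  nlinarith

theorem term_bound (c1 c2 s b : ℕ) (Y r : ℝ) (hr : 0 ≤ r) :
    ‖(b : ℝ) * ∑' ν : Fin s → ℕ, Gt c1 c2 s b ν *
      EAinf ν Y (r * (2 : ℝ) ^ (-((b : ℤ) - c1 - 1)))‖ ≤ ub c1 c2 s b := by
  have h1 : ‖∑' ν : Fin s → ℕ, Gt c1 c2 s b ν *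
      EAinf ν Y (r * (2 : ℝ) ^ (-((b : ℤ) - c1 - 1)))‖ ≤ ∑' ν : Fin s → ℕ, Gt c1 c2 s b ν :=
    tsum_of_norm_bounded (sum_Gt c1 c2 s b).hasSum (fun ν => inner_bound c1 c2 s b ν Y r hr)
  have hb : (0 : ℝ) ≤ b := Nat.cast_nonneg b
  have h2 : 0 ≤ ∑' ν : Fin s → ℕ, Gt c1 c2 s b ν := tsum_nonneg fun ν => Gt_nonneg c1 c2 s b ν
  have h3 : ub c1 c2 s b = ((b : ℝ) + 1) * ∑' ν : Fin s → ℕ, Gt c1 c2 s b ν := by
    unfold ub
    rw [tsum_mul_left]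
  rw [norm_mul, Real.norm_eq_abs, abs_of_nonneg hb, h3]
  nlinarith

theorem psA_bound (c1 c2 s : ℕ) (Y r : ℝ) (hr : 0 ≤ r) :
    |psA c1 c2 s Y r| ≤ ∑' b : ℕ, ub c1 c2 s b := by
  rw [psA_eq, ← Real.norm_eq_abs]
  exact tsum_of_norm_bounded (sum_ub c1 c2 s).hasSum (fun b => term_bound c1 c2 s b Y r hr)

theorem psA_cont (c1 c2 s : ℕ) (r : ℝ) (hr : 0 ≤ r) : Continuous (fun Y => psA c1 c2 s Y r) := by
  simp only [psA_eq]
  refine continuous_tsum (u := ub c1 c2 s) (fun b => ?_) (sum_ub c1 c2 s)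
    (fun b Y => term_bound c1 c2 s b Y r hr)
  refine continuous_const.mul ?_
  refine continuous_tsum (u := fun ν => Gt c1 c2 s b ν) (fun ν => ?_) (sum_Gt c1 c2 s b)
    (fun ν Y => inner_bound c1 c2 s b ν Y r hr)
  exact continuous_const.mul (EA_cont ν _ (two_zpow_nonneg r hr _))

theorem EX_cont (L K : ℕ) {n : ℕ} (ν : Fin n → ℕ) (F : ℝ → (Idx ν → ℕ) → ℝ)
    (hF : ∀ τ, Continuous (fun Y => F Y τ)) : Continuous (fun Y => EX L K ν (F Y)) := by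
  unfold EX Ex
  exact continuous_finsetSum _ fun τ _ => continuous_const.mul (hF τ)

theorem EX_bound (L : ℕ) (ν : Fin L → ℕ) (F : (Idx ν → ℕ) → ℝ) (M : ℝ) (hF : ∀ τ, |F τ| ≤ M) :
    |EX L 0 ν F| ≤ M := by
  unfold EX Ex
  have hm : ∀ τ : Idx ν → ℕ, 0 ≤ ∏ i, mu (lv 0 ν i) (τ i) := fun τ =>
    Finset.prod_nonneg fun i _ => mu_nonneg _ _
  have h1 : ∑ τ ∈ Fintype.piFinset (fun _ : Idx ν => range (bd L)),
      ∏ i, mu (lv 0 ν i) (τ i) = 1 := by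
    rw [← Finset.prod_univ_sum (fun _ : Idx ν => range (bd L)) (fun i p => mu (lv 0 ν i) p)]
    refine Finset.prod_eq_one fun i _ => ?_
    refine mu_mass ?_ ?_
    · unfold lv; omega
    · unfold lv
      have := i.1.isLt
      omega
  calc |∑ τ ∈ Fintype.piFinset (fun _ : Idx ν => range (bd L)),
        (∏ i, mu (lv 0 ν i) (τ i)) * F τ|
      ≤ ∑ τ ∈ Fintype.piFinset (fun _ : Idx ν => range (bd L)),
        |(∏ i, mu (lv 0 ν i) (τ i)) * F τ| := Finset.abs_sum_le_sum_abs _ _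
    _ ≤ ∑ τ ∈ Fintype.piFinset (fun _ : Idx ν => range (bd L)),
        (∏ i, mu (lv 0 ν i) (τ i)) * M := by
        refine Finset.sum_le_sum fun τ _ => ?_
        rw [abs_mul, abs_of_nonneg (hm τ)]
        exact mul_le_mul_of_nonneg_left (hF τ) (hm τ)
    _ = M := by rw [← Finset.sum_mul, h1, one_mul]

theorem wt_summable (K : ℕ) : Summable (fun ν : Fin K → ℕ => wt ν) := by
  have h := PW_one K
  unfold PW at h
  simp only [mul_one] at h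
  have h2 : ∑' ν : Fin K → ℕ, ENNReal.ofReal (wt ν) ≠ ⊤ := by rw [h]; exact ENNReal.one_ne_top
  have h3 := ENNReal.summable_toReal h2
  refine h3.congr fun ν => ?_
  rw [ENNReal.toReal_ofReal (wt_nonneg' ν)]

theorem X_le {K : ℕ} (ν : Fin K → ℕ) : X ν K ≤ K := by
  unfold X
  have : (0 : ℤ) ≤ (cnt ν K : ℤ) := Int.natCast_nonneg _
  omega

end PsiC

theorem Psi_continuous (K s c1 c2 f : ℕ) : Continuous (Psi K s c1 c2 f) := by
  obtain ⟨C, hC⟩ := hg_le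
  have hC0 : 0 ≤ C := by
    have h := hC 0
    have h0 := hg_nonneg 0
    norm_num at h
    linarith
  set M : ℝ := ∑' b : ℕ, PsiC.ub c1 c2 s b with hM
  have hM0 : 0 ≤ M := tsum_nonneg fun b => PsiC.ub_nonneg c1 c2 s b
  have hr : ∀ (ν : Fin K → ℕ) (τ : Idx ν → ℕ), 0 ≤ vol (TW f τ) / 2 ^ cnt ν K := fun ν τ =>
    div_nonneg ENNReal.toReal_nonneg (by positivity)
  have hpoint : ∀ (ν : Fin K → ℕ) (Y : ℝ) (τ : Idx ν → ℕ),
      |ind (Inj f τ) * psA c1 c2 s Y (vol (TW f τ) / 2 ^ cnt ν K)| ≤ M := by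
    intro ν Y τ
    rw [abs_mul, abs_of_nonneg (ind_nonneg _)]
    have h1 := PsiC.psA_bound c1 c2 s Y _ (hr ν τ)
    have h2 := ind_le_one (Inj f τ)
    have h3 := ind_nonneg (Inj f τ)
    have h4 := abs_nonneg (psA c1 c2 s Y (vol (TW f τ) / 2 ^ cnt ν K))
    calc ind (Inj f τ) * |psA c1 c2 s Y (vol (TW f τ) / 2 ^ cnt ν K)|
        ≤ 1 * |psA c1 c2 s Y (vol (TW f τ) / 2 ^ cnt ν K)| :=
          mul_le_mul_of_nonneg_right h2 h4
      _ ≤ M := by rw [one_mul]; exact h1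
  have hsum : Summable (fun ν : Fin K → ℕ => wt ν * (C * ((K : ℝ) + c1 + 2) ^ 2 * M)) :=
    (PsiC.wt_summable K).mul_right _
  unfold Psi
  refine continuous_tsum (fun ν => ?_) hsum (fun ν Y => ?_)
  · refine continuous_const.mul ?_
    refine PsiC.EX_cont K 0 ν (fun Y τ => ind (Inj f τ) *
      psA c1 c2 s Y (vol (TW f τ) / 2 ^ cnt ν K)) (fun τ => ?_)
    exact continuous_const.mul (PsiC.psA_cont c1 c2 s _ (hr ν τ))
  · have hw := PsiC.wt_nonneg' ν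
    have hi0 := ind_nonneg (∀ j ≤ K, -(c1 : ℤ) ≤ X ν j)
    have hi1 := ind_le_one (∀ j ≤ K, -(c1 : ℤ) ≤ X ν j)
    have hg0 := hg_nonneg (X ν K + c1 + 1).toNat
    have hg1 : hg (X ν K + c1 + 1).toNat ≤ C * ((K : ℝ) + c1 + 2) ^ 2 := by
      refine (hC _).trans ?_
      refine mul_le_mul_of_nonneg_left ?_ hC0
      have hX := PsiC.X_le ν
      have h1 : (X ν K + c1 + 1).toNat ≤ K + c1 + 1 := by omega
      have h2 : (((X ν K + c1 + 1).toNat : ℕ) : ℝ) ≤ ((K + c1 + 1 : ℕ) : ℝ) := by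
        exact_mod_cast h1
      push_cast at h2
      have h3 : (0 : ℝ) ≤ (((X ν K + c1 + 1).toNat : ℕ) : ℝ) := Nat.cast_nonneg _
      exact pow_le_pow_left₀ (by linarith) (by linarith) 2
    have hE := PsiC.EX_bound K ν (fun τ => ind (Inj f τ) *
      psA c1 c2 s Y (vol (TW f τ) / 2 ^ cnt ν K)) M (hpoint ν Y)
    rw [Real.norm_eq_abs, abs_mul, abs_mul, abs_mul, abs_of_nonneg hw, abs_of_nonneg hi0,
      abs_of_nonneg hg0]
    have hE0 := abs_nonneg (EX K 0 ν (fun τ => ind (Inj f τ) *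
      psA c1 c2 s Y (vol (TW f τ) / 2 ^ cnt ν K)))
    have hP : 0 ≤ C * ((K : ℝ) + c1 + 2) ^ 2 := mul_nonneg hC0 (by positivity)
    calc wt ν * ind (∀ j ≤ K, -(c1 : ℤ) ≤ X ν j) * hg (X ν K + c1 + 1).toNat *
          |EX K 0 ν (fun τ => ind (Inj f τ) * psA c1 c2 s Y (vol (TW f τ) / 2 ^ cnt ν K))|
        ≤ wt ν * 1 * (C * ((K : ℝ) + c1 + 2) ^ 2) * M := by
          gcongr
      _ = wt ν * (C * ((K : ℝ) + c1 + 2) ^ 2 * M) := by ring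

end Pool.Agent.EN
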