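import Mathlib
import Pool.Agent.Lib.MP_ec0ede_nt_EN.Defs1
import Pool.Agent.Lib.MP_ec0ede_nt_EN.Ker

/-!
# MP_ec0ede_nt, project EN, module KerW: the weighted kernel

The weights of the first half of the steps only cost a factor (the expected position grows by a
bounded factor), the weights of the second half are negligible.
-/

set_option autoImplicit false

noncomputable section

namespace Pool.Agent.EN

open Real Filter Topology Finset

namespace KerW

theorem pw_nonneg (k : ℕ) : 0 ≤ pw k := by unfold pw; positivity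

theorem hasSum_pw (x : ℝ) : HasSum (fun k : ℕ => pw k * x ^ k) (Real.exp (x - 1)) := by
  have h := NormedSpace.expSeries_div_hasSum_exp x
  rw [← Real.exp_eq_exp_ℝ] at h
  have h2 := h.mul_left (Real.exp (-1))
  have e : Real.exp (-1) * Real.exp x = Real.exp (x - 1) := by
    rw [← Real.exp_add]; congr 1; ring
  rw [e] at h2
  have e2 : (fun k : ℕ => pw k * x ^ k) = fun k : ℕ => Real.exp (-1) * (x ^ k / k.factorial) := by
    funext k
    unfold pw
    ring
  rw [e2]
  exact h2

theorem sum_pw {x : ℝ} (hx : 0 ≤ x) (N : ℕ) :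
    ∑ k ∈ range N, pw k * x ^ k ≤ Real.exp (x - 1) :=
  sum_le_hasSum _ (fun k _ => mul_nonneg (pw_nonneg k) (pow_nonneg hx k)) (hasSum_pw x)

theorem sum_pw_k {x : ℝ} (hx : 0 ≤ x) (N : ℕ) :
    ∑ k ∈ range N, pw k * x ^ k * k ≤ x * Real.exp (x - 1) := by
  cases N with
  | zero => simp only [range_zero, sum_empty]; positivity
  | succ N =>
    rw [Finset.sum_range_succ']
    have h1 : ∀ k ∈ range N, pw (k + 1) * x ^ (k + 1) * ((k + 1 : ℕ) : ℝ) =
        x * (pw k * x ^ k) := by
      intro k _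
      unfold pw
      rw [Nat.factorial_succ]
      have h2 : ((k.factorial : ℕ) : ℝ) ≠ 0 := Nat.cast_ne_zero.mpr (Nat.factorial_ne_zero k)
      have h3 : ((k + 1 : ℕ) : ℝ) ≠ 0 := Nat.cast_ne_zero.mpr (Nat.succ_ne_zero k)
      rw [Nat.cast_mul]
      field_simp
      ring
    rw [Finset.sum_congr rfl h1, ← Finset.mul_sum]
    simp only [Nat.cast_zero, mul_zero, add_zero]
    exact mul_le_mul_of_nonneg_left (sum_pw hx N) hx

theorem sum_pw_sub {x : ℝ} (hx : 1 ≤ x) (N : ℕ) :
    ∑ k ∈ range N, pw k * (x ^ k - 1) ≤ Real.exp (x - 1) - 1 := by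
  have h1 := (hasSum_pw x).sub (hasSum_pw 1)
  rw [sub_self, Real.exp_zero] at h1
  have e2 : (fun k : ℕ => pw k * (x ^ k - 1)) =
      fun k : ℕ => pw k * x ^ k - pw k * 1 ^ k := by
    funext k; rw [one_pow]; ring
  rw [← e2] at h1
  exact sum_le_hasSum _ (fun k _ => mul_nonneg (pw_nonneg k)
    (sub_nonneg.mpr (one_le_pow₀ hx))) h1

theorem exp_mul_nat (t : ℝ) (k : ℕ) : Real.exp (t * k) = Real.exp t ^ k := by
  rw [mul_comm, Real.exp_nat_mul]

/-- one step, with any longer range of summation -/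
theorem kpw_succ (t : ℝ) (n b a N : ℕ) (hN : a + n + 2 ≤ N) :
    kpw t (n + 1) b a = ∑ k ∈ range N, pw k * Real.exp t ^ k *
      (if 2 ≤ b + k then kpw (t / 2) n (b + k - 1) a else 0) := by
  have h1 : kpw t (n + 1) b a = ∑ k ∈ range (a + n + 2), pw k * Real.exp t ^ k *
      (if 2 ≤ b + k then kpw (t / 2) n (b + k - 1) a else 0) := by
    rw [kpw]
    exact Finset.sum_congr rfl (fun k _ => by rw [exp_mul_nat])
  rw [h1]
  refine Finset.sum_subset (Finset.range_mono hN) (fun k _ hk => ?_)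
  rw [Finset.mem_range, not_lt] at hk
  split_ifs with h
  · rw [kpw_eq_zero (t / 2) (by omega), mul_zero]
  · rw [mul_zero]

theorem exp_sub_one_le {T t : ℝ} (h0 : 0 ≤ t) (hT : t ≤ T) :
    Real.exp t - 1 ≤ Real.exp T * t := by
  have h1 := Real.add_one_le_exp (-t)
  have h2 : (-t + 1) * Real.exp t ≤ Real.exp (-t) * Real.exp t :=
    mul_le_mul_of_nonneg_right h1 (Real.exp_pos t).le
  rw [← Real.exp_add, neg_add_cancel, Real.exp_zero] at h2
  have h3 : Real.exp t ≤ Real.exp T := Real.exp_le_exp.mpr hT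
  nlinarith

/-- the first steps -/
theorem first_steps {T : ℝ} : ∀ (r : ℕ) (t : ℝ) (b M : ℕ), 0 ≤ t → t ≤ T →
    ∑ y ∈ range M, ((y : ℝ) + 1) * kpw t r b y ≤
      (b + 1 + 2 * Real.exp T * t) * Real.exp (2 * Real.exp T * t) := by
  intro r
  induction r with
  | zero =>
    intro t b M h0 hT
    have hK : 0 ≤ 2 * Real.exp T * t := by positivity
    have h1 : ∑ y ∈ range M, ((y : ℝ) + 1) * kpw t 0 b y ≤ (b : ℝ) + 1 := by
      have h2 : ∀ y ∈ range M, ((y : ℝ) + 1) * kpw t 0 b y =
          if b = y then ((y : ℝ) + 1) else 0 := by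
        intro y _
        rw [kpw]
        split_ifs <;> ring
      rw [Finset.sum_congr rfl h2, Finset.sum_ite_eq]
      split_ifs
      · exact le_refl _
      · positivity
    have h3 : 1 ≤ Real.exp (2 * Real.exp T * t) := Real.one_le_exp hK
    have h4 : (0 : ℝ) ≤ (b : ℝ) := Nat.cast_nonneg b
    nlinarith
  | succ r ih =>
    intro t b M h0 hT
    set K := Real.exp T with hKdef
    have hK0 : 0 < K := Real.exp_pos T
    have hs := exp_sub_one_le h0 hT
    rw [← hKdef] at hs
    have hb : (0 : ℝ) ≤ (b : ℝ) := Nat.cast_nonneg b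
    have ht2 : t / 2 ≤ T := by linarith
    set N := M + r + 2 with hN
    have h1 : ∑ y ∈ range M, ((y : ℝ) + 1) * kpw t (r + 1) b y =
        ∑ k ∈ range N, pw k * Real.exp t ^ k * (if 2 ≤ b + k then
          ∑ y ∈ range M, ((y : ℝ) + 1) * kpw (t / 2) r (b + k - 1) y else 0) := by
      have h2 : ∀ y ∈ range M, ((y : ℝ) + 1) * kpw t (r + 1) b y =
          ∑ k ∈ range N, pw k * Real.exp t ^ k * (if 2 ≤ b + k then
            ((y : ℝ) + 1) * kpw (t / 2) r (b + k - 1) y else 0) := by
        intro y hy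
        rw [Finset.mem_range] at hy
        rw [kpw_succ t r b y N (by omega), Finset.mul_sum]
        refine Finset.sum_congr rfl (fun k _ => ?_)
        split_ifs <;> ring
      rw [Finset.sum_congr rfl h2, Finset.sum_comm]
      refine Finset.sum_congr rfl (fun k _ => ?_)
      split_ifs with h
      · rw [← Finset.mul_sum]
      · simp
    rw [h1]
    have h3 : ∀ k ∈ range N, pw k * Real.exp t ^ k * (if 2 ≤ b + k then
          ∑ y ∈ range M, ((y : ℝ) + 1) * kpw (t / 2) r (b + k - 1) y else 0) ≤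
        Real.exp (K * t) * ((b + K * t) * (pw k * Real.exp t ^ k) +
          pw k * Real.exp t ^ k * k) := by
      intro k _
      have h4 : 0 ≤ pw k * Real.exp t ^ k := mul_nonneg (pw_nonneg k) (pow_nonneg (Real.exp_pos t).le k)
      have h5 : (if 2 ≤ b + k then
          ∑ y ∈ range M, ((y : ℝ) + 1) * kpw (t / 2) r (b + k - 1) y else 0) ≤
          (b + k + K * t) * Real.exp (K * t) := by
        split_ifs with h
        · have h6 := ih (t / 2) (b + k - 1) M (by linarith) ht2
          have h7 : ((b + k - 1 : ℕ) : ℝ) = (b : ℝ) + k - 1 := by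
            rw [Nat.cast_sub (by omega)]; push_cast; ring
          rw [h7] at h6
          have h8 : 2 * K * (t / 2) = K * t := by ring
          rw [h8] at h6
          calc _ ≤ _ := h6
            _ = _ := by ring
        · have : (0 : ℝ) ≤ (k : ℝ) := Nat.cast_nonneg k
          positivity
      calc _ ≤ pw k * Real.exp t ^ k * ((b + k + K * t) * Real.exp (K * t)) :=
            mul_le_mul_of_nonneg_left h5 h4
        _ = _ := by ring
    refine (Finset.sum_le_sum h3).trans ?_
    rw [← Finset.mul_sum, Finset.sum_add_distrib, ← Finset.mul_sum]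
    have h9 := sum_pw (Real.exp_pos t).le N
    have h10 := sum_pw_k (Real.exp_pos t).le N
    set s := Real.exp t - 1 with hsdef
    have hs0 : 0 ≤ s := by
      have := Real.add_one_le_exp t
      rw [hsdef]; linarith
    have h11 : (b + K * t) * ∑ k ∈ range N, pw k * Real.exp t ^ k +
        ∑ k ∈ range N, pw k * Real.exp t ^ k * k ≤ (b + K * t + (1 + s)) * Real.exp s := by
      have h12 : (b + K * t) * ∑ k ∈ range N, pw k * Real.exp t ^ k ≤
          (b + K * t) * Real.exp s := mul_le_mul_of_nonneg_left h9 (by positivity)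
      have h13 : Real.exp t = 1 + s := by rw [hsdef]; ring
      rw [h13] at h10 h12 ⊢
      linarith
    have h14 : Real.exp s ≤ Real.exp (K * t) := Real.exp_le_exp.mpr (by linarith)
    have hKt : 0 ≤ K * t := by positivity
    calc Real.exp (K * t) * ((b + K * t) * ∑ k ∈ range N, pw k * Real.exp t ^ k +
          ∑ k ∈ range N, pw k * Real.exp t ^ k * k)
        ≤ Real.exp (K * t) * ((b + K * t + (1 + s)) * Real.exp s) :=
          mul_le_mul_of_nonneg_left h11 (Real.exp_pos _).le
      _ ≤ Real.exp (K * t) * ((b + 1 + 2 * K * t) * Real.exp (K * t)) := by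
          refine mul_le_mul_of_nonneg_left ?_ (Real.exp_pos _).le
          refine mul_le_mul ?_ h14 (Real.exp_pos _).le (by positivity)
          linarith
      _ = (b + 1 + 2 * K * t) * Real.exp (2 * K * t) := by
          have : Real.exp (2 * K * t) = Real.exp (K * t) * Real.exp (K * t) := by
            rw [← Real.exp_add]; congr 1; ring
          rw [this]; ring

theorem kp_le_one : ∀ (n b a : ℕ), kp n b a ≤ 1 := by
  intro n
  induction n with
  | zero =>
    intro b a
    unfold kp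
    rw [kpw]
    split_ifs <;> norm_num
  | succ n ih =>
    intro b a
    unfold kp at ih ⊢
    rw [kpw_succ 0 n b a (a + n + 2) le_rfl]
    have h1 := sum_pw (zero_le_one' ℝ) (a + n + 2)
    rw [sub_self, Real.exp_zero] at h1
    refine le_trans (Finset.sum_le_sum (fun k _ => ?_)) h1
    rw [Real.exp_zero]
    have h2 : 0 ≤ pw k * (1 : ℝ) ^ k := mul_nonneg (pw_nonneg k) (by positivity)
    have h3 : (if 2 ≤ b + k then kpw (0 / 2) n (b + k - 1) a else 0) ≤ 1 := by
      split_ifs
      · rw [zero_div]; exact ih _ _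
      · norm_num
    calc _ ≤ pw k * (1 : ℝ) ^ k * 1 := mul_le_mul_of_nonneg_left h3 h2
      _ = _ := mul_one _

/-- the weights of the last steps -/
theorem last_steps {T : ℝ} : ∀ (m : ℕ) (t : ℝ) (y a : ℕ), 0 ≤ t → t ≤ T →
    kpw t m y a ≤ kp m y a + (Real.exp (2 * Real.exp T * t) - 1) := by
  intro m
  induction m with
  | zero =>
    intro t y a h0 hT
    have hK : 0 ≤ 2 * Real.exp T * t := by positivity
    have h3 : 1 ≤ Real.exp (2 * Real.exp T * t) := Real.one_le_exp hK
    unfold kp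
    rw [kpw, kpw]
    linarith
  | succ m ih =>
    intro t y a h0 hT
    set K := Real.exp T with hKdef
    have hK0 : 0 < K := Real.exp_pos T
    have hs := exp_sub_one_le h0 hT
    rw [← hKdef] at hs
    have ht2 : t / 2 ≤ T := by linarith
    have ht1 : 1 ≤ Real.exp t := Real.one_le_exp h0
    set N := a + m + 2 with hN
    set E := Real.exp (K * t) - 1 with hE
    have hKt : 0 ≤ K * t := by positivity
    have hE0 : 0 ≤ E := by
      have := Real.one_le_exp hKt
      rw [hE]; linarith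
    have e1 : kpw t (m + 1) y a ≤ ∑ k ∈ range N, (pw k * (if 2 ≤ y + k then
        kp m (y + k - 1) a else 0) + pw k * (Real.exp t ^ k - 1) + E * (pw k * Real.exp t ^ k)) := by
      rw [kpw_succ t m y a N le_rfl]
      refine Finset.sum_le_sum (fun k _ => ?_)
      have h4 : 0 ≤ pw k * Real.exp t ^ k :=
        mul_nonneg (pw_nonneg k) (pow_nonneg (Real.exp_pos t).le k)
      have h5 : 0 ≤ pw k * (Real.exp t ^ k - 1) :=
        mul_nonneg (pw_nonneg k) (sub_nonneg.mpr (one_le_pow₀ ht1))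
      split_ifs with h
      · have h6 := ih (t / 2) (y + k - 1) a (by linarith) ht2
        have h8 : 2 * K * (t / 2) = K * t := by ring
        rw [h8, ← hE] at h6
        have h7 := kp_le_one m (y + k - 1) a
        have h7' := kp_nonneg m (y + k - 1) a
        calc pw k * Real.exp t ^ k * kpw (t / 2) m (y + k - 1) a
            ≤ pw k * Real.exp t ^ k * (kp m (y + k - 1) a + E) :=
              mul_le_mul_of_nonneg_left h6 h4
          _ = pw k * kp m (y + k - 1) a + pw k * (Real.exp t ^ k - 1) * kp m (y + k - 1) a +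
              E * (pw k * Real.exp t ^ k) := by ring
          _ ≤ pw k * kp m (y + k - 1) a + pw k * (Real.exp t ^ k - 1) * 1 +
              E * (pw k * Real.exp t ^ k) := by
              have := mul_le_mul_of_nonneg_left h7 h5
              linarith
          _ = _ := by ring
      · have h9 : 0 ≤ E * (pw k * Real.exp t ^ k) := mul_nonneg hE0 h4
        simp only [mul_zero]
        linarith
    have e2 : ∑ k ∈ range N, pw k * (if 2 ≤ y + k then kp m (y + k - 1) a else 0) =
        kp (m + 1) y a := by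
      unfold kp
      rw [kpw_succ 0 m y a N le_rfl]
      refine Finset.sum_congr rfl (fun k _ => ?_)
      rw [Real.exp_zero, one_pow, mul_one, zero_div]
    rw [Finset.sum_add_distrib, Finset.sum_add_distrib, e2, ← Finset.mul_sum] at e1
    have h9 := sum_pw (Real.exp_pos t).le N
    have h10 := sum_pw_sub ht1 N
    set s := Real.exp t - 1 with hsdef
    have h11 : E * ∑ k ∈ range N, pw k * Real.exp t ^ k ≤ E * Real.exp s :=
      mul_le_mul_of_nonneg_left h9 hE0
    have h14 : Real.exp s ≤ Real.exp (K * t) := Real.exp_le_exp.mpr (by linarith)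
    have h15 : Real.exp (2 * K * t) = Real.exp (K * t) * Real.exp (K * t) := by
      rw [← Real.exp_add]; congr 1; ring
    have h16 : Real.exp s - 1 + E * Real.exp s ≤ Real.exp (2 * K * t) - 1 := by
      rw [h15, hE]
      have h17 : Real.exp s * Real.exp (K * t) ≤ Real.exp (K * t) * Real.exp (K * t) :=
        mul_le_mul_of_nonneg_right h14 (Real.exp_pos _).le
      linarith
    linarith

/-- splitting the steps -/
theorem split_steps : ∀ (r : ℕ) (t : ℝ) (m b a : ℕ), 0 ≤ t →
    kpw t (r + m) b a ≤ ∑ y ∈ range (a + m + 1), kpw t r b y * kpw (t / 2 ^ r) m y a := by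
  intro r
  induction r with
  | zero =>
    intro t m b a _
    have h1 : ∀ y ∈ range (a + m + 1), kpw t 0 b y * kpw (t / 2 ^ 0) m y a =
        if b = y then kpw t m y a else 0 := by
      intro y _
      rw [kpw, pow_zero, div_one]
      split_ifs <;> ring
    rw [Finset.sum_congr rfl h1, Finset.sum_ite_eq, zero_add]
    split_ifs with h
    · exact le_rfl
    · rw [Finset.mem_range, not_lt] at h
      rw [kpw_eq_zero t (by omega)]
  | succ r ih =>
    intro t m b a h0
    set N := a + (r + m) + 2 with hN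
    have e0 : r + 1 + m = (r + m) + 1 := by ring
    rw [e0, kpw_succ t (r + m) b a N le_rfl]
    have h1 : ∀ y ∈ range (a + m + 1), kpw t (r + 1) b y * kpw (t / 2 ^ (r + 1)) m y a =
        ∑ k ∈ range N, pw k * Real.exp t ^ k * (if 2 ≤ b + k then
          kpw (t / 2) r (b + k - 1) y * kpw (t / 2 ^ (r + 1)) m y a else 0) := by
      intro y hy
      rw [Finset.mem_range] at hy
      rw [kpw_succ t r b y N (by omega), Finset.sum_mul]
      refine Finset.sum_congr rfl (fun k _ => ?_)
      split_ifs <;> ring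
    rw [Finset.sum_congr rfl h1, Finset.sum_comm]
    refine Finset.sum_le_sum (fun k _ => ?_)
    have h4 : 0 ≤ pw k * Real.exp t ^ k :=
      mul_nonneg (pw_nonneg k) (pow_nonneg (Real.exp_pos t).le k)
    rw [← Finset.mul_sum]
    refine mul_le_mul_of_nonneg_left ?_ h4
    split_ifs with h
    · have h5 := ih (t / 2) m (b + k - 1) a (by linarith)
      have h6 : t / 2 / 2 ^ r = t / 2 ^ (r + 1) := by
        rw [pow_succ]; field_simp
      rw [h6] at h5
      exact h5
    · simp

theorem sq_le_pow (r : ℕ) : ((r : ℝ) + 1) ^ 2 ≤ 4 * 2 ^ r := by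
  have h : (r + 1) ^ 2 ≤ 4 * 2 ^ r := by
    induction r with
    | zero => norm_num
    | succ r ih =>
      rcases Nat.lt_or_ge r 2 with h | h
      · interval_cases r <;> norm_num
      · rw [pow_succ 2 r]
        nlinarith
  exact_mod_cast h

end KerW

open KerW

theorem kpw_le (T : ℝ) : ∃ C : ℝ, 0 < C ∧ ∀ (t : ℝ) (n b a : ℕ), 0 ≤ t → t ≤ T →
    kpw t n b a ≤ C * (b + 1) * (a + 1) ^ 2 / ((n : ℝ) + 1) ^ (3 / 2 : ℝ) := by
  obtain ⟨C₀, hC₀, hkp⟩ := kp_le
  rcases lt_or_ge T 0 with hT0 | hT0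
  · exact ⟨1, one_pos, fun t n b a h0 hT => by linarith⟩
  set K := Real.exp T with hK
  have hK0 : 0 < K := Real.exp_pos T
  set E := Real.exp (2 * K * T) with hE
  have hE0 : 0 < E := Real.exp_pos _
  set C₁ := (1 + 2 * K * T) * E with hC₁
  have hC₁0 : 0 < C₁ := by positivity
  refine ⟨(4 * C₀ + 32 * K * T * E) * C₁, by positivity, fun t n b a h0 hT => ?_⟩
  set r := n / 2 with hr
  set m := n - r with hm
  have hn : n = r + m := by omega
  have hm1 : n ≤ 2 * m := by omega
  have hr1 : n + 1 ≤ 2 * (r + 1) := by omega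
  have hKt : 0 ≤ 2 * K * t := by positivity
  have hKT : 2 * K * t ≤ 2 * K * T := by
    have := mul_le_mul_of_nonneg_left hT (by positivity : (0 : ℝ) ≤ 2 * K)
    linarith
  set τ := t / 2 ^ r with hτ
  have h2r : (0 : ℝ) < 2 ^ r := by positivity
  have hτ0 : 0 ≤ τ := by positivity
  have hτt : τ ≤ t := div_le_self h0 (one_le_pow₀ (by norm_num))
  have hτT : τ ≤ T := hτt.trans hT
  -- the first half
  have hF := first_steps (T := T) r t b (a + m + 1) h0 hT
  rw [← hK] at hF
  have hF' : (b + 1 + 2 * K * t) * Real.exp (2 * K * t) ≤ C₁ * (b + 1) := by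
    have hb : (0 : ℝ) ≤ (b : ℝ) := Nat.cast_nonneg b
    have h1 : (b : ℝ) + 1 + 2 * K * t ≤ (1 + 2 * K * T) * (b + 1) := by
      nlinarith [mul_nonneg hb (by positivity : (0 : ℝ) ≤ 2 * K * T)]
    have h2 : Real.exp (2 * K * t) ≤ E := Real.exp_le_exp.mpr hKT
    calc _ ≤ ((1 + 2 * K * T) * (b + 1)) * E :=
          mul_le_mul h1 h2 (Real.exp_pos _).le (by positivity)
      _ = _ := by rw [hC₁]; ring
  have hFF := hF.trans hF'
  -- the powers of n
  set P := ((n : ℝ) + 1) ^ (3 / 2 : ℝ) with hP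
  have hn1 : (1 : ℝ) ≤ (n : ℝ) + 1 := by
    have : (0 : ℝ) ≤ (n : ℝ) := Nat.cast_nonneg n
    linarith
  have hP0 : 0 < P := Real.rpow_pos_of_pos (by linarith) _
  have hP1 : P ≤ 16 * 2 ^ r := by
    have h1 : P ≤ ((n : ℝ) + 1) ^ (2 : ℝ) := Real.rpow_le_rpow_of_exponent_le hn1 (by norm_num)
    have h2 : ((n : ℝ) + 1) ^ (2 : ℝ) = ((n : ℝ) + 1) ^ 2 := by
      exact_mod_cast Real.rpow_natCast ((n : ℝ) + 1) 2
    have h3 : ((n : ℝ) + 1) ≤ 2 * ((r : ℝ) + 1) := by exact_mod_cast hr1
    have h4 : ((n : ℝ) + 1) ^ 2 ≤ (2 * ((r : ℝ) + 1)) ^ 2 := by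
      apply pow_le_pow_left₀ (by linarith) h3
    have h5 := sq_le_pow r
    rw [h2] at h1
    nlinarith
  have hP2 : P ≤ 4 * ((m : ℝ) + 1) ^ (3 / 2 : ℝ) := by
    have h3 : ((n : ℝ) + 1) ≤ 2 * ((m : ℝ) + 1) := by
      have : n + 1 ≤ 2 * (m + 1) := by omega
      exact_mod_cast this
    have h4 : P ≤ (2 * ((m : ℝ) + 1)) ^ (3 / 2 : ℝ) :=
      Real.rpow_le_rpow (by linarith) h3 (by norm_num)
    have hm0 : (0 : ℝ) ≤ (m : ℝ) + 1 := by positivity
    rw [Real.mul_rpow (by norm_num) hm0] at h4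
    have h5 : (2 : ℝ) ^ (3 / 2 : ℝ) ≤ 4 := by
      have h6 : (2 : ℝ) ^ (3 / 2 : ℝ) ≤ (2 : ℝ) ^ (2 : ℝ) :=
        Real.rpow_le_rpow_of_exponent_le (by norm_num) (by norm_num)
      have h7 : (2 : ℝ) ^ (2 : ℝ) = 4 := by
        rw [show (2 : ℝ) ^ (2 : ℝ) = (2 : ℝ) ^ (2 : ℕ) by exact_mod_cast Real.rpow_natCast 2 2]
        norm_num
      linarith
    have h8 : 0 ≤ ((m : ℝ) + 1) ^ (3 / 2 : ℝ) := Real.rpow_nonneg hm0 _
    nlinarith
  have hPm : 0 < ((m : ℝ) + 1) ^ (3 / 2 : ℝ) := Real.rpow_pos_of_pos (by positivity) _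
  -- the second half
  have hS : ∀ y ∈ range (a + m + 1), kpw t r b y * kpw τ m y a ≤
      ((4 * C₀ + 32 * K * T * E) * (a + 1) ^ 2 / P) * (((y : ℝ) + 1) * kpw t r b y) := by
    intro y _
    have h1 := last_steps (T := T) m τ y a hτ0 hτT
    rw [← hK] at h1
    have h2 := hkp m y a
    have hy : (0 : ℝ) ≤ (y : ℝ) := Nat.cast_nonneg y
    have ha : (1 : ℝ) ≤ ((a : ℝ) + 1) ^ 2 := by
      have : (0 : ℝ) ≤ (a : ℝ) := Nat.cast_nonneg a
      nlinarith
    have h3 : C₀ * (y + 1) * (a + 1) ^ 2 / ((m : ℝ) + 1) ^ (3 / 2 : ℝ) ≤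
        4 * C₀ * (a + 1) ^ 2 / P * (y + 1) := by
      rw [div_le_iff₀ hPm]
      have h4 : 4 * C₀ * (a + 1) ^ 2 / P * (y + 1) * ((m : ℝ) + 1) ^ (3 / 2 : ℝ) =
          C₀ * (y + 1) * (a + 1) ^ 2 * (4 * ((m : ℝ) + 1) ^ (3 / 2 : ℝ) / P) := by ring
      rw [h4]
      have h5 : 1 ≤ 4 * ((m : ℝ) + 1) ^ (3 / 2 : ℝ) / P := by
        rw [le_div_iff₀ hP0]; linarith
      exact le_mul_of_one_le_right (by positivity) h5
    have h6 : Real.exp (2 * K * τ) - 1 ≤ 32 * K * T * E * (a + 1) ^ 2 / P * (y + 1) := by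
      have h7 : 0 ≤ 2 * K * τ := by positivity
      have h8 : 2 * K * τ ≤ 2 * K * T := by
        have := mul_le_mul_of_nonneg_left hτT (by positivity : (0 : ℝ) ≤ 2 * K)
        linarith
      have h9 := exp_sub_one_le h7 h8
      rw [← hE] at h9
      have h10 : E * (2 * K * τ) ≤ 32 * K * T * E / P := by
        rw [le_div_iff₀ hP0]
        have h11 : τ * P ≤ 16 * T := by
          have h12 : τ * P ≤ τ * (16 * 2 ^ r) := mul_le_mul_of_nonneg_left hP1 hτ0
          have h13 : τ * (16 * 2 ^ r) = 16 * t := by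
            rw [hτ]; field_simp
          linarith
        calc E * (2 * K * τ) * P = 2 * K * E * (τ * P) := by ring
          _ ≤ 2 * K * E * (16 * T) := mul_le_mul_of_nonneg_left h11 (by positivity)
          _ = 32 * K * T * E := by ring
      have h14 : 0 ≤ 32 * K * T * E / P := by positivity
      calc Real.exp (2 * K * τ) - 1 ≤ 32 * K * T * E / P := h9.trans h10
        _ ≤ 32 * K * T * E / P * ((a + 1) ^ 2 * (y + 1)) := by
            refine le_mul_of_one_le_right h14 ?_
            have : (1 : ℝ) ≤ (y : ℝ) + 1 := by linarith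
            nlinarith
        _ = _ := by ring
    have h15 : kpw τ m y a ≤ (4 * C₀ + 32 * K * T * E) * (a + 1) ^ 2 / P * (y + 1) := by
      calc kpw τ m y a ≤ kp m y a + (Real.exp (2 * K * τ) - 1) := h1
        _ ≤ 4 * C₀ * (a + 1) ^ 2 / P * (y + 1) +
            32 * K * T * E * (a + 1) ^ 2 / P * (y + 1) := add_le_add (h2.trans h3) h6
        _ = _ := by ring
    calc kpw t r b y * kpw τ m y a ≤
        kpw t r b y * ((4 * C₀ + 32 * K * T * E) * (a + 1) ^ 2 / P * (y + 1)) :=
          mul_le_mul_of_nonneg_left h15 (kpw_nonneg t r b y)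
      _ = _ := by ring
  have hsplit := split_steps r t m b a h0
  rw [← hn] at hsplit
  calc kpw t n b a ≤ ∑ y ∈ range (a + m + 1), kpw t r b y * kpw τ m y a := hsplit
    _ ≤ ∑ y ∈ range (a + m + 1),
        ((4 * C₀ + 32 * K * T * E) * (a + 1) ^ 2 / P) * (((y : ℝ) + 1) * kpw t r b y) :=
        Finset.sum_le_sum hS
    _ = ((4 * C₀ + 32 * K * T * E) * (a + 1) ^ 2 / P) *
        ∑ y ∈ range (a + m + 1), (((y : ℝ) + 1) * kpw t r b y) := by rw [Finset.mul_sum]
    _ ≤ ((4 * C₀ + 32 * K * T * E) * (a + 1) ^ 2 / P) * (C₁ * (b + 1)) :=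
        mul_le_mul_of_nonneg_left hFF (by positivity)
    _ = (4 * C₀ + 32 * K * T * E) * C₁ * (b + 1) * (a + 1) ^ 2 / P := by ring

end Pool.Agent.EN
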