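import Mathlib
import Pool.Agent.Lib.MP_ec0ede_nt_EN.Defs1
import Pool.Agent.Lib.MP_ec0ede_nt_EN.KerW
import Pool.Agent.Lib.MP_ec0ede_nt_EN.Path

set_option autoImplicit false

/-!
# MP_ec0ede_nt, project EN: the domination

The sum over all paths of `zz ^ X_L * F`, where `F` is bounded by `Hj c ν j` for all `j`, is
`O ((L + 1) ^ (-3 / 2))`.  The path is cut at its first minimum `j` and at the level `l` of the sum
in `Hj`; the three blocks are bounded by the weighted kernels `kpw`.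
-/

noncomputable section

namespace Pool.Agent.EN

open Real Filter Topology Finset

namespace Dom

/-- `j` is the first level at which the path is minimal, and the minimum is `-a` -/
def MM (j a : ℕ) {L : ℕ} (ν : Fin L → ℕ) : Prop :=
  (∀ i < j, X ν j < X ν i) ∧ (∀ i, j ≤ i → i ≤ L → X ν j ≤ X ν i) ∧ X ν j = -(a : ℤ)

instance MM_dec (j a : ℕ) {L : ℕ} (ν : Fin L → ℕ) : Decidable (MM j a ν) := Classical.dec _

lemma X_zero {L : ℕ} (ν : Fin L → ℕ) : X ν 0 = 0 := by simp [X, cnt]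

lemma X_le {L : ℕ} (ν : Fin L → ℕ) (j : ℕ) : X ν j ≤ j := by simp [X]

lemma Q_nonneg {L : ℕ} (ν : Fin L → ℕ) (j : ℕ) : 0 ≤ Q ν j := by
  unfold Q
  exact Finset.sum_nonneg fun i _ => by split_ifs <;> positivity

lemma nu_le_Q {L : ℕ} (ν : Fin L → ℕ) (l : Fin L) : (ν l : ℝ) ≤ Q ν (l + 1) := by
  unfold Q
  have h := Finset.single_le_sum (s := (Finset.univ : Finset (Fin L)))
    (f := fun i : Fin L => if (i : ℕ) < (l : ℕ) + 1 then (ν i : ℝ) * 2 ^ ((i : ℕ) + 1) /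
      2 ^ ((l : ℕ) + 1) else 0) (fun i _ => by split_ifs <;> positivity)
    (Finset.mem_univ l)
  refine le_trans (le_of_eq ?_) h
  have h2 : (2 : ℝ) ^ ((l : ℕ) + 1) ≠ 0 := by positivity
  simp only [lt_add_iff_pos_right, zero_lt_one, if_true]
  field_simp

lemma exists_MM {L : ℕ} (ν : Fin L → ℕ) : ∃ j ≤ L, ∃ a : ℕ, MM j a ν := by
  classical
  obtain ⟨m, hm, hmin⟩ := Finset.exists_min_image (range (L + 1)) (fun j => X ν j) ⟨0, by simp⟩
  have hex : ∃ j, j ≤ L ∧ X ν j = X ν m := ⟨m, by simpa [Nat.lt_succ_iff] using hm, rfl⟩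
  have hj := Nat.find_spec hex
  have hlt : ∀ i < Nat.find hex, ¬ (i ≤ L ∧ X ν i = X ν m) := fun i hi => Nat.find_min hex hi
  refine ⟨Nat.find hex, hj.1, (-(X ν m)).toNat, ?_, ?_, ?_⟩
  · intro i hi
    have hiL : i ≤ L := le_trans hi.le hj.1
    rw [hj.2]
    refine lt_of_le_of_ne (hmin i (by simp; omega)) ?_
    intro h
    exact hlt i hi ⟨hiL, h.symm⟩
  · intro i _ hi
    rw [hj.2]
    exact hmin i (by simp; omega)
  · rw [hj.2]
    have h0 := hmin 0 (by simp)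
    simp only [X_zero] at h0
    omega

/-! ### `PW` -/

lemma PW_mul_const {L : ℕ} (F : (Fin L → ℕ) → ENNReal) (K : ENNReal) :
    PW L (fun ν => F ν * K) = PW L F * K := by
  unfold PW
  rw [← ENNReal.tsum_mul_right]
  exact tsum_congr fun ν => by rw [mul_assoc]

lemma PW_const_mul {L : ℕ} (F : (Fin L → ℕ) → ENNReal) (K : ENNReal) :
    PW L (fun ν => K * F ν) = K * PW L F := by
  unfold PW
  rw [← ENNReal.tsum_mul_left]
  exact tsum_congr fun ν => by rw [mul_left_comm]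

lemma PW_const {L : ℕ} (K : ENNReal) : PW L (fun _ => K) = K := by
  have h := PW_const_mul (L := L) (fun _ => 1) K
  simpa [PW_one] using h

lemma PW_tsum {L : ℕ} {ι : Type} (F : ι → (Fin L → ℕ) → ENNReal) :
    PW L (fun ν => ∑' b, F b ν) = ∑' b, PW L (F b) := by
  unfold PW
  simp_rw [← ENNReal.tsum_mul_left]
  rw [ENNReal.tsum_comm]

lemma PW_add {L : ℕ} (F G : (Fin L → ℕ) → ENNReal) :
    PW L (fun ν => F ν + G ν) = PW L F + PW L G := by
  unfold PW
  rw [← ENNReal.tsum_add]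
  exact tsum_congr fun ν => by rw [mul_add]

lemma PW_zero {L : ℕ} : PW L (fun _ => 0) = 0 := by simp [PW]

lemma PW_sum {L : ℕ} {ι : Type} (s : Finset ι) (F : ι → (Fin L → ℕ) → ENNReal) :
    PW L (fun ν => ∑ b ∈ s, F b ν) = ∑ b ∈ s, PW L (F b) := by
  classical
  induction s using Finset.induction_on with
  | empty => simp [PW_zero]
  | insert x s hx ih =>
    simp only [Finset.sum_insert hx]
    rw [PW_add, ih]

/-! ### Elementary analysis -/

/-- the weight `(n + 1) ^ (-3 / 2)` -/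
def w (n : ℕ) : ℝ := 1 / ((n : ℝ) + 1) ^ (3 / 2 : ℝ)

lemma w_pos (n : ℕ) : 0 < w n := by unfold w; positivity

lemma w_summable : Summable w := by
  have h := (Real.summable_one_div_nat_rpow (p := (3 / 2 : ℝ))).2 (by norm_num)
  have h2 := (summable_nat_add_iff 1).2 h
  refine h2.congr fun n => ?_
  simp [w]

lemma w_half {n L : ℕ} (h : L + 1 ≤ 2 * (n + 1)) : w n ≤ 4 * w L := by
  unfold w
  have h1 : ((L : ℝ) + 1) / 2 ≤ (n : ℝ) + 1 := by
    have : ((L + 1 : ℕ) : ℝ) ≤ ((2 * (n + 1) : ℕ) : ℝ) := by exact_mod_cast h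
    push_cast at this
    linarith
  have h2 : (((L : ℝ) + 1) / 2) ^ (3 / 2 : ℝ) ≤ ((n : ℝ) + 1) ^ (3 / 2 : ℝ) :=
    Real.rpow_le_rpow (by positivity) h1 (by norm_num)
  rw [Real.div_rpow (by positivity) (by norm_num)] at h2
  have h3 : (2 : ℝ) ^ (3 / 2 : ℝ) ≤ 4 := by
    have : (2 : ℝ) ^ (3 / 2 : ℝ) ≤ (2 : ℝ) ^ (2 : ℝ) :=
      Real.rpow_le_rpow_of_exponent_le (by norm_num) (by norm_num)
    have h4 : (2 : ℝ) ^ (2 : ℝ) = 4 := by
      rw [show (2 : ℝ) = ((2 : ℕ) : ℝ) by norm_num, Real.rpow_natCast]; norm_num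
    linarith
  have hA : 0 < ((L : ℝ) + 1) ^ (3 / 2 : ℝ) := by positivity
  have hB : 0 < ((n : ℝ) + 1) ^ (3 / 2 : ℝ) := by positivity
  have hC : (0 : ℝ) < (2 : ℝ) ^ (3 / 2 : ℝ) := by positivity
  rw [div_le_iff₀ hC] at h2
  rw [mul_one_div, div_le_div_iff₀ hB hA]
  nlinarith [mul_le_mul_of_nonneg_left h3 hB.le]

lemma conv_le : ∃ D : ℝ, 0 < D ∧ ∀ L : ℕ, ∑ j ∈ range (L + 1), w j * w (L - j) ≤ D * w L := by
  have hs := w_summable
  have h0 : ∀ n, 0 ≤ w n := fun n => (w_pos n).le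
  refine ⟨4 * (∑' n, w n + ∑' n, w n) + 1, ?_, ?_⟩
  · have h : 0 ≤ ∑' n, w n := tsum_nonneg h0
    linarith
  intro L
  have h1 : ∀ j ∈ range (L + 1), w j * w (L - j) ≤ 4 * w L * (w j + w (L - j)) := by
    intro j hj
    have hj' : j ≤ L := by simpa [Nat.lt_succ_iff] using hj
    have ha := h0 j
    have hb := h0 (L - j)
    have hc := h0 L
    rcases Nat.lt_or_ge (2 * (j + 1)) (L + 1) with h | h
    · have h3 : w (L - j) ≤ 4 * w L := w_half (by omega)
      nlinarith [mul_le_mul_of_nonneg_left h3 ha, mul_nonneg hc hb]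
    · have h3 : w j ≤ 4 * w L := w_half h
      nlinarith [mul_le_mul_of_nonneg_right h3 hb, mul_nonneg hc ha]
  refine (Finset.sum_le_sum h1).trans ?_
  rw [← Finset.mul_sum, Finset.sum_add_distrib]
  have h2 : ∑ j ∈ range (L + 1), w j ≤ ∑' n, w n := hs.sum_le_tsum _ (fun n _ => h0 n)
  have h3 : ∑ j ∈ range (L + 1), w (L - j) = ∑ j ∈ range (L + 1), w j := by
    have := Finset.sum_range_reflect w (L + 1)
    simpa using this
  rw [h3]
  have hL := w_pos L
  nlinarith [mul_le_mul_of_nonneg_left h2 hL.le]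

/-- the weight of the last block -/
def e (c s : ℝ) (n : ℕ) : ℝ := s ^ n * Real.exp (-(c * 2 ^ n))

lemma e_nonneg {c s : ℝ} (hs : 0 ≤ s) (n : ℕ) : 0 ≤ e c s n := by unfold e; positivity

lemma e_le {c s : ℝ} (hc : 0 < c) (hs : 1 ≤ s) (hs2 : s < 2) :
    ∃ K : ℝ, 0 < K ∧ ∀ n : ℕ, e c s n ≤ K * w n := by
  refine ⟨6 / c ^ 3, by positivity, ?_⟩
  intro n
  unfold e w
  have hx : 0 ≤ c * 2 ^ n := by positivity
  have h1 : (c * 2 ^ n) ^ 3 / 6 ≤ Real.exp (c * 2 ^ n) := by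
    have := Real.pow_div_factorial_le_exp (c * 2 ^ n) hx 3
    simpa [Nat.factorial] using this
  have h2 : s ^ n ≤ 2 ^ n := pow_le_pow_left₀ (by linarith) hs2.le n
  have h3 : ((n : ℝ) + 1) ^ (3 / 2 : ℝ) ≤ (2 ^ n) ^ 2 := by
    have ha : ((n : ℝ) + 1) ^ (3 / 2 : ℝ) ≤ ((n : ℝ) + 1) ^ (2 : ℝ) := by
      apply Real.rpow_le_rpow_of_exponent_le
      · have : (0 : ℝ) ≤ n := Nat.cast_nonneg n
        linarith
      · norm_num
    have hb : ((n : ℝ) + 1) ^ (2 : ℝ) = ((n : ℝ) + 1) ^ (2 : ℕ) := Real.rpow_two _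
    have hd : (n : ℝ) + 1 ≤ 2 ^ n := by
      have : n + 1 ≤ 2 ^ n := Nat.succ_le_of_lt n.lt_two_pow_self
      exact_mod_cast this
    have hf : ((n : ℝ) + 1) ^ (2 : ℕ) ≤ (2 ^ n) ^ (2 : ℕ) := pow_le_pow_left₀ (by positivity) hd 2
    rw [hb] at ha
    exact ha.trans hf
  have hE : 0 < Real.exp (c * 2 ^ n) := Real.exp_pos _
  rw [Real.exp_neg]
  have hP : (0 : ℝ) < ((n : ℝ) + 1) ^ (3 / 2 : ℝ) := by positivity
  have h2n : (0 : ℝ) < 2 ^ n := by positivity
  have h4 : s ^ n * ((n : ℝ) + 1) ^ (3 / 2 : ℝ) ≤ (2 ^ n) ^ 3 := by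
    have := mul_le_mul h2 h3 hP.le h2n.le
    calc s ^ n * ((n : ℝ) + 1) ^ (3 / 2 : ℝ) ≤ 2 ^ n * (2 ^ n) ^ 2 := this
      _ = (2 ^ n) ^ 3 := by ring
  rw [← div_eq_mul_inv, mul_one_div, div_le_div_iff₀ hE hP]
  calc s ^ n * ((n : ℝ) + 1) ^ (3 / 2 : ℝ) ≤ (2 ^ n) ^ 3 := h4
    _ = 6 / c ^ 3 * ((c * 2 ^ n) ^ 3 / 6) := by field_simp
    _ ≤ 6 / c ^ 3 * Real.exp (c * 2 ^ n) := by
      apply mul_le_mul_of_nonneg_left h1
      positivity

lemma sum_geo {r : ℝ} (hr : 0 ≤ r) (hr1 : r < 1) :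
    ∃ S : ℝ, 0 < S ∧ ∑' a : ℕ, ENNReal.ofReal (r ^ a * ((a : ℝ) + 1) ^ 2) ≤ ENNReal.ofReal S := by
  have hn : ‖r‖ < 1 := by rw [Real.norm_eq_abs, abs_of_nonneg hr]; exact hr1
  have h2 := summable_pow_mul_geometric_of_norm_lt_one 2 hn
  have h1 := summable_pow_mul_geometric_of_norm_lt_one 1 hn
  have h0 := summable_pow_mul_geometric_of_norm_lt_one 0 hn
  have h : Summable (fun a : ℕ => r ^ a * ((a : ℝ) + 1) ^ 2) := by
    refine ((h2.add (h1.mul_left 2)).add h0).congr fun a => ?_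
    ring
  refine ⟨∑' a : ℕ, r ^ a * ((a : ℝ) + 1) ^ 2 + 1, ?_, ?_⟩
  · have : 0 ≤ ∑' a : ℕ, r ^ a * ((a : ℝ) + 1) ^ 2 := tsum_nonneg fun a => by positivity
    linarith
  · rw [← ENNReal.ofReal_tsum_of_nonneg (fun a => by positivity) h]
    exact ENNReal.ofReal_le_ofReal (by linarith)

/-! ### The two terms -/

/-- the first block: paths whose end is the first minimum -/
def fb (t : ℝ) (a : ℕ) {j : ℕ} (μ : Fin j → ℕ) : ENNReal :=
  if (∀ i < j, X μ j < X μ i) ∧ X μ j = -(a : ℤ) then ENNReal.ofReal (Real.exp (t * Q μ j)) else 0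

/-- the second block: paths above `0` -/
def sb (t : ℝ) (b : ℕ) {n : ℕ} (μ : Fin n → ℕ) : ENNReal :=
  if (∀ i ≤ n, 0 ≤ X μ i) ∧ X μ n = (b : ℤ) then ENNReal.ofReal (Real.exp (t * Q μ n)) else 0

lemma PW_fb (t : ℝ) (a j : ℕ) : PW j (fb t a) = ENNReal.ofReal (kpw t j 0 a) := by
  rw [← path_kernel_min t j a]
  rfl

lemma PW_sb (t : ℝ) (b n : ℕ) : PW n (sb t b) = ENNReal.ofReal (kpw t n (b + 1) 1) := by
  have := path_kernel t n 0 b 0 (by simp) (by simp)
  have h1 : ((b : ℤ) + 0 + 1).toNat = b + 1 := by omega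
  have h2 : ((0 : ℤ) + 0 + 1).toNat = 1 := by simp
  rw [h1, h2] at this
  rw [← this]
  congr 1
  funext μ
  simp [sb]

lemma A_term (c : ℝ) {r s : ℝ} (hr : 0 ≤ r) (hs : 1 ≤ s) (j n a : ℕ) :
    PW (j + n) (fun ν => if MM j a ν then ENNReal.ofReal (r ^ a * s ^ (X ν (j + n) + a) *
      (if c * 2 ^ (j + n) ≤ 2 ^ j * Q ν j then 1 else 0)) else 0) ≤
    ENNReal.ofReal (kpw 1 j 0 a) * ENNReal.ofReal (r ^ a * e c s n) := by
  rw [PW_append, ← PW_fb, ← PW_mul_const]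
  refine PW_mono fun μ => ?_
  rw [← PW_const (L := n) (fb 1 a μ * ENNReal.ofReal (r ^ a * e c s n))]
  refine PW_mono fun μ' => ?_
  by_cases hM : MM j a (Fin.append μ μ')
  swap
  · simp [hM]
  rw [if_pos hM]
  by_cases hI : c * 2 ^ (j + n) ≤ 2 ^ j * Q (Fin.append μ μ') j
  swap
  · rw [if_neg hI]; simp
  rw [if_pos hI, mul_one]
  obtain ⟨h1, h2, h3⟩ := hM
  rw [Q_append_left μ μ' le_rfl] at hI
  rw [X_append_left μ μ' le_rfl] at h1 h3
  have h1' : ∀ i < j, X μ j < X μ i := by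
    intro i hi
    have := h1 i hi
    rwa [X_append_left μ μ' hi.le] at this
  unfold fb
  rw [if_pos ⟨h1', h3⟩, ← ENNReal.ofReal_mul (by positivity)]
  apply ENNReal.ofReal_le_ofReal
  rw [X_append_right, h3]
  have h4 : -(a : ℤ) + X μ' n + a = X μ' n := by ring
  rw [h4]
  have h5 : s ^ (X μ' n) ≤ s ^ n := by
    rw [← zpow_natCast]
    exact zpow_le_zpow_right₀ hs (X_le μ' n)
  have h6 : c * 2 ^ n ≤ Q μ j := by
    have h2j : (0 : ℝ) < 2 ^ j := by positivity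
    have : 2 ^ j * (c * 2 ^ n) ≤ 2 ^ j * Q μ j := by
      calc 2 ^ j * (c * 2 ^ n) = c * 2 ^ (j + n) := by rw [pow_add]; ring
        _ ≤ _ := hI
    exact le_of_mul_le_mul_left this h2j
  have h7 : 1 ≤ Real.exp (1 * Q μ j) * Real.exp (-(c * 2 ^ n)) := by
    rw [← Real.exp_add]
    apply Real.one_le_exp
    linarith
  unfold e
  have hra : 0 ≤ r ^ a := by positivity
  have hsn : 0 < s ^ n := by positivity
  calc r ^ a * s ^ (X μ' n) ≤ r ^ a * s ^ n := mul_le_mul_of_nonneg_left h5 hra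
    _ = (r ^ a * s ^ n) * 1 := by ring
    _ ≤ (r ^ a * s ^ n) * (Real.exp (1 * Q μ j) * Real.exp (-(c * 2 ^ n))) :=
      mul_le_mul_of_nonneg_left h7 (by positivity)
    _ = _ := by ring

lemma B_term (c : ℝ) {r s : ℝ} (hr : 0 ≤ r) (hs : 1 ≤ s) (j k n a : ℕ) :
    PW (j + (k + 1) + n) (fun ν => if MM j a ν then
      ENNReal.ofReal (r ^ a * s ^ (X ν (j + (k + 1) + n) + a) * ((Q ν j + 1) *
      (if c * 2 ^ (j + (k + 1) + n) ≤ 2 ^ (j + (k + 1)) * Q ν (j + (k + 1)) then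
        (ν (Fin.castAdd n (Fin.natAdd j (Fin.last k))) : ℝ) *
          (2 : ℝ) ^ (X ν j - X ν (j + (k + 1))) else 0))) else 0) ≤
    ∑' b : ℕ, ENNReal.ofReal (kpw 2 j 0 a) * (ENNReal.ofReal (kpw 2 (k + 1) (b + 1) 1) *
      ENNReal.ofReal (r ^ a * ((s / 2) ^ b * e c s n))) := by
  rw [PW_append, PW_append, ENNReal.tsum_mul_left, ← PW_fb, ← PW_mul_const]
  refine PW_mono fun μ => ?_
  have hR : fb 2 a μ * ∑' b : ℕ, (ENNReal.ofReal (kpw 2 (k + 1) (b + 1) 1) *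
      ENNReal.ofReal (r ^ a * ((s / 2) ^ b * e c s n))) = PW (k + 1) (fun μ' => ∑' b : ℕ,
      fb 2 a μ * (sb 2 b μ' * ENNReal.ofReal (r ^ a * ((s / 2) ^ b * e c s n)))) := by
    rw [PW_tsum, ← ENNReal.tsum_mul_left]
    refine tsum_congr fun b => ?_
    rw [PW_const_mul, PW_mul_const, PW_sb]
  rw [hR]
  refine PW_mono fun μ' => ?_
  rw [← PW_const (L := n) (∑' b : ℕ,
      fb 2 a μ * (sb 2 b μ' * ENNReal.ofReal (r ^ a * ((s / 2) ^ b * e c s n))))]
  refine PW_mono fun μ'' => ?_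
  by_cases hM : MM j a (Fin.append (Fin.append μ μ') μ'')
  swap
  · simp [hM]
  rw [if_pos hM]
  by_cases hI : c * 2 ^ (j + (k + 1) + n) ≤ 2 ^ (j + (k + 1)) *
      Q (Fin.append (Fin.append μ μ') μ'') (j + (k + 1))
  swap
  · rw [if_neg hI]; simp
  rw [if_pos hI]
  obtain ⟨h1, h2, h3⟩ := hM
  have hXj : X (Fin.append (Fin.append μ μ') μ'') j = X μ j := by
    rw [X_append_left _ _ (by omega), X_append_left _ _ le_rfl]
  have hXk : ∀ i ≤ k + 1, X (Fin.append (Fin.append μ μ') μ'') (j + i) = X μ j + X μ' i := by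
    intro i hi
    rw [X_append_left _ _ (by omega), X_append_right]
  have hXn : X (Fin.append (Fin.append μ μ') μ'') (j + (k + 1) + n) =
      X μ j + X μ' (k + 1) + X μ'' n := by
    rw [X_append_right, X_append_right]
  rw [hXj] at h1 h3
  have h1' : ∀ i < j, X μ j < X μ i := by
    intro i hi
    have := h1 i hi
    rwa [X_append_left _ _ (by omega), X_append_left _ _ hi.le] at this
  have h2' : ∀ i ≤ k + 1, 0 ≤ X μ' i := by
    intro i hi
    have := h2 (j + i) (by omega) (by omega)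
    rw [hXj, hXk i hi] at this
    omega
  obtain ⟨b, hb⟩ : ∃ b : ℕ, X μ' (k + 1) = (b : ℤ) := ⟨(X μ' (k + 1)).toNat, by
    have := h2' (k + 1) le_rfl
    omega⟩
  refine le_trans ?_ (ENNReal.le_tsum b)
  unfold fb sb
  rw [if_pos ⟨h1', h3⟩, if_pos ⟨h2', hb⟩, ← ENNReal.ofReal_mul (by positivity),
    ← ENNReal.ofReal_mul (by positivity)]
  apply ENNReal.ofReal_le_ofReal
  have hQj : Q (Fin.append (Fin.append μ μ') μ'') j = Q μ j := by
    rw [Q_append_left _ _ (by omega), Q_append_left _ _ le_rfl]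
  have hQk : Q (Fin.append (Fin.append μ μ') μ'') (j + (k + 1)) =
      Q μ j / 2 ^ (k + 1) + Q μ' (k + 1) := by
    rw [Q_append_left _ _ le_rfl, Q_append_right]
  rw [hQk] at hI
  have hXk' := hXk (k + 1) le_rfl
  rw [hQj, hXn, hXk', hXj, hb, h3, Fin.append_left, Fin.append_right]
  have h4 : -(a : ℤ) + b + X μ'' n + a = (b : ℤ) + X μ'' n := by ring
  have h4' : -(a : ℤ) - (-(a : ℤ) + b) = -(b : ℤ) := by ring
  have hs0 : (0 : ℝ) < s := by linarith
  rw [h4, h4', zpow_add₀ hs0.ne', zpow_natCast, zpow_neg, zpow_natCast]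
  have h5 : s ^ (X μ'' n) ≤ s ^ n := by
    rw [← zpow_natCast]
    exact zpow_le_zpow_right₀ hs (X_le μ'' n)
  have hQ1 := Q_nonneg μ j
  have hQ2 := Q_nonneg μ' (k + 1)
  have h6 : c * 2 ^ n ≤ Q μ j + Q μ' (k + 1) := by
    have h2j : (0 : ℝ) < 2 ^ (j + (k + 1)) := by positivity
    have : 2 ^ (j + (k + 1)) * (c * 2 ^ n) ≤ 2 ^ (j + (k + 1)) *
        (Q μ j / 2 ^ (k + 1) + Q μ' (k + 1)) := by
      calc 2 ^ (j + (k + 1)) * (c * 2 ^ n) = c * 2 ^ (j + (k + 1) + n) := by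
            rw [pow_add _ _ n]; ring
        _ ≤ _ := hI
    have h8 := le_of_mul_le_mul_left this h2j
    have h9 : Q μ j / 2 ^ (k + 1) ≤ Q μ j := by
      apply div_le_self hQ1
      exact one_le_pow₀ (by norm_num)
    linarith
  have h7 : (μ' (Fin.last k) : ℝ) ≤ Real.exp (Q μ' (k + 1)) := by
    have h8 := nu_le_Q μ' (Fin.last k)
    simp only [Fin.val_last] at h8
    have h9 := Real.add_one_le_exp (Q μ' (k + 1))
    linarith
  have h10 : Q μ j + 1 ≤ Real.exp (Q μ j) := Real.add_one_le_exp _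
  have h11 : 1 ≤ Real.exp (Q μ j) * Real.exp (Q μ' (k + 1)) * Real.exp (-(c * 2 ^ n)) := by
    rw [← Real.exp_add, ← Real.exp_add]
    apply Real.one_le_exp
    linarith
  have h12 : (Q μ j + 1) * (μ' (Fin.last k) : ℝ) ≤ Real.exp (2 * Q μ j) *
      (Real.exp (2 * Q μ' (k + 1)) * Real.exp (-(c * 2 ^ n))) := by
    have h13 : (Q μ j + 1) * (μ' (Fin.last k) : ℝ) ≤
        Real.exp (Q μ j) * Real.exp (Q μ' (k + 1)) :=
      mul_le_mul h10 h7 (by positivity) (by positivity)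
    calc (Q μ j + 1) * (μ' (Fin.last k) : ℝ)
        ≤ (Real.exp (Q μ j) * Real.exp (Q μ' (k + 1))) * 1 := by rw [mul_one]; exact h13
      _ ≤ (Real.exp (Q μ j) * Real.exp (Q μ' (k + 1))) *
        (Real.exp (Q μ j) * Real.exp (Q μ' (k + 1)) * Real.exp (-(c * 2 ^ n))) :=
          mul_le_mul_of_nonneg_left h11 (by positivity)
      _ = _ := by
        rw [two_mul, two_mul, Real.exp_add, Real.exp_add]
        ring
  unfold e
  have hra : 0 ≤ r ^ a := by positivity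
  have hsn : 0 < s ^ n := by positivity
  calc r ^ a * (s ^ b * s ^ (X μ'' n)) *
        ((Q μ j + 1) * ((μ' (Fin.last k) : ℝ) * ((2 : ℝ) ^ b)⁻¹))
      = (r ^ a * (s ^ b * ((2 : ℝ) ^ b)⁻¹)) * (s ^ (X μ'' n) *
        ((Q μ j + 1) * (μ' (Fin.last k) : ℝ))) := by ring
    _ ≤ (r ^ a * (s ^ b * ((2 : ℝ) ^ b)⁻¹)) * (s ^ n * (Real.exp (2 * Q μ j) *
      (Real.exp (2 * Q μ' (k + 1)) * Real.exp (-(c * 2 ^ n))))) := by
        apply mul_le_mul_of_nonneg_left _ (by positivity)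
        exact mul_le_mul h5 h12 (by positivity) hsn.le
    _ = _ := by
      rw [div_pow]
      ring

/-! ### The sums -/

lemma A_sum {c : ℝ} {r s C0 S : ℝ} (hC0 : 0 < C0) (hr : 0 ≤ r) (hs : 1 ≤ s)
    (hk : ∀ n a : ℕ, kpw 1 n 0 a ≤ C0 * w n * ((a : ℝ) + 1) ^ 2)
    (hS : ∑' a : ℕ, ENNReal.ofReal (r ^ a * ((a : ℝ) + 1) ^ 2) ≤ ENNReal.ofReal S)
    {L j : ℕ} (hj : j ≤ L) :
    ∑' a : ℕ, PW L (fun ν => if MM j a ν then ENNReal.ofReal (r ^ a * s ^ (X ν L + a) *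
      (if c * 2 ^ L ≤ 2 ^ j * Q ν j then 1 else 0)) else 0) ≤
    ENNReal.ofReal (C0 * S * (w j * e c s (L - j))) := by
  obtain ⟨n, rfl⟩ := Nat.exists_eq_add_of_le hj
  rw [Nat.add_sub_cancel_left]
  have he : 0 ≤ e c s n := e_nonneg (by linarith) n
  have hw := w_pos j
  calc ∑' a : ℕ, PW (j + n) (fun ν => if MM j a ν then ENNReal.ofReal (r ^ a *
        s ^ (X ν (j + n) + a) * (if c * 2 ^ (j + n) ≤ 2 ^ j * Q ν j then 1 else 0)) else 0)
      ≤ ∑' a : ℕ, ENNReal.ofReal (C0 * w j * e c s n) *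
        ENNReal.ofReal (r ^ a * ((a : ℝ) + 1) ^ 2) := by
        refine ENNReal.tsum_le_tsum fun a => ?_
        refine (A_term c hr hs j n a).trans ?_
        rw [← ENNReal.ofReal_mul' (by positivity), ← ENNReal.ofReal_mul (by positivity)]
        apply ENNReal.ofReal_le_ofReal
        calc kpw 1 j 0 a * (r ^ a * e c s n)
            ≤ (C0 * w j * ((a : ℝ) + 1) ^ 2) * (r ^ a * e c s n) :=
              mul_le_mul_of_nonneg_right (hk j a) (by positivity)
          _ = _ := by ring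
    _ = ENNReal.ofReal (C0 * w j * e c s n) *
        ∑' a : ℕ, ENNReal.ofReal (r ^ a * ((a : ℝ) + 1) ^ 2) := ENNReal.tsum_mul_left
    _ ≤ ENNReal.ofReal (C0 * w j * e c s n) * ENNReal.ofReal S := by gcongr
    _ = _ := by
      rw [← ENNReal.ofReal_mul (by positivity)]
      congr 1
      ring

lemma B_sum {c : ℝ} {r s C0 S S2 : ℝ} (hC0 : 0 < C0) (hr : 0 ≤ r) (hs : 1 ≤ s) (hS0 : 0 < S)
    (hk : ∀ n a : ℕ, kpw 2 n 0 a ≤ C0 * w n * ((a : ℝ) + 1) ^ 2)
    (hk2 : ∀ n b : ℕ, kpw 2 n (b + 1) 1 ≤ 8 * C0 * w n * ((b : ℝ) + 1) ^ 2)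
    (hS : ∑' a : ℕ, ENNReal.ofReal (r ^ a * ((a : ℝ) + 1) ^ 2) ≤ ENNReal.ofReal S)
    (hS2 : ∑' a : ℕ, ENNReal.ofReal ((s / 2) ^ a * ((a : ℝ) + 1) ^ 2) ≤ ENNReal.ofReal S2)
    {L j : ℕ} (l : Fin L) (hj : j ≤ (l : ℕ)) :
    ∑' a : ℕ, PW L (fun ν => if MM j a ν then ENNReal.ofReal (r ^ a * s ^ (X ν L + a) *
      ((Q ν j + 1) * (if c * 2 ^ L ≤ 2 ^ ((l : ℕ) + 1) * Q ν (l + 1) then
        (ν l : ℝ) * (2 : ℝ) ^ (X ν j - X ν (l + 1)) else 0))) else 0) ≤
    ENNReal.ofReal (8 * C0 ^ 2 * S * S2 * (w j * w (l + 1 - j) * e c s (L - (l + 1)))) := by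
  obtain ⟨k, hk'⟩ := Nat.exists_eq_add_of_le hj
  obtain ⟨n, hn⟩ := Nat.exists_eq_add_of_le (show j + (k + 1) ≤ L by have := l.2; omega)
  subst hn
  obtain rfl : l = Fin.castAdd n (Fin.natAdd j (Fin.last k)) := Fin.ext (by simpa using hk')
  have hv : ((Fin.castAdd n (Fin.natAdd j (Fin.last k)) : Fin (j + (k + 1) + n)) : ℕ) + 1 =
      j + (k + 1) := by simp; omega
  rw [hv]
  have h1 : j + (k + 1) - j = k + 1 := by omega
  have h2 : j + (k + 1) + n - (j + (k + 1)) = n := by omega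
  rw [h1, h2]
  have he : 0 ≤ e c s n := e_nonneg (by linarith) n
  have hw := w_pos j
  have hw2 := w_pos (k + 1)
  calc _ ≤ ∑' a : ℕ, ∑' b : ℕ, ENNReal.ofReal (kpw 2 j 0 a) *
        (ENNReal.ofReal (kpw 2 (k + 1) (b + 1) 1) *
        ENNReal.ofReal (r ^ a * ((s / 2) ^ b * e c s n))) :=
        ENNReal.tsum_le_tsum fun a => B_term c hr hs j k n a
    _ ≤ ∑' a : ℕ, ∑' b : ℕ, ENNReal.ofReal (8 * C0 ^ 2 * (w j * w (k + 1) * e c s n)) *
        ENNReal.ofReal (r ^ a * ((a : ℝ) + 1) ^ 2) *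
        ENNReal.ofReal ((s / 2) ^ b * ((b : ℝ) + 1) ^ 2) := by
        refine ENNReal.tsum_le_tsum fun a => ENNReal.tsum_le_tsum fun b => ?_
        rcases le_or_gt (kpw 2 j 0 a) 0 with h0 | h0
        · rw [ENNReal.ofReal_eq_zero.2 h0, zero_mul]
          exact zero_le
        have hz : 0 ≤ r ^ a * ((s / 2) ^ b * e c s n) := by positivity
        rw [← ENNReal.ofReal_mul' hz, ← ENNReal.ofReal_mul h0.le,
          ← ENNReal.ofReal_mul (by positivity), ← ENNReal.ofReal_mul (by positivity)]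
        apply ENNReal.ofReal_le_ofReal
        calc kpw 2 j 0 a * (kpw 2 (k + 1) (b + 1) 1 * (r ^ a * ((s / 2) ^ b * e c s n)))
            ≤ kpw 2 j 0 a * ((8 * C0 * w (k + 1) * ((b : ℝ) + 1) ^ 2) *
              (r ^ a * ((s / 2) ^ b * e c s n))) := by
              apply mul_le_mul_of_nonneg_left _ h0.le
              exact mul_le_mul_of_nonneg_right (hk2 _ _) (by positivity)
          _ ≤ (C0 * w j * ((a : ℝ) + 1) ^ 2) * ((8 * C0 * w (k + 1) * ((b : ℝ) + 1) ^ 2) *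
              (r ^ a * ((s / 2) ^ b * e c s n))) :=
              mul_le_mul_of_nonneg_right (hk _ _) (by positivity)
          _ = _ := by ring
    _ = ENNReal.ofReal (8 * C0 ^ 2 * (w j * w (k + 1) * e c s n)) *
        (∑' a : ℕ, ENNReal.ofReal (r ^ a * ((a : ℝ) + 1) ^ 2)) *
        ∑' b : ℕ, ENNReal.ofReal ((s / 2) ^ b * ((b : ℝ) + 1) ^ 2) := by
        simp_rw [ENNReal.tsum_mul_left, ENNReal.tsum_mul_right, ENNReal.tsum_mul_left]
    _ ≤ ENNReal.ofReal (8 * C0 ^ 2 * (w j * w (k + 1) * e c s n)) * ENNReal.ofReal S *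
        ENNReal.ofReal S2 := by gcongr
    _ = _ := by
      rw [← ENNReal.ofReal_mul (by positivity), ← ENNReal.ofReal_mul (by positivity)]
      congr 1
      ring

/-- the sum over the first minimum -/
lemma master {c : ℝ} (hc : 0 < c) {r s : ℝ} (hr : 0 ≤ r) (hr1 : r < 1) (hs : 1 ≤ s) (hs2 : s < 2) :
    ∃ C : ℝ, 0 < C ∧ ∀ L : ℕ, ∑ j ∈ range (L + 1), ∑' a : ℕ, PW L (fun ν => if MM j a ν then
      ENNReal.ofReal (r ^ a * s ^ (X ν L + a) * Hj c ν j) else 0) ≤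
      ENNReal.ofReal (C * w L) := by
  obtain ⟨C0, hC0, hk⟩ := kpw_le 2
  obtain ⟨S, hS0, hS⟩ := sum_geo hr hr1
  obtain ⟨S2, hS20, hS2⟩ := sum_geo (r := s / 2) (by linarith) (by linarith)
  obtain ⟨K, hK, hKe⟩ := e_le hc hs hs2
  obtain ⟨D, hD, hconv⟩ := conv_le
  have hk1 : ∀ n a : ℕ, kpw 1 n 0 a ≤ C0 * w n * ((a : ℝ) + 1) ^ 2 := by
    intro n a
    have := hk 1 n 0 a (by norm_num) (by norm_num)
    refine this.trans (le_of_eq ?_)
    unfold w
    push_cast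
    ring
  have hk2 : ∀ n a : ℕ, kpw 2 n 0 a ≤ C0 * w n * ((a : ℝ) + 1) ^ 2 := by
    intro n a
    have := hk 2 n 0 a (by norm_num) le_rfl
    refine this.trans (le_of_eq ?_)
    unfold w
    push_cast
    ring
  have hk3 : ∀ n b : ℕ, kpw 2 n (b + 1) 1 ≤ 8 * C0 * w n * ((b : ℝ) + 1) ^ 2 := by
    intro n b
    have := hk 2 n (b + 1) 1 (by norm_num) le_rfl
    refine this.trans ?_
    have h1 : C0 * (((b + 1 : ℕ) : ℝ) + 1) * (((1 : ℕ) : ℝ) + 1) ^ 2 /
        ((n : ℝ) + 1) ^ (3 / 2 : ℝ) = C0 * w n * (4 * ((b : ℝ) + 2)) := by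
      unfold w
      push_cast
      ring
    rw [h1]
    have h2 : 4 * ((b : ℝ) + 2) ≤ 8 * ((b : ℝ) + 1) ^ 2 := by
      have : (0 : ℝ) ≤ b := Nat.cast_nonneg b
      nlinarith
    have h3 := mul_le_mul_of_nonneg_left h2 (mul_pos hC0 (w_pos n)).le
    linarith
  refine ⟨C0 * S * K * D + 8 * C0 ^ 2 * S * S2 * K * D ^ 2, by positivity, ?_⟩
  intro L
  -- splitting
  have hsplit : ∀ j ∈ range (L + 1), ∑' a : ℕ, PW L (fun ν => if MM j a ν then
      ENNReal.ofReal (r ^ a * s ^ (X ν L + a) * Hj c ν j) else 0) ≤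
      ENNReal.ofReal (C0 * S * (w j * e c s (L - j))) + ∑ l : Fin L, if j ≤ (l : ℕ) then
        ENNReal.ofReal (8 * C0 ^ 2 * S * S2 * (w j * w (l + 1 - j) * e c s (L - (l + 1))))
        else 0 := by
    intro j hj
    have hj' : j ≤ L := by simpa [Nat.lt_succ_iff] using hj
    have hp : ∀ a : ℕ, PW L (fun ν => if MM j a ν then
        ENNReal.ofReal (r ^ a * s ^ (X ν L + a) * Hj c ν j) else 0) ≤
        PW L (fun ν => if MM j a ν then ENNReal.ofReal (r ^ a * s ^ (X ν L + a) *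
          (if c * 2 ^ L ≤ 2 ^ j * Q ν j then 1 else 0)) else 0) +
        ∑ l : Fin L, if j ≤ (l : ℕ) then PW L (fun ν => if MM j a ν then
          ENNReal.ofReal (r ^ a * s ^ (X ν L + a) *
          ((Q ν j + 1) * (if c * 2 ^ L ≤ 2 ^ ((l : ℕ) + 1) * Q ν (l + 1) then
          (ν l : ℝ) * (2 : ℝ) ^ (X ν j - X ν (l + 1)) else 0))) else 0) else 0 := by
      intro a
      have hl : ∀ l : Fin L, (if j ≤ (l : ℕ) then PW L (fun ν => if MM j a ν then
          ENNReal.ofReal (r ^ a * s ^ (X ν L + a) *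
          ((Q ν j + 1) * (if c * 2 ^ L ≤ 2 ^ ((l : ℕ) + 1) * Q ν (l + 1) then
          (ν l : ℝ) * (2 : ℝ) ^ (X ν j - X ν (l + 1)) else 0))) else 0) else 0) =
          PW L (fun ν => if j ≤ (l : ℕ) then (if MM j a ν then
          ENNReal.ofReal (r ^ a * s ^ (X ν L + a) *
          ((Q ν j + 1) * (if c * 2 ^ L ≤ 2 ^ ((l : ℕ) + 1) * Q ν (l + 1) then
          (ν l : ℝ) * (2 : ℝ) ^ (X ν j - X ν (l + 1)) else 0))) else 0) else 0) := by
        intro l
        split_ifs with h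
        · rfl
        · rw [PW_zero]
      rw [Finset.sum_congr rfl fun l _ => hl l, ← PW_sum, ← PW_add]
      refine PW_mono fun ν => ?_
      by_cases hM : MM j a ν
      swap
      · simp [hM]
      simp only [if_pos hM]
      have hs0 : (0 : ℝ) < s := by linarith
      have hW : 0 ≤ r ^ a * s ^ (X ν L + a) := by positivity
      unfold Hj
      rw [mul_add]
      refine ENNReal.ofReal_add_le.trans ?_
      gcongr
      rw [Finset.mul_sum, Finset.mul_sum]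
      have hQ := Q_nonneg ν j
      have hnn : ∀ l : Fin L, 0 ≤ r ^ a * s ^ (X ν L + a) * ((Q ν j + 1) *
          (if j ≤ (l : ℕ) ∧ c * 2 ^ L ≤ 2 ^ ((l : ℕ) + 1) * Q ν (l + 1) then
          (ν l : ℝ) * (2 : ℝ) ^ (X ν j - X ν (l + 1)) else 0)) := by
        intro l
        split_ifs <;> positivity
      rw [ENNReal.ofReal_sum_of_nonneg fun l _ => hnn l]
      refine Finset.sum_le_sum fun l _ => ?_
      by_cases hjl : j ≤ (l : ℕ)
      · simp [hjl]
      · simp [hjl]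
    refine (ENNReal.tsum_le_tsum hp).trans ?_
    rw [ENNReal.tsum_add]
    refine add_le_add (A_sum hC0 hr hs hk1 hS hj') ?_
    rw [Summable.tsum_finsetSum (fun _ _ => ENNReal.summable)]
    refine Finset.sum_le_sum fun l _ => ?_
    split_ifs with h
    · exact B_sum hC0 hr hs hS0 hk2 hk3 hS hS2 l h
    · simp
  refine (Finset.sum_le_sum hsplit).trans ?_
  have hen : ∀ n, 0 ≤ e c s n := fun n => e_nonneg (by linarith) n
  have hw0 : ∀ n, 0 ≤ w n := fun n => (w_pos n).le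
  rw [Finset.sum_add_distrib]
  have hA : ∑ j ∈ range (L + 1), ENNReal.ofReal (C0 * S * (w j * e c s (L - j))) ≤
      ENNReal.ofReal (C0 * S * K * D * w L) := by
    rw [← ENNReal.ofReal_sum_of_nonneg fun j _ => by have := hen (L - j); have := hw0 j; positivity]
    apply ENNReal.ofReal_le_ofReal
    rw [← Finset.mul_sum]
    have h1 : ∑ j ∈ range (L + 1), w j * e c s (L - j) ≤
        ∑ j ∈ range (L + 1), K * (w j * w (L - j)) := by
      refine Finset.sum_le_sum fun j _ => ?_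
      calc w j * e c s (L - j) ≤ w j * (K * w (L - j)) :=
            mul_le_mul_of_nonneg_left (hKe _) (hw0 j)
        _ = _ := by ring
    rw [← Finset.mul_sum] at h1
    have h2 := mul_le_mul_of_nonneg_left (hconv L) hK.le
    calc C0 * S * ∑ j ∈ range (L + 1), w j * e c s (L - j)
        ≤ C0 * S * (K * (D * w L)) :=
          mul_le_mul_of_nonneg_left (h1.trans h2) (by positivity)
      _ = _ := by ring
  have hB : ∑ j ∈ range (L + 1), ∑ l : Fin L, (if j ≤ (l : ℕ) then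
        ENNReal.ofReal (8 * C0 ^ 2 * S * S2 * (w j * w (l + 1 - j) * e c s (L - (l + 1))))
        else 0) ≤ ENNReal.ofReal (8 * C0 ^ 2 * S * S2 * K * D ^ 2 * w L) := by
    have h1 : ∀ (j : ℕ) (l : Fin L), (if j ≤ (l : ℕ) then
        ENNReal.ofReal (8 * C0 ^ 2 * S * S2 * (w j * w (l + 1 - j) * e c s (L - (l + 1))))
        else 0) ≤ ENNReal.ofReal (8 * C0 ^ 2 * S * S2 * K * (if j ≤ (l : ℕ) then
          (w j * w (l + 1 - j) * w (L - (l + 1))) else 0)) := by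
      intro j l
      split_ifs with h
      · apply ENNReal.ofReal_le_ofReal
        calc 8 * C0 ^ 2 * S * S2 * (w j * w (l + 1 - j) * e c s (L - (l + 1)))
            ≤ 8 * C0 ^ 2 * S * S2 * (w j * w (l + 1 - j) * (K * w (L - (l + 1)))) := by
              have ha := hw0 j
              have hb := hw0 (l + 1 - j)
              apply mul_le_mul_of_nonneg_left _ (by positivity)
              exact mul_le_mul_of_nonneg_left (hKe _) (by positivity)
          _ = _ := by ring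
      · exact zero_le
    have hnn : ∀ (j : ℕ) (l : Fin L), 0 ≤ 8 * C0 ^ 2 * S * S2 * K * (if j ≤ (l : ℕ) then
          (w j * w (l + 1 - j) * w (L - (l + 1))) else 0) := by
      intro j l
      have ha := hw0 j
      have hb := hw0 (l + 1 - j)
      have hd := hw0 (L - (l + 1))
      split_ifs <;> positivity
    refine (Finset.sum_le_sum fun j _ => Finset.sum_le_sum fun l _ => h1 j l).trans ?_
    simp_rw [← ENNReal.ofReal_sum_of_nonneg fun l _ => hnn _ l]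
    rw [← ENNReal.ofReal_sum_of_nonneg fun j _ => Finset.sum_nonneg fun l _ => hnn j l]
    apply ENNReal.ofReal_le_ofReal
    simp_rw [← Finset.mul_sum]
    rw [Finset.sum_comm]
    have h2 : ∀ l : Fin L, ∑ j ∈ range (L + 1), (if j ≤ (l : ℕ) then
          (w j * w (l + 1 - j) * w (L - (l + 1))) else 0) ≤
          D * (w (l + 1) * w (L - (l + 1))) := by
      intro l
      have h3 : ∑ j ∈ range (L + 1), (if j ≤ (l : ℕ) then
          (w j * w (l + 1 - j) * w (L - (l + 1))) else 0) =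
          ∑ j ∈ range ((l : ℕ) + 1), w j * w (l + 1 - j) * w (L - (l + 1)) := by
        rw [← Finset.sum_filter]
        congr 1
        ext j
        have := l.2
        simp only [Finset.mem_filter, Finset.mem_range]
        omega
      rw [h3, ← Finset.sum_mul]
      have h4 : ∑ j ∈ range ((l : ℕ) + 1), w j * w (l + 1 - j) ≤
          ∑ j ∈ range ((l : ℕ) + 1 + 1), w j * w (l + 1 - j) := by
        rw [Finset.sum_range_succ _ ((l : ℕ) + 1)]
        have ha := hw0 (l + 1)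
        have hb := hw0 (l + 1 - (l + 1))
        have := mul_nonneg ha hb
        linarith
      have h5 := h4.trans (hconv (l + 1))
      calc (∑ j ∈ range ((l : ℕ) + 1), w j * w (l + 1 - j)) * w (L - (l + 1))
          ≤ (D * w (l + 1)) * w (L - (l + 1)) := mul_le_mul_of_nonneg_right h5 (hw0 _)
        _ = _ := by ring
    have h6 : ∑ l : Fin L, D * (w (l + 1) * w (L - (l + 1))) ≤ D * (D * w L) := by
      rw [← Finset.mul_sum]
      apply mul_le_mul_of_nonneg_left _ hD.le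
      rw [Fin.sum_univ_eq_sum_range (fun i => w (i + 1) * w (L - (i + 1))) L]
      have h7 := hconv L
      rw [Finset.sum_range_succ'] at h7
      have h8 := mul_nonneg (hw0 0) (hw0 (L - 0))
      linarith
    calc 8 * C0 ^ 2 * S * S2 * K * ∑ l : Fin L, ∑ j ∈ range (L + 1), (if j ≤ (l : ℕ) then
          (w j * w (l + 1 - j) * w (L - (l + 1))) else 0)
        ≤ 8 * C0 ^ 2 * S * S2 * K * (D * (D * w L)) := by
          apply mul_le_mul_of_nonneg_left _ (by positivity)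
          exact (Finset.sum_le_sum fun l _ => h2 l).trans h6
      _ = _ := by ring
  refine (add_le_add hA hB).trans ?_
  rw [← ENNReal.ofReal_add (by have := hw0 L; positivity) (by have := hw0 L; positivity)]
  apply ENNReal.ofReal_le_ofReal
  apply le_of_eq
  ring

/-- the sum over all paths is at most the sum over the first minimum -/
lemma PW_le_MM {L : ℕ} (F : (Fin L → ℕ) → ENNReal) (G : ℕ → ℕ → (Fin L → ℕ) → ENNReal)
    (h : ∀ ν, ∀ j ≤ L, ∀ a : ℕ, MM j a ν → F ν ≤ G j a ν) :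
    PW L F ≤ ∑ j ∈ range (L + 1), ∑' a : ℕ, PW L (fun ν => if MM j a ν then G j a ν else 0) := by
  have h1 : ∑ j ∈ range (L + 1), ∑' a : ℕ, PW L (fun ν => if MM j a ν then G j a ν else 0) =
      PW L (fun ν => ∑ j ∈ range (L + 1), ∑' a : ℕ, if MM j a ν then G j a ν else 0) := by
    rw [PW_sum]
    refine Finset.sum_congr rfl fun j _ => ?_
    rw [PW_tsum]
  rw [h1]
  refine PW_mono fun ν => ?_
  obtain ⟨j, hj, a, hM⟩ := exists_MM ν
  calc F ν ≤ G j a ν := h ν j hj a hM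
    _ = if MM j a ν then G j a ν else 0 := by rw [if_pos hM]
    _ ≤ ∑' a : ℕ, if MM j a ν then G j a ν else 0 := ENNReal.le_tsum a
    _ ≤ _ := Finset.single_le_sum
      (f := fun j => ∑' a : ℕ, if MM j a ν then G j a ν else 0) (fun _ _ => zero_le)
      (by simp; omega)

lemma zz_bounds : (6 / 5 : ℝ) < zz ∧ zz < 5 / 3 := by
  have h1 := Real.log_two_lt_d9
  have h2 := Real.log_two_gt_d9
  have h3 : (0 : ℝ) < Real.log 2 := by linarith
  unfold zz
  constructor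
  · rw [lt_div_iff₀ h3]; linarith
  · rw [div_lt_iff₀ h3]; linarith

end Dom

open Dom in
theorem dom_all {c : ℝ} (hc : 0 < c) : ∃ C : ℝ, 0 < C ∧ ∀ (L : ℕ) (F : (Fin L → ℕ) → ℝ),
    (∀ ν, F ν ≤ 1) → (∀ ν, ∀ j ≤ L, F ν ≤ Hj c ν j) →
    PW L (fun ν => ENNReal.ofReal (zz ^ (X ν L) * F ν)) ≤
      ENNReal.ofReal (C / ((L : ℝ) + 1) ^ (3 / 2 : ℝ)) := by
  obtain ⟨hz1, hz2⟩ := zz_bounds
  have hz0 : (0 : ℝ) < zz := by linarith
  obtain ⟨C, hC, hm⟩ := master hc (r := 1 / zz) (s := zz) (by positivity)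
    (by rw [div_lt_one hz0]; linarith) (by linarith) (by linarith)
  refine ⟨C, hC, ?_⟩
  intro L F _ hF
  have h1 := PW_le_MM (fun ν : Fin L → ℕ => ENNReal.ofReal (zz ^ (X ν L) * F ν))
    (fun j a ν => ENNReal.ofReal ((1 / zz) ^ a * zz ^ (X ν L + a) * Hj c ν j)) ?_
  · refine (h1.trans (hm L)).trans (le_of_eq ?_)
    rw [w, mul_one_div]
  · intro ν j hj a hM
    apply ENNReal.ofReal_le_ofReal
    have h2 : (1 / zz) ^ a * zz ^ (X ν L + a) = zz ^ (X ν L) := by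
      rw [zpow_add₀ hz0.ne', zpow_natCast, one_div, inv_pow]
      field_simp
    rw [h2]
    exact mul_le_mul_of_nonneg_left (hF ν j hj) (by positivity)

open Dom in
theorem dom_bad {c : ℝ} (hc : 0 < c) : ∃ C ρ : ℝ, 0 < C ∧ 0 < ρ ∧ ρ < 1 ∧
    ∀ (L c1 c2 : ℕ) (F : (Fin L → ℕ) → ℝ),
    (∀ ν, F ν ≤ 1) → (∀ ν, ∀ j ≤ L, F ν ≤ Hj c ν j) → (∀ ν, E0 c1 c2 ν → F ν ≤ 0) →
    PW L (fun ν => ENNReal.ofReal (zz ^ (X ν L) * F ν)) ≤
      ENNReal.ofReal (C * (ρ ^ c1 + ρ ^ c2) / ((L : ℝ) + 1) ^ (3 / 2 : ℝ)) := by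
  obtain ⟨hz1, hz2⟩ := zz_bounds
  have hz0 : (0 : ℝ) < zz := by linarith
  obtain ⟨C1, hC1, hm1⟩ := master hc (r := 6 / 5 / zz) (s := zz) (by positivity)
    (by rw [div_lt_one hz0]; linarith) (by linarith) (by linarith)
  obtain ⟨C2, hC2, hm2⟩ := master hc (r := 1 / (6 / 5 * zz)) (s := 6 / 5 * zz) (by positivity)
    (by rw [div_lt_one (by positivity)]; linarith) (by linarith) (by linarith)
  refine ⟨C1 + C2, 5 / 6, by positivity, by norm_num, by norm_num, ?_⟩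
  intro L c1 c2 F _ hF hE
  have h1 := PW_le_MM (fun ν : Fin L → ℕ => ENNReal.ofReal (zz ^ (X ν L) * F ν))
    (fun j a ν => ENNReal.ofReal ((5 / 6) ^ c1) *
      ENNReal.ofReal ((6 / 5 / zz) ^ a * zz ^ (X ν L + a) * Hj c ν j) +
      ENNReal.ofReal ((5 / 6) ^ c2) *
      ENNReal.ofReal ((1 / (6 / 5 * zz)) ^ a * (6 / 5 * zz) ^ (X ν L + a) * Hj c ν j)) ?_
  · refine h1.trans ?_
    have h2 : ∀ j a : ℕ, PW L (fun ν => if MM j a ν then ENNReal.ofReal ((5 / 6) ^ c1) *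
        ENNReal.ofReal ((6 / 5 / zz) ^ a * zz ^ (X ν L + a) * Hj c ν j) +
        ENNReal.ofReal ((5 / 6) ^ c2) *
        ENNReal.ofReal ((1 / (6 / 5 * zz)) ^ a * (6 / 5 * zz) ^ (X ν L + a) * Hj c ν j) else 0) =
        ENNReal.ofReal ((5 / 6) ^ c1) * PW L (fun ν => if MM j a ν then
          ENNReal.ofReal ((6 / 5 / zz) ^ a * zz ^ (X ν L + a) * Hj c ν j) else 0) +
        ENNReal.ofReal ((5 / 6) ^ c2) * PW L (fun ν => if MM j a ν then
          ENNReal.ofReal ((1 / (6 / 5 * zz)) ^ a * (6 / 5 * zz) ^ (X ν L + a) * Hj c ν j)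
          else 0) := by
      intro j a
      rw [← PW_const_mul, ← PW_const_mul, ← PW_add]
      congr 1
      funext ν
      split_ifs <;> simp
    simp_rw [h2, ENNReal.tsum_add, ENNReal.tsum_mul_left, Finset.sum_add_distrib,
      ← Finset.mul_sum]
    have hw := w_pos L
    calc _ ≤ ENNReal.ofReal ((5 / 6) ^ c1) * ENNReal.ofReal (C1 * w L) +
          ENNReal.ofReal ((5 / 6) ^ c2) * ENNReal.ofReal (C2 * w L) := by
          refine add_le_add ?_ ?_
          · exact mul_le_mul_right (hm1 L) _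
          · exact mul_le_mul_right (hm2 L) _
      _ = ENNReal.ofReal ((5 / 6) ^ c1 * (C1 * w L) + (5 / 6) ^ c2 * (C2 * w L)) := by
          rw [← ENNReal.ofReal_mul (by positivity), ← ENNReal.ofReal_mul (by positivity),
            ← ENNReal.ofReal_add (by positivity) (by positivity)]
      _ ≤ _ := by
          apply ENNReal.ofReal_le_ofReal
          have h3 : (C1 + C2) * ((5 / 6 : ℝ) ^ c1 + (5 / 6) ^ c2) /
              ((L : ℝ) + 1) ^ (3 / 2 : ℝ) = (C1 + C2) * ((5 / 6 : ℝ) ^ c1 + (5 / 6) ^ c2) * w L := by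
            rw [w, mul_one_div]
          rw [h3]
          have h4 : (0 : ℝ) < (5 / 6) ^ c1 := by positivity
          have h5 : (0 : ℝ) < (5 / 6) ^ c2 := by positivity
          have h6 : 0 < C1 * (5 / 6 : ℝ) ^ c2 * w L := by positivity
          have h7 : 0 < C2 * (5 / 6 : ℝ) ^ c1 * w L := by positivity
          nlinarith
  · intro ν j hj a hM
    rcases le_or_gt (F ν) 0 with h0 | h0
    · have h2 : zz ^ (X ν L) * F ν ≤ 0 := mul_nonpos_of_nonneg_of_nonpos (by positivity) h0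
      rw [ENNReal.ofReal_eq_zero.2 h2]
      exact zero_le
    have hnE : ¬ E0 c1 c2 ν := fun h => absurd (hE ν h) (not_le.2 h0)
    have hH : 0 < Hj c ν j := lt_of_lt_of_le h0 (hF ν j hj)
    rw [← ENNReal.ofReal_mul (by positivity), ← ENNReal.ofReal_mul (by positivity),
      ← ENNReal.ofReal_add (by positivity) (by positivity)]
    apply ENNReal.ofReal_le_ofReal
    have h2 : (6 / 5 / zz) ^ a * zz ^ (X ν L + a) = (6 / 5 : ℝ) ^ a * zz ^ (X ν L) := by
      rw [zpow_add₀ hz0.ne', zpow_natCast, div_pow]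
      field_simp
    have h3 : (1 / (6 / 5 * zz)) ^ a * (6 / 5 * zz) ^ (X ν L + a) =
        (6 / 5 : ℝ) ^ (X ν L) * zz ^ (X ν L) := by
      have h30 : (6 / 5 * zz) ≠ 0 := by positivity
      rw [zpow_add₀ h30, zpow_natCast, one_div, inv_pow, ← mul_zpow]
      field_simp
    rw [h2, h3]
    have hzX : 0 < zz ^ (X ν L) := by positivity
    have h4 : (1 : ℝ) ≤ (5 / 6) ^ c1 * (6 / 5) ^ a + (5 / 6) ^ c2 * (6 / 5 : ℝ) ^ (X ν L) := by
      by_cases hac : c1 ≤ a
      · have h5 : (1 : ℝ) ≤ (5 / 6) ^ c1 * (6 / 5) ^ a := by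
          obtain ⟨d, rfl⟩ := Nat.exists_eq_add_of_le hac
          rw [pow_add, ← mul_assoc, ← mul_pow]
          have : (5 / 6 : ℝ) * (6 / 5) = 1 := by norm_num
          rw [this, one_pow, one_mul]
          exact one_le_pow₀ (by norm_num)
        have h6 : (0 : ℝ) < (5 / 6) ^ c2 * (6 / 5 : ℝ) ^ (X ν L) := by positivity
        linarith
      · have hX : (c2 : ℤ) ≤ X ν L := by
          by_contra hcon
          apply hnE
          refine ⟨?_, by omega⟩
          intro i hi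
          have hji : X ν j ≤ X ν i := by
            rcases lt_or_ge i j with h | h
            · exact (hM.1 i h).le
            · exact hM.2.1 i h hi
          have := hM.2.2
          omega
        have h5 : (1 : ℝ) ≤ (5 / 6) ^ c2 * (6 / 5 : ℝ) ^ (X ν L) := by
          have h6 : (6 / 5 : ℝ) ^ (c2 : ℤ) ≤ (6 / 5 : ℝ) ^ (X ν L) :=
            zpow_le_zpow_right₀ (by norm_num) hX
          rw [zpow_natCast] at h6
          have h7 : (5 / 6 : ℝ) ^ c2 * (6 / 5) ^ c2 = 1 := by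
            rw [← mul_pow]; norm_num
          rw [← h7]
          exact mul_le_mul_of_nonneg_left h6 (by positivity)
        have h6 : (0 : ℝ) < (5 / 6) ^ c1 * (6 / 5 : ℝ) ^ a := by positivity
        linarith
    calc zz ^ (X ν L) * F ν ≤ zz ^ (X ν L) * Hj c ν j :=
          mul_le_mul_of_nonneg_left (hF ν j hj) hzX.le
      _ = 1 * (zz ^ (X ν L) * Hj c ν j) := by ring
      _ ≤ ((5 / 6) ^ c1 * (6 / 5) ^ a + (5 / 6) ^ c2 * (6 / 5 : ℝ) ^ (X ν L)) *
          (zz ^ (X ν L) * Hj c ν j) := mul_le_mul_of_nonneg_right h4 (by positivity)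
      _ = _ := by ring

end Pool.Agent.EN
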