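import Mathlib
import Pool.Agent.Lib.MP_ec0ede_nt_EN.Defs1

/-!
# MP_ec0ede_nt, project EN, module Win: the windows of primes
-/

set_option autoImplicit false

noncomputable section

namespace Pool.Agent.EN

open Real Filter Topology Finset

theorem mem_win (u h : ℝ) (p : ℕ) :
    p ∈ win u h ↔ p.Prime ∧ u < Real.log p ∧ Real.log p ≤ u + h := by
  unfold win
  rw [Finset.mem_filter, Nat.mem_primesLE]
  constructor
  · rintro ⟨⟨h1, h2⟩, h3⟩
    have hp : (0 : ℝ) < p := by exact_mod_cast h2.pos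
    refine ⟨h2, h3, ?_⟩
    rw [Real.log_le_iff_le_exp hp]
    exact (Nat.le_floor_iff (Real.exp_pos _).le).1 h1
  · rintro ⟨h2, h3, h4⟩
    have hp : (0 : ℝ) < p := by exact_mod_cast h2.pos
    refine ⟨⟨?_, h2⟩, h3⟩
    rw [Real.log_le_iff_le_exp hp] at h4
    exact (Nat.le_floor_iff (Real.exp_pos _).le).2 h4

namespace Win

theorem ws_small {u h : ℝ} (hu : 0 ≤ u) (h1 : h ≤ 1) :
    ws u h ≤ (3 * Real.exp 1 * Real.log 4) / (u + 1) := by
  have key : ∀ p ∈ win u h, 1 / (p : ℝ) ≤ 3 / ((u + 1) * Real.exp u) * Real.log p := by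
    intro p hp
    obtain ⟨hp1, hp2, hp3⟩ := (mem_win u h p).1 hp
    have hp0 : (0 : ℝ) < p := by exact_mod_cast hp1.pos
    have hl2 : Real.log 2 ≤ Real.log p :=
      Real.log_le_log (by norm_num) (by exact_mod_cast hp1.two_le)
    have hl : (u + 1) / 3 ≤ Real.log p := by
      have := Real.log_two_gt_d9
      rcases le_total u (1 / 2) with h' | h' <;> linarith
    have hpe : Real.exp u ≤ p := by
      have := (Real.lt_log_iff_exp_lt hp0).1 hp2
      exact this.le
    have he := Real.exp_pos u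
    rw [div_mul_eq_mul_div, div_le_div_iff₀ hp0 (by positivity), one_mul]
    have h3 : u + 1 ≤ 3 * Real.log p := by linarith
    exact mul_le_mul h3 hpe he.le (by linarith)
  have h2 : ws u h ≤ ∑ p ∈ win u h, 3 / ((u + 1) * Real.exp u) * Real.log p :=
    Finset.sum_le_sum key
  have h3 : ∑ p ∈ win u h, Real.log (p : ℝ) ≤ Chebyshev.theta (Real.exp (u + 1)) := by
    rw [Chebyshev.theta_eq_sum_Icc]
    refine Finset.sum_le_sum_of_subset_of_nonneg ?_ ?_
    · intro p hp
      obtain ⟨hp1, hp2, hp3⟩ := (mem_win u h p).1 hp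
      have hp0 : (0 : ℝ) < p := by exact_mod_cast hp1.pos
      rw [Finset.mem_filter, Finset.mem_Icc]
      refine ⟨⟨Nat.zero_le _, (Nat.le_floor_iff (Real.exp_pos _).le).2 ?_⟩, hp1⟩
      rw [← Real.log_le_iff_le_exp hp0]
      linarith
    · intro p hp _
      rw [Finset.mem_filter] at hp
      exact Real.log_nonneg (by exact_mod_cast hp.2.one_lt.le)
  have h4 := Chebyshev.theta_le_log4_mul_x (Real.exp_pos (u + 1)).le
  rw [← Finset.mul_sum] at h2
  have hc : 0 ≤ 3 / ((u + 1) * Real.exp u) := by positivity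
  calc ws u h ≤ 3 / ((u + 1) * Real.exp u) * ∑ p ∈ win u h, Real.log (p : ℝ) := h2
    _ ≤ 3 / ((u + 1) * Real.exp u) * (Real.log 4 * Real.exp (u + 1)) :=
        mul_le_mul_of_nonneg_left (h3.trans h4) hc
    _ = (3 * Real.exp 1 * Real.log 4) / (u + 1) := by
        rw [Real.exp_add]
        have : Real.exp u ≠ 0 := (Real.exp_pos u).ne'
        have : u + 1 ≠ 0 := by positivity
        field_simp

theorem ws_split (u h : ℝ) : ws u h ≤ ws u 1 + ws (u + 1) (h - 1) := by
  classical
  unfold ws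
  have hd : Disjoint (win u 1) (win (u + 1) (h - 1)) := by
    rw [Finset.disjoint_left]
    intro p hp hp'
    have h1 := ((mem_win _ _ p).1 hp).2.2
    have h2 := ((mem_win _ _ p).1 hp').2.1
    linarith
  rw [← Finset.sum_union hd]
  refine Finset.sum_le_sum_of_subset_of_nonneg ?_ (fun p _ _ => by positivity)
  intro p hp
  obtain ⟨hp1, hp2, hp3⟩ := (mem_win u h p).1 hp
  rw [Finset.mem_union, mem_win, mem_win]
  rcases le_or_gt (Real.log p) (u + 1) with h' | h'
  · exact Or.inl ⟨hp1, hp2, h'⟩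
  · exact Or.inr ⟨hp1, h', by linarith⟩

theorem ws_nat (N : ℕ) : ∀ u h : ℝ, 0 ≤ u → h ≤ N →
    ws u h ≤ (3 * Real.exp 1 * Real.log 4) * N / (u + 1) := by
  have hC : 0 ≤ 3 * Real.exp 1 * Real.log 4 := by
    have := Real.log_nonneg (show (1 : ℝ) ≤ 4 by norm_num)
    positivity
  induction N with
  | zero =>
    intro u h hu hh
    have : win u h = ∅ := by
      rw [Finset.eq_empty_iff_forall_notMem]
      intro p hp
      obtain ⟨hp1, hp2, hp3⟩ := (mem_win u h p).1 hp
      simp at hh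
      linarith
    simp [ws, this]
  | succ N ih =>
    intro u h hu hh
    push_cast at hh
    have h1 := ws_split u h
    have h2 := ws_small hu (le_refl (1 : ℝ))
    have h3 := ih (u + 1) (h - 1) (by linarith) (by linarith)
    have h4 : (3 * Real.exp 1 * Real.log 4) * N / (u + 1 + 1) ≤
        (3 * Real.exp 1 * Real.log 4) * N / (u + 1) :=
      div_le_div_of_nonneg_left (by positivity) (by positivity) (by linarith)
    have h5 : (3 * Real.exp 1 * Real.log 4) * ((N + 1 : ℕ) : ℝ) / (u + 1) =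
        (3 * Real.exp 1 * Real.log 4) / (u + 1) + (3 * Real.exp 1 * Real.log 4) * N / (u + 1) := by
      push_cast; ring
    rw [h5]
    linarith

end Win

theorem ws_upper : ∃ C : ℝ, 0 < C ∧ ∀ u h : ℝ, 0 ≤ u → 0 ≤ h →
    ws u h ≤ C * (h + 1) / (u + 1) := by
  have hl4 : 0 < Real.log 4 := Real.log_pos (by norm_num)
  have hC : 0 < 3 * Real.exp 1 * Real.log 4 := by positivity
  refine ⟨3 * Real.exp 1 * Real.log 4, hC, fun u h hu hh => ?_⟩
  refine (Win.ws_nat ⌈h⌉₊ u h hu (Nat.le_ceil h)).trans ?_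
  refine div_le_div_of_nonneg_right ?_ (by positivity)
  exact mul_le_mul_of_nonneg_left (Nat.ceil_lt_add_one hh).le hC.le

end Pool.Agent.EN
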