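import Mathlib
import Pool.Agent.Lib.MP_ec0ede_nt_EN.Defs2
import Pool.Agent.Lib.MP_ec0ede_nt_EN.Win
import Pool.Agent.Lib.MP_ec0ede_nt_EN.LawA
import Pool.Agent.Lib.MP_ec0ede_nt_EN.LawB

set_option autoImplicit false

/-!
# MP_ec0ede_nt, project EN, module LawC: the systems of laws
-/

noncomputable section

namespace Pool.Agent.EN

open Real Filter Topology Finset

namespace LawC

theorem dens_mu {D' C : ℝ} (hD' : 1 ≤ D')
    (hsupp : ∀ j p : ℕ, mu j p ≠ 0 → 2 ^ j / D' ≤ Real.log p ∧ Real.log p ≤ D' * 2 ^ j)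
    (hC : 0 < C) (hws : ∀ u h : ℝ, 0 ≤ u → 0 ≤ h → ws u h ≤ C * (h + 1) / (u + 1))
    (P : Finset ℕ) (l : ℕ) (u h : ℝ) (hh : 1 ≤ h) :
    ∑ p ∈ P.filter (fun p : ℕ => u ≤ Real.log p ∧ Real.log p ≤ u + h), mu l p ≤
      (5 / 2 * C * D' / Real.log 2) * h / 2 ^ l := by
  have hl2 : 0 < Real.log 2 := Real.log_pos (by norm_num)
  have hD0 : 0 < D' := by linarith
  have hpow : (0:ℝ) < 2 ^ l := by positivity
  set u0 : ℝ := max u (2 ^ l / D') with hu0
  set u1 : ℝ := max 0 (u0 - 1 / 2) with hu1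
  have h1 : ∑ p ∈ P.filter (fun p : ℕ => u ≤ Real.log p ∧ Real.log p ≤ u + h), mu l p ≤
      ∑ p ∈ win u1 (h + 1 / 2), 1 / (Real.log 2 * p) := by
    rw [← Finset.sum_filter_ne_zero]
    refine (Finset.sum_le_sum fun p _ => mu_le l p).trans ?_
    refine Finset.sum_le_sum_of_subset_of_nonneg ?_ fun p _ _ => by positivity
    intro p hp
    rw [Finset.mem_filter, Finset.mem_filter] at hp
    obtain ⟨⟨_, h2, h3⟩, h4⟩ := hp
    have h5 := (mu_supp h4).1
    have h6 := (hsupp l p h4).1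
    rw [mem_win]
    have h7 : u0 ≤ Real.log p := max_le h2 h6
    have h8 : 0 < Real.log p := Real.log_pos (by exact_mod_cast h5.one_lt)
    refine ⟨h5, max_lt h8 (by linarith), ?_⟩
    have h9 : u ≤ u0 := le_max_left _ _
    have h10 : u0 - 1 / 2 ≤ u1 := le_max_right _ _
    linarith
  have h2 : ∑ p ∈ win u1 (h + 1 / 2), 1 / (Real.log 2 * (p:ℝ)) =
      1 / Real.log 2 * ws u1 (h + 1 / 2) := by
    unfold ws
    rw [Finset.mul_sum]
    refine Finset.sum_congr rfl fun p _ => ?_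
    rw [one_div_mul_one_div]
  rw [h2] at h1
  have h3 := hws u1 (h + 1 / 2) (le_max_left _ _) (by linarith)
  have h4 : 2 ^ l / D' ≤ u1 + 1 := by
    have h5 : 2 ^ l / D' ≤ u0 := le_max_right _ _
    have h6 : u0 - 1 / 2 ≤ u1 := le_max_right _ _
    linarith
  have h5 : (0:ℝ) < 2 ^ l / D' := by positivity
  have h6 : C * (h + 1 / 2 + 1) / (u1 + 1) ≤ C * (5 / 2 * h) / (2 ^ l / D') := by
    refine div_le_div₀ (by positivity) ?_ h5 h4
    exact mul_le_mul_of_nonneg_left (by linarith) hC.le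
  calc ∑ p ∈ P.filter (fun p : ℕ => u ≤ Real.log p ∧ Real.log p ≤ u + h), mu l p
      ≤ 1 / Real.log 2 * ws u1 (h + 1 / 2) := h1
    _ ≤ 1 / Real.log 2 * (C * (5 / 2 * h) / (2 ^ l / D')) :=
        mul_le_mul_of_nonneg_left (h3.trans h6) (by positivity)
    _ = (5 / 2 * C * D' / Real.log 2) * h / 2 ^ l := by
        field_simp

end LawC

theorem laws_mu : ∃ D : ℝ, 1 ≤ D ∧ ∀ (ι : Type) [Fintype ι] [DecidableEq ι] (L : ℕ)
    (lev : ι → ℕ), (∀ i, 1 ≤ lev i ∧ lev i ≤ L) →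
    Laws (range (bd L)) (fun i => mu (lev i)) lev D := by
  obtain ⟨D', hD', hsupp⟩ := supp_bounds
  obtain ⟨C, hC, hws⟩ := ws_upper
  have hl2 : 0 < Real.log 2 := Real.log_pos (by norm_num)
  have hD0 : 0 < D' := by linarith
  have hE : 0 ≤ 5 / 2 * C * D' / Real.log 2 := by positivity
  refine ⟨D' + 5 / 2 * C * D' / Real.log 2, by linarith, ?_⟩
  intro ι _ _ L lev hlev
  refine ⟨fun i p => mu_nonneg _ _, fun i => mu_mass (hlev i).1 (hlev i).2, ?_, ?_⟩
  · intro i u h hh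
    refine (LawC.dens_mu hD' hsupp hC hws _ (lev i) u h hh).trans ?_
    have h1 : (0:ℝ) < 2 ^ lev i := by positivity
    refine div_le_div_of_nonneg_right ?_ h1.le
    refine mul_le_mul_of_nonneg_right ?_ (by linarith)
    linarith
  · intro i p hp
    refine ⟨Real.log_natCast_nonneg p, ?_⟩
    refine (hsupp _ _ hp).2.trans ?_
    refine mul_le_mul_of_nonneg_right ?_ (by positivity)
    linarith

end Pool.Agent.EN
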