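import Mathlib
import Pool.Agent.Lib.MP_ec0ede_nt_EN.Defs2
import Pool.Agent.Lib.MP_ec0ede_nt_EN.ExB
import Pool.Agent.Lib.MP_ec0ede_nt_EN.LawC

set_option autoImplicit false

/-!
# MP_ec0ede_nt, project EN, module HitB: the hitting bound
-/

noncomputable section

namespace Pool.Agent.EN

open Real Filter Topology Finset

namespace HitB

theorem lev_eq {L : ℕ} (ν : Fin L → ℕ) (i : Idx ν) : lv 0 ν i = (i.1 : ℕ) + 1 := by
  simp [lv]

theorem sum_lev {L : ℕ} (ν : Fin L → ℕ) (j : ℕ) (f : ℕ → ℝ) :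
    ∑ i ∈ univ.filter (fun i : Idx ν => lv 0 ν i ≤ j), f (lv 0 ν i) =
      ∑ l : Fin L, if (l : ℕ) < j then (ν l : ℝ) * f ((l : ℕ) + 1) else 0 := by
  rw [Finset.sum_filter, Fintype.sum_sigma]
  apply Finset.sum_congr rfl
  intro l _
  simp only [lev_eq]
  by_cases hl : (l : ℕ) < j
  · have h1 : (l : ℕ) + 1 ≤ j := hl
    simp [hl, h1]
  · have h1 : ¬ ((l : ℕ) + 1 ≤ j) := hl
    simp [hl]

theorem card_lev {L : ℕ} (ν : Fin L → ℕ) (j : ℕ) :
    (univ.filter (fun i : Idx ν => lv 0 ν i ≤ j)).card = cnt ν j := by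
  have h := sum_lev ν j (fun _ => 1)
  have h2 : ((univ.filter (fun i : Idx ν => lv 0 ν i ≤ j)).card : ℝ) = (cnt ν j : ℝ) := by
    rw [Finset.card_eq_sum_ones]
    push_cast
    rw [h]
    unfold cnt
    push_cast
    apply Finset.sum_congr rfl
    intro l _
    split_ifs <;> simp
  exact_mod_cast h2

/-- the total size of the indices of level at most `j` -/
def WW {L : ℕ} (ν : Fin L → ℕ) (j : ℕ) : ℝ :=
  ∑ i ∈ univ.filter (fun i : Idx ν => lv 0 ν i ≤ j), (2 : ℝ) ^ lv 0 ν i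

theorem WW_nonneg {L : ℕ} (ν : Fin L → ℕ) (j : ℕ) : 0 ≤ WW ν j :=
  Finset.sum_nonneg fun i _ => by positivity

theorem Q_eq {L : ℕ} (ν : Fin L → ℕ) (j : ℕ) : 2 ^ j * Q ν j = WW ν j := by
  unfold WW
  rw [sum_lev ν j (fun k => (2 : ℝ) ^ k)]
  unfold Q
  rw [Finset.mul_sum]
  apply Finset.sum_congr rfl
  intro l _
  split_ifs
  · field_simp
  · simp

theorem Q_nonneg {L : ℕ} (ν : Fin L → ℕ) (j : ℕ) : 0 ≤ Q ν j := by
  have h := Q_eq ν j
  have h2 := WW_nonneg ν j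
  have h3 : (0 : ℝ) < 2 ^ j := by positivity
  by_contra hh
  push Not at hh
  nlinarith

/-- the indices of level in `(j, lev i0]`, without `i0` -/
def AA {L : ℕ} (ν : Fin L → ℕ) (j : ℕ) (i0 : Idx ν) : Finset (Idx ν) :=
  (univ.filter (fun i : Idx ν => j < lv 0 ν i ∧ lv 0 ν i ≤ lv 0 ν i0)).erase i0

theorem card_AA {L : ℕ} (ν : Fin L → ℕ) (j : ℕ) (i0 : Idx ν) (h : j < lv 0 ν i0) :
    (AA ν j i0).card + 1 + cnt ν j = cnt ν (lv 0 ν i0) := by
  have h1 : i0 ∈ univ.filter (fun i : Idx ν => j < lv 0 ν i ∧ lv 0 ν i ≤ lv 0 ν i0) := by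
    simp [h]
  unfold AA
  rw [Finset.card_erase_add_one h1, ← card_lev, ← card_lev]
  rw [← Finset.card_union_of_disjoint]
  · congr 1
    ext i
    simp only [mem_union, mem_filter, mem_univ, true_and]
    omega
  · rw [Finset.disjoint_filter]
    intro i _ hi
    omega

/-- the event for the top index -/
def EV {L : ℕ} (ν : Fin L → ℕ) (y h : ℝ) (i0 : Idx ν) (S1 : Finset (Idx ν)) (τ : Idx ν → ℕ) :
    ℝ :=
  ind (y - sz τ S1 - h ≤ Real.log (τ i0) ∧ Real.log (τ i0) ≤ y - sz τ S1 - h + h)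

theorem EV_nonneg {L : ℕ} (ν : Fin L → ℕ) (y h : ℝ) (i0 : Idx ν) (S1 : Finset (Idx ν))
    (τ : Idx ν → ℕ) : 0 ≤ EV ν y h i0 S1 τ := ind_nonneg _

theorem sz_update {ι : Type} [DecidableEq ι] (τ : ι → ℕ) (S : Finset ι) (i0 : ι) (p : ℕ)
    (h : i0 ∉ S) : sz (Function.update τ i0 p) S = sz τ S := by
  unfold sz
  apply Finset.sum_congr rfl
  intro i hi
  rw [Function.update_of_ne]
  rintro rfl
  exact h hi

theorem EV_le {L : ℕ} (ν : Fin L → ℕ) (P : Finset ℕ) (D : ℝ)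
    (hL : Laws P (fun i : Idx ν => mu (lv 0 ν i)) (lv 0 ν) D) (y h : ℝ) (hh : 1 ≤ h)
    (i0 : Idx ν) (S1 : Finset (Idx ν)) (hS : i0 ∉ S1) :
    Ex P (fun i : Idx ν => mu (lv 0 ν i)) (EV ν y h i0 S1) ≤ D * h / 2 ^ lv 0 ν i0 := by
  rw [Ex_pivot P _ hL.mass i0]
  calc Ex P (fun i : Idx ν => mu (lv 0 ν i)) (fun τ => ∑ p ∈ P, mu (lv 0 ν i0) p *
        EV ν y h i0 S1 (Function.update τ i0 p))
      ≤ Ex P (fun i : Idx ν => mu (lv 0 ν i)) (fun _ => D * h / 2 ^ lv 0 ν i0) := by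
        apply Ex_mono _ _ hL.nonneg
        intro τ _
        refine le_trans (le_of_eq ?_) (hL.dens i0 (y - sz τ S1 - h) h hh)
        rw [Finset.sum_filter]
        apply Finset.sum_congr rfl
        intro p _
        unfold EV
        rw [sz_update τ S1 i0 p hS, Function.update_self]
        split_ifs with hc
        · rw [ind_of hc, mul_one]
        · rw [ind_not_of hc, mul_zero]
    _ = D * h / 2 ^ lv 0 ν i0 := Ex_const P _ hL.mass _

/-- the sizes on the support -/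
theorem sz_le {L : ℕ} (ν : Fin L → ℕ) (P : Finset ℕ) (D : ℝ)
    (hL : Laws P (fun i : Idx ν => mu (lv 0 ν i)) (lv 0 ν) D) (τ : Idx ν → ℕ)
    (hτ : ∀ i : Idx ν, τ i ∈ P ∧ mu (lv 0 ν i) (τ i) ≠ 0) (j : ℕ) (S : Finset (Idx ν))
    (hS : ∀ i ∈ S, lv 0 ν i ≤ j) (hD : 0 ≤ D) : sz τ S ≤ D * WW ν j := by
  unfold sz WW
  rw [Finset.mul_sum]
  calc ∑ i ∈ S, Real.log (τ i) ≤ ∑ i ∈ S, D * (2 : ℝ) ^ lv 0 ν i :=
        Finset.sum_le_sum fun i _ => (hL.supp i (τ i) (hτ i).2).2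
    _ ≤ ∑ i ∈ univ.filter (fun i : Idx ν => lv 0 ν i ≤ j), D * (2 : ℝ) ^ lv 0 ν i := by
        apply Finset.sum_le_sum_of_subset_of_nonneg
        · intro i hi
          simp [hS i hi]
        · intro i _ _
          positivity

theorem sz_nonneg {L : ℕ} (ν : Fin L → ℕ) (P : Finset ℕ) (D : ℝ)
    (hL : Laws P (fun i : Idx ν => mu (lv 0 ν i)) (lv 0 ν) D) (τ : Idx ν → ℕ)
    (hτ : ∀ i : Idx ν, τ i ∈ P ∧ mu (lv 0 ν i) (τ i) ≠ 0) (S : Finset (Idx ν)) :
    0 ≤ sz τ S :=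
  Finset.sum_nonneg fun i _ => (hL.supp i (τ i) (hτ i).2).1

/-- the pointwise bound -/
theorem point {L : ℕ} (ν : Fin L → ℕ) (P : Finset ℕ) (D : ℝ) (hD : 1 ≤ D)
    (hL : Laws P (fun i : Idx ν => mu (lv 0 ν i)) (lv 0 ν) D) (y c : ℝ)
    (hy : c * 2 ^ L + 1 ≤ y) (j : ℕ) (τ : Idx ν → ℕ)
    (hτ : ∀ i : Idx ν, τ i ∈ P ∧ mu (lv 0 ν i) (τ i) ≠ 0) :
    ind (∃ S : Finset (Idx ν), 0 ≤ y - sz τ S ∧ y - sz τ S < 1) ≤
      (if c / D * 2 ^ L ≤ WW ν j then 1 else 0) +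
      ∑ i0 : Idx ν, ∑ S1 ∈ (AA ν j i0).powerset,
        if j < lv 0 ν i0 ∧ c / D * 2 ^ L ≤ WW ν (lv 0 ν i0) then
          EV ν y (1 + D * WW ν j) i0 S1 τ else 0 := by
  have hD0 : 0 < D := by linarith
  have hnn : 0 ≤ ∑ i0 : Idx ν, ∑ S1 ∈ (AA ν j i0).powerset,
        if j < lv 0 ν i0 ∧ c / D * 2 ^ L ≤ WW ν (lv 0 ν i0) then
          EV ν y (1 + D * WW ν j) i0 S1 τ else 0 := by
    apply Finset.sum_nonneg
    intro i0 _
    apply Finset.sum_nonneg
    intro S1 _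
    split_ifs
    · exact EV_nonneg _ _ _ _ _ _
    · exact le_refl _
  have hnn2 : (0 : ℝ) ≤ (if c / D * 2 ^ L ≤ WW ν j then 1 else 0) := by
    split_ifs <;> norm_num
  by_cases hex : ∃ S : Finset (Idx ν), 0 ≤ y - sz τ S ∧ y - sz τ S < 1
  swap
  · rw [ind_not_of hex]
    linarith
  rw [ind_of hex]
  obtain ⟨S, hS0, hS1⟩ := hex
  by_cases hall : ∀ i ∈ S, lv 0 ν i ≤ j
  · have h1 := sz_le ν P D hL τ hτ j S hall hD0.le
    have h2 : c / D * 2 ^ L ≤ WW ν j := by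
      rw [div_mul_eq_mul_div, div_le_iff₀ hD0]
      nlinarith
    rw [if_pos h2]
    linarith
  · push Not at hall
    obtain ⟨i1, hi1, hj1⟩ := hall
    obtain ⟨i0, hi0, hmax⟩ := Finset.exists_max_image S (lv 0 ν) ⟨i1, hi1⟩
    have hj0 : j < lv 0 ν i0 := lt_of_lt_of_le hj1 (hmax i1 hi1)
    have h1 := sz_le ν P D hL τ hτ (lv 0 ν i0) S hmax hD0.le
    have h2 : c / D * 2 ^ L ≤ WW ν (lv 0 ν i0) := by
      rw [div_mul_eq_mul_div, div_le_iff₀ hD0]
      nlinarith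
    set S2 := S.filter (fun i => lv 0 ν i ≤ j) with hS2
    set S1 := (S.filter (fun i => ¬ lv 0 ν i ≤ j)).erase i0 with hS1'
    have hi0' : i0 ∈ S.filter (fun i => ¬ lv 0 ν i ≤ j) := by
      simp [hi0, hj0]
    have hsz : sz τ S = sz τ S2 + (Real.log (τ i0) + sz τ S1) := by
      unfold sz
      rw [← Finset.sum_filter_add_sum_filter_not S (fun i => lv 0 ν i ≤ j)]
      rw [hS1', Finset.add_sum_erase _ (fun i => Real.log (τ i)) hi0']
    have hS2a := sz_nonneg ν P D hL τ hτ S2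
    have hS2b : sz τ S2 ≤ D * WW ν j :=
      sz_le ν P D hL τ hτ j S2 (fun i hi => (Finset.mem_filter.mp hi).2) hD0.le
    have hS1A : S1 ∈ (AA ν j i0).powerset := by
      rw [Finset.mem_powerset]
      unfold AA
      apply Finset.erase_subset_erase
      intro i hi
      rw [Finset.mem_filter] at hi
      simp only [mem_filter, mem_univ, true_and]
      exact ⟨by omega, hmax i hi.1⟩
    have hev : EV ν y (1 + D * WW ν j) i0 S1 τ = 1 := by
      apply ind_of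
      constructor
      · linarith
      · linarith
    have hterm : (1 : ℝ) ≤ ∑ i0 : Idx ν, ∑ S1 ∈ (AA ν j i0).powerset,
        if j < lv 0 ν i0 ∧ c / D * 2 ^ L ≤ WW ν (lv 0 ν i0) then
          EV ν y (1 + D * WW ν j) i0 S1 τ else 0 := by
      have hn : ∀ (i0 : Idx ν) (S1 : Finset (Idx ν)), (0 : ℝ) ≤
          if j < lv 0 ν i0 ∧ c / D * 2 ^ L ≤ WW ν (lv 0 ν i0) then
          EV ν y (1 + D * WW ν j) i0 S1 τ else 0 := by
        intro i0 S1
        split_ifs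
        · exact EV_nonneg _ _ _ _ _ _
        · exact le_refl _
      calc (1 : ℝ) = if j < lv 0 ν i0 ∧ c / D * 2 ^ L ≤ WW ν (lv 0 ν i0) then
          EV ν y (1 + D * WW ν j) i0 S1 τ else 0 := by rw [if_pos ⟨hj0, h2⟩, hev]
        _ ≤ ∑ S1 ∈ (AA ν j i0).powerset,
            if j < lv 0 ν i0 ∧ c / D * 2 ^ L ≤ WW ν (lv 0 ν i0) then
            EV ν y (1 + D * WW ν j) i0 S1 τ else 0 :=
          Finset.single_le_sum (fun S _ => hn i0 S) hS1A
        _ ≤ _ := Finset.single_le_sum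
          (f := fun i0 : Idx ν => ∑ S1 ∈ (AA ν j i0).powerset,
            if j < lv 0 ν i0 ∧ c / D * 2 ^ L ≤ WW ν (lv 0 ν i0) then
            EV ν y (1 + D * WW ν j) i0 S1 τ else 0)
          (fun i _ => Finset.sum_nonneg fun S _ => hn i S) (Finset.mem_univ i0)
    linarith

/-- the power of two -/
theorem pow_id {L : ℕ} (ν : Fin L → ℕ) (j l : ℕ) (a : ℕ) (h : a + 1 + cnt ν j = cnt ν l) :
    (2 : ℝ) ^ (X ν j - X ν l) = 2 * 2 ^ a * 2 ^ j / 2 ^ l := by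
  have h1 : X ν j - X ν l = ((a + 1 + j : ℕ) : ℤ) - (l : ℤ) := by
    unfold X
    rw [← h]
    push_cast
    ring
  rw [h1, zpow_sub₀ (by norm_num), zpow_natCast, zpow_natCast]
  congr 1
  ring

end HitB

open HitB in
theorem hit_bound : ∃ C : ℝ, 1 ≤ C ∧ ∀ (L : ℕ) (ν : Fin L → ℕ) (y c : ℝ), 0 < c →
    c * 2 ^ L + 1 ≤ y → ∀ j ≤ L,
    EX L 0 ν (fun τ => ind (∃ S : Finset (Idx ν), 0 ≤ y - sz τ S ∧ y - sz τ S < 1)) ≤
      C * Hj (c / C) ν j := by
  obtain ⟨D, hD, hlaws⟩ := laws_mu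
  have hD0 : 0 < D := by linarith
  have hDD : D ≤ D ^ 2 := by nlinarith
  refine ⟨D ^ 2, by nlinarith, ?_⟩
  intro L ν y c hc hy j hj
  have hL : Laws (range (bd L)) (fun i : Idx ν => mu (lv 0 ν i)) (lv 0 ν) D := by
    apply hlaws
    intro i
    rw [lev_eq]
    have := i.1.2
    omega
  set P := range (bd L) with hP
  set m : Idx ν → ℕ → ℝ := fun i : Idx ν => mu (lv 0 ν i) with hm
  set h : ℝ := 1 + D * WW ν j with hh
  have hW := WW_nonneg ν j
  have hh1 : 1 ≤ h := by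
    have : 0 ≤ D * WW ν j := by positivity
    linarith
  -- expectation of the pointwise bound
  have step1 : EX L 0 ν (fun τ => ind (∃ S : Finset (Idx ν), 0 ≤ y - sz τ S ∧ y - sz τ S < 1)) ≤
      (if c / D * 2 ^ L ≤ WW ν j then 1 else 0) +
      ∑ i0 : Idx ν, ∑ S1 ∈ (AA ν j i0).powerset,
        if j < lv 0 ν i0 ∧ c / D * 2 ^ L ≤ WW ν (lv 0 ν i0) then
          D * h / 2 ^ lv 0 ν i0 else 0 := by
    calc EX L 0 ν (fun τ => ind (∃ S : Finset (Idx ν), 0 ≤ y - sz τ S ∧ y - sz τ S < 1))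
        ≤ Ex P m (fun τ => (if c / D * 2 ^ L ≤ WW ν j then 1 else 0) +
          ∑ i0 : Idx ν, ∑ S1 ∈ (AA ν j i0).powerset,
            if j < lv 0 ν i0 ∧ c / D * 2 ^ L ≤ WW ν (lv 0 ν i0) then
            EV ν y h i0 S1 τ else 0) := by
          apply Ex_mono _ _ hL.nonneg
          intro τ hτ
          exact point ν P D hD hL y c hy j τ hτ
      _ = (if c / D * 2 ^ L ≤ WW ν j then 1 else 0) +
          ∑ i0 : Idx ν, ∑ S1 ∈ (AA ν j i0).powerset,
            Ex P m (fun τ => if j < lv 0 ν i0 ∧ c / D * 2 ^ L ≤ WW ν (lv 0 ν i0) then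
            EV ν y h i0 S1 τ else 0) := by
          rw [Ex_add, Ex_const P m hL.mass, Ex_fsum]
          congr 1
          apply Finset.sum_congr rfl
          intro i0 _
          rw [Ex_fsum]
      _ ≤ _ := by
          apply add_le_add (le_refl _)
          apply Finset.sum_le_sum
          intro i0 _
          apply Finset.sum_le_sum
          intro S1 hS1
          split_ifs with hcnd
          · apply EV_le ν P D hL y h hh1 i0 S1
            rw [Finset.mem_powerset] at hS1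
            intro hmem
            have := hS1 hmem
            unfold AA at this
            simp at this
          · rw [Ex_const P m hL.mass]
  refine step1.trans ?_
  unfold Hj
  rw [mul_add (D ^ 2)]
  have hcD : ∀ t : ℝ, c / D * 2 ^ L ≤ t → c / D ^ 2 * 2 ^ L ≤ t := by
    intro t ht
    refine le_trans ?_ ht
    apply mul_le_mul_of_nonneg_right _ (by positivity)
    exact div_le_div_of_nonneg_left hc.le hD0 hDD
  apply add_le_add
  · rw [Q_eq]
    split_ifs with h1 h2 h2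
    · nlinarith
    · exact absurd (hcD _ h1) h2
    · positivity
    · simp
  · rw [← mul_assoc, Finset.mul_sum, Fintype.sum_sigma]
    apply Finset.sum_le_sum
    intro l _
    have hQ := Q_nonneg ν j
    have hC0 : 0 ≤ D ^ 2 * (Q ν j + 1) := by positivity
    have key : ∀ k : Fin (ν l), (∑ S1 ∈ (AA ν j ⟨l, k⟩).powerset,
        if j < lv 0 ν ⟨l, k⟩ ∧ c / D * 2 ^ L ≤ WW ν (lv 0 ν ⟨l, k⟩) then
          D * h / 2 ^ lv 0 ν ⟨l, k⟩ else 0) ≤
        D ^ 2 * (Q ν j + 1) *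
        (if j ≤ (l : ℕ) ∧ c / D ^ 2 * 2 ^ L ≤ 2 ^ ((l : ℕ) + 1) * Q ν (l + 1) then
          (2 : ℝ) ^ (X ν j - X ν (l + 1)) else 0) := by
      intro k
      have hlv : lv 0 ν ⟨l, k⟩ = (l : ℕ) + 1 := lev_eq ν ⟨l, k⟩
      rw [Finset.sum_const, Finset.card_powerset, nsmul_eq_mul, hlv]
      split_ifs with h1 h2 h2
      · have hcard := card_AA ν j ⟨l, k⟩ (by rw [hlv]; exact h1.1)
        rw [hlv] at hcard
        rw [pow_id ν j ((l : ℕ) + 1) _ hcard]
        have hhQ : h ≤ D * (Q ν j + 1) * 2 ^ j := by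
          rw [hh, ← Q_eq]
          have : (1 : ℝ) ≤ 2 ^ j := one_le_pow₀ (by norm_num)
          nlinarith [mul_le_mul hD this zero_le_one hD0.le]
        set a := (AA ν j ⟨l, k⟩).card with ha
        push_cast
        have e1 : (2 : ℝ) ^ a * (D * h / 2 ^ ((l : ℕ) + 1)) =
            (2 ^ a * D / 2 ^ ((l : ℕ) + 1)) * h := by ring
        rw [e1]
        calc (2 ^ a * D / 2 ^ ((l : ℕ) + 1)) * h
            ≤ (2 ^ a * D / 2 ^ ((l : ℕ) + 1)) * (D * (Q ν j + 1) * 2 ^ j) :=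
              mul_le_mul_of_nonneg_left hhQ (by positivity)
          _ ≤ 2 * ((2 ^ a * D / 2 ^ ((l : ℕ) + 1)) * (D * (Q ν j + 1) * 2 ^ j)) := by
              have : 0 ≤ (2 ^ a * D / 2 ^ ((l : ℕ) + 1)) * (D * (Q ν j + 1) * 2 ^ j) := by
                positivity
              linarith
          _ = D ^ 2 * (Q ν j + 1) * (2 * 2 ^ a * 2 ^ j / 2 ^ ((l : ℕ) + 1)) := by ring
      · exfalso
        apply h2
        refine ⟨by omega, ?_⟩
        rw [Q_eq]
        exact hcD _ h1.2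
      · simp only [mul_zero]
        have : (0 : ℝ) < (2 : ℝ) ^ (X ν j - X ν ((l : ℕ) + 1)) := by positivity
        positivity
      · simp
    calc ∑ k : Fin (ν l), (∑ S1 ∈ (AA ν j ⟨l, k⟩).powerset,
        if j < lv 0 ν ⟨l, k⟩ ∧ c / D * 2 ^ L ≤ WW ν (lv 0 ν ⟨l, k⟩) then
          D * h / 2 ^ lv 0 ν ⟨l, k⟩ else 0)
        ≤ ∑ _k : Fin (ν l), D ^ 2 * (Q ν j + 1) *
        (if j ≤ (l : ℕ) ∧ c / D ^ 2 * 2 ^ L ≤ 2 ^ ((l : ℕ) + 1) * Q ν (l + 1) then
          (2 : ℝ) ^ (X ν j - X ν (l + 1)) else 0) := Finset.sum_le_sum fun k _ => key k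
      _ = _ := by
        rw [Finset.sum_const, Finset.card_univ, Fintype.card_fin, nsmul_eq_mul]
        split_ifs
        · ring
        · ring

end Pool.Agent.EN
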