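import Mathlib
import Pool.Agent.Lib.MP_ec0ede_nt_EN.Defs4
import Pool.Agent.Lib.MP_ec0ede_nt_EN.LawA

set_option autoImplicit false

/-!
# MP_ec0ede_nt, project EN: the weights of `f` (module WfT)
-/

noncomputable section

namespace Pool.Agent.EN

open Real Filter Topology Finset

theorem wf_nonneg (f : ℕ) : 0 ≤ wf f := by
  unfold wf
  refine Finset.prod_nonneg fun p _ => ?_
  split
  · exact mul_nonneg (Real.log_nonneg (by norm_num)) (mu_nonneg 0 p)
  · positivity

namespace WfT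

lemma log_mu_nonneg (p : ℕ) : 0 ≤ Real.log 2 * mu 0 p :=
  mul_nonneg (Real.log_nonneg (by norm_num)) (mu_nonneg 0 p)

lemma log_mu_le (p : ℕ) : Real.log 2 * mu 0 p ≤ 1 / p := by
  have h := mu_part_le p 0
  simpa using h

lemma inv_le_one (p : ℕ) : 1 / (p : ℝ) ≤ 1 := by
  rcases Nat.eq_zero_or_pos p with h | h
  · subst h; simp
  · have h1 : (1 : ℝ) ≤ p := by exact_mod_cast h
    exact div_le_one_of_le₀ h1 (by positivity)

end WfT

theorem wf_le_one (f : ℕ) : wf f ≤ 1 := by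
  unfold wf
  refine Finset.prod_le_one (fun p _ => ?_) fun p _ => ?_
  · split
    · exact WfT.log_mu_nonneg p
    · positivity
  · split
    · exact (WfT.log_mu_le p).trans (WfT.inv_le_one p)
    · exact pow_le_one₀ (by positivity) (WfT.inv_le_one p)

namespace WfT

/-- the terms of the series -/
def F (f : ℕ) : ℝ := wf f * f.divisors.card * (f : ℝ) ^ (1 / 8 : ℝ)

lemma F_nonneg (f : ℕ) : 0 ≤ F f := by
  unfold F
  have := wf_nonneg f
  positivity

lemma F_zero : F 0 = 0 := by simp [F]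

lemma F_one : F 1 = 1 := by simp [F, wf]

lemma wf_mul {m n : ℕ} (h : Nat.Coprime m n) : wf (m * n) = wf m * wf n := by
  unfold wf
  rw [h.primeFactors_mul, Finset.prod_union h.disjoint_primeFactors]
  congr 1
  · refine Finset.prod_congr rfl fun p hp => ?_
    rw [Nat.factorization_eq_of_coprime_left h (by simpa using hp)]
  · refine Finset.prod_congr rfl fun p hp => ?_
    rw [Nat.factorization_eq_of_coprime_right h (by simpa using hp)]

lemma F_mul {m n : ℕ} (h : Nat.Coprime m n) : F (m * n) = F m * F n := by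
  unfold F
  rw [wf_mul h, Nat.Coprime.card_divisors_mul h]
  push_cast
  rw [Real.mul_rpow (Nat.cast_nonneg _) (Nat.cast_nonneg _)]
  ring

lemma F_prime {p : ℕ} (hp : p.Prime) :
    F p = Real.log 2 * mu 0 p * 2 * (p : ℝ) ^ (1 / 8 : ℝ) := by
  unfold F wf
  rw [hp.primeFactors, Finset.prod_singleton, hp.factorization_self, if_pos rfl,
    hp.divisors, Finset.card_pair hp.one_lt.ne]
  norm_num

/-- the small quantity `p ^ (-7/8)` -/
def q (p : ℕ) : ℝ := (p : ℝ) ^ (-(7 / 8) : ℝ)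

lemma q_nonneg (p : ℕ) : 0 ≤ q p := by unfold q; positivity

lemma q_eq {p : ℕ} (hp : p.Prime) : q p = 1 / (p : ℝ) * (p : ℝ) ^ (1 / 8 : ℝ) := by
  have h0 : (0 : ℝ) < p := by exact_mod_cast hp.pos
  unfold q
  rw [one_div, ← Real.rpow_neg_one, ← Real.rpow_add h0]
  norm_num

lemma q_le {p : ℕ} (hp : p.Prime) : q p ≤ 3 / 5 := by
  have h2 : (2 : ℝ) ≤ p := by exact_mod_cast hp.two_le
  have h1 : q p ≤ (2 : ℝ) ^ (-(7 / 8) : ℝ) := by
    unfold q
    exact Real.rpow_le_rpow_of_nonpos (by norm_num) h2 (by norm_num)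
  refine h1.trans ?_
  have h3 : ((2 : ℝ) ^ (-(7 / 8) : ℝ)) ^ 8 ≤ (3 / 5 : ℝ) ^ 8 := by
    rw [← Real.rpow_natCast, ← Real.rpow_mul (by norm_num)]
    norm_num
  exact le_of_pow_le_pow_left₀ (by norm_num) (by norm_num) h3

lemma F_pow {p : ℕ} (hp : p.Prime) (k : ℕ) :
    F (p ^ (k + 2)) = ((k : ℝ) + 3) * q p ^ (k + 2) := by
  unfold F wf
  rw [Nat.primeFactors_prime_pow (by omega) hp, Finset.prod_singleton,
    Nat.factorization_pow, Finsupp.smul_apply, hp.factorization_self, smul_eq_mul, mul_one,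
    if_neg (by omega), Nat.divisors_prime_pow hp, Finset.card_map, Finset.card_range, q_eq hp,
    mul_pow]
  have h0 : (0 : ℝ) ≤ p := Nat.cast_nonneg _
  have h1 : ((p ^ (k + 2) : ℕ) : ℝ) ^ (1 / 8 : ℝ) = ((p : ℝ) ^ (1 / 8 : ℝ)) ^ (k + 2) := by
    push_cast
    rw [← Real.rpow_natCast, ← Real.rpow_natCast, ← Real.rpow_mul h0, ← Real.rpow_mul h0, mul_comm]
  rw [h1]
  push_cast
  ring

/-- the constant -/
def C : ℝ := ∑' k : ℕ, ((k : ℝ) + 3) * (3 / 5) ^ k

lemma summable_C : Summable fun k : ℕ => ((k : ℝ) + 3) * (3 / 5) ^ k := by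
  have h1 : Summable fun k : ℕ => (k : ℝ) * (3 / 5) ^ k := by
    have := summable_pow_mul_geometric_of_norm_lt_one 1 (r := (3 / 5 : ℝ)) (by norm_num)
    simpa using this
  have h2 : Summable fun k : ℕ => (3 : ℝ) * (3 / 5) ^ k :=
    (summable_geometric_of_lt_one (by norm_num) (by norm_num)).mul_left 3
  exact (h1.add h2).congr fun k => by ring

lemma C_nonneg : 0 ≤ C := tsum_nonneg fun _ => by positivity

lemma F_pow_le {p : ℕ} (hp : p.Prime) (k : ℕ) :
    F (p ^ (k + 2)) ≤ q p ^ 2 * (((k : ℝ) + 3) * (3 / 5) ^ k) := by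
  rw [F_pow hp, pow_add]
  have h1 : q p ^ k ≤ (3 / 5 : ℝ) ^ k := pow_le_pow_left₀ (q_nonneg p) (q_le hp) k
  have h2 : 0 ≤ ((k : ℝ) + 3) * q p ^ 2 := by positivity
  nlinarith [mul_le_mul_of_nonneg_left h1 h2]

lemma summable_shift {p : ℕ} (hp : p.Prime) : Summable fun k : ℕ => F (p ^ (k + 2)) :=
  Summable.of_nonneg_of_le (fun _ => F_nonneg _) (fun k => F_pow_le hp k)
    (summable_C.mul_left _)

lemma summable_pp {p : ℕ} (hp : p.Prime) : Summable fun k : ℕ => F (p ^ k) :=
  (summable_nat_add_iff 2).1 (summable_shift hp)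

/-- the bound for the local factor -/
def g (n : ℕ) : ℝ := (if n < bd 0 then 2 * (n : ℝ) ^ (1 / 8 : ℝ) else 0) +
  C * (n : ℝ) ^ (-(7 / 4) : ℝ)

lemma g_nonneg (n : ℕ) : 0 ≤ g n := by
  unfold g
  have := C_nonneg
  refine add_nonneg ?_ (by positivity)
  split
  · positivity
  · exact le_rfl

lemma summable_g : Summable g := by
  unfold g
  refine Summable.add ?_ ?_
  · refine summable_of_ne_finset_zero (s := range (bd 0)) fun n hn => ?_
    rw [Finset.mem_range] at hn
    rw [if_neg hn]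
  · exact (Real.summable_nat_rpow.2 (by norm_num)).mul_left C

lemma tsum_le {p : ℕ} (hp : p.Prime) : ∑' k : ℕ, F (p ^ k) ≤ 1 + g p := by
  rw [← (summable_pp hp).sum_add_tsum_nat_add 2, Finset.sum_range_succ, Finset.sum_range_one,
    pow_zero, pow_one, F_one, F_prime hp, add_assoc]
  refine add_le_add le_rfl ?_
  unfold g
  refine add_le_add ?_ ?_
  · split
    · have h1 : Real.log 2 * mu 0 p ≤ 1 := (log_mu_le p).trans (inv_le_one p)
      have h2 : 0 ≤ 2 * (p : ℝ) ^ (1 / 8 : ℝ) := by positivity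
      nlinarith [mul_le_mul_of_nonneg_right h1 h2]
    · rename_i h
      rw [mu_bd (le_refl 0) (not_lt.1 h)]
      simp
  · have h1 : ∑' k : ℕ, F (p ^ (k + 2)) ≤ ∑' k : ℕ, q p ^ 2 * (((k : ℝ) + 3) * (3 / 5) ^ k) :=
      (summable_shift hp).tsum_le_tsum (fun k => F_pow_le hp k) (summable_C.mul_left _)
    rw [tsum_mul_left] at h1
    refine h1.trans (le_of_eq ?_)
    rw [mul_comm]
    congr 1
    unfold q
    rw [← Real.rpow_natCast, ← Real.rpow_mul (Nat.cast_nonneg _)]
    norm_num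

end WfT

theorem wf_sum : Summable (fun f : ℕ => wf f * f.divisors.card * (f : ℝ) ^ (1 / 8 : ℝ)) := by
  change Summable WfT.F
  refine summable_of_sum_range_le (c := Real.exp (∑' n, WfT.g n)) WfT.F_nonneg fun M => ?_
  have hE := EulerProduct.summable_and_hasSum_smoothNumbers_prod_primesBelow_tsum
    (f := WfT.F) WfT.F_one (fun h => WfT.F_mul h)
    (fun {p} hp => (WfT.summable_pp hp).norm) M
  have h1 : ∑ n ∈ range M, WfT.F n ≤ ∑' m : M.smoothNumbers, WfT.F m := by
    have hs : Summable (fun m : M.smoothNumbers => WfT.F m) := hE.2.summable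
    rw [tsum_subtype (M.smoothNumbers) WfT.F]
    have hs2 : Summable (Set.indicator (M.smoothNumbers) WfT.F) :=
      summable_subtype_iff_indicator.1 hs
    refine le_trans (le_of_eq ?_) (hs2.sum_le_tsum (range M) fun n _ =>
      Set.indicator_nonneg (fun i _ => WfT.F_nonneg i) n)
    refine Finset.sum_congr rfl fun n hn => ?_
    rcases Nat.eq_zero_or_pos n with h0 | h0
    · subst h0
      rw [WfT.F_zero, Set.indicator_apply]
      split
      · rw [WfT.F_zero]
      · rfl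
    · rw [Set.indicator_of_mem]
      exact Nat.mem_smoothNumbers_of_lt h0 (Finset.mem_range.1 hn)
  refine h1.trans ?_
  rw [hE.2.tsum_eq]
  calc ∏ p ∈ M.primesBelow, ∑' n : ℕ, WfT.F (p ^ n)
      ≤ ∏ p ∈ M.primesBelow, Real.exp (WfT.g p) := by
        refine Finset.prod_le_prod (fun p _ => tsum_nonneg fun k => WfT.F_nonneg _) fun p hp => ?_
        refine (WfT.tsum_le (Nat.prime_of_mem_primesBelow hp)).trans ?_
        rw [add_comm]
        exact Real.add_one_le_exp _
    _ = Real.exp (∑ p ∈ M.primesBelow, WfT.g p) := (Real.exp_sum _ _).symm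
    _ ≤ Real.exp (∑' n, WfT.g n) :=
        Real.exp_le_exp.2 (WfT.summable_g.sum_le_tsum _ fun n _ => WfT.g_nonneg n)

end Pool.Agent.EN
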