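import Mathlib
import Pool.Agent.Lib.MP_ec0ede_nt_EN.Defs4
import Pool.Agent.Lib.MP_ec0ede_nt_EN.Dom
import Pool.Agent.Lib.MP_ec0ede_nt_EN.LawA
import Pool.Agent.Lib.MP_ec0ede_nt_EN.ExB
import Pool.Agent.Lib.MP_ec0ede_nt_EN.HitB
import Pool.Agent.Lib.MP_ec0ede_nt_EN.WfT
import Pool.Agent.Lib.MP_ec0ede_nt_EN.ZBd

set_option autoImplicit false

/-!
# MP_ec0ede_nt, project EN, module StA: removing the bad paths and the large `f`
-/

noncomputable section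

namespace Pool.Agent.EN

open Real Filter Topology Finset

namespace StA

theorem mass_one {L : ℕ} (ν : Fin L → ℕ) (i : Idx ν) :
    ∑ p ∈ range (bd L), mu (lv 0 ν i) p = 1 := by
  have h := i.1.2
  apply mu_mass
  · unfold lv
    omega
  · unfold lv
    omega

theorem PrA_nonneg (f L : ℕ) (y : ℝ) (ν : Fin L → ℕ) : 0 ≤ PrA f L y ν :=
  Ex_nonneg _ _ (fun _ p => mu_nonneg _ p) _ (fun _ _ => ind_nonneg _)

theorem PrA_le_one (f L : ℕ) (y : ℝ) (ν : Fin L → ℕ) : PrA f L y ν ≤ 1 := by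
  have h1 := Ex_mono (range (bd L)) (fun i : Idx ν => mu (lv 0 ν i)) (fun i p => mu_nonneg _ p)
    (fun τ => ind (Inj f τ ∧ y ∈ TW f τ)) (fun _ => 1) (fun τ _ => ind_le_one _)
  rw [Ex_const _ _ (mass_one ν)] at h1
  exact h1

theorem PrA_le_sum (f L : ℕ) (y : ℝ) (ν : Fin L → ℕ) :
    PrA f L y ν ≤ ∑ d ∈ f.divisors, EX L 0 ν (fun τ => ind (∃ S : Finset (Idx ν),
      0 ≤ (y - Real.log d) - sz τ S ∧ (y - Real.log d) - sz τ S < 1)) := by
  unfold PrA EX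
  rw [← Ex_fsum]
  apply Ex_mono _ _ (fun i p => mu_nonneg _ p)
  intro τ _
  by_cases h : Inj f τ ∧ y ∈ TW f τ
  · rw [ind_of h]
    obtain ⟨d, hd, S, h1, h2⟩ := h.2
    have hlog : Real.log 2 < 1 := by linarith [Real.log_two_lt_d9]
    have h3 : ind (∃ S : Finset (Idx ν),
        0 ≤ (y - Real.log d) - sz τ S ∧ (y - Real.log d) - sz τ S < 1) = 1 :=
      ind_of ⟨S, by linarith, by linarith⟩
    calc (1 : ℝ) = ind (∃ S : Finset (Idx ν),
        0 ≤ (y - Real.log d) - sz τ S ∧ (y - Real.log d) - sz τ S < 1) := h3.symm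
      _ ≤ _ := Finset.single_le_sum (f := fun d : ℕ => ind (∃ S : Finset (Idx ν),
        0 ≤ (y - Real.log d) - sz τ S ∧ (y - Real.log d) - sz τ S < 1))
          (fun _ _ => ind_nonneg _) hd
  · rw [ind_not_of h]
    exact Finset.sum_nonneg (fun _ _ => ind_nonneg _)

theorem PrA_hit {y1 : ℝ} (hy1 : 0 < y1) {C : ℝ}
    (hC : ∀ (L : ℕ) (ν : Fin L → ℕ) (y c : ℝ), 0 < c → c * 2 ^ L + 1 ≤ y → ∀ j ≤ L,
    EX L 0 ν (fun τ => ind (∃ S : Finset (Idx ν), 0 ≤ y - sz τ S ∧ y - sz τ S < 1)) ≤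
      C * Hj (c / C) ν j) {f L : ℕ} {y : ℝ} (hL : 1 ≤ y1 / 4 * 2 ^ L)
    (hy : y1 * 2 ^ L ≤ y) (hfy : 2 * Real.log f ≤ y) (ν : Fin L → ℕ) (j : ℕ) (hj : j ≤ L) :
    PrA f L y ν ≤ C * f.divisors.card * Hj (y1 / 4 / C) ν j := by
  refine (PrA_le_sum f L y ν).trans ?_
  have h1 : ∀ d ∈ f.divisors, EX L 0 ν (fun τ => ind (∃ S : Finset (Idx ν),
      0 ≤ (y - Real.log d) - sz τ S ∧ (y - Real.log d) - sz τ S < 1)) ≤
      C * Hj (y1 / 4 / C) ν j := by
    intro d hd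
    apply hC L ν (y - Real.log d) (y1 / 4) (by positivity) _ j hj
    have hd1 : 1 ≤ d := Nat.pos_of_mem_divisors hd
    have hd2 : d ≤ f := Nat.divisor_le hd
    have h2 : Real.log d ≤ Real.log f :=
      Real.log_le_log (by exact_mod_cast hd1) (by exact_mod_cast hd2)
    have h3 : y1 / 4 * 2 ^ L = y1 * 2 ^ L / 4 := by ring
    rw [h3] at hL ⊢
    linarith
  refine (Finset.sum_le_sum h1).trans ?_
  rw [Finset.sum_const, nsmul_eq_mul]
  apply le_of_eq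
  ring

theorem part1 {y1 : ℝ} (hy1 : 0 < y1) : ∃ A ρ : ℝ, 0 < A ∧ 0 < ρ ∧ ρ < 1 ∧ ∃ L0 : ℕ,
    ∀ (L f c1 c2 : ℕ) (y : ℝ), L0 ≤ L → y1 * 2 ^ L ≤ y → 1 ≤ f → 2 * Real.log f ≤ y →
    ZS L (fun ν => PrA f L y ν) ≤ A * f.divisors.card / ((L : ℝ) + 1) ^ (3 / 2 : ℝ) ∧
    ZS L (fun ν => ind (¬ E0 c1 c2 ν) * PrA f L y ν) ≤
      A * f.divisors.card * (ρ ^ c1 + ρ ^ c2) / ((L : ℝ) + 1) ^ (3 / 2 : ℝ) := by
  obtain ⟨C, hC1, hC⟩ := hit_bound
  have hC0 : 0 < C := by linarith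
  obtain ⟨C1, hC10, hall⟩ := dom_all (c := y1 / 4 / C) (by positivity)
  obtain ⟨C2, ρ, hC20, hρ0, hρ1, hbad⟩ := dom_bad (c := y1 / 4 / C) (by positivity)
  obtain ⟨L0, hL0⟩ : ∃ L0 : ℕ, 4 / y1 ≤ (L0 : ℝ) := exists_nat_ge _
  refine ⟨C * (C1 + C2), ρ, by positivity, hρ0, hρ1, L0, ?_⟩
  intro L f c1 c2 y hL hy hf hfy
  have hL2 : 1 ≤ y1 / 4 * 2 ^ L := by
    have h1 : (L : ℝ) ≤ 2 ^ L := by exact_mod_cast (Nat.lt_two_pow_self).le
    have h2 : (L0 : ℝ) ≤ L := by exact_mod_cast hL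
    have h3 : 4 / y1 ≤ (2 : ℝ) ^ L := by linarith
    rw [div_le_iff₀ hy1] at h3
    linarith
  have hd1 : 1 ≤ f.divisors.card :=
    Finset.card_pos.mpr ⟨1, Nat.one_mem_divisors.mpr (by omega)⟩
  have hd1' : (1 : ℝ) ≤ f.divisors.card := by exact_mod_cast hd1
  have hCd : 0 < C * (f.divisors.card : ℝ) := by positivity
  have hCd1 : 1 ≤ C * (f.divisors.card : ℝ) := by nlinarith
  have hP0 := PrA_nonneg f L y
  have hP1 := PrA_le_one f L y
  -- the normalised function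
  have hF1 : ∀ ν : Fin L → ℕ, PrA f L y ν / (C * f.divisors.card) ≤ 1 := by
    intro ν
    rw [div_le_one hCd]
    exact (hP1 ν).trans hCd1
  have hF0 : ∀ ν : Fin L → ℕ, 0 ≤ PrA f L y ν / (C * f.divisors.card) := fun ν =>
    div_nonneg (hP0 ν) hCd.le
  have hFH : ∀ ν : Fin L → ℕ, ∀ j ≤ L,
      PrA f L y ν / (C * f.divisors.card) ≤ Hj (y1 / 4 / C) ν j := by
    intro ν j hj
    rw [div_le_iff₀ hCd]
    refine (PrA_hit hy1 hC hL2 hy hfy ν j hj).trans (le_of_eq ?_)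
    ring
  have hZ1 := ZS_le (fun ν : Fin L → ℕ => PrA f L y ν / (C * f.divisors.card)) 1
    (C1 / ((L : ℝ) + 1) ^ (3 / 2 : ℝ)) hF0 hF1 (by positivity) (hall L _ hF1 hFH)
  have hlaw0 : ∀ ν : Fin L → ℕ, 0 ≤ ind (¬ E0 c1 c2 ν) * (PrA f L y ν / (C * f.divisors.card)) :=
    fun ν => mul_nonneg (ind_nonneg _) (hF0 ν)
  have hlaw : ∀ ν : Fin L → ℕ, ind (¬ E0 c1 c2 ν) * (PrA f L y ν / (C * f.divisors.card)) ≤
      PrA f L y ν / (C * f.divisors.card) := fun ν =>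
    mul_le_of_le_one_left (hF0 ν) (ind_le_one _)
  have hZ2 := ZS_le (fun ν : Fin L → ℕ => ind (¬ E0 c1 c2 ν) *
      (PrA f L y ν / (C * f.divisors.card))) 1
    (C2 * (ρ ^ c1 + ρ ^ c2) / ((L : ℝ) + 1) ^ (3 / 2 : ℝ)) hlaw0
    (fun ν => (hlaw ν).trans (hF1 ν)) (by positivity)
    (hbad L c1 c2 _ (fun ν => (hlaw ν).trans (hF1 ν)) (fun ν j hj => (hlaw ν).trans (hFH ν j hj))
      (fun ν hE => by
        have h5 : ind (¬ E0 c1 c2 ν) = 0 := ind_not_of (fun h => h hE)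
        rw [h5, zero_mul]))
  have hden : (0 : ℝ) < ((L : ℝ) + 1) ^ (3 / 2 : ℝ) := by positivity
  constructor
  · have h6 : ZS L (fun ν => PrA f L y ν) = C * f.divisors.card *
        ZS L (fun ν => PrA f L y ν / (C * f.divisors.card)) := by
      rw [← ZS_mul]
      congr 1
      funext ν
      field_simp
    rw [h6]
    calc C * (f.divisors.card : ℝ) * ZS L (fun ν => PrA f L y ν / (C * f.divisors.card))
        ≤ C * f.divisors.card * (C1 / ((L : ℝ) + 1) ^ (3 / 2 : ℝ)) :=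
          mul_le_mul_of_nonneg_left hZ1 hCd.le
      _ ≤ C * (C1 + C2) * f.divisors.card / ((L : ℝ) + 1) ^ (3 / 2 : ℝ) := by
          rw [← mul_div_assoc]
          apply div_le_div_of_nonneg_right _ hden.le
          nlinarith
  · have h6 : ZS L (fun ν => ind (¬ E0 c1 c2 ν) * PrA f L y ν) = C * f.divisors.card *
        ZS L (fun ν => ind (¬ E0 c1 c2 ν) * (PrA f L y ν / (C * f.divisors.card))) := by
      rw [← ZS_mul]
      congr 1
      funext ν
      field_simp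
    rw [h6]
    calc C * (f.divisors.card : ℝ) *
          ZS L (fun ν => ind (¬ E0 c1 c2 ν) * (PrA f L y ν / (C * f.divisors.card)))
        ≤ C * f.divisors.card * (C2 * (ρ ^ c1 + ρ ^ c2) / ((L : ℝ) + 1) ^ (3 / 2 : ℝ)) :=
          mul_le_mul_of_nonneg_left hZ2 hCd.le
      _ ≤ C * (C1 + C2) * f.divisors.card * (ρ ^ c1 + ρ ^ c2) /
          ((L : ℝ) + 1) ^ (3 / 2 : ℝ) := by
          rw [← mul_div_assoc]
          apply div_le_div_of_nonneg_right _ hden.le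
          have h7 : 0 ≤ C * (f.divisors.card : ℝ) * C1 * (ρ ^ c1 + ρ ^ c2) := by positivity
          nlinarith

theorem dl_le_one : dl ≤ 1 := by
  unfold dl
  have h1 : 0 ≤ 1 + Real.log (Real.log 2) := by
    have h2 : Real.exp (-1) ≤ Real.log 2 := by
      have h3 := Real.exp_neg_one_lt_d9
      have h4 := Real.log_two_gt_d9
      linarith
    have h5 := Real.log_le_log (Real.exp_pos _) h2
    rw [Real.log_exp] at h5
    linarith
  have h2 : 0 ≤ (1 + Real.log (Real.log 2)) / Real.log 2 :=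
    div_nonneg h1 (Real.log_pos (by norm_num)).le
  linarith

theorem part2 {y1 : ℝ} (hy1 : 0 < y1) : ∃ B : ℝ, 0 < B ∧ ∀ (L : ℕ) (y : ℝ), y1 * 2 ^ L ≤ y →
    (2 : ℝ) ^ (dl * L) * Real.exp (-(y / 16)) ≤
      B * (1 / 2) ^ L / ((L : ℝ) + 1) ^ (3 / 2 : ℝ) := by
  refine ⟨24 * (16 / y1) ^ 4, by positivity, ?_⟩
  intro L y hy
  have hden : (0 : ℝ) < ((L : ℝ) + 1) ^ (3 / 2 : ℝ) := by positivity
  rw [le_div_iff₀ hden]
  set x : ℝ := (2 : ℝ) ^ L with hx
  have hx0 : 0 < x := by positivity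
  have hx1 : 1 ≤ x := one_le_pow₀ (by norm_num)
  have h1 : (2 : ℝ) ^ (dl * L) ≤ x := by
    calc (2 : ℝ) ^ (dl * L) ≤ (2 : ℝ) ^ ((L : ℝ)) := by
          apply Real.rpow_le_rpow_of_exponent_le (by norm_num)
          have h2 : (0 : ℝ) ≤ L := Nat.cast_nonneg L
          nlinarith [dl_le_one]
      _ = x := by rw [Real.rpow_natCast]
  have hLx : (L : ℝ) + 1 ≤ x := by
    have h2 : L + 1 ≤ 2 ^ L := Nat.lt_two_pow_self
    have h3 : ((L + 1 : ℕ) : ℝ) ≤ ((2 ^ L : ℕ) : ℝ) := by exact_mod_cast h2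
    push_cast at h3
    exact h3
  have h2 : ((L : ℝ) + 1) ^ (3 / 2 : ℝ) ≤ x ^ 2 := by
    calc ((L : ℝ) + 1) ^ (3 / 2 : ℝ) ≤ x ^ (3 / 2 : ℝ) :=
          Real.rpow_le_rpow (by positivity) hLx (by norm_num)
      _ ≤ x ^ (2 : ℝ) := Real.rpow_le_rpow_of_exponent_le hx1 (by norm_num)
      _ = x ^ 2 := by norm_cast
  have h3 : Real.exp (-(y / 16)) ≤ 24 * (16 / y1) ^ 4 / x ^ 4 := by
    have h4 : y1 * x / 16 ≤ y / 16 := by linarith
    have h5 := Real.pow_div_factorial_le_exp (y1 * x / 16) (by positivity) 4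
    have h6 : Real.exp (y1 * x / 16) ≤ Real.exp (y / 16) := Real.exp_le_exp.mpr h4
    have h7 : ((4 : ℕ).factorial : ℝ) = 24 := by norm_num [Nat.factorial]
    rw [h7] at h5
    rw [Real.exp_neg]
    have h8 : 0 < (y1 * x / 16) ^ 4 / 24 := by positivity
    calc (Real.exp (y / 16))⁻¹ ≤ ((y1 * x / 16) ^ 4 / 24)⁻¹ :=
          inv_anti₀ h8 (h5.trans h6)
      _ = 24 * (16 / y1) ^ 4 / x ^ 4 := by
          field_simp
  have h9 : ((1 : ℝ) / 2) ^ L = 1 / x := by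
    rw [hx, div_pow, one_pow]
  rw [h9]
  calc (2 : ℝ) ^ (dl * L) * Real.exp (-(y / 16)) * ((L : ℝ) + 1) ^ (3 / 2 : ℝ)
      ≤ x * (24 * (16 / y1) ^ 4 / x ^ 4) * x ^ 2 := by
        apply mul_le_mul _ h2 hden.le (by positivity)
        exact mul_le_mul h1 h3 (Real.exp_pos _).le hx0.le
    _ = 24 * (16 / y1) ^ 4 * (1 / x) := by
        field_simp

theorem ZS_trivial {L : ℕ} (F : (Fin L → ℕ) → ℝ) (h0 : ∀ ν, 0 ≤ F ν) (h1 : ∀ ν, F ν ≤ 1) :
    0 ≤ ZS L F ∧ ZS L F ≤ (2 : ℝ) ^ (dl * L) := by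
  have ha : ∀ ν, |F ν| ≤ 1 := fun ν => by rw [abs_of_nonneg (h0 ν)]; exact h1 ν
  constructor
  · have h2 := ZS_mono (fun ν => 0 * F ν) F 1 (fun ν => by simp) ha
      (fun ν => by rw [zero_mul]; exact h0 ν)
    rw [ZS_mul, zero_mul] at h2
    exact h2
  · have h2 := ZS_mono F (fun _ => 1) 1 ha (fun ν => by simp) h1
    rw [ZS_one] at h2
    exact h2

theorem rpow_ge {f : ℕ} (hf : 1 ≤ f) {y : ℝ} (h : y < 2 * Real.log f) :
    1 ≤ Real.exp (-(y / 16)) * (f : ℝ) ^ (1 / 8 : ℝ) := by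
  have hf0 : (0 : ℝ) < f := by exact_mod_cast hf
  rw [Real.rpow_def_of_pos hf0, ← Real.exp_add]
  apply Real.one_le_exp
  linarith

end StA

open StA in
theorem st_A {y1 : ℝ} (hy1 : 0 < y1) : ∃ C ρ : ℝ, 0 < C ∧ 0 < ρ ∧ ρ < 1 ∧ ∃ L0 : ℕ,
    ∀ (L N c1 c2 F0 : ℕ) (y : ℝ), L0 ≤ L → y1 * 2 ^ L ≤ y → F0 ≤ N →
    |∑' f : ℕ, ind (Sm N f) * wf f * Z f L y -
      ∑ f ∈ Icc 1 F0, wf f * ZS L (fun ν => ind (E0 c1 c2 ν) * PrA f L y ν)| ≤
      C / ((L : ℝ) + 1) ^ (3 / 2 : ℝ) *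
        (ρ ^ c1 + ρ ^ c2 + ((F0 : ℝ) + 1) ^ (-1 / 8 : ℝ) + ρ ^ L) := by
  obtain ⟨A, ρ0, hA, hρ0, hρ1, L0, hpart1⟩ := part1 hy1
  obtain ⟨B, hB, hpart2⟩ := part2 hy1
  set ρ : ℝ := max ρ0 (1 / 2) with hρ
  have hρpos : 0 < ρ := lt_of_lt_of_le hρ0 (le_max_left _ _)
  have hρlt : ρ < 1 := max_lt hρ1 (by norm_num)
  set w : ℕ → ℝ := fun f => wf f * f.divisors.card * (f : ℝ) ^ (1 / 8 : ℝ) with hw
  have hw0 : ∀ f, 0 ≤ w f := fun f => by
    have := wf_nonneg f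
    simp only [hw]
    positivity
  have hwS : Summable w := wf_sum
  refine ⟨(A + B) * ∑' f, w f + 1, ρ, ?_, hρpos, hρlt, L0, ?_⟩
  · have hS : 0 ≤ ∑' f, w f := tsum_nonneg hw0
    positivity
  intro L N c1 c2 F0 y hL hy hF0
  have hden : (0 : ℝ) < ((L : ℝ) + 1) ^ (3 / 2 : ℝ) := by positivity
  have hpow1 : ρ0 ^ c1 ≤ ρ ^ c1 := pow_le_pow_left₀ hρ0.le (le_max_left _ _) _
  have hpow2 : ρ0 ^ c2 ≤ ρ ^ c2 := pow_le_pow_left₀ hρ0.le (le_max_left _ _) _
  have hpow3 : (1 / 2 : ℝ) ^ L ≤ ρ ^ L := pow_le_pow_left₀ (by norm_num) (le_max_right _ _) _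
  set E : ℝ := ρ ^ c1 + ρ ^ c2 + ((F0 : ℝ) + 1) ^ (-1 / 8 : ℝ) + ρ ^ L with hE
  have hF8 : (0 : ℝ) ≤ ((F0 : ℝ) + 1) ^ (-1 / 8 : ℝ) := by positivity
  have hρc1 : 0 ≤ ρ ^ c1 := by positivity
  have hρc2 : 0 ≤ ρ ^ c2 := by positivity
  have hρL : 0 ≤ ρ ^ L := by positivity
  have hE0 : 0 ≤ E := by positivity
  set M : ℝ := (A + B) * E / ((L : ℝ) + 1) ^ (3 / 2 : ℝ) with hM
  have hM0 : 0 ≤ M := by positivity
  set a : ℕ → ℝ := fun f => ind (Sm N f) * wf f * Z f L y with ha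
  set b : ℕ → ℝ := fun f => if f ∈ Icc 1 F0 then
    wf f * ZS L (fun ν => ind (E0 c1 c2 ν) * PrA f L y ν) else 0 with hb
  -- the contribution of a large `f`
  have hbig : ∀ f : ℕ, 1 ≤ f → y < 2 * Real.log f → ∀ F : (Fin L → ℕ) → ℝ, (∀ ν, 0 ≤ F ν) →
      (∀ ν, F ν ≤ 1) → wf f * ZS L F ≤ w f * M := by
    intro f hf hfy F h0 h1
    have h2 := (ZS_trivial F h0 h1).2
    have h3 := hpart2 L y hy
    have h4 := rpow_ge hf hfy
    have hf0 : (0 : ℝ) < f := by exact_mod_cast hf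
    have hd1 : (1 : ℝ) ≤ f.divisors.card := by
      exact_mod_cast Finset.card_pos.mpr ⟨1, Nat.one_mem_divisors.mpr (by omega)⟩
    have h5 : (2 : ℝ) ^ (dl * L) ≤
        B * (1 / 2) ^ L / ((L : ℝ) + 1) ^ (3 / 2 : ℝ) * (f : ℝ) ^ (1 / 8 : ℝ) := by
      calc (2 : ℝ) ^ (dl * L) ≤
            (2 : ℝ) ^ (dl * L) * (Real.exp (-(y / 16)) * (f : ℝ) ^ (1 / 8 : ℝ)) :=
            le_mul_of_one_le_right (by positivity) h4
        _ = (2 : ℝ) ^ (dl * L) * Real.exp (-(y / 16)) * (f : ℝ) ^ (1 / 8 : ℝ) := by ring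
        _ ≤ _ := mul_le_mul_of_nonneg_right h3 (by positivity)
    have h6 : B * (1 / 2) ^ L / ((L : ℝ) + 1) ^ (3 / 2 : ℝ) ≤ M := by
      rw [hM]
      apply div_le_div_of_nonneg_right _ hden.le
      have h7 : B * (1 / 2) ^ L ≤ B * E := by
        apply mul_le_mul_of_nonneg_left _ hB.le
        rw [hE]
        linarith
      have h8 : 0 ≤ A * E := by positivity
      nlinarith
    have h9 : ZS L F ≤ M * (f : ℝ) ^ (1 / 8 : ℝ) :=
      h2.trans (h5.trans (mul_le_mul_of_nonneg_right h6 (by positivity)))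
    have h10 : M * (f : ℝ) ^ (1 / 8 : ℝ) ≤ f.divisors.card * (M * (f : ℝ) ^ (1 / 8 : ℝ)) :=
      le_mul_of_one_le_left (by positivity) hd1
    calc wf f * ZS L F ≤ wf f * (f.divisors.card * (M * (f : ℝ) ^ (1 / 8 : ℝ))) :=
          mul_le_mul_of_nonneg_left (h9.trans h10) (wf_nonneg f)
      _ = w f * M := by
          simp only [hw]
          ring
  -- the difference
  have hdiff : ∀ f, ‖a f - b f‖ ≤ w f * M := by
    intro f
    rw [Real.norm_eq_abs]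
    have hP0 := PrA_nonneg f L y
    have hP1 := PrA_le_one f L y
    have hZ : Z f L y = ZS L (fun ν => PrA f L y ν) := rfl
    rcases Nat.eq_zero_or_pos f with hf | hf
    · subst hf
      have h1 : ind (Sm N 0) = 0 := ind_not_of (fun h => h.1 rfl)
      have h2 : (0 : ℕ) ∉ Icc 1 F0 := by simp
      simp only [ha, hb, h1, if_neg h2, zero_mul, sub_zero, abs_zero]
      exact mul_nonneg (hw0 0) hM0
    have hf1 : 1 ≤ f := hf
    have hfr : (1 : ℝ) ≤ f := by exact_mod_cast hf1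
    have hf8 : (1 : ℝ) ≤ (f : ℝ) ^ (1 / 8 : ℝ) := Real.one_le_rpow hfr (by norm_num)
    by_cases hmem : f ∈ Icc 1 F0
    · have hfF : f ≤ F0 := (Finset.mem_Icc.mp hmem).2
      have hSm : Sm N f := ⟨by omega, fun p _ hpd => (Nat.le_of_dvd hf hpd).trans
        (hfF.trans hF0)⟩
      have h1 : ind (Sm N f) = 1 := ind_of hSm
      have hsplit : ZS L (fun ν => PrA f L y ν) =
          ZS L (fun ν => ind (E0 c1 c2 ν) * PrA f L y ν) +
          ZS L (fun ν => ind (¬ E0 c1 c2 ν) * PrA f L y ν) := by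
        rw [← ZS_add _ _ 1]
        · congr 1
          funext ν
          rw [ind_not]
          ring
        · intro ν
          rw [abs_of_nonneg (mul_nonneg (ind_nonneg _) (hP0 ν))]
          exact mul_le_one₀ (ind_le_one _) (hP0 ν) (hP1 ν)
        · intro ν
          rw [abs_of_nonneg (mul_nonneg (ind_nonneg _) (hP0 ν))]
          exact mul_le_one₀ (ind_le_one _) (hP0 ν) (hP1 ν)
      have hab : a f - b f = wf f * ZS L (fun ν => ind (¬ E0 c1 c2 ν) * PrA f L y ν) := by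
        simp only [ha, hb, h1, if_pos hmem, hZ]
        rw [hsplit]
        ring
      have hn0 : ∀ ν : Fin L → ℕ, 0 ≤ ind (¬ E0 c1 c2 ν) * PrA f L y ν := fun ν =>
        mul_nonneg (ind_nonneg _) (hP0 ν)
      have hn1 : ∀ ν : Fin L → ℕ, ind (¬ E0 c1 c2 ν) * PrA f L y ν ≤ 1 := fun ν =>
        mul_le_one₀ (ind_le_one _) (hP0 ν) (hP1 ν)
      rw [hab, abs_of_nonneg (mul_nonneg (wf_nonneg f) (ZS_trivial _ hn0 hn1).1)]
      rcases lt_or_ge y (2 * Real.log f) with hfy | hfy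
      · exact hbig f hf1 hfy _ hn0 hn1
      · have h2 := (hpart1 L f c1 c2 y hL hy hf1 hfy).2
        have h3 : A * f.divisors.card * (ρ0 ^ c1 + ρ0 ^ c2) / ((L : ℝ) + 1) ^ (3 / 2 : ℝ) ≤
            f.divisors.card * M := by
          rw [hM, ← mul_div_assoc]
          apply div_le_div_of_nonneg_right _ hden.le
          have h4 : A * (ρ0 ^ c1 + ρ0 ^ c2) ≤ (A + B) * E := by
            have h5 : ρ0 ^ c1 + ρ0 ^ c2 ≤ E := by
              rw [hE]
              linarith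
            exact mul_le_mul (by linarith) h5 (by positivity) (by positivity)
          calc A * f.divisors.card * (ρ0 ^ c1 + ρ0 ^ c2)
              = f.divisors.card * (A * (ρ0 ^ c1 + ρ0 ^ c2)) := by ring
            _ ≤ _ := mul_le_mul_of_nonneg_left h4 (by positivity)
        calc wf f * ZS L (fun ν => ind (¬ E0 c1 c2 ν) * PrA f L y ν)
            ≤ wf f * (f.divisors.card * M) :=
              mul_le_mul_of_nonneg_left (h2.trans h3) (wf_nonneg f)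
          _ ≤ wf f * (f.divisors.card * M) * (f : ℝ) ^ (1 / 8 : ℝ) :=
              le_mul_of_one_le_right (mul_nonneg (wf_nonneg f) (by positivity)) hf8
          _ = w f * M := by
              simp only [hw]
              ring
    · have hfF : F0 + 1 ≤ f := by
        by_contra h
        exact hmem (Finset.mem_Icc.mpr ⟨hf1, by omega⟩)
      have hZ0 : 0 ≤ ZS L (fun ν => PrA f L y ν) := (ZS_trivial _ hP0 hP1).1
      have hwZ0 : 0 ≤ wf f * ZS L (fun ν => PrA f L y ν) := mul_nonneg (wf_nonneg f) hZ0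
      have hab : |a f - b f| ≤ wf f * ZS L (fun ν => PrA f L y ν) := by
        simp only [ha, hb, if_neg hmem, hZ, sub_zero]
        rw [mul_assoc, abs_of_nonneg (mul_nonneg (ind_nonneg _) hwZ0)]
        exact mul_le_of_le_one_left hwZ0 (ind_le_one _)
      refine hab.trans ?_
      rcases lt_or_ge y (2 * Real.log f) with hfy | hfy
      · exact hbig f hf1 hfy _ hP0 hP1
      · have h2 := (hpart1 L f c1 c2 y hL hy hf1 hfy).1
        have h3 : 1 ≤ ((F0 : ℝ) + 1) ^ (-1 / 8 : ℝ) * (f : ℝ) ^ (1 / 8 : ℝ) := by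
          have h4 : ((F0 : ℝ) + 1) ≤ f := by exact_mod_cast hfF
          have h5 : ((F0 : ℝ) + 1) ^ (1 / 8 : ℝ) ≤ (f : ℝ) ^ (1 / 8 : ℝ) :=
            Real.rpow_le_rpow (by positivity) h4 (by norm_num)
          have h6 : ((F0 : ℝ) + 1) ^ (-1 / 8 : ℝ) * ((F0 : ℝ) + 1) ^ (1 / 8 : ℝ) = 1 := by
            rw [← Real.rpow_add (by positivity)]
            norm_num
          calc (1 : ℝ) = ((F0 : ℝ) + 1) ^ (-1 / 8 : ℝ) * ((F0 : ℝ) + 1) ^ (1 / 8 : ℝ) := h6.symm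
            _ ≤ _ := mul_le_mul_of_nonneg_left h5 hF8
        have h7 : A * f.divisors.card / ((L : ℝ) + 1) ^ (3 / 2 : ℝ) ≤
            f.divisors.card * (M * (f : ℝ) ^ (1 / 8 : ℝ)) := by
          have h8 : A ≤ (A + B) * E * (f : ℝ) ^ (1 / 8 : ℝ) := by
            calc A ≤ A * (((F0 : ℝ) + 1) ^ (-1 / 8 : ℝ) * (f : ℝ) ^ (1 / 8 : ℝ)) :=
                  le_mul_of_one_le_right hA.le h3
              _ = A * ((F0 : ℝ) + 1) ^ (-1 / 8 : ℝ) * (f : ℝ) ^ (1 / 8 : ℝ) := by ring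
              _ ≤ (A + B) * E * (f : ℝ) ^ (1 / 8 : ℝ) := by
                  apply mul_le_mul_of_nonneg_right _ (by positivity)
                  apply mul_le_mul (by linarith) _ hF8 (by positivity)
                  rw [hE]
                  linarith
          calc A * f.divisors.card / ((L : ℝ) + 1) ^ (3 / 2 : ℝ)
              ≤ ((A + B) * E * (f : ℝ) ^ (1 / 8 : ℝ)) * f.divisors.card /
                ((L : ℝ) + 1) ^ (3 / 2 : ℝ) := by
                apply div_le_div_of_nonneg_right _ hden.le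
                exact mul_le_mul_of_nonneg_right h8 (by positivity)
            _ = f.divisors.card * (M * (f : ℝ) ^ (1 / 8 : ℝ)) := by
                rw [hM]
                ring
        calc wf f * ZS L (fun ν => PrA f L y ν)
            ≤ wf f * (f.divisors.card * (M * (f : ℝ) ^ (1 / 8 : ℝ))) :=
              mul_le_mul_of_nonneg_left (h2.trans h7) (wf_nonneg f)
          _ = w f * M := by
              simp only [hw]
              ring
  have hgS : Summable (fun f => w f * M) := hwS.mul_right M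
  have habS : Summable (fun f => a f - b f) := Summable.of_norm_bounded hgS hdiff
  have hbS : Summable b := summable_of_ne_finset_zero (s := Icc 1 F0) (fun f hf => by
    simp only [hb, if_neg hf])
  have haS : Summable a := by
    have h1 := habS.add hbS
    refine h1.congr (fun f => ?_)
    ring
  have hbsum : ∑' f, b f =
      ∑ f ∈ Icc 1 F0, wf f * ZS L (fun ν => ind (E0 c1 c2 ν) * PrA f L y ν) := by
    rw [tsum_eq_sum (s := Icc 1 F0) (fun f hf => by simp only [hb, if_neg hf])]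
    apply Finset.sum_congr rfl
    intro f hf
    simp only [hb, if_pos hf]
  rw [← hbsum]
  have hmain : ‖∑' f, (a f - b f)‖ ≤ ∑' f, w f * M := tsum_of_norm_bounded hgS.hasSum hdiff
  rw [haS.tsum_sub hbS] at hmain
  rw [Real.norm_eq_abs] at hmain
  refine hmain.trans ?_
  rw [tsum_mul_right]
  have hS0 : 0 ≤ ∑' f, w f := tsum_nonneg hw0
  calc (∑' f, w f) * M = (A + B) * (∑' f, w f) / ((L : ℝ) + 1) ^ (3 / 2 : ℝ) * E := by
        rw [hM]
        ring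
    _ ≤ ((A + B) * (∑' f, w f) + 1) / ((L : ℝ) + 1) ^ (3 / 2 : ℝ) * E := by
        apply mul_le_mul_of_nonneg_right _ hE0
        apply div_le_div_of_nonneg_right _ hden.le
        linarith

end Pool.Agent.EN
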