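import Mathlib
import Pool.Agent.Lib.MP_ec0ede_nt_EN.Defs4
import Pool.Agent.Lib.MP_ec0ede_nt_EN.LawA
import Pool.Agent.Lib.MP_ec0ede_nt_EN.LawB
import Pool.Agent.Lib.MP_ec0ede_nt_EN.ExB
import Pool.Agent.Lib.MP_ec0ede_nt_EN.Spl

set_option autoImplicit false

noncomputable section

namespace Pool.Agent.EN

open Real Filter Topology Finset


namespace Coin

/-- two coordinates agree with small probability -/
theorem pair_le {ι : Type} [Fintype ι] [DecidableEq ι] (P : Finset ℕ) (m : ι → ℕ → ℝ)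
    (hm : ∀ i p, 0 ≤ m i p) (h1 : ∀ i, ∑ p ∈ P, m i p = 1) {i i' : ι} (hne : i ≠ i') {B : ℝ}
    (hB : ∀ p, m i p ≤ B) : Ex P m (fun τ => ind (τ i = τ i')) ≤ B := by
  classical
  rw [Ex_pivot P m h1 i]
  calc Ex P m (fun τ => ∑ p ∈ P, m i p * ind (Function.update τ i p i = Function.update τ i p i'))
      ≤ Ex P m (fun _ => B) := by
        apply Ex_mono P m hm
        intro τ _
        have h2 : ∀ p ∈ P, m i p * ind (Function.update τ i p i = Function.update τ i p i') =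
            if p = τ i' then m i p else 0 := by
          intro p _
          rw [Function.update_self, Function.update_of_ne hne.symm]
          by_cases h : p = τ i' <;> simp [ind, h]
        rw [sum_congr rfl h2, sum_ite_eq' P (τ i') (fun p => m i p)]
        split_ifs
        · exact hB _
        · exact le_trans (hm i 0) (hB 0)
    _ = B := Ex_const P m h1 B

/-- the number of pairs of equal coordinates, the first one of level above `K` -/
def GK {n : ℕ} (K : ℕ) (ν : Fin n → ℕ) (σ : Idx ν → ℕ) : ℝ :=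
  ∑ i : Idx ν, ∑ i' : Idx ν,
    if K ≤ (i.1 : ℕ) ∧ (i'.1 : ℕ) ≤ (i.1 : ℕ) ∧ i ≠ i' then ind (σ i = σ i') else 0

theorem GK_ge {n : ℕ} (K : ℕ) (ν : Fin n → ℕ) (σ : Idx ν → ℕ) {i i' : Idx ν}
    (hK : K ≤ (i.1 : ℕ)) (hl : (i'.1 : ℕ) ≤ (i.1 : ℕ)) (hne : i ≠ i') (h : σ i = σ i') :
    1 ≤ GK K ν σ := by
  have h0 : ∀ a b : Idx ν, 0 ≤ (if K ≤ (a.1 : ℕ) ∧ (b.1 : ℕ) ≤ (a.1 : ℕ) ∧ a ≠ b then
      ind (σ a = σ b) else 0) := by
    intro a b
    split_ifs
    · exact ind_nonneg _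
    · exact le_refl _
  calc (1 : ℝ) = if K ≤ (i.1 : ℕ) ∧ (i'.1 : ℕ) ≤ (i.1 : ℕ) ∧ i ≠ i' then
        ind (σ i = σ i') else 0 := by rw [if_pos ⟨hK, hl, hne⟩, ind_of h]
    _ ≤ ∑ b : Idx ν, if K ≤ (i.1 : ℕ) ∧ (b.1 : ℕ) ≤ (i.1 : ℕ) ∧ i ≠ b then
        ind (σ i = σ b) else 0 :=
        single_le_sum (f := fun b : Idx ν => if K ≤ (i.1 : ℕ) ∧ (b.1 : ℕ) ≤ (i.1 : ℕ) ∧ i ≠ b then
          ind (σ i = σ b) else 0) (fun b _ => h0 i b) (mem_univ i')
    _ ≤ GK K ν σ :=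
        single_le_sum (f := fun a : Idx ν => ∑ b : Idx ν,
          if K ≤ (a.1 : ℕ) ∧ (b.1 : ℕ) ≤ (a.1 : ℕ) ∧ a ≠ b then ind (σ a = σ b) else 0)
          (fun a _ => sum_nonneg fun b _ => h0 a b) (mem_univ i)

theorem GK_nonneg {n : ℕ} (K : ℕ) (ν : Fin n → ℕ) (σ : Idx ν → ℕ) : 0 ≤ GK K ν σ := by
  unfold GK
  refine sum_nonneg fun a _ => sum_nonneg fun b _ => ?_
  split_ifs
  · exact ind_nonneg _
  · exact le_refl _

theorem card_le_level {n : ℕ} (ν : Fin n → ℕ) (l : ℕ) :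
    ∑ i' : Idx ν, (if (i'.1 : ℕ) ≤ l then (1 : ℝ) else 0) = cnt ν (l + 1) := by
  rw [Fintype.sum_sigma]
  unfold cnt
  push_cast
  refine sum_congr rfl fun a _ => ?_
  by_cases h : (a : ℕ) ≤ l
  · rw [if_pos (by omega)]
    simp [h]
  · rw [if_neg (by omega)]
    simp [h]

theorem EX_GK {D : ℝ} (hD : ∀ j p : ℕ, mu j p ≤ 2 * Real.exp (-(2 ^ j / D))) (L K n : ℕ)
    (ν : Fin n → ℕ) (hn : n ≤ L) : EX L 0 ν (GK K ν) ≤
      ∑ l : Fin n, if K ≤ (l : ℕ) then (ν l : ℝ) * cnt ν (l + 1) *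
        (2 * Real.exp (-(2 ^ ((l : ℕ) + 1) / D))) else 0 := by
  have h1 : ∀ i : Idx ν, ∑ p ∈ range (bd L), mu (lv 0 ν i) p = 1 := by
    intro i
    apply mu_mass
    · unfold lv; omega
    · have := i.1.2
      unfold lv; omega
  have hm : ∀ (i : Idx ν) p, 0 ≤ mu (lv 0 ν i) p := fun i p => mu_nonneg _ _
  unfold EX GK
  rw [Ex_fsum]
  calc ∑ i : Idx ν, Ex (range (bd L)) (fun i => mu (lv 0 ν i)) (fun σ => ∑ i' : Idx ν,
        if K ≤ (i.1 : ℕ) ∧ (i'.1 : ℕ) ≤ (i.1 : ℕ) ∧ i ≠ i' then ind (σ i = σ i') else 0)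
      ≤ ∑ i : Idx ν, ∑ i' : Idx ν, (if K ≤ (i.1 : ℕ) then
          (if (i'.1 : ℕ) ≤ (i.1 : ℕ) then (1 : ℝ) else 0) *
            (2 * Real.exp (-(2 ^ ((i.1 : ℕ) + 1) / D))) else 0) := by
        refine sum_le_sum fun i _ => ?_
        rw [Ex_fsum]
        refine sum_le_sum fun i' _ => ?_
        have hpos : (0 : ℝ) ≤ 2 * Real.exp (-(2 ^ ((i.1 : ℕ) + 1) / D)) := by positivity
        by_cases hc : K ≤ (i.1 : ℕ) ∧ (i'.1 : ℕ) ≤ (i.1 : ℕ) ∧ i ≠ i'
        · have h2 : (fun σ : Idx ν → ℕ => if K ≤ (i.1 : ℕ) ∧ (i'.1 : ℕ) ≤ (i.1 : ℕ) ∧ i ≠ i' then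
              ind (σ i = σ i') else 0) = fun σ => ind (σ i = σ i') := by
            funext σ; rw [if_pos hc]
          rw [h2, if_pos hc.1, if_pos hc.2.1, one_mul]
          apply pair_le _ _ hm h1 hc.2.2
          intro p
          have h3 := hD (lv 0 ν i) p
          have h4 : lv 0 ν i = (i.1 : ℕ) + 1 := by unfold lv; omega
          rw [h4] at h3
          rw [h4]
          exact h3
        · have h2 : (fun σ : Idx ν → ℕ => if K ≤ (i.1 : ℕ) ∧ (i'.1 : ℕ) ≤ (i.1 : ℕ) ∧ i ≠ i' then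
              ind (σ i = σ i') else 0) = fun σ => (0 : ℝ) := by
            funext σ; rw [if_neg hc]
          rw [h2, Ex_const _ _ h1]
          split_ifs <;> simp [hpos]
    _ = ∑ i : Idx ν, (if K ≤ (i.1 : ℕ) then (cnt ν ((i.1 : ℕ) + 1) : ℝ) *
            (2 * Real.exp (-(2 ^ ((i.1 : ℕ) + 1) / D))) else 0) := by
        refine sum_congr rfl fun i _ => ?_
        by_cases hc : K ≤ (i.1 : ℕ)
        · simp only [if_pos hc]
          rw [← sum_mul, card_le_level]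
        · simp only [if_neg hc, sum_const_zero]
    _ = _ := by
        rw [Fintype.sum_sigma]
        refine sum_congr rfl fun l _ => ?_
        by_cases hc : K ≤ (l : ℕ)
        · simp only [if_pos hc]
          rw [sum_const, card_univ, Fintype.card_fin, nsmul_eq_mul]
          ring
        · simp only [if_neg hc, sum_const_zero]

theorem jn_inl {m n : ℕ} {ν : Fin m → ℕ} {ν' : Fin n → ℕ} (τ : Idx ν → ℕ) (τ' : Idx ν' → ℕ)
    (a : Idx ν) : jn τ τ' (idxE ν ν' (Sum.inl a)) = τ a := by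
  unfold jn
  rw [Equiv.symm_apply_apply]
  rfl

theorem jn_inr {m n : ℕ} {ν : Fin m → ℕ} {ν' : Fin n → ℕ} (τ : Idx ν → ℕ) (τ' : Idx ν' → ℕ)
    (a : Idx ν') : jn τ τ' (idxE ν ν' (Sum.inr a)) = τ' a := by
  unfold jn
  rw [Equiv.symm_apply_apply]
  rfl

theorem idxE_inl {m n : ℕ} {ν : Fin m → ℕ} {ν' : Fin n → ℕ} (a : Idx ν) :
    ((idxE ν ν' (Sum.inl a)).1 : ℕ) = (a.1 : ℕ) := rfl

theorem idxE_inr {m n : ℕ} {ν : Fin m → ℕ} {ν' : Fin n → ℕ} (a : Idx ν') :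
    ((idxE ν ν' (Sum.inr a)).1 : ℕ) = m + (a.1 : ℕ) := rfl

theorem point {f K m : ℕ} {νC : Fin K → ℕ} {ν : Fin m → ℕ} (τ : Idx νC → ℕ) (τ' : Idx ν → ℕ)
    (hf : ∀ b, ¬ τ' b ∣ f) :
    ind (Inj f τ ∧ ¬ Inj f (jn τ τ')) ≤ GK K (Fin.append νC ν) (jn τ τ') := by
  by_cases h : Inj f τ ∧ ¬ Inj f (jn τ τ')
  swap
  · rw [ind_not_of h]; exact GK_nonneg _ _ _
  rw [ind_of h]
  obtain ⟨⟨hinj, hdiv⟩, hn⟩ := h
  have hd : ∀ i, ¬ jn τ τ' i ∣ f := by
    intro i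
    obtain ⟨s, rfl⟩ := (idxE νC ν).surjective i
    rcases s with a | b
    · rw [jn_inl]; exact hdiv a
    · rw [jn_inr]; exact hf b
  have hni : ¬ Function.Injective (jn τ τ') := fun hi => hn ⟨hi, hd⟩
  rw [Function.Injective] at hni
  push Not at hni
  obtain ⟨i, i', he, hne⟩ := hni
  -- a pair of the wanted kind
  have key : ∀ i i' : Idx (Fin.append νC ν), jn τ τ' i = jn τ τ' i' → i ≠ i' →
      (i'.1 : ℕ) ≤ (i.1 : ℕ) → 1 ≤ GK K (Fin.append νC ν) (jn τ τ') := by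
    intro i i' he hne hle
    have hK : K ≤ (i.1 : ℕ) := by
      by_contra hlt
      push Not at hlt
      obtain ⟨s, rfl⟩ := (idxE νC ν).surjective i
      obtain ⟨s', rfl⟩ := (idxE νC ν).surjective i'
      rcases s with a | b
      · rcases s' with a' | b'
        · rw [jn_inl, jn_inl] at he
          exact hne (congrArg _ (congrArg _ (hinj he)))
        · rw [idxE_inr] at hle
          rw [idxE_inl] at hle
          have := a.1.2
          omega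
      · rw [idxE_inr] at hlt
        omega
    exact GK_ge K _ _ hK hle hne he
  rcases le_total (i'.1 : ℕ) (i.1 : ℕ) with hle | hle
  · exact key i i' he hne hle
  · exact key i' i he.symm (Ne.symm hne) hle

end Coin

open Coin in
theorem coin_bound : ∃ D : ℝ, 1 ≤ D ∧ ∀ (L K m f : ℕ) (νC : Fin K → ℕ) (ν : Fin m → ℕ),
    K + m ≤ L → (∀ j p : ℕ, K < j → p ∣ f → mu j p = 0) →
    EX L 0 νC (fun τ => EX L K ν (fun τ' => ind (Inj f τ ∧ ¬ Inj f (jn τ τ')))) ≤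
      ∑ l : Fin m, (ν l : ℝ) * cnt (Fin.append νC ν) (K + l + 1) *
        (2 * Real.exp (-(2 ^ (K + (l : ℕ) + 1) / D))) := by
  obtain ⟨D, hD1, hD⟩ := mu_small
  refine ⟨D, hD1, fun L K m f νC ν hL hf => ?_⟩
  have h1 : EX L 0 νC (fun τ => EX L K ν (fun τ' => ind (Inj f τ ∧ ¬ Inj f (jn τ τ')))) ≤
      EX L 0 (Fin.append νC ν) (GK K (Fin.append νC ν)) := by
    rw [EX_append L 0 νC ν (GK K (Fin.append νC ν)), zero_add]
    unfold EX
    apply Ex_mono _ _ (fun i p => mu_nonneg _ _)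
    intro τ _
    apply Ex_mono _ _ (fun i p => mu_nonneg _ _)
    intro τ' hτ'
    apply point
    intro b hb
    apply (hτ' b).2
    apply hf _ _ _ hb
    unfold lv
    omega
  refine h1.trans ((EX_GK hD L K (K + m) (Fin.append νC ν) hL).trans (le_of_eq ?_))
  rw [Fin.sum_univ_add]
  have h2 : ∀ i : Fin K, (if K ≤ ((Fin.castAdd m i : Fin (K + m)) : ℕ) then
      ((Fin.append νC ν (Fin.castAdd m i) : ℕ) : ℝ) *
        cnt (Fin.append νC ν) ((Fin.castAdd m i : Fin (K + m)) + 1) *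
        (2 * Real.exp (-(2 ^ (((Fin.castAdd m i : Fin (K + m)) : ℕ) + 1) / D))) else 0) = 0 := by
    intro i
    rw [if_neg]
    have := i.2
    simp only [Fin.val_castAdd]
    omega
  rw [sum_congr rfl (fun i _ => h2 i), sum_const_zero, zero_add]
  refine sum_congr rfl fun l _ => ?_
  rw [if_pos (by simp), Fin.append_right, Fin.val_natAdd]

open Coin in
theorem coin_one : ∃ D : ℝ, 1 ≤ D ∧ ∀ (L n : ℕ) (ν : Fin n → ℕ), n ≤ L →
    EX L 0 ν (fun τ => ind (¬ Inj 1 τ)) ≤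
      ∑ l : Fin n, (ν l : ℝ) * cnt ν (l + 1) * (2 * Real.exp (-(2 ^ ((l : ℕ) + 1) / D))) := by
  obtain ⟨D, hD1, hD⟩ := mu_small
  refine ⟨D, hD1, fun L n ν hL => ?_⟩
  have h1 : EX L 0 ν (fun τ => ind (¬ Inj 1 τ)) ≤ EX L 0 ν (GK 0 ν) := by
    unfold EX
    apply Ex_mono _ _ (fun i p => mu_nonneg _ _)
    intro τ hτ
    by_cases h : ¬ Inj 1 τ
    swap
    · rw [ind_not_of h]; exact GK_nonneg _ _ _
    rw [ind_of h]
    have hd : ∀ i, ¬ τ i ∣ 1 := by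
      intro i hi
      apply (hτ i).2
      apply mu_not_prime
      rw [Nat.dvd_one.1 hi]
      exact Nat.not_prime_one
    have hni : ¬ Function.Injective τ := fun hi => h ⟨hi, hd⟩
    rw [Function.Injective] at hni
    push Not at hni
    obtain ⟨i, i', he, hne⟩ := hni
    rcases le_total (i'.1 : ℕ) (i.1 : ℕ) with hle | hle
    · exact GK_ge 0 ν τ (Nat.zero_le _) hle hne he
    · exact GK_ge 0 ν τ (Nat.zero_le _) hle (Ne.symm hne) he.symm
  refine h1.trans ((EX_GK hD L 0 n ν hL).trans (le_of_eq ?_))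
  refine sum_congr rfl fun l _ => ?_
  rw [if_pos (Nat.zero_le _)]

end Pool.Agent.EN
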