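import Mathlib
import Pool.Agent.Lib.MP_ec0ede_nt_EN.Defs1
import Pool.Agent.Lib.MP_ec0ede_nt_EN.Ker
import Pool.Agent.Lib.MP_ec0ede_nt_EN.KerW
import Pool.Agent.Lib.MP_ec0ede_nt_EN.Path

set_option autoImplicit false

/-!
# MP_ec0ede_nt, project EN, module Good: estimates on the good paths
-/

noncomputable section

namespace Pool.Agent.EN

open Real Filter Topology Finset

namespace Good

theorem PW_sum {L : ℕ} {ι : Type*} (s : Finset ι) (F : ι → (Fin L → ℕ) → ENNReal) :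
    PW L (fun ν => ∑ i ∈ s, F i ν) = ∑ i ∈ s, PW L (F i) := by
  unfold PW
  simp only [Finset.mul_sum]
  exact Summable.tsum_finsetSum fun i _ => ENNReal.summable

theorem PW_const {L : ℕ} (c : ENNReal) (F : (Fin L → ℕ) → ENNReal) :
    PW L (fun ν => c * F ν) = c * PW L F := by
  unfold PW
  rw [← ENNReal.tsum_mul_left]
  exact tsum_congr fun ν => by ring

theorem PW_zero {L : ℕ} (F : (Fin L → ℕ) → ENNReal) (h : ∀ ν, F ν = 0) : PW L F = 0 := by
  unfold PW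
  simp [h]

theorem pw_nonneg (k : ℕ) : 0 ≤ pw k := by unfold pw; positivity

theorem X_le {L : ℕ} (ν : Fin L → ℕ) (j : ℕ) : X ν j ≤ j := by
  unfold X
  have : (0:ℤ) ≤ cnt ν j := Int.natCast_nonneg _
  linarith

theorem cnt_append_right {m n : ℕ} (ν : Fin m → ℕ) (ν' : Fin n → ℕ) (j : ℕ) :
    cnt (Fin.append ν ν') (m + j) = cnt ν m + cnt ν' j := by
  have := X_append_right ν ν' j
  unfold X at this
  push_cast at this
  omega

theorem cnt_append_left {m n : ℕ} (ν : Fin m → ℕ) (ν' : Fin n → ℕ) {j : ℕ} (hj : j ≤ m) :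
    cnt (Fin.append ν ν') j = cnt ν j := by
  have := X_append_left ν ν' hj
  unfold X at this
  omega

/-- the conditions of a good path in two blocks -/
theorem E0_append {c1 c2 m n : ℕ} {ν : Fin m → ℕ} {ν' : Fin n → ℕ}
    (h : E0 c1 c2 (Fin.append ν ν')) : (∀ j ≤ m, -(c1 : ℤ) ≤ X ν j) ∧
      (∀ j ≤ n, -(c1 : ℤ) ≤ X ν m + X ν' j) ∧ X ν m + X ν' n ≤ c2 := by
  refine ⟨fun j hj => ?_, fun j hj => ?_, ?_⟩
  · have := h.1 j (by omega)
    rwa [X_append_left ν ν' hj] at this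
  · have := h.1 (m + j) (by omega)
    rwa [X_append_right ν ν' j] at this
  · have := h.2
    rwa [X_append_right ν ν' n] at this

/-- the kernel of the upper block -/
def R (c1 c2 n : ℕ) (x : ℤ) : ℝ :=
  ∑ w ∈ Icc (-(c1:ℤ)) c2, kp n (w + c1 + 1).toNat (x + c1 + 1).toNat

theorem R_nonneg (c1 c2 n : ℕ) (x : ℤ) : 0 ≤ R c1 c2 n x :=
  Finset.sum_nonneg fun _ _ => kp_nonneg _ _ _

theorem upper (c1 c2 n : ℕ) (x : ℤ) (hx : -(c1:ℤ) ≤ x) (F : (Fin n → ℕ) → ENNReal)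
    (hF : ∀ ν, F ν ≤ 1)
    (hF0 : ∀ ν, F ν ≠ 0 → (∀ j ≤ n, -(c1:ℤ) ≤ x + X ν j) ∧ x + X ν n ≤ c2) :
    PW n F ≤ ENNReal.ofReal (R c1 c2 n x) := by
  have h1 : PW n F ≤ PW n (fun ν => ∑ w ∈ Icc (-(c1:ℤ)) c2,
      if (∀ j ≤ n, -(c1:ℤ) ≤ x + X ν j) ∧ x + X ν n = w then
        ENNReal.ofReal (Real.exp (0 * Q ν n)) else 0) := by
    apply PW_mono
    intro ν
    by_cases h0 : F ν = 0
    · rw [h0]
      exact zero_le
    · obtain ⟨h2, h3⟩ := hF0 ν h0
      have hmem : x + X ν n ∈ Icc (-(c1:ℤ)) c2 := by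
        rw [Finset.mem_Icc]
        exact ⟨h2 n le_rfl, h3⟩
      refine le_trans ?_ (Finset.single_le_sum (f := fun w : ℤ =>
        if (∀ j ≤ n, -(c1:ℤ) ≤ x + X ν j) ∧ x + X ν n = w then
        ENNReal.ofReal (Real.exp (0 * Q ν n)) else 0) (fun _ _ => zero_le) hmem)
      rw [if_pos ⟨h2, rfl⟩, zero_mul, Real.exp_zero, ENNReal.ofReal_one]
      exact hF ν
  refine h1.trans ?_
  rw [PW_sum, R, ENNReal.ofReal_sum_of_nonneg (fun _ _ => kp_nonneg _ _ _)]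
  apply Finset.sum_le_sum
  intro w hw
  rw [Finset.mem_Icc] at hw
  rw [path_kernel 0 n x w c1 hx hw.1]
  exact le_rfl

/-- two blocks -/
theorem two_block (c1 c2 m n : ℕ) (F : (Fin (m + n) → ℕ) → ENNReal) (h : ℤ → ℝ)
    (hh : ∀ x, 0 ≤ h x)
    (hF : ∀ ν ν', F (Fin.append ν ν') ≠ 0 → E0 c1 c2 (Fin.append ν ν') ∧
      F (Fin.append ν ν') ≤ ENNReal.ofReal (Real.exp (Q ν m) * h (X ν m))) :
    PW (m + n) F ≤ ENNReal.ofReal (∑ x ∈ Icc (-(c1:ℤ)) m,
      kpw 1 m (x + c1 + 1).toNat (c1 + 1) * (h x * R c1 c2 n x)) := by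
  rw [PW_append]
  have h1 : PW m (fun ν => PW n (fun ν' => F (Fin.append ν ν'))) ≤
      PW m (fun ν => ∑ x ∈ Icc (-(c1:ℤ)) m, ENNReal.ofReal (h x * R c1 c2 n x) *
        (if (∀ j ≤ m, -(c1:ℤ) ≤ 0 + X ν j) ∧ 0 + X ν m = x then
        ENNReal.ofReal (Real.exp (1 * Q ν m)) else 0)) := by
    apply PW_mono
    intro ν
    by_cases hν : ∀ j ≤ m, -(c1:ℤ) ≤ X ν j
    · have hmem : X ν m ∈ Icc (-(c1:ℤ)) m := by
        rw [Finset.mem_Icc]
        exact ⟨hν m le_rfl, X_le ν m⟩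
      refine le_trans ?_ (Finset.single_le_sum (f := fun x : ℤ =>
        ENNReal.ofReal (h x * R c1 c2 n x) *
        (if (∀ j ≤ m, -(c1:ℤ) ≤ 0 + X ν j) ∧ 0 + X ν m = x then
        ENNReal.ofReal (Real.exp (1 * Q ν m)) else 0)) (fun _ _ => zero_le) hmem)
      rw [if_pos ⟨fun j hj => by rw [zero_add]; exact hν j hj, zero_add _⟩, one_mul]
      classical
      have h2 : PW n (fun ν' => F (Fin.append ν ν')) ≤
          PW n (fun ν' => ENNReal.ofReal (Real.exp (Q ν m) * h (X ν m)) *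
            (if E0 c1 c2 (Fin.append ν ν') then 1 else 0)) := by
        apply PW_mono
        intro ν'
        by_cases h0 : F (Fin.append ν ν') = 0
        · rw [h0]; exact zero_le
        · rw [if_pos (hF ν ν' h0).1, mul_one]
          exact (hF ν ν' h0).2
      have h3 : PW n (fun ν' => (if E0 c1 c2 (Fin.append ν ν') then 1 else 0)) ≤
          ENNReal.ofReal (R c1 c2 n (X ν m)) := by
        apply upper c1 c2 n (X ν m) (hν m le_rfl)
        · intro ν'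
          split_ifs
          · exact le_rfl
          · exact zero_le
        · intro ν' h0
          split_ifs at h0 with h4
          · exact (E0_append h4).2
          · exact absurd rfl h0
      rw [PW_const] at h2
      refine h2.trans ((mul_le_mul_right h3 _).trans (le_of_eq ?_))
      rw [ENNReal.ofReal_mul (Real.exp_pos _).le, ENNReal.ofReal_mul (hh _)]
      ring
    · have : PW n (fun ν' => F (Fin.append ν ν')) = 0 := by
        apply PW_zero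
        intro ν'
        by_contra h0
        exact hν (E0_append (hF ν ν' h0).1).1
      rw [this]
      exact zero_le
  refine h1.trans ?_
  rw [PW_sum, ENNReal.ofReal_sum_of_nonneg
    (fun x _ => mul_nonneg (kpw_nonneg _ _ _ _) (mul_nonneg (hh x) (R_nonneg _ _ _ _)))]
  apply Finset.sum_le_sum
  intro x hx
  rw [Finset.mem_Icc] at hx
  rw [PW_const, path_kernel 1 m 0 x c1 (by omega) hx.1,
    ENNReal.ofReal_mul (kpw_nonneg _ _ _ _), mul_comm]
  have : ((0:ℤ) + c1 + 1).toNat = c1 + 1 := by omega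
  rw [this]

theorem sum_toNat_le (c : ℕ) (M : ℤ) (f : ℕ → ℝ) (hf : ∀ a, 0 ≤ f a) :
    ∑ x ∈ Icc (-(c:ℤ)) M, f (x + c + 1).toNat ≤ ∑ a ∈ range (M + c + 2).toNat, f a := by
  have hinj : Set.InjOn (fun x : ℤ => (x + c + 1).toNat) (Icc (-(c:ℤ)) M : Finset ℤ) := by
    intro x hx y hy hxy
    simp only [Finset.coe_Icc, Set.mem_Icc] at hx hy
    simp only at hxy
    omega
  rw [← Finset.sum_image (f := f) (g := fun x : ℤ => (x + c + 1).toNat) hinj]
  apply Finset.sum_le_sum_of_subset_of_nonneg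
  · intro a ha
    rw [Finset.mem_image] at ha
    obtain ⟨x, hx, rfl⟩ := ha
    rw [Finset.mem_Icc] at hx
    rw [Finset.mem_range]
    omega
  · intro a _ _
    exact hf a

theorem cast_toNat {c : ℕ} {x : ℤ} (hx : -(c:ℤ) ≤ x) : (((x + c + 1).toNat : ℕ) : ℝ) = x + c + 1 := by
  have h : (((x + c + 1).toNat : ℕ) : ℤ) = x + c + 1 := Int.toNat_of_nonneg (by omega)
  have h2 := congrArg (fun z : ℤ => (z : ℝ)) h
  push_cast at h2
  exact h2

/-- the pointwise bound for the upper block -/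
theorem R_le (c1 c2 : ℕ) : ∃ C : ℝ, 0 < C ∧ ∀ (n : ℕ) (x : ℤ), -(c1:ℤ) ≤ x →
    R c1 c2 n x ≤ C * ((x:ℝ) + c1 + 2) ^ 2 / ((n:ℝ) + 1) ^ (3 / 2 : ℝ) := by
  obtain ⟨C, hC, h⟩ := kp_le
  refine ⟨(c1 + c2 + 1) * (C * (c1 + c2 + 2)), by positivity, fun n x hx => ?_⟩
  have hb : ∀ w ∈ Icc (-(c1:ℤ)) c2, kp n (w + c1 + 1).toNat (x + c1 + 1).toNat ≤
      C * (c1 + c2 + 2) * ((x:ℝ) + c1 + 2) ^ 2 / ((n:ℝ) + 1) ^ (3 / 2 : ℝ) := by
    intro w hw
    rw [Finset.mem_Icc] at hw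
    have h1 := h n (w + c1 + 1).toNat (x + c1 + 1).toNat
    rw [cast_toNat hx, cast_toNat hw.1] at h1
    refine h1.trans ?_
    have hw2 : (w:ℝ) ≤ c2 := by exact_mod_cast hw.2
    have e : ((x:ℝ) + c1 + 1 + 1) ^ 2 = ((x:ℝ) + c1 + 2) ^ 2 := by ring
    rw [e]
    have e2 : (w:ℝ) + c1 + 1 + 1 ≤ c1 + c2 + 2 := by linarith
    have e3 : C * ((w:ℝ) + c1 + 1 + 1) ≤ C * (c1 + c2 + 2) := mul_le_mul_of_nonneg_left e2 hC.le
    have e4 : C * ((w:ℝ) + c1 + 1 + 1) * ((x:ℝ) + c1 + 2) ^ 2 ≤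
        C * (c1 + c2 + 2) * ((x:ℝ) + c1 + 2) ^ 2 := mul_le_mul_of_nonneg_right e3 (sq_nonneg _)
    exact div_le_div_of_nonneg_right e4 (by positivity)
  unfold R
  refine (Finset.sum_le_card_nsmul _ _ _ hb).trans (le_of_eq ?_)
  rw [Int.card_Icc, nsmul_eq_mul]
  have : ((((c2:ℤ) + 1 - -(c1:ℤ)).toNat : ℕ) : ℝ) = c1 + c2 + 1 := by
    have h3 : (((c2:ℤ) + 1 - -(c1:ℤ)).toNat) = c1 + c2 + 1 := by omega
    rw [h3]
    push_cast
    ring
  rw [this]
  ring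

/-- the sum over the starting heights of the upper block -/
theorem R_sum (c1 c2 : ℕ) : ∃ C : ℝ, 0 < C ∧ ∀ (n : ℕ) (M : ℤ),
    ∑ x ∈ Icc (-(c1:ℤ)) M, ((x:ℝ) + c1 + 2) * R c1 c2 n x ≤ C := by
  refine ⟨(c1 + c2 + 1) * (2 * (c1 + c2 + 2)), by positivity, fun n M => ?_⟩
  have e1 : ∑ x ∈ Icc (-(c1:ℤ)) M, ((x:ℝ) + c1 + 2) * R c1 c2 n x =
      ∑ w ∈ Icc (-(c1:ℤ)) c2, ∑ x ∈ Icc (-(c1:ℤ)) M,
        ((x:ℝ) + c1 + 2) * kp n (w + c1 + 1).toNat (x + c1 + 1).toNat := by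
    unfold R
    rw [Finset.sum_comm]
    apply Finset.sum_congr rfl
    intro x _
    rw [Finset.mul_sum]
  rw [e1]
  have hb : ∀ w ∈ Icc (-(c1:ℤ)) c2, ∑ x ∈ Icc (-(c1:ℤ)) M,
        ((x:ℝ) + c1 + 2) * kp n (w + c1 + 1).toNat (x + c1 + 1).toNat ≤ 2 * (c1 + c2 + 2) := by
    intro w hw
    rw [Finset.mem_Icc] at hw
    have h1 : ∑ x ∈ Icc (-(c1:ℤ)) M,
        ((x:ℝ) + c1 + 2) * kp n (w + c1 + 1).toNat (x + c1 + 1).toNat ≤
        ∑ x ∈ Icc (-(c1:ℤ)) M, (fun a : ℕ => 2 * ((a:ℝ) * kp n (w + c1 + 1).toNat a))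
          (x + c1 + 1).toNat := by
      apply Finset.sum_le_sum
      intro x hx
      rw [Finset.mem_Icc] at hx
      simp only
      rw [cast_toNat hx.1]
      have hx1 : -(c1:ℝ) ≤ x := by exact_mod_cast hx.1
      have := kp_nonneg n (w + c1 + 1).toNat (x + c1 + 1).toNat
      nlinarith
    refine h1.trans ((sum_toNat_le c1 M (fun a : ℕ => 2 * ((a:ℝ) * kp n (w + c1 + 1).toNat a))
      (fun a => by have := kp_nonneg n (w + c1 + 1).toNat a; positivity)).trans ?_)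
    rw [← Finset.mul_sum]
    have h2 := kp_harmonic n (w + c1 + 1).toNat (M + c1 + 2).toNat
    rw [cast_toNat hw.1] at h2
    have hw2 : (w:ℝ) ≤ c2 := by exact_mod_cast hw.2
    linarith
  refine (Finset.sum_le_card_nsmul _ _ _ hb).trans (le_of_eq ?_)
  rw [Int.card_Icc, nsmul_eq_mul]
  have : ((((c2:ℤ) + 1 - -(c1:ℤ)).toNat : ℕ) : ℝ) = c1 + c2 + 1 := by
    have h3 : (((c2:ℤ) + 1 - -(c1:ℤ)).toNat) = c1 + c2 + 1 := by omega
    rw [h3]
    push_cast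
    ring
  rw [this]

/-- the bound for the lower block -/
theorem low (c1 : ℕ) : ∃ C : ℝ, 0 < C ∧ ∀ (m : ℕ) (x : ℤ), -(c1:ℤ) ≤ x →
    kpw 1 m (x + c1 + 1).toNat (c1 + 1) ≤ C * ((x:ℝ) + c1 + 2) / ((m:ℝ) + 1) ^ (3 / 2 : ℝ) := by
  obtain ⟨C, hC, h⟩ := kpw_le 1
  refine ⟨C * (c1 + 2) ^ 2, by positivity, fun m x hx => ?_⟩
  have h1 := h 1 m (x + c1 + 1).toNat (c1 + 1) zero_le_one le_rfl
  rw [cast_toNat hx] at h1
  refine h1.trans (le_of_eq ?_)
  push_cast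
  ring

theorem single_le_Q {m : ℕ} (ν : Fin (m + 1) → ℕ) : (ν (Fin.last m) : ℝ) ≤ Q ν (m + 1) := by
  unfold Q
  refine le_trans ?_ (Finset.single_le_sum (f := fun i : Fin (m + 1) =>
    if (i : ℕ) < m + 1 then (ν i : ℝ) * 2 ^ ((i : ℕ) + 1) / 2 ^ (m + 1) else 0)
    (fun i _ => ?_) (Finset.mem_univ (Fin.last m)))
  · simp
  · split_ifs
    · positivity
    · exact le_rfl

theorem add_one_le_two_mul_exp {a q : ℝ} (h : a ≤ q) : a + 1 ≤ Real.exp q :=
  (add_le_add_left h 1).trans (Real.add_one_le_exp q)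

/-- powers of two dominate -/
theorem geo_sum (c1 : ℕ) : ∃ C : ℝ, 0 < C ∧ ∀ M : ℤ,
    ∑ x ∈ Icc (-(c1:ℤ)) M, ((x:ℝ) + c1 + 2) ^ 3 * (2:ℝ) ^ (-x) ≤ C := by
  have hs : Summable fun a : ℕ => ((a:ℝ) + 1) ^ 3 * ((1:ℝ) / 2) ^ a := by
    have h1 : Summable fun a : ℕ => (a:ℝ) ^ 3 * ((1:ℝ) / 2) ^ a :=
      summable_pow_mul_geometric_of_norm_lt_one 3 (by norm_num)
    have h2 := (summable_nat_add_iff 1).2 h1
    have h3 := h2.mul_left 2
    refine h3.congr fun a => ?_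
    push_cast
    ring
  have h0 : ∀ a : ℕ, 0 ≤ ((a:ℝ) + 1) ^ 3 * ((1:ℝ) / 2) ^ a := fun a => by positivity
  refine ⟨2 ^ (c1 + 1) * (∑' a : ℕ, ((a:ℝ) + 1) ^ 3 * ((1:ℝ) / 2) ^ a) + 1, ?_, fun M => ?_⟩
  · have h1 : 0 ≤ ∑' a : ℕ, ((a:ℝ) + 1) ^ 3 * ((1:ℝ) / 2) ^ a := tsum_nonneg h0
    positivity
  · have h1 : ∑ x ∈ Icc (-(c1:ℤ)) M, ((x:ℝ) + c1 + 2) ^ 3 * (2:ℝ) ^ (-x) =
        ∑ x ∈ Icc (-(c1:ℤ)) M, (fun a : ℕ => 2 ^ (c1 + 1) * (((a:ℝ) + 1) ^ 3 * ((1:ℝ) / 2) ^ a))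
          (x + c1 + 1).toNat := by
      apply Finset.sum_congr rfl
      intro x hx
      rw [Finset.mem_Icc] at hx
      simp only
      rw [cast_toNat hx.1]
      have h2 : (2:ℝ) ^ (-x) = 2 ^ (c1 + 1) * ((1:ℝ) / 2) ^ (x + c1 + 1).toNat := by
        have e1 : ((1:ℝ) / 2) ^ (x + c1 + 1).toNat = (2:ℝ) ^ (-(x + c1 + 1)) := by
          rw [one_div, inv_pow, zpow_neg, ← zpow_natCast (2:ℝ) (x + c1 + 1).toNat,
            Int.toNat_of_nonneg (by omega)]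
        rw [e1, ← zpow_natCast (2:ℝ) (c1 + 1), ← zpow_add₀ (by norm_num : (2:ℝ) ≠ 0)]
        congr 1
        push_cast
        ring
      rw [h2]
      ring
    rw [h1]
    refine (sum_toNat_le c1 M (fun a : ℕ => 2 ^ (c1 + 1) * (((a:ℝ) + 1) ^ 3 * ((1:ℝ) / 2) ^ a))
      (fun a => mul_nonneg (by positivity) (h0 a))).trans ?_
    rw [← Finset.mul_sum]
    have h3 := hs.sum_le_tsum (range (M + c1 + 2).toNat) (fun a _ => h0 a)
    have h4 : (2:ℝ) ^ (c1 + 1) * ∑ a ∈ range (M + c1 + 2).toNat,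
        ((a:ℝ) + 1) ^ 3 * ((1:ℝ) / 2) ^ a ≤
        2 ^ (c1 + 1) * (∑' a : ℕ, ((a:ℝ) + 1) ^ 3 * ((1:ℝ) / 2) ^ a) :=
      mul_le_mul_of_nonneg_left h3 (by positivity)
    linarith

theorem rpow_half {L m : ℝ} (hm : 0 ≤ m) (hL : 0 ≤ L) (h : L + 1 ≤ 2 * (m + 1)) :
    1 / (m + 1) ^ (3 / 2 : ℝ) ≤ 4 / (L + 1) ^ (3 / 2 : ℝ) := by
  have h1 : (L + 1) ^ (3 / 2 : ℝ) ≤ (2 * (m + 1)) ^ (3 / 2 : ℝ) :=
    Real.rpow_le_rpow (by positivity) h (by norm_num)
  rw [Real.mul_rpow (by norm_num) (by positivity)] at h1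
  have h2 : (2:ℝ) ^ (3 / 2 : ℝ) ≤ 4 := by
    have : (2:ℝ) ^ (3 / 2 : ℝ) ≤ (2:ℝ) ^ (2 : ℝ) :=
      Real.rpow_le_rpow_of_exponent_le (by norm_num) (by norm_num)
    refine this.trans (le_of_eq ?_)
    norm_num
  rw [div_le_div_iff₀ (by positivity) (by positivity)]
  have h3 : (0:ℝ) < (m + 1) ^ (3 / 2 : ℝ) := by positivity
  nlinarith

/-- the law of the number of primes in a block -/
theorem pois_one (i : ℕ) (F : (Fin 1 → ℕ) → ENNReal) (hF : ∀ ν, F ν = if ν 0 = i then 1 else 0) :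
    PW 1 F = ENNReal.ofReal (pw i) := by
  have h := PW_prod 1 (fun (_ : Fin 1) (q : ℕ) => if q = i then (1 : ENNReal) else 0)
  have e : (fun ν : Fin 1 → ℕ => ∏ j : Fin 1, (if ν j = i then (1 : ENNReal) else 0)) = F := by
    funext ν
    rw [hF ν]
    simp
  rw [e] at h
  rw [h]
  simp only [Finset.univ_unique, Finset.prod_const, Finset.card_singleton, pow_one]
  rw [tsum_eq_single i]
  · simp
  · intro j hj
    simp [hj]

theorem pois (s : ℕ) : ∀ k : ℕ, PW s (fun ν => if cnt ν s = k then 1 else 0) =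
    ENNReal.ofReal (Real.exp (-(s:ℝ)) * (s:ℝ) ^ k / (k.factorial : ℝ)) := by
  induction s with
  | zero =>
    intro k
    have h1 : PW 0 (fun _ => 1) = 1 := PW_one 0
    rcases Nat.eq_zero_or_pos k with hk | hk
    · subst hk
      have : (fun ν : Fin 0 → ℕ => if cnt ν 0 = 0 then (1:ENNReal) else 0) = fun _ => 1 := by
        funext ν
        simp [cnt]
      rw [this, h1]
      simp
    · rw [PW_zero]
      · have : ((0:ℕ):ℝ) ^ k = 0 := by
          rw [Nat.cast_zero]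
          exact zero_pow hk.ne'
        rw [this]
        simp
      · intro ν
        have : cnt ν 0 = 0 := by simp [cnt]
        rw [this, if_neg hk.ne]
  | succ s ih =>
    intro k
    rw [PW_append]
    have h1 : ∀ ν : Fin s → ℕ, PW 1 (fun ν' => if cnt (Fin.append ν ν') (s + 1) = k then
        (1:ENNReal) else 0) = ∑ j ∈ range (k + 1), ENNReal.ofReal (pw (k - j)) *
          (if cnt ν s = j then 1 else 0) := by
      intro ν
      have h2 : ∀ ν' : Fin 1 → ℕ, cnt (Fin.append ν ν') (s + 1) = cnt ν s + ν' 0 := by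
        intro ν'
        rw [cnt_append_right]
        simp [cnt]
      by_cases hj : cnt ν s ≤ k
      · rw [Finset.sum_eq_single (cnt ν s)]
        · rw [if_pos rfl, mul_one]
          apply pois_one
          intro ν'
          rw [h2 ν']
          by_cases h3 : ν' 0 = k - cnt ν s
          · rw [if_pos h3, if_pos (by omega)]
          · rw [if_neg h3, if_neg (by omega)]
        · intro j _ hj'
          rw [if_neg (fun h => hj' h.symm), mul_zero]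
        · intro h3
          exact absurd (Finset.mem_range.2 (by omega)) h3
      · rw [PW_zero, Finset.sum_eq_zero]
        · intro j hj'
          rw [Finset.mem_range] at hj'
          rw [if_neg (by omega), mul_zero]
        · intro ν'
          rw [h2 ν', if_neg (by omega)]
    simp only [h1]
    rw [PW_sum]
    simp only [PW_const, ih]
    have h5 : ∀ j ∈ range (k + 1), ENNReal.ofReal (pw (k - j)) *
        ENNReal.ofReal (Real.exp (-(s:ℝ)) * (s:ℝ) ^ j / (j.factorial : ℝ)) =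
        ENNReal.ofReal (pw (k - j) * (Real.exp (-(s:ℝ)) * (s:ℝ) ^ j / (j.factorial : ℝ))) :=
      fun j _ => (ENNReal.ofReal_mul (pw_nonneg _)).symm
    rw [Finset.sum_congr rfl h5, ← ENNReal.ofReal_sum_of_nonneg
      (fun j _ => mul_nonneg (pw_nonneg _) (by positivity))]
    congr 1
    have h6 : ((s:ℝ) + 1) ^ k = ∑ j ∈ range (k + 1), (s:ℝ) ^ j * 1 ^ (k - j) * (k.choose j : ℝ) :=
      add_pow _ _ _
    push_cast
    rw [h6, neg_add, Real.exp_add, mul_div_assoc, Finset.sum_div, Finset.mul_sum]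
    apply Finset.sum_congr rfl
    intro j hj
    rw [Finset.mem_range] at hj
    have h7 : (k.choose j : ℝ) * ((j.factorial : ℝ) * ((k - j).factorial : ℝ)) = k.factorial := by
      have := Nat.choose_mul_factorial_mul_factorial (show j ≤ k by omega)
      rw [← this]
      push_cast
      ring
    have h8 : (j.factorial : ℝ) ≠ 0 := by positivity
    have h9 : ((k - j).factorial : ℝ) ≠ 0 := by positivity
    have h10 : (k.factorial : ℝ) ≠ 0 := by positivity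
    unfold pw
    rw [one_pow, mul_one]
    field_simp
    rw [← h7]
    ring

/-- three blocks -/
theorem three_block (c1 c2 a s n κ : ℕ) (hκ : κ ≤ s) (F : (Fin (a + (s + n)) → ℕ) → ENNReal)
    (hF1 : ∀ ν, F ν ≤ 1)
    (hF : ∀ ν, F ν ≠ 0 → E0 c1 c2 ν ∧ cnt ν (a + s) - cnt ν a < κ) :
    PW (a + (s + n)) F ≤ ENNReal.ofReal (∑ x ∈ Icc (-(c1:ℤ)) a,
      kpw 1 a (x + c1 + 1).toNat (c1 + 1) * ∑ k ∈ range κ,
        Real.exp (-(s:ℝ)) * (s:ℝ) ^ k / (k.factorial : ℝ) * R c1 c2 n (x + s - k)) := by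
  have hkn : ∀ k : ℕ, 0 ≤ Real.exp (-(s:ℝ)) * (s:ℝ) ^ k / (k.factorial : ℝ) := fun k => by
    positivity
  rw [PW_append]
  have h1 : PW a (fun ν => PW (s + n) (fun ν' => F (Fin.append ν ν'))) ≤
      PW a (fun ν => ∑ x ∈ Icc (-(c1:ℤ)) a, ENNReal.ofReal (∑ k ∈ range κ,
        Real.exp (-(s:ℝ)) * (s:ℝ) ^ k / (k.factorial : ℝ) * R c1 c2 n (x + s - k)) *
        (if (∀ j ≤ a, -(c1:ℤ) ≤ 0 + X ν j) ∧ 0 + X ν a = x then
        ENNReal.ofReal (Real.exp (1 * Q ν a)) else 0)) := by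
    apply PW_mono
    intro ν
    by_cases hν : ∀ j ≤ a, -(c1:ℤ) ≤ X ν j
    · have hmem : X ν a ∈ Icc (-(c1:ℤ)) a := by
        rw [Finset.mem_Icc]
        exact ⟨hν a le_rfl, X_le ν a⟩
      refine le_trans ?_ (Finset.single_le_sum (f := fun x : ℤ =>
        ENNReal.ofReal (∑ k ∈ range κ,
        Real.exp (-(s:ℝ)) * (s:ℝ) ^ k / (k.factorial : ℝ) * R c1 c2 n (x + s - k)) *
        (if (∀ j ≤ a, -(c1:ℤ) ≤ 0 + X ν j) ∧ 0 + X ν a = x then
        ENNReal.ofReal (Real.exp (1 * Q ν a)) else 0)) (fun _ _ => zero_le) hmem)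
      rw [if_pos ⟨fun j hj => by rw [zero_add]; exact hν j hj, zero_add _⟩, one_mul]
      have hQ : 1 ≤ ENNReal.ofReal (Real.exp (Q ν a)) := by
        rw [← ENNReal.ofReal_one]
        apply ENNReal.ofReal_le_ofReal
        apply Real.one_le_exp
        unfold Q
        apply Finset.sum_nonneg
        intro i _
        split_ifs
        · positivity
        · exact le_rfl
      refine le_trans ?_ (le_mul_of_one_le_right' hQ)
      rw [PW_append]
      have h2 : PW s (fun ν₂ => PW n (fun ν₃ => F (Fin.append ν (Fin.append ν₂ ν₃)))) ≤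
          PW s (fun ν₂ => ∑ k ∈ range κ, ENNReal.ofReal (R c1 c2 n (X ν a + s - k)) *
            (if cnt ν₂ s = k then 1 else 0)) := by
        apply PW_mono
        intro ν₂
        have hin : ∀ ν₃, F (Fin.append ν (Fin.append ν₂ ν₃)) ≠ 0 → cnt ν₂ s < κ ∧
            (∀ j ≤ n, -(c1:ℤ) ≤ (X ν a + s - cnt ν₂ s) + X ν₃ j) ∧
            (X ν a + s - cnt ν₂ s) + X ν₃ n ≤ c2 := by
          intro ν₃ h0
          obtain ⟨h3, h4⟩ := hF _ h0
          have h5 := (E0_append h3).2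
          have e1 : cnt (Fin.append ν (Fin.append ν₂ ν₃)) (a + s) = cnt ν a + cnt ν₂ s := by
            rw [cnt_append_right, cnt_append_left ν₂ ν₃ le_rfl]
          have e2 : cnt (Fin.append ν (Fin.append ν₂ ν₃)) a = cnt ν a :=
            cnt_append_left _ _ le_rfl
          rw [e1, e2] at h4
          have e3 : X ν₂ s = s - cnt ν₂ s := rfl
          refine ⟨by omega, fun j hj => ?_, ?_⟩
          · have h6 := h5.1 (s + j) (by omega)
            rw [X_append_right, e3] at h6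
            omega
          · have h6 := h5.2
            rw [X_append_right, e3] at h6
            omega
        by_cases hk : cnt ν₂ s < κ
        · refine le_trans ?_ (Finset.single_le_sum (f := fun k : ℕ =>
            ENNReal.ofReal (R c1 c2 n (X ν a + s - k)) *
            (if cnt ν₂ s = k then 1 else 0)) (fun _ _ => zero_le) (Finset.mem_range.2 hk))
          rw [if_pos rfl, mul_one]
          apply upper c1 c2 n
          · have := hν a le_rfl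
            omega
          · intro ν₃
            exact hF1 _
          · intro ν₃ h0
            exact (hin ν₃ h0).2
        · rw [PW_zero]
          · exact zero_le
          · intro ν₃
            by_contra h0
            exact hk (hin ν₃ h0).1
      refine h2.trans ?_
      rw [PW_sum, ENNReal.ofReal_sum_of_nonneg
        (fun k _ => mul_nonneg (hkn k) (R_nonneg _ _ _ _))]
      apply Finset.sum_le_sum
      intro k _
      rw [PW_const, pois, ENNReal.ofReal_mul (hkn k), mul_comm]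
    · have : PW (s + n) (fun ν' => F (Fin.append ν ν')) = 0 := by
        apply PW_zero
        intro ν'
        by_contra h0
        exact hν (E0_append (hF _ h0).1).1
      rw [this]
      exact zero_le
  refine h1.trans ?_
  have hin : ∀ x : ℤ, 0 ≤ ∑ k ∈ range κ,
        Real.exp (-(s:ℝ)) * (s:ℝ) ^ k / (k.factorial : ℝ) * R c1 c2 n (x + s - k) :=
    fun x => Finset.sum_nonneg fun k _ => mul_nonneg (hkn k) (R_nonneg _ _ _ _)
  rw [PW_sum, ENNReal.ofReal_sum_of_nonneg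
    (fun x _ => mul_nonneg (kpw_nonneg _ _ _ _) (hin x))]
  apply Finset.sum_le_sum
  intro x hx
  rw [Finset.mem_Icc] at hx
  rw [PW_const, path_kernel 1 a 0 x c1 (by omega) hx.1,
    ENNReal.ofReal_mul (kpw_nonneg _ _ _ _), mul_comm]
  have : ((0:ℤ) + c1 + 1).toNat = c1 + 1 := by omega
  rw [this]

/-- the sum of the linear lower bound against the upper kernel -/
theorem sum_lin (c1 c2 : ℕ) : ∃ C : ℝ, 0 < C ∧ ∀ (m n L : ℕ), L ≤ 2 * m + 1 →
    ∑ x ∈ Icc (-(c1:ℤ)) m, kpw 1 m (x + c1 + 1).toNat (c1 + 1) * (1 * R c1 c2 n x) ≤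
      C / ((L:ℝ) + 1) ^ (3 / 2 : ℝ) := by
  obtain ⟨C1, hC1, h1⟩ := low c1
  obtain ⟨C2, hC2, h2⟩ := R_sum c1 c2
  refine ⟨4 * C1 * C2, by positivity, fun m n L hL => ?_⟩
  have hb : ∀ x ∈ Icc (-(c1:ℤ)) (m : ℤ),
      kpw 1 m (x + c1 + 1).toNat (c1 + 1) * (1 * R c1 c2 n x) ≤
      C1 / ((m:ℝ) + 1) ^ (3 / 2 : ℝ) * (((x:ℝ) + c1 + 2) * R c1 c2 n x) := by
    intro x hx
    rw [Finset.mem_Icc] at hx
    have h4 := h1 m x hx.1
    rw [one_mul]
    refine (mul_le_mul_of_nonneg_right h4 (R_nonneg _ _ _ _)).trans (le_of_eq ?_)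
    ring
  refine (Finset.sum_le_sum hb).trans ?_
  rw [← Finset.mul_sum]
  refine (mul_le_mul_of_nonneg_left (h2 n m) (by positivity)).trans ?_
  have hL' : (L:ℝ) ≤ 2 * m + 1 := by exact_mod_cast hL
  have h5 := rpow_half (L := (L:ℝ)) (m := (m:ℝ)) (by positivity) (by positivity) (by linarith)
  have e1 : C1 / ((m:ℝ) + 1) ^ (3 / 2 : ℝ) * C2 = C1 * C2 * (1 / ((m:ℝ) + 1) ^ (3 / 2 : ℝ)) := by
    ring
  have e2 : 4 * C1 * C2 / ((L:ℝ) + 1) ^ (3 / 2 : ℝ) =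
      C1 * C2 * (4 / ((L:ℝ) + 1) ^ (3 / 2 : ℝ)) := by ring
  rw [e1, e2]
  exact mul_le_mul_of_nonneg_left h5 (by positivity)

end Good

open Good

open Classical in
theorem good_all (c1 c2 : ℕ) : ∃ C : ℝ, 0 < C ∧ ∀ L : ℕ,
    PW L (fun ν => if E0 c1 c2 ν then 1 else 0) ≤
      ENNReal.ofReal (C / ((L : ℝ) + 1) ^ (3 / 2 : ℝ)) := by
  obtain ⟨C, hC, h⟩ := R_le c1 c2
  refine ⟨C * (c1 + 2) ^ 2, by positivity, fun L => ?_⟩
  have h1 : PW L (fun ν => if E0 c1 c2 ν then 1 else 0) ≤ ENNReal.ofReal (R c1 c2 L 0) := by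
    apply upper c1 c2 L 0 (by omega)
    · intro ν
      split_ifs
      · exact le_rfl
      · exact zero_le
    · intro ν h0
      split_ifs at h0 with h2
      · refine ⟨fun j hj => ?_, ?_⟩
        · rw [zero_add]
          exact h2.1 j hj
        · rw [zero_add]
          exact h2.2
      · exact absurd rfl h0
  refine h1.trans (ENNReal.ofReal_le_ofReal ?_)
  refine (h L 0 (by omega)).trans (le_of_eq ?_)
  push_cast
  ring

open Classical in
/-- the path is high in the middle, on average -/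
theorem good_high (c1 c2 : ℕ) : ∃ C : ℝ, 0 < C ∧ ∀ (L : ℕ) (l : Fin L),
    PW L (fun ν => if E0 c1 c2 ν then
      ENNReal.ofReal ((ν l + 1 : ℝ) * (2 : ℝ) ^ (-X ν (l + 1))) else 0) ≤
      ENNReal.ofReal (C / (((l : ℕ) + 1 : ℝ) ^ (3 / 2 : ℝ) * ((L : ℝ) - l) ^ (3 / 2 : ℝ))) := by
  obtain ⟨C1, hC1, h1⟩ := low c1
  obtain ⟨C2, hC2, h2⟩ := R_le c1 c2
  obtain ⟨C3, hC3, h3⟩ := geo_sum c1
  refine ⟨C1 * C2 * C3, by positivity, ?_⟩
  rintro L ⟨m, hm⟩
  obtain ⟨n, rfl⟩ : ∃ n, L = m + 1 + n := ⟨L - (m + 1), by omega⟩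
  refine (two_block c1 c2 (m + 1) n _ (fun x => (2:ℝ) ^ (-x)) (fun x => by positivity) ?_).trans
    (ENNReal.ofReal_le_ofReal ?_)
  · intro ν ν' h0
    split_ifs at h0 ⊢ with h4
    · refine ⟨h4, ENNReal.ofReal_le_ofReal ?_⟩
      have e1 : Fin.append ν ν' ⟨m, hm⟩ = ν (Fin.last m) := by
        have := Fin.append_left ν ν' (Fin.last m)
        rw [← this]
        rfl
      rw [X_append_left ν ν' (le_refl (m + 1)), e1]
      apply mul_le_mul_of_nonneg_right _ (by positivity)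
      exact add_one_le_two_mul_exp (single_le_Q ν)
    · exact absurd rfl h0
  · have hb : ∀ x ∈ Icc (-(c1:ℤ)) ((m + 1 : ℕ) : ℤ),
        kpw 1 (m + 1) (x + c1 + 1).toNat (c1 + 1) * ((2:ℝ) ^ (-x) * R c1 c2 n x) ≤
        C1 * C2 / (((m:ℝ) + 1) ^ (3 / 2 : ℝ) * ((n:ℝ) + 1) ^ (3 / 2 : ℝ)) *
          (((x:ℝ) + c1 + 2) ^ 3 * (2:ℝ) ^ (-x)) := by
      intro x hx
      rw [Finset.mem_Icc] at hx
      have h4 := h1 (m + 1) x hx.1
      have h5 := h2 n x hx.1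
      have hx1 : -(c1:ℝ) ≤ x := by exact_mod_cast hx.1
      have h6 : C1 * ((x:ℝ) + c1 + 2) / (((m + 1 : ℕ):ℝ) + 1) ^ (3 / 2 : ℝ) ≤
          C1 * ((x:ℝ) + c1 + 2) / ((m:ℝ) + 1) ^ (3 / 2 : ℝ) := by
        apply div_le_div_of_nonneg_left (by nlinarith) (by positivity)
        apply Real.rpow_le_rpow (by positivity) _ (by norm_num)
        push_cast
        linarith
      have h7 : kpw 1 (m + 1) (x + c1 + 1).toNat (c1 + 1) * ((2:ℝ) ^ (-x) * R c1 c2 n x) ≤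
          C1 * ((x:ℝ) + c1 + 2) / ((m:ℝ) + 1) ^ (3 / 2 : ℝ) *
          ((2:ℝ) ^ (-x) * (C2 * ((x:ℝ) + c1 + 2) ^ 2 / ((n:ℝ) + 1) ^ (3 / 2 : ℝ))) := by
        apply mul_le_mul (h4.trans h6) (mul_le_mul_of_nonneg_left h5 (by positivity))
          (mul_nonneg (by positivity) (R_nonneg _ _ _ _))
        apply div_nonneg (by nlinarith) (by positivity)
      refine h7.trans (le_of_eq ?_)
      have p1 : (0:ℝ) < ((m:ℝ) + 1) ^ (3 / 2 : ℝ) := by positivity
      have p2 : (0:ℝ) < ((n:ℝ) + 1) ^ (3 / 2 : ℝ) := by positivity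
      field_simp
    refine (Finset.sum_le_sum hb).trans ?_
    rw [← Finset.mul_sum]
    have h8 := h3 ((m + 1 : ℕ) : ℤ)
    have p1 : (0:ℝ) < ((m:ℝ) + 1) ^ (3 / 2 : ℝ) := by positivity
    have p2 : (0:ℝ) < ((n:ℝ) + 1) ^ (3 / 2 : ℝ) := by positivity
    refine (mul_le_mul_of_nonneg_left h8 (by positivity)).trans (le_of_eq ?_)
    have e : (((m + 1 + n : ℕ) : ℝ) - (m:ℝ)) = (n:ℝ) + 1 := by
      push_cast
      ring
    simp only
    rw [e]
    ring


open Classical in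
/-- powers of the number of primes of one level -/
theorem good_moment (c1 c2 : ℕ) : ∃ C : ℝ, 0 < C ∧ ∀ (L : ℕ) (l : Fin L),
    PW L (fun ν => if E0 c1 c2 ν then
      ENNReal.ofReal (Real.exp (ν l)) else 0) ≤
      ENNReal.ofReal (C * ((l : ℕ) + 1 : ℝ) ^ (3 : ℝ) / ((L : ℝ) + 1) ^ (3 / 2 : ℝ)) := by
  obtain ⟨C0, hC0, h0⟩ := sum_lin c1 c2
  obtain ⟨C1, hC1, h1⟩ := low c1
  obtain ⟨C2, hC2, h2⟩ := R_le c1 c2
  refine ⟨C0 + 4 * C1 * C2 * (c1 + 3) ^ 4, by positivity, ?_⟩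
  rintro L ⟨m, hm⟩
  obtain ⟨n, rfl⟩ : ∃ n, L = m + 1 + n := ⟨L - (m + 1), by omega⟩
  refine (two_block c1 c2 (m + 1) n _ (fun _ => 1) (fun _ => zero_le_one) ?_).trans
    (ENNReal.ofReal_le_ofReal ?_)
  · intro ν ν' h3
    split_ifs at h3 ⊢ with h4
    · refine ⟨h4, ENNReal.ofReal_le_ofReal ?_⟩
      have e1 : Fin.append ν ν' ⟨m, hm⟩ = ν (Fin.last m) := by
        have := Fin.append_left ν ν' (Fin.last m)
        rw [← this]
        rfl
      rw [e1, mul_one]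
      exact Real.exp_le_exp.2 (single_le_Q ν)
    · exact absurd rfl h3
  · have hm3 : (1:ℝ) ≤ ((m:ℝ) + 1) ^ 3 := one_le_pow₀ (by linarith [(Nat.cast_nonneg m : (0:ℝ) ≤ m)])
    have hr : ((m:ℝ) + 1) ^ (3:ℝ) = ((m:ℝ) + 1) ^ 3 := by
      exact_mod_cast Real.rpow_natCast ((m:ℝ) + 1) 3
    simp only
    rw [hr]
    rcases le_or_gt (m + 1 + n) (2 * (m + 1) + 1) with hcase | hcase
    · refine (h0 (m + 1) n (m + 1 + n) hcase).trans ?_
      apply div_le_div_of_nonneg_right _ (by positivity)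
      have h5 : 0 ≤ 4 * C1 * C2 * ((c1:ℝ) + 3) ^ 4 := by positivity
      nlinarith
    · have hb : ∀ x ∈ Icc (-(c1:ℤ)) ((m + 1 : ℕ) : ℤ),
          kpw 1 (m + 1) (x + c1 + 1).toNat (c1 + 1) * (1 * R c1 c2 n x) ≤
          4 * C1 * C2 * ((m:ℝ) + c1 + 3) ^ 3 / (((m:ℝ) + 1) *
            (((m + 1 + n : ℕ):ℝ) + 1) ^ (3 / 2 : ℝ)) := by
        intro x hx
        rw [Finset.mem_Icc] at hx
        have h4 := h1 (m + 1) x hx.1
        have h5 := h2 n x hx.1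
        have hx1 : -(c1:ℝ) ≤ x := by exact_mod_cast hx.1
        have hx2 : (x:ℝ) ≤ m + 1 := by exact_mod_cast hx.2
        have hx3 : (0:ℝ) < (x:ℝ) + c1 + 2 := by linarith
        have h6 : C1 * ((x:ℝ) + c1 + 2) / (((m + 1 : ℕ):ℝ) + 1) ^ (3 / 2 : ℝ) ≤
            C1 * ((m:ℝ) + c1 + 3) / ((m:ℝ) + 1) := by
          apply div_le_div₀ (by positivity) _ (by positivity)
          · have e1 : ((m:ℝ) + 1) ≤ ((m + 1 : ℕ):ℝ) + 1 := by push_cast; linarith
            have e2 : ((m + 1 : ℕ):ℝ) + 1 ≤ (((m + 1 : ℕ):ℝ) + 1) ^ (3 / 2 : ℝ) := by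
              have e3 : (1:ℝ) ≤ ((m + 1 : ℕ):ℝ) + 1 := by
                have : (0:ℝ) ≤ ((m + 1 : ℕ):ℝ) := Nat.cast_nonneg _
                linarith
              have e4 := Real.rpow_le_rpow_of_exponent_le e3 (by norm_num : (1:ℝ) ≤ 3 / 2)
              rwa [Real.rpow_one] at e4
            exact e1.trans e2
          · apply mul_le_mul_of_nonneg_left _ hC1.le
            linarith
        have h7 : R c1 c2 n x ≤ C2 * ((m:ℝ) + c1 + 3) ^ 2 *
            (4 / (((m + 1 + n : ℕ):ℝ) + 1) ^ (3 / 2 : ℝ)) := by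
          refine h5.trans ?_
          have e1 : ((x:ℝ) + c1 + 2) ^ 2 ≤ ((m:ℝ) + c1 + 3) ^ 2 :=
            pow_le_pow_left₀ hx3.le (by linarith) 2
          have e2 := rpow_half (L := ((m + 1 + n : ℕ):ℝ)) (m := (n:ℝ)) (by positivity)
            (by positivity) (by
              have : ((2 * (m + 1) + 1 : ℕ) : ℝ) < ((m + 1 + n : ℕ) : ℝ) := by exact_mod_cast hcase
              push_cast at this ⊢
              linarith)
          calc C2 * ((x:ℝ) + c1 + 2) ^ 2 / ((n:ℝ) + 1) ^ (3 / 2 : ℝ)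
              = C2 * ((x:ℝ) + c1 + 2) ^ 2 * (1 / ((n:ℝ) + 1) ^ (3 / 2 : ℝ)) := by ring
            _ ≤ C2 * ((m:ℝ) + c1 + 3) ^ 2 * (4 / (((m + 1 + n : ℕ):ℝ) + 1) ^ (3 / 2 : ℝ)) :=
              mul_le_mul (mul_le_mul_of_nonneg_left e1 hC2.le) e2 (by positivity) (by positivity)
        rw [one_mul]
        refine (mul_le_mul (h4.trans h6) h7 (R_nonneg _ _ _ _) (by positivity)).trans
          (le_of_eq ?_)
        field_simp
      refine (Finset.sum_le_card_nsmul _ _ _ hb).trans ?_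
      rw [Int.card_Icc, nsmul_eq_mul]
      have e1 : (((((m + 1 : ℕ) : ℤ) + 1 - -(c1:ℤ)).toNat : ℕ) : ℝ) = m + c1 + 2 := by
        have h3 : ((((m + 1 : ℕ) : ℤ) + 1 - -(c1:ℤ)).toNat) = m + c1 + 2 := by omega
        rw [h3]
        push_cast
        ring
      rw [e1]
      have hm0 : (0:ℝ) ≤ m := Nat.cast_nonneg m
      have hc0 : (0:ℝ) ≤ c1 := Nat.cast_nonneg c1
      have e2 : (m:ℝ) + c1 + 3 ≤ (c1 + 3) * (m + 1) := by nlinarith
      have e3 : ((m:ℝ) + c1 + 3) ^ 4 ≤ ((c1 + 3) * (m + 1)) ^ 4 :=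
        pow_le_pow_left₀ (by positivity) e2 4
      have hD : (0:ℝ) < (((m + 1 + n : ℕ):ℝ) + 1) ^ (3 / 2 : ℝ) := by positivity
      calc ((m:ℝ) + c1 + 2) * (4 * C1 * C2 * ((m:ℝ) + c1 + 3) ^ 3 / (((m:ℝ) + 1) *
            (((m + 1 + n : ℕ):ℝ) + 1) ^ (3 / 2 : ℝ)))
          ≤ ((m:ℝ) + c1 + 3) * (4 * C1 * C2 * ((m:ℝ) + c1 + 3) ^ 3 / (((m:ℝ) + 1) *
            (((m + 1 + n : ℕ):ℝ) + 1) ^ (3 / 2 : ℝ))) := by
            apply mul_le_mul_of_nonneg_right (by linarith) (by positivity)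
        _ = 4 * C1 * C2 * ((m:ℝ) + c1 + 3) ^ 4 / (((m:ℝ) + 1) *
            (((m + 1 + n : ℕ):ℝ) + 1) ^ (3 / 2 : ℝ)) := by ring
        _ ≤ 4 * C1 * C2 * ((c1 + 3) * (m + 1)) ^ 4 / (((m:ℝ) + 1) *
            (((m + 1 + n : ℕ):ℝ) + 1) ^ (3 / 2 : ℝ)) := by
            apply div_le_div_of_nonneg_right _ (by positivity)
            exact mul_le_mul_of_nonneg_left e3 (by positivity)
        _ = 4 * C1 * C2 * (c1 + 3) ^ 4 * ((m:ℝ) + 1) ^ 3 /
            (((m + 1 + n : ℕ):ℝ) + 1) ^ (3 / 2 : ℝ) := by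
            field_simp
        _ ≤ (C0 + 4 * C1 * C2 * (c1 + 3) ^ 4) * ((m:ℝ) + 1) ^ 3 /
            (((m + 1 + n : ℕ):ℝ) + 1) ^ (3 / 2 : ℝ) := by
            apply div_le_div_of_nonneg_right _ hD.le
            apply mul_le_mul_of_nonneg_right _ (by positivity)
            linarith

open Classical in
/-- few primes in a block of levels from a to a + s above the middle -/
theorem good_block (c1 c2 : ℕ) : ∃ C : ℝ, 0 < C ∧ ∀ (L a s κ : ℕ), L ≤ 2 * a → a + s ≤ L → κ ≤ s →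
    PW L (fun ν => if E0 c1 c2 ν ∧ cnt ν (a + s) - cnt ν a < κ then 1 else 0) ≤
      ENNReal.ofReal (C / ((L : ℝ) + 1) ^ (3 / 2 : ℝ) *
        ∑ k ∈ range κ, Real.exp (-(s : ℝ)) * (s : ℝ) ^ k / (k.factorial : ℝ)) := by
  obtain ⟨C1, hC1, h1⟩ := low c1
  obtain ⟨C2, hC2, h2⟩ := R_sum c1 c2
  refine ⟨4 * C1 * C2, by positivity, fun L a s κ hL has hκ => ?_⟩
  obtain ⟨n, rfl⟩ : ∃ n, L = a + (s + n) := ⟨L - (a + s), by omega⟩
  refine (three_block c1 c2 a s n κ hκ _ ?_ ?_).trans (ENNReal.ofReal_le_ofReal ?_)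
  · intro ν
    split_ifs
    · exact le_rfl
    · exact zero_le
  · intro ν h0
    split_ifs at h0 with h3
    · exact h3
    · exact absurd rfl h0
  · have hkn : ∀ k : ℕ, 0 ≤ Real.exp (-(s:ℝ)) * (s:ℝ) ^ k / (k.factorial : ℝ) := fun k => by
      positivity
    have e1 : ∑ x ∈ Icc (-(c1:ℤ)) a,
        kpw 1 a (x + c1 + 1).toNat (c1 + 1) * ∑ k ∈ range κ,
        Real.exp (-(s:ℝ)) * (s:ℝ) ^ k / (k.factorial : ℝ) * R c1 c2 n (x + s - k) =
        ∑ k ∈ range κ, Real.exp (-(s:ℝ)) * (s:ℝ) ^ k / (k.factorial : ℝ) *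
        ∑ x ∈ Icc (-(c1:ℤ)) a, kpw 1 a (x + c1 + 1).toNat (c1 + 1) * R c1 c2 n (x + s - k) := by
      simp only [Finset.mul_sum]
      rw [Finset.sum_comm]
      apply Finset.sum_congr rfl
      intro k _
      apply Finset.sum_congr rfl
      intro x _
      ring
    rw [e1, Finset.mul_sum]
    apply Finset.sum_le_sum
    intro k hk
    rw [Finset.mem_range] at hk
    rw [mul_comm (4 * C1 * C2 / _)]
    apply mul_le_mul_of_nonneg_left _ (hkn k)
    have hb : ∀ x ∈ Icc (-(c1:ℤ)) (a : ℤ),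
        kpw 1 a (x + c1 + 1).toNat (c1 + 1) * R c1 c2 n (x + s - k) ≤
        C1 / ((a:ℝ) + 1) ^ (3 / 2 : ℝ) *
          (fun y : ℤ => ((y:ℝ) + c1 + 2) * R c1 c2 n y) (x + s - k) := by
      intro x hx
      rw [Finset.mem_Icc] at hx
      have h4 := h1 a x hx.1
      have hks : (k:ℝ) ≤ s := by exact_mod_cast (by omega : k ≤ s)
      simp only
      have e2 : C1 * ((x:ℝ) + c1 + 2) / ((a:ℝ) + 1) ^ (3 / 2 : ℝ) ≤
          C1 * (((x + s - k : ℤ):ℝ) + c1 + 2) / ((a:ℝ) + 1) ^ (3 / 2 : ℝ) := by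
        apply div_le_div_of_nonneg_right _ (by positivity)
        apply mul_le_mul_of_nonneg_left _ hC1.le
        push_cast
        linarith
      refine (mul_le_mul_of_nonneg_right (h4.trans e2) (R_nonneg _ _ _ _)).trans (le_of_eq ?_)
      ring
    refine (Finset.sum_le_sum hb).trans ?_
    rw [← Finset.mul_sum]
    have h5 : ∑ x ∈ Icc (-(c1:ℤ)) (a : ℤ),
        (fun y : ℤ => ((y:ℝ) + c1 + 2) * R c1 c2 n y) (x + s - k) ≤
        ∑ y ∈ Icc (-(c1:ℤ)) ((a:ℤ) + s), ((y:ℝ) + c1 + 2) * R c1 c2 n y := by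
      have hinj : Set.InjOn (fun x : ℤ => x + s - k) (Icc (-(c1:ℤ)) a : Finset ℤ) := by
        intro x _ y _ hxy
        simp only at hxy
        omega
      rw [← Finset.sum_image (f := fun y : ℤ => ((y:ℝ) + c1 + 2) * R c1 c2 n y)
        (g := fun x : ℤ => x + s - k) hinj]
      apply Finset.sum_le_sum_of_subset_of_nonneg
      · intro y hy
        rw [Finset.mem_image] at hy
        obtain ⟨x, hx, rfl⟩ := hy
        rw [Finset.mem_Icc] at hx ⊢
        omega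
      · intro y hy _
        rw [Finset.mem_Icc] at hy
        have hy1 : -(c1:ℝ) ≤ y := by exact_mod_cast hy.1
        exact mul_nonneg (by linarith) (R_nonneg _ _ _ _)
    refine (mul_le_mul_of_nonneg_left (h5.trans (h2 n _)) (by positivity)).trans ?_
    have hL' : (((a + (s + n) : ℕ) : ℝ)) ≤ 2 * a := by exact_mod_cast hL
    have h6 := rpow_half (L := ((a + (s + n) : ℕ) : ℝ)) (m := (a:ℝ)) (by positivity)
      (by positivity) (by linarith)
    have e3 : C1 / ((a:ℝ) + 1) ^ (3 / 2 : ℝ) * C2 = C1 * C2 * (1 / ((a:ℝ) + 1) ^ (3 / 2 : ℝ)) := by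
      ring
    have e4 : 4 * C1 * C2 / (((a + (s + n) : ℕ) : ℝ) + 1) ^ (3 / 2 : ℝ) =
        C1 * C2 * (4 / (((a + (s + n) : ℕ) : ℝ) + 1) ^ (3 / 2 : ℝ)) := by ring
    rw [e3, e4]
    exact mul_le_mul_of_nonneg_left h6 (by positivity)

open Classical in
/-- exponential moments of `Q ν a` above the middle -/
theorem good_Q (c1 c2 : ℕ) : ∃ C : ℝ, 0 < C ∧ ∀ (L a : ℕ), L ≤ 2 * a → a ≤ L →
    PW L (fun ν => if E0 c1 c2 ν then ENNReal.ofReal (Real.exp (Q ν a)) else 0) ≤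
      ENNReal.ofReal (C / ((L : ℝ) + 1) ^ (3 / 2 : ℝ)) := by
  obtain ⟨C0, hC0, h0⟩ := sum_lin c1 c2
  refine ⟨C0, hC0, fun L a hL ha => ?_⟩
  obtain ⟨n, rfl⟩ : ∃ n, L = a + n := ⟨L - a, by omega⟩
  refine (two_block c1 c2 a n _ (fun _ => 1) (fun _ => zero_le_one) ?_).trans
    (ENNReal.ofReal_le_ofReal (h0 a n (a + n) (by omega)))
  intro ν ν' h3
  split_ifs at h3 ⊢ with h4
  · refine ⟨h4, ENNReal.ofReal_le_ofReal ?_⟩
    rw [Q_append_left ν ν' le_rfl, mul_one]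
  · exact absurd rfl h3

end Pool.Agent.EN
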