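import Mathlib
import Pool.Agent.Lib.MP_ec0ede_nt_EN.Defs4
import Pool.Agent.Lib.MP_ec0ede_nt_EN.LawA
import Pool.Agent.Lib.MP_ec0ede_nt_EN.LawB
import Pool.Agent.Lib.MP_ec0ede_nt_EN.ExB
import Pool.Agent.Lib.MP_ec0ede_nt_EN.Spl
import Pool.Agent.Lib.MP_ec0ede_nt_EN.Coin
import Pool.Agent.Lib.MP_ec0ede_nt_EN.ZBd
import Pool.Agent.Lib.MP_ec0ede_nt_EN.Good

set_option autoImplicit false

/-!
# MP_ec0ede_nt, project EN, module StB: the condition on coincidences for the high levels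
-/

noncomputable section

namespace Pool.Agent.EN

open Real Filter Topology Finset

namespace StB

/-- the coincidence bound -/
def S (D : ℝ) {K m : ℕ} (ν : Fin (K + m) → ℕ) : ℝ :=
  ∑ l : Fin m, (hi ν l : ℝ) * cnt ν (K + l + 1) * (2 * Real.exp (-(2 ^ (K + (l : ℕ) + 1) / D)))

theorem S_nonneg (D : ℝ) {K m : ℕ} (ν : Fin (K + m) → ℕ) : 0 ≤ S D ν :=
  Finset.sum_nonneg fun _ _ => by positivity

/-- the difference, given the counts -/
theorem diff_le {D : ℝ} (hcoin : ∀ (L K m f : ℕ) (νC : Fin K → ℕ) (ν : Fin m → ℕ),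
    K + m ≤ L → (∀ j p : ℕ, K < j → p ∣ f → mu j p = 0) →
    EX L 0 νC (fun τ => EX L K ν (fun τ' => ind (Inj f τ ∧ ¬ Inj f (jn τ τ')))) ≤
      ∑ l : Fin m, (ν l : ℝ) * cnt (Fin.append νC ν) (K + l + 1) *
        (2 * Real.exp (-(2 ^ (K + (l : ℕ) + 1) / D))))
    {K m f : ℕ} (hf : ∀ j p : ℕ, K < j → p ∣ f → mu j p = 0) (y : ℝ) (ν : Fin (K + m) → ℕ) :
    PrA f (K + m) y ν ≤ PrB f K m y (lo ν) (hi ν) ∧
    PrB f K m y (lo ν) (hi ν) - PrA f (K + m) y ν ≤ S D ν := by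
  have hnn : ∀ (K n : ℕ) (ν : Fin n → ℕ) (i : Idx ν) (p : ℕ), 0 ≤ mu (lv K ν i) p :=
    fun K n ν i p => mu_nonneg _ _
  have hA : PrA f (K + m) y ν = EX (K + m) 0 (lo ν) (fun τ => EX (K + m) K (hi ν) (fun τ' =>
      ind (Inj f (jn τ τ') ∧ 0 < Wn (TW f τ) y τ'))) := by
    unfold PrA
    conv_lhs => rw [← append_lo_hi ν]
    rw [EX_append, Nat.zero_add]
    congr 1
    funext τ
    congr 1
    funext τ'
    exact ind_congr (and_congr_right fun _ => mem_TW_jn f y τ τ')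
  have hB : PrB f K m y (lo ν) (hi ν) = EX (K + m) 0 (lo ν) (fun τ => EX (K + m) K (hi ν)
      (fun τ' => ind (Inj f τ) * ind (0 < Wn (TW f τ) y τ'))) := by
    unfold PrB EX
    congr 1
    funext τ
    rw [Ex_mul]
  rw [hA, hB]
  constructor
  · unfold EX
    apply Ex_mono _ _ (hnn 0 K (lo ν))
    intro τ _
    apply Ex_mono _ _ (hnn K m (hi ν))
    intro τ' _
    rw [← ind_and]
    exact ind_mono fun h => ⟨Inj_jn τ τ' h.1, h.2⟩
  · have h1 := hcoin (K + m) K m f (lo ν) (hi ν) le_rfl hf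
    have hS : ∑ l : Fin m, (hi ν l : ℝ) * cnt (Fin.append (lo ν) (hi ν)) (K + l + 1) *
        (2 * Real.exp (-(2 ^ (K + (l : ℕ) + 1) / D))) = S D ν := by
      rw [append_lo_hi]
      rfl
    rw [hS] at h1
    refine le_trans ?_ h1
    unfold EX
    rw [← Ex_sub]
    apply Ex_mono _ _ (hnn 0 K (lo ν))
    intro τ _
    rw [← Ex_sub]
    apply Ex_mono _ _ (hnn K m (hi ν))
    intro τ' _
    rw [ind_and (Inj f (jn τ τ')), ind_and (Inj f τ), ind_not]
    by_cases h2 : Inj f (jn τ τ')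
    · rw [ind_of h2, ind_of (Inj_jn τ τ' h2)]
      linarith
    · rw [ind_not_of h2]
      have h3 := ind_nonneg (Inj f τ)
      have h4 := ind_le_one (0 < Wn (TW f τ) y τ')
      nlinarith

theorem PrA_nonneg (f L : ℕ) (y : ℝ) (ν : Fin L → ℕ) : 0 ≤ PrA f L y ν := by
  unfold PrA EX
  exact Ex_nonneg _ _ (fun i p => mu_nonneg _ _) _ fun τ _ => ind_nonneg _

theorem PrB_le_one (f K m : ℕ) (y : ℝ) (νC : Fin K → ℕ) (ν : Fin m → ℕ) :
    PrB f K m y νC ν ≤ 1 := by
  unfold PrB EX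
  have h1 : ∀ i : Idx ν, ∑ p ∈ range (bd (K + m)), mu (lv K ν i) p = 1 := by
    intro i
    apply mu_mass
    · unfold lv; omega
    · unfold lv
      have := i.1.2
      omega
  have h0 : ∀ i : Idx νC, ∑ p ∈ range (bd (K + m)), mu (lv 0 νC i) p = 1 := by
    intro i
    apply mu_mass
    · unfold lv; omega
    · unfold lv
      have := i.1.2
      omega
  rw [← Ex_const (range (bd (K + m))) (fun i => mu (lv 0 νC i)) h0 1]
  apply Ex_mono _ _ (fun i p => mu_nonneg _ _)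
  intro τ _
  have h2 : Ex (range (bd (K + m))) (fun i => mu (lv K ν i))
      (fun τ' => ind (0 < Wn (TW f τ) y τ')) ≤ 1 := by
    rw [← Ex_const (range (bd (K + m))) (fun i => mu (lv K ν i)) h1 1]
    apply Ex_mono _ _ (fun i p => mu_nonneg _ _)
    intro τ' _
    exact ind_le_one _
  have h3 : 0 ≤ Ex (range (bd (K + m))) (fun i => mu (lv K ν i))
      (fun τ' => ind (0 < Wn (TW f τ) y τ')) :=
    Ex_nonneg _ _ (fun i p => mu_nonneg _ _) _ fun τ' _ => ind_nonneg _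
  have h4 := ind_le_one (Inj f τ)
  have h5 := ind_nonneg (Inj f τ)
  nlinarith

/-- the terms of the final sum -/
def g (A c D : ℝ) (j : ℕ) : ℝ := A * ((j : ℝ) + c) * (j : ℝ) ^ 3 * Real.exp (-(2 ^ j / D))

theorem g_nonneg {A c D : ℝ} (hA : 0 ≤ A) (hc : 0 ≤ c) (j : ℕ) : 0 ≤ g A c D j := by
  unfold g; positivity

theorem g_summable {A c D : ℝ} (hA : 0 ≤ A) (hc : 0 ≤ c) (hD : 0 < D) : Summable (g A c D) := by
  have h1 : Summable fun j : ℕ => (j : ℝ) ^ 4 * (1 / 2 : ℝ) ^ j :=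
    summable_pow_mul_geometric_of_norm_lt_one 4 (by norm_num)
  have h2 : Summable fun j : ℕ => (j : ℝ) ^ 3 * (1 / 2 : ℝ) ^ j :=
    summable_pow_mul_geometric_of_norm_lt_one 3 (by norm_num)
  have h3 : Summable fun j : ℕ => A * D * ((j : ℝ) ^ 4 * (1 / 2 : ℝ) ^ j) +
      A * D * c * ((j : ℝ) ^ 3 * (1 / 2 : ℝ) ^ j) := (h1.mul_left _).add (h2.mul_left _)
  refine Summable.of_nonneg_of_le (fun j => g_nonneg hA hc j) (fun j => ?_) h3
  have hx : (0:ℝ) < 2 ^ j / D := by positivity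
  have he : Real.exp (-(2 ^ j / D)) ≤ D * (1 / 2) ^ j := by
    rw [Real.exp_neg]
    have h4 : 2 ^ j / D ≤ Real.exp (2 ^ j / D) := by
      have := Real.add_one_le_exp (2 ^ j / D : ℝ)
      linarith
    have h5 := inv_anti₀ hx h4
    refine le_trans h5 (le_of_eq ?_)
    rw [inv_div, one_div, inv_pow]
    rfl
  unfold g
  have h6 : 0 ≤ A * ((j : ℝ) + c) * (j : ℝ) ^ 3 := by positivity
  refine le_trans (mul_le_mul_of_nonneg_left he h6) (le_of_eq ?_)
  ring

/-- the tail of the sum -/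
theorem g_tail {A c D : ℝ} (hA : 0 ≤ A) (hc : 0 ≤ c) (hD : 0 < D) {ε : ℝ} (hε : 0 < ε) :
    ∃ K0 : ℕ, ∀ K ≥ K0, ∀ m : ℕ, ∑ l : Fin m, g A c D (K + l + 1) ≤ ε := by
  have h1 := tendsto_sum_nat_add (g A c D)
  obtain ⟨K0, hK0⟩ := (h1.eventually (eventually_le_nhds hε)).exists_forall_of_atTop
  refine ⟨K0, fun K hK m => ?_⟩
  have h2 := hK0 (K + 1) (by omega)
  refine le_trans ?_ h2
  have h3 : ∑ l : Fin m, g A c D (K + l + 1) = ∑ l ∈ range m, g A c D (l + (K + 1)) := by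
    rw [← Fin.sum_univ_eq_sum_range (fun l => g A c D (l + (K + 1))) m]
    apply Finset.sum_congr rfl
    intro l _
    congr 1
    omega
  rw [h3]
  exact ((summable_nat_add_iff (K + 1)).2 (g_summable hA hc hD)).sum_le_tsum _
    fun l _ => g_nonneg hA hc _

open Classical in
/-- the weighted probability of a coincidence on the good paths -/
theorem PW_bound (c1 c2 : ℕ) {C : ℝ} (hC : 0 < C) (hmom : ∀ (L : ℕ) (l : Fin L),
    PW L (fun ν => if E0 c1 c2 ν then ENNReal.ofReal (Real.exp (ν l)) else 0) ≤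
      ENNReal.ofReal (C * ((l : ℕ) + 1 : ℝ) ^ (3 : ℝ) / ((L : ℝ) + 1) ^ (3 / 2 : ℝ)))
    (D : ℝ) (K m : ℕ) (H : (Fin (K + m) → ℕ) → ℝ)
    (hH : ∀ ν, H ν ≤ ind (E0 c1 c2 ν) * S D ν) :
    PW (K + m) (fun ν => ENNReal.ofReal (zz ^ (X ν (K + m)) * H ν)) ≤
      ENNReal.ofReal ((∑ l : Fin m, g (2 * C * zz ^ c2) c1 D (K + l + 1)) /
        (((K + m : ℕ) : ℝ) + 1) ^ (3 / 2 : ℝ)) := by
  have hzz : 1 ≤ zz := by
    unfold zz
    rw [le_div_iff₀ (Real.log_pos one_lt_two), one_mul]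
    have := Real.log_two_lt_d9
    linarith
  have hzz0 : 0 < zz := by linarith
  set T : Fin m → ℝ := fun l => 2 * zz ^ c2 * (((K + l + 1 : ℕ) : ℝ) + c1) *
    Real.exp (-(2 ^ (K + (l : ℕ) + 1) / D)) with hT
  have hT0 : ∀ l, 0 ≤ T l := fun l => by simp only [hT]; positivity
  have step1 : PW (K + m) (fun ν => ENNReal.ofReal (zz ^ (X ν (K + m)) * H ν)) ≤
      PW (K + m) (fun ν => ∑ l : Fin m, ENNReal.ofReal (T l) *
        (if E0 c1 c2 ν then ENNReal.ofReal (Real.exp (ν (Fin.natAdd K l))) else 0)) := by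
    apply PW_mono
    intro ν
    by_cases hE : E0 c1 c2 ν
    · have h1 : H ν ≤ S D ν := by
        have := hH ν
        rw [ind_of hE, one_mul] at this
        exact this
      have h2 : zz ^ (X ν (K + m)) ≤ zz ^ c2 := by
        rw [← zpow_natCast]
        exact zpow_le_zpow_right₀ hzz hE.2
      have h3 : zz ^ (X ν (K + m)) * H ν ≤ ∑ l : Fin m, T l * Real.exp (ν (Fin.natAdd K l)) := by
        have h4 : zz ^ (X ν (K + m)) * H ν ≤ zz ^ (X ν (K + m)) * S D ν :=
          mul_le_mul_of_nonneg_left h1 (zpow_nonneg hzz0.le _)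
        have h5 : zz ^ (X ν (K + m)) * S D ν ≤ zz ^ c2 * S D ν :=
          mul_le_mul_of_nonneg_right h2 (S_nonneg D ν)
        refine le_trans (le_trans h4 h5) ?_
        unfold S
        rw [Finset.mul_sum]
        apply Finset.sum_le_sum
        intro l _
        have h6 : (cnt ν (K + l + 1) : ℝ) ≤ ((K + l + 1 : ℕ) : ℝ) + c1 := by
          have h7 := hE.1 (K + l + 1) (by have := l.2; omega)
          unfold X at h7
          have h8 : (cnt ν (K + l + 1) : ℤ) ≤ ((K + l + 1 : ℕ) : ℤ) + c1 := by linarith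
          exact_mod_cast h8
        have h9 : (hi ν l : ℝ) ≤ Real.exp (ν (Fin.natAdd K l)) := by
          have := Real.add_one_le_exp ((ν (Fin.natAdd K l) : ℕ) : ℝ)
          have h10 : (hi ν l : ℝ) = ((ν (Fin.natAdd K l) : ℕ) : ℝ) := rfl
          rw [h10]
          linarith
        simp only [hT]
        have h11 : (hi ν l : ℝ) * cnt ν (K + l + 1) ≤
            Real.exp (ν (Fin.natAdd K l)) * (((K + l + 1 : ℕ) : ℝ) + c1) :=
          mul_le_mul h9 h6 (by positivity) (by positivity)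
        have h12 : (0:ℝ) ≤ zz ^ c2 * (2 * Real.exp (-(2 ^ (K + (l : ℕ) + 1) / D))) := by
          positivity
        have h13 := mul_le_mul_of_nonneg_left h11 h12
        calc zz ^ c2 * ((hi ν l : ℝ) * cnt ν (K + l + 1) *
              (2 * Real.exp (-(2 ^ (K + (l : ℕ) + 1) / D))))
            = zz ^ c2 * (2 * Real.exp (-(2 ^ (K + (l : ℕ) + 1) / D))) *
              ((hi ν l : ℝ) * cnt ν (K + l + 1)) := by ring
          _ ≤ _ := h13
          _ = _ := by ring
      refine le_trans (ENNReal.ofReal_le_ofReal h3) ?_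
      rw [ENNReal.ofReal_sum_of_nonneg fun l _ => mul_nonneg (hT0 l) (Real.exp_pos _).le]
      apply le_of_eq
      apply Finset.sum_congr rfl
      intro l _
      rw [if_pos hE, ENNReal.ofReal_mul (hT0 l)]
    · have h1 : H ν ≤ 0 := by
        have := hH ν
        rw [ind_not_of hE, zero_mul] at this
        exact this
      have h2 : zz ^ (X ν (K + m)) * H ν ≤ 0 :=
        mul_nonpos_of_nonneg_of_nonpos (zpow_nonneg hzz0.le _) h1
      rw [ENNReal.ofReal_of_nonpos h2]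
      exact zero_le
  refine le_trans step1 ?_
  rw [Good.PW_sum]
  have step2 : ∀ l : Fin m, PW (K + m) (fun ν => ENNReal.ofReal (T l) *
      (if E0 c1 c2 ν then ENNReal.ofReal (Real.exp (ν (Fin.natAdd K l))) else 0)) ≤
      ENNReal.ofReal (g (2 * C * zz ^ c2) c1 D (K + l + 1) /
        (((K + m : ℕ) : ℝ) + 1) ^ (3 / 2 : ℝ)) := by
    intro l
    rw [Good.PW_const]
    refine le_trans (mul_le_mul_right (hmom (K + m) (Fin.natAdd K l)) _) ?_
    rw [← ENNReal.ofReal_mul (hT0 l)]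
    apply ENNReal.ofReal_le_ofReal
    apply le_of_eq
    simp only [hT, g, Fin.val_natAdd]
    have e1 : (((K + (l : ℕ) : ℕ) : ℝ) + 1) ^ (3 : ℝ) = ((K + (l : ℕ) + 1 : ℕ) : ℝ) ^ 3 := by
      rw [show (3 : ℝ) = ((3 : ℕ) : ℝ) by norm_num, Real.rpow_natCast]
      push_cast
      ring
    rw [e1]
    ring
  refine le_trans (Finset.sum_le_sum fun l _ => step2 l) ?_
  rw [← ENNReal.ofReal_sum_of_nonneg]
  · apply ENNReal.ofReal_le_ofReal
    apply le_of_eq
    rw [Finset.sum_div]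
  · intro l _
    exact div_nonneg (g_nonneg (by positivity) (by positivity) _) (by positivity)

end StB

open StB in
theorem st_B (c1 c2 F0 : ℕ) {ε : ℝ} (hε : 0 < ε) : ∃ K0 : ℕ, ∀ K ≥ K0, ∀ m : ℕ,
    ∀ f ∈ Icc 1 F0, ∀ y : ℝ,
    |ZS (K + m) (fun ν => ind (E0 c1 c2 ν) * PrA f (K + m) y ν) -
      ZS (K + m) (fun ν => ind (E0 c1 c2 ν) * PrB f K m y (lo ν) (hi ν))| ≤
      ε / (((K + m : ℕ) : ℝ) + 1) ^ (3 / 2 : ℝ) := by
  classical
  obtain ⟨D, hD1, hcoin⟩ := coin_bound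
  obtain ⟨D', hD'1, hsupp⟩ := supp_bounds
  obtain ⟨C, hC, hmom⟩ := good_moment c1 c2
  have hzz0 : 0 < zz := by
    unfold zz
    exact div_pos one_pos (Real.log_pos one_lt_two)
  obtain ⟨K1, hK1⟩ := g_tail (A := 2 * C * zz ^ c2) (c := c1) (D := D) (by positivity)
    (by positivity) (by linarith) hε
  -- no prime of a high level divides f
  obtain ⟨K2, hK2⟩ : ∃ K2 : ℕ, D' * Real.log F0 < 2 ^ K2 :=
    pow_unbounded_of_one_lt _ one_lt_two
  refine ⟨max K1 K2, fun K hK m f hf y => ?_⟩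
  rw [Finset.mem_Icc] at hf
  have hKK1 : K1 ≤ K := le_trans (le_max_left _ _) hK
  have hKK2 : K2 ≤ K := le_trans (le_max_right _ _) hK
  have hmu : ∀ j p : ℕ, K < j → p ∣ f → mu j p = 0 := by
    intro j p hj hp
    by_contra hne
    have h1 := (hsupp j p hne).1
    have hp1 : 1 ≤ p := Nat.pos_of_dvd_of_pos hp hf.1
    have hpF : p ≤ F0 := le_trans (Nat.le_of_dvd hf.1 hp) hf.2
    have h2 : Real.log p ≤ Real.log F0 :=
      Real.log_le_log (by exact_mod_cast hp1) (by exact_mod_cast hpF)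
    have h3 : (2:ℝ) ^ K2 ≤ 2 ^ j := pow_le_pow_right₀ one_le_two (by omega)
    rw [div_le_iff₀ (by linarith)] at h1
    have h4 : Real.log p * D' ≤ Real.log F0 * D' := mul_le_mul_of_nonneg_right h2 (by linarith)
    linarith
  set H : (Fin (K + m) → ℕ) → ℝ := fun ν => ind (E0 c1 c2 ν) * min 1 (S D ν) with hH
  have hdiff := fun ν : Fin (K + m) → ℕ => diff_le (D := D) hcoin (K := K) (m := m) hmu y ν
  have hA0 := fun ν : Fin (K + m) → ℕ => PrA_nonneg f (K + m) y ν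
  have hB1 := fun ν : Fin (K + m) → ℕ => PrB_le_one f K m y (lo ν) (hi ν)
  have hZ : |ZS (K + m) (fun ν => ind (E0 c1 c2 ν) * PrA f (K + m) y ν) -
      ZS (K + m) (fun ν => ind (E0 c1 c2 ν) * PrB f K m y (lo ν) (hi ν))| ≤ ZS (K + m) H := by
    apply ZS_dist _ _ H 1
    · intro ν
      have h1 := ind_nonneg (E0 c1 c2 ν)
      have h2 := ind_le_one (E0 c1 c2 ν)
      have h3 := hA0 ν
      have h4 := hB1 ν
      have h5 := (hdiff ν).1
      rw [abs_of_nonneg (mul_nonneg h1 h3)]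
      nlinarith
    · intro ν
      have h1 := ind_nonneg (E0 c1 c2 ν)
      have h2 := ind_le_one (E0 c1 c2 ν)
      have h3 := hA0 ν
      have h4 := hB1 ν
      have h5 := (hdiff ν).1
      rw [abs_of_nonneg (mul_nonneg h1 (h3.trans h5))]
      nlinarith
    · intro ν
      have h1 := ind_nonneg (E0 c1 c2 ν)
      have h2 := ind_le_one (E0 c1 c2 ν)
      have h3 : 0 ≤ min 1 (S D ν) := le_min zero_le_one (S_nonneg D ν)
      have h4 : min 1 (S D ν) ≤ 1 := min_le_left _ _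
      simp only [hH]
      rw [abs_of_nonneg (mul_nonneg h1 h3)]
      nlinarith
    · intro ν
      have h1 := ind_nonneg (E0 c1 c2 ν)
      have h3 := hA0 ν
      have h4 := hB1 ν
      have h5 := hdiff ν
      simp only [hH]
      rw [← mul_sub, abs_mul, abs_of_nonneg h1]
      apply mul_le_mul_of_nonneg_left _ h1
      rw [abs_sub_comm, abs_of_nonneg (by linarith [h5.1])]
      exact le_min (by linarith) h5.2
  refine le_trans hZ ?_
  apply ZS_le H 1
  · intro ν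
    exact mul_nonneg (ind_nonneg _) (le_min zero_le_one (S_nonneg D ν))
  · intro ν
    have h1 := ind_nonneg (E0 c1 c2 ν)
    have h2 := ind_le_one (E0 c1 c2 ν)
    have h3 : 0 ≤ min 1 (S D ν) := le_min zero_le_one (S_nonneg D ν)
    have h4 : min 1 (S D ν) ≤ 1 := min_le_left _ _
    simp only [hH]
    nlinarith
  · positivity
  · refine le_trans (PW_bound c1 c2 hC hmom D K m H fun ν => ?_) ?_
    · exact mul_le_mul_of_nonneg_left (min_le_right _ _) (ind_nonneg _)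
    · apply ENNReal.ofReal_le_ofReal
      apply div_le_div_of_nonneg_right (hK1 K hKK1 m) (by positivity)

end Pool.Agent.EN
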