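import Mathlib
import Pool.Agent.Lib.MP_ec0ede_nt_EN.Defs4
import Pool.Agent.Lib.MP_ec0ede_nt_EN.Good
import Pool.Agent.Lib.MP_ec0ede_nt_EN.Path

set_option autoImplicit false

/-!
# MP_ec0ede_nt, project EN, module BadP: most counts are nice
-/

noncomputable section

namespace Pool.Agent.EN

open Real Filter Topology Finset

namespace BadP

/-! ### The series of the powers with exponent `3 / 2` -/

/-- the terms of the series -/
def u (m : ℕ) : ℝ := 1 / ((m : ℝ) + 1) ^ (3 / 2 : ℝ)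

theorem u_nonneg (m : ℕ) : 0 ≤ u m := by unfold u; positivity

theorem u_summable : Summable u := by
  have h : Summable fun n : ℕ => 1 / (n : ℝ) ^ (3 / 2 : ℝ) :=
    Real.summable_one_div_nat_rpow.2 (by norm_num)
  have h1 := (summable_nat_add_iff 1).2 h
  refine h1.congr fun m => ?_
  unfold u
  push_cast
  rfl

/-- the tails of the series -/
def T (i : ℕ) : ℝ := ∑' k, u (k + i)

theorem T_nonneg (i : ℕ) : 0 ≤ T i := tsum_nonneg fun _ => u_nonneg _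

theorem T_tendsto : Tendsto T atTop (𝓝 0) := tendsto_sum_nat_add u

theorem sum_tail (S : Finset ℕ) (i : ℕ) (h : ∀ m ∈ S, i ≤ m) : ∑ m ∈ S, u m ≤ T i := by
  have hinj : Set.InjOn (fun m => m - i) (S : Set ℕ) := by
    intro a ha b hb hab
    have h1 := h a ha
    have h2 := h b hb
    simp only at hab
    omega
  have h1 : ∑ m ∈ S, u m = ∑ k ∈ S.image (fun m => m - i), u (k + i) := by
    rw [Finset.sum_image hinj]
    refine Finset.sum_congr rfl fun m hm => ?_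
    rw [Nat.sub_add_cancel (h m hm)]
  rw [h1]
  exact ((summable_nat_add_iff i).2 u_summable).sum_le_tsum _ fun k _ => u_nonneg _

theorem sum_tail_rev (L i : ℕ) (S : Finset ℕ) (h : ∀ l ∈ S, l < L ∧ i ≤ L - 1 - l) :
    ∑ l ∈ S, u (L - 1 - l) ≤ T i := by
  have hinj : Set.InjOn (fun l => L - 1 - l) (S : Set ℕ) := by
    intro a ha b hb hab
    have h1 := (h a ha).1
    have h2 := (h b hb).1
    simp only at hab
    omega
  rw [← Finset.sum_image (f := u) hinj]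
  refine sum_tail _ i ?_
  intro m hm
  rw [Finset.mem_image] at hm
  obtain ⟨l, hl, rfl⟩ := hm
  exact (h l hl).2

theorem conv_le {x y : ℝ} (hx : 0 < x) (hy : 0 < y) :
    1 / (x ^ (3 / 2 : ℝ) * y ^ (3 / 2 : ℝ)) ≤
      2 ^ (3 / 2 : ℝ) / (x + y) ^ (3 / 2 : ℝ) * (1 / x ^ (3 / 2 : ℝ) + 1 / y ^ (3 / 2 : ℝ)) := by
  have key : ∀ a b : ℝ, 0 < a → 0 < b → (a + b) / 2 ≤ b →
      1 / (a ^ (3 / 2 : ℝ) * b ^ (3 / 2 : ℝ)) ≤
      2 ^ (3 / 2 : ℝ) / (a + b) ^ (3 / 2 : ℝ) * (1 / a ^ (3 / 2 : ℝ)) := by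
    intro a b ha hb hab
    have h1 : 1 / b ^ (3 / 2 : ℝ) ≤ 2 ^ (3 / 2 : ℝ) / (a + b) ^ (3 / 2 : ℝ) := by
      have h2 : ((a + b) / 2) ^ (3 / 2 : ℝ) ≤ b ^ (3 / 2 : ℝ) :=
        Real.rpow_le_rpow (by positivity) hab (by norm_num)
      have h3 : ((a + b) / 2) ^ (3 / 2 : ℝ) = (a + b) ^ (3 / 2 : ℝ) / 2 ^ (3 / 2 : ℝ) :=
        Real.div_rpow (by positivity) (by norm_num) _
      have h4 : 1 / b ^ (3 / 2 : ℝ) ≤ 1 / ((a + b) / 2) ^ (3 / 2 : ℝ) :=
        one_div_le_one_div_of_le (by positivity) h2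
      rw [h3, one_div_div] at h4
      exact h4
    calc 1 / (a ^ (3 / 2 : ℝ) * b ^ (3 / 2 : ℝ))
        = 1 / b ^ (3 / 2 : ℝ) * (1 / a ^ (3 / 2 : ℝ)) := by
          rw [one_div_mul_one_div, mul_comm]
      _ ≤ _ := by gcongr
  have hx0 : 0 ≤ 1 / x ^ (3 / 2 : ℝ) := by positivity
  have hy0 : 0 ≤ 1 / y ^ (3 / 2 : ℝ) := by positivity
  have hc : 0 ≤ 2 ^ (3 / 2 : ℝ) / (x + y) ^ (3 / 2 : ℝ) := by positivity
  rcases le_total x y with h | h
  · refine (key x y hx hy (by linarith)).trans ?_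
    nlinarith [mul_nonneg hc hy0]
  · have h1 := key y x hy hx (by linarith)
    rw [add_comm y x, mul_comm (y ^ (3 / 2 : ℝ))] at h1
    refine h1.trans ?_
    nlinarith [mul_nonneg hc hx0]

/-! ### The sum of `(ν l + 1) 2 ^ (- X)` on the good paths -/

theorem PW_add {L : ℕ} (F F' : (Fin L → ℕ) → ENNReal) :
    PW L (fun ν => F ν + F' ν) = PW L F + PW L F' := by
  unfold PW
  rw [← ENNReal.tsum_add]
  exact tsum_congr fun ν => by ring

open Classical in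
theorem xi_bound (c1 c2 : ℕ) : ∃ C : ℝ, 0 < C ∧ ∀ L K a : ℕ,
    PW L (fun ν => if E0 c1 c2 ν then ENNReal.ofReal (xi K a ν) else 0) ≤
      ENNReal.ofReal (C / ((L : ℝ) + 1) ^ (3 / 2 : ℝ) * (T K + T (L - a))) := by
  obtain ⟨C, hC, h⟩ := good_high c1 c2
  refine ⟨C * 2 ^ (3 / 2 : ℝ), by positivity, ?_⟩
  intro L K a
  have h1 : (fun ν : Fin L → ℕ => if E0 c1 c2 ν then ENNReal.ofReal (xi K a ν) else 0) =
      fun ν => ∑ l ∈ (univ.filter fun l : Fin L => K ≤ (l : ℕ) ∧ (l : ℕ) + 1 ≤ a),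
        if E0 c1 c2 ν then
          ENNReal.ofReal ((ν l + 1 : ℝ) * (2 : ℝ) ^ (-X ν (l + 1))) else 0 := by
    funext ν
    by_cases hE : E0 c1 c2 ν
    · simp only [if_pos hE]
      unfold xi
      rw [← Finset.sum_filter, ENNReal.ofReal_sum_of_nonneg]
      intro l _
      positivity
    · simp only [if_neg hE, Finset.sum_const_zero]
  rw [h1, Good.PW_sum]
  set S : Finset (Fin L) := univ.filter fun l : Fin L => K ≤ (l : ℕ) ∧ (l : ℕ) + 1 ≤ a with hS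
  have h2 : ∀ l ∈ S, PW L (fun ν => if E0 c1 c2 ν then
      ENNReal.ofReal ((ν l + 1 : ℝ) * (2 : ℝ) ^ (-X ν (l + 1))) else 0) ≤
      ENNReal.ofReal (C * 2 ^ (3 / 2 : ℝ) / ((L : ℝ) + 1) ^ (3 / 2 : ℝ) *
        (u l + u (L - 1 - l))) := by
    intro l _
    refine (h L l).trans (ENNReal.ofReal_le_ofReal ?_)
    have hl : (l : ℕ) < L := l.2
    have hlr : ((l : ℕ) : ℝ) + 1 ≤ L := by exact_mod_cast hl
    have h3 := conv_le (x := ((l : ℕ) : ℝ) + 1) (y := (L : ℝ) - l) (by positivity) (by linarith)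
    have h4 : ((l : ℕ) : ℝ) + 1 + ((L : ℝ) - l) = (L : ℝ) + 1 := by ring
    have h5 : u (L - 1 - l) = 1 / ((L : ℝ) - l) ^ (3 / 2 : ℝ) := by
      unfold u
      congr 2
      have : ((L - 1 - (l : ℕ) : ℕ) : ℝ) = (L : ℝ) - 1 - l := by
        rw [Nat.cast_sub (by omega), Nat.cast_sub (by omega)]
        push_cast
        ring
      rw [this]
      ring
    rw [h4] at h3
    rw [h5]
    unfold u
    calc C / ((((l : ℕ) : ℝ) + 1) ^ (3 / 2 : ℝ) * ((L : ℝ) - l) ^ (3 / 2 : ℝ))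
        = C * (1 / ((((l : ℕ) : ℝ) + 1) ^ (3 / 2 : ℝ) * ((L : ℝ) - l) ^ (3 / 2 : ℝ))) := by
          rw [mul_one_div]
      _ ≤ C * (2 ^ (3 / 2 : ℝ) / ((L : ℝ) + 1) ^ (3 / 2 : ℝ) *
          (1 / (((l : ℕ) : ℝ) + 1) ^ (3 / 2 : ℝ) + 1 / ((L : ℝ) - l) ^ (3 / 2 : ℝ))) := by
          gcongr
      _ = _ := by ring
  refine (Finset.sum_le_sum h2).trans ?_
  rw [← ENNReal.ofReal_sum_of_nonneg]
  · refine ENNReal.ofReal_le_ofReal ?_
    rw [← Finset.mul_sum, Finset.sum_add_distrib]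
    have hS' : ∀ l ∈ S, K ≤ (l : ℕ) ∧ (l : ℕ) + 1 ≤ a := by
      intro l hl
      rw [hS, Finset.mem_filter] at hl
      exact hl.2
    have hinj : Set.InjOn (fun l : Fin L => (l : ℕ)) (S : Set (Fin L)) :=
      fun a _ b _ hab => Fin.ext hab
    have h6 : ∑ l ∈ S, u l ≤ T K := by
      rw [← Finset.sum_image (f := u) (g := fun l : Fin L => (l : ℕ)) hinj]
      refine sum_tail _ K ?_
      intro m hm
      rw [Finset.mem_image] at hm
      obtain ⟨l, hl, rfl⟩ := hm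
      exact (hS' l hl).1
    have h7 : ∑ l ∈ S, u (L - 1 - l) ≤ T (L - a) := by
      rw [← Finset.sum_image (f := fun m => u (L - 1 - m)) (g := fun l : Fin L => (l : ℕ)) hinj]
      refine sum_tail_rev L _ _ ?_
      intro m hm
      rw [Finset.mem_image] at hm
      obtain ⟨l, hl, rfl⟩ := hm
      have := (hS' l hl).2
      exact ⟨l.2, by omega⟩
    gcongr
  · intro l _
    have := u_nonneg (l : ℕ)
    have := u_nonneg (L - 1 - (l : ℕ))
    positivity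

open Classical in
/-- Markov's inequality for `xi` -/
theorem xi_markov (c1 c2 : ℕ) : ∃ C : ℝ, 0 < C ∧ ∀ (L K a : ℕ) (D : ℝ), 0 < D →
    PW L (fun ν => if E0 c1 c2 ν ∧ D < xi K a ν then 1 else 0) ≤
      ENNReal.ofReal (C / D * (T K + T (L - a)) / ((L : ℝ) + 1) ^ (3 / 2 : ℝ)) := by
  obtain ⟨C, hC, h⟩ := xi_bound c1 c2
  refine ⟨C, hC, ?_⟩
  intro L K a D hD
  have h1 : PW L (fun ν => if E0 c1 c2 ν ∧ D < xi K a ν then 1 else 0) ≤
      PW L (fun ν => ENNReal.ofReal (1 / D) *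
        (if E0 c1 c2 ν then ENNReal.ofReal (xi K a ν) else 0)) := by
    apply PW_mono
    intro ν
    split_ifs with h2 h3 h3
    · rw [← ENNReal.ofReal_mul (by positivity), ← ENNReal.ofReal_one]
      refine ENNReal.ofReal_le_ofReal ?_
      rw [one_div, inv_mul_eq_div, le_div_iff₀ hD, one_mul]
      exact h2.2.le
    · exact absurd h2.1 h3
    · exact zero_le
    · exact zero_le
  refine h1.trans ?_
  rw [Good.PW_const]
  refine (mul_le_mul_right (h L K a) _).trans ?_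
  rw [← ENNReal.ofReal_mul (by positivity)]
  refine ENNReal.ofReal_le_ofReal (le_of_eq ?_)
  ring

open Classical in
/-- Markov's inequality for `Q` -/
theorem Q_markov (c1 c2 : ℕ) : ∃ C : ℝ, 0 < C ∧ ∀ (L a : ℕ) (D : ℝ), L ≤ 2 * a → a ≤ L →
    PW L (fun ν => if E0 c1 c2 ν ∧ D < Q ν a then 1 else 0) ≤
      ENNReal.ofReal (C * Real.exp (-D) / ((L : ℝ) + 1) ^ (3 / 2 : ℝ)) := by
  obtain ⟨C, hC, h⟩ := good_Q c1 c2
  refine ⟨C, hC, ?_⟩
  intro L a D hL ha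
  have h1 : PW L (fun ν => if E0 c1 c2 ν ∧ D < Q ν a then 1 else 0) ≤
      PW L (fun ν => ENNReal.ofReal (Real.exp (-D)) *
        (if E0 c1 c2 ν then ENNReal.ofReal (Real.exp (Q ν a)) else 0)) := by
    apply PW_mono
    intro ν
    split_ifs with h2 h3 h3
    · rw [← ENNReal.ofReal_mul (by positivity), ← ENNReal.ofReal_one]
      refine ENNReal.ofReal_le_ofReal ?_
      rw [← Real.exp_add]
      exact Real.one_le_exp (by linarith [h2.2])
    · exact absurd h2.1 h3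
    · exact zero_le
    · exact zero_le
  refine h1.trans ?_
  rw [Good.PW_const]
  refine (mul_le_mul_right (h L a hL ha) _).trans ?_
  rw [← ENNReal.ofReal_mul (by positivity)]
  refine ENNReal.ofReal_le_ofReal (le_of_eq ?_)
  ring

/-- few events of a Poisson law with large mean -/
theorem exists_s1 (κ : ℕ) {δ : ℝ} (hδ : 0 < δ) : ∃ s1 : ℕ, κ ≤ s1 ∧
    ∑ k ∈ range κ, Real.exp (-(s1 : ℝ)) * (s1 : ℝ) ^ k / (k.factorial : ℝ) ≤ δ := by
  have h : Tendsto (fun s : ℕ => ∑ k ∈ range κ,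
      Real.exp (-(s : ℝ)) * (s : ℝ) ^ k / (k.factorial : ℝ)) atTop (𝓝 0) := by
    have h1 : ∀ k ∈ range κ, Tendsto (fun s : ℕ =>
        Real.exp (-(s : ℝ)) * (s : ℝ) ^ k / (k.factorial : ℝ)) atTop (𝓝 0) := by
      intro k _
      have h2 := ((Real.tendsto_pow_mul_exp_neg_atTop_nhds_zero k).comp
        tendsto_natCast_atTop_atTop).div_const (k.factorial : ℝ)
      rw [zero_div] at h2
      refine h2.congr fun s => ?_
      simp only [Function.comp]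
      rw [mul_comm]
    have h3 := tendsto_finsetSum (range κ) h1
    simpa using h3
  have h4 := (h.eventually (gt_mem_nhds hδ)).and (eventually_ge_atTop κ)
  obtain ⟨s1, h5, h6⟩ := h4.exists
  exact ⟨s1, h6, h5.le⟩

end BadP

open Classical in
theorem bad_P (c1 c2 : ℕ) {ε : ℝ} (hε : 0 < ε) : ∃ D0 C1 : ℝ, ∀ κ : ℕ,
    ∃ s1 : ℕ, ∀ η1 : ℝ, 0 < η1 → ∃ K0 : ℕ, ∀ K s : ℕ, K0 ≤ K → K0 ≤ s → ∃ n0 : ℕ, ∀ n ≥ n0,
    PW (K + (n + s)) (fun ν => if E0 c1 c2 ν ∧ ¬ Nice D0 C1 η1 κ s1 K n s ν then 1 else 0) ≤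
      ENNReal.ofReal (ε / (((K + (n + s) : ℕ) : ℝ) + 1) ^ (3 / 2 : ℝ)) := by
  obtain ⟨Ca, hCa, ha⟩ := BadP.xi_markov c1 c2
  obtain ⟨Cb, hCb, hb⟩ := BadP.Q_markov c1 c2
  obtain ⟨Cc, hCc, hc⟩ := good_block c1 c2
  have hT0 : 0 ≤ BadP.T 0 := BadP.T_nonneg 0
  set D0 : ℝ := 4 * Ca * (BadP.T 0 + BadP.T 0) / ε + 1 with hD0
  have hD0p : 0 < D0 := by positivity
  have hD0e : Ca / D0 * (BadP.T 0 + BadP.T 0) ≤ ε / 4 := by
    rw [div_mul_eq_mul_div, div_le_iff₀ hD0p, hD0]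
    have h1 : ε / 4 * (4 * Ca * (BadP.T 0 + BadP.T 0) / ε + 1) =
        Ca * (BadP.T 0 + BadP.T 0) + ε / 4 := by
      field_simp
    rw [h1]
    linarith
  refine ⟨D0, Real.log (4 * Cb / ε), ?_⟩
  set C1 : ℝ := Real.log (4 * Cb / ε) with hC1
  have hC1e : Cb * Real.exp (-C1) ≤ ε / 4 := by
    rw [hC1, Real.exp_neg, Real.exp_log (by positivity), inv_div]
    apply le_of_eq
    field_simp
  intro κ
  obtain ⟨s1, hs1, hs1e⟩ := BadP.exists_s1 κ (δ := ε / (4 * Cc)) (by positivity)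
  refine ⟨s1, ?_⟩
  intro η1 hη1
  -- the choice of `K0`
  have hδ : 0 < ε * η1 / (8 * Ca) := by positivity
  obtain ⟨M, hM⟩ := eventually_atTop.1 (BadP.T_tendsto.eventually (gt_mem_nhds hδ))
  refine ⟨2 * M, ?_⟩
  intro K s hK hs
  have hTK : BadP.T K < ε * η1 / (8 * Ca) := hM K (by omega)
  have hTs : BadP.T (s / 2) < ε * η1 / (8 * Ca) := hM (s / 2) (by omega)
  have hTe : Ca / η1 * (BadP.T K + BadP.T (s / 2)) ≤ ε / 4 := by
    have h1 : BadP.T K + BadP.T (s / 2) ≤ ε * η1 / (4 * Ca) := by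
      have : ε * η1 / (4 * Ca) = ε * η1 / (8 * Ca) + ε * η1 / (8 * Ca) := by ring
      linarith
    calc Ca / η1 * (BadP.T K + BadP.T (s / 2)) ≤ Ca / η1 * (ε * η1 / (4 * Ca)) := by gcongr
      _ = ε / 4 := by field_simp
  refine ⟨s + 2 * s1, ?_⟩
  intro n hn
  set L : ℕ := K + (n + s) with hL
  set W : ℝ := ((L : ℕ) : ℝ) + 1 with hW
  have hWp : 0 < W ^ (3 / 2 : ℝ) := by positivity
  -- the four bounds
  have b1 : PW L (fun ν => if E0 c1 c2 ν ∧ D0 < xi 0 L ν then 1 else 0) ≤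
      ENNReal.ofReal (ε / 4 / W ^ (3 / 2 : ℝ)) := by
    refine (ha L 0 L D0 hD0p).trans (ENNReal.ofReal_le_ofReal ?_)
    rw [Nat.sub_self]
    gcongr
  have b2 : PW L (fun ν => if E0 c1 c2 ν ∧ η1 < xi K (K + n + (s - s / 2)) ν then 1 else 0) ≤
      ENNReal.ofReal (ε / 4 / W ^ (3 / 2 : ℝ)) := by
    refine (ha L K (K + n + (s - s / 2)) η1 hη1).trans (ENNReal.ofReal_le_ofReal ?_)
    rw [show L - (K + n + (s - s / 2)) = s / 2 by omega]
    gcongr
  have b3 : PW L (fun ν => if E0 c1 c2 ν ∧ C1 < Q ν (K + n) then 1 else 0) ≤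
      ENNReal.ofReal (ε / 4 / W ^ (3 / 2 : ℝ)) := by
    refine (hb L (K + n) C1 (by omega) (by omega)).trans (ENNReal.ofReal_le_ofReal ?_)
    gcongr
  have b4 : PW L (fun ν => if E0 c1 c2 ν ∧ cnt ν (K + n) - cnt ν (K + n - s1) < κ
      then 1 else 0) ≤ ENNReal.ofReal (ε / 4 / W ^ (3 / 2 : ℝ)) := by
    have h1 := hc L (K + n - s1) s1 κ (by omega) (by omega) hs1
    rw [show K + n - s1 + s1 = K + n by omega] at h1
    refine h1.trans (ENNReal.ofReal_le_ofReal ?_)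
    calc Cc / W ^ (3 / 2 : ℝ) *
        ∑ k ∈ range κ, Real.exp (-(s1 : ℝ)) * (s1 : ℝ) ^ k / (k.factorial : ℝ)
        ≤ Cc / W ^ (3 / 2 : ℝ) * (ε / (4 * Cc)) := by gcongr
      _ = ε / 4 / W ^ (3 / 2 : ℝ) := by field_simp
  -- the union bound
  have hu : PW L (fun ν => if E0 c1 c2 ν ∧ ¬ Nice D0 C1 η1 κ s1 K n s ν then 1 else 0) ≤
      PW L (fun ν => ((if E0 c1 c2 ν ∧ D0 < xi 0 L ν then 1 else 0) +
        (if E0 c1 c2 ν ∧ η1 < xi K (K + n + (s - s / 2)) ν then 1 else 0)) +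
        ((if E0 c1 c2 ν ∧ C1 < Q ν (K + n) then 1 else 0) +
        (if E0 c1 c2 ν ∧ cnt ν (K + n) - cnt ν (K + n - s1) < κ then 1 else 0))) := by
    apply PW_mono
    intro ν
    by_cases hE : E0 c1 c2 ν ∧ ¬ Nice D0 C1 η1 κ s1 K n s ν
    · rw [if_pos hE]
      obtain ⟨hE1, hE2⟩ := hE
      by_cases g1 : D0 < xi 0 L ν
      · rw [if_pos (⟨hE1, g1⟩ : E0 c1 c2 ν ∧ D0 < xi 0 L ν)]
        exact le_add_right (le_add_right le_rfl)
      · by_cases g2 : η1 < xi K (K + n + (s - s / 2)) ν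
        · rw [if_pos (⟨hE1, g2⟩ : E0 c1 c2 ν ∧ η1 < xi K (K + n + (s - s / 2)) ν)]
          exact le_add_right (le_add_left le_rfl)
        · by_cases g3 : C1 < Q ν (K + n)
          · rw [if_pos (⟨hE1, g3⟩ : E0 c1 c2 ν ∧ C1 < Q ν (K + n))]
            exact le_add_left (le_add_right le_rfl)
          · have g4 : cnt ν (K + n) - cnt ν (K + n - s1) < κ := by
              by_contra g4
              exact hE2 ⟨not_lt.1 g1, not_lt.1 g2, not_lt.1 g3, not_lt.1 g4⟩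
            rw [if_pos (⟨hE1, g4⟩ : E0 c1 c2 ν ∧ cnt ν (K + n) - cnt ν (K + n - s1) < κ)]
            exact le_add_left (le_add_left le_rfl)
    · rw [if_neg hE]
      exact zero_le
  refine hu.trans ?_
  rw [BadP.PW_add, BadP.PW_add, BadP.PW_add]
  refine (add_le_add (add_le_add b1 b2) (add_le_add b3 b4)).trans ?_
  rw [← ENNReal.ofReal_add (by positivity) (by positivity),
    ← ENNReal.ofReal_add (by positivity) (by positivity)]
  refine ENNReal.ofReal_le_ofReal (le_of_eq ?_)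
  ring

end Pool.Agent.EN
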