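import Mathlib
import Pool.Agent.Lib.MP_ec0ede_nt_EN.Defs2

set_option autoImplicit false

/-!
# MP_ec0ede_nt, project EN, module Comp: the components of a union of windows
-/

noncomputable section

namespace Pool.Agent.EN

open Real Filter Topology Finset

namespace Comp

/-- the induction statement -/
def St (Z : Finset ℝ) : Prop := Z.Nonempty → ∃ M ∈ Z, (∀ x ∈ Z, x ≤ M) ∧
  ∃ (k : ℕ) (a b : Fin k → ℝ) (α : ℝ), k + 1 ≤ Z.card ∧ α ∈ Z ∧ (∀ i, a i ∈ Z) ∧
    (∀ i, ∃ q ∈ Z, b i = q + Real.log 2) ∧ (∀ i, Real.log 2 ≤ b i - a i) ∧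
    (∀ t, t ∈ UW Z ↔ (∃ i, a i ≤ t ∧ t < b i) ∨ (α ≤ t ∧ t < M + Real.log 2)) ∧
    (∀ t i j, a i ≤ t → t < b i → a j ≤ t → t < b j → i = j) ∧ ∀ i, b i ≤ α

theorem log2_pos : 0 < Real.log 2 := Real.log_pos (by norm_num)

theorem mem_insert_iff (q : ℝ) (s : Finset ℝ) (t : ℝ) :
    t ∈ UW (insert q s) ↔ t ∈ UW s ∨ (q ≤ t ∧ t < q + Real.log 2) := by
  constructor
  · rintro ⟨x, hx, h1, h2⟩
    rcases Finset.mem_insert.mp hx with rfl | hx
    · exact Or.inr ⟨h1, h2⟩
    · exact Or.inl ⟨x, hx, h1, h2⟩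
  · rintro (⟨x, hx, h1, h2⟩ | ⟨h1, h2⟩)
    · exact ⟨x, Finset.mem_insert_of_mem hx, h1, h2⟩
    · exact ⟨q, Finset.mem_insert_self _ _, h1, h2⟩

theorem step (q : ℝ) (s : Finset ℝ) (hq : ∀ x ∈ s, x < q) (ih : St s) : St (insert q s) := by
  classical
  intro _
  have hl := log2_pos
  have hqs : q ∉ s := fun h => lt_irrefl _ (hq q h)
  refine ⟨q, Finset.mem_insert_self _ _, fun x hx => ?_, ?_⟩
  · rcases Finset.mem_insert.mp hx with rfl | hx
    · exact le_rfl
    · exact (hq x hx).le
  rcases s.eq_empty_or_nonempty with rfl | hs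
  · refine ⟨0, Fin.elim0, Fin.elim0, q, by simp, by simp, fun i => i.elim0, fun i => i.elim0,
      fun i => i.elim0, fun t => ?_, fun t i => i.elim0, fun i => i.elim0⟩
    rw [mem_insert_iff]
    constructor
    · rintro (⟨x, hx, _⟩ | h)
      · simp at hx
      · exact Or.inr h
    · rintro (⟨i, _⟩ | h)
      · exact i.elim0
      · exact Or.inr h
  · obtain ⟨M, hM, hMmax, k, a, b, α, hk, hα, ha, hb, hab, hU, hdis, hbα⟩ := ih hs
    have hMq := hq M hM
    have hαM := hMmax α hα
    by_cases hc : M + Real.log 2 ≤ q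
    · refine ⟨k + 1, Fin.snoc a α, Fin.snoc b (M + Real.log 2), q, ?_,
        Finset.mem_insert_self _ _, ?_, ?_, ?_, ?_, ?_, ?_⟩
      · rw [Finset.card_insert_of_notMem hqs]
        omega
      · intro i
        refine Fin.lastCases ?_ (fun i => ?_) i
        · rw [Fin.snoc_last]
          exact Finset.mem_insert_of_mem hα
        · rw [Fin.snoc_castSucc]
          exact Finset.mem_insert_of_mem (ha i)
      · intro i
        refine Fin.lastCases ?_ (fun i => ?_) i
        · rw [Fin.snoc_last]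
          exact ⟨M, Finset.mem_insert_of_mem hM, rfl⟩
        · rw [Fin.snoc_castSucc]
          obtain ⟨x, hx, hx'⟩ := hb i
          exact ⟨x, Finset.mem_insert_of_mem hx, hx'⟩
      · intro i
        refine Fin.lastCases ?_ (fun i => ?_) i
        · rw [Fin.snoc_last, Fin.snoc_last]
          linarith
        · rw [Fin.snoc_castSucc, Fin.snoc_castSucc]
          exact hab i
      · intro t
        rw [mem_insert_iff, hU]
        constructor
        · rintro ((⟨i, hi⟩ | h) | h)
          · refine Or.inl ⟨i.castSucc, ?_⟩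
            rw [Fin.snoc_castSucc, Fin.snoc_castSucc]
            exact hi
          · refine Or.inl ⟨Fin.last k, ?_⟩
            rw [Fin.snoc_last, Fin.snoc_last]
            exact h
          · exact Or.inr h
        · rintro (⟨i, hi⟩ | h)
          · revert hi
            refine Fin.lastCases ?_ (fun i => ?_) i
            · rw [Fin.snoc_last, Fin.snoc_last]
              exact fun hi => Or.inl (Or.inr hi)
            · rw [Fin.snoc_castSucc, Fin.snoc_castSucc]
              exact fun hi => Or.inl (Or.inl ⟨i, hi⟩)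
          · exact Or.inr h
      · intro t i j
        refine Fin.lastCases ?_ (fun i => ?_) i
        · refine Fin.lastCases ?_ (fun j => ?_) j
          · intros
            rfl
          · rw [Fin.snoc_last, Fin.snoc_last, Fin.snoc_castSucc, Fin.snoc_castSucc]
            intro h1 h2 h3 h4
            have := hbα j
            linarith
        · refine Fin.lastCases ?_ (fun j => ?_) j
          · rw [Fin.snoc_last, Fin.snoc_last, Fin.snoc_castSucc, Fin.snoc_castSucc]
            intro h1 h2 h3 h4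
            have := hbα i
            linarith
          · rw [Fin.snoc_castSucc, Fin.snoc_castSucc, Fin.snoc_castSucc, Fin.snoc_castSucc]
            intro h1 h2 h3 h4
            rw [hdis t i j h1 h2 h3 h4]
      · intro i
        refine Fin.lastCases ?_ (fun i => ?_) i
        · rw [Fin.snoc_last]
          exact hc
        · rw [Fin.snoc_castSucc]
          have := hbα i
          linarith
    · push Not at hc
      refine ⟨k, a, b, α, ?_, Finset.mem_insert_of_mem hα, fun i =>
        Finset.mem_insert_of_mem (ha i), fun i => ?_, hab, fun t => ?_, hdis, hbα⟩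
      · rw [Finset.card_insert_of_notMem hqs]
        omega
      · obtain ⟨x, hx, hx'⟩ := hb i
        exact ⟨x, Finset.mem_insert_of_mem hx, hx'⟩
      · rw [mem_insert_iff, hU]
        constructor
        · rintro ((h | ⟨h1, h2⟩) | ⟨h1, h2⟩)
          · exact Or.inl h
          · exact Or.inr ⟨h1, by linarith⟩
          · exact Or.inr ⟨by linarith, h2⟩
        · rintro (h | ⟨h1, h2⟩)
          · exact Or.inl (Or.inl h)
          · by_cases h3 : t < M + Real.log 2
            · exact Or.inl (Or.inr ⟨h1, h3⟩)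
            · exact Or.inr ⟨by push Not at h3; linarith, h2⟩

theorem st (Z : Finset ℝ) : St Z := by
  classical
  refine Finset.induction_on_max Z ?_ (fun q s hq ih => step q s hq ih)
  intro h
  exact absurd h (by simp)

theorem vol_eq {n : ℕ} (a b : Fin n → ℝ) (T : Set ℝ) (hab : ∀ i, a i ≤ b i)
    (hT : ∀ t, t ∈ T ↔ ∃ i, a i ≤ t ∧ t < b i)
    (hd : ∀ t i j, a i ≤ t → t < b i → a j ≤ t → t < b j → i = j) :
    vol T = ∑ i, (b i - a i) := by
  have h1 : T = ⋃ i, Set.Ico (a i) (b i) := by
    ext t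
    rw [hT, Set.mem_iUnion]
    exact Iff.rfl
  have h2 : Pairwise (Function.onFun Disjoint fun i => Set.Ico (a i) (b i)) := by
    intro i j hij
    rw [Function.onFun, Set.disjoint_left]
    intro t hi hj
    exact hij (hd t i j hi.1 hi.2 hj.1 hj.2)
  rw [vol, h1, MeasureTheory.measure_iUnion h2 (fun i => measurableSet_Ico), tsum_fintype,
    ENNReal.toReal_sum (fun i _ => by rw [Real.volume_Ico]; exact ENNReal.ofReal_ne_top)]
  refine Finset.sum_congr rfl fun i _ => ?_
  rw [Real.volume_Ico, ENNReal.toReal_ofReal (by linarith [hab i])]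

end Comp

theorem UW_comp (Z : Finset ℝ) : ∃ (n : ℕ) (a b : Fin n → ℝ), n ≤ Z.card ∧
    (∀ i, a i ∈ Z) ∧ (∀ i, ∃ q ∈ Z, b i = q + Real.log 2) ∧ (∀ i, Real.log 2 ≤ b i - a i) ∧
    (∀ t, t ∈ UW Z ↔ ∃ i, a i ≤ t ∧ t < b i) ∧
    (∀ t i j, a i ≤ t → t < b i → a j ≤ t → t < b j → i = j) ∧
    vol (UW Z) = ∑ i, (b i - a i) := by
  have hl := Comp.log2_pos
  rcases Z.eq_empty_or_nonempty with rfl | hZ
  · have h0 : ∀ t, t ∈ UW ∅ ↔ ∃ i : Fin 0, (Fin.elim0 i : ℝ) ≤ t ∧ t < (Fin.elim0 i : ℝ) := by
      intro t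
      constructor
      · rintro ⟨x, hx, _⟩
        simp at hx
      · rintro ⟨i, _⟩
        exact i.elim0
    exact ⟨0, Fin.elim0, Fin.elim0, by simp, fun i => i.elim0, fun i => i.elim0,
      fun i => i.elim0, h0, fun t i => i.elim0,
      Comp.vol_eq Fin.elim0 Fin.elim0 _ (fun i => i.elim0) h0 (fun t i => i.elim0)⟩
  · obtain ⟨M, hM, hMmax, k, a, b, α, hk, hα, ha, hb, hab, hU, hdis, hbα⟩ := Comp.st Z hZ
    have hαM := hMmax α hα
    have h1 : ∀ i : Fin (k + 1), Real.log 2 ≤ (Fin.snoc b (M + Real.log 2) : Fin (k + 1) → ℝ) i -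
        (Fin.snoc a α : Fin (k + 1) → ℝ) i := by
      intro i
      refine Fin.lastCases ?_ (fun i => ?_) i
      · rw [Fin.snoc_last, Fin.snoc_last]
        linarith
      · rw [Fin.snoc_castSucc, Fin.snoc_castSucc]
        exact hab i
    have h2 : ∀ t, t ∈ UW Z ↔ ∃ i : Fin (k + 1), (Fin.snoc a α : Fin (k + 1) → ℝ) i ≤ t ∧
        t < (Fin.snoc b (M + Real.log 2) : Fin (k + 1) → ℝ) i := by
      intro t
      rw [hU]
      constructor
      · rintro (⟨i, hi⟩ | h)
        · refine ⟨i.castSucc, ?_⟩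
          rw [Fin.snoc_castSucc, Fin.snoc_castSucc]
          exact hi
        · refine ⟨Fin.last k, ?_⟩
          rw [Fin.snoc_last, Fin.snoc_last]
          exact h
      · rintro ⟨i, hi⟩
        revert hi
        refine Fin.lastCases ?_ (fun i => ?_) i
        · rw [Fin.snoc_last, Fin.snoc_last]
          exact fun hi => Or.inr hi
        · rw [Fin.snoc_castSucc, Fin.snoc_castSucc]
          exact fun hi => Or.inl ⟨i, hi⟩
    have h3 : ∀ t (i j : Fin (k + 1)), (Fin.snoc a α : Fin (k + 1) → ℝ) i ≤ t →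
        t < (Fin.snoc b (M + Real.log 2) : Fin (k + 1) → ℝ) i →
        (Fin.snoc a α : Fin (k + 1) → ℝ) j ≤ t →
        t < (Fin.snoc b (M + Real.log 2) : Fin (k + 1) → ℝ) j → i = j := by
      intro t i j
      refine Fin.lastCases ?_ (fun i => ?_) i
      · refine Fin.lastCases ?_ (fun j => ?_) j
        · intros
          rfl
        · rw [Fin.snoc_last, Fin.snoc_last, Fin.snoc_castSucc, Fin.snoc_castSucc]
          intro h1 h2 h3 h4
          have := hbα j
          linarith
      · refine Fin.lastCases ?_ (fun j => ?_) j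
        · rw [Fin.snoc_last, Fin.snoc_last, Fin.snoc_castSucc, Fin.snoc_castSucc]
          intro h1 h2 h3 h4
          have := hbα i
          linarith
        · rw [Fin.snoc_castSucc, Fin.snoc_castSucc, Fin.snoc_castSucc, Fin.snoc_castSucc]
          intro h1 h2 h3 h4
          rw [hdis t i j h1 h2 h3 h4]
    refine ⟨k + 1, Fin.snoc a α, Fin.snoc b (M + Real.log 2), hk, ?_, ?_, h1, h2, h3,
      Comp.vol_eq _ _ _ (fun i => by linarith [h1 i]) h2 h3⟩
    · intro i
      refine Fin.lastCases ?_ (fun i => ?_) i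
      · rw [Fin.snoc_last]
        exact hα
      · rw [Fin.snoc_castSucc]
        exact ha i
    · intro i
      refine Fin.lastCases ?_ (fun i => ?_) i
      · rw [Fin.snoc_last]
        exact ⟨M, hM, rfl⟩
      · rw [Fin.snoc_castSucc]
        exact hb i

theorem vol_UW_le (Z : Finset ℝ) : vol (UW Z) ≤ Z.card * Real.log 2 := by
  have hl := Comp.log2_pos
  have h1 : UW Z = ⋃ q ∈ Z, Set.Ico q (q + Real.log 2) := by
    ext t
    simp only [UW, Set.mem_ofPred_eq, Set.mem_iUnion, Set.mem_Ico, exists_prop]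
  have h2 : MeasureTheory.volume (UW Z) ≤ ENNReal.ofReal (Z.card * Real.log 2) := by
    rw [h1]
    refine (MeasureTheory.measure_biUnion_finset_le Z _).trans ?_
    have h3 : ∀ q ∈ Z, MeasureTheory.volume (Set.Ico q (q + Real.log 2)) =
        ENNReal.ofReal (Real.log 2) := by
      intro q _
      rw [Real.volume_Ico]
      congr 1
      ring
    rw [Finset.sum_congr rfl h3, Finset.sum_const, nsmul_eq_mul,
      ENNReal.ofReal_mul (by positivity), ENNReal.ofReal_natCast]
  exact ENNReal.toReal_le_of_le_ofReal (by positivity) h2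

theorem vol_UW_ge (Z : Finset ℝ) (h : Z.Nonempty) : Real.log 2 ≤ vol (UW Z) := by
  obtain ⟨q, hq⟩ := h
  obtain ⟨n, a, b, hn, ha, hb, hab, hU, hd, hv⟩ := UW_comp Z
  have hl := Comp.log2_pos
  have h1 : q ∈ UW Z := ⟨q, hq, le_rfl, by linarith⟩
  obtain ⟨i, hi⟩ := (hU q).mp h1
  rw [hv]
  refine (hab i).trans ?_
  exact Finset.single_le_sum (f := fun i => b i - a i) (fun j _ => by linarith [hab j])
    (Finset.mem_univ i)

end Pool.Agent.EN
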