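import Mathlib
import Pool.Agent.Lib.MP_ec0ede_nt_EN.Defs2

set_option autoImplicit false

/-!
# MP_ec0ede_nt, project EN, module OdlA: vectors of zeros and ones in a subspace
-/

noncomputable section

namespace Pool.Agent.EN

open Real Filter Topology Finset

namespace OdlA

/-- the coordinate functional restricted to a subspace -/
def co {k : ℕ} (U : Submodule ℚ (Fin k → ℚ)) (a : Fin k) : U →ₗ[ℚ] ℚ :=
  (LinearMap.proj a).comp U.subtype

theorem co_apply {k : ℕ} (U : Submodule ℚ (Fin k → ℚ)) (a : Fin k) (x : U) :
    co U a x = (x : Fin k → ℚ) a := rfl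

theorem bv_inj {k : ℕ} {b c : Fin k → Bool} (h : bv b = bv c) : b = c := by
  funext a
  have h1 := congrFun h a
  unfold bv at h1
  cases hb : b a <;> cases hc : c a <;> simp [hb, hc] at h1 ⊢

theorem bv_le {k : ℕ} (b : Fin k → Bool) (a : Fin k) : bv b a = 1 ↔ b a = true := by
  unfold bv
  cases hb : b a <;> simp

end OdlA

open OdlA in
theorem card_bool_le {k : ℕ} (U : Submodule ℚ (Fin k → ℚ)) [DecidablePred fun b : Fin k → Bool =>
    bv b ∈ U] : (univ.filter fun b : Fin k → Bool => bv b ∈ U).card ≤ 2 ^ Module.finrank ℚ U := by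
  classical
  obtain ⟨s, hs, hspan, hli⟩ := exists_linearIndependent ℚ (Set.range (co U))
  have hfin : s.Finite := (Set.finite_range (co U)).subset hs
  have : Fintype s := hfin.fintype
  have hcard : Fintype.card s ≤ Module.finrank ℚ U := by
    have h1 := hli.fintype_card_le_finrank
    have h2 : Module.finrank ℚ (U →ₗ[ℚ] ℚ) = Module.finrank ℚ U :=
      Subspace.dual_finrank_eq
    rwa [h2] at h1
  have hkey : ∀ x y : U, (∀ f ∈ s, f x = f y) → x = y := by
    intro x y h
    have h1 : ∀ f ∈ Submodule.span ℚ s, f x = f y := by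
      intro f hf
      induction hf using Submodule.span_induction with
      | mem f hf => exact h f hf
      | zero => rfl
      | add f g _ _ hf hg => rw [LinearMap.add_apply, LinearMap.add_apply, hf, hg]
      | smul c f _ hf => rw [LinearMap.smul_apply, LinearMap.smul_apply, hf]
    apply Subtype.ext
    funext a
    have h2 : co U a ∈ Submodule.span ℚ s := by
      rw [hspan]
      exact Submodule.subset_span ⟨a, rfl⟩
    exact h1 _ h2
  let F : (Fin k → Bool) → (s → Bool) := fun b f =>
    if h : bv b ∈ U then decide (f.1 ⟨bv b, h⟩ = 1) else false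
  have hinj : Set.InjOn F (univ.filter fun b : Fin k → Bool => bv b ∈ U : Finset _) := by
    intro b hb c hc hbc
    have hb' : bv b ∈ U := by simpa using hb
    have hc' : bv c ∈ U := by simpa using hc
    apply bv_inj
    have h3 : (⟨bv b, hb'⟩ : U) = ⟨bv c, hc'⟩ := by
      apply hkey
      intro f hf
      have h4 := congrFun hbc ⟨f, hf⟩
      simp only [F, dif_pos hb', dif_pos hc'] at h4
      obtain ⟨a, rfl⟩ := hs hf
      simp only [co_apply] at h4 ⊢
      rw [decide_eq_decide, bv_le, bv_le] at h4
      unfold bv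
      cases hb2 : b a <;> cases hc2 : c a <;> simp [hb2, hc2] at h4 ⊢
    exact congrArg Subtype.val h3
  calc (univ.filter fun b : Fin k → Bool => bv b ∈ U).card
      ≤ (univ : Finset (s → Bool)).card :=
        Finset.card_le_card_of_injOn F (fun _ _ => Finset.mem_coe.2 (Finset.mem_univ _)) hinj
    _ = 2 ^ Fintype.card s := by
        rw [Finset.card_univ, Fintype.card_fun, Fintype.card_bool]
    _ ≤ 2 ^ Module.finrank ℚ U := Nat.pow_le_pow_right (by norm_num) hcard

end Pool.Agent.EN
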