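import Mathlib
import Pool.Agent.Lib.MP_ec0ede_nt_EN.Defs2
import Pool.Agent.Lib.MP_ec0ede_nt_EN.OdlA

set_option autoImplicit false

/-!
# MP_ec0ede_nt, project EN, module OdlB: vectors of zeros and ones in a subspace, strict case
-/

noncomputable section

namespace Pool.Agent.EN

open Real Filter Topology Finset

open OdlA in
theorem card_bool_lt {k : ℕ} (U : Submodule ℚ (Fin k → ℚ)) [DecidablePred fun b : Fin k → Bool =>
    bv b ∈ U] (hU : Module.finrank ℚ U < k) (h0 : ∀ a : Fin k, ∃ b : Fin k → Bool, bv b ∈ U ∧
    b a = true) (h1 : ∀ a a' : Fin k, a ≠ a' → ∃ b : Fin k → Bool, bv b ∈ U ∧ b a ≠ b a') :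
    (univ.filter fun b : Fin k → Bool => bv b ∈ U).card < 2 ^ Module.finrank ℚ U := by
  classical
  by_contra hcon
  rw [not_lt] at hcon
  obtain ⟨s, hs, hspan, hli⟩ := exists_linearIndependent ℚ (Set.range (co U))
  have hfin : s.Finite := (Set.finite_range (co U)).subset hs
  have : Fintype s := hfin.fintype
  have hcard : Fintype.card s ≤ Module.finrank ℚ U := by
    have h1 := hli.fintype_card_le_finrank
    have h2 : Module.finrank ℚ (U →ₗ[ℚ] ℚ) = Module.finrank ℚ U :=
      Subspace.dual_finrank_eq
    rwa [h2] at h1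
  -- the values at vectors of zeros and ones
  have hval : ∀ (f : U →ₗ[ℚ] ℚ), f ∈ s → ∀ (b : Fin k → Bool) (hb : bv b ∈ U),
      f ⟨bv b, hb⟩ = 0 ∨ f ⟨bv b, hb⟩ = 1 := by
    intro f hf b hb
    obtain ⟨a, rfl⟩ := hs hf
    rw [co_apply]
    unfold bv
    cases hb2 : b a <;> simp [hb2]
  have hkey : ∀ x y : U, (∀ f ∈ s, f x = f y) → x = y := by
    intro x y h
    have h1 : ∀ f ∈ Submodule.span ℚ s, f x = f y := by
      intro f hf
      induction hf using Submodule.span_induction with
      | mem f hf => exact h f hf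
      | zero => rfl
      | add f g _ _ hf hg => rw [LinearMap.add_apply, LinearMap.add_apply, hf, hg]
      | smul c f _ hf => rw [LinearMap.smul_apply, LinearMap.smul_apply, hf]
    apply Subtype.ext
    funext a
    have h2 : co U a ∈ Submodule.span ℚ s := by
      rw [hspan]
      exact Submodule.subset_span ⟨a, rfl⟩
    exact h1 _ h2
  let F : (Fin k → Bool) → (s → Bool) := fun b f =>
    if h : bv b ∈ U then decide (f.1 ⟨bv b, h⟩ = 1) else false
  have hinj : Set.InjOn F (univ.filter fun b : Fin k → Bool => bv b ∈ U : Finset _) := by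
    intro b hb c hc hbc
    have hb' : bv b ∈ U := by simpa using hb
    have hc' : bv c ∈ U := by simpa using hc
    apply bv_inj
    have h3 : (⟨bv b, hb'⟩ : U) = ⟨bv c, hc'⟩ := by
      apply hkey
      intro f hf
      have h4 := congrFun hbc ⟨f, hf⟩
      simp only [F, dif_pos hb', dif_pos hc'] at h4
      rw [decide_eq_decide] at h4
      rcases hval f hf b hb' with h5 | h5 <;> rcases hval f hf c hc' with h6 | h6
      · rw [h5, h6]
      · exact absurd (h4.2 h6) (by rw [h5]; norm_num)
      · exact absurd (h4.1 h5) (by rw [h6]; norm_num)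
      · rw [h5, h6]
    exact congrArg Subtype.val h3
  -- `F` is surjective
  have hle : (univ : Finset (s → Bool)).card ≤
      (univ.filter fun b : Fin k → Bool => bv b ∈ U).card := by
    rw [Finset.card_univ, Fintype.card_fun, Fintype.card_bool]
    exact (Nat.pow_le_pow_right (by norm_num) hcard).trans hcon
  have hsurj : ∀ g : s → Bool, ∃ b : Fin k → Bool, ∃ hb : bv b ∈ U,
      ∀ f : s, f.1 ⟨bv b, hb⟩ = if g f = true then 1 else 0 := by
    intro g
    have h2 : Set.SurjOn F (univ.filter fun b : Fin k → Bool => bv b ∈ U : Finset _)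
        (univ : Finset (s → Bool)) :=
      Finset.surjOn_of_injOn_of_card_le F
        (fun _ _ => Finset.mem_coe.2 (Finset.mem_univ _)) hinj hle
    obtain ⟨b, hb, hbg⟩ := h2 (Finset.mem_coe.2 (Finset.mem_univ g))
    have hb' : bv b ∈ U := by simpa using hb
    refine ⟨b, hb', fun f => ?_⟩
    have h4 : F b f = g f := by rw [hbg]
    simp only [F, dif_pos hb'] at h4
    rw [← h4]
    rcases hval f.1 f.2 b hb' with h5 | h5 <;> rw [h5] <;> simp
  -- a coordinate outside of `s`
  have hcoinj : Function.Injective (co U) := by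
    intro a a' haa
    by_contra hne
    obtain ⟨b, hb, hb2⟩ := h1 a a' hne
    have h3 : co U a ⟨bv b, hb⟩ = co U a' ⟨bv b, hb⟩ := by rw [haa]
    rw [co_apply, co_apply] at h3
    apply hb2
    simp only [bv] at h3
    cases hc : b a <;> cases hc' : b a' <;> simp [hc, hc'] at h3 ⊢
  obtain ⟨c, hc⟩ : ∃ c : Fin k, co U c ∉ s := by
    by_contra hall
    push Not at hall
    have h2 : Fintype.card (Fin k) ≤ Fintype.card s :=
      Fintype.card_le_of_injective (fun a => (⟨co U a, hall a⟩ : s)) (fun a a' haa =>
        hcoinj (congrArg Subtype.val haa))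
    rw [Fintype.card_fin] at h2
    omega
  have hcs : co U c ∈ Submodule.span ℚ (Set.range (fun f : s => f.1)) := by
    rw [Subtype.range_coe_subtype, Set.ofPred_mem_eq, hspan]
    exact Submodule.subset_span ⟨c, rfl⟩
  rw [Submodule.mem_span_range_iff_exists_fun] at hcs
  obtain ⟨α, hα⟩ := hcs
  -- the value of the coordinate `c` for an assignment
  have hkey2 : ∀ g : s → Bool, (∑ f, α f * if g f = true then 1 else 0) = 0 ∨
      (∑ f, α f * if g f = true then 1 else 0) = 1 := by
    intro g
    obtain ⟨b, hb, hf⟩ := hsurj g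
    have h2 : co U c ⟨bv b, hb⟩ = ∑ f, α f * if g f = true then 1 else 0 := by
      rw [← hα, LinearMap.sum_apply]
      apply Finset.sum_congr rfl
      intro f _
      rw [LinearMap.smul_apply, hf f, smul_eq_mul]
    rw [← h2, co_apply]
    unfold bv
    cases hb2 : b c <;> simp [hb2]
  have hunit : ∀ f : s, α f = 0 ∨ α f = 1 := by
    intro f
    have h2 := hkey2 (fun f' => decide (f' = f))
    simpa using h2
  have hpair : ∀ f f' : s, f ≠ f' → α f + α f' = 0 ∨ α f + α f' = 1 := by
    intro f f' hne
    have h2 := hkey2 (fun f'' => decide (f'' = f ∨ f'' = f'))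
    have h3 : (∑ f'', α f'' * if decide (f'' = f ∨ f'' = f') = true then (1 : ℚ) else 0) =
        α f + α f' := by
      have h4 : ∀ f'' : s, (α f'' * if decide (f'' = f ∨ f'' = f') = true then (1 : ℚ) else 0) =
          (if f'' = f then α f'' else 0) + (if f'' = f' then α f'' else 0) := by
        intro f''
        by_cases e1 : f'' = f
        · subst e1
          simp [hne]
        · by_cases e2 : f'' = f'
          · subst e2
            simp [e1]
          · simp [e1, e2]
      rw [Finset.sum_congr rfl (fun f'' _ => h4 f''), Finset.sum_add_distrib,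
        Finset.sum_ite_eq' univ f, Finset.sum_ite_eq' univ f']
      simp
    rw [h3] at h2
    exact h2
  by_cases hz : ∃ f : s, α f = 1
  · obtain ⟨f, hf⟩ := hz
    have hrest : ∀ f' : s, f' ≠ f → α f' = 0 := by
      intro f' hne
      rcases hunit f' with h2 | h2
      · exact h2
      · exfalso
        rcases hpair f' f hne with h3 | h3 <;> rw [h2, hf] at h3 <;> norm_num at h3
    apply hc
    have h2 : co U c = f.1 := by
      rw [← hα, Finset.sum_eq_single f]
      · rw [hf, one_smul]
      · intro f' _ hne
        rw [hrest f' hne, zero_smul]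
      · intro hf'
        exact absurd (Finset.mem_univ f) hf'
    rw [h2]
    exact f.2
  · push Not at hz
    have hz' : ∀ f : s, α f = 0 := fun f => (hunit f).resolve_right (hz f)
    obtain ⟨b, hb, hb1⟩ := h0 c
    have h2 : co U c ⟨bv b, hb⟩ = 0 := by
      rw [← hα, LinearMap.sum_apply]
      apply Finset.sum_eq_zero
      intro f _
      rw [hz' f, zero_smul, LinearMap.zero_apply]
    rw [co_apply] at h2
    simp only [bv, hb1] at h2
    norm_num at h2

end Pool.Agent.EN
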