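import Mathlib
import Pool.Agent.Lib.MP_ec0ede_nt_EN.Defs2
import Pool.Agent.Lib.MP_ec0ede_nt_EN.OdlA
import Pool.Agent.Lib.MP_ec0ede_nt_EN.OdlB

set_option autoImplicit false

/-!
# MP_ec0ede_nt, project EN, module JumpC: counting systems of sets by their jumps
-/

noncomputable section

namespace Pool.Agent.EN

open Real Filter Topology Finset

namespace JumpC

/-- counting functions by the number of choices for each value -/
theorem count_le {ι A : Type} [Fintype ι] [LinearOrder ι] [Fintype A] (R : (ι → A) → Prop)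
    [DecidablePred R] (c : ι → ℕ)
    (h : ∀ i v, R v → ∃ S : Finset A, S.card ≤ c i ∧
      ∀ w, R w → (∀ i' < i, w i' = v i') → w i ∈ S) :
    (univ.filter R).card ≤ ∏ i, c i := by
  classical
  have key : ∀ s : Finset ι, IsLowerSet (s : Set ι) →
      ((univ.filter R).image (fun v (i : {x // x ∈ s}) => v i)).card ≤ ∏ i ∈ s, c i := by
    intro s
    induction s using Finset.induction_on_max with
    | empty =>
      intro _
      rw [Finset.prod_empty]
      exact Finset.card_le_one_of_subsingleton _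
    | insert a s hlt ih =>
      intro hlow
      have ha : a ∉ s := fun h => lt_irrefl _ (hlt a h)
      have hlow' : IsLowerSet (s : Set ι) := by
        intro x y hyx hx
        have h1 : y ∈ ((insert a s : Finset ι) : Set ι) :=
          hlow hyx (Finset.mem_coe.2 (Finset.mem_insert_of_mem (Finset.mem_coe.1 hx)))
        rcases Finset.mem_insert.1 (Finset.mem_coe.1 h1) with h2 | h2
        · exfalso
          rw [h2] at hyx
          exact lt_irrefl _ (hyx.trans_lt (hlt x (Finset.mem_coe.1 hx)))
        · exact Finset.mem_coe.2 h2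
      have hmem : ∀ i' < a, i' ∈ s := by
        intro i' hi'
        have h1 : i' ∈ ((insert a s : Finset ι) : Set ι) :=
          hlow hi'.le (Finset.mem_coe.2 (Finset.mem_insert_self a s))
        rcases Finset.mem_insert.1 (Finset.mem_coe.1 h1) with h2 | h2
        · exact absurd h2 hi'.ne
        · exact h2
      rw [Finset.prod_insert ha]
      set T := (univ.filter R).image (fun v (i : {x // x ∈ insert a s}) => v i) with hT
      set r : ({x // x ∈ insert a s} → A) → ({x // x ∈ s} → A) :=
        fun u i => u ⟨i, Finset.mem_insert_of_mem i.2⟩ with hr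
      have himg : T.image r = (univ.filter R).image (fun v (i : {x // x ∈ s}) => v i) := by
        rw [hT, Finset.image_image]
        rfl
      have hfib : ∀ b ∈ T.image r, (T.filter fun x => r x = b).card ≤ c a := by
        intro b hb
        rw [himg, Finset.mem_image] at hb
        obtain ⟨v, hv, rfl⟩ := hb
        obtain ⟨S, hS, hS2⟩ := h a v (Finset.mem_filter.1 hv).2
        refine le_trans (Finset.card_le_card_of_injOn
          (fun x => x ⟨a, Finset.mem_insert_self a s⟩) ?_ ?_) hS
        · intro x hx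
          rw [Finset.mem_coe, Finset.mem_filter, hT, Finset.mem_image] at hx
          obtain ⟨⟨w, hw, rfl⟩, hw2⟩ := hx
          refine Finset.mem_coe.2 (hS2 w (Finset.mem_filter.1 hw).2 fun i' hi' => ?_)
          exact congrFun hw2 ⟨i', hmem i' hi'⟩
        · intro x hx y hy hxy
          rw [Finset.mem_coe, Finset.mem_filter] at hx hy
          funext ⟨i, hi⟩
          rcases Finset.mem_insert.1 hi with h2 | h2
          · subst h2
            exact hxy
          · exact congrFun (hx.2.trans hy.2.symm) ⟨i, h2⟩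
      calc T.card ≤ c a * (T.image r).card := Finset.card_le_mul_card_image _ _ hfib
        _ ≤ c a * ∏ i ∈ s, c i := by
          rw [himg]
          exact Nat.mul_le_mul_left _ (ih hlow')
  have h1 := key univ (fun _ _ _ _ => Finset.mem_coe.2 (Finset.mem_univ _))
  rw [Finset.card_image_of_injective] at h1
  · exact h1
  · intro v w hvw
    funext i
    exact congrFun hvw ⟨i, Finset.mem_univ i⟩

variable {ι : Type} [Fintype ι] [LinearOrder ι] {k : ℕ}

theorem mem_jmp (v : ι → Fin k → Bool) (i : ι) :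
    i ∈ jmp v ↔ bv (v i) ∉ Submodule.span ℚ {u | ∃ i' < i, u = bv (v i')} := by
  simp [jmp]

theorem linIndepOn (v : ι → Fin k → Bool) (s : Finset ι) (hs : s ⊆ jmp v) :
    LinearIndepOn ℚ (fun i => bv (v i)) (s : Set ι) := by
  induction s using Finset.induction_on_max with
  | empty => simp
  | insert a s hlt ih =>
    rw [Finset.coe_insert]
    refine LinearIndepOn.insert (ih fun x hx => hs (Finset.mem_insert_of_mem hx)) ?_
    intro hmem
    refine (mem_jmp v a).1 (hs (Finset.mem_insert_self a s)) ?_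
    refine Submodule.span_mono ?_ hmem
    rintro _ ⟨i, hi, rfl⟩
    exact ⟨i, hlt i (Finset.mem_coe.1 hi), rfl⟩

theorem mem_span_jmp (v : ι → Fin k → Bool) (i : ι) :
    bv (v i) ∈ Submodule.span ℚ {u | ∃ j ∈ jmp v, j ≤ i ∧ u = bv (v j)} := by
  induction i using WellFoundedLT.induction with
  | ind i ih =>
    by_cases hi : i ∈ jmp v
    · exact Submodule.subset_span ⟨i, hi, le_rfl, rfl⟩
    · rw [mem_jmp, not_not] at hi
      refine (Submodule.span_le.2 ?_) hi
      rintro _ ⟨i', hi', rfl⟩
      refine Submodule.span_mono ?_ (ih i' hi')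
      rintro _ ⟨j, hj, hj2, rfl⟩
      exact ⟨j, hj, hj2.trans hi'.le, rfl⟩

theorem span_lt (v : ι → Fin k → Bool) (i : ι) :
    Submodule.span ℚ {u | ∃ i' < i, u = bv (v i')} =
      Submodule.span ℚ {u | ∃ j ∈ (jmp v).filter (· < i), u = bv (v j)} := by
  apply le_antisymm
  · refine Submodule.span_le.2 ?_
    rintro _ ⟨i', hi', rfl⟩
    refine Submodule.span_mono ?_ (mem_span_jmp v i')
    rintro _ ⟨j, hj, hj2, rfl⟩
    exact ⟨j, Finset.mem_filter.2 ⟨hj, hj2.trans_lt hi'⟩, rfl⟩
  · refine Submodule.span_mono ?_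
    rintro _ ⟨j, hj, rfl⟩
    exact ⟨j, (Finset.mem_filter.1 hj).2, rfl⟩

theorem finrank_span (v : ι → Fin k → Bool) (i : ι) :
    Module.finrank ℚ (Submodule.span ℚ {u | ∃ i' < i, u = bv (v i')}) =
      ((jmp v).filter (· < i)).card := by
  have hset : {u | ∃ j ∈ (jmp v).filter (· < i), u = bv (v j)} =
      Set.range (fun x : (((jmp v).filter (· < i) : Finset ι) : Set ι) => bv (v x)) := by
    ext u
    simp only [Set.mem_range, Subtype.exists]
    constructor
    · rintro ⟨j, hj, rfl⟩
      exact ⟨j, hj, rfl⟩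
    · rintro ⟨j, hj, rfl⟩
      exact ⟨j, hj, rfl⟩
  rw [span_lt, hset]
  have h1 := linIndepOn v ((jmp v).filter (· < i)) (Finset.filter_subset _ _)
  have h2 := finrank_span_eq_card h1
  rw [show Fintype.card (((jmp v).filter (· < i) : Finset ι) : Set ι) =
    ((jmp v).filter (· < i)).card from Fintype.card_coe _] at h2
  exact h2

/-- all the vectors lie in the span of the vectors before an index beyond the jumps -/
theorem mem_span_of_forall (v : ι → Fin k → Bool) (i : ι) (hi : ∀ j ∈ jmp v, j < i) (i' : ι) :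
    bv (v i') ∈ Submodule.span ℚ {u | ∃ i' < i, u = bv (v i')} := by
  refine Submodule.span_mono ?_ (mem_span_jmp v i')
  rintro _ ⟨j, hj, -, rfl⟩
  exact ⟨j, hi j hj, rfl⟩

omit [Fintype ι] in
theorem span_congr {v w : ι → Fin k → Bool} {i : ι} (h : ∀ i' < i, w i' = v i') :
    Submodule.span ℚ {u | ∃ i' < i, u = bv (w i')} =
      Submodule.span ℚ {u | ∃ i' < i, u = bv (v i')} := by
  congr 1
  ext u
  constructor
  · rintro ⟨i', hi', rfl⟩
    exact ⟨i', hi', by rw [h i' hi']⟩
  · rintro ⟨i', hi', rfl⟩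
    exact ⟨i', hi', by rw [h i' hi']⟩

theorem prod_eq (J : Finset ι) :
    ∏ i : ι, (2 : ℝ) ^ (J.filter (· < i)).card =
      ∏ j ∈ J, (2 : ℝ) ^ (univ.filter fun i : ι => j < i).card := by
  rw [Finset.prod_pow_eq_pow_sum, Finset.prod_pow_eq_pow_sum]
  congr 1
  simp only [Finset.card_filter]
  rw [Finset.sum_comm]

/-- the general count -/
theorem count_gen (J B : Finset ι) (hB : ∀ i ∈ B, ∀ j ∈ J, j < i) (hJ : J.card ≤ k)
    (R : (ι → Fin k → Bool) → Prop) [DecidablePred R] (hR : ∀ v, R v → jmp v = J)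
    (hS : ∀ i ∈ B, ∀ v, R v → ∃ S : Finset (Fin k → Bool), S.card + 1 ≤ 2 ^ J.card ∧
      ∀ w, R w → (∀ i' < i, w i' = v i') → w i ∈ S) :
    ((univ.filter R).card : ℝ) ≤
      2 ^ (k * J.card) * (∏ j ∈ J, (2 : ℝ) ^ (univ.filter fun i : ι => j < i).card) *
        (1 - (1 / 2) ^ k) ^ B.card := by
  classical
  set c : ι → ℕ := fun i => if i ∈ J then 2 ^ k else if i ∈ B then 2 ^ J.card - 1 else
    2 ^ (J.filter (· < i)).card with hc
  have h1 : (univ.filter R).card ≤ ∏ i, c i := by
    refine count_le R c fun i v hv => ?_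
    by_cases hi : i ∈ J
    · refine ⟨univ, ?_, fun w _ _ => Finset.mem_univ _⟩
      simp only [hc, if_pos hi]
      simp
    · by_cases hiB : i ∈ B
      · obtain ⟨S, hS1, hS2⟩ := hS i hiB v hv
        refine ⟨S, ?_, hS2⟩
        simp only [hc, if_neg hi, if_pos hiB]
        omega
      · refine ⟨univ.filter fun b : Fin k → Bool =>
          bv b ∈ Submodule.span ℚ {u | ∃ i' < i, u = bv (v i')}, ?_, ?_⟩
        · simp only [hc, if_neg hi, if_neg hiB]
          refine (card_bool_le _).trans ?_
          rw [finrank_span, hR v hv]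
        · intro w hw hwv
          rw [Finset.mem_filter]
          refine ⟨Finset.mem_univ _, ?_⟩
          rw [← hR w hw, mem_jmp, not_not, span_congr hwv] at hi
          exact hi
  have h2 : ((univ.filter R).card : ℝ) ≤ ∏ i, (c i : ℝ) := by exact_mod_cast h1
  have hq0 : (0 : ℝ) ≤ 1 - (1 / 2) ^ k := by
    have : ((1 : ℝ) / 2) ^ k ≤ 1 := pow_le_one₀ (by norm_num) (by norm_num)
    linarith
  have h3 : ∏ i, (c i : ℝ) ≤ ∏ i, ((if i ∈ J then (2 : ℝ) ^ k else 1) *
      2 ^ (J.filter (· < i)).card * (if i ∈ B then (1 - (1 / 2) ^ k) else 1)) := by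
    refine Finset.prod_le_prod (fun i _ => Nat.cast_nonneg _) fun i _ => ?_
    by_cases hi : i ∈ J
    · have hiB : i ∉ B := fun h => lt_irrefl i (hB i h i hi)
      simp only [hc, if_pos hi, if_neg hiB, mul_one, Nat.cast_pow, Nat.cast_ofNat]
      exact le_mul_of_one_le_right (by positivity) (one_le_pow₀ (by norm_num))
    · by_cases hiB : i ∈ B
      · have hf : J.filter (· < i) = J := Finset.filter_true_of_mem fun j hj => hB i hiB j hj
        simp only [hc, if_neg hi, if_pos hiB, one_mul, hf]
        have h4 : (1 : ℕ) ≤ 2 ^ J.card := Nat.one_le_two_pow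
        rw [Nat.cast_sub h4]
        push_cast
        have h5 : (2 : ℝ) ^ J.card * (1 / 2) ^ k ≤ 1 := by
          rw [one_div, inv_pow, ← div_eq_mul_inv, div_le_one (by positivity)]
          exact pow_le_pow_right₀ (by norm_num) hJ
        nlinarith
      · simp only [hc, if_neg hi, if_neg hiB, one_mul, mul_one, Nat.cast_pow, Nat.cast_ofNat]
        exact le_rfl
  refine h2.trans (h3.trans (le_of_eq ?_))
  rw [Finset.prod_mul_distrib, Finset.prod_mul_distrib, prod_eq, Finset.prod_ite_mem,
    Finset.prod_ite_mem, Finset.univ_inter, Finset.univ_inter, Finset.prod_const,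
    Finset.prod_const, ← pow_mul]

end JumpC

theorem jmp_linInd {ι : Type} [Fintype ι] [LinearOrder ι] {k : ℕ} (v : ι → Fin k → Bool) :
    LinearIndependent ℚ (fun j : jmp v => bv (v j)) :=
  JumpC.linIndepOn v (jmp v) subset_rfl

theorem jmp_card_le {ι : Type} [Fintype ι] [LinearOrder ι] {k : ℕ} (v : ι → Fin k → Bool) :
    (jmp v).card ≤ k := by
  have h := (jmp_linInd v).fintype_card_le_finrank
  rw [Fintype.card_coe, Module.finrank_fin_fun] at h
  exact h

theorem jmp_count {ι : Type} [Fintype ι] [LinearOrder ι] {k : ℕ} (J : Finset ι) :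
    (univ.filter fun v : ι → Fin k → Bool => jmp v = J).card ≤
      2 ^ (k * J.card) * ∏ j ∈ J, 2 ^ (univ.filter fun i : ι => j < i).card := by
  by_cases hJ : J.card ≤ k
  · have h := JumpC.count_gen (k := k) J ∅ (by simp) hJ (fun v => jmp v = J) (fun v hv => hv)
      (by simp)
    rw [Finset.card_empty, pow_zero, mul_one] at h
    exact_mod_cast h
  · have h : (univ.filter fun v : ι → Fin k → Bool => jmp v = J) = ∅ := by
      refine Finset.filter_false_of_mem fun v _ hv => hJ ?_
      rw [← hv]
      exact jmp_card_le v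
    rw [h, Finset.card_empty]
    exact Nat.zero_le _

open Classical in
theorem jmp_count_exc {ι : Type} [Fintype ι] [LinearOrder ι] {k : ℕ} (J B : Finset ι)
    (hB : ∀ i ∈ B, ∀ j ∈ J, j < i) :
    ((univ.filter fun v : ι → Fin k → Bool => jmp v = J ∧ Dist v ∧ ¬ Priv v B).card : ℝ) ≤
      2 ^ (k * J.card) * (∏ j ∈ J, (2 : ℝ) ^ (univ.filter fun i : ι => j < i).card) *
        (k * (1 - (1 / 2) ^ k) ^ B.card) := by
  have hq0 : (0 : ℝ) ≤ 1 - (1 / 2) ^ k := by
    have : ((1 : ℝ) / 2) ^ k ≤ 1 := pow_le_one₀ (by norm_num) (by norm_num)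
    linarith
  have hrhs : 0 ≤ 2 ^ (k * J.card) *
      (∏ j ∈ J, (2 : ℝ) ^ (univ.filter fun i : ι => j < i).card) *
        (k * (1 - (1 / 2) ^ k) ^ B.card) := by positivity
  rcases Nat.eq_zero_or_pos k with hk | hk
  · subst hk
    have h : (univ.filter fun v : ι → Fin 0 → Bool => jmp v = J ∧ Dist v ∧ ¬ Priv v B) = ∅ := by
      refine Finset.filter_false_of_mem fun v _ hv => hv.2.2 fun a => a.elim0
    rw [h, Finset.card_empty]
    exact_mod_cast hrhs
  have hk1 : (1 : ℝ) ≤ k := by exact_mod_cast hk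
  rcases lt_trichotomy J.card k with hJ | hJ | hJ
  · have h := JumpC.count_gen (k := k) J B hB hJ.le
      (fun v => jmp v = J ∧ Dist v ∧ ¬ Priv v B) (fun v hv => hv.1) (by
      intro i hi v hv
      have hlast : ∀ j ∈ jmp v, j < i := fun j hj => hB i hi j (hv.1 ▸ hj)
      have hfr : Module.finrank ℚ (Submodule.span ℚ {u | ∃ i' < i, u = bv (v i')}) = J.card := by
        rw [JumpC.finrank_span, Finset.filter_true_of_mem hlast, hv.1]
      have hc := card_bool_lt (Submodule.span ℚ {u | ∃ i' < i, u = bv (v i')})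
        (by rw [hfr]; exact hJ)
        (fun a => by
          obtain ⟨i', hi'⟩ := hv.2.1.1 a
          exact ⟨v i', JumpC.mem_span_of_forall v i hlast i', hi'⟩)
        (fun a a' haa => by
          obtain ⟨i', hi'⟩ := hv.2.1.2 a a' haa
          exact ⟨v i', JumpC.mem_span_of_forall v i hlast i', hi'⟩)
      rw [hfr] at hc
      refine ⟨_, hc, ?_⟩
      intro w hw hwv
      rw [Finset.mem_filter]
      refine ⟨Finset.mem_univ _, ?_⟩
      have hiJ : i ∉ J := fun h => lt_irrefl i (hB i hi i h)
      rw [← hw.1, JumpC.mem_jmp, not_not, JumpC.span_congr hwv] at hiJ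
      exact hiJ)
    refine h.trans ?_
    refine mul_le_mul_of_nonneg_left ?_ (by positivity)
    exact le_mul_of_one_le_left (by positivity) hk1
  · have hun : (univ.filter fun v : ι → Fin k → Bool => jmp v = J ∧ Dist v ∧ ¬ Priv v B) ⊆
        (univ : Finset (Fin k)).biUnion fun a => univ.filter fun v : ι → Fin k → Bool =>
          jmp v = J ∧ ∀ i ∈ B, ¬ ∀ b, v i b = true ↔ b = a := by
      intro v hv
      rw [Finset.mem_filter] at hv
      obtain ⟨-, h1, -, h3⟩ := hv
      unfold Priv at h3
      push Not at h3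
      obtain ⟨a, ha⟩ := h3
      rw [Finset.mem_biUnion]
      refine ⟨a, Finset.mem_univ _, ?_⟩
      rw [Finset.mem_filter]
      refine ⟨Finset.mem_univ _, h1, fun i hi hcon => ?_⟩
      obtain ⟨b, hb⟩ := ha i hi
      have := hcon b
      tauto
    have hone : ∀ a : Fin k, (((univ.filter fun v : ι → Fin k → Bool =>
          jmp v = J ∧ ∀ i ∈ B, ¬ ∀ b, v i b = true ↔ b = a)).card : ℝ) ≤
        2 ^ (k * J.card) * (∏ j ∈ J, (2 : ℝ) ^ (univ.filter fun i : ι => j < i).card) *
        (1 - (1 / 2) ^ k) ^ B.card := by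
      intro a
      refine JumpC.count_gen (k := k) J B hB hJ.le _ (fun v hv => hv.1) ?_
      intro i hi v hv
      refine ⟨univ.erase (fun b => decide (b = a)), ?_, ?_⟩
      · rw [Finset.card_erase_of_mem (Finset.mem_univ _), Finset.card_univ, hJ]
        have h4 : Fintype.card (Fin k → Bool) = 2 ^ k := by simp
        rw [h4]
        have h5 : (1 : ℕ) ≤ 2 ^ k := Nat.one_le_two_pow
        omega
      · intro w hw _
        rw [Finset.mem_erase]
        refine ⟨fun hcon => hw.2 i hi fun b => ?_, Finset.mem_univ _⟩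
        rw [hcon]
        exact decide_eq_true_iff
    have h6 : ((univ.filter fun v : ι → Fin k → Bool =>
        jmp v = J ∧ Dist v ∧ ¬ Priv v B).card : ℝ) ≤
        ∑ a : Fin k, (((univ.filter fun v : ι → Fin k → Bool =>
          jmp v = J ∧ ∀ i ∈ B, ¬ ∀ b, v i b = true ↔ b = a)).card : ℝ) := by
      have := (Finset.card_le_card hun).trans Finset.card_biUnion_le
      exact_mod_cast this
    refine h6.trans ((Finset.sum_le_sum fun a _ => hone a).trans (le_of_eq ?_))
    rw [Finset.sum_const, Finset.card_univ, Fintype.card_fin, nsmul_eq_mul]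
    ring
  · have h : (univ.filter fun v : ι → Fin k → Bool => jmp v = J ∧ Dist v ∧ ¬ Priv v B) = ∅ := by
      refine Finset.filter_false_of_mem fun v _ hv => ?_
      have h1 := jmp_card_le v
      rw [hv.1] at h1
      omega
    rw [h, Finset.card_empty]
    exact_mod_cast hrhs

end Pool.Agent.EN
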