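import Mathlib
import Pool.Agent.Lib.MP_ec0ede_nt_EN.Defs2
import Pool.Agent.Lib.MP_ec0ede_nt_EN.ExB

set_option autoImplicit false

/-!
# MP_ec0ede_nt, project EN: several pivots
-/

noncomputable section

namespace Pool.Agent.EN

open Real Filter Topology Finset

namespace PivP

/-- the columns of a matrix of zeros and ones with independent rows: `r` of them span -/
lemma exists_cols {k r : ℕ} (V : Fin r → Fin k → Bool)
    (hV : LinearIndependent ℚ (fun i => bv (V i))) :
    ∃ (c : Fin r → Fin k) (w : Fin r → Fin r → ℝ), ∀ j j' : Fin r,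
      ∑ i, w j i * (if V j' (c i) = true then 1 else 0) = if j = j' then 1 else 0 := by
  classical
  set M : Matrix (Fin r) (Fin k) ℚ := Matrix.of (fun i a => bv (V i) a) with hM
  have hrk : M.rank = r := by
    have h1 : LinearIndependent ℚ M.row := by
      have h0 : M.row = fun i => bv (V i) := by
        ext i a; simp [hM]
      rw [h0]; exact hV
    simpa using h1.rank_matrix
  have h2 : Module.finrank ℚ (Submodule.span ℚ (Set.range M.col)) = r := by
    rw [← Matrix.rank_eq_finrank_span_cols]; exact hrk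
  have h3 : Submodule.span ℚ (Set.range M.col) = ⊤ := by
    apply Submodule.eq_top_of_finrank_eq
    rw [h2]; simp
  obtain ⟨f, hf1, hf2⟩ : ∃ f : Fin r → (Fin r → ℚ), (∀ i, f i ∈ Set.range M.col) ∧
      Submodule.span ℚ (Set.range f) = Submodule.span ℚ (Set.range M.col) := by
    obtain ⟨f, hf1, hf2, -⟩ := Submodule.exists_fun_fin_finrank_span_eq ℚ (Set.range M.col)
    refine ⟨fun i => f (Fin.cast h2.symm i), fun i => hf1 _, ?_⟩
    refine Eq.trans ?_ hf2
    congr 1
    ext x
    constructor
    · rintro ⟨i, rfl⟩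
      exact ⟨_, rfl⟩
    · rintro ⟨i, rfl⟩
      exact ⟨Fin.cast h2 i, by simp⟩
  choose c hc using hf1
  have h4 : ∀ j : Fin r, ∃ w : Fin r → ℚ, ∑ i, w i • f i = Pi.single j 1 := by
    intro j
    have h5 : (Pi.single j 1 : Fin r → ℚ) ∈ Submodule.span ℚ (Set.range f) := by
      rw [hf2, h3]; trivial
    exact (Submodule.mem_span_range_iff_exists_fun ℚ).1 h5
  choose w hw using h4
  refine ⟨c, fun j i => (w j i : ℝ), fun j j' => ?_⟩
  have h6 := congrFun (hw j) j'
  simp only [Finset.sum_apply, Pi.smul_apply, smul_eq_mul] at h6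
  have h7 : ∀ i, f i j' = if V j' (c i) = true then 1 else 0 := by
    intro i
    rw [← hc i]
    simp [hM, bv, Matrix.col]
  simp only [h7] at h6
  have h8 : ((∑ i, w j i * (if V j' (c i) = true then 1 else 0) : ℚ) : ℝ) =
      ((Pi.single j (1 : ℚ) : Fin r → ℚ) j' : ℝ) := by rw [h6]
  rw [Rat.cast_sum] at h8
  calc ∑ i, (w j i : ℝ) * (if V j' (c i) = true then 1 else 0)
      = ∑ i, ((w j i * (if V j' (c i) = true then 1 else 0) : ℚ) : ℝ) := by
        apply Finset.sum_congr rfl
        intro i _
        split_ifs <;> simp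
    _ = _ := h8
    _ = _ := by
        by_cases hj : j = j'
        · subst hj; simp
        · simp [hj, Ne.symm hj]

/-- the same with a bound for the coefficients which depends only on `k` and `r` -/
lemma exists_cols_bdd (k r : ℕ) : ∃ C : ℝ, 0 ≤ C ∧ ∀ V : Fin r → Fin k → Bool,
    LinearIndependent ℚ (fun i => bv (V i)) →
    ∃ (c : Fin r → Fin k) (w : Fin r → Fin r → ℝ), (∀ j j' : Fin r,
      ∑ i, w j i * (if V j' (c i) = true then 1 else 0) = if j = j' then 1 else 0) ∧
      ∀ j, ∑ i, |w j i| ≤ C := by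
  classical
  have h1 : ∀ V : Fin r → Fin k → Bool, ∃ w : Fin r → Fin r → ℝ,
      LinearIndependent ℚ (fun i => bv (V i)) → ∃ (c : Fin r → Fin k), ∀ j j' : Fin r,
      ∑ i, w j i * (if V j' (c i) = true then 1 else 0) = if j = j' then 1 else 0 := by
    intro V
    by_cases h : LinearIndependent ℚ (fun i => bv (V i))
    · obtain ⟨c, w, hw⟩ := exists_cols V h
      exact ⟨w, fun _ => ⟨c, hw⟩⟩
    · exact ⟨fun _ _ => 0, fun h' => absurd h' h⟩
  choose w hw using h1
  refine ⟨∑ V : Fin r → Fin k → Bool, ∑ j, ∑ i, |w V j i|,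
    Finset.sum_nonneg fun V _ => Finset.sum_nonneg fun j _ => Finset.sum_nonneg fun i _ =>
      abs_nonneg _, ?_⟩
  intro V hV
  obtain ⟨c, hc⟩ := hw V hV
  refine ⟨c, w V, hc, fun j => ?_⟩
  calc ∑ i, |w V j i| ≤ ∑ j, ∑ i, |w V j i| :=
        Finset.single_le_sum (f := fun j => ∑ i, |w V j i|)
          (fun j _ => Finset.sum_nonneg fun i _ => abs_nonneg _) (Finset.mem_univ j)
    _ ≤ _ := Finset.single_le_sum (f := fun V => ∑ j, ∑ i, |w V j i|)
          (fun V _ => Finset.sum_nonneg fun j _ => Finset.sum_nonneg fun i _ => abs_nonneg _)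
          (Finset.mem_univ V)

/-- the coefficients in terms of a finite set of indices -/
lemma exists_weights (k : ℕ) : ∃ C : ℝ, 1 ≤ C ∧ ∀ (ι : Type) [DecidableEq ι] (v : ι → Fin k → Bool)
    (J : Finset ι), LinearIndependent ℚ (fun j : J => bv (v j)) →
    ∃ (c : J → Fin k) (w : J → J → ℝ), (∀ j j' : J,
      ∑ i, w j i * (if v j' (c i) = true then 1 else 0) = if (j : ι) = j' then 1 else 0) ∧
      ∀ j, ∑ i, |w j i| ≤ C := by
  classical
  choose C hC0 hC using exists_cols_bdd k
  refine ⟨1 + ∑ r ∈ range (k + 1), C r, ?_, ?_⟩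
  · have := Finset.sum_nonneg (s := range (k + 1)) (fun r _ => hC0 r)
    linarith
  intro ι _ v J hJ
  have hr : J.card ≤ k := by
    have := hJ.fintype_card_le_finrank
    simpa using this
  set e : J ≃ Fin J.card := J.equivFin with he
  have h1 : LinearIndependent ℚ (fun i : Fin J.card => bv (v (e.symm i))) := by
    exact hJ.comp e.symm e.symm.injective
  obtain ⟨c, w, hw1, hw2⟩ := hC J.card (fun i => v (e.symm i)) h1
  refine ⟨fun j => c (e j), fun j i => w (e j) (e i), ?_, ?_⟩
  · intro j j'
    have h2 := hw1 (e j) (e j')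
    rw [← Equiv.sum_comp e] at h2
    simp only [Equiv.symm_apply_apply] at h2
    rw [h2]
    by_cases h3 : j = j'
    · rw [if_pos (by rw [h3]), if_pos (by rw [h3])]
    · rw [if_neg (fun h => h3 (e.injective h)), if_neg (fun h => h3 (Subtype.ext h))]
  · intro j
    rw [Equiv.sum_comp e (fun i => |w (e j) i|)]
    refine (hw2 (e j)).trans ?_
    have h3 := Finset.single_le_sum (f := C) (fun r _ => hC0 r)
      (Finset.mem_range.2 (Nat.lt_succ_of_le hr))
    linarith

section

variable {ι : Type} [Fintype ι] [DecidableEq ι]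

/-- the probability that the pivots solve given inequalities -/
lemma prob_fixed {k : ℕ} {C : ℝ} (hC : 1 ≤ C) (P : Finset ℕ) (m : ι → ℕ → ℝ) (lev : ι → ℕ)
    (D : ℝ) (hD : 1 ≤ D) (hL : Laws P m lev D) (v : ι → Fin k → Bool) (J : Finset ι)
    (c : J → Fin k) (w : J → J → ℝ) (hw1 : ∀ j j' : J,
      ∑ i, w j i * (if v j' (c i) = true then 1 else 0) = if (j : ι) = j' then 1 else 0)
    (hw2 : ∀ j, ∑ i, |w j i| ≤ C) (K q : J → ℝ) :
    Ex P m (fun σ => ind (∀ i : J,
      q i ≤ K i - ∑ j ∈ J, (if v j (c i) = true then Real.log (σ j) else 0) ∧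
      K i - ∑ j ∈ J, (if v j (c i) = true then Real.log (σ j) else 0) ≤ q i + 1)) ≤
      ∏ j ∈ J, (2 * C * D / 2 ^ lev j) := by
  classical
  have hnn : 0 ≤ ∏ j ∈ J, (2 * C * D / 2 ^ lev j) := by
    apply Finset.prod_nonneg
    intro j _
    positivity
  set R : (ι → ℕ) → Prop := fun σ => ∀ i : J,
      q i ≤ K i - ∑ j ∈ J, (if v j (c i) = true then Real.log (σ j) else 0) ∧
      K i - ∑ j ∈ J, (if v j (c i) = true then Real.log (σ j) else 0) ≤ q i + 1 with hR
  by_cases hex : ∃ σ0, R σ0
  · obtain ⟨σ0, h0⟩ := hex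
    have key : ∀ σ, R σ → ∀ j ∈ J, |Real.log (σ j) - Real.log (σ0 j)| ≤ C := by
      intro σ hσ j hj
      have h1 : ∀ i : J, ∑ j ∈ J, (if v j (c i) = true then 1 else 0) *
          (Real.log (σ j) - Real.log (σ0 j)) =
          (K i - ∑ j ∈ J, (if v j (c i) = true then Real.log (σ0 j) else 0)) -
          (K i - ∑ j ∈ J, (if v j (c i) = true then Real.log (σ j) else 0)) := by
        intro i
        rw [sub_sub_sub_cancel_left, ← Finset.sum_sub_distrib]
        apply Finset.sum_congr rfl
        intro j _
        split_ifs <;> ring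
      have h2 : ∀ i : J, |∑ j ∈ J, (if v j (c i) = true then 1 else 0) *
          (Real.log (σ j) - Real.log (σ0 j))| ≤ 1 := by
        intro i
        rw [h1 i, abs_le]
        have := hσ i
        have := h0 i
        constructor <;> linarith
      have h3 : ∑ i : J, w ⟨j, hj⟩ i * (∑ j ∈ J, (if v j (c i) = true then 1 else 0) *
          (Real.log (σ j) - Real.log (σ0 j))) = Real.log (σ j) - Real.log (σ0 j) := by
        calc ∑ i : J, w ⟨j, hj⟩ i * (∑ j ∈ J, (if v j (c i) = true then 1 else 0) *
              (Real.log (σ j) - Real.log (σ0 j)))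
            = ∑ i : J, w ⟨j, hj⟩ i * (∑ j' : J, (if v j' (c i) = true then 1 else 0) *
              (Real.log (σ j') - Real.log (σ0 j'))) := by
              apply Finset.sum_congr rfl
              intro i _
              rw [← Finset.sum_coe_sort J (fun j => (if v j (c i) = true then (1 : ℝ) else 0) *
                (Real.log (σ j) - Real.log (σ0 j)))]
          _ = ∑ j' : J, (∑ i : J, w ⟨j, hj⟩ i * (if v j' (c i) = true then 1 else 0)) *
              (Real.log (σ j') - Real.log (σ0 j')) := by
              simp only [Finset.mul_sum, Finset.sum_mul]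
              rw [Finset.sum_comm]
              apply Finset.sum_congr rfl
              intro i _
              apply Finset.sum_congr rfl
              intro j' _
              ring
          _ = ∑ j' : J, (if j = (j' : ι) then 1 else 0) *
              (Real.log (σ j') - Real.log (σ0 j')) := by
              apply Finset.sum_congr rfl
              intro j' _
              rw [hw1 ⟨j, hj⟩ j']
          _ = _ := by
              rw [Finset.sum_coe_sort J (fun j' => (if j = j' then (1 : ℝ) else 0) *
                (Real.log (σ j') - Real.log (σ0 j')))]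
              simp [hj]
      rw [← h3]
      calc |∑ i : J, w ⟨j, hj⟩ i * (∑ j ∈ J, (if v j (c i) = true then 1 else 0) *
              (Real.log (σ j) - Real.log (σ0 j)))|
          ≤ ∑ i : J, |w ⟨j, hj⟩ i * (∑ j ∈ J, (if v j (c i) = true then 1 else 0) *
              (Real.log (σ j) - Real.log (σ0 j)))| := Finset.abs_sum_le_sum_abs _ _
        _ ≤ ∑ i : J, |w ⟨j, hj⟩ i| := by
            apply Finset.sum_le_sum
            intro i _
            rw [abs_mul]
            exact mul_le_of_le_one_right (abs_nonneg _) (h2 i)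
        _ ≤ C := hw2 _
    set f : ι → ℕ → ℝ := fun j p => if j ∈ J then
      (if Real.log (σ0 j) - C ≤ Real.log p ∧ Real.log p ≤ (Real.log (σ0 j) - C) + 2 * C then 1
        else 0) else 1 with hf
    have hf0 : ∀ j p, 0 ≤ f j p := by
      intro j p
      simp only [hf]
      split_ifs <;> norm_num
    have h5 : Ex P m (fun σ => ind (R σ)) ≤ Ex P m (fun σ => ∏ j, f j (σ j)) := by
      apply Ex_mono P m hL.nonneg
      intro σ _
      by_cases hσ : R σ
      · rw [ind_of hσ]
        have : ∏ j, f j (σ j) = 1 := by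
          apply Finset.prod_eq_one
          intro j _
          simp only [hf]
          split_ifs with h6 h7
          · rfl
          · exfalso
            apply h7
            have := abs_le.1 (key σ hσ j h6)
            constructor <;> linarith
          · rfl
        rw [this]
      · rw [ind_not_of hσ]
        exact Finset.prod_nonneg fun j _ => hf0 j _
    refine h5.trans ?_
    rw [Ex_prod]
    rw [← Finset.prod_subset (Finset.subset_univ J)]
    · apply Finset.prod_le_prod
      · intro j _
        exact Finset.sum_nonneg fun p _ => mul_nonneg (hL.nonneg j p) (hf0 j p)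
      · intro j hj
        have h8 := hL.dens j (Real.log (σ0 j) - C) (2 * C) (by linarith)
        calc ∑ p ∈ P, m j p * f j p
            = ∑ p ∈ P.filter (fun p : ℕ => Real.log (σ0 j) - C ≤ Real.log p ∧
                Real.log p ≤ (Real.log (σ0 j) - C) + 2 * C), m j p := by
              rw [Finset.sum_filter]
              apply Finset.sum_congr rfl
              intro p _
              simp only [hf, if_pos hj]
              split_ifs <;> simp
          _ ≤ _ := h8
          _ = _ := by ring
    · intro j _ hj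
      have h9 : ∀ p, f j p = 1 := by
        intro p
        simp [hf, hj]
      simp only [h9, mul_one]
      exact hL.mass j
  · have h1 : ∀ σ, ind (R σ) = 0 := fun σ => ind_not_of fun h => hex ⟨σ, h⟩
    have h2 : Ex P m (fun σ => ind (R σ)) = 0 := by
      simp only [h1]
      simp [Ex]
    rw [h2]
    exact hnn

end

end PivP

theorem piv_prob (k : ℕ) : ∃ C : ℝ, 1 ≤ C ∧ ∀ (ι : Type) [Fintype ι] [DecidableEq ι]
    (P : Finset ℕ) (m : ι → ℕ → ℝ) (lev : ι → ℕ) (D : ℝ), 1 ≤ D → Laws P m lev D →
    ∀ (T : Set ℝ) (Z : Finset ℝ), (∀ t ∈ T, ∃ q ∈ Z, q ≤ t ∧ t ≤ q + 1) →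
    ∀ (y : ℝ) (v : ι → Fin k → Bool) (J : Finset ι),
    LinearIndependent ℚ (fun j : J => bv (v j)) →
    Ex P m (fun τ => ind (∀ a, y - sv τ v a ∈ T)) ≤ ∏ j ∈ J, (C * D * Z.card / 2 ^ lev j) := by
  classical
  obtain ⟨C, hC, hCw⟩ := PivP.exists_weights k
  refine ⟨2 * C, by linarith, ?_⟩
  intro ι _ _ P m lev D hD hL T Z hT y v J hJ
  obtain ⟨c, w, hw1, hw2⟩ := hCw ι v J hJ
  rw [Ex_pivots P m hL.mass J]
  have h1 : ∀ τ : ι → ℕ, Ex P m (fun σ => ind (∀ a, y - sv (fun i => if i ∈ J then σ i else τ i) v a
      ∈ T)) ≤ ∏ j ∈ J, (2 * C * D * Z.card / 2 ^ lev j) := by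
    intro τ
    set K : Fin k → ℝ := fun a => y - ∑ i ∈ Jᶜ, (if v i a = true then Real.log (τ i) else 0)
      with hK
    have hs : ∀ (σ : ι → ℕ) (a : Fin k), y - sv (fun i => if i ∈ J then σ i else τ i) v a =
        K a - ∑ j ∈ J, (if v j a = true then Real.log (σ j) else 0) := by
      intro σ a
      simp only [hK, sv]
      rw [← Finset.sum_add_sum_compl J]
      have e1 : ∑ i ∈ J, (if v i a = true then Real.log ((if i ∈ J then σ i else τ i : ℕ)) else 0)
          = ∑ j ∈ J, (if v j a = true then Real.log (σ j) else 0) := by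
        apply Finset.sum_congr rfl
        intro i hi
        simp [hi]
      have e2 : ∑ i ∈ Jᶜ, (if v i a = true then Real.log ((if i ∈ J then σ i else τ i : ℕ))
          else 0) = ∑ i ∈ Jᶜ, (if v i a = true then Real.log (τ i) else 0) := by
        apply Finset.sum_congr rfl
        intro i hi
        simp [Finset.mem_compl.1 hi]
      rw [e1, e2]
      ring
    have h2 : ∀ σ : ι → ℕ, ind (∀ a, y - sv (fun i => if i ∈ J then σ i else τ i) v a ∈ T) ≤
        ∑ q ∈ Fintype.piFinset (fun _ : J => Z), ind (∀ i : J,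
          q i ≤ K (c i) - ∑ j ∈ J, (if v j (c i) = true then Real.log (σ j) else 0) ∧
          K (c i) - ∑ j ∈ J, (if v j (c i) = true then Real.log (σ j) else 0) ≤ q i + 1) := by
      intro σ
      by_cases h : ∀ a, y - sv (fun i => if i ∈ J then σ i else τ i) v a ∈ T
      · have h3 : ∀ i : J, ∃ q ∈ Z,
            q ≤ K (c i) - ∑ j ∈ J, (if v j (c i) = true then Real.log (σ j) else 0) ∧
            K (c i) - ∑ j ∈ J, (if v j (c i) = true then Real.log (σ j) else 0) ≤ q + 1 := by
          intro i
          have := hT _ (h (c i))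
          rw [hs σ (c i)] at this
          exact this
        choose q hq1 hq2 using h3
        have h4 : q ∈ Fintype.piFinset (fun _ : J => Z) := Fintype.mem_piFinset.2 hq1
        rw [ind_of h]
        refine le_trans ?_ (Finset.single_le_sum (f := fun q : J → ℝ => ind (∀ i : J,
          q i ≤ K (c i) - ∑ j ∈ J, (if v j (c i) = true then Real.log (σ j) else 0) ∧
          K (c i) - ∑ j ∈ J, (if v j (c i) = true then Real.log (σ j) else 0) ≤ q i + 1))
          (fun q _ => ind_nonneg _) h4)
        exact le_of_eq (ind_of hq2).symm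
      · rw [ind_not_of h]
        exact Finset.sum_nonneg fun q _ => ind_nonneg _
    calc Ex P m (fun σ => ind (∀ a, y - sv (fun i => if i ∈ J then σ i else τ i) v a ∈ T))
        ≤ Ex P m (fun σ => ∑ q ∈ Fintype.piFinset (fun _ : J => Z), ind (∀ i : J,
          q i ≤ K (c i) - ∑ j ∈ J, (if v j (c i) = true then Real.log (σ j) else 0) ∧
          K (c i) - ∑ j ∈ J, (if v j (c i) = true then Real.log (σ j) else 0) ≤ q i + 1)) := by
          apply Ex_mono P m hL.nonneg
          intro σ _
          exact h2 σ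
      _ = ∑ q ∈ Fintype.piFinset (fun _ : J => Z), Ex P m (fun σ => ind (∀ i : J,
          q i ≤ K (c i) - ∑ j ∈ J, (if v j (c i) = true then Real.log (σ j) else 0) ∧
          K (c i) - ∑ j ∈ J, (if v j (c i) = true then Real.log (σ j) else 0) ≤ q i + 1)) :=
          Ex_fsum P m _ (fun (q : J → ℝ) (σ : ι → ℕ) => ind (∀ i : J,
          q i ≤ K (c i) - ∑ j ∈ J, (if v j (c i) = true then Real.log (σ j) else 0) ∧
          K (c i) - ∑ j ∈ J, (if v j (c i) = true then Real.log (σ j) else 0) ≤ q i + 1))
      _ ≤ ∑ q ∈ Fintype.piFinset (fun _ : J => Z), ∏ j ∈ J, (2 * C * D / 2 ^ lev j) := by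
          apply Finset.sum_le_sum
          intro q _
          exact PivP.prob_fixed hC P m lev D hD hL v J c w hw1 hw2 (fun i => K (c i)) q
      _ = ∏ j ∈ J, (2 * C * D * Z.card / 2 ^ lev j) := by
          rw [Finset.sum_const, Fintype.card_piFinset]
          simp only [Finset.prod_const, Finset.card_univ, Fintype.card_coe, nsmul_eq_mul,
            Nat.cast_pow]
          rw [← Finset.prod_const, ← Finset.prod_mul_distrib]
          apply Finset.prod_congr rfl
          intro j _
          ring
  calc Ex P m (fun τ => Ex P m (fun σ => ind (∀ a, y - sv (fun i => if i ∈ J then σ i else τ i) v a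
      ∈ T))) ≤ Ex P m (fun _ => ∏ j ∈ J, (2 * C * D * Z.card / 2 ^ lev j)) := by
        apply Ex_mono P m hL.nonneg
        intro τ _
        exact h1 τ
    _ = _ := Ex_const P m hL.mass _

end Pool.Agent.EN
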