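import Mathlib
import Pool.Agent.Lib.MP_ec0ede_nt_EN.Defs2
import Pool.Agent.Lib.MP_ec0ede_nt_EN.JumpC
import Pool.Agent.Lib.MP_ec0ede_nt_EN.PivP

set_option autoImplicit false

/-!
# MP_ec0ede_nt, project EN, module ExcS: the bounds for tuples of sets
-/

noncomputable section

namespace Pool.Agent.EN

open Real Filter Topology Finset

namespace ExcS

/-- removing one element of `A` from the sets that meet `A` -/
theorem sum_meet {ι : Type} [Fintype ι] [DecidableEq ι] (x : ι → ℝ) (hx : ∀ i, 0 ≤ x i)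
    (A : Finset ι) (k : ℕ) :
    ∑ J ∈ (univ : Finset (Finset ι)).filter (fun J => J.card ≤ k + 1 ∧ ∃ j ∈ J, j ∈ A),
      ∏ j ∈ J, x j ≤
      (∑ i ∈ A, x i) * ∑ J ∈ (univ : Finset (Finset ι)).filter (fun J => J.card ≤ k),
        ∏ j ∈ J, x j := by
  classical
  set s := (univ : Finset (Finset ι)).filter (fun J => J.card ≤ k + 1 ∧ ∃ j ∈ J, j ∈ A) with hs
  have hch : ∀ J : Finset ι, ∃ i : Option ι, J ∈ s → ∃ j, i = some j ∧ j ∈ J ∧ j ∈ A := by
    intro J
    by_cases hJ : J ∈ s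
    · rw [hs, mem_filter] at hJ
      obtain ⟨-, -, j, h1, h2⟩ := hJ
      exact ⟨some j, fun _ => ⟨j, rfl, h1, h2⟩⟩
    · exact ⟨none, fun h => absurd h hJ⟩
  choose c hc using hch
  let e : Finset ι → Option ι × Finset ι := fun J => (c J, match c J with
    | some j => J.erase j
    | none => J)
  have he : ∀ J ∈ s, ∃ j, e J = (some j, J.erase j) ∧ j ∈ J ∧ j ∈ A := by
    intro J hJ
    obtain ⟨j, h1, h2, h3⟩ := hc J hJ
    refine ⟨j, ?_, h2, h3⟩
    simp only [e, h1]
  let g : Option ι × Finset ι → ℝ := fun p => match p.1 with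
    | some i => x i * ∏ j ∈ p.2, x j
    | none => 0
  have h1 : ∑ J ∈ s, ∏ j ∈ J, x j = ∑ J ∈ s, g (e J) := by
    apply sum_congr rfl
    intro J hJ
    obtain ⟨j, h2, h3, -⟩ := he J hJ
    rw [h2]
    simp only [g]
    exact (Finset.mul_prod_erase J x h3).symm
  have hinj : Set.InjOn e s := by
    intro J hJ J' hJ' heq
    obtain ⟨j, h2, h3, -⟩ := he J hJ
    obtain ⟨j', h2', h3', -⟩ := he J' hJ'
    rw [h2, h2'] at heq
    have h4 : j = j' := Option.some_injective _ (congrArg Prod.fst heq)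
    have h5 : J.erase j = J'.erase j' := congrArg Prod.snd heq
    subst h4
    rw [← Finset.insert_erase h3, ← Finset.insert_erase h3', h5]
  rw [h1, ← sum_image (g := e) hinj]
  have hsub : s.image e ⊆ (A.image some) ×ˢ
      ((univ : Finset (Finset ι)).filter (fun J => J.card ≤ k)) := by
    intro p hp
    rw [mem_image] at hp
    obtain ⟨J, hJ, rfl⟩ := hp
    obtain ⟨j, h2, h3, h4⟩ := he J hJ
    rw [h2, mem_product, mem_image, mem_filter]
    refine ⟨⟨j, h4, rfl⟩, mem_univ _, ?_⟩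
    rw [hs, mem_filter] at hJ
    rw [card_erase_of_mem h3]
    omega
  refine (sum_le_sum_of_subset_of_nonneg hsub ?_).trans (le_of_eq ?_)
  · intro p _ _
    simp only [g]
    split
    · exact mul_nonneg (hx _) (prod_nonneg fun _ _ => hx _)
    · exact le_rfl
  · rw [sum_product, sum_image (fun a _ b _ h => Option.some_injective _ h), sum_mul]
    apply sum_congr rfl
    intro i _
    rw [mul_sum]

/-- the sum over the small sets -/
theorem sum_small {ι : Type} [Fintype ι] [DecidableEq ι] (x : ι → ℝ) (hx : ∀ i, 0 ≤ x i)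
    (k : ℕ) :
    ∑ J ∈ (univ : Finset (Finset ι)).filter (fun J => J.card ≤ k), ∏ j ∈ J, x j ≤
      (1 + ∑ i, x i) ^ k := by
  classical
  have hS : 0 ≤ ∑ i, x i := sum_nonneg fun i _ => hx i
  induction k with
  | zero =>
    have h1 : (univ : Finset (Finset ι)).filter (fun J => J.card ≤ 0) = {∅} := by
      ext J
      simp
    rw [h1, sum_singleton, prod_empty, pow_zero]
  | succ k ih =>
    have h1 : (univ : Finset (Finset ι)).filter (fun J => J.card ≤ k + 1) =
        insert ∅ ((univ : Finset (Finset ι)).filter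
          (fun J => J.card ≤ k + 1 ∧ ∃ j ∈ J, j ∈ (univ : Finset ι))) := by
      ext J
      simp only [mem_filter, mem_univ, true_and, mem_insert, and_true]
      constructor
      · intro h
        rcases J.eq_empty_or_nonempty with h0 | h0
        · exact Or.inl h0
        · exact Or.inr ⟨h, h0⟩
      · rintro (h | h)
        · rw [h]; simp
        · exact h.1
    rw [h1, sum_insert (by simp), prod_empty]
    have h2 := sum_meet x hx univ k
    have h3 : (1 : ℝ) ≤ (1 + ∑ i, x i) ^ k := one_le_pow₀ (by linarith)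
    have h4 : (∑ i, x i) * ∑ J ∈ (univ : Finset (Finset ι)).filter (fun J => J.card ≤ k),
        ∏ j ∈ J, x j ≤ (∑ i, x i) * (1 + ∑ i, x i) ^ k := mul_le_mul_of_nonneg_left ih hS
    rw [pow_succ]
    nlinarith

/-- the sum over the small sets that meet `A` -/
theorem sum_small_meet {ι : Type} [Fintype ι] [DecidableEq ι] (x : ι → ℝ) (hx : ∀ i, 0 ≤ x i)
    (A : Finset ι) (k : ℕ) :
    ∑ J ∈ (univ : Finset (Finset ι)).filter (fun J => J.card ≤ k ∧ ∃ j ∈ J, j ∈ A),
      ∏ j ∈ J, x j ≤ (1 + ∑ i, x i) ^ k * ∑ i ∈ A, x i := by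
  classical
  have hS : 0 ≤ ∑ i, x i := sum_nonneg fun i _ => hx i
  have hA : 0 ≤ ∑ i ∈ A, x i := sum_nonneg fun i _ => hx i
  cases k with
  | zero =>
    have h1 : (univ : Finset (Finset ι)).filter
        (fun J => J.card ≤ 0 ∧ ∃ j ∈ J, j ∈ A) = ∅ := by
      refine filter_false_of_mem fun J _ hJ => ?_
      obtain ⟨h1, j, h2, -⟩ := hJ
      rw [Nat.le_zero, card_eq_zero] at h1
      rw [h1] at h2
      simp at h2
    rw [h1, sum_empty, pow_zero, one_mul]
    exact hA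
  | succ k =>
    refine (sum_meet x hx A k).trans ?_
    rw [mul_comm]
    refine mul_le_mul_of_nonneg_right ?_ hA
    refine (sum_small x hx k).trans ?_
    exact pow_le_pow_right₀ (by linarith) (Nat.le_succ k)

open Classical in
/-- the jumps with respect to an order with decreasing levels -/
theorem exists_jp_aux (k : ℕ) (ι : Type) [Fintype ι] [LinearOrder ι] (lev : ι → ℕ)
    (hlev : ∀ i j : ι, i < j → lev j ≤ lev i) (hlev2 : ∀ i j : ι, lev j < lev i → i < j) :
    ∃ jp : (ι → Fin k → Bool) → Finset ι,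
      (∀ v, LinearIndependent ℚ (fun j : jp v => bv (v j))) ∧ (∀ v, (jp v).card ≤ k) ∧
      (∀ J, ((univ.filter fun v : ι → Fin k → Bool => jp v = J).card : ℝ) ≤
        2 ^ (k * J.card) * ∏ j ∈ J, (2 : ℝ) ^ nb lev j) ∧
      ∀ J B : Finset ι, (∀ i ∈ B, ∀ j ∈ J, lev i < lev j) →
        ((univ.filter fun v : ι → Fin k → Bool => jp v = J ∧ Dist v ∧ ¬ Priv v B).card : ℝ) ≤
          2 ^ (k * J.card) * (∏ j ∈ J, (2 : ℝ) ^ nb lev j) *
            (k * (1 - (1 / 2) ^ k) ^ B.card) := by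
  have hnb : ∀ j : ι, (univ.filter fun i : ι => j < i).card ≤ nb lev j := by
    intro j
    unfold nb
    apply card_le_card
    intro i hi
    rw [mem_filter] at hi ⊢
    exact ⟨hi.1, hlev j i hi.2⟩
  have hprod : ∀ J : Finset ι, ∏ j ∈ J, (2 : ℝ) ^ (univ.filter fun i : ι => j < i).card ≤
      ∏ j ∈ J, (2 : ℝ) ^ nb lev j := by
    intro J
    apply Finset.prod_le_prod
    · intro j _
      positivity
    · intro j _
      exact pow_le_pow_right₀ (by norm_num) (hnb j)
  refine ⟨fun v => jmp v, fun v => jmp_linInd v, fun v => jmp_card_le v, ?_, ?_⟩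
  · intro J
    have h1 : ((univ.filter fun v : ι → Fin k → Bool => jmp v = J).card : ℝ) ≤
        2 ^ (k * J.card) * ∏ j ∈ J, (2 : ℝ) ^ (univ.filter fun i : ι => j < i).card := by
      have h2 := jmp_count (k := k) J
      have h3 : (univ.filter fun v : ι → Fin k → Bool => jmp v = J).card ≤
        2 ^ (k * J.card) * ∏ j ∈ J, 2 ^ (univ.filter fun i : ι => j < i).card := by
        convert h2
      exact_mod_cast h3
    exact h1.trans (mul_le_mul_of_nonneg_left (hprod J) (by positivity))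
  · intro J B hB
    have h1 := jmp_count_exc (k := k) J B (fun i hi j hj => hlev2 j i (hB i hi j hj))
    have hq0 : (0 : ℝ) ≤ 1 - (1 / 2) ^ k := by
      have : ((1 : ℝ) / 2) ^ k ≤ 1 := pow_le_one₀ (by norm_num) (by norm_num)
      linarith
    have h2 : ((univ.filter fun v : ι → Fin k → Bool =>
        jmp v = J ∧ Dist v ∧ ¬ Priv v B).card : ℝ) ≤
        2 ^ (k * J.card) * (∏ j ∈ J, (2 : ℝ) ^ (univ.filter fun i : ι => j < i).card) *
          (k * (1 - (1 / 2) ^ k) ^ B.card) := by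
      convert h1
    refine h2.trans ?_
    apply mul_le_mul_of_nonneg_right _ (by positivity)
    exact mul_le_mul_of_nonneg_left (hprod J) (by positivity)

theorem exists_order (ι : Type) [Fintype ι] (lev : ι → ℕ) : ∃ _ : LinearOrder ι,
    (∀ i j : ι, i < j → lev j ≤ lev i) ∧ (∀ i j : ι, lev j < lev i → i < j) := by
  have hf : Function.Injective (fun i : ι =>
      (toLex (OrderDual.toDual (lev i), Fintype.equivFin ι i) :
        ℕᵒᵈ ×ₗ Fin (Fintype.card ι))) := by
    intro i j h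
    have h1 := congrArg (fun z => (ofLex z).2) h
    exact (Fintype.equivFin ι).injective h1
  refine ⟨LinearOrder.lift' _ hf, ?_, ?_⟩
  · intro i j h
    have h' : (toLex (OrderDual.toDual (lev i), Fintype.equivFin ι i) :
        ℕᵒᵈ ×ₗ Fin (Fintype.card ι)) < toLex (OrderDual.toDual (lev j), Fintype.equivFin ι j) := h
    rw [Prod.Lex.lt_iff] at h'
    rcases h' with h' | h'
    · exact (OrderDual.toDual_lt_toDual.mp h').le
    · exact (OrderDual.toDual_inj.mp h'.1).symm.le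
  · intro i j h
    have h' : (toLex (OrderDual.toDual (lev i), Fintype.equivFin ι i) :
        ℕᵒᵈ ×ₗ Fin (Fintype.card ι)) < toLex (OrderDual.toDual (lev j), Fintype.equivFin ι j) := by
      rw [Prod.Lex.lt_iff]
      left
      exact OrderDual.toDual_lt_toDual.mpr h
    exact h'

open Classical in
theorem exists_jp (k : ℕ) (ι : Type) [Fintype ι] [DecidableEq ι] (lev : ι → ℕ) :
    ∃ jp : (ι → Fin k → Bool) → Finset ι,
      (∀ v, LinearIndependent ℚ (fun j : jp v => bv (v j))) ∧ (∀ v, (jp v).card ≤ k) ∧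
      (∀ J, ((univ.filter fun v : ι → Fin k → Bool => jp v = J).card : ℝ) ≤
        2 ^ (k * J.card) * ∏ j ∈ J, (2 : ℝ) ^ nb lev j) ∧
      ∀ J B : Finset ι, (∀ i ∈ B, ∀ j ∈ J, lev i < lev j) →
        ((univ.filter fun v : ι → Fin k → Bool => jp v = J ∧ Dist v ∧ ¬ Priv v B).card : ℝ) ≤
          2 ^ (k * J.card) * (∏ j ∈ J, (2 : ℝ) ^ nb lev j) *
            (k * (1 - (1 / 2) ^ k) ^ B.card) := by
  obtain ⟨o, h1, h2⟩ := exists_order ι lev
  obtain ⟨jp, h3, h4, h5, h6⟩ := @exists_jp_aux k ι _ o lev h1 h2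
  refine ⟨jp, h3, h4, fun J => ?_, fun J B hB => ?_⟩
  · refine le_of_eq_of_le ?_ (h5 J)
    refine congrArg (fun s : Finset (ι → Fin k → Bool) => (s.card : ℝ)) ?_
    ext v
    simp only [mem_filter, mem_univ, true_and]
  · refine le_of_eq_of_le ?_ (h6 J B hB)
    refine congrArg (fun s : Finset (ι → Fin k → Bool) => (s.card : ℝ)) ?_
    ext v
    simp only [mem_filter, mem_univ, true_and]

/-- the product of the counting factor and of the probability factor -/
theorem prod_x {ι : Type} [Fintype ι] (k : ℕ) (lev : ι → ℕ) (K : ℝ) (J : Finset ι) :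
    (2 ^ (k * J.card) * ∏ j ∈ J, (2 : ℝ) ^ nb lev j) * ∏ j ∈ J, (K / 2 ^ lev j) =
      ∏ j ∈ J, (2 ^ k * K * th lev j) := by
  rw [pow_mul, ← prod_const, ← prod_mul_distrib, ← prod_mul_distrib]
  apply prod_congr rfl
  intro j _
  unfold th
  ring

end ExcS

theorem tup_bound (k : ℕ) : ∃ C : ℝ, 1 ≤ C ∧ ∀ (ι : Type) [Fintype ι] [DecidableEq ι]
    (P : Finset ℕ) (m : ι → ℕ → ℝ) (lev : ι → ℕ) (D : ℝ), 1 ≤ D → Laws P m lev D →
    ∀ (T : Set ℝ) (Z : Finset ℝ), (∀ t ∈ T, ∃ q ∈ Z, q ≤ t ∧ t ≤ q + 1) → ∀ y : ℝ,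
    ∑ v : ι → Fin k → Bool, Ex P m (fun τ => ind (∀ a, y - sv τ v a ∈ T)) ≤
      (1 + C * D * Z.card * ∑ i, th lev i) ^ k := by
  obtain ⟨C, hC1, hC⟩ := piv_prob k
  refine ⟨2 ^ k * C, ?_, ?_⟩
  · exact one_le_mul_of_one_le_of_one_le (one_le_pow₀ (by norm_num)) hC1
  intro ι _ _ P m lev D hD hL T Z hTZ y
  classical
  obtain ⟨jp, hj1, hj2, hj3, -⟩ := ExcS.exists_jp k ι lev
  have hK : 0 ≤ C * D * Z.card := by positivity
  have hx : ∀ i, 0 ≤ 2 ^ k * (C * D * Z.card) * th lev i := by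
    intro i
    unfold th
    positivity
  have h1 : ∀ v, Ex P m (fun τ => ind (∀ a, y - sv τ v a ∈ T)) ≤
      ∏ j ∈ jp v, (C * D * Z.card / 2 ^ lev j) := fun v =>
    hC ι P m lev D hD hL T Z hTZ y v (jp v) (hj1 v)
  have h2 : ∑ v : ι → Fin k → Bool, Ex P m (fun τ => ind (∀ a, y - sv τ v a ∈ T)) ≤
      ∑ v : ι → Fin k → Bool, ∏ j ∈ jp v, (C * D * Z.card / 2 ^ lev j) :=
    sum_le_sum fun v _ => h1 v
  refine h2.trans ?_
  rw [← sum_fiberwise_of_maps_to (s := (univ : Finset (ι → Fin k → Bool)))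
    (t := (univ : Finset (Finset ι)).filter (fun J => J.card ≤ k)) (g := jp)
    (fun v _ => by rw [mem_filter]; exact ⟨mem_univ _, hj2 v⟩)]
  have h3 : ∀ J ∈ (univ : Finset (Finset ι)).filter (fun J => J.card ≤ k),
      ∑ v ∈ univ.filter (fun v : ι → Fin k → Bool => jp v = J),
        ∏ j ∈ jp v, (C * D * Z.card / 2 ^ lev j) ≤
      ∏ j ∈ J, (2 ^ k * (C * D * Z.card) * th lev j) := by
    intro J _
    have h4 : ∑ v ∈ univ.filter (fun v : ι → Fin k → Bool => jp v = J),
        ∏ j ∈ jp v, (C * D * Z.card / 2 ^ lev j) =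
        ((univ.filter fun v : ι → Fin k → Bool => jp v = J).card : ℝ) *
          ∏ j ∈ J, (C * D * Z.card / 2 ^ lev j) := by
      rw [← nsmul_eq_mul, ← sum_const]
      apply sum_congr rfl
      intro v hv
      rw [mem_filter] at hv
      rw [hv.2]
    rw [h4, ← ExcS.prod_x]
    apply mul_le_mul_of_nonneg_right _ (prod_nonneg fun j _ => by positivity)
    convert hj3 J
  refine (sum_le_sum h3).trans ?_
  refine (ExcS.sum_small _ hx k).trans (le_of_eq ?_)
  rw [← mul_sum]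
  ring

open Classical in
theorem exc_bound (k : ℕ) : ∃ C : ℝ, 1 ≤ C ∧ ∀ (ι : Type) [Fintype ι] [DecidableEq ι]
    (P : Finset ℕ) (m : ι → ℕ → ℝ) (lev : ι → ℕ) (D : ℝ), 1 ≤ D → Laws P m lev D →
    ∀ (T : Set ℝ) (Z : Finset ℝ), (∀ t ∈ T, ∃ q ∈ Z, q ≤ t ∧ t ≤ q + 1) → ∀ (y : ℝ)
    (a0 : ℕ) (blk : Finset ι), (∀ i ∈ blk, lev i ≤ a0) →
    ∑ v ∈ univ.filter (fun v : ι → Fin k → Bool => Dist v ∧ ¬ Priv v blk),
      Ex P m (fun τ => ind (∀ a, y - sv τ v a ∈ T)) ≤
      (1 + C * D * Z.card * ∑ i, th lev i) ^ k *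
        (C * D * Z.card * ∑ i ∈ univ.filter (fun i : ι => lev i ≤ a0), th lev i +
          k * (1 - (1 / 2) ^ k) ^ blk.card) := by
  obtain ⟨C, hC1, hC⟩ := piv_prob k
  refine ⟨2 ^ k * C, ?_, ?_⟩
  · exact one_le_mul_of_one_le_of_one_le (one_le_pow₀ (by norm_num)) hC1
  intro ι _ _ P m lev D hD hL T Z hTZ y a0 blk hblk
  obtain ⟨jp, hj1, hj2, hj3, hj4⟩ := ExcS.exists_jp k ι lev
  have hK : 0 ≤ C * D * Z.card := by positivity
  have hq0 : (0 : ℝ) ≤ 1 - (1 / 2) ^ k := by
    have : ((1 : ℝ) / 2) ^ k ≤ 1 := pow_le_one₀ (by norm_num) (by norm_num)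
    linarith
  have hx : ∀ i, 0 ≤ 2 ^ k * (C * D * Z.card) * th lev i := by
    intro i
    unfold th
    positivity
  have hX : 0 ≤ ∑ i, 2 ^ k * (C * D * Z.card) * th lev i := sum_nonneg fun i _ => hx i
  set A : Finset ι := univ.filter (fun i : ι => lev i ≤ a0) with hA
  set R : (ι → Fin k → Bool) → Prop := fun v => Dist v ∧ ¬ Priv v blk with hR
  have h1 : ∀ v, Ex P m (fun τ => ind (∀ a, y - sv τ v a ∈ T)) ≤
      ∏ j ∈ jp v, (C * D * Z.card / 2 ^ lev j) := fun v =>
    hC ι P m lev D hD hL T Z hTZ y v (jp v) (hj1 v)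
  have h2 : ∑ v ∈ univ.filter R, Ex P m (fun τ => ind (∀ a, y - sv τ v a ∈ T)) ≤
      ∑ v ∈ univ.filter R, ∏ j ∈ jp v, (C * D * Z.card / 2 ^ lev j) :=
    sum_le_sum fun v _ => h1 v
  refine h2.trans ?_
  rw [← sum_fiberwise_of_maps_to (s := (univ.filter R : Finset (ι → Fin k → Bool)))
    (t := (univ : Finset (Finset ι)).filter (fun J => J.card ≤ k)) (g := jp)
    (fun v _ => by rw [mem_filter]; exact ⟨mem_univ _, hj2 v⟩)]
  have hfib : ∀ J : Finset ι, ∑ v ∈ (univ.filter R).filter (fun v => jp v = J),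
        ∏ j ∈ jp v, (C * D * Z.card / 2 ^ lev j) =
        ((univ.filter fun v : ι → Fin k → Bool => jp v = J ∧ Dist v ∧ ¬ Priv v blk).card : ℝ) *
          ∏ j ∈ J, (C * D * Z.card / 2 ^ lev j) := by
    intro J
    have h5 : (univ.filter R).filter (fun v => jp v = J) =
        univ.filter fun v : ι → Fin k → Bool => jp v = J ∧ Dist v ∧ ¬ Priv v blk := by
      ext v
      simp only [mem_filter, mem_univ, true_and, hR]
      tauto
    rw [h5, ← nsmul_eq_mul, ← sum_const]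
    apply sum_congr rfl
    intro v hv
    rw [mem_filter] at hv
    rw [hv.2.1]
  have hpos : ∀ J : Finset ι, 0 ≤ ∏ j ∈ J, (C * D * Z.card / 2 ^ lev j) := fun J =>
    prod_nonneg fun j _ => by positivity
  -- sets that meet the low levels
  have h3 : ∀ J : Finset ι, ∑ v ∈ (univ.filter R).filter (fun v => jp v = J),
        ∏ j ∈ jp v, (C * D * Z.card / 2 ^ lev j) ≤
      ∏ j ∈ J, (2 ^ k * (C * D * Z.card) * th lev j) := by
    intro J
    rw [hfib, ← ExcS.prod_x]
    apply mul_le_mul_of_nonneg_right _ (hpos J)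
    refine le_trans ?_ (hj3 J)
    have : (univ.filter fun v : ι → Fin k → Bool => jp v = J ∧ Dist v ∧ ¬ Priv v blk) ⊆
        univ.filter fun v : ι → Fin k → Bool => jp v = J := by
      intro v hv
      rw [mem_filter] at hv ⊢
      exact ⟨hv.1, hv.2.1⟩
    exact_mod_cast card_le_card this
  have h4 : ∀ J : Finset ι, (¬ ∃ j ∈ J, j ∈ A) →
      ∑ v ∈ (univ.filter R).filter (fun v => jp v = J),
        ∏ j ∈ jp v, (C * D * Z.card / 2 ^ lev j) ≤
      (∏ j ∈ J, (2 ^ k * (C * D * Z.card) * th lev j)) *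
        (k * (1 - (1 / 2) ^ k) ^ blk.card) := by
    intro J hJ
    rw [hfib, ← ExcS.prod_x]
    have h5 := hj4 J blk (by
      intro i hi j hj
      by_contra hcon
      push Not at hcon
      apply hJ
      refine ⟨j, hj, ?_⟩
      rw [hA, mem_filter]
      exact ⟨mem_univ _, hcon.trans (hblk i hi)⟩)
    calc _ ≤ (2 ^ (k * J.card) * (∏ j ∈ J, (2 : ℝ) ^ nb lev j) *
            (k * (1 - (1 / 2) ^ k) ^ blk.card)) * ∏ j ∈ J, (C * D * Z.card / 2 ^ lev j) :=
          mul_le_mul_of_nonneg_right h5 (hpos J)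
      _ = _ := by ring
  rw [← sum_filter_add_sum_filter_not ((univ : Finset (Finset ι)).filter (fun J => J.card ≤ k))
    (fun J => ∃ j ∈ J, j ∈ A)]
  have h5 : ∑ J ∈ ((univ : Finset (Finset ι)).filter (fun J => J.card ≤ k)).filter
      (fun J => ∃ j ∈ J, j ∈ A), ∑ v ∈ (univ.filter R).filter (fun v => jp v = J),
        ∏ j ∈ jp v, (C * D * Z.card / 2 ^ lev j) ≤
      (1 + ∑ i, 2 ^ k * (C * D * Z.card) * th lev i) ^ k *
        ∑ i ∈ A, 2 ^ k * (C * D * Z.card) * th lev i := by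
    refine (sum_le_sum fun J _ => h3 J).trans ?_
    have h6 : ((univ : Finset (Finset ι)).filter (fun J => J.card ≤ k)).filter
        (fun J => ∃ j ∈ J, j ∈ A) =
        (univ : Finset (Finset ι)).filter (fun J => J.card ≤ k ∧ ∃ j ∈ J, j ∈ A) := by
      rw [filter_filter]
    rw [h6]
    convert ExcS.sum_small_meet _ hx A k
  have h6 : ∑ J ∈ ((univ : Finset (Finset ι)).filter (fun J => J.card ≤ k)).filter
      (fun J => ¬ ∃ j ∈ J, j ∈ A), ∑ v ∈ (univ.filter R).filter (fun v => jp v = J),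
        ∏ j ∈ jp v, (C * D * Z.card / 2 ^ lev j) ≤
      (1 + ∑ i, 2 ^ k * (C * D * Z.card) * th lev i) ^ k *
        (k * (1 - (1 / 2) ^ k) ^ blk.card) := by
    have h7 : ∑ J ∈ ((univ : Finset (Finset ι)).filter (fun J => J.card ≤ k)).filter
        (fun J => ¬ ∃ j ∈ J, j ∈ A), ∑ v ∈ (univ.filter R).filter (fun v => jp v = J),
          ∏ j ∈ jp v, (C * D * Z.card / 2 ^ lev j) ≤
        ∑ J ∈ ((univ : Finset (Finset ι)).filter (fun J => J.card ≤ k)).filter
        (fun J => ¬ ∃ j ∈ J, j ∈ A), (∏ j ∈ J, (2 ^ k * (C * D * Z.card) * th lev j)) *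
        (k * (1 - (1 / 2) ^ k) ^ blk.card) := by
      apply sum_le_sum
      intro J hJ
      rw [mem_filter] at hJ
      exact h4 J hJ.2
    refine h7.trans ?_
    rw [← sum_mul]
    apply mul_le_mul_of_nonneg_right _ (by positivity)
    refine le_trans (sum_le_sum_of_subset_of_nonneg (filter_subset _ _)
      (fun J _ _ => prod_nonneg fun j _ => hx j)) ?_
    convert ExcS.sum_small _ hx k
  have h7 : ∑ i, 2 ^ k * (C * D * Z.card) * th lev i =
      2 ^ k * C * D * Z.card * ∑ i, th lev i := by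
    rw [← mul_sum]
    ring
  have h8 : ∑ i ∈ A, 2 ^ k * (C * D * Z.card) * th lev i =
      2 ^ k * C * D * Z.card * ∑ i ∈ A, th lev i := by
    rw [← mul_sum]
    ring
  rw [h7, h8] at h5
  rw [h7] at h6
  rw [mul_add]
  exact add_le_add h5 h6

end Pool.Agent.EN
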