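import Mathlib
import Pool.Agent.Lib.MP_ec0ede_nt_EN.Defs2

set_option autoImplicit false

/-!
# MP_ec0ede_nt, project EN, module Bonf: Bonferroni inequalities and counting tuples of sets
-/

noncomputable section

namespace Pool.Agent.EN

open Real Filter Topology Finset

theorem bonf_zero (W R : ℕ) : |ind (W = 0) - ∑ k ∈ range R, (-1 : ℝ) ^ k * (W.choose k : ℝ)| ≤
    (W.choose R : ℝ) := by
  rcases R with _ | R
  · simp only [range_zero, sum_empty, sub_zero, Nat.choose_zero_right, Nat.cast_one]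
    rw [abs_of_nonneg (ind_nonneg _)]
    exact ind_le_one _
  · rcases W with _ | W
    · have h1 : ∑ k ∈ range (R + 1), (-1 : ℝ) ^ k * ((0 : ℕ).choose k : ℝ) = 1 := by
        rw [Finset.sum_range_succ', Finset.sum_eq_zero]
        · simp
        · intro i _
          simp
      rw [h1, ind_of rfl]
      simp
    · have h1 : ∑ k ∈ range (R + 1), (-1 : ℝ) ^ k * ((W + 1).choose k : ℝ) =
          (-1) ^ R * (W.choose R : ℝ) := by
        have h2 := Int.alternating_sum_range_choose_eq_choose (n := W) (m := R)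
        have h3 := congrArg (Int.cast : ℤ → ℝ) h2
        push_cast at h3
        exact h3
      rw [h1, ind_not_of (Nat.succ_ne_zero W), zero_sub, abs_neg, abs_mul, abs_pow, abs_neg,
        abs_one, one_pow, one_mul, abs_of_nonneg (Nat.cast_nonneg _)]
      have h3 : W.choose R ≤ (W + 1).choose (R + 1) := by
        rw [Nat.choose_succ_succ]
        exact Nat.le_add_right _ _
      exact_mod_cast h3

/-- the signed remainder of the exponential series -/
def Bonf.h (R : ℕ) (x : ℝ) : ℝ :=
  (-1) ^ R * (Real.exp (-x) - ∑ k ∈ range R, (-1 : ℝ) ^ k * (x ^ k / k.factorial))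

theorem Bonf.h_succ (R : ℕ) (x : ℝ) :
    Bonf.h (R + 1) x = x ^ R / R.factorial - Bonf.h R x := by
  unfold Bonf.h
  rw [Finset.sum_range_succ]
  have h1 : ((-1 : ℝ) ^ R) * (-1) ^ R = 1 := by
    rw [← mul_pow]; norm_num
  linear_combination (x ^ R / R.factorial) * h1

theorem Bonf.hasDerivAt_h (R : ℕ) (x : ℝ) : HasDerivAt (Bonf.h (R + 1)) (Bonf.h R x) x := by
  have h1 : ∀ k : ℕ, HasDerivAt (fun y : ℝ => (-1 : ℝ) ^ (k + 1) * (y ^ (k + 1) /
      (k + 1).factorial)) (-((-1 : ℝ) ^ k * (x ^ k / k.factorial))) x := by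
    intro k
    have h2 := ((hasDerivAt_pow (k + 1) x).div_const ((k + 1).factorial : ℝ)).const_mul
      ((-1 : ℝ) ^ (k + 1))
    refine h2.congr_deriv ?_
    have h3 : ((k + 1).factorial : ℝ) = (k + 1) * k.factorial := by
      rw [Nat.factorial_succ]; push_cast; ring
    have h4 : (k.factorial : ℝ) ≠ 0 := by exact_mod_cast k.factorial_ne_zero
    have h5 : ((k : ℝ) + 1) ≠ 0 := by positivity
    rw [h3, Nat.add_sub_cancel]
    push_cast
    field_simp
    ring
  have h2 : HasDerivAt (fun y : ℝ => ∑ k ∈ range (R + 1), (-1 : ℝ) ^ k * (y ^ k / k.factorial))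
      (-∑ k ∈ range R, (-1 : ℝ) ^ k * (x ^ k / k.factorial)) x := by
    have h3 : (fun y : ℝ => ∑ k ∈ range (R + 1), (-1 : ℝ) ^ k * (y ^ k / k.factorial)) =
        fun y : ℝ => (∑ k ∈ range R, (-1 : ℝ) ^ (k + 1) * (y ^ (k + 1) / (k + 1).factorial)) +
          1 := by
      funext y
      rw [Finset.sum_range_succ']
      simp
    rw [h3, ← Finset.sum_neg_distrib]
    exact (HasDerivAt.fun_sum fun k _ => h1 k).add_const 1
  have h3 : HasDerivAt (fun y : ℝ => Real.exp (-y)) (-Real.exp (-x)) x := by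
    have h4 := (Real.hasDerivAt_exp (-x)).comp x (hasDerivAt_neg x)
    refine h4.congr_deriv ?_
    ring
  have h4 := (h3.sub h2).const_mul ((-1 : ℝ) ^ (R + 1))
  refine h4.congr_deriv ?_
  unfold Bonf.h
  ring

theorem Bonf.h_nonneg (R : ℕ) : ∀ x : ℝ, 0 ≤ x → 0 ≤ Bonf.h R x := by
  induction R with
  | zero =>
    intro x _
    simp only [Bonf.h, range_zero, sum_empty, pow_zero, one_mul, sub_zero]
    exact (Real.exp_pos _).le
  | succ R ih =>
    intro x hx
    have hmono : MonotoneOn (Bonf.h (R + 1)) (Set.Ici 0) := by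
      apply monotoneOn_of_deriv_nonneg (convex_Ici 0)
      · exact fun y _ => (Bonf.hasDerivAt_h R y).continuousAt.continuousWithinAt
      · exact fun y _ => (Bonf.hasDerivAt_h R y).differentiableAt.differentiableWithinAt
      · intro y hy
        rw [interior_Ici] at hy
        rw [(Bonf.hasDerivAt_h R y).deriv]
        exact ih y (le_of_lt hy)
    have h0 : Bonf.h (R + 1) 0 = 0 := by
      unfold Bonf.h
      rw [Finset.sum_range_succ', Finset.sum_eq_zero]
      · simp
      · intro i _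
        simp
    rw [← h0]
    exact hmono (Set.mem_Ici.2 le_rfl) (Set.mem_Ici.2 hx) hx

theorem bonf_exp {x : ℝ} (hx : 0 ≤ x) (R : ℕ) :
    |Real.exp (-x) - ∑ k ∈ range R, (-1 : ℝ) ^ k * (x ^ k / k.factorial)| ≤
      x ^ R / R.factorial := by
  have h1 : |Real.exp (-x) - ∑ k ∈ range R, (-1 : ℝ) ^ k * (x ^ k / k.factorial)| =
      |Bonf.h R x| := by
    unfold Bonf.h
    rw [abs_mul, abs_pow, abs_neg, abs_one, one_pow, one_mul]
  rw [h1, abs_of_nonneg (Bonf.h_nonneg R x hx)]
  have h2 := Bonf.h_succ R x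
  have h3 := Bonf.h_nonneg (R + 1) x hx
  linarith

/-- vectors of sets of indices -/
def Bonf.e {ι : Type} [Fintype ι] [DecidableEq ι] (k : ℕ) :
    (Fin k → Finset ι) ≃ (ι → Fin k → Bool) where
  toFun F i a := decide (i ∈ F a)
  invFun v a := univ.filter fun i => v i a = true
  left_inv F := by
    funext a
    ext i
    simp
  right_inv v := by
    funext i a
    simp

theorem Bonf.sv_eq {ι : Type} [Fintype ι] [DecidableEq ι] {k : ℕ} (τ : ι → ℕ)
    (F : Fin k → Finset ι) (a : Fin k) : sv τ (Bonf.e k F) a = sz τ (F a) := by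
  unfold sv sz Bonf.e
  simp only [Equiv.coe_fn_mk, decide_eq_true_eq]
  rw [← Finset.sum_filter]
  congr 1
  ext i
  simp

open Classical in
theorem choose_Wn {ι : Type} [Fintype ι] [DecidableEq ι] (T : Set ℝ) (y : ℝ) (τ : ι → ℕ)
    (k : ℕ) (hy : y ∉ T) : ((Wn T y τ).choose k : ℝ) * k.factorial =
    ∑ v ∈ univ.filter (fun v : ι → Fin k → Bool => Dist v), ind (∀ a, y - sv τ v a ∈ T) := by
  have h1 : ((Wn T y τ).choose k : ℝ) * k.factorial = ((Wn T y τ).descFactorial k : ℝ) := by
    rw [Nat.descFactorial_eq_factorial_mul_choose]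
    push_cast
    ring
  have h2 : Wn T y τ = Fintype.card {S : Finset ι // y - sz τ S ∈ T} := by
    unfold Wn
    rw [Fintype.card_subtype]
  have h3 : (Wn T y τ).descFactorial k =
      Fintype.card (Fin k ↪ {S : Finset ι // y - sz τ S ∈ T}) := by
    rw [Fintype.card_embedding_eq, Fintype.card_fin, h2]
  have h4 : ∑ v ∈ univ.filter (fun v : ι → Fin k → Bool => Dist v),
      ind (∀ a, y - sv τ v a ∈ T) = ((univ.filter fun v : ι → Fin k → Bool =>
        Dist v ∧ ∀ a, y - sv τ v a ∈ T).card : ℝ) := by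
    unfold ind
    rw [← Finset.filter_filter, Finset.card_filter]
    push_cast
    refine Finset.sum_congr rfl fun v _ => ?_
    congr 1
  rw [h1, h3, h4, ← Fintype.card_subtype]
  congr 1
  apply Fintype.card_congr
  refine Equiv.ofBijective (fun f => ⟨Bonf.e k (fun a => (f a).1), ?_, ?_⟩) ⟨?_, ?_⟩
  · constructor
    · intro a
      by_contra hcon
      push Not at hcon
      have h5 : (f a).1 = ∅ := by
        rw [Finset.eq_empty_iff_forall_notMem]
        intro i hi
        exact hcon i (by simp [Bonf.e, hi])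
      have h6 := (f a).2
      rw [h5] at h6
      simp only [sz, sum_empty, sub_zero] at h6
      exact hy h6
    · intro a b hab
      by_contra hcon
      push Not at hcon
      apply hab
      apply f.injective
      apply Subtype.ext
      ext i
      have h5 := hcon i
      simp only [Bonf.e, Equiv.coe_fn_mk, decide_eq_decide] at h5
      exact h5
  · intro a
    rw [Bonf.sv_eq]
    exact (f a).2
  · intro f g hfg
    have h5 := congrArg Subtype.val hfg
    have h6 := (Bonf.e k).injective h5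
    ext a : 1
    apply Subtype.ext
    exact congrFun h6 a
  · rintro ⟨v, hv, hT⟩
    obtain ⟨F, rfl⟩ := (Bonf.e k).surjective v
    refine ⟨⟨fun a => ⟨F a, ?_⟩, ?_⟩, ?_⟩
    · have h5 := hT a
      rw [Bonf.sv_eq] at h5
      exact h5
    · intro a b hab
      by_contra hcon
      obtain ⟨i, hi⟩ := hv.2 a b hcon
      apply hi
      have h5 : F a = F b := congrArg Subtype.val hab
      simp [Bonf.e, h5]
    · rfl

theorem Wn_eq_sum {ι : Type} [Fintype ι] [DecidableEq ι] (T : Set ℝ) (y : ℝ) (τ : ι → ℕ) :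
    (Wn T y τ : ℝ) = ∑ S : Finset ι, ind (y - sz τ S ∈ T) := by
  classical
  unfold Wn ind
  rw [Finset.card_filter]
  push_cast
  refine Finset.sum_congr rfl fun S _ => ?_
  congr 1

theorem Wn_sq {ι : Type} [Fintype ι] [DecidableEq ι] (T : Set ℝ) (y : ℝ) (τ : ι → ℕ) :
    (Wn T y τ : ℝ) ^ 2 = ∑ v : ι → Fin 2 → Bool, ind (∀ a, y - sv τ v a ∈ T) := by
  rw [← (Bonf.e 2).sum_comp]
  have h1 : ∀ F : Fin 2 → Finset ι, ind (∀ a, y - sv τ (Bonf.e 2 F) a ∈ T) =
      ind (y - sz τ (F 0) ∈ T) * ind (y - sz τ (F 1) ∈ T) := by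
    intro F
    rw [← ind_and]
    apply ind_congr
    rw [Fin.forall_fin_two, Bonf.sv_eq, Bonf.sv_eq]
  rw [Finset.sum_congr rfl fun F _ => h1 F, ← (finTwoArrowEquiv (Finset ι)).symm.sum_comp,
    Fintype.sum_prod_type, sq, Wn_eq_sum, Finset.sum_mul_sum]
  rfl

end Pool.Agent.EN
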