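import Mathlib
import Pool.Agent.Lib.MP_ec0ede_nt_EN.Defs1
import Pool.Agent.Lib.MP_ec0ede_nt_EN.Win
import Pool.Agent.Lib.MP_ec0ede_nt_EN.Pnt

/-!
# MP_ec0ede_nt, project EN: primes in short logarithmic windows
-/

set_option autoImplicit false

noncomputable section

namespace Pool.Agent.EN

open Real Filter Topology Finset

namespace WinP

theorem mem_LE_exp (u : ℝ) (p : ℕ) :
    p ∈ Nat.primesLE ⌊Real.exp u⌋₊ ↔ p.Prime ∧ Real.log p ≤ u := by
  rw [Nat.mem_primesLE, Nat.le_floor_iff (Real.exp_pos u).le]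
  constructor
  · rintro ⟨h1, h2⟩
    exact ⟨h2, (Real.log_le_iff_le_exp (by exact_mod_cast h2.pos)).2 h1⟩
  · rintro ⟨h1, h2⟩
    exact ⟨(Real.log_le_iff_le_exp (by exact_mod_cast h1.pos)).1 h2, h1⟩

theorem theta_diff (u : ℝ) {d : ℝ} (hd : 0 ≤ d) :
    Chebyshev.theta (Real.exp (u + d)) - Chebyshev.theta (Real.exp u) =
      ∑ p ∈ win u d, Real.log p := by
  rw [Chebyshev.theta_eq_sum_primesLE, Chebyshev.theta_eq_sum_primesLE,
    ← Finset.sum_filter_add_sum_filter_not (Nat.primesLE ⌊Real.exp (u + d)⌋₊)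
      (fun p : ℕ => u < Real.log p)]
  have h : (Nat.primesLE ⌊Real.exp (u + d)⌋₊).filter (fun p : ℕ => ¬ u < Real.log p) =
      Nat.primesLE ⌊Real.exp u⌋₊ := by
    ext p
    rw [Finset.mem_filter, mem_LE_exp, mem_LE_exp, not_lt]
    constructor
    · rintro ⟨⟨h1, h2⟩, h3⟩
      exact ⟨h1, h3⟩
    · rintro ⟨h1, h2⟩
      exact ⟨⟨h1, by linarith⟩, h2⟩
  rw [h]
  unfold win
  ring

theorem ws_add (u : ℝ) {a b : ℝ} (ha : 0 ≤ a) (hb : 0 ≤ b) :
    ws u (a + b) = ws u a + ws (u + a) b := by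
  unfold ws
  rw [← Finset.sum_union]
  · congr 1
    ext p
    rw [Finset.mem_union, mem_win, mem_win, mem_win]
    constructor
    · rintro ⟨h1, h2, h3⟩
      rcases le_or_gt (Real.log p) (u + a) with h | h
      · exact Or.inl ⟨h1, h2, h⟩
      · exact Or.inr ⟨h1, h, by linarith⟩
    · rintro (⟨h1, h2, h3⟩ | ⟨h1, h2, h3⟩)
      · exact ⟨h1, h2, by linarith⟩
      · exact ⟨h1, by linarith, by linarith⟩
  · rw [Finset.disjoint_left]
    intro p h1 h2
    rw [mem_win] at h1 h2
    linarith [h1.2.2, h2.2.1]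

theorem ws_zero (u : ℝ) : ws u 0 = 0 := by
  unfold ws
  apply Finset.sum_eq_zero
  intro p hp
  rw [mem_win] at hp
  linarith [hp.2.1, hp.2.2]

theorem ws_nonneg (u h : ℝ) : 0 ≤ ws u h :=
  Finset.sum_nonneg fun p _ => by positivity

theorem ws_mul (u : ℝ) {d : ℝ} (hd : 0 ≤ d) (m : ℕ) :
    ws u (m * d) = ∑ i ∈ range m, ws (u + i * d) d := by
  induction m with
  | zero => simp [ws_zero]
  | succ m ih =>
    rw [Finset.sum_range_succ, ← ih, ← ws_add u (by positivity) hd]
    push_cast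
    ring_nf

/-- the increment of the Chebyshev function -/
def rr (d u : ℝ) : ℝ :=
  (Chebyshev.theta (Real.exp (u + d)) - Chebyshev.theta (Real.exp u)) / Real.exp u

theorem theta_lim :
    Tendsto (fun u : ℝ => Chebyshev.theta (Real.exp u) / Real.exp u) atTop (𝓝 1) :=
  pnt.comp Real.tendsto_exp_atTop

theorem rr_lim (d : ℝ) : Tendsto (rr d) atTop (𝓝 (Real.exp d - 1)) := by
  have h1 : Tendsto (fun u : ℝ => Chebyshev.theta (Real.exp (u + d)) / Real.exp (u + d)) atTop
      (𝓝 1) := theta_lim.comp (tendsto_atTop_add_const_right atTop d tendsto_id)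
  have h2 := (h1.mul_const (Real.exp d)).sub theta_lim
  rw [one_mul] at h2
  refine h2.congr fun u => ?_
  unfold rr
  rw [Real.exp_add]
  have := (Real.exp_pos u).ne'
  have := (Real.exp_pos d).ne'
  field_simp

theorem rr_shift (d a : ℝ) : Tendsto (fun u => rr d (u + a)) atTop (𝓝 (Real.exp d - 1)) :=
  (rr_lim d).comp (tendsto_atTop_add_const_right atTop a tendsto_id)

theorem ratio_lim (a : ℝ) : Tendsto (fun u : ℝ => u / (u + a)) atTop (𝓝 1) := by
  have h1 : Tendsto (fun u : ℝ => u + a) atTop atTop :=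
    tendsto_atTop_add_const_right atTop a tendsto_id
  have h2 : Tendsto (fun u : ℝ => 1 - a / (u + a)) atTop (𝓝 (1 - 0)) :=
    tendsto_const_nhds.sub (h1.const_div_atTop a)
  rw [sub_zero] at h2
  refine h2.congr' ?_
  filter_upwards [h1.eventually_gt_atTop 0] with u hu
  field_simp
  ring

/-- the upper bound for one window -/
theorem ws_up {u d : ℝ} (hu : 0 ≤ u) (hd : 0 ≤ d) : u * ws u d ≤ rr d u := by
  unfold rr
  rw [theta_diff u hd, Finset.sum_div]
  unfold ws
  rw [Finset.mul_sum]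
  apply Finset.sum_le_sum
  intro p hp
  rw [mem_win] at hp
  obtain ⟨h1, h2, h3⟩ := hp
  have hp0 : (0:ℝ) < p := by exact_mod_cast h1.pos
  have h4 : Real.exp u < p := (Real.lt_log_iff_exp_lt hp0).1 h2
  have h5 : 1 / (p : ℝ) ≤ 1 / Real.exp u := one_div_le_one_div_of_le (Real.exp_pos u) h4.le
  calc u * (1 / (p : ℝ)) ≤ Real.log p * (1 / Real.exp u) :=
        mul_le_mul h2.le h5 (by positivity) (hu.trans h2.le)
    _ = Real.log p / Real.exp u := by ring

/-- the lower bound for one window -/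
theorem ws_low {u d : ℝ} (hu : 0 < u) (hd : 0 ≤ d) :
    Real.exp (-d) * (u / (u + d)) * rr d u ≤ u * ws u d := by
  unfold rr
  rw [theta_diff u hd, Finset.sum_div]
  unfold ws
  rw [Finset.mul_sum, Finset.mul_sum]
  apply Finset.sum_le_sum
  intro p hp
  rw [mem_win] at hp
  obtain ⟨h1, h2, h3⟩ := hp
  have hp0 : (0:ℝ) < p := by exact_mod_cast h1.pos
  have h4 : (p:ℝ) ≤ Real.exp (u + d) := (Real.log_le_iff_le_exp hp0).1 h3
  have h5 : 1 / Real.exp (u + d) ≤ 1 / (p : ℝ) := one_div_le_one_div_of_le hp0 h4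
  have h6 : Real.log p / (u + d) ≤ 1 := (div_le_one (by linarith)).2 h3
  have h7 : 0 ≤ Real.log p / (u + d) := div_nonneg (by linarith) (by linarith)
  have h8 : Real.log p / (u + d) * (1 / Real.exp (u + d)) ≤ 1 * (1 / (p:ℝ)) :=
    mul_le_mul h6 h5 (by positivity) zero_le_one
  have h9 : Real.exp (-d) * (u / (u + d)) * (Real.log p / Real.exp u) =
      u * (Real.log p / (u + d) * (1 / Real.exp (u + d))) := by
    rw [Real.exp_neg, Real.exp_add]
    have := (Real.exp_pos u).ne'
    have := (Real.exp_pos d).ne'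
    have : u + d ≠ 0 := by linarith
    field_simp
  rw [h9]
  have := mul_le_mul_of_nonneg_left h8 hu.le
  linarith

theorem exists_up {h a : ℝ} (hh : 0 < h) (ha : h < a) :
    ∃ m : ℕ, 0 < m ∧ (m:ℝ) * (Real.exp (h / m) - 1) < a := by
  obtain ⟨m, hm⟩ := exists_nat_gt (max h (h ^ 2 / (a - h)))
  have h1 : h < m := (le_max_left _ _).trans_lt hm
  have h2 : h ^ 2 / (a - h) < m := (le_max_right _ _).trans_lt hm
  have hm0 : (0:ℝ) < m := hh.trans h1
  have h3 : h / m ≤ 1 := (div_le_one hm0).2 h1.le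
  have h30 : 0 ≤ h / m := by positivity
  have h4 := Real.abs_exp_sub_one_sub_id_le (x := h / m) (by rw [abs_of_nonneg h30]; exact h3)
  have h5 := (abs_le.1 h4).2
  rw [div_lt_iff₀ (by linarith)] at h2
  refine ⟨m, by exact_mod_cast hm0, ?_⟩
  have h6 : (m:ℝ) * (Real.exp (h / m) - 1) ≤ m * (h / m + (h / m) ^ 2) :=
    mul_le_mul_of_nonneg_left (by linarith) hm0.le
  have h7 : (m:ℝ) * (h / m + (h / m) ^ 2) = h + h ^ 2 / m := by field_simp
  have h8 : h ^ 2 / m < a - h := by
    rw [div_lt_iff₀ hm0]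
    linarith
  linarith

theorem exists_low {h a : ℝ} (hh : 0 < h) (ha : a < h) :
    ∃ m : ℕ, 0 < m ∧ a < (m:ℝ) * (1 - Real.exp (-(h / m))) := by
  obtain ⟨m, hm⟩ := exists_nat_gt (max h (h ^ 2 / (h - a)))
  have h1 : h < m := (le_max_left _ _).trans_lt hm
  have h2 : h ^ 2 / (h - a) < m := (le_max_right _ _).trans_lt hm
  have hm0 : (0:ℝ) < m := hh.trans h1
  have h3 : h / m ≤ 1 := (div_le_one hm0).2 h1.le
  have h30 : 0 ≤ h / m := by positivity
  have h4 := Real.abs_exp_sub_one_sub_id_le (x := -(h / m))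
    (by rw [abs_neg, abs_of_nonneg h30]; exact h3)
  have h5 := (abs_le.1 h4).2
  rw [div_lt_iff₀ (by linarith)] at h2
  refine ⟨m, by exact_mod_cast hm0, ?_⟩
  have h6 : m * (h / m - (h / m) ^ 2) ≤ (m:ℝ) * (1 - Real.exp (-(h / m))) := by
    apply mul_le_mul_of_nonneg_left _ hm0.le
    rw [neg_sq] at h5
    linarith
  have h7 : (m:ℝ) * (h / m - (h / m) ^ 2) = h - h ^ 2 / m := by field_simp
  have h8 : h ^ 2 / m < h - a := by
    rw [div_lt_iff₀ hm0]
    linarith
  linarith

end WinP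

open WinP in
theorem ws_lim {h : ℝ} (hh : 0 < h) : Tendsto (fun u : ℝ => u * ws u h) atTop (𝓝 h) := by
  refine tendsto_order.2 ⟨fun a ha => ?_, fun a ha => ?_⟩
  · obtain ⟨m, hm, hma⟩ := exists_low hh ha
    have hm0 : (0:ℝ) < m := by exact_mod_cast hm
    set d : ℝ := h / m with hd
    have hd0 : 0 < d := by positivity
    have hmd : (m:ℝ) * d = h := by rw [hd]; field_simp
    have hl : Tendsto (fun u : ℝ => ∑ i ∈ range m, (u / (u + i * d)) *
        (Real.exp (-d) * ((u + i * d) / ((u + i * d) + d)) * rr d (u + i * d))) atTop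
        (𝓝 (∑ i ∈ range m, 1 * (Real.exp (-d) * 1 * (Real.exp d - 1)))) := by
      apply tendsto_finsetSum
      intro i _
      refine (ratio_lim _).mul ((tendsto_const_nhds.mul ?_).mul (rr_shift d _))
      exact (ratio_lim d).comp (tendsto_atTop_add_const_right atTop _ tendsto_id)
    have hval : ∑ i ∈ range m, 1 * (Real.exp (-d) * 1 * (Real.exp d - 1)) =
        (m:ℝ) * (1 - Real.exp (-d)) := by
      rw [Finset.sum_const, Finset.card_range, nsmul_eq_mul]
      have : Real.exp (-d) * Real.exp d = 1 := by rw [← Real.exp_add]; simp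
      linear_combination (m:ℝ) * this
    rw [hval] at hl
    filter_upwards [hl.eventually (lt_mem_nhds hma), eventually_gt_atTop 0] with u h1 h2
    refine h1.trans_le ?_
    rw [← hmd, ws_mul u hd0.le m, Finset.mul_sum]
    apply Finset.sum_le_sum
    intro i _
    have h3 : 0 < u + i * d := by positivity
    have h4 := ws_low h3 hd0.le
    have h5 : 0 ≤ u / (u + i * d) := by positivity
    calc _ ≤ u / (u + i * d) * ((u + i * d) * ws (u + i * d) d) :=
          mul_le_mul_of_nonneg_left h4 h5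
      _ = u * ws (u + i * d) d := by field_simp
  · obtain ⟨m, hm, hma⟩ := exists_up hh ha
    have hm0 : (0:ℝ) < m := by exact_mod_cast hm
    set d : ℝ := h / m with hd
    have hd0 : 0 < d := by positivity
    have hmd : (m:ℝ) * d = h := by rw [hd]; field_simp
    have hl : Tendsto (fun u : ℝ => ∑ i ∈ range m, rr d (u + i * d)) atTop
        (𝓝 (∑ i ∈ range m, (Real.exp d - 1))) :=
      tendsto_finsetSum _ fun i _ => rr_shift d _
    rw [Finset.sum_const, Finset.card_range, nsmul_eq_mul] at hl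
    filter_upwards [hl.eventually (gt_mem_nhds hma), eventually_gt_atTop 0] with u h1 h2
    refine lt_of_le_of_lt ?_ h1
    rw [← hmd, ws_mul u hd0.le m, Finset.mul_sum]
    apply Finset.sum_le_sum
    intro i _
    have h3 : 0 ≤ u + i * d := by positivity
    have h4 := ws_up h3 hd0.le
    have h5 : u * ws (u + i * d) d ≤ (u + i * d) * ws (u + i * d) d :=
      mul_le_mul_of_nonneg_right (by nlinarith [Nat.cast_nonneg (α := ℝ) i]) (ws_nonneg _ _)
    exact h5.trans h4

end Pool.Agent.EN
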