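import Mathlib
import Pool.Agent.Lib.MP_ec0ede_nt_EN.Defs2
import Pool.Agent.Lib.MP_ec0ede_nt_EN.WinP
import Pool.Agent.Lib.MP_ec0ede_nt_EN.LawA
import Pool.Agent.Lib.MP_ec0ede_nt_EN.LawB

set_option autoImplicit false

/-!
# MP_ec0ede_nt, project EN, module LawD: the laws are asymptotically flat
-/

noncomputable section

namespace Pool.Agent.EN

open Real Filter Topology Finset

namespace LawD

lemma log2_pos : 0 < Real.log 2 := Real.log_pos (by norm_num)

/-- the left end of the support of `psi` -/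
def cc : ℝ := Real.exp (-Mer)

lemma cc_pos : 0 < cc := Real.exp_pos _

lemma log_cc : Real.log cc = -Mer := Real.log_exp _

/-- the argument of the tent is at most `-1` for `x ≤ cc / 2` -/
lemma psi_zero {x : ℝ} (hx : x ≤ cc / 2) : psi x = 0 := by
  unfold psi
  split_ifs with h
  · have h1 : Real.log x ≤ Real.log (cc / 2) := Real.log_le_log h hx
    rw [Real.log_div cc_pos.ne' (by norm_num), log_cc] at h1
    have h2 : (Real.log x + Mer) / Real.log 2 ≤ -1 := by
      rw [div_le_iff₀ log2_pos]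
      linarith
    rw [tent_eq_zero (by rw [abs_of_nonpos (by linarith)]; linarith), zero_div]
  · rfl

lemma psi_pos_eq {x : ℝ} (hx : 0 < x) :
    psi x = tent ((Real.log x + Mer) / Real.log 2) / (x * Real.log 2) := by
  unfold psi
  rw [if_pos hx]

/-- Lipschitz bound on the right of the left end -/
lemma lip_aux {x y : ℝ} (hx : cc / 2 ≤ x) (hy : cc / 2 ≤ y) :
    |psi x - psi y| ≤
      (4 / (cc ^ 2 * Real.log 2 ^ 2) + 4 / (cc ^ 2 * Real.log 2)) * |x - y| := by
  have hc := cc_pos
  have hl := log2_pos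
  have hx0 : 0 < x := by linarith
  have hy0 : 0 < y := by linarith
  rw [psi_pos_eq hx0, psi_pos_eq hy0]
  set T1 := tent ((Real.log x + Mer) / Real.log 2) with hT1
  set T2 := tent ((Real.log y + Mer) / Real.log 2) with hT2
  have hlog : |Real.log x - Real.log y| ≤ 2 / cc * |x - y| := by
    have key : ∀ s t : ℝ, cc / 2 ≤ s → cc / 2 ≤ t → Real.log s - Real.log t ≤
        2 / cc * |s - t| := by
      intro s t hs ht
      have hs0 : 0 < s := by linarith
      have ht0 : 0 < t := by linarith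
      have h1 : Real.log s - Real.log t = Real.log (s / t) :=
        (Real.log_div hs0.ne' ht0.ne').symm
      have h2 : Real.log (s / t) ≤ s / t - 1 := Real.log_le_sub_one_of_pos (by positivity)
      have h3 : s / t - 1 = (s - t) / t := by field_simp
      have h4 : (s - t) / t ≤ |s - t| / (cc / 2) := by
        calc (s - t) / t ≤ |s - t| / t := by
              gcongr
              exact le_abs_self _
          _ ≤ |s - t| / (cc / 2) := by gcongr
      have h5 : |s - t| / (cc / 2) = 2 / cc * |s - t| := by field_simp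
      linarith
    rw [abs_le]
    constructor
    · have := key y x hy hx
      rw [abs_sub_comm] at this
      linarith
    · exact key x y hx hy
  have hT : |T1 - T2| ≤ 2 / (cc * Real.log 2) * |x - y| := by
    refine le_trans (tent_lip _ _) ?_
    have h1 : (Real.log x + Mer) / Real.log 2 - (Real.log y + Mer) / Real.log 2 =
        (Real.log x - Real.log y) / Real.log 2 := by ring
    rw [h1, abs_div, abs_of_pos hl]
    calc |Real.log x - Real.log y| / Real.log 2 ≤ (2 / cc * |x - y|) / Real.log 2 := by gcongr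
      _ = 2 / (cc * Real.log 2) * |x - y| := by field_simp
  have hT2n : 0 ≤ T2 := tent_nonneg _
  have hT2l : T2 ≤ 1 := tent_le_one _
  have hsplit : T1 / (x * Real.log 2) - T2 / (y * Real.log 2) =
      (T1 - T2) / (x * Real.log 2) + T2 * ((y - x) / (x * y * Real.log 2)) := by
    field_simp
    ring
  rw [hsplit]
  refine le_trans (abs_add_le _ _) ?_
  have hA : |(T1 - T2) / (x * Real.log 2)| ≤ 4 / (cc ^ 2 * Real.log 2 ^ 2) * |x - y| := by
    rw [abs_div, abs_of_pos (by positivity : 0 < x * Real.log 2)]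
    calc |T1 - T2| / (x * Real.log 2)
        ≤ (2 / (cc * Real.log 2) * |x - y|) / (cc / 2 * Real.log 2) := by gcongr
      _ = 4 / (cc ^ 2 * Real.log 2 ^ 2) * |x - y| := by
          field_simp
          ring
  have hB : |T2 * ((y - x) / (x * y * Real.log 2))| ≤ 4 / (cc ^ 2 * Real.log 2) * |x - y| := by
    rw [abs_mul, abs_of_nonneg hT2n, abs_div,
      abs_of_pos (by positivity : 0 < x * y * Real.log 2), abs_sub_comm]
    calc T2 * (|x - y| / (x * y * Real.log 2))
        ≤ 1 * (|x - y| / (cc / 2 * (cc / 2) * Real.log 2)) := by gcongr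
      _ = 4 / (cc ^ 2 * Real.log 2) * |x - y| := by
          field_simp
          ring
  linarith

end LawD

open LawD

theorem psi_nonneg (x : ℝ) : 0 ≤ psi x := by
  unfold psi
  have := log2_pos
  split_ifs with h
  · exact div_nonneg (tent_nonneg _) (by positivity)
  · exact le_refl 0

theorem psi_bdd : ∃ C : ℝ, 0 < C ∧ ∀ x, psi x ≤ C := by
  have hc := cc_pos
  have hl := log2_pos
  refine ⟨1 / (cc / 2 * Real.log 2), by positivity, fun x => ?_⟩
  by_cases hx : x ≤ cc / 2
  · rw [psi_zero hx]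
    positivity
  · push Not at hx
    have hx0 : 0 < x := by linarith
    rw [psi_pos_eq hx0]
    have h1 := tent_le_one ((Real.log x + Mer) / Real.log 2)
    gcongr

theorem psi_lip : ∃ C : ℝ, 0 < C ∧ ∀ x y, |psi x - psi y| ≤ C * |x - y| := by
  have hc := cc_pos
  have hl := log2_pos
  refine ⟨4 / (cc ^ 2 * Real.log 2 ^ 2) + 4 / (cc ^ 2 * Real.log 2), by positivity, ?_⟩
  have key : ∀ x y : ℝ, x < y → |psi x - psi y| ≤
      (4 / (cc ^ 2 * Real.log 2 ^ 2) + 4 / (cc ^ 2 * Real.log 2)) * |x - y| := by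
    intro x y hxy
    by_cases hy : y ≤ cc / 2
    · rw [psi_zero hy, psi_zero (by linarith), sub_zero, abs_zero]
      positivity
    · push Not at hy
      by_cases hx : x ≤ cc / 2
      · have h1 := lip_aux (le_refl (cc / 2)) hy.le
        rw [psi_zero (le_refl (cc / 2))] at h1
        rw [psi_zero hx]
        refine le_trans h1 ?_
        apply mul_le_mul_of_nonneg_left _ (by positivity)
        rw [abs_of_neg (by linarith), abs_of_neg (by linarith)]
        linarith
      · push Not at hx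
        exact lip_aux hx.le hy.le
  intro x y
  rcases lt_trichotomy x y with h | h | h
  · exact key x y h
  · subst h
    simp
  · have := key y x h
    rw [abs_sub_comm, abs_sub_comm x y]
    exact this

theorem mass_eq {j L : ℕ} (hj : j ≤ L) (a b : ℝ) : mass j a b =
    ∑ p ∈ range (bd L), mu j p * ind (a < Real.log p ∧ Real.log p ≤ b) := by
  unfold mass
  rw [Finset.sum_filter]
  have h1 : ∀ p : ℕ, (if a < Real.log p ∧ Real.log p ≤ b then mu j p else 0) =
      mu j p * ind (a < Real.log p ∧ Real.log p ≤ b) := by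
    intro p
    unfold ind
    by_cases h : a < Real.log p ∧ Real.log p ≤ b
    · rw [if_pos h, if_pos h, mul_one]
    · rw [if_neg h, if_neg h, mul_zero]
  rw [Finset.sum_congr rfl (fun p _ => h1 p)]
  apply Finset.sum_subset
  · intro p hp
    rw [Finset.mem_range] at hp ⊢
    exact lt_of_lt_of_le hp (bd_mono hj)
  · intro p _ hp
    rw [Finset.mem_range, not_lt] at hp
    rw [mu_bd (le_refl j) hp, zero_mul]

namespace LawD

/-- additivity of the mass -/
lemma mass_add (j : ℕ) {a b c : ℝ} (hab : a ≤ b) (hbc : b ≤ c) :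
    mass j a c = mass j a b + mass j b c := by
  rw [mass_eq (le_refl j), mass_eq (le_refl j), mass_eq (le_refl j), ← Finset.sum_add_distrib]
  apply Finset.sum_congr rfl
  intro p _
  rw [← mul_add]
  congr 1
  unfold ind
  by_cases h1 : a < Real.log p
  · by_cases h2 : Real.log p ≤ b
    · have h3 : Real.log p ≤ c := by linarith
      have h4 : ¬ (b < Real.log p) := by linarith
      simp [h1, h2, h3, h4]
    · have h4 : b < Real.log p := by linarith
      by_cases h3 : Real.log p ≤ c
      · simp [h1, h2, h3, h4]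
      · simp [h2, h3]
  · have h2 : ¬ (b < Real.log p) := by linarith
    simp [h1, h2]

lemma mass_nonneg (j : ℕ) (a b : ℝ) : 0 ≤ mass j a b :=
  Finset.sum_nonneg (fun p _ => mu_nonneg j p)

lemma mass_self (j : ℕ) (a : ℝ) : mass j a a = 0 := by
  unfold mass
  rw [Finset.filter_eq_empty_iff.mpr, Finset.sum_empty]
  intro p _ h
  linarith [h.1, h.2]

lemma mass_mono (j : ℕ) {a b c : ℝ} (hab : a ≤ b) (hbc : b ≤ c) : mass j a b ≤ mass j a c := by
  rw [mass_add j hab hbc]
  have := mass_nonneg j b c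
  linarith

/-- cutting into windows -/
lemma mass_cut (j : ℕ) (a : ℝ) {h : ℝ} (hh : 0 ≤ h) (k : ℕ) :
    mass j a (a + k * h) = ∑ i ∈ range k, mass j (a + i * h) (a + i * h + h) := by
  induction k with
  | zero => simp [mass_self]
  | succ k ih =>
    rw [Finset.sum_range_succ, ← ih]
    have h1 : a + ((k + 1 : ℕ) : ℝ) * h = a + k * h + h := by push_cast; ring
    rw [h1]
    apply mass_add
    · have : 0 ≤ (k : ℝ) * h := by positivity
      linarith
    · linarith

/-- the mass of a window in terms of the primes in the window -/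
lemma mass_win (l : ℕ) (u h : ℝ) : mass l u (u + h) = ∑ p ∈ win u h, mu l p := by
  unfold mass
  apply Finset.sum_congr_of_eq_on_inter
  · intro p hp hp2
    rw [Finset.mem_filter, Finset.mem_range] at hp
    apply mu_not_prime
    intro hpp
    apply hp2
    unfold win
    rw [Finset.mem_filter, Nat.mem_primesLE]
    refine ⟨⟨?_, hpp⟩, hp.2.1⟩
    apply Nat.le_floor
    have hp0 : (0 : ℝ) < p := by exact_mod_cast hpp.pos
    rw [← Real.log_le_iff_le_exp hp0]
    exact hp.2.2
  · intro p hp hp2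
    unfold win at hp
    rw [Finset.mem_filter, Nat.mem_primesLE] at hp
    have hp0 : (0 : ℝ) < p := by exact_mod_cast hp.1.2.pos
    by_contra hne
    apply hp2
    rw [Finset.mem_filter, Finset.mem_range]
    refine ⟨?_, hp.2, ?_⟩
    · by_contra hb
      push Not at hb
      exact hne (mu_bd (le_refl l) hb)
    · rw [Real.log_le_iff_le_exp hp0]
      exact (Nat.le_floor_iff (Real.exp_pos _).le).mp hp.1.1
  · intro p _ _
    rfl

lemma mem_win {u h : ℝ} {p : ℕ} (hp : p ∈ win u h) :
    p.Prime ∧ u < Real.log p ∧ Real.log p ≤ u + h := by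
  unfold win at hp
  rw [Finset.mem_filter, Nat.mem_primesLE] at hp
  have hp0 : (0 : ℝ) < p := by exact_mod_cast hp.1.2.pos
  refine ⟨hp.1.2, hp.2, ?_⟩
  rw [Real.log_le_iff_le_exp hp0]
  exact (Nat.le_floor_iff (Real.exp_pos _).le).mp hp.1.1

lemma G_prime {p : ℕ} (hp : p.Prime) : G p = G (p - 1) + 1 / (p : ℝ) := by
  obtain ⟨n, rfl⟩ : ∃ n, p = n + 1 := ⟨p - 1, by have := hp.one_lt; omega⟩
  unfold G
  have h1 : Nat.primesLE (n + 1) = insert (n + 1) (Nat.primesLE n) := by
    ext q
    rw [Finset.mem_insert, Nat.mem_primesLE, Nat.mem_primesLE]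
    constructor
    · rintro ⟨h1, h2⟩
      by_cases h3 : q = n + 1
      · exact Or.inl h3
      · exact Or.inr ⟨by omega, h2⟩
    · rintro (h | ⟨h1, h2⟩)
      · subst h
        exact ⟨le_refl _, hp⟩
      · exact ⟨by omega, h2⟩
  rw [h1, Finset.sum_insert]
  · simp only [Nat.add_sub_cancel]
    ring
  · rw [Nat.mem_primesLE]
    omega

/-- the law at one prime -/
lemma mu_approx {l p : ℕ} (hp : p.Prime) {T η : ℝ}
    (h : ∀ g ∈ Set.Icc (G (p - 1)) (G p), |tent (g / Real.log 2 - l) - T| ≤ η) :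
    |mu l p - T / Real.log 2 * (1 / (p : ℝ))| ≤ η / Real.log 2 * (1 / (p : ℝ)) := by
  have hl := log2_pos
  have hp0 : (0 : ℝ) < p := by exact_mod_cast hp.pos
  have hG := G_prime hp
  have hle : G (p - 1) ≤ G p := by
    rw [hG]
    have : 0 < 1 / (p : ℝ) := by positivity
    linarith
  have hcont : Continuous (fun g : ℝ => tent (g / Real.log 2 - l)) :=
    tent_continuous.comp ((continuous_id.div_const _).sub continuous_const)
  have h1 : mu l p - T / Real.log 2 * (1 / (p : ℝ)) =
      1 / Real.log 2 * ∫ g in (G (p - 1))..(G p), (tent (g / Real.log 2 - l) - T) := by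
    rw [intervalIntegral.integral_sub (hcont.intervalIntegrable _ _)
      (continuous_const.intervalIntegrable _ _), intervalIntegral.integral_const]
    unfold mu
    have : G p - G (p - 1) = 1 / (p : ℝ) := by rw [hG]; ring
    rw [this]
    simp only [smul_eq_mul]
    ring
  rw [h1, abs_mul, abs_of_pos (by positivity : 0 < 1 / Real.log 2)]
  have h2 : |∫ g in (G (p - 1))..(G p), (tent (g / Real.log 2 - l) - T)| ≤
      η * |G p - G (p - 1)| := by
    have := intervalIntegral.norm_integral_le_of_norm_le_const (a := G (p - 1)) (b := G p)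
      (C := η) (f := fun g : ℝ => tent (g / Real.log 2 - l) - T) (by
        intro g hg
        rw [Set.uIoc_of_le hle] at hg
        rw [Real.norm_eq_abs]
        exact h g ⟨hg.1.le, hg.2⟩)
    rw [Real.norm_eq_abs] at this
    exact this
  have h3 : |G p - G (p - 1)| = 1 / (p : ℝ) := by
    rw [hG, add_sub_cancel_left, abs_of_pos (by positivity)]
  rw [h3] at h2
  calc 1 / Real.log 2 * |∫ g in (G (p - 1))..(G p), (tent (g / Real.log 2 - l) - T)|
      ≤ 1 / Real.log 2 * (η * (1 / (p : ℝ))) := by gcongr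
    _ = η / Real.log 2 * (1 / (p : ℝ)) := by ring

/-- the positions `G` at the primes of the window -/
lemma close (h : ℝ) (hh : 0 < h) (η : ℝ) (hη : 0 < η) : ∃ U : ℝ, 0 < U ∧ ∀ u : ℝ, U ≤ u →
    ∀ p ∈ win u h, ∀ g ∈ Set.Icc (G (p - 1)) (G p), |g - (Real.log u + Mer)| ≤ η := by
  have h1 := mer_tendsto
  rw [Metric.tendsto_atTop] at h1
  obtain ⟨N, hN⟩ := h1 (η / 3) (by positivity)
  refine ⟨N + 3 / η + 3 * h / η + 1, by positivity, ?_⟩
  intro u hu p hp g hg
  obtain ⟨hpp, hp1, hp2⟩ := mem_win hp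
  have hN0 : (0 : ℝ) ≤ N := by positivity
  have hA : 0 < 3 / η := by positivity
  have hB : 0 < 3 * h / η := by positivity
  have hu0 : 0 < u := by linarith
  have hp0 : (0 : ℝ) < p := by exact_mod_cast hpp.pos
  have hpu : u ≤ p := by
    have h2 : Real.log p ≤ p - 1 := Real.log_le_sub_one_of_pos hp0
    linarith
  have hNp : N ≤ p := by
    have : (N : ℝ) ≤ p := by linarith
    exact_mod_cast this
  have h2 := hN p hNp
  rw [Real.dist_eq] at h2
  have h3 : 1 / (p : ℝ) ≤ η / 3 := by
    rw [div_le_div_iff₀ hp0 (by norm_num)]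
    have : 3 / η ≤ p := by linarith
    rw [div_le_iff₀ hη] at this
    linarith
  have hlp : 0 < Real.log p := by linarith
  have h4 : |Real.log (Real.log p) - Real.log u| ≤ η / 3 := by
    have h5 : Real.log u ≤ Real.log (Real.log p) := Real.log_le_log hu0 hp1.le
    rw [abs_of_nonneg (by linarith)]
    have h6 : Real.log (Real.log p) - Real.log u = Real.log (Real.log p / u) :=
      (Real.log_div hlp.ne' hu0.ne').symm
    rw [h6]
    have h7 : Real.log (Real.log p / u) ≤ Real.log p / u - 1 :=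
      Real.log_le_sub_one_of_pos (by positivity)
    have h8 : Real.log p / u - 1 ≤ h / u := by
      have : Real.log p / u - 1 = (Real.log p - u) / u := by field_simp
      rw [this]
      gcongr
      linarith
    have h9 : h / u ≤ η / 3 := by
      rw [div_le_div_iff₀ hu0 (by norm_num)]
      have : 3 * h / η ≤ u := by linarith
      rw [div_le_iff₀ hη] at this
      linarith
    linarith
  have hG := G_prime hpp
  have hg1 := hg.1
  have hg2 := hg.2
  have h2' := abs_lt.mp h2
  have h4' := abs_le.mp h4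
  rw [abs_le]
  constructor
  · linarith [h2'.1, h4'.1]
  · linarith [h2'.2, h4'.2]

/-- scaling of `psi` -/
lemma psi_scale {u : ℝ} (hu : 0 < u) (l : ℕ) :
    psi (u / 2 ^ l) / 2 ^ l =
      tent ((Real.log u + Mer) / Real.log 2 - l) / Real.log 2 * (1 / u) := by
  have hl := log2_pos
  have h2 : (0 : ℝ) < 2 ^ l := by positivity
  rw [psi_pos_eq (by positivity), Real.log_div hu.ne' h2.ne', Real.log_pow]
  have h1 : (Real.log u - l * Real.log 2 + Mer) / Real.log 2 =
      (Real.log u + Mer) / Real.log 2 - l := by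
    field_simp
    ring
  rw [h1]
  field_simp

/-- one window -/
lemma window (h : ℝ) (hh : 0 < h) (ε : ℝ) (hε : 0 < ε) : ∃ l0 : ℕ, ∀ l ≥ l0, ∀ u : ℝ,
    |mass l u (u + h) - h * (psi (u / 2 ^ l) / 2 ^ l)| ≤ ε / 2 ^ l := by
  have hl := log2_pos
  obtain ⟨D0, hD0, hsupp⟩ := supp_bounds
  set D := max D0 (2 / cc) with hD
  have hcc := cc_pos
  have hD1 : 1 ≤ D := le_trans hD0 (le_max_left _ _)
  have hDpos : 0 < D := by linarith
  have hDc : 2 / cc ≤ D := le_max_right _ _
  -- small parameters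
  set B : ℝ := ((h + 1) / Real.log 2 ^ 2 + 1 / Real.log 2) * (2 * D) with hB
  have hBpos : 0 < B := by positivity
  set η : ℝ := min 1 (ε / B) with hη
  have hηpos : 0 < η := lt_min one_pos (by positivity)
  have hη1 : η ≤ 1 := min_le_left _ _
  have hηB : η * B ≤ ε := by
    have : η ≤ ε / B := min_le_right _ _
    rw [le_div_iff₀ hBpos] at this
    exact this
  obtain ⟨U1, hU1, hclose⟩ := close h hh η hηpos
  have hws := ws_lim hh
  rw [Metric.tendsto_atTop] at hws
  obtain ⟨U2, hU2⟩ := hws η hηpos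
  -- the threshold
  have htend : Tendsto (fun l : ℕ => (2 : ℝ) ^ l) atTop atTop :=
    tendsto_pow_atTop_atTop_of_one_lt (by norm_num)
  obtain ⟨l0, hl0⟩ := (tendsto_atTop_atTop.mp htend) (2 * D * (max U1 (max U2 h) + 1))
  refine ⟨l0, fun l hle u => ?_⟩
  have hbig := hl0 l hle
  have h2l : (0 : ℝ) < 2 ^ l := by positivity
  have hM1 : U1 ≤ max U1 (max U2 h) := le_max_left _ _
  have hM2 : U2 ≤ max U1 (max U2 h) := le_trans (le_max_left _ _) (le_max_right _ _)
  have hM3 : h ≤ max U1 (max U2 h) := le_trans (le_max_right _ _) (le_max_right _ _)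
  set M := max U1 (max U2 h) with hM
  by_cases hu : 2 ^ l / (2 * D) ≤ u
  · -- main case
    have huM : M + 1 ≤ u := by
      refine le_trans ?_ hu
      rw [le_div_iff₀ (by positivity)]
      linarith
    have hu0 : 0 < u := by linarith
    rw [mass_win, psi_scale hu0]
    set T := tent ((Real.log u + Mer) / Real.log 2 - l) with hT
    have hTn : 0 ≤ T := tent_nonneg _
    have hTl : T ≤ 1 := tent_le_one _
    have hcl := hclose u (by linarith)
    have h1 : |∑ p ∈ win u h, mu l p - T / Real.log 2 * ws u h| ≤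
        (η / Real.log 2) / Real.log 2 * ws u h := by
      unfold ws
      rw [Finset.mul_sum, Finset.mul_sum, ← Finset.sum_sub_distrib]
      refine le_trans (Finset.abs_sum_le_sum_abs _ _) (Finset.sum_le_sum ?_)
      intro p hp
      apply mu_approx (mem_win hp).1
      intro g hg
      refine le_trans (tent_lip _ _) ?_
      have h3 : g / Real.log 2 - l - ((Real.log u + Mer) / Real.log 2 - l) =
          (g - (Real.log u + Mer)) / Real.log 2 := by ring
      rw [h3, abs_div, abs_of_pos hl]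
      have := hcl p hp g hg
      gcongr
    have hw := hU2 u (by linarith)
    rw [Real.dist_eq] at hw
    have hw' : |ws u h - h * (1 / u)| ≤ η * (1 / u) := by
      have h4 : ws u h - h * (1 / u) = (u * ws u h - h) * (1 / u) := by
        field_simp
      rw [h4, abs_mul, abs_of_pos (by positivity : 0 < 1 / u)]
      gcongr
    have hwsle : ws u h ≤ (h + 1) * (1 / u) := by
      have h5 := (abs_le.mp hw').2
      have h6 : η * (1 / u) ≤ 1 * (1 / u) := by gcongr
      linarith
    have h7 : |T / Real.log 2 * ws u h - h * (T / Real.log 2 * (1 / u))| ≤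
        1 / Real.log 2 * (η * (1 / u)) := by
      have h8 : T / Real.log 2 * ws u h - h * (T / Real.log 2 * (1 / u)) =
          T / Real.log 2 * (ws u h - h * (1 / u)) := by ring
      rw [h8, abs_mul, abs_of_nonneg (by positivity : 0 ≤ T / Real.log 2)]
      gcongr
    have h9 : (η / Real.log 2) / Real.log 2 * ws u h ≤
        (η / Real.log 2) / Real.log 2 * ((h + 1) * (1 / u)) := by gcongr
    have h10 : |∑ p ∈ win u h, mu l p - h * (T / Real.log 2 * (1 / u))| ≤
        (η / Real.log 2) / Real.log 2 * ((h + 1) * (1 / u)) +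
          1 / Real.log 2 * (η * (1 / u)) := by
      have := abs_sub_le (∑ p ∈ win u h, mu l p) (T / Real.log 2 * ws u h)
        (h * (T / Real.log 2 * (1 / u)))
      linarith
    refine le_trans h10 ?_
    have h11 : 1 / u ≤ 2 * D / 2 ^ l := by
      rw [div_le_div_iff₀ hu0 h2l]
      rw [div_le_iff₀ (by positivity)] at hu
      linarith
    have h12 : (η / Real.log 2) / Real.log 2 * ((h + 1) * (1 / u)) +
          1 / Real.log 2 * (η * (1 / u)) =
        η * ((h + 1) / Real.log 2 ^ 2 + 1 / Real.log 2) * (1 / u) := by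
      field_simp
    rw [h12]
    calc η * ((h + 1) / Real.log 2 ^ 2 + 1 / Real.log 2) * (1 / u)
        ≤ η * ((h + 1) / Real.log 2 ^ 2 + 1 / Real.log 2) * (2 * D / 2 ^ l) := by gcongr
      _ = η * B / 2 ^ l := by rw [hB]; ring
      _ ≤ ε / 2 ^ l := by gcongr
  · -- both sides vanish
    push Not at hu
    have h1 : mass l u (u + h) = 0 := by
      unfold mass
      apply Finset.sum_eq_zero
      intro p hp
      rw [Finset.mem_filter] at hp
      by_contra hne
      have h2 := (hsupp l p hne).1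
      have h3 : (2 : ℝ) ^ l / D ≤ 2 ^ l / D0 := by
        apply div_le_div_of_nonneg_left h2l.le (by linarith) (le_max_left _ _)
      have h4 : (2 : ℝ) ^ l / D = 2 ^ l / (2 * D) + 2 ^ l / (2 * D) := by
        field_simp
        ring
      have h5 : M + 1 ≤ 2 ^ l / (2 * D) := by
        rw [le_div_iff₀ (by positivity)]
        linarith
      linarith [hp.2.2]
    have h2 : psi (u / 2 ^ l) = 0 := by
      apply psi_zero
      have h3 : u / 2 ^ l ≤ 1 / (2 * D) := by
        rw [div_le_div_iff₀ h2l (by positivity)]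
        rw [lt_div_iff₀ (by positivity)] at hu
        linarith
      refine le_trans h3 ?_
      rw [div_le_div_iff₀ (by positivity) (by norm_num)]
      rw [div_le_iff₀ hcc] at hDc
      nlinarith
    rw [h1, h2, zero_div, mul_zero, sub_zero, abs_zero]
    positivity

end LawD

theorem mass_flat : ∃ C : ℝ, 0 < C ∧ ∀ ε h1 : ℝ, 0 < ε → 0 < h1 → ∃ l0 : ℕ, ∀ l ≥ l0,
    ∀ a b : ℝ, h1 ≤ b - a →
    |mass l a b - (b - a) * psi (a / 2 ^ l) / 2 ^ l| ≤
      (b - a) / 2 ^ l * (ε + C * (b - a) / 2 ^ l) := by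
  obtain ⟨C0, hC0, hbdd⟩ := psi_bdd
  obtain ⟨C, hC, hlip⟩ := psi_lip
  refine ⟨C, hC, ?_⟩
  intro ε h1 hε hh1
  set h2 : ℝ := min h1 (ε * h1 / (6 * C0)) with hh2
  have h2pos : 0 < h2 := lt_min hh1 (by positivity)
  have h2le : h2 ≤ h1 := min_le_left _ _
  have h2C : 2 * C0 * h2 ≤ ε * h1 / 3 := by
    have : h2 ≤ ε * h1 / (6 * C0) := min_le_right _ _
    rw [le_div_iff₀ (by positivity)] at this
    linarith
  obtain ⟨l0, hl0⟩ := window h2 h2pos (ε * h2 / 3) (by positivity)
  refine ⟨l0, fun l hl a b hab => ?_⟩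
  have hwin := hl0 l hl
  have h2l : (0 : ℝ) < 2 ^ l := by positivity
  have hba : 0 < b - a := by linarith
  set k : ℕ := ⌊(b - a) / h2⌋₊ with hk
  have hk1 : (k : ℝ) * h2 ≤ b - a := by
    have := Nat.floor_le (by positivity : 0 ≤ (b - a) / h2)
    rw [le_div_iff₀ h2pos] at this
    exact this
  have hk2 : b - a < (k + 1) * h2 := by
    have := Nat.lt_floor_add_one ((b - a) / h2)
    rw [div_lt_iff₀ h2pos] at this
    exact this
  set c : ℝ := a + k * h2 with hc
  have hkh : 0 ≤ (k : ℝ) * h2 := by positivity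
  have hac : a ≤ c := by linarith
  have hcb : c ≤ b := by linarith
  have hbc : b ≤ c + h2 := by
    rw [hc]
    linarith
  have hsplit : mass l a b = ∑ i ∈ range k, mass l (a + i * h2) (a + i * h2 + h2) +
      mass l c b := by
    rw [mass_add l hac hcb, hc, mass_cut l a h2pos.le k]
  -- the rest
  have hrest : mass l c b ≤ (C0 * h2 + ε * h2 / 3) / 2 ^ l := by
    refine le_trans (mass_mono l hcb hbc) ?_
    have h3 := (abs_le.mp (hwin c)).2
    have h4 : h2 * (psi (c / 2 ^ l) / 2 ^ l) ≤ h2 * (C0 / 2 ^ l) := by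
      have := hbdd (c / 2 ^ l)
      gcongr
    have h5 : (C0 * h2 + ε * h2 / 3) / 2 ^ l = h2 * (C0 / 2 ^ l) + ε * h2 / 3 / 2 ^ l := by ring
    rw [h5]
    linarith
  have hrest0 : 0 ≤ mass l c b := mass_nonneg _ _ _
  -- the windows
  have hmain : |∑ i ∈ range k, mass l (a + i * h2) (a + i * h2 + h2) -
      (k : ℝ) * (h2 * (psi (a / 2 ^ l) / 2 ^ l))| ≤
      (k : ℝ) * (ε * h2 / 3 / 2 ^ l + h2 * (C * ((b - a) / 2 ^ l) / 2 ^ l)) := by
    have h3 : (k : ℝ) * (h2 * (psi (a / 2 ^ l) / 2 ^ l)) =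
        ∑ i ∈ range k, (h2 * (psi (a / 2 ^ l) / 2 ^ l)) := by
      rw [Finset.sum_const, Finset.card_range, nsmul_eq_mul]
    have h4 : (k : ℝ) * (ε * h2 / 3 / 2 ^ l + h2 * (C * ((b - a) / 2 ^ l) / 2 ^ l)) =
        ∑ i ∈ range k, (ε * h2 / 3 / 2 ^ l + h2 * (C * ((b - a) / 2 ^ l) / 2 ^ l)) := by
      rw [Finset.sum_const, Finset.card_range, nsmul_eq_mul]
    rw [h3, h4, ← Finset.sum_sub_distrib]
    refine le_trans (Finset.abs_sum_le_sum_abs _ _) (Finset.sum_le_sum ?_)
    intro i hi
    rw [Finset.mem_range] at hi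
    have h5 := hwin (a + i * h2)
    have hi1 : (i : ℝ) * h2 ≤ b - a := by
      have : (i : ℝ) ≤ k := by exact_mod_cast hi.le
      have : (i : ℝ) * h2 ≤ k * h2 := by gcongr
      linarith
    have hi0 : 0 ≤ (i : ℝ) * h2 := by positivity
    have h6 : |h2 * (psi ((a + i * h2) / 2 ^ l) / 2 ^ l) - h2 * (psi (a / 2 ^ l) / 2 ^ l)| ≤
        h2 * (C * ((b - a) / 2 ^ l) / 2 ^ l) := by
      have h7 : h2 * (psi ((a + i * h2) / 2 ^ l) / 2 ^ l) - h2 * (psi (a / 2 ^ l) / 2 ^ l) =
          h2 * ((psi ((a + i * h2) / 2 ^ l) - psi (a / 2 ^ l)) / 2 ^ l) := by ring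
      rw [h7, abs_mul, abs_of_pos h2pos, abs_div, abs_of_pos h2l]
      have h8 := hlip ((a + i * h2) / 2 ^ l) (a / 2 ^ l)
      have h9 : |(a + i * h2) / 2 ^ l - a / 2 ^ l| ≤ (b - a) / 2 ^ l := by
        have : (a + i * h2) / 2 ^ l - a / 2 ^ l = i * h2 / 2 ^ l := by ring
        rw [this, abs_of_nonneg (by positivity)]
        gcongr
      have h10 : C * |(a + i * h2) / 2 ^ l - a / 2 ^ l| ≤ C * ((b - a) / 2 ^ l) := by gcongr
      have h11 := le_trans h8 h10
      gcongr
    have := abs_sub_le (mass l (a + i * h2) (a + i * h2 + h2))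
      (h2 * (psi ((a + i * h2) / 2 ^ l) / 2 ^ l)) (h2 * (psi (a / 2 ^ l) / 2 ^ l))
    linarith
  have hpsi0 := psi_nonneg (a / 2 ^ l)
  have hpsiC := hbdd (a / 2 ^ l)
  have hdiff : |(k : ℝ) * (h2 * (psi (a / 2 ^ l) / 2 ^ l)) - (b - a) * psi (a / 2 ^ l) / 2 ^ l| ≤
      h2 * C0 / 2 ^ l := by
    have h3 : (k : ℝ) * (h2 * (psi (a / 2 ^ l) / 2 ^ l)) - (b - a) * psi (a / 2 ^ l) / 2 ^ l =
        -(((b - a) - k * h2) * psi (a / 2 ^ l) / 2 ^ l) := by ring
    rw [h3, abs_neg, abs_of_nonneg (by
      have : 0 ≤ (b - a) - k * h2 := by linarith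
      positivity)]
    have h4 : (b - a) - k * h2 ≤ h2 := by linarith
    have h5 : 0 ≤ (b - a) - k * h2 := by linarith
    gcongr
  rw [hsplit]
  have htri : |∑ i ∈ range k, mass l (a + i * h2) (a + i * h2 + h2) + mass l c b -
      (b - a) * psi (a / 2 ^ l) / 2 ^ l| ≤
      (k : ℝ) * (ε * h2 / 3 / 2 ^ l + h2 * (C * ((b - a) / 2 ^ l) / 2 ^ l)) +
      (C0 * h2 + ε * h2 / 3) / 2 ^ l + h2 * C0 / 2 ^ l := by
    have e1 := abs_le.mp hmain
    have e2 := abs_le.mp hdiff
    rw [abs_le]
    constructor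
    · linarith [e1.1, e2.1]
    · linarith [e1.2, e2.2]
  refine le_trans htri ?_
  -- collect the errors
  have f1 : (k : ℝ) * (ε * h2 / 3 / 2 ^ l + h2 * (C * ((b - a) / 2 ^ l) / 2 ^ l)) =
      ((k : ℝ) * h2) * (ε / 3 / 2 ^ l + C * ((b - a) / 2 ^ l) / 2 ^ l) := by ring
  have f2 : ((k : ℝ) * h2) * (ε / 3 / 2 ^ l + C * ((b - a) / 2 ^ l) / 2 ^ l) ≤
      (b - a) * (ε / 3 / 2 ^ l + C * ((b - a) / 2 ^ l) / 2 ^ l) := by gcongr
  have f3 : (C0 * h2 + ε * h2 / 3) / 2 ^ l + h2 * C0 / 2 ^ l ≤
      (ε * (b - a) / 3 + ε * (b - a) / 3) / 2 ^ l := by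
    have g1 : ε * h2 ≤ ε * (b - a) := by
      have : h2 ≤ b - a := by linarith
      gcongr
    have g2 : ε * h1 ≤ ε * (b - a) := by gcongr
    rw [← add_div]
    apply div_le_div_of_nonneg_right _ h2l.le
    linarith
  have f4 : (b - a) / 2 ^ l * (ε + C * (b - a) / 2 ^ l) =
      (b - a) * (ε / 3 / 2 ^ l + C * ((b - a) / 2 ^ l) / 2 ^ l) +
      (ε * (b - a) / 3 + ε * (b - a) / 3) / 2 ^ l := by ring
  rw [f1, f4]
  linarith

end Pool.Agent.EN
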