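import Mathlib
import Pool.Agent.Lib.MP_ec0ede_nt_EN.Defs2
import Pool.Agent.Lib.MP_ec0ede_nt_EN.LawA
import Pool.Agent.Lib.MP_ec0ede_nt_EN.LawD

set_option autoImplicit false

noncomputable section

namespace Pool.Agent.EN

open Real Filter Topology Finset


namespace TentF

theorem sum_ind (s : Finset ℕ) (P : ℕ → Prop) [DecidablePred P] :
    ∑ k ∈ s, ind (P k) = ((s.filter P).card : ℝ) := by
  rw [Finset.card_filter]
  push_cast
  apply sum_congr rfl
  intro k _
  by_cases h : P k <;> simp [ind, h]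

theorem layer (n : ℕ) (hn : 1 ≤ n) (x : ℝ) :
    |tent (x - 1) - 1 / (n : ℝ) * ∑ k ∈ Icc 1 n, ind ((k : ℝ) / n ≤ x ∧ x < 2 - (k : ℝ) / n)| ≤
      1 / (n : ℝ) * ind (0 ≤ x ∧ x < 2) := by
  classical
  have hn0 : (0 : ℝ) < n := by exact_mod_cast hn
  rcases lt_or_ge x 0 with h0 | h0
  · have h1 : tent (x - 1) = 0 := by
      unfold tent
      rw [abs_of_neg (by linarith)]
      exact max_eq_left (by linarith)
    have h2 : ∑ k ∈ Icc 1 n, ind ((k : ℝ) / n ≤ x ∧ x < 2 - (k : ℝ) / n) = 0 := by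
      apply sum_eq_zero
      intro k _
      apply ind_not_of
      rintro ⟨h3, _⟩
      have : (0 : ℝ) ≤ (k : ℝ) / n := by positivity
      linarith
    rw [h1, h2]
    simp only [mul_zero, sub_zero, abs_zero]
    exact mul_nonneg (by positivity) (ind_nonneg _)
  rcases lt_or_ge x 2 with h2 | h2
  swap
  · have h1 : tent (x - 1) = 0 := by
      unfold tent
      rw [abs_of_nonneg (by linarith)]
      exact max_eq_left (by linarith)
    have h2 : ∑ k ∈ Icc 1 n, ind ((k : ℝ) / n ≤ x ∧ x < 2 - (k : ℝ) / n) = 0 := by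
      apply sum_eq_zero
      intro k _
      apply ind_not_of
      rintro ⟨_, h3⟩
      have : (0 : ℝ) ≤ (k : ℝ) / n := by positivity
      linarith
    rw [h1, h2]
    simp only [mul_zero, sub_zero, abs_zero]
    exact mul_nonneg (by positivity) (ind_nonneg _)
  rw [ind_of ⟨h0, h2⟩, mul_one, sum_ind]
  rcases lt_or_ge x 1 with h1 | h1
  · have ht : tent (x - 1) = x := by
      unfold tent
      rw [abs_of_neg (by linarith)]
      rw [max_eq_right (by linarith)]
      ring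
    have hs : (Icc 1 n).filter (fun k : ℕ => (k : ℝ) / n ≤ x ∧ x < 2 - (k : ℝ) / n) =
        Icc 1 ⌊(n : ℝ) * x⌋₊ := by
      ext k
      simp only [mem_filter, mem_Icc]
      have hnx : 0 ≤ (n : ℝ) * x := by positivity
      constructor
      · rintro ⟨⟨a1, _⟩, a3, _⟩
        refine ⟨a1, Nat.le_floor ?_⟩
        rwa [div_le_iff₀ hn0, mul_comm] at a3
      · rintro ⟨a1, a2⟩
        have a3 : (k : ℝ) ≤ n * x := (Nat.le_floor_iff hnx).mp a2
        have a4 : (k : ℝ) / n ≤ x := by rw [div_le_iff₀ hn0]; linarith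
        refine ⟨⟨a1, ?_⟩, a4, by linarith⟩
        have : (k : ℝ) ≤ n := by nlinarith
        exact_mod_cast this
    rw [hs, ht, Nat.card_Icc, Nat.add_sub_cancel]
    have b1 : (⌊(n : ℝ) * x⌋₊ : ℝ) ≤ n * x := Nat.floor_le (by positivity)
    have b2 : (n : ℝ) * x < ⌊(n : ℝ) * x⌋₊ + 1 := Nat.lt_floor_add_one _
    have e : x - 1 / (n : ℝ) * ⌊(n : ℝ) * x⌋₊ = 1 / (n : ℝ) * (n * x - ⌊(n : ℝ) * x⌋₊) := by
      field_simp
    rw [e, abs_of_nonneg (mul_nonneg (by positivity) (by linarith))]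
    calc 1 / (n : ℝ) * (n * x - ⌊(n : ℝ) * x⌋₊) ≤ 1 / (n : ℝ) * 1 := by gcongr; linarith
      _ = 1 / (n : ℝ) := mul_one _
  · have ht : tent (x - 1) = 2 - x := by
      unfold tent
      rw [abs_of_nonneg (by linarith)]
      rw [max_eq_right (by linarith)]
      ring
    have hpos : 0 < (n : ℝ) * (2 - x) := mul_pos hn0 (by linarith)
    have hs : (Icc 1 n).filter (fun k : ℕ => (k : ℝ) / n ≤ x ∧ x < 2 - (k : ℝ) / n) =
        Ico 1 ⌈(n : ℝ) * (2 - x)⌉₊ := by
      ext k
      simp only [mem_filter, mem_Icc, mem_Ico]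
      constructor
      · rintro ⟨⟨a1, _⟩, _, a3⟩
        refine ⟨a1, Nat.lt_ceil.mpr ?_⟩
        have : (k : ℝ) / n < 2 - x := by linarith
        rwa [div_lt_iff₀ hn0, mul_comm] at this
      · rintro ⟨a1, a2⟩
        have a3 : (k : ℝ) < n * (2 - x) := Nat.lt_ceil.mp a2
        have a4 : (k : ℝ) / n < 2 - x := by rw [div_lt_iff₀ hn0]; linarith
        refine ⟨⟨a1, ?_⟩, by linarith, by linarith⟩
        have : (k : ℝ) ≤ n := by nlinarith
        exact_mod_cast this
    have hc : 1 ≤ ⌈(n : ℝ) * (2 - x)⌉₊ := Nat.one_le_iff_ne_zero.mpr (Nat.ceil_pos.mpr hpos).ne'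
    rw [hs, ht, Nat.card_Ico, Nat.cast_sub hc]
    have b1 : (n : ℝ) * (2 - x) ≤ ⌈(n : ℝ) * (2 - x)⌉₊ := Nat.le_ceil _
    have b2 : (⌈(n : ℝ) * (2 - x)⌉₊ : ℝ) < n * (2 - x) + 1 := Nat.ceil_lt_add_one hpos.le
    have e : 2 - x - 1 / (n : ℝ) * ((⌈(n : ℝ) * (2 - x)⌉₊ : ℝ) - (1 : ℕ)) =
        1 / (n : ℝ) * (n * (2 - x) + 1 - ⌈(n : ℝ) * (2 - x)⌉₊) := by
      push_cast
      field_simp
      ring
    rw [e, abs_of_nonneg (mul_nonneg (by positivity) (by linarith))]
    calc 1 / (n : ℝ) * (n * (2 - x) + 1 - ⌈(n : ℝ) * (2 - x)⌉₊) ≤ 1 / (n : ℝ) * 1 := by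
          gcongr; linarith
      _ = 1 / (n : ℝ) := mul_one _

theorem sum_lin (n : ℕ) (hn : 1 ≤ n) :
    ∑ k ∈ Icc 1 n, (2 - 2 * ((k : ℝ) / n)) = (n : ℝ) - 1 := by
  have hn0 : (n : ℝ) ≠ 0 := by positivity
  have h : ∀ m : ℕ, ∑ k ∈ Icc 1 m, (2 - 2 * ((k : ℝ) / n)) = 2 * m - m * (m + 1) / n := by
    intro m
    induction m with
    | zero => simp
    | succ m ih =>
      rw [sum_Icc_succ_top (by omega), ih]
      push_cast
      field_simp
      ring
  rw [h n]
  field_simp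
  ring

end TentF

open TentF in
theorem tent_flat : ∃ C : ℝ, 0 < C ∧ ∀ ε : ℝ, 0 < ε → ∃ a00 : ℕ, ∀ a l L : ℕ,
    a00 ≤ a → a ≤ l → l ≤ L → ∀ u : ℝ,
    |∑ p ∈ range (bd L), mu l p * tent ((u - Real.log p) / 2 ^ a - 1) -
      2 ^ a * psi (u / 2 ^ l) / 2 ^ l| ≤ 2 ^ a / 2 ^ l * (ε + C * 2 ^ a / 2 ^ l) := by
  obtain ⟨C1, hC1, hflat⟩ := mass_flat
  obtain ⟨C2, hC2, hlip⟩ := psi_lip
  obtain ⟨C3, hC3, hbd⟩ := psi_bdd
  refine ⟨4 * (C1 + C2), by positivity, fun ε hε => ?_⟩
  set e' : ℝ := min (ε / 4) 1 with he'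
  have he0 : 0 < e' := by rw [he']; positivity
  have he1 : e' ≤ 1 := min_le_right _ _
  have he2 : e' ≤ ε / 4 := min_le_left _ _
  obtain ⟨l0, hl0⟩ := hflat e' 1 he0 one_pos
  obtain ⟨n, hn⟩ := exists_nat_ge ((3 * C3 + 2 + 4 * C1) / (ε / 2) + 1)
  have hn1 : 1 ≤ n := by
    have h1 : (0 : ℝ) ≤ (3 * C3 + 2 + 4 * C1) / (ε / 2) := by positivity
    have : (1 : ℝ) ≤ n := by linarith
    exact_mod_cast this
  have hn0 : (0 : ℝ) < n := by exact_mod_cast hn1
  have hnK : 1 / (n : ℝ) * (3 * C3 + 2 + 4 * C1) ≤ ε / 2 := by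
    have h1 : (3 * C3 + 2 + 4 * C1) / (ε / 2) ≤ n := by linarith
    rw [div_le_iff₀ (by positivity)] at h1
    rw [one_div, inv_mul_le_iff₀ hn0]
    exact h1
  refine ⟨max l0 n, fun a l L ha hal hlL u => ?_⟩
  have hal0 : l0 ≤ l := le_trans (le_trans (le_max_left _ _) ha) hal
  have han : n ≤ a := le_trans (le_max_right _ _) ha
  set A : ℝ := 2 ^ a with hA
  set M : ℝ := 2 ^ l with hM
  have hA0 : 0 < A := by positivity
  have hM0 : 0 < M := by positivity
  have hAn : (n : ℝ) ≤ A := by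
    have h1 : n < 2 ^ n := Nat.lt_two_pow_self
    have h2 : (n : ℝ) ≤ 2 ^ n := by exact_mod_cast h1.le
    exact h2.trans (pow_le_pow_right₀ (by norm_num) han)
  have hA1 : 1 ≤ A := le_trans (by exact_mod_cast hn1) hAn
  have hAM : A / M ≤ 1 := by
    rw [div_le_one hM0]
    exact pow_le_pow_right₀ (by norm_num) hal
  have hAM0 : 0 ≤ A / M := by positivity
  set ps : ℝ := psi (u / M) with hps
  have hps0 : 0 ≤ ps := psi_nonneg _
  have hps1 : ps ≤ C3 := hbd _
  -- masses of the layers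
  set mk : ℕ → ℝ := fun k => mass l (u - (2 - (k : ℝ) / n) * A) (u - (k : ℝ) / n * A) with hmk
  have hkey : ∀ (k : ℕ) (p : ℕ), ((k : ℝ) / n ≤ (u - Real.log p) / A ∧
      (u - Real.log p) / A < 2 - (k : ℝ) / n) ↔
      (u - (2 - (k : ℝ) / n) * A < Real.log p ∧ Real.log p ≤ u - (k : ℝ) / n * A) := by
    intro k p
    rw [le_div_iff₀ hA0, div_lt_iff₀ hA0]
    constructor
    · rintro ⟨h1, h2⟩; exact ⟨by linarith, by linarith⟩
    · rintro ⟨h1, h2⟩; exact ⟨by linarith, by linarith⟩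
  have hmass : ∀ k : ℕ, mk k = ∑ p ∈ range (bd L), mu l p *
      ind ((k : ℝ) / n ≤ (u - Real.log p) / A ∧ (u - Real.log p) / A < 2 - (k : ℝ) / n) := by
    intro k
    rw [hmk]
    simp only
    rw [mass_eq hlL]
    apply sum_congr rfl
    intro p _
    rw [ind_congr (hkey k p)]
  -- estimate for each layer
  set E : ℝ := 2 * (A / M) * (e' + 2 * (C1 + C2) * (A / M)) with hE
  have hE0 : 0 ≤ E := by positivity
  have hlayer : ∀ k ∈ Icc 1 n, |mk k - (2 - 2 * ((k : ℝ) / n)) * (A * ps / M)| ≤ E := by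
    intro k hk
    rw [mem_Icc] at hk
    rcases eq_or_lt_of_le hk.2 with hkn | hkn
    · have h1 : (k : ℝ) / n = 1 := by rw [hkn]; exact div_self hn0.ne'
      have h2 : mk k = 0 := by
        rw [hmass k]
        apply sum_eq_zero
        intro p _
        rw [ind_not_of, mul_zero]
        rintro ⟨h3, h4⟩
        rw [h1] at h3 h4
        linarith
      rw [h2, h1]
      norm_num
      exact hE0
    · have hk1 : (k : ℝ) + 1 ≤ n := by exact_mod_cast hkn
      have hkr : (k : ℝ) / n ≤ 1 - 1 / n := by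
        rw [div_le_iff₀ hn0]
        have : (1 - 1 / (n : ℝ)) * n = n - 1 := by field_simp
        rw [this]; linarith
      have hk0 : 0 ≤ (k : ℝ) / n := by positivity
      set r : ℝ := (k : ℝ) / n with hr
      have hlen : (u - r * A) - (u - (2 - r) * A) = (2 - 2 * r) * A := by ring
      have hlen1 : (2 - 2 * r) * A ≤ 2 * A := by nlinarith
      have hlen0 : 0 ≤ (2 - 2 * r) * A := by
        apply mul_nonneg _ hA0.le
        have : 0 < 1 / (n : ℝ) := by positivity
        linarith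
      have hlen2 : 1 ≤ (2 - 2 * r) * A := by
        calc (1 : ℝ) ≤ 2 * (1 / (n : ℝ)) * n := by field_simp; norm_num
          _ ≤ (2 - 2 * r) * A := by
              apply mul_le_mul _ hAn hn0.le
              · have : 0 < 1 / (n : ℝ) := by positivity
                linarith
              · linarith
      have h1 := hl0 l hal0 (u - (2 - r) * A) (u - r * A) (by rw [hlen]; exact hlen2)
      rw [hlen] at h1
      have h2 := hlip ((u - (2 - r) * A) / M) (u / M)
      have h3 : |(u - (2 - r) * A) / M - u / M| = (2 - r) * (A / M) := by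
        have : (u - (2 - r) * A) / M - u / M = -((2 - r) * (A / M)) := by ring
        rw [this, abs_neg, abs_of_nonneg]
        apply mul_nonneg _ hAM0
        have : 0 < 1 / (n : ℝ) := by positivity
        linarith
      rw [h3] at h2
      have h4 : |(2 - 2 * r) * A * psi ((u - (2 - r) * A) / M) / M -
          (2 - 2 * r) * (A * ps / M)| ≤ 2 * (A / M) * (C2 * (2 * (A / M))) := by
        have e1 : (2 - 2 * r) * A * psi ((u - (2 - r) * A) / M) / M - (2 - 2 * r) * (A * ps / M) =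
            (2 - 2 * r) * A / M * (psi ((u - (2 - r) * A) / M) - ps) := by ring
        rw [e1, abs_mul, abs_of_nonneg (by positivity)]
        apply mul_le_mul
        · rw [mul_div_assoc, mul_div_assoc] at *
          have : (2 - 2 * r) ≤ 2 := by linarith
          exact mul_le_mul_of_nonneg_right this hAM0
        · refine h2.trans ?_
          apply mul_le_mul_of_nonneg_left _ hC2.le
          exact mul_le_mul_of_nonneg_right (by linarith) hAM0
        · exact abs_nonneg _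
        · positivity
      have h5 : (2 - 2 * r) * A / M * (e' + C1 * ((2 - 2 * r) * A) / M) ≤
          2 * (A / M) * (e' + C1 * (2 * (A / M))) := by
        have g1 : (2 - 2 * r) * A / M ≤ 2 * (A / M) := by
          have g0 : 2 * (A / M) = 2 * A / M := by ring
          rw [g0]
          exact div_le_div_of_nonneg_right hlen1 hM0.le
        have g2 : C1 * ((2 - 2 * r) * A) / M ≤ C1 * (2 * (A / M)) := by
          rw [mul_div_assoc]
          exact mul_le_mul_of_nonneg_left g1 hC1.le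
        apply mul_le_mul g1 (by linarith) _ (by positivity)
        positivity
      calc |mk k - (2 - 2 * r) * (A * ps / M)|
          ≤ |mk k - (2 - 2 * r) * A * psi ((u - (2 - r) * A) / M) / M| +
            |(2 - 2 * r) * A * psi ((u - (2 - r) * A) / M) / M - (2 - 2 * r) * (A * ps / M)| :=
            abs_sub_le _ _ _
        _ ≤ 2 * (A / M) * (e' + C1 * (2 * (A / M))) + 2 * (A / M) * (C2 * (2 * (A / M))) :=
            add_le_add (h1.trans h5) h4
        _ = E := by rw [hE]; ring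
  -- the sum of the layers
  have hS1 : |1 / (n : ℝ) * ∑ k ∈ Icc 1 n, mk k - (1 - 1 / (n : ℝ)) * (A * ps / M)| ≤ E := by
    have e1 : (1 - 1 / (n : ℝ)) * (A * ps / M) =
        1 / (n : ℝ) * ∑ k ∈ Icc 1 n, (2 - 2 * ((k : ℝ) / n)) * (A * ps / M) := by
      rw [← sum_mul, sum_lin n hn1]
      field_simp
    rw [e1, ← mul_sub, ← sum_sub_distrib, abs_mul, abs_of_nonneg (by positivity)]
    calc 1 / (n : ℝ) * |∑ k ∈ Icc 1 n, (mk k - (2 - 2 * ((k : ℝ) / n)) * (A * ps / M))|
        ≤ 1 / (n : ℝ) * ∑ k ∈ Icc 1 n, E := by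
          gcongr
          exact (abs_sum_le_sum_abs _ _).trans (sum_le_sum hlayer)
      _ = E := by
          rw [sum_const, Nat.card_Icc, nsmul_eq_mul]
          push_cast
          field_simp
  -- the error of the layer cake
  have hm0 : mass l (u - 2 * A) u ≤ 2 * (A / M) * (C3 + 1 + 2 * C1) := by
    have h1 := hl0 l hal0 (u - 2 * A) u (by linarith)
    have e1 : u - (u - 2 * A) = 2 * A := by ring
    rw [e1] at h1
    have h2 := (abs_le.mp h1).2
    have h3 : 2 * A * psi ((u - 2 * A) / M) / M ≤ 2 * (A / M) * C3 := by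
      have : 2 * A * psi ((u - 2 * A) / M) / M = 2 * (A / M) * psi ((u - 2 * A) / M) := by ring
      rw [this]
      exact mul_le_mul_of_nonneg_left (hbd _) (by positivity)
    have h4 : 2 * A / M * (e' + C1 * (2 * A) / M) ≤ 2 * (A / M) * (1 + 2 * C1) := by
      have g1 : C1 * (2 * A) / M ≤ 2 * C1 := by
        have : C1 * (2 * A) / M = 2 * C1 * (A / M) := by ring
        rw [this]
        nlinarith
      rw [mul_div_assoc]
      apply mul_le_mul_of_nonneg_left (by linarith) (by positivity)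
    calc mass l (u - 2 * A) u ≤ 2 * A * psi ((u - 2 * A) / M) / M +
          2 * A / M * (e' + C1 * (2 * A) / M) := by linarith
      _ ≤ 2 * (A / M) * C3 + 2 * (A / M) * (1 + 2 * C1) := add_le_add h3 h4
      _ = _ := by ring
  have hmz : mass l (u - 2 * A) u = ∑ p ∈ range (bd L), mu l p *
      ind (0 ≤ (u - Real.log p) / A ∧ (u - Real.log p) / A < 2) := by
    rw [mass_eq hlL]
    apply sum_congr rfl
    intro p _
    congr 1
    apply ind_congr
    rw [le_div_iff₀ hA0, div_lt_iff₀ hA0]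
    constructor
    · rintro ⟨h1, h2⟩; exact ⟨by linarith, by linarith⟩
    · rintro ⟨h1, h2⟩; exact ⟨by linarith, by linarith⟩
  have hS2 : |∑ p ∈ range (bd L), mu l p * tent ((u - Real.log p) / A - 1) -
      1 / (n : ℝ) * ∑ k ∈ Icc 1 n, mk k| ≤ 1 / (n : ℝ) * mass l (u - 2 * A) u := by
    have e1 : 1 / (n : ℝ) * ∑ k ∈ Icc 1 n, mk k = ∑ p ∈ range (bd L), mu l p *
        (1 / (n : ℝ) * ∑ k ∈ Icc 1 n, ind ((k : ℝ) / n ≤ (u - Real.log p) / A ∧
          (u - Real.log p) / A < 2 - (k : ℝ) / n)) := by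
      rw [sum_congr rfl (fun k _ => hmass k), sum_comm, mul_sum]
      apply sum_congr rfl
      intro p _
      rw [← mul_sum]
      ring
    rw [e1, ← sum_sub_distrib, hmz, mul_sum]
    refine (abs_sum_le_sum_abs _ _).trans (sum_le_sum fun p _ => ?_)
    rw [← mul_sub, abs_mul, abs_of_nonneg (mu_nonneg l p)]
    calc mu l p * |tent ((u - Real.log p) / A - 1) - 1 / (n : ℝ) *
          ∑ k ∈ Icc 1 n, ind ((k : ℝ) / n ≤ (u - Real.log p) / A ∧
            (u - Real.log p) / A < 2 - (k : ℝ) / n)|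
        ≤ mu l p * (1 / (n : ℝ) * ind (0 ≤ (u - Real.log p) / A ∧ (u - Real.log p) / A < 2)) :=
          mul_le_mul_of_nonneg_left (layer n hn1 _) (mu_nonneg l p)
      _ = _ := by ring
  have hS3 : |(1 - 1 / (n : ℝ)) * (A * ps / M) - A * ps / M| ≤ 1 / (n : ℝ) * (A / M * C3) := by
    have e1 : (1 - 1 / (n : ℝ)) * (A * ps / M) - A * ps / M = -(1 / (n : ℝ) * (A / M * ps)) := by
      ring
    rw [e1, abs_neg, abs_of_nonneg (by positivity)]
    gcongr
  calc |∑ p ∈ range (bd L), mu l p * tent ((u - Real.log p) / A - 1) - A * ps / M|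
      ≤ |∑ p ∈ range (bd L), mu l p * tent ((u - Real.log p) / A - 1) -
          1 / (n : ℝ) * ∑ k ∈ Icc 1 n, mk k| +
        |1 / (n : ℝ) * ∑ k ∈ Icc 1 n, mk k - A * ps / M| := abs_sub_le _ _ _
    _ ≤ |∑ p ∈ range (bd L), mu l p * tent ((u - Real.log p) / A - 1) -
          1 / (n : ℝ) * ∑ k ∈ Icc 1 n, mk k| +
        (|1 / (n : ℝ) * ∑ k ∈ Icc 1 n, mk k - (1 - 1 / (n : ℝ)) * (A * ps / M)| +
        |(1 - 1 / (n : ℝ)) * (A * ps / M) - A * ps / M|) := by
          gcongr
          exact abs_sub_le _ _ _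
    _ ≤ 1 / (n : ℝ) * (2 * (A / M) * (C3 + 1 + 2 * C1)) + (E + 1 / (n : ℝ) * (A / M * C3)) := by
          gcongr
          exact hS2.trans (mul_le_mul_of_nonneg_left hm0 (by positivity))
    _ = A / M * (1 / (n : ℝ) * (3 * C3 + 2 + 4 * C1) + (2 * e' + 4 * (C1 + C2) * (A / M))) := by
          rw [hE]; ring
    _ ≤ A / M * (ε + 4 * (C1 + C2) * A / M) := by
          apply mul_le_mul_of_nonneg_left _ hAM0
          have : 4 * (C1 + C2) * A / M = 4 * (C1 + C2) * (A / M) := by ring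
          rw [this]
          linarith

end Pool.Agent.EN
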