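import Mathlib
import Pool.Agent.Lib.MP_ec0ede_nt_EN.Defs2
import Pool.Agent.Lib.MP_ec0ede_nt_EN.ExB

set_option autoImplicit false

/-!
# MP_ec0ede_nt, project EN, module VarA: first and second moments of sums over subsets
-/

noncomputable section

namespace Pool.Agent.EN

open Real Filter Topology Finset

namespace VarA

section

variable {ι : Type} [Fintype ι] [DecidableEq ι]

theorem exists_key (lev : ι → ℕ) : ∃ k : ι → ℕ, Function.Injective k ∧
    ∀ i j, k i ≤ k j → lev i ≤ lev j := by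
  classical
  refine ⟨fun i => lev i * Fintype.card ι + (Fintype.equivFin ι i : ℕ), ?_, ?_⟩
  · intro i j h
    have hi := (Fintype.equivFin ι i).2
    have hj := (Fintype.equivFin ι j).2
    simp only at h
    have h1 : (lev i * Fintype.card ι + (Fintype.equivFin ι i : ℕ)) % Fintype.card ι =
        (lev j * Fintype.card ι + (Fintype.equivFin ι j : ℕ)) % Fintype.card ι := by rw [h]
    rw [Nat.mul_add_mod', Nat.mul_add_mod', Nat.mod_eq_of_lt hi, Nat.mod_eq_of_lt hj] at h1
    exact (Fintype.equivFin ι).injective (Fin.ext h1)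
  · intro i j h
    have hj := (Fintype.equivFin ι j).2
    by_contra hc
    push Not at hc
    have h2 : (lev j + 1) * Fintype.card ι ≤ lev i * Fintype.card ι := Nat.mul_le_mul_right _ hc
    simp only at h
    rw [add_mul] at h2
    omega

/-- the indices below `i` -/
def bel (k : ι → ℕ) (i : ι) : Finset ι := univ.filter fun j => k j < k i

theorem pow_bel (lev k : ι → ℕ) (hk : ∀ i j, k i ≤ k j → lev i ≤ lev j) (i : ι) :
    (2 : ℝ) ^ (bel k i).card ≤ 2 ^ nb lev i := by
  refine pow_le_pow_right₀ (by norm_num) (card_le_card ?_)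
  intro j hj
  rw [bel, mem_filter] at hj
  exact mem_filter.mpr ⟨mem_univ _, hk _ _ hj.2.le⟩

theorem sz_update (τ : ι → ℕ) (i : ι) (p : ℕ) (T : Finset ι) (hi : i ∉ T) :
    sz (Function.update τ i p) T = sz τ T := by
  unfold sz
  refine sum_congr rfl fun j hj => ?_
  have hne : j ≠ i := by
    rintro rfl
    exact hi hj
  rw [Function.update_of_ne hne]

theorem sz_update_insert (τ : ι → ℕ) (i : ι) (p : ℕ) (T : Finset ι) (hi : i ∉ T) :
    sz (Function.update τ i p) (insert i T) = Real.log p + sz τ T := by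
  have h1 := sz_update τ i p T hi
  unfold sz at h1 ⊢
  rw [sum_insert hi, h1, Function.update_self]

theorem single (P : Finset ℕ) (m : ι → ℕ → ℝ)
    (lev : ι → ℕ) (hm : ∀ i p, 0 ≤ m i p) (h1 : ∀ i, ∑ p ∈ P, m i p = 1) (g : ℝ → ℝ) (D1 : ℝ)
    (hD : ∀ i u, ∑ p ∈ P, m i p * |g (u - Real.log p)| ≤ D1 / 2 ^ lev i) (y : ℝ)
    (i : ι) (T : Finset ι) (hi : i ∉ T) :
    Ex P m (fun τ => |g (y - sz τ (insert i T))|) ≤ D1 / 2 ^ lev i := by
  rw [Ex_pivot P m h1 i]
  refine (Ex_mono P m hm _ (fun _ => D1 / 2 ^ lev i) ?_).trans (Ex_const P m h1 _).le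
  intro τ _
  refine le_trans (le_of_eq ?_) (hD i (y - sz τ T))
  refine sum_congr rfl fun p _ => ?_
  rw [sz_update_insert τ i p T hi]
  congr 3
  ring

theorem card_top (k : ι → ℕ) (hk : Function.Injective k) (i : ι) :
    ((univ.filter fun S : Finset ι => i ∈ S ∧ ∀ j ∈ S, k j ≤ k i).card : ℝ) ≤
      2 ^ (bel k i).card := by
  have h : (univ.filter fun S : Finset ι => i ∈ S ∧ ∀ j ∈ S, k j ≤ k i).card ≤
      (bel k i).powerset.card := by
    refine card_le_card_of_injOn (fun S => S.erase i) ?_ ?_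
    · intro S hS
      have hS' := (mem_filter.mp (mem_coe.mp hS)).2
      rw [mem_coe, mem_powerset]
      intro j hj
      rw [mem_erase] at hj
      refine mem_filter.mpr ⟨mem_univ _, lt_of_le_of_ne (hS'.2 j hj.2) fun h => hj.1 (hk h)⟩
    · intro S hS S' hS' h
      have h1 := (mem_filter.mp (mem_coe.mp hS)).2.1
      have h2 := (mem_filter.mp (mem_coe.mp hS')).2.1
      simp only at h
      rw [← insert_erase h1, h, insert_erase h2]
  rw [card_powerset] at h
  exact_mod_cast h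

theorem sum_top (k : ι → ℕ) (hk : Function.Injective k) (f : Finset ι → ℝ) (c : ι → ℝ)
    (hc : ∀ i, 0 ≤ c i) (h : ∀ i T, i ∉ T → f (insert i T) ≤ c i) :
    ∑ S, f S ≤ f ∅ + ∑ i, (2 : ℝ) ^ (bel k i).card * c i := by
  classical
  have h1 : ∀ S : Finset ι, f S ≤ (if S = ∅ then f ∅ else 0) +
      ∑ i, if i ∈ S ∧ ∀ j ∈ S, k j ≤ k i then c i else 0 := by
    intro S
    have h0 : ∀ i ∈ (univ : Finset ι), 0 ≤ if i ∈ S ∧ ∀ j ∈ S, k j ≤ k i then c i else 0 := by
      intro i _
      split_ifs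
      · exact hc i
      · exact le_rfl
    by_cases hS : S = ∅
    · rw [if_pos hS, hS]
      rw [hS] at h0
      linarith [sum_nonneg h0]
    · rw [if_neg hS, zero_add]
      obtain ⟨i, hi, hmax⟩ := exists_max_image S k (nonempty_iff_ne_empty.mpr hS)
      refine le_trans ?_ (single_le_sum h0 (mem_univ i))
      rw [if_pos ⟨hi, hmax⟩]
      have := h i (S.erase i) (notMem_erase i S)
      rwa [insert_erase hi] at this
  refine (sum_le_sum fun S _ => h1 S).trans ?_
  rw [sum_add_distrib, sum_ite_eq' univ ∅ (fun _ => f ∅), if_pos (mem_univ _), sum_comm]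
  refine add_le_add le_rfl (sum_le_sum fun i _ => ?_)
  rw [← sum_filter, sum_const, nsmul_eq_mul]
  exact mul_le_mul_of_nonneg_right (card_top k hk i) (hc i)

/-- `d` is the highest index at which `S` and `S'` differ, and `d ∈ S` -/
def Hi (k : ι → ℕ) (d : ι) (S S' : Finset ι) : Prop :=
  d ∈ S ∧ d ∉ S' ∧ ∀ j, k d < k j → (j ∈ S ↔ j ∈ S')

theorem exists_hi (k : ι → ℕ) (S S' : Finset ι) (h : S ≠ S') :
    ∃ d, Hi k d S S' ∨ Hi k d S' S := by
  have h1 : (symmDiff S S').Nonempty := by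
    rw [nonempty_iff_ne_empty]
    intro h2
    exact h (symmDiff_eq_bot.mp h2)
  obtain ⟨d, hd, hmax⟩ := exists_max_image _ k h1
  have h3 : ∀ j, k d < k j → (j ∈ S ↔ j ∈ S') := by
    intro j hj
    by_contra hc
    have h4 : j ∈ symmDiff S S' := by
      rw [mem_symmDiff]
      tauto
    exact absurd (hmax j h4) (not_le.mpr hj)
  rw [mem_symmDiff] at hd
  rcases hd with hd | hd
  · exact ⟨d, Or.inl ⟨hd.1, hd.2, h3⟩⟩
  · exact ⟨d, Or.inr ⟨hd.1, hd.2, fun j hj => (h3 j hj).symm⟩⟩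

open Classical in
theorem card_hi (k : ι → ℕ) (hk : Function.Injective k) (d : ι) (S' : Finset ι) :
    ((univ.filter fun S : Finset ι => Hi k d S S').card : ℝ) ≤ 2 ^ (bel k d).card := by
  have h : (univ.filter fun S : Finset ι => Hi k d S S').card ≤ (bel k d).powerset.card := by
    refine card_le_card_of_injOn (fun S => S.filter fun j => k j < k d) ?_ ?_
    · intro S _
      rw [mem_coe, mem_powerset]
      intro j hj
      exact mem_filter.mpr ⟨mem_univ _, (mem_filter.mp hj).2⟩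
    · intro S hS T hT h
      have h1 : Hi k d S S' := (mem_filter.mp (mem_coe.mp hS)).2
      have h2 : Hi k d T S' := (mem_filter.mp (mem_coe.mp hT)).2
      simp only at h
      ext j
      rcases lt_trichotomy (k j) (k d) with h3 | h3 | h3
      · have h4 := Finset.ext_iff.mp h j
        rw [mem_filter, mem_filter] at h4
        tauto
      · have h4 : j = d := hk h3
        rw [h4]
        exact ⟨fun _ => h2.1, fun _ => h1.1⟩
      · rw [h1.2.2 j h3, h2.2.2 j h3]
  rw [card_powerset] at h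
  exact_mod_cast h

end

end VarA

open VarA

theorem first_moment {ι : Type} [Fintype ι] [DecidableEq ι] (P : Finset ℕ) (m : ι → ℕ → ℝ)
    (lev : ι → ℕ) (hm : ∀ i p, 0 ≤ m i p) (h1 : ∀ i, ∑ p ∈ P, m i p = 1) (g : ℝ → ℝ) (D1 : ℝ)
    (hD : ∀ i u, ∑ p ∈ P, m i p * |g (u - Real.log p)| ≤ D1 / 2 ^ lev i) (y : ℝ) :
    Ex P m (fun τ => ∑ S : Finset ι, |g (y - sz τ S)|) ≤ |g y| + D1 * ∑ i, th lev i := by
  obtain ⟨k, hk, hk2⟩ := exists_key lev
  have hc : ∀ i, 0 ≤ D1 / 2 ^ lev i := fun i =>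
    (sum_nonneg fun p _ => mul_nonneg (hm i p) (abs_nonneg _)).trans (hD i 0)
  rw [Ex_fsum P m univ (fun (S : Finset ι) τ => |g (y - sz τ S)|)]
  refine (sum_top k hk (fun S => Ex P m fun τ => |g (y - sz τ S)|) (fun i => D1 / 2 ^ lev i) hc
    fun i T hi => single P m lev hm h1 g D1 hD y i T hi).trans ?_
  refine add_le_add (le_of_eq ?_) ?_
  · have h2 : (fun τ : ι → ℕ => |g (y - sz τ ∅)|) = fun _ => |g y| := by
      funext τ
      simp [sz]
    rw [h2, Ex_const P m h1]
  · rw [mul_sum]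
    refine sum_le_sum fun i _ => ?_
    calc (2 : ℝ) ^ (bel k i).card * (D1 / 2 ^ lev i)
        ≤ 2 ^ nb lev i * (D1 / 2 ^ lev i) :=
          mul_le_mul_of_nonneg_right (pow_bel lev k hk2 i) (hc i)
      _ = D1 * th lev i := by
          unfold th
          ring

theorem second_moment {ι : Type} [Fintype ι] [DecidableEq ι] (P : Finset ℕ) (m : ι → ℕ → ℝ)
    (lev : ι → ℕ) (hm : ∀ i p, 0 ≤ m i p) (h1 : ∀ i, ∑ p ∈ P, m i p = 1) (g : ℝ → ℝ)
    (D1 G0 : ℝ) (e : ι → ℝ) (hG : ∀ x, |g x| ≤ G0)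
    (hD : ∀ i u, ∑ p ∈ P, m i p * |g (u - Real.log p)| ≤ D1 / 2 ^ lev i)
    (he : ∀ i u, |∑ p ∈ P, m i p * g (u - Real.log p)| ≤ e i / 2 ^ lev i)
    (y : ℝ) (hy : g y = 0) :
    Ex P m (fun τ => (∑ S : Finset ι, g (y - sz τ S)) ^ 2) ≤
      2 * D1 * (∑ i, e i * th lev i) * (∑ i, th lev i) + G0 * D1 * ∑ i, th lev i := by
  classical
  obtain ⟨k, hk, hk2⟩ := exists_key lev
  have hG0 : 0 ≤ G0 := (abs_nonneg _).trans (hG 0)
  set A : Finset ι → ℝ := fun S => Ex P m fun τ => |g (y - sz τ S)| with hA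
  set B : Finset ι → Finset ι → ℝ :=
    fun S S' => Ex P m fun τ => g (y - sz τ S) * g (y - sz τ S') with hB
  set K : ℝ := ∑ i, e i * th lev i with hK
  set R : Finset ι → Finset ι → ℝ :=
    fun S S' => ∑ d, if Hi k d S S' then e d / 2 ^ lev d else 0 with hR
  have hA0 : ∀ S, 0 ≤ A S := fun S => Ex_nonneg P m hm _ fun τ _ => abs_nonneg _
  have hb0 : ∀ d, 0 ≤ e d / 2 ^ lev d := fun d => (abs_nonneg _).trans (he d 0)
  have hAsum : ∑ S, A S ≤ D1 * ∑ i, th lev i := by
    have h2 := first_moment P m lev hm h1 g D1 hD y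
    rw [Ex_fsum P m univ (fun (S : Finset ι) τ => |g (y - sz τ S)|), hy, abs_zero, zero_add] at h2
    exact h2
  have hdiag : ∀ S, B S S ≤ G0 * A S := by
    intro S
    rw [hA, hB]
    simp only
    rw [← Ex_mul P m G0]
    refine Ex_mono P m hm _ _ fun τ _ => ?_
    rw [← abs_mul_abs_self]
    exact mul_le_mul_of_nonneg_right (hG _) (abs_nonneg _)
  have hoff : ∀ d S S', Hi k d S S' → |B S S'| ≤ e d / 2 ^ lev d * A S' := by
    intro d S S' h
    rw [hA, hB]
    simp only
    rw [← Ex_mul P m (e d / 2 ^ lev d), Ex_pivot P m h1 d]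
    refine (Ex_abs_le P m hm _).trans (Ex_mono P m hm _ _ fun τ _ => ?_)
    have h2 : ∑ p ∈ P, m d p * (g (y - sz (Function.update τ d p) S) *
        g (y - sz (Function.update τ d p) S')) =
        (∑ p ∈ P, m d p * g ((y - sz τ (S.erase d)) - Real.log p)) * g (y - sz τ S') := by
      rw [sum_mul]
      refine sum_congr rfl fun p _ => ?_
      rw [sz_update τ d p S' h.2.1]
      have h3 := sz_update_insert τ d p (S.erase d) (notMem_erase d S)
      rw [insert_erase h.1] at h3
      rw [h3, show y - (Real.log p + sz τ (S.erase d)) = y - sz τ (S.erase d) - Real.log p by ring]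
      ring
    rw [h2, abs_mul]
    exact mul_le_mul_of_nonneg_right (he d _) (abs_nonneg _)
  have hBsymm : ∀ S S', B S S' = B S' S := by
    intro S S'
    rw [hB]
    simp only
    congr 1
    funext τ
    ring
  have hR0 : ∀ S S', 0 ≤ R S S' := by
    intro S S'
    refine sum_nonneg fun d _ => ?_
    split_ifs
    · exact hb0 d
    · exact le_rfl
  have hRle : ∀ d S S', Hi k d S S' → e d / 2 ^ lev d ≤ R S S' := by
    intro d S S' h
    have h0 : ∀ d ∈ (univ : Finset ι), 0 ≤ if Hi k d S S' then e d / 2 ^ lev d else 0 := by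
      intro d _
      split_ifs
      · exact hb0 d
      · exact le_rfl
    refine le_trans ?_ (single_le_sum h0 (mem_univ d))
    rw [if_pos h]
  have hRsum : ∀ S', ∑ S, R S S' ≤ K := by
    intro S'
    rw [hR, hK]
    simp only
    rw [sum_comm]
    refine sum_le_sum fun d _ => ?_
    rw [← sum_filter, sum_const, nsmul_eq_mul]
    calc ((univ.filter fun S : Finset ι => Hi k d S S').card : ℝ) * (e d / 2 ^ lev d)
        ≤ 2 ^ nb lev d * (e d / 2 ^ lev d) :=
          mul_le_mul_of_nonneg_right ((card_hi k hk d S').trans (pow_bel lev k hk2 d)) (hb0 d)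
      _ = e d * th lev d := by
          unfold th
          ring
  have hK0 : 0 ≤ K := (sum_nonneg fun S _ => hR0 S ∅).trans (hRsum ∅)
  have hpair : ∀ S S', B S S' ≤ (if S = S' then G0 * A S else 0) + (R S S' * A S' +
      R S' S * A S) := by
    intro S S'
    have h5 := mul_nonneg (hR0 S S') (hA0 S')
    have h6 := mul_nonneg (hR0 S' S) (hA0 S)
    by_cases h : S = S'
    · rw [if_pos h, ← h]
      rw [← h] at h5 h6
      linarith [hdiag S]
    · rw [if_neg h, zero_add]
      obtain ⟨d, hd | hd⟩ := exists_hi k S S' h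
      · have h7 := mul_le_mul_of_nonneg_right (hRle d S S' hd) (hA0 S')
        linarith [le_abs_self (B S S'), hoff d S S' hd]
      · have h7 := mul_le_mul_of_nonneg_right (hRle d S' S hd) (hA0 S)
        rw [hBsymm]
        linarith [le_abs_self (B S' S), hoff d S' S hd]
  have hexp : Ex P m (fun τ => (∑ S : Finset ι, g (y - sz τ S)) ^ 2) = ∑ S, ∑ S', B S S' := by
    have h2 : (fun τ : ι → ℕ => (∑ S : Finset ι, g (y - sz τ S)) ^ 2) =
        fun τ => ∑ S : Finset ι, ∑ S' : Finset ι, g (y - sz τ S) * g (y - sz τ S') := by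
      funext τ
      rw [sq, sum_mul_sum]
    rw [h2, Ex_fsum P m univ
      (fun (S : Finset ι) τ => ∑ S' : Finset ι, g (y - sz τ S) * g (y - sz τ S'))]
    refine sum_congr rfl fun S _ => ?_
    rw [Ex_fsum P m univ (fun (S' : Finset ι) τ => g (y - sz τ S) * g (y - sz τ S'))]
  have hsum1 : ∑ S, ∑ S', (if S = S' then G0 * A S else 0) = G0 * ∑ S, A S := by
    rw [mul_sum]
    refine sum_congr rfl fun S _ => ?_
    rw [sum_ite_eq univ S (fun _ => G0 * A S), if_pos (mem_univ _)]
  have hsum3 : ∑ S, ∑ S', R S' S * A S ≤ K * ∑ S, A S := by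
    rw [mul_sum]
    refine sum_le_sum fun S _ => ?_
    rw [← sum_mul]
    exact mul_le_mul_of_nonneg_right (hRsum S) (hA0 S)
  have hsum2 : ∑ S, ∑ S', R S S' * A S' ≤ K * ∑ S, A S := by
    rw [sum_comm]
    exact hsum3
  rw [hexp]
  calc ∑ S, ∑ S', B S S'
      ≤ ∑ S, ∑ S', ((if S = S' then G0 * A S else 0) + (R S S' * A S' + R S' S * A S)) :=
        sum_le_sum fun S _ => sum_le_sum fun S' _ => hpair S S'
    _ = G0 * ∑ S, A S + (∑ S, ∑ S', R S S' * A S' + ∑ S, ∑ S', R S' S * A S) := by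
        simp only [sum_add_distrib]
        rw [hsum1]
    _ ≤ G0 * (D1 * ∑ i, th lev i) + (K * (D1 * ∑ i, th lev i) + K * (D1 * ∑ i, th lev i)) :=
        add_le_add (mul_le_mul_of_nonneg_left hAsum hG0)
          (add_le_add (hsum2.trans (mul_le_mul_of_nonneg_left hAsum hK0))
            (hsum3.trans (mul_le_mul_of_nonneg_left hAsum hK0)))
    _ = 2 * D1 * K * (∑ i, th lev i) + G0 * D1 * ∑ i, th lev i := by ring

end Pool.Agent.EN
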