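import Mathlib
import Pool.Agent.Lib.MP_ec0ede_nt_EN.Defs4
import Pool.Agent.Lib.MP_ec0ede_nt_EN.LawA
import Pool.Agent.Lib.MP_ec0ede_nt_EN.LawC
import Pool.Agent.Lib.MP_ec0ede_nt_EN.LawD
import Pool.Agent.Lib.MP_ec0ede_nt_EN.TentF
import Pool.Agent.Lib.MP_ec0ede_nt_EN.ExB
import Pool.Agent.Lib.MP_ec0ede_nt_EN.VarA
import Pool.Agent.Lib.MP_ec0ede_nt_EN.Bonf

set_option autoImplicit false

/-!
# MP_ec0ede_nt, project EN, module RegA: regularity of the sums over the high levels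
-/

noncomputable section

namespace Pool.Agent.EN

open Real Filter Topology Finset

namespace RegA

/-- the difference of the indicator of a short interval and the tent function, both normalised -/
def g (a0 r q : ℕ) (x : ℝ) : ℝ :=
  ind (x ∈ Set.Ico ((q : ℝ) * (2 ^ a0 / 2 ^ r)) (((q : ℝ) + 1) * (2 ^ a0 / 2 ^ r))) /
    (2 ^ a0 / 2 ^ r) - tent (x / 2 ^ a0 - 1) / 2 ^ a0

theorem sum_g {ι : Type} [Fintype ι] [DecidableEq ι] (a0 r q : ℕ) (y : ℝ) (τ : ι → ℕ) :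
    ∑ S : Finset ι, g a0 r q (y - sz τ S) =
      (Wn (Set.Ico ((q : ℝ) * (2 ^ a0 / 2 ^ r)) (((q : ℝ) + 1) * (2 ^ a0 / 2 ^ r))) y τ : ℝ) /
        (2 ^ a0 / 2 ^ r) - RA a0 y τ / 2 ^ a0 := by
  unfold g RA
  rw [Wn_eq_sum, Finset.sum_sub_distrib, Finset.sum_div, Finset.sum_div]

theorem abs_g_le (a0 r q : ℕ) (x : ℝ) : |g a0 r q x| ≤ 2 ^ r / 2 ^ a0 := by
  unfold g
  have h2a : (0 : ℝ) < 2 ^ a0 := by positivity
  have h2r : (1 : ℝ) ≤ 2 ^ r := one_le_pow₀ (by norm_num)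
  have h1 : ind (x ∈ Set.Ico ((q : ℝ) * (2 ^ a0 / 2 ^ r)) (((q : ℝ) + 1) * (2 ^ a0 / 2 ^ r))) /
      (2 ^ a0 / 2 ^ r) ≤ 2 ^ r / 2 ^ a0 := by
    rw [← inv_div ((2 : ℝ) ^ a0) (2 ^ r), inv_eq_one_div]
    exact div_le_div_of_nonneg_right (ind_le_one _) (by positivity)
  have h2 : 0 ≤ ind (x ∈ Set.Ico ((q : ℝ) * (2 ^ a0 / 2 ^ r))
      (((q : ℝ) + 1) * (2 ^ a0 / 2 ^ r))) / (2 ^ a0 / 2 ^ r) :=
    div_nonneg (ind_nonneg _) (by positivity)
  have h3 : tent (x / 2 ^ a0 - 1) / 2 ^ a0 ≤ 2 ^ r / 2 ^ a0 :=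
    div_le_div_of_nonneg_right ((tent_le_one _).trans h2r) h2a.le
  have h4 : 0 ≤ tent (x / 2 ^ a0 - 1) / 2 ^ a0 := div_nonneg (tent_nonneg _) h2a.le
  rw [abs_le]
  constructor <;> linarith

theorem sum_ind_le (P : Finset ℕ) (m F : ℕ → ℝ) (hm : ∀ p, 0 ≤ m p) (c : ℕ → Prop)
    [DecidablePred c] (hF : ∀ p, F p ≤ ind (c p)) :
    ∑ p ∈ P, m p * F p ≤ ∑ p ∈ P.filter c, m p := by
  rw [Finset.sum_filter]
  refine Finset.sum_le_sum fun p _ => ?_
  have h1 := mul_le_mul_of_nonneg_left (hF p) (hm p)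
  by_cases h : c p
  · rw [if_pos h]
    rw [ind_of h, mul_one] at h1
    exact h1
  · rw [if_neg h]
    rw [ind_not_of h, mul_zero] at h1
    exact h1

theorem g_dens (P : Finset ℕ) (m : ℕ → ℝ) (hm : ∀ p, 0 ≤ m p) (D : ℝ) (l : ℕ)
    (hd : ∀ (u h : ℝ), 1 ≤ h →
      ∑ p ∈ P.filter (fun p : ℕ => u ≤ Real.log p ∧ Real.log p ≤ u + h), m p ≤ D * h / 2 ^ l)
    (a0 r q : ℕ) (hr : r ≤ a0) (u : ℝ) :
    ∑ p ∈ P, m p * |g a0 r q (u - Real.log p)| ≤ 3 * D / 2 ^ l := by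
  have h2a : (0 : ℝ) < 2 ^ a0 := by positivity
  have h2l : (0 : ℝ) < 2 ^ l := by positivity
  have h2r : (0 : ℝ) < 2 ^ r := by positivity
  have h2a1 : (1 : ℝ) ≤ 2 ^ a0 := one_le_pow₀ (by norm_num)
  set h0 : ℝ := 2 ^ a0 / 2 ^ r with hh0
  have h01 : 1 ≤ h0 := by
    rw [hh0, one_le_div h2r]
    exact pow_le_pow_right₀ (by norm_num) hr
  have h0p : 0 < h0 := by linarith
  have hstep : ∀ p : ℕ, m p * |g a0 r q (u - Real.log p)| ≤
      1 / h0 * (m p * ind (u - Real.log p ∈ Set.Ico ((q : ℝ) * h0) (((q : ℝ) + 1) * h0))) +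
        1 / 2 ^ a0 * (m p * tent ((u - Real.log p) / 2 ^ a0 - 1)) := by
    intro p
    have h1 : |g a0 r q (u - Real.log p)| ≤
        ind (u - Real.log p ∈ Set.Ico ((q : ℝ) * h0) (((q : ℝ) + 1) * h0)) / h0 +
          tent ((u - Real.log p) / 2 ^ a0 - 1) / 2 ^ a0 := by
      unfold g
      rw [← hh0]
      refine (abs_sub _ _).trans ?_
      rw [abs_of_nonneg (div_nonneg (ind_nonneg _) h0p.le),
        abs_of_nonneg (div_nonneg (tent_nonneg _) h2a.le)]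
    calc m p * |g a0 r q (u - Real.log p)| ≤ m p *
        (ind (u - Real.log p ∈ Set.Ico ((q : ℝ) * h0) (((q : ℝ) + 1) * h0)) / h0 +
          tent ((u - Real.log p) / 2 ^ a0 - 1) / 2 ^ a0) := mul_le_mul_of_nonneg_left h1 (hm p)
      _ = _ := by ring
  refine (Finset.sum_le_sum fun p _ => hstep p).trans ?_
  rw [Finset.sum_add_distrib, ← Finset.mul_sum, ← Finset.mul_sum]
  have hA : ∑ p ∈ P, m p * ind (u - Real.log p ∈ Set.Ico ((q : ℝ) * h0) (((q : ℝ) + 1) * h0)) ≤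
      D * h0 / 2 ^ l := by
    refine (sum_ind_le P m _ hm (fun p : ℕ => u - (q + 1) * h0 ≤ Real.log p ∧
      Real.log p ≤ u - (q + 1) * h0 + h0) ?_).trans (hd _ _ h01)
    intro p
    refine ind_mono ?_
    rintro ⟨h1, h2⟩
    constructor
    · linarith
    · linarith
  have hB : ∑ p ∈ P, m p * tent ((u - Real.log p) / 2 ^ a0 - 1) ≤ D * (2 * 2 ^ a0) / 2 ^ l := by
    refine (sum_ind_le P m _ hm (fun p : ℕ => u - 2 * 2 ^ a0 ≤ Real.log p ∧
      Real.log p ≤ u - 2 * 2 ^ a0 + 2 * 2 ^ a0) ?_).trans (hd _ _ (by linarith))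
    intro p
    by_cases h : 1 ≤ |(u - Real.log p) / 2 ^ a0 - 1|
    · rw [tent_eq_zero h]
      exact ind_nonneg _
    · push Not at h
      rw [abs_lt] at h
      obtain ⟨h1, h2⟩ := h
      have h3 : (u - Real.log p) / 2 ^ a0 < 2 := by linarith
      have h4 : 0 < (u - Real.log p) / 2 ^ a0 := by linarith
      rw [div_lt_iff₀ h2a] at h3
      have h5 : 0 < u - Real.log p := by
        by_contra hc
        push Not at hc
        exact absurd (div_nonpos_of_nonpos_of_nonneg hc h2a.le) (by linarith)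
      rw [ind_of]
      · exact tent_le_one _
      · constructor <;> linarith
  have hA' := mul_le_mul_of_nonneg_left hA (show 0 ≤ 1 / h0 by positivity)
  have hB' := mul_le_mul_of_nonneg_left hB (show (0 : ℝ) ≤ 1 / 2 ^ a0 by positivity)
  have e1 : 1 / h0 * (D * h0 / 2 ^ l) = D / 2 ^ l := by
    field_simp
  have e2 : 1 / 2 ^ a0 * (D * (2 * 2 ^ a0) / 2 ^ l) = 2 * D / 2 ^ l := by
    field_simp
  have e3 : 3 * D / 2 ^ l = D / 2 ^ l + 2 * D / 2 ^ l := by ring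
  rw [e3]
  rw [e1] at hA'
  rw [e2] at hB'
  exact add_le_add hA' hB'

theorem g_flat {C1 C2 C3 ε CR : ℝ} (hC1 : 0 < C1) (hC3 : 0 < C3)
    {l a0 L r q : ℕ} (hlL : l ≤ L) (hr : r ≤ a0)
    (hmass : ∀ a b : ℝ, 1 ≤ b - a → |mass l a b - (b - a) * psi (a / 2 ^ l) / 2 ^ l| ≤
      (b - a) / 2 ^ l * (ε + C1 * (b - a) / 2 ^ l))
    (htent : ∀ u : ℝ, |∑ p ∈ range (bd L), mu l p * tent ((u - Real.log p) / 2 ^ a0 - 1) -
      2 ^ a0 * psi (u / 2 ^ l) / 2 ^ l| ≤ 2 ^ a0 / 2 ^ l * (ε + C2 * 2 ^ a0 / 2 ^ l))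
    (hpsi : ∀ x y, |psi x - psi y| ≤ C3 * |x - y|) (hq : (q : ℝ) ≤ CR * 2 ^ r) (u : ℝ) :
    |∑ p ∈ range (bd L), mu l p * g a0 r q (u - Real.log p)| ≤
      (2 * ε + (C1 + C2 + C3 * (CR + 1)) * (2 ^ a0 / 2 ^ l)) / 2 ^ l := by
  have h2a : (0 : ℝ) < 2 ^ a0 := by positivity
  have h2l : (0 : ℝ) < 2 ^ l := by positivity
  have h2r : (0 : ℝ) < 2 ^ r := by positivity
  have h2r1 : (1 : ℝ) ≤ 2 ^ r := one_le_pow₀ (by norm_num)
  have h2a1 : (1 : ℝ) ≤ 2 ^ a0 := one_le_pow₀ (by norm_num)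
  set h0 : ℝ := 2 ^ a0 / 2 ^ r with hh0
  have h01 : 1 ≤ h0 := by
    rw [hh0, one_le_div h2r]
    exact pow_le_pow_right₀ (by norm_num) hr
  have h0p : 0 < h0 := by linarith
  have h0a : h0 ≤ 2 ^ a0 := by
    rw [hh0]
    exact div_le_self h2a.le h2r1
  set a : ℝ := u - (q + 1) * h0 with ha
  set b : ℝ := u - q * h0 with hb
  have hba : b - a = h0 := by rw [ha, hb]; ring
  have e1 : ∑ p ∈ range (bd L), mu l p * g a0 r q (u - Real.log p) =
      1 / h0 * mass l a b - 1 / 2 ^ a0 *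
        ∑ p ∈ range (bd L), mu l p * tent ((u - Real.log p) / 2 ^ a0 - 1) := by
    rw [mass_eq hlL, Finset.mul_sum, Finset.mul_sum, ← Finset.sum_sub_distrib]
    refine Finset.sum_congr rfl fun p _ => ?_
    have h1 : ind (u - Real.log p ∈ Set.Ico ((q : ℝ) * h0) (((q : ℝ) + 1) * h0)) =
        ind (a < Real.log p ∧ Real.log p ≤ b) := by
      refine ind_congr ?_
      rw [Set.mem_Ico, ha, hb]
      constructor
      · rintro ⟨h1, h2⟩
        exact ⟨by linarith, by linarith⟩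
      · rintro ⟨h1, h2⟩
        exact ⟨by linarith, by linarith⟩
    unfold g
    rw [← hh0, h1]
    ring
  have h1 := hmass a b (by rw [hba]; exact h01)
  rw [hba] at h1
  have h2 : |1 / h0 * mass l a b - psi (a / 2 ^ l) / 2 ^ l| ≤
      1 / 2 ^ l * (ε + C1 * h0 / 2 ^ l) := by
    have e2 : 1 / h0 * mass l a b - psi (a / 2 ^ l) / 2 ^ l =
        1 / h0 * (mass l a b - h0 * psi (a / 2 ^ l) / 2 ^ l) := by
      field_simp
    rw [e2, abs_mul, abs_of_pos (show 0 < 1 / h0 by positivity)]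
    refine (mul_le_mul_of_nonneg_left h1 (by positivity)).trans (le_of_eq ?_)
    field_simp
  have h3 : |1 / 2 ^ a0 * ∑ p ∈ range (bd L), mu l p * tent ((u - Real.log p) / 2 ^ a0 - 1) -
      psi (u / 2 ^ l) / 2 ^ l| ≤ 1 / 2 ^ l * (ε + C2 * 2 ^ a0 / 2 ^ l) := by
    have e2 : 1 / 2 ^ a0 * ∑ p ∈ range (bd L), mu l p * tent ((u - Real.log p) / 2 ^ a0 - 1) -
        psi (u / 2 ^ l) / 2 ^ l =
        1 / 2 ^ a0 * (∑ p ∈ range (bd L), mu l p * tent ((u - Real.log p) / 2 ^ a0 - 1) -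
          2 ^ a0 * psi (u / 2 ^ l) / 2 ^ l) := by
      field_simp
    rw [e2, abs_mul, abs_of_pos (show (0 : ℝ) < 1 / 2 ^ a0 by positivity)]
    refine (mul_le_mul_of_nonneg_left (htent u) (by positivity)).trans (le_of_eq ?_)
    field_simp
  have h4 : |psi (a / 2 ^ l) / 2 ^ l - psi (u / 2 ^ l) / 2 ^ l| ≤
      1 / 2 ^ l * (C3 * ((CR + 1) * 2 ^ a0) / 2 ^ l) := by
    rw [← sub_div, abs_div, abs_of_pos h2l]
    have h5 := hpsi (a / 2 ^ l) (u / 2 ^ l)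
    have h6 : |a / 2 ^ l - u / 2 ^ l| ≤ ((CR + 1) * 2 ^ a0) / 2 ^ l := by
      rw [← sub_div, abs_div, abs_of_pos h2l]
      refine div_le_div_of_nonneg_right ?_ h2l.le
      have e3 : a - u = -((q + 1) * h0) := by rw [ha]; ring
      rw [e3, abs_neg, abs_of_nonneg (by positivity)]
      have h7 : (q : ℝ) * h0 ≤ CR * 2 ^ r * h0 := mul_le_mul_of_nonneg_right hq h0p.le
      have h8 : CR * 2 ^ r * h0 = CR * 2 ^ a0 := by
        rw [hh0]; field_simp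
      rw [h8] at h7
      linarith
    have h7 : |psi (a / 2 ^ l) - psi (u / 2 ^ l)| ≤ C3 * (((CR + 1) * 2 ^ a0) / 2 ^ l) :=
      h5.trans (mul_le_mul_of_nonneg_left h6 hC3.le)
    refine (div_le_div_of_nonneg_right h7 h2l.le).trans (le_of_eq ?_)
    ring
  rw [e1]
  have h5 : |1 / h0 * mass l a b - 1 / 2 ^ a0 *
      ∑ p ∈ range (bd L), mu l p * tent ((u - Real.log p) / 2 ^ a0 - 1)| ≤
      1 / 2 ^ l * (ε + C1 * h0 / 2 ^ l) + 1 / 2 ^ l * (C3 * ((CR + 1) * 2 ^ a0) / 2 ^ l) +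
        1 / 2 ^ l * (ε + C2 * 2 ^ a0 / 2 ^ l) := by
    rw [abs_le] at h2 h3 h4 ⊢
    constructor <;> linarith [h2.1, h2.2, h3.1, h3.2, h4.1, h4.2]
  refine h5.trans ?_
  have h6 : C1 * h0 / 2 ^ l ≤ C1 * 2 ^ a0 / 2 ^ l :=
    div_le_div_of_nonneg_right (mul_le_mul_of_nonneg_left h0a hC1.le) h2l.le
  have h7 : 1 / 2 ^ l * (ε + C1 * h0 / 2 ^ l) ≤ 1 / 2 ^ l * (ε + C1 * 2 ^ a0 / 2 ^ l) :=
    mul_le_mul_of_nonneg_left (by linarith) (by positivity)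
  refine (add_le_add_left (add_le_add_left h7 _) _).trans (le_of_eq ?_)
  ring

end RegA

theorem reg_A (CR D0 : ℝ) (r : ℕ) {η2 η3 : ℝ} (h2 : 0 < η2) (h3 : 0 < η3) : ∃ η1 : ℝ, 0 < η1 ∧
    ∃ a00 : ℕ, ∀ (ι : Type) [Fintype ι] [DecidableEq ι] (L a0 : ℕ) (lev : ι → ℕ) (M y : ℝ),
    a00 ≤ a0 → (∀ i, a0 < lev i ∧ lev i ≤ L) → 0 < M → 2 ^ a0 ≤ η1 * y →
    M * ∑ i, th lev i ≤ D0 → M / 2 ^ a0 ≤ η1 →
    M * ∑ i, 2 ^ a0 / 2 ^ lev i * th lev i ≤ η1 →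
    Ex (range (bd L)) (fun i => mu (lev i)) (fun τ => ind (∃ q : ℕ, (q : ℝ) ≤ CR * 2 ^ r ∧
      η3 / M < |(Wn (Set.Ico (q * (2 ^ a0 / 2 ^ r)) ((q + 1) * (2 ^ a0 / 2 ^ r))) y τ : ℝ) /
        (2 ^ a0 / 2 ^ r) - RA a0 y τ / 2 ^ a0|)) ≤ η2 := by
  rcases lt_or_ge CR 0 with hCR | hCR
  · refine ⟨1, one_pos, 0, ?_⟩
    intro ι _ _ L a0 lev M y _ _ _ _ _ _ _
    have h1 : Ex (range (bd L)) (fun i => mu (lev i)) (fun τ => ind (∃ q : ℕ,
        (q : ℝ) ≤ CR * 2 ^ r ∧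
        η3 / M < |(Wn (Set.Ico (q * (2 ^ a0 / 2 ^ r)) ((q + 1) * (2 ^ a0 / 2 ^ r))) y τ : ℝ) /
          (2 ^ a0 / 2 ^ r) - RA a0 y τ / 2 ^ a0|)) =
        Ex (range (bd L)) (fun i => mu (lev i)) (fun _ => 0) := by
      refine Ex_congr _ _ _ _ fun τ _ => ?_
      rw [ind_not_of]
      rintro ⟨q, hq, _⟩
      have h4 : (0 : ℝ) ≤ q := Nat.cast_nonneg q
      have h5 : CR * 2 ^ r < 0 := mul_neg_of_neg_of_pos hCR (by positivity)
      linarith
    rw [h1]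
    have h4 : Ex (range (bd L)) (fun i => mu (lev i)) (fun _ => (0 : ℝ)) = 0 := by
      simp [Ex]
    rw [h4]
    exact h2.le
  obtain ⟨D, hD, hlaws⟩ := laws_mu
  obtain ⟨C1, hC1, hmf⟩ := mass_flat
  obtain ⟨C2, hC2, htf⟩ := tent_flat
  obtain ⟨C3, hC3, hps⟩ := psi_lip
  set C4 : ℝ := C1 + C2 + C3 * (CR + 1) with hC4
  have hC4p : 0 < C4 := by rw [hC4]; positivity
  set E0 : ℝ := max D0 0 with hE0
  have hE0p : 0 ≤ E0 := le_max_right _ _
  set NQ : ℝ := CR * 2 ^ r + 1 with hNQ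
  have hNQp : 0 < NQ := by rw [hNQ]; positivity
  set K : ℝ := NQ / η3 ^ 2 with hK
  have hKp : 0 < K := by rw [hK]; positivity
  set ε : ℝ := η2 / (2 * K * (12 * D * E0 ^ 2 + 1)) with hε
  have hDp : 0 < D := by linarith
  have hεp : 0 < ε := by rw [hε]; positivity
  set U : ℝ := 6 * D * C4 * E0 + 3 * D * 2 ^ r * E0 with hU
  have hUp : 0 ≤ U := by rw [hU]; positivity
  set η1 : ℝ := min (1 / (CR + 3)) (η2 / (2 * K * (U + 1))) with hη1
  have hη1p : 0 < η1 := by rw [hη1]; exact lt_min (by positivity) (by positivity)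
  have hA1 : K * (12 * D * E0 ^ 2 * ε) ≤ η2 / 2 := by
    have e1 : K * ((12 * D * E0 ^ 2 + 1) * ε) = η2 / 2 := by
      rw [hε]; field_simp
    have e2 : K * (12 * D * E0 ^ 2 * ε) ≤ K * ((12 * D * E0 ^ 2 + 1) * ε) := by
      refine mul_le_mul_of_nonneg_left ?_ hKp.le
      refine mul_le_mul_of_nonneg_right ?_ hεp.le
      linarith
    linarith
  have hA2 : K * (U * η1) ≤ η2 / 2 := by
    have e0 : η1 ≤ η2 / (2 * K * (U + 1)) := min_le_right _ _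
    have e1 : K * ((U + 1) * (η2 / (2 * K * (U + 1)))) = η2 / 2 := by
      field_simp
    have e2 : K * (U * η1) ≤ K * ((U + 1) * (η2 / (2 * K * (U + 1)))) := by
      refine mul_le_mul_of_nonneg_left ?_ hKp.le
      exact mul_le_mul (by linarith) e0 hη1p.le (by linarith)
    linarith
  obtain ⟨l0, hl0⟩ := hmf ε 1 hεp one_pos
  obtain ⟨a1, ha1⟩ := htf ε hεp
  refine ⟨η1, hη1p, max (max l0 a1) r, ?_⟩
  intro ι _ _ L a0 lev M y ha0 hlev hM hy hth hMa hths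
  have hl0a : l0 ≤ a0 := (le_max_left _ _).trans ((le_max_left _ _).trans ha0)
  have ha1a : a1 ≤ a0 := (le_max_right _ _).trans ((le_max_left _ _).trans ha0)
  have hra : r ≤ a0 := (le_max_right _ _).trans ha0
  have h2a : (0 : ℝ) < 2 ^ a0 := by positivity
  have h2r : (0 : ℝ) < 2 ^ r := by positivity
  have h2r1 : (1 : ℝ) ≤ 2 ^ r := one_le_pow₀ (by norm_num)
  have hL := hlaws ι L lev (fun i => ⟨by have := (hlev i).1; omega, (hlev i).2⟩)
  have hthn : ∀ i, 0 ≤ th lev i := fun i => by unfold th; positivity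
  have hy3 : (CR + 3) * 2 ^ a0 ≤ y := by
    have h4 : η1 ≤ 1 / (CR + 3) := min_le_left _ _
    have h5 : 0 < y := by
      by_contra hc
      push Not at hc
      have h6 : η1 * y ≤ 0 := mul_nonpos_of_nonneg_of_nonpos hη1p.le hc
      linarith
    have h6 : 2 ^ a0 ≤ 1 / (CR + 3) * y := hy.trans (mul_le_mul_of_nonneg_right h4 h5.le)
    have h7 : (0 : ℝ) < CR + 3 := by linarith
    have h8 := mul_le_mul_of_nonneg_left h6 h7.le
    have h9 : (CR + 3) * (1 / (CR + 3) * y) = y := by field_simp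
    linarith
  set e : ι → ℝ := fun i => 2 * ε + C4 * (2 ^ a0 / 2 ^ lev i) with he
  have hsm : ∀ q : ℕ, (q : ℝ) ≤ CR * 2 ^ r →
      Ex (range (bd L)) (fun i => mu (lev i))
        (fun τ => (∑ S : Finset ι, RegA.g a0 r q (y - sz τ S)) ^ 2) ≤
      2 * (3 * D) * (∑ i, e i * th lev i) * (∑ i, th lev i) +
        2 ^ r / 2 ^ a0 * (3 * D) * ∑ i, th lev i := by
    intro q hq
    refine second_moment (range (bd L)) (fun i => mu (lev i)) lev hL.nonneg hL.mass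
      (RegA.g a0 r q) (3 * D) (2 ^ r / 2 ^ a0) e (RegA.abs_g_le a0 r q) ?_ ?_ y ?_
    · intro i u
      exact RegA.g_dens (range (bd L)) (mu (lev i)) (hL.nonneg i) D (lev i) (hL.dens i) a0 r q
        hra u
    · intro i u
      have hli := hlev i
      exact RegA.g_flat hC1 hC3 hli.2 hra (hl0 (lev i) (by omega))
        (ha1 a0 (lev i) L ha1a hli.1.le hli.2) hps hq u
    · unfold RegA.g
      have h4 : (q : ℝ) * (2 ^ a0 / 2 ^ r) ≤ CR * 2 ^ a0 := by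
        have h5 := mul_le_mul_of_nonneg_right hq
          (show (0 : ℝ) ≤ 2 ^ a0 / 2 ^ r by positivity)
        have h6 : CR * 2 ^ r * (2 ^ a0 / 2 ^ r) = CR * 2 ^ a0 := by field_simp
        linarith
      have h5 : (2 : ℝ) ^ a0 / 2 ^ r ≤ 2 ^ a0 := div_le_self h2a.le h2r1
      rw [ind_not_of, tent_eq_zero]
      · simp
      · have h6 : CR + 3 ≤ y / 2 ^ a0 := by
          rw [le_div_iff₀ h2a]
          exact hy3
        rw [abs_of_nonneg (by linarith)]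
        linarith
      · rintro ⟨_, h7⟩
        nlinarith
  set B : ℝ := 1 / η3 ^ 2 * (2 * (3 * D) * (2 * ε * E0 + C4 * η1) * E0 +
    2 ^ r * (3 * D) * η1 * E0) with hB
  have hB0 : 0 ≤ B := by rw [hB]; positivity
  have hMth : M * ∑ i, th lev i ≤ E0 := hth.trans (le_max_left _ _)
  have hSn : 0 ≤ ∑ i, th lev i := Finset.sum_nonneg fun i _ => hthn i
  have hSn2 : 0 ≤ ∑ i, 2 ^ a0 / 2 ^ lev i * th lev i :=
    Finset.sum_nonneg fun i _ => mul_nonneg (by positivity) (hthn i)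
  have hesum : ∑ i, e i * th lev i = 2 * ε * ∑ i, th lev i +
      C4 * ∑ i, 2 ^ a0 / 2 ^ lev i * th lev i := by
    rw [Finset.mul_sum, Finset.mul_sum, ← Finset.sum_add_distrib]
    refine Finset.sum_congr rfl fun i _ => ?_
    rw [he]
    ring
  have hone : ∀ q : ℕ, (q : ℝ) ≤ CR * 2 ^ r →
      Ex (range (bd L)) (fun i => mu (lev i))
        (fun τ => (M / η3) ^ 2 * (∑ S : Finset ι, RegA.g a0 r q (y - sz τ S)) ^ 2) ≤ B := by
    intro q hq
    rw [Ex_mul]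
    refine (mul_le_mul_of_nonneg_left (hsm q hq) (by positivity)).trans ?_
    rw [hesum]
    have e1 : (M / η3) ^ 2 * (2 * (3 * D) * (2 * ε * ∑ i, th lev i +
        C4 * ∑ i, 2 ^ a0 / 2 ^ lev i * th lev i) * (∑ i, th lev i) +
        2 ^ r / 2 ^ a0 * (3 * D) * ∑ i, th lev i) =
        1 / η3 ^ 2 * (2 * (3 * D) * (2 * ε * (M * ∑ i, th lev i) +
          C4 * (M * ∑ i, 2 ^ a0 / 2 ^ lev i * th lev i)) * (M * ∑ i, th lev i) +
          2 ^ r * (3 * D) * (M / 2 ^ a0) * (M * ∑ i, th lev i)) := by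
      field_simp
    rw [e1, hB]
    refine mul_le_mul_of_nonneg_left ?_ (by positivity)
    have hx0 : 0 ≤ M * ∑ i, th lev i := mul_nonneg hM.le hSn
    have hx1 : 0 ≤ M * ∑ i, 2 ^ a0 / 2 ^ lev i * th lev i := mul_nonneg hM.le hSn2
    have hx2 : 0 ≤ M / 2 ^ a0 := by positivity
    refine add_le_add ?_ ?_
    · refine mul_le_mul ?_ hMth hx0 (by positivity)
      refine mul_le_mul_of_nonneg_left ?_ (by positivity)
      refine add_le_add ?_ ?_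
      · exact mul_le_mul_of_nonneg_left hMth (by positivity)
      · exact mul_le_mul_of_nonneg_left hths hC4p.le
    · refine mul_le_mul ?_ hMth hx0 (by positivity)
      exact mul_le_mul_of_nonneg_left hMa (by positivity)
  have hmain : Ex (range (bd L)) (fun i => mu (lev i)) (fun τ => ind (∃ q : ℕ,
      (q : ℝ) ≤ CR * 2 ^ r ∧
      η3 / M < |(Wn (Set.Ico (q * (2 ^ a0 / 2 ^ r)) ((q + 1) * (2 ^ a0 / 2 ^ r))) y τ : ℝ) /
        (2 ^ a0 / 2 ^ r) - RA a0 y τ / 2 ^ a0|)) ≤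
      Ex (range (bd L)) (fun i => mu (lev i)) (fun τ => ∑ q ∈ range (⌊CR * 2 ^ r⌋₊ + 1),
        (M / η3) ^ 2 * (∑ S : Finset ι, RegA.g a0 r q (y - sz τ S)) ^ 2) := by
    refine Ex_mono _ _ hL.nonneg _ _ fun τ _ => ?_
    by_cases hex : ∃ q : ℕ, (q : ℝ) ≤ CR * 2 ^ r ∧
      η3 / M < |(Wn (Set.Ico (q * (2 ^ a0 / 2 ^ r)) ((q + 1) * (2 ^ a0 / 2 ^ r))) y τ : ℝ) /
        (2 ^ a0 / 2 ^ r) - RA a0 y τ / 2 ^ a0|
    · rw [ind_of hex]
      obtain ⟨q, hq, hlt⟩ := hex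
      rw [← RegA.sum_g] at hlt
      have hqm : q ∈ range (⌊CR * 2 ^ r⌋₊ + 1) := by
        rw [Finset.mem_range]
        exact Nat.lt_succ_of_le (Nat.le_floor hq)
      have h4 : 1 ≤ (M / η3) ^ 2 * (∑ S : Finset ι, RegA.g a0 r q (y - sz τ S)) ^ 2 := by
        rw [← mul_pow, ← sq_abs, abs_mul, abs_of_pos (show 0 < M / η3 by positivity)]
        have h5 : 1 ≤ M / η3 * |∑ S : Finset ι, RegA.g a0 r q (y - sz τ S)| := by
          have h6 := mul_le_mul_of_nonneg_left hlt.le (show 0 ≤ M / η3 by positivity)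
          have h7 : M / η3 * (η3 / M) = 1 := by field_simp
          linarith
        exact one_le_pow₀ h5
      refine h4.trans ?_
      exact Finset.single_le_sum (f := fun q : ℕ => (M / η3) ^ 2 *
        (∑ S : Finset ι, RegA.g a0 r q (y - sz τ S)) ^ 2) (fun q _ => by positivity) hqm
    · rw [ind_not_of hex]
      exact Finset.sum_nonneg fun q _ => by positivity
  refine hmain.trans ?_
  rw [Ex_fsum]
  have hsum : ∑ q ∈ range (⌊CR * 2 ^ r⌋₊ + 1), Ex (range (bd L)) (fun i => mu (lev i))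
      (fun τ => (M / η3) ^ 2 * (∑ S : Finset ι, RegA.g a0 r q (y - sz τ S)) ^ 2) ≤
      ∑ _q ∈ range (⌊CR * 2 ^ r⌋₊ + 1), B := by
    refine Finset.sum_le_sum fun q hq => hone q ?_
    rw [Finset.mem_range] at hq
    have h4 : q ≤ ⌊CR * 2 ^ r⌋₊ := Nat.lt_succ_iff.1 hq
    exact (Nat.le_floor_iff (by positivity)).1 h4
  refine hsum.trans ?_
  rw [Finset.sum_const, Finset.card_range, nsmul_eq_mul]
  have h4 : ((⌊CR * 2 ^ r⌋₊ + 1 : ℕ) : ℝ) ≤ NQ := by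
    push_cast
    rw [hNQ]
    have := Nat.floor_le (show 0 ≤ CR * 2 ^ r by positivity)
    linarith
  refine (mul_le_mul_of_nonneg_right h4 hB0).trans ?_
  have e2 : NQ * B = K * (12 * D * E0 ^ 2 * ε) + K * (U * η1) := by
    rw [hB, hK, hU]
    field_simp
    ring
  rw [e2]
  linarith

end Pool.Agent.EN
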