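import Mathlib
import Pool.Agent.Lib.MP_ec0ede_nt_EN.Defs4
import Pool.Agent.Lib.MP_ec0ede_nt_EN.LawA
import Pool.Agent.Lib.MP_ec0ede_nt_EN.LawB
import Pool.Agent.Lib.MP_ec0ede_nt_EN.LawD
import Pool.Agent.Lib.MP_ec0ede_nt_EN.Comp

set_option autoImplicit false

/-!
# MP_ec0ede_nt, project EN, module RegT: the number of hits of a union of windows by a regular
sequence, averaged over one prime of a low level
-/

noncomputable section

namespace Pool.Agent.EN

open Real Filter Topology Finset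

namespace RegT

/-- a sum over a filter is a sum with indicators -/
theorem sum_filter_ind {E : Type} [Fintype E] (P : E → Prop) [DecidablePred P] (F : E → ℝ) :
    ∑ e ∈ univ.filter P, F e = ∑ e, ind (P e) * F e := by
  rw [Finset.sum_filter]
  refine Finset.sum_congr rfl fun e _ => ?_
  by_cases h : P e
  · rw [if_pos h, ind_of h, one_mul]
  · rw [if_neg h, ind_not_of h, zero_mul]

/-- the cells `[q h, (q + 1) h)` -/
theorem cells_left (h : ℝ) (hh : 0 < h) (x : ℝ) (M : ℕ) :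
    ∑ q ∈ range M, ind ((q : ℝ) * h ≤ x ∧ x < ((q : ℝ) + 1) * h) = ind (0 ≤ x ∧ x < (M : ℝ) * h) := by
  induction M with
  | zero =>
    rw [Finset.sum_range_zero, ind_not_of]
    rintro ⟨h1, h2⟩
    simp at h2
    linarith
  | succ M ih =>
    rw [Finset.sum_range_succ, ih]
    have hM : (0 : ℝ) ≤ (M : ℝ) * h := by positivity
    push_cast
    by_cases h1 : 0 ≤ x
    · by_cases h2 : x < (M : ℝ) * h
      · rw [ind_of ⟨h1, h2⟩, ind_not_of (fun h3 => absurd h2 (not_lt.mpr h3.1)),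
          ind_of ⟨h1, by nlinarith⟩, add_zero]
      · rw [ind_not_of (fun h3 => h2 h3.2), zero_add]
        rw [not_lt] at h2
        exact ind_congr ⟨fun h3 => ⟨h1, h3.2⟩, fun h3 => ⟨h2, h3.2⟩⟩
    · rw [ind_not_of (fun h3 => h1 h3.1), ind_not_of (fun h3 => h1 (hM.trans h3.1)),
        ind_not_of (fun h3 => h1 h3.1), add_zero]

/-- the cells `(q h, (q + 1) h]` -/
theorem cells_right (h : ℝ) (hh : 0 < h) (y : ℝ) (M : ℕ) :
    ∑ q ∈ range M, ind ((q : ℝ) * h < y ∧ y ≤ ((q : ℝ) + 1) * h) = ind (0 < y ∧ y ≤ (M : ℝ) * h) := by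
  induction M with
  | zero =>
    rw [Finset.sum_range_zero, ind_not_of]
    rintro ⟨h1, h2⟩
    simp at h2
    linarith
  | succ M ih =>
    rw [Finset.sum_range_succ, ih]
    have hM : (0 : ℝ) ≤ (M : ℝ) * h := by positivity
    push_cast
    by_cases h1 : 0 < y
    · by_cases h2 : y ≤ (M : ℝ) * h
      · rw [ind_of ⟨h1, h2⟩, ind_not_of (fun h3 => absurd h3.1 (not_lt.mpr h2)),
          ind_of ⟨h1, by nlinarith⟩, add_zero]
      · rw [ind_not_of (fun h3 => h2 h3.2), zero_add]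
        rw [not_le] at h2
        exact ind_congr ⟨fun h3 => ⟨h1, h3.2⟩, fun h3 => ⟨h2, h3.2⟩⟩
    · rw [ind_not_of (fun h3 => h1 h3.1), ind_not_of (fun h3 => h1 (lt_of_le_of_lt hM h3.1)),
        ind_not_of (fun h3 => h1 h3.1), add_zero]

theorem mass_nonneg (j : ℕ) (a b : ℝ) : 0 ≤ mass j a b :=
  Finset.sum_nonneg fun p _ => mu_nonneg j p

/-- the function `F` as a sum of masses -/
theorem F_eq {n l L : ℕ} (hl : l ≤ L) (a b : Fin n → ℝ) (Z : Finset ℝ)
    (hU : ∀ t, t ∈ UW Z ↔ ∃ i, a i ≤ t ∧ t < b i)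
    (hd : ∀ t i j, a i ≤ t → t < b i → a j ≤ t → t < b j → i = j) (x : ℝ) :
    ∑ p ∈ range (bd L), mu l p * ind (x - Real.log p ∈ UW Z) =
      ∑ i, mass l (x - b i) (x - a i) := by
  have h1 : ∀ p : ℕ, ind (x - Real.log p ∈ UW Z) =
      ∑ i, ind (x - b i < Real.log p ∧ Real.log p ≤ x - a i) := by
    intro p
    by_cases h : x - Real.log p ∈ UW Z
    · obtain ⟨i, hi1, hi2⟩ := (hU _).mp h
      rw [ind_of h, Finset.sum_eq_single i]
      · rw [ind_of ⟨by linarith, by linarith⟩]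
      · intro j _ hj
        apply ind_not_of
        rintro ⟨h2, h3⟩
        exact hj (hd _ j i (by linarith) (by linarith) hi1 hi2)
      · intro h2; exact absurd (Finset.mem_univ i) h2
    · rw [ind_not_of h]
      symm
      apply Finset.sum_eq_zero
      intro i _
      apply ind_not_of
      rintro ⟨h2, h3⟩
      exact h ((hU _).mpr ⟨i, by linarith, by linarith⟩)
  simp only [h1, Finset.mul_sum]
  rw [Finset.sum_comm]
  refine Finset.sum_congr rfl fun i _ => ?_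
  rw [mass_eq hl]

/-- the masses of the cells have the sum one -/
theorem mass_cells {D : ℝ} (hD : ∀ j p : ℕ, mu j p ≠ 0 →
    2 ^ j / D ≤ Real.log p ∧ Real.log p ≤ D * 2 ^ j) (hD1 : 1 ≤ D) {l L : ℕ} (h1 : 1 ≤ l)
    (hl : l ≤ L) (h c : ℝ) (hh : 0 < h) (hc : 0 ≤ c) (M : ℕ) (hM : c + D * 2 ^ l ≤ M * h) :
    ∑ q ∈ range M, mass l ((q : ℝ) * h - c) (((q : ℝ) + 1) * h - c) = 1 := by
  simp only [mass_eq hl]
  rw [Finset.sum_comm]
  refine (Finset.sum_congr rfl fun p _ => ?_).trans (mu_mass h1 hl)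
  rw [← Finset.mul_sum]
  by_cases hp : mu l p = 0
  · rw [hp, zero_mul]
  · obtain ⟨h2, h3⟩ := hD l p hp
    have h4 : (0 : ℝ) < 2 ^ l / D := by positivity
    have h5 : ∑ q ∈ range M, ind ((q : ℝ) * h - c < Real.log p ∧
        Real.log p ≤ ((q : ℝ) + 1) * h - c) = 1 := by
      calc ∑ q ∈ range M, ind ((q : ℝ) * h - c < Real.log p ∧ Real.log p ≤ ((q : ℝ) + 1) * h - c)
          = ∑ q ∈ range M, ind ((q : ℝ) * h < Real.log p + c ∧
              Real.log p + c ≤ ((q : ℝ) + 1) * h) := by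
            refine Finset.sum_congr rfl fun q _ => ind_congr ?_
            constructor
            · rintro ⟨h6, h7⟩; exact ⟨by linarith, by linarith⟩
            · rintro ⟨h6, h7⟩; exact ⟨by linarith, by linarith⟩
        _ = 1 := by
            rw [cells_right h hh]
            exact ind_of ⟨by linarith, by linarith⟩
    rw [h5, mul_one]

/-- the function `F` is almost constant on short intervals -/
theorem F_flat {n l : ℕ} {ε C1 C2 tm h : ℝ} (hC1 : 0 < C1) (hC2 : 0 < C2)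
    (hh : 0 < h) (htm : 0 ≤ tm)
    (hflat : ∀ a b : ℝ, Real.log 2 ≤ b - a →
      |mass l a b - (b - a) * psi (a / 2 ^ l) / 2 ^ l| ≤
        (b - a) / 2 ^ l * (ε + C1 * (b - a) / 2 ^ l))
    (hlip : ∀ x y, |psi x - psi y| ≤ C2 * |x - y|) (a b : Fin n → ℝ)
    (hab : ∀ i, Real.log 2 ≤ b i - a i) (ha : ∀ i, 0 ≤ a i) (hb : ∀ i, b i ≤ tm) (x y : ℝ)
    (hxy : 0 ≤ x - y) (hxy2 : x - y ≤ h) :
    |(∑ i, mass l (x - b i) (x - a i)) - (∑ i, (b i - a i)) * (psi (y / 2 ^ l) / 2 ^ l)| ≤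
      (∑ i, (b i - a i)) * (1 / 2 ^ l * (ε + (C1 + C2) * (tm + h) / 2 ^ l)) := by
  have hP : (0 : ℝ) < 2 ^ l := by positivity
  rw [Finset.sum_mul, Finset.sum_mul, ← Finset.sum_sub_distrib]
  refine (Finset.abs_sum_le_sum_abs _ _).trans (Finset.sum_le_sum fun i _ => ?_)
  have hlog : 0 < Real.log 2 := Real.log_pos (by norm_num)
  have hw : 0 < b i - a i := lt_of_lt_of_le hlog (hab i)
  have h1 := hflat (x - b i) (x - a i) (by linarith [hab i])
  have h2 : x - a i - (x - b i) = b i - a i := by ring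
  rw [h2] at h1
  have h3 := hlip ((x - b i) / 2 ^ l) (y / 2 ^ l)
  have h4 : |(x - b i) / 2 ^ l - y / 2 ^ l| ≤ (tm + h) / 2 ^ l := by
    rw [← sub_div, abs_div, abs_of_pos hP]
    apply div_le_div_of_nonneg_right _ hP.le
    rw [abs_le]
    constructor
    · linarith [hb i]
    · linarith [hb i, ha i]
  have h5 : |psi ((x - b i) / 2 ^ l) - psi (y / 2 ^ l)| ≤ C2 * ((tm + h) / 2 ^ l) :=
    h3.trans (mul_le_mul_of_nonneg_left h4 hC2.le)
  have h6 : mass l (x - b i) (x - a i) - (b i - a i) * (psi (y / 2 ^ l) / 2 ^ l) =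
      (mass l (x - b i) (x - a i) - (b i - a i) * psi ((x - b i) / 2 ^ l) / 2 ^ l) +
      (b i - a i) / 2 ^ l * (psi ((x - b i) / 2 ^ l) - psi (y / 2 ^ l)) := by
    field_simp
    ring
  rw [h6]
  refine (abs_add_le _ _).trans ?_
  rw [abs_mul, abs_of_pos (div_pos hw hP)]
  have h7 : (b i - a i) / 2 ^ l * |psi ((x - b i) / 2 ^ l) - psi (y / 2 ^ l)| ≤
      (b i - a i) / 2 ^ l * (C2 * ((tm + h) / 2 ^ l)) :=
    mul_le_mul_of_nonneg_left h5 (div_pos hw hP).le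
  have h8 : (b i - a i) / 2 ^ l * (ε + C1 * (b i - a i) / 2 ^ l) ≤
      (b i - a i) / 2 ^ l * (ε + C1 * (tm + h) / 2 ^ l) := by
    apply mul_le_mul_of_nonneg_left _ (div_pos hw hP).le
    have : C1 * (b i - a i) / 2 ^ l ≤ C1 * (tm + h) / 2 ^ l := by
      apply div_le_div_of_nonneg_right _ hP.le
      apply mul_le_mul_of_nonneg_left _ hC1.le
      linarith [hb i, ha i]
    linarith
  calc _ ≤ (b i - a i) / 2 ^ l * (ε + C1 * (tm + h) / 2 ^ l) +
        (b i - a i) / 2 ^ l * (C2 * ((tm + h) / 2 ^ l)) := add_le_add (h1.trans h8) h7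
    _ = (b i - a i) * (1 / 2 ^ l * (ε + (C1 + C2) * (tm + h) / 2 ^ l)) := by
        field_simp
        ring

/-- the final inequality -/
theorem final {M : ℕ} (S N ps m : ℕ → ℝ) {V R η h A P B : ℝ} (hV : 0 ≤ V) (hR : 0 ≤ R)
    (hη : 0 ≤ η) (hh : 0 < h) (hA : 0 ≤ A) (hP : 0 < P) (hN : ∀ q ∈ range M, 0 ≤ N q)
    (hNR : ∀ q ∈ range M, |N q / h - R| ≤ η) (hm : ∀ q ∈ range M, 0 ≤ m q)
    (hm1 : ∑ q ∈ range M, m q = 1)
    (h1 : ∀ q ∈ range M, |S q - N q * (V * ps q)| ≤ N q * (V * (1 / P * A)))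
    (h2 : ∀ q ∈ range M, |h * ps q - m q| ≤ h / P * A) (hB : M * h ≤ B) :
    |(∑ q ∈ range M, S q) - V * R| ≤ V * (η + 2 * (R + η) * (B / P * A)) := by
  have key : (∑ q ∈ range M, S q) - V * R =
      (∑ q ∈ range M, (S q - N q * (V * ps q))) +
      V * (∑ q ∈ range M, N q / h * (h * ps q - m q)) +
      V * (∑ q ∈ range M, (N q / h - R) * m q) := by
    have e1 : ∑ q ∈ range M, (N q / h - R) * m q = (∑ q ∈ range M, N q / h * m q) - R := by
      simp only [sub_mul]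
      rw [Finset.sum_sub_distrib, ← Finset.mul_sum, hm1, mul_one]
    rw [e1, mul_sub, Finset.mul_sum, Finset.mul_sum, add_sub_assoc', ← Finset.sum_add_distrib,
      ← Finset.sum_add_distrib]
    congr 1
    refine Finset.sum_congr rfl fun q _ => ?_
    field_simp
    ring
  have hNle : ∀ q ∈ range M, N q / h ≤ R + η := fun q hq => by
    have := (abs_le.mp (hNR q hq)).2
    linarith
  have hq1 : |∑ q ∈ range M, (S q - N q * (V * ps q))| ≤ M * ((R + η) * h * (V * (1 / P * A))) := by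
    refine (Finset.abs_sum_le_sum_abs _ _).trans ?_
    refine (Finset.sum_le_card_nsmul _ _ ((R + η) * h * (V * (1 / P * A)))
      fun q hq => ?_).trans (le_of_eq ?_)
    · refine (h1 q hq).trans ?_
      have : N q ≤ (R + η) * h := by
        have := hNle q hq
        rwa [div_le_iff₀ hh] at this
      exact mul_le_mul_of_nonneg_right this (by positivity)
    · rw [Finset.card_range, nsmul_eq_mul]
  have hq2 : |∑ q ∈ range M, N q / h * (h * ps q - m q)| ≤ M * ((R + η) * (h / P * A)) := by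
    refine (Finset.abs_sum_le_sum_abs _ _).trans ?_
    refine (Finset.sum_le_card_nsmul _ _ ((R + η) * (h / P * A))
      fun q hq => ?_).trans (le_of_eq ?_)
    · rw [abs_mul, abs_of_nonneg (div_nonneg (hN q hq) hh.le)]
      exact mul_le_mul (hNle q hq) (h2 q hq) (abs_nonneg _) (by linarith)
    · rw [Finset.card_range, nsmul_eq_mul]
  have hq3 : |∑ q ∈ range M, (N q / h - R) * m q| ≤ η := by
    refine (Finset.abs_sum_le_sum_abs _ _).trans ?_
    calc ∑ q ∈ range M, |(N q / h - R) * m q| ≤ ∑ q ∈ range M, η * m q := by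
          refine Finset.sum_le_sum fun q hq => ?_
          rw [abs_mul, abs_of_nonneg (hm q hq)]
          exact mul_le_mul_of_nonneg_right (hNR q hq) (hm q hq)
      _ = η := by rw [← Finset.mul_sum, hm1, mul_one]
  rw [key]
  refine (abs_add_le _ _).trans ?_
  refine (add_le_add (abs_add_le _ _) le_rfl).trans ?_
  rw [abs_mul, abs_mul, abs_of_nonneg hV]
  have hfin : (M : ℝ) * h * ((R + η) * (V * (1 / P * A))) ≤ B * ((R + η) * (V * (1 / P * A))) :=
    mul_le_mul_of_nonneg_right hB (by positivity)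
  calc _ ≤ M * ((R + η) * h * (V * (1 / P * A))) + V * (M * ((R + η) * (h / P * A))) + V * η :=
        add_le_add (add_le_add hq1 (mul_le_mul_of_nonneg_left hq2 hV))
          (mul_le_mul_of_nonneg_left hq3 hV)
    _ = 2 * (M * h * ((R + η) * (V * (1 / P * A)))) + V * η := by
        field_simp
        ring
    _ ≤ 2 * (B * ((R + η) * (V * (1 / P * A)))) + V * η := by linarith
    _ = V * (η + 2 * (R + η) * (B / P * A)) := by
        field_simp
        ring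

end RegT

theorem reg_T : ∃ C D : ℝ, 0 < C ∧ 1 ≤ D ∧ ∀ ε : ℝ, 0 < ε → ∃ l0 : ℕ,
    ∀ (E : Type) [Fintype E] (z : E → ℝ) (l a0 r L : ℕ) (CR c tm R η : ℝ) (Z : Finset ℝ),
    l0 ≤ l → l ≤ a0 → a0 ≤ L → l0 + r ≤ a0 → (∀ q ∈ Z, 0 ≤ q ∧ q + Real.log 2 ≤ tm) → 0 ≤ tm →
    0 ≤ c → c + D * 2 ^ l + tm ≤ CR * 2 ^ a0 → 0 ≤ R → 0 ≤ η →
    (∀ q : ℕ, (q : ℝ) ≤ CR * 2 ^ r → |((univ.filter fun e : E =>
      q * (2 ^ a0 / 2 ^ r) ≤ z e ∧ z e < (q + 1) * (2 ^ a0 / 2 ^ r)).card : ℝ) /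
        (2 ^ a0 / 2 ^ r) - R| ≤ η) →
    |∑ e, ∑ p ∈ range (bd L), mu l p * ind (z e - c - Real.log p ∈ UW Z) - vol (UW Z) * R| ≤
      vol (UW Z) * (η + 2 * (R + η) * ((CR + 1) * (2 ^ a0 / 2 ^ l) *
        (ε + C * (tm + 2 ^ a0 / 2 ^ r) / 2 ^ l))) := by
  obtain ⟨D, hD1, hD⟩ := supp_bounds
  obtain ⟨C1, hC1, hflat⟩ := mass_flat
  obtain ⟨C2, hC2, hlip⟩ := psi_lip
  have hlog : 0 < Real.log 2 := Real.log_pos (by norm_num)
  refine ⟨C1 + C2, D, by positivity, hD1, fun ε hε => ?_⟩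
  obtain ⟨l1, hl1⟩ := hflat ε (Real.log 2) hε hlog
  refine ⟨max l1 1, ?_⟩
  intro E _ z l a0 r L CR c tm R η Z hl hla haL hra hZ htm hc hCR hR hη hcell
  have hll1 : l1 ≤ l := (le_max_left _ _).trans hl
  have hl1' : 1 ≤ l := (le_max_right _ _).trans hl
  have hlL : l ≤ L := hla.trans haL
  have hP : (0 : ℝ) < 2 ^ l := by positivity
  obtain ⟨h0, hh0⟩ : ∃ h0 : ℝ, h0 = 2 ^ a0 / 2 ^ r := ⟨_, rfl⟩
  have hh1 : 1 ≤ h0 := by
    rw [hh0, one_le_div (by positivity)]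
    exact pow_le_pow_right₀ (by norm_num) (by omega)
  have hh : 0 < h0 := by linarith
  have hh2 : h0 ≤ 2 ^ a0 := by
    rw [hh0]
    exact div_le_self (by positivity) (one_le_pow₀ (by norm_num))
  have hh3 : (2 : ℝ) ^ r * h0 = 2 ^ a0 := by
    rw [hh0]; field_simp
  have hlog2 : Real.log 2 ≤ h0 := by
    have := Real.log_two_lt_d9
    linarith
  rw [← hh0] at hcell ⊢
  obtain ⟨n, a, b, _, ha, hb, hab, hU, hd, hv⟩ := UW_comp Z
  have ha0 : ∀ i, 0 ≤ a i := fun i => (hZ _ (ha i)).1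
  have hbt : ∀ i, b i ≤ tm := fun i => by
    obtain ⟨q, hq, hbq⟩ := hb i
    rw [hbq]; exact (hZ q hq).2
  have hV : 0 ≤ vol (UW Z) := ENNReal.toReal_nonneg
  -- the number of cells
  have hCR0 : 0 ≤ CR := by
    by_contra h
    rw [not_le] at h
    have h1 : CR * 2 ^ a0 < 0 := mul_neg_of_neg_of_pos h (by positivity)
    have h2 : 0 < D * 2 ^ l := by positivity
    linarith
  obtain ⟨M, hM⟩ : ∃ M : ℕ, M = ⌊CR * 2 ^ r⌋₊ + 1 := ⟨_, rfl⟩
  have hfl : (⌊CR * 2 ^ r⌋₊ : ℝ) ≤ CR * 2 ^ r := Nat.floor_le (by positivity)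
  have hMlt : CR * 2 ^ r < (M : ℝ) := by
    rw [hM]; push_cast; exact Nat.lt_floor_add_one _
  have hMh : CR * 2 ^ a0 < M * h0 := by
    calc CR * 2 ^ a0 = CR * 2 ^ r * h0 := by rw [mul_assoc, hh3]
      _ < M * h0 := mul_lt_mul_of_pos_right hMlt hh
  have hMB : (M : ℝ) * h0 ≤ (CR + 1) * 2 ^ a0 := by
    have h1 : (M : ℝ) ≤ CR * 2 ^ r + 1 := by rw [hM]; push_cast; linarith
    calc (M : ℝ) * h0 ≤ (CR * 2 ^ r + 1) * h0 := mul_le_mul_of_nonneg_right h1 hh.le
      _ = CR * 2 ^ a0 + h0 := by rw [add_mul, mul_assoc, hh3, one_mul]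
      _ ≤ (CR + 1) * 2 ^ a0 := by linarith
  have hqM : ∀ q ∈ range M, (q : ℝ) ≤ CR * 2 ^ r := by
    intro q hq
    rw [Finset.mem_range, hM] at hq
    have : (q : ℝ) ≤ (⌊CR * 2 ^ r⌋₊ : ℝ) := by exact_mod_cast Nat.lt_succ_iff.mp hq
    exact this.trans hfl
  -- the function F
  obtain ⟨F, hF⟩ : ∃ F : ℝ → ℝ, F = fun x => ∑ p ∈ range (bd L), mu l p *
    ind (x - Real.log p ∈ UW Z) := ⟨_, rfl⟩
  have hFm : ∀ x, F x = ∑ i, mass l (x - b i) (x - a i) := by
    intro x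
    rw [hF]
    exact RegT.F_eq hlL a b Z hU hd x
  have hFsupp : ∀ e : E, F (z e - c) ≠ 0 → 0 ≤ z e ∧ z e < M * h0 := by
    intro e he
    rw [hF] at he
    obtain ⟨p, _, hp⟩ := Finset.exists_ne_zero_of_sum_ne_zero he
    have hp1 : mu l p ≠ 0 := left_ne_zero_of_mul hp
    have hp2 : z e - c - Real.log p ∈ UW Z := by
      by_contra h
      exact hp (by rw [ind_not_of h, mul_zero])
    obtain ⟨q, hq, hq1, hq2⟩ := hp2
    obtain ⟨h1, h2⟩ := hD l p hp1
    obtain ⟨h3, h4⟩ := hZ q hq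
    have h5 : (0 : ℝ) < 2 ^ l / D := by positivity
    constructor
    · linarith
    · refine lt_of_le_of_lt ?_ hMh
      linarith
  have hsum : ∑ e, ∑ p ∈ range (bd L), mu l p * ind (z e - c - Real.log p ∈ UW Z) =
      ∑ q ∈ range M, ∑ e ∈ univ.filter (fun e : E => (q : ℝ) * h0 ≤ z e ∧
        z e < ((q : ℝ) + 1) * h0), F (z e - c) := by
    have h1 : ∀ e : E, ∑ p ∈ range (bd L), mu l p * ind (z e - c - Real.log p ∈ UW Z) =
        F (z e - c) := by
      intro e; rw [hF]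
    simp only [h1, RegT.sum_filter_ind]
    rw [Finset.sum_comm]
    refine Finset.sum_congr rfl fun e _ => ?_
    rw [← Finset.sum_mul, RegT.cells_left h0 hh]
    by_cases h2 : F (z e - c) = 0
    · rw [h2, mul_zero]
    · rw [ind_of (hFsupp e h2), one_mul]
  rw [hsum]
  have hA0 : 0 ≤ ε + (C1 + C2) * (tm + h0) / 2 ^ l := by positivity
  have hres := RegT.final (M := M)
    (fun q : ℕ => ∑ e ∈ univ.filter (fun e : E => (q : ℝ) * h0 ≤ z e ∧
        z e < ((q : ℝ) + 1) * h0), F (z e - c))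
    (fun q : ℕ => ((univ.filter (fun e : E => (q : ℝ) * h0 ≤ z e ∧
        z e < ((q : ℝ) + 1) * h0)).card : ℝ))
    (fun q : ℕ => psi (((q : ℝ) * h0 - c) / 2 ^ l) / 2 ^ l)
    (fun q : ℕ => mass l ((q : ℝ) * h0 - c) (((q : ℝ) + 1) * h0 - c))
    (V := vol (UW Z)) (R := R) (η := η) (h := h0)
    (A := ε + (C1 + C2) * (tm + h0) / 2 ^ l) (P := 2 ^ l) (B := (CR + 1) * 2 ^ a0)
    hV hR hη hh hA0 hP (fun q _ => Nat.cast_nonneg _)
    (fun q hq => hcell q (hqM q hq)) (fun q _ => RegT.mass_nonneg _ _ _)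
    (RegT.mass_cells hD hD1 hl1' hlL h0 c hh hc M (by linarith)) ?_ ?_ hMB
  · refine hres.trans (le_of_eq ?_)
    ring
  · intro q hq
    have e1 : ∀ (s : Finset E) (t : ℝ), (s.card : ℝ) * t = ∑ _e ∈ s, t := by
      intro s t; rw [Finset.sum_const, nsmul_eq_mul]
    rw [e1, e1, ← Finset.sum_sub_distrib]
    refine (Finset.abs_sum_le_sum_abs _ _).trans (Finset.sum_le_sum fun e he => ?_)
    obtain ⟨_, h2, h3⟩ := Finset.mem_filter.mp he
    rw [hFm, hv]
    exact RegT.F_flat hC1 hC2 hh htm (hl1 l hll1) hlip a b hab ha0 hbt _ _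
      (by linarith) (by linarith)
  · intro q hq
    have h1 := hl1 l hll1 ((q : ℝ) * h0 - c) (((q : ℝ) + 1) * h0 - c) (by linarith)
    have h2 : ((q : ℝ) + 1) * h0 - c - ((q : ℝ) * h0 - c) = h0 := by ring
    rw [h2] at h1
    rw [abs_sub_comm]
    have h3 : h0 * (psi (((q : ℝ) * h0 - c) / 2 ^ l) / 2 ^ l) =
        h0 * psi (((q : ℝ) * h0 - c) / 2 ^ l) / 2 ^ l := by ring
    rw [h3]
    refine h1.trans ?_
    apply mul_le_mul_of_nonneg_left _ (div_pos hh hP).le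
    have h4 : C1 * h0 / 2 ^ l ≤ (C1 + C2) * (tm + h0) / 2 ^ l := by
      apply div_le_div_of_nonneg_right _ hP.le
      nlinarith [mul_nonneg hC1.le htm, mul_nonneg hC2.le htm, mul_nonneg hC2.le hh.le]
    linarith

end Pool.Agent.EN
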