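import Mathlib
import Pool.Agent.Lib.MP_ec0ede_nt_EN.Defs4

set_option autoImplicit false

/-!
# MP_ec0ede_nt, project EN: the quantities `th` for two blocks, sums over the indices
-/

noncomputable section

namespace Pool.Agent.EN

open Real Filter Topology Finset

theorem th_inl {κ ι : Type} [Fintype κ] [Fintype ι] (levB : κ → ℕ) (levA : ι → ℕ) (a0 : ℕ)
    (hB : ∀ i, levB i ≤ a0) (hA : ∀ i, a0 < levA i) (i : κ) :
    th (Sum.elim levB levA) (Sum.inl i) = th levB i := by
  classical
  have h : nb (Sum.elim levB levA) (Sum.inl i) = nb levB i := by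
    unfold nb
    rw [← Finset.card_map (Function.Embedding.inl : κ ↪ κ ⊕ ι)]
    congr 1
    ext x
    simp only [Finset.mem_filter, Finset.mem_univ, true_and, Finset.mem_map,
      Function.Embedding.inl_apply]
    constructor
    · intro hx
      cases x with
      | inl x => exact ⟨x, by simpa using hx, rfl⟩
      | inr x =>
        simp only [Sum.elim_inr, Sum.elim_inl] at hx
        have := hA x
        have := hB i
        omega
    · rintro ⟨y, hy, rfl⟩
      simpa using hy
  unfold th
  rw [h]
  simp

theorem th_inr {κ ι : Type} [Fintype κ] [Fintype ι] (levB : κ → ℕ) (levA : ι → ℕ) (a0 : ℕ)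
    (hB : ∀ i, levB i ≤ a0) (hA : ∀ i, a0 < levA i) (i : ι) :
    th (Sum.elim levB levA) (Sum.inr i) = 2 ^ Fintype.card κ * th levA i := by
  classical
  have h : nb (Sum.elim levB levA) (Sum.inr i) = Fintype.card κ + nb levA i := by
    unfold nb
    have h1 : (univ.filter fun i' : κ ⊕ ι => Sum.elim levB levA i' ≤
        Sum.elim levB levA (Sum.inr i)) =
        (univ : Finset κ).disjSum (univ.filter fun i' : ι => levA i' ≤ levA i) := by
      ext x
      rw [Finset.mem_filter]
      cases x with
      | inl x =>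
        simp only [Finset.mem_univ, true_and, Sum.elim_inr, Sum.elim_inl,
          Finset.inl_mem_disjSum, iff_true]
        have := hA i
        have := hB x
        omega
      | inr x => rw [Finset.inr_mem_disjSum, Finset.mem_filter]; simp
    rw [h1, Finset.card_disjSum, Finset.card_univ]
  unfold th
  rw [h, pow_add]
  simp only [Sum.elim_inr]
  ring

theorem sum_lv (K : ℕ) {n : ℕ} (ν : Fin n → ℕ) (F : ℕ → ℕ → ℝ) :
    ∑ i : Idx ν, F (nb (lv K ν) i) (lv K ν i) =
      ∑ l : Fin n, (ν l : ℝ) * F (cnt ν (l + 1)) (K + l + 1) := by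
  classical
  have hnb : ∀ (l : Fin n) (a : Fin (ν l)), nb (lv K ν) ⟨l, a⟩ = cnt ν (l + 1) := by
    intro l a
    unfold nb cnt
    have h1 : (univ.filter fun i' : Idx ν => lv K ν i' ≤ lv K ν ⟨l, a⟩) =
        (univ : Finset (Fin n)).sigma
          (fun l' => if (l' : ℕ) < l + 1 then (univ : Finset (Fin (ν l'))) else ∅) := by
      ext ⟨l', a'⟩
      rw [Finset.mem_filter]
      simp only [Finset.mem_univ, true_and, Finset.mem_sigma, lv]
      by_cases h : (l' : ℕ) < l + 1
      · rw [if_pos h]
        simp only [Finset.mem_univ, iff_true]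
        omega
      · rw [if_neg h]
        simp only [Finset.notMem_empty, iff_false]
        omega
    rw [h1, Finset.card_sigma]
    apply Finset.sum_congr rfl
    intro l' _
    split_ifs <;> simp
  rw [Fintype.sum_sigma]
  apply Finset.sum_congr rfl
  intro l _
  have h2 : ∀ a : Fin (ν l), F (nb (lv K ν) ⟨l, a⟩) (lv K ν ⟨l, a⟩) =
      F (cnt ν (l + 1)) (K + l + 1) := by
    intro a
    rw [hnb l a]
    rfl
  rw [Finset.sum_congr rfl fun a _ => h2 a]
  simp

theorem sum_th (K : ℕ) {n : ℕ} (ν : Fin n → ℕ) :
    ∑ i : Idx ν, th (lv K ν) i =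
      ∑ l : Fin n, (ν l : ℝ) * (2 ^ cnt ν (l + 1) / 2 ^ (K + l + 1)) :=
  sum_lv K ν (fun n l => 2 ^ n / 2 ^ l)

theorem card_lv_gt (K : ℕ) {n : ℕ} (ν : Fin n → ℕ) (a s : ℕ) (h : K + s ≤ a) (ha : a = K + n) :
    (univ.filter fun i : Idx ν => a < lv K ν i + s).card = cnt ν n - cnt ν (n - s) := by
  classical
  have h1 : (univ.filter fun i : Idx ν => a < lv K ν i + s).card =
      ∑ i : Fin n, if (i : ℕ) < n - s then 0 else ν i := by
    have h2 : (univ.filter fun i : Idx ν => a < lv K ν i + s) =
        (univ : Finset (Fin n)).sigma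
          (fun l' => if (l' : ℕ) < n - s then ∅ else (univ : Finset (Fin (ν l')))) := by
      ext ⟨l', a'⟩
      rw [Finset.mem_filter]
      simp only [Finset.mem_univ, true_and, Finset.mem_sigma, lv]
      by_cases hl : (l' : ℕ) < n - s
      · rw [if_pos hl]
        simp only [Finset.notMem_empty, iff_false]
        omega
      · rw [if_neg hl]
        simp only [Finset.mem_univ, iff_true]
        omega
    rw [h2, Finset.card_sigma]
    apply Finset.sum_congr rfl
    intro l' _
    split_ifs <;> simp
  have h3 : cnt ν n = (∑ i : Fin n, if (i : ℕ) < n - s then 0 else ν i) + cnt ν (n - s) := by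
    unfold cnt
    rw [← Finset.sum_add_distrib]
    apply Finset.sum_congr rfl
    intro i _
    rw [if_pos i.2]
    split_ifs <;> simp
  omega

end Pool.Agent.EN
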