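import Mathlib
import Pool.Agent.Lib.MP_ec0ede_nt_EN.Defs4
import Pool.Agent.Lib.MP_ec0ede_nt_EN.LawA
import Pool.Agent.Lib.MP_ec0ede_nt_EN.LawB
import Pool.Agent.Lib.MP_ec0ede_nt_EN.LawC
import Pool.Agent.Lib.MP_ec0ede_nt_EN.ExB
import Pool.Agent.Lib.MP_ec0ede_nt_EN.VarA
import Pool.Agent.Lib.MP_ec0ede_nt_EN.ExcS
import Pool.Agent.Lib.MP_ec0ede_nt_EN.Comp
import Pool.Agent.Lib.MP_ec0ede_nt_EN.RegA
import Pool.Agent.Lib.MP_ec0ede_nt_EN.RegT
import Pool.Agent.Lib.MP_ec0ede_nt_EN.KeyM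
import Pool.Agent.Lib.MP_ec0ede_nt_EN.ThS

set_option autoImplicit false

/-!
# MP_ec0ede_nt, project EN, module Key: the key proposition
-/

noncomputable section

namespace Pool.Agent.EN

open Real Filter Topology Finset

namespace Key

theorem base_nonneg (k : ℕ) : 0 ≤ 1 - (1 / 2 : ℝ) ^ k := by
  have : (1 / 2 : ℝ) ^ k ≤ 1 := pow_le_one₀ (by norm_num) (by norm_num)
  linarith

theorem base_le_one (k : ℕ) : 1 - (1 / 2 : ℝ) ^ k ≤ 1 := by
  have : (0 : ℝ) ≤ (1 / 2 : ℝ) ^ k := by positivity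
  linarith

theorem choose_kappa (R : ℕ) (A : ℕ → ℝ) {δ : ℝ} (hδ : 0 < δ) :
    ∃ κ0 : ℕ, ∀ n ≥ κ0, ∑ k ∈ range (R + 1), A k * (k * (1 - (1 / 2 : ℝ) ^ k) ^ n) ≤ δ := by
  have h : Tendsto (fun n : ℕ => ∑ k ∈ range (R + 1), A k * (k * (1 - (1 / 2 : ℝ) ^ k) ^ n))
      atTop (𝓝 (∑ k ∈ range (R + 1), (0 : ℝ))) := by
    refine tendsto_finsetSum _ fun k _ => ?_
    rcases Nat.eq_zero_or_pos k with rfl | hk
    · simp
    · have h1 : Tendsto (fun n : ℕ => (1 - (1 / 2 : ℝ) ^ k) ^ n) atTop (𝓝 0) := by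
        refine tendsto_pow_atTop_nhds_zero_of_lt_one (base_nonneg k) ?_
        have : (0 : ℝ) < (1 / 2 : ℝ) ^ k := by positivity
        linarith
      have h2 := (h1.const_mul (k : ℝ)).const_mul (A k)
      simpa using h2
  rw [sum_const_zero] at h
  exact Filter.eventually_atTop.1 (h.eventually_le_const hδ)

theorem choose_eps (R : ℕ) (V0 : ℝ) {δ : ℝ} (hδ : 0 < δ) :
    ∃ ε : ℝ, 0 < ε ∧ ∑ k ∈ range (R + 1), ((V0 + ε) ^ k - V0 ^ k) ≤ δ := by
  have hc : Continuous (fun ε : ℝ => ∑ k ∈ range (R + 1), ((V0 + ε) ^ k - V0 ^ k)) := by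
    fun_prop
  have h := hc.tendsto 0
  simp only [add_zero, sub_self, sum_const_zero] at h
  have h2 := (h.mono_left (nhdsWithin_le_nhds (s := Set.Ioi (0 : ℝ)))).eventually_le_const hδ
  obtain ⟨ε, h3, h4⟩ := (h2.and self_mem_nhdsWithin).exists
  exact ⟨ε, h4, h3⟩

theorem choose_R (V0 : ℝ) {δ : ℝ} (hδ : 0 < δ) : ∃ R : ℕ, 2 * V0 ^ R / R.factorial ≤ δ := by
  have h := (FloorSemiring.tendsto_pow_div_factorial_atTop V0).const_mul 2
  rw [mul_zero] at h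
  obtain ⟨R, hR⟩ := (h.eventually_le_const hδ).exists
  refine ⟨R, ?_⟩
  rw [mul_div_assoc]
  exact hR

theorem choose_r (B : ℝ) {δ : ℝ} (hδ : 0 < δ) : ∃ r : ℕ, B * (1 / 2 ^ r) ≤ δ := by
  have h1 : Tendsto (fun n : ℕ => (1 / 2 : ℝ) ^ n) atTop (𝓝 0) :=
    tendsto_pow_atTop_nhds_zero_of_lt_one (by norm_num) (by norm_num)
  have h := h1.const_mul B
  rw [mul_zero] at h
  obtain ⟨r, hr⟩ := (h.eventually_le_const hδ).exists
  refine ⟨r, ?_⟩
  have e : (1 : ℝ) / 2 ^ r = (1 / 2) ^ r := by rw [div_pow, one_pow]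
  rw [e]
  exact hr

theorem markov {ι : Type} [Fintype ι] [DecidableEq ι] (P : Finset ℕ) (m : ι → ℕ → ℝ)
    (hm : ∀ i p, 0 ≤ m i p) (F : (ι → ℕ) → ℝ) (hF : ∀ τ, 0 ≤ F τ) {V : ℝ} (hV : 0 < V) :
    Ex P m (fun τ => ind (V < F τ)) ≤ Ex P m F / V := by
  have h1 : Ex P m (fun τ => ind (V < F τ)) ≤ Ex P m (fun τ => (1 / V) * F τ) := by
    refine Ex_mono P m hm _ _ fun τ _ => ?_
    have h0 : 0 ≤ (1 / V) * F τ := mul_nonneg (by positivity) (hF τ)
    by_cases h : V < F τ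
    · rw [ind_of h, one_div, ← div_eq_inv_mul, le_div_iff₀ hV]
      linarith
    · rw [ind_not_of h]
      exact h0
  rw [Ex_mul] at h1
  calc _ ≤ _ := h1
    _ = _ := by ring

theorem RA_nonneg {ι : Type} [Fintype ι] (a : ℕ) (y : ℝ) (τ : ι → ℕ) : 0 ≤ RA a y τ :=
  Finset.sum_nonneg fun _ _ => tent_nonneg _

theorem RA_mean {ι : Type} [Fintype ι] [DecidableEq ι] {P : Finset ℕ} {m : ι → ℕ → ℝ}
    {lev : ι → ℕ} {D : ℝ} (hL : Laws P m lev D) (a0 : ℕ) (y : ℝ)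
    (hy : 2 * 2 ^ a0 ≤ y) :
    Ex P m (fun τ => RA a0 y τ / 2 ^ a0) ≤ 2 * D * ∑ i, th lev i := by
  have hp : (0 : ℝ) < 2 ^ a0 := by positivity
  have hp1 : (1 : ℝ) ≤ 2 ^ a0 := one_le_pow₀ (by norm_num)
  have hDD : ∀ i u, ∑ p ∈ P, m i p * |(fun x : ℝ => tent (x / 2 ^ a0 - 1) / 2 ^ a0)
      (u - Real.log p)| ≤ 2 * D / 2 ^ lev i := by
    intro i u
    have h1 : ∀ p ∈ P, m i p * |(fun x : ℝ => tent (x / 2 ^ a0 - 1) / 2 ^ a0)
        (u - Real.log p)| ≤ if (u - 2 * 2 ^ a0 ≤ Real.log p ∧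
          Real.log p ≤ u - 2 * 2 ^ a0 + 2 * 2 ^ a0) then m i p * (1 / 2 ^ a0) else 0 := by
      intro p _
      have h2 : 0 ≤ m i p := hL.nonneg i p
      simp only
      rw [abs_of_nonneg (div_nonneg (tent_nonneg _) hp.le)]
      split_ifs with h
      · refine mul_le_mul_of_nonneg_left ?_ h2
        exact div_le_div_of_nonneg_right (tent_le_one _) hp.le
      · have h3 : tent ((u - Real.log p) / 2 ^ a0 - 1) = 0 := by
          apply tent_eq_zero
          by_contra hc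
          rw [not_le, abs_lt] at hc
          apply h
          have h4 : (u - Real.log p) / 2 ^ a0 < 2 := by linarith [hc.2]
          have h5 : 0 < (u - Real.log p) / 2 ^ a0 := by linarith [hc.1]
          rw [div_lt_iff₀ hp] at h4
          rw [lt_div_iff₀ hp] at h5
          constructor <;> linarith
        rw [h3, zero_div, mul_zero]
    refine le_trans (Finset.sum_le_sum h1) ?_
    rw [← Finset.sum_filter, ← Finset.sum_mul]
    have h6 := hL.dens i (u - 2 * 2 ^ a0) (2 * 2 ^ a0) (by linarith)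
    calc _ ≤ D * (2 * 2 ^ a0) / 2 ^ lev i * (1 / 2 ^ a0) :=
          mul_le_mul_of_nonneg_right h6 (by positivity)
      _ = 2 * D / 2 ^ lev i := by
          field_simp
  have h := first_moment P m lev hL.nonneg hL.mass
    (fun x : ℝ => tent (x / 2 ^ a0 - 1) / 2 ^ a0) (2 * D) hDD y
  have h7 : tent (y / 2 ^ a0 - 1) = 0 := by
    apply tent_eq_zero
    have h8 : 2 ≤ y / 2 ^ a0 := by rw [le_div_iff₀ hp]; exact hy
    rw [abs_of_nonneg (by linarith)]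
    linarith
  simp only [h7, zero_div, abs_zero, zero_add] at h
  refine le_trans (le_of_eq ?_) h
  congr 1
  funext τ
  unfold RA
  rw [Finset.sum_div]
  refine Finset.sum_congr rfl fun S _ => ?_
  rw [abs_of_nonneg (div_nonneg (tent_nonneg _) hp.le)]

theorem log_two_le_one : Real.log 2 ≤ 1 := by
  have := Real.log_two_lt_d9
  linarith

theorem vol_le_card (Z : Finset ℝ) : vol (UW Z) ≤ Z.card := by
  refine le_trans (vol_UW_le Z) ?_
  have : (0 : ℝ) ≤ Z.card := Nat.cast_nonneg _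
  nlinarith [log_two_le_one]

theorem vol_nonneg (T : Set ℝ) : 0 ≤ vol T := ENNReal.toReal_nonneg

theorem err_num {K2 vT M Rv η3 V0 X ε : ℝ} (hM : 0 < M) (h1 : K2 * vT ≤ M)
    (h2 : K2 * (vT * Rv) ≤ V0) (h3 : 0 ≤ η3) (hX : 0 ≤ X) (h : η3 + 2 * (V0 + η3) * X ≤ ε) :
    K2 * (vT * (η3 / M + 2 * (Rv + η3 / M) * X)) ≤ ε := by
  have h4 : (K2 * vT) * (η3 / M) ≤ η3 := by
    calc (K2 * vT) * (η3 / M) ≤ M * (η3 / M) :=
          mul_le_mul_of_nonneg_right h1 (div_nonneg h3 hM.le)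
      _ = η3 := by field_simp
  have h5 : (K2 * (vT * Rv) + (K2 * vT) * (η3 / M)) * X ≤ (V0 + η3) * X :=
    mul_le_mul_of_nonneg_right (add_le_add h2 h4) hX
  calc K2 * (vT * (η3 / M + 2 * (Rv + η3 / M) * X)) =
        (K2 * vT) * (η3 / M) + 2 * ((K2 * (vT * Rv) + (K2 * vT) * (η3 / M)) * X) := by ring
    _ ≤ η3 + 2 * ((V0 + η3) * X) := by linarith
    _ = η3 + 2 * (V0 + η3) * X := by ring
    _ ≤ ε := h

theorem pow_quot {a0 l s1 : ℕ} (h : a0 < l + s1) : (2 : ℝ) ^ a0 / 2 ^ l ≤ 2 ^ s1 := by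
  rw [div_le_iff₀ (by positivity), ← pow_add]
  exact pow_le_pow_right₀ (by norm_num) (by omega)

theorem X_num {CR CT ε4 η1 tm : ℝ} {a0 l r s1 : ℕ} (hCR : 0 ≤ CR + 1) (hε : 0 ≤ ε4)
    (hCT : 0 ≤ CT) (hη : 0 ≤ η1) (htm : tm ≤ η1 * 2 ^ a0) (h : a0 < l + s1) :
    (CR + 1) * (2 ^ a0 / 2 ^ l) * (ε4 + CT * (tm + 2 ^ a0 / 2 ^ r) / 2 ^ l) ≤
      (CR + 1) * 2 ^ s1 * (ε4 + CT * (η1 + 1 / 2 ^ r) * 2 ^ s1) := by
  have hq := pow_quot h
  have hq0 : (0 : ℝ) ≤ 2 ^ a0 / 2 ^ l := by positivity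
  have h1 : CT * (tm + 2 ^ a0 / 2 ^ r) / 2 ^ l ≤ CT * (η1 + 1 / 2 ^ r) * 2 ^ s1 := by
    calc CT * (tm + 2 ^ a0 / 2 ^ r) / 2 ^ l ≤ CT * (η1 * 2 ^ a0 + 2 ^ a0 / 2 ^ r) / 2 ^ l := by
          gcongr
      _ = CT * (η1 + 1 / 2 ^ r) * (2 ^ a0 / 2 ^ l) := by ring
      _ ≤ CT * (η1 + 1 / 2 ^ r) * 2 ^ s1 := by
          gcongr
  have h2 : 0 ≤ CT * (η1 + 1 / 2 ^ r) * 2 ^ s1 := by positivity
  calc (CR + 1) * (2 ^ a0 / 2 ^ l) * (ε4 + CT * (tm + 2 ^ a0 / 2 ^ r) / 2 ^ l) ≤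
        (CR + 1) * (2 ^ a0 / 2 ^ l) * (ε4 + CT * (η1 + 1 / 2 ^ r) * 2 ^ s1) := by
        apply mul_le_mul_of_nonneg_left _ (mul_nonneg hCR hq0)
        linarith
    _ ≤ (CR + 1) * 2 ^ s1 * (ε4 + CT * (η1 + 1 / 2 ^ r) * 2 ^ s1) := by
        apply mul_le_mul_of_nonneg_right _ (by linarith)
        exact mul_le_mul_of_nonneg_left hq hCR

theorem Wn_card {ι : Type} [Fintype ι] (y : ℝ) (τ : ι → ℕ) (a b : ℝ) :
    (Wn (Set.Ico a b) y τ : ℝ) =
      ((univ.filter fun S : Finset ι => a ≤ y - sz τ S ∧ y - sz τ S < b).card : ℝ) := by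
  unfold Wn
  congr 2
  ext S
  simp only [mem_filter, mem_univ, true_and, Set.mem_Ico]

theorem th_nonneg {ι : Type} [Fintype ι] (lev : ι → ℕ) (i : ι) : 0 ≤ th lev i := by
  unfold th
  positivity

/-- the sum of `th` over both blocks -/
theorem sum_th_elim {κ ι : Type} [Fintype κ] [Fintype ι] (levB : κ → ℕ) (levA : ι → ℕ) (a0 : ℕ)
    (hB : ∀ i, levB i ≤ a0) (hA : ∀ i, a0 < levA i) :
    ∑ i, th (Sum.elim levB levA) i = ∑ i, th levB i + 2 ^ Fintype.card κ * ∑ i, th levA i := by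
  rw [Fintype.sum_sum_type, Finset.mul_sum]
  congr 1
  · exact Finset.sum_congr rfl fun i _ => th_inl levB levA a0 hB hA i
  · exact Finset.sum_congr rfl fun i _ => th_inr levB levA a0 hB hA i

theorem sum_th_low {κ ι : Type} [Fintype κ] [Fintype ι] (levB : κ → ℕ) (levA : ι → ℕ) (a0 : ℕ)
    (hB : ∀ i, levB i ≤ a0) (hA : ∀ i, a0 < levA i) :
    ∑ i ∈ univ.filter (fun i : κ ⊕ ι => Sum.elim levB levA i ≤ a0), th (Sum.elim levB levA) i =
      ∑ i, th levB i := by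
  rw [Finset.sum_filter, Fintype.sum_sum_type]
  have h1 : ∑ i : ι, (if Sum.elim levB levA (Sum.inr i) ≤ a0 then
      th (Sum.elim levB levA) (Sum.inr i) else 0) = 0 := by
    refine Finset.sum_eq_zero fun i _ => ?_
    rw [if_neg]
    simp only [Sum.elim_inr, not_le]
    exact hA i
  rw [h1, add_zero]
  refine Finset.sum_congr rfl fun i _ => ?_
  rw [if_pos (by simpa using hB i)]
  exact th_inl levB levA a0 hB hA i

/-- the bound for the exceptional tuples -/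
theorem exc_le {W CE DL zc η1 s1 s2 pk k : ℝ} {n : ℕ} (hCE : 0 ≤ CE) (hDL : 0 ≤ DL)
    (hz : 0 ≤ zc) (h0 : 0 ≤ s1) (hpk : 0 ≤ k * pk) (h1 : zc * s1 ≤ W) (h1' : 0 ≤ s2)
    (h2 : zc * s2 ≤ η1) :
    (1 + CE * DL * zc * s1) ^ n * (CE * DL * zc * s2 + k * pk) ≤
      (1 + CE * DL * W) ^ n * (CE * DL * η1 + k * pk) := by
  have e1 : CE * DL * zc * s1 ≤ CE * DL * W := by
    calc CE * DL * zc * s1 = CE * DL * (zc * s1) := by ring
      _ ≤ CE * DL * W := mul_le_mul_of_nonneg_left h1 (mul_nonneg hCE hDL)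
  have e2 : CE * DL * zc * s2 ≤ CE * DL * η1 := by
    calc CE * DL * zc * s2 = CE * DL * (zc * s2) := by ring
      _ ≤ CE * DL * η1 := mul_le_mul_of_nonneg_left h2 (mul_nonneg hCE hDL)
  have e3 : 0 ≤ CE * DL * zc * s1 := by positivity
  have e4 : 0 ≤ CE * DL * zc * s2 := by positivity
  refine mul_le_mul ?_ (by linarith) (by linarith) ?_
  · exact pow_le_pow_left₀ (by linarith) (by linarith) n
  · exact pow_nonneg (by linarith) n

end Key

open Key in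
theorem key (D0 C1 : ℝ) {η : ℝ} (hη : 0 < η) : ∃ κ0 : ℕ, ∀ s1 : ℕ, ∃ η1 : ℝ, 0 < η1 ∧
    ∃ a00 : ℕ, ∀ (κ ι : Type) [Fintype κ] [DecidableEq κ] [Fintype ι] [DecidableEq ι]
    (L a0 : ℕ) (levB : κ → ℕ) (levA : ι → ℕ) (Z : Finset ℝ) (tm y : ℝ),
    a00 ≤ a0 → a0 ≤ L → (∀ i, 1 ≤ levB i ∧ levB i ≤ a0) → (∀ i, a0 < levA i ∧ levA i ≤ L) →
    Z.Nonempty → (∀ q ∈ Z, 0 ≤ q ∧ q + Real.log 2 ≤ tm) → tm ≤ η1 * 2 ^ a0 → 2 ^ a0 ≤ η1 * y →
    Z.card * ∑ i, th levB i ≤ η1 → Z.card * 2 ^ Fintype.card κ * ∑ i, th levA i ≤ D0 →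
    Z.card * 2 ^ Fintype.card κ / 2 ^ a0 ≤ η1 →
    Z.card * 2 ^ Fintype.card κ * ∑ i, 2 ^ a0 / 2 ^ levA i * th levA i ≤ η1 →
    ∑ i, (2 : ℝ) ^ levB i ≤ C1 * 2 ^ a0 → κ0 ≤ (univ.filter fun i => a0 < levB i + s1).card →
    |Ex (range (bd L)) (fun i => mu (levB i)) (fun σ => Ex (range (bd L)) (fun i => mu (levA i))
        (fun τ => ind (Wn (UW Z) y (Sum.elim σ τ) = 0))) -
      Ex (range (bd L)) (fun i => mu (levA i)) (fun τ =>
        Real.exp (-(2 ^ Fintype.card κ * (vol (UW Z) * (RA a0 y τ / 2 ^ a0)))))| ≤ η := by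
  classical
  obtain ⟨DL, hDL, hlaws⟩ := laws_mu
  obtain ⟨DS, hDS, hsupp⟩ := supp_bounds
  obtain ⟨CT, DT, hCT, hDT, hreg⟩ := reg_T
  choose CE hCE hexc using exc_bound
  have hDL0 : 0 ≤ DL := by linarith
  have hCE0 : ∀ k, 0 ≤ CE k := fun k => by linarith [hCE k]
  obtain ⟨D1, hD1, hD10⟩ : ∃ D1 : ℝ, D0 ≤ D1 ∧ 0 ≤ D1 := ⟨max D0 0, le_max_left _ _, le_max_right _ _⟩
  obtain ⟨C2, hC2, hC20⟩ : ∃ C2 : ℝ, C1 ≤ C2 ∧ 0 ≤ C2 := ⟨max C1 0, le_max_left _ _, le_max_right _ _⟩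
  obtain ⟨V0, hV1, hV2⟩ : ∃ V0 : ℝ, 1 ≤ V0 ∧ 16 * DL * D1 / η ≤ V0 :=
    ⟨max 1 (16 * DL * D1 / η), le_max_left _ _, le_max_right _ _⟩
  have hV0 : 0 < V0 := by linarith
  obtain ⟨R, hR⟩ := choose_R V0 (δ := η / 8) (by positivity)
  obtain ⟨κ0, hκ0⟩ := choose_kappa R (fun k => V0 ^ k + (1 + CE k * DL * (D1 + 1)) ^ k)
    (δ := η / 8) (by positivity)
  obtain ⟨ε, hε, hεs⟩ := choose_eps R V0 (δ := η / 8) (by positivity)
  refine ⟨κ0, fun s1 => ?_⟩
  set CR := DS * C2 + DT + 1 with hCRdef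
  have hCR : 0 ≤ CR + 1 := by positivity
  set η3 := ε / 2 with hη3def
  have hη3 : 0 < η3 := by positivity
  set B := 2 * (V0 + η3) * ((CR + 1) * 2 ^ s1) with hBdef
  have hCR1 : 0 < CR + 1 := by positivity
  have hB0 : 0 < B := by positivity
  obtain ⟨l0, hl0⟩ := hreg (ε / (8 * B)) (by positivity)
  obtain ⟨r, hr⟩ := choose_r (B * CT * 2 ^ s1) (δ := ε / 8) (by positivity)
  obtain ⟨ηA, hηA, aA, hregA⟩ := reg_A CR D1 r (η2 := η / 16) (η3 := η3) (by positivity) hη3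
  set SE := ∑ k ∈ range (R + 1), (1 + CE k * DL * (D1 + 1)) ^ k * (CE k * DL) with hSEdef
  have hSE : 0 ≤ SE := by
    refine Finset.sum_nonneg fun k _ => ?_
    have := hCE0 k
    positivity
  obtain ⟨η1, hη1, hη1A, hη1q, hη1B, hη1S⟩ : ∃ η1 : ℝ, 0 < η1 ∧ η1 ≤ ηA ∧ η1 ≤ 1 / 4 ∧
      B * CT * 2 ^ s1 * η1 ≤ ε / 8 ∧ SE * η1 ≤ η / 8 := by
    have hBC : 0 < B * CT * 2 ^ s1 := by positivity
    refine ⟨min (min ηA (1 / 4)) (min (ε / (8 * (B * CT * 2 ^ s1))) (η / (8 * (SE + 1)))),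
      ?_, ?_, ?_, ?_, ?_⟩
    · refine lt_min (lt_min hηA (by norm_num)) (lt_min (by positivity) (by positivity))
    · exact le_trans (min_le_left _ _) (min_le_left _ _)
    · exact le_trans (min_le_left _ _) (min_le_right _ _)
    · calc B * CT * 2 ^ s1 * _ ≤ B * CT * 2 ^ s1 * (ε / (8 * (B * CT * 2 ^ s1))) :=
            mul_le_mul_of_nonneg_left (le_trans (min_le_right _ _) (min_le_left _ _)) hBC.le
        _ = ε / 8 := by field_simp
    · calc SE * _ ≤ SE * (η / (8 * (SE + 1))) :=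
            mul_le_mul_of_nonneg_left (le_trans (min_le_right _ _) (min_le_right _ _)) hSE
        _ ≤ (SE + 1) * (η / (8 * (SE + 1))) :=
            mul_le_mul_of_nonneg_right (by linarith) (by positivity)
        _ = η / 8 := by field_simp
  refine ⟨η1, hη1, max aA (max (l0 + r) (l0 + s1)), ?_⟩
  intro κ ι _ _ _ _ L a0 levB levA Z tm y ha h2 hB hA hZ hq ht hy hs1 hs2 hs3 hs4 hC hκ
  have haA : aA ≤ a0 := le_trans (le_max_left _ _) ha
  have har : l0 + r ≤ a0 := le_trans (le_trans (le_max_left _ _) (le_max_right _ _)) ha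
  have has : l0 + s1 ≤ a0 := le_trans (le_trans (le_max_right _ _) (le_max_right _ _)) ha
  have hp : (0 : ℝ) < 2 ^ a0 := by positivity
  have hy0 : 0 < y := by
    by_contra hc
    have : η1 * y ≤ 0 := mul_nonpos_of_nonneg_of_nonpos hη1.le (not_lt.1 hc)
    linarith
  have htm0 : 0 ≤ tm := by
    obtain ⟨q, hqZ⟩ := hZ
    have h3 := hq q hqZ
    have h4 : 0 < Real.log 2 := Real.log_pos (by norm_num)
    linarith [h3.1, h3.2]
  have htm1 : tm ≤ 2 ^ a0 := by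
    refine le_trans ht ?_
    calc η1 * 2 ^ a0 ≤ 1 * 2 ^ a0 := mul_le_mul_of_nonneg_right (by linarith) hp.le
      _ = 2 ^ a0 := one_mul _
  have hyA : 4 * 2 ^ a0 ≤ y := by nlinarith
  have hyT : y ∉ UW Z := by
    rintro ⟨q, hqZ, _, h4⟩
    have := (hq q hqZ).2
    linarith
  have hK : (0 : ℝ) < 2 ^ Fintype.card κ := by positivity
  have hzc : (0 : ℝ) < Z.card := by exact_mod_cast hZ.card_pos
  set M : ℝ := Z.card * 2 ^ Fintype.card κ with hMdef
  have hM : 0 < M := by positivity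
  have hvolM : 2 ^ Fintype.card κ * vol (UW Z) ≤ M := by
    calc 2 ^ Fintype.card κ * vol (UW Z) ≤ 2 ^ Fintype.card κ * Z.card :=
          mul_le_mul_of_nonneg_left (vol_le_card Z) hK.le
      _ = M := by rw [hMdef]; ring
  have hthB : 0 ≤ ∑ i, th levB i := Finset.sum_nonneg fun i _ => th_nonneg _ _
  have hthA : 0 ≤ ∑ i, th levA i := Finset.sum_nonneg fun i _ => th_nonneg _ _
  have hB' : ∀ i, levB i ≤ a0 := fun i => (hB i).2
  have hA' : ∀ i, a0 < levA i := fun i => (hA i).1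
  set lam : (ι → ℕ) → ℝ := fun τ => vol (UW Z) * (RA a0 y τ / 2 ^ a0) with hlamdef
  have hlam : ∀ τ, 0 ≤ lam τ := fun τ =>
    mul_nonneg (vol_nonneg _) (div_nonneg (RA_nonneg _ _ _) hp.le)
  set Gd : (ι → ℕ) → Prop := fun τ => (¬ ∃ q : ℕ, (q : ℝ) ≤ CR * 2 ^ r ∧
      η3 / M < |(Wn (Set.Ico (q * (2 ^ a0 / 2 ^ r)) ((q + 1) * (2 ^ a0 / 2 ^ r))) y τ : ℝ) /
        (2 ^ a0 / 2 ^ r) - RA a0 y τ / 2 ^ a0|) ∧ 2 ^ Fintype.card κ * lam τ ≤ V0 with hGddef
  -- the laws of the high levels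
  have hLA : Laws (range (bd L)) (fun i => mu (levA i)) levA DL :=
    hlaws ι L levA fun i => ⟨by have := hA' i; omega, (hA i).2⟩
  have hA0 : ∀ (i : ι) (p : ℕ), 0 ≤ mu (levA i) p := fun i p => mu_nonneg _ _
  have hB00 : ∀ (i : κ) (p : ℕ), 0 ≤ mu (levB i) p := fun i p => mu_nonneg _ _
  -- the probability of the bad event
  have hbad : Ex (range (bd L)) (fun i => mu (levA i)) (fun τ => ind (¬ Gd τ)) ≤
      η / 16 + η / 8 := by
    have e1 : Ex (range (bd L)) (fun i => mu (levA i)) (fun τ => ind (¬ Gd τ)) ≤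
        Ex (range (bd L)) (fun i => mu (levA i)) (fun τ => ind (∃ q : ℕ, (q : ℝ) ≤ CR * 2 ^ r ∧
          η3 / M < |(Wn (Set.Ico (q * (2 ^ a0 / 2 ^ r)) ((q + 1) * (2 ^ a0 / 2 ^ r))) y τ : ℝ) /
            (2 ^ a0 / 2 ^ r) - RA a0 y τ / 2 ^ a0|) + ind (V0 < 2 ^ Fintype.card κ * lam τ)) := by
      refine Ex_mono _ _ hA0 _ _ fun τ _ => ?_
      refine le_trans (ind_mono (q := (∃ q : ℕ, (q : ℝ) ≤ CR * 2 ^ r ∧
          η3 / M < |(Wn (Set.Ico (q * (2 ^ a0 / 2 ^ r)) ((q + 1) * (2 ^ a0 / 2 ^ r))) y τ : ℝ) /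
            (2 ^ a0 / 2 ^ r) - RA a0 y τ / 2 ^ a0|) ∨ V0 < 2 ^ Fintype.card κ * lam τ) ?_)
        (ind_or_le _ _)
      intro hn
      by_contra hc
      rw [not_or, not_lt] at hc
      exact hn hc
    rw [Ex_add] at e1
    have e2 := hregA ι L a0 levA M y haA hA hM (le_trans hy
      (mul_le_mul_of_nonneg_right hη1A hy0.le)) (le_trans hs2 hD1) (le_trans hs3 hη1A)
      (le_trans hs4 hη1A)
    have e3 := markov (range (bd L)) (fun i => mu (levA i)) hA0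
      (fun τ => 2 ^ Fintype.card κ * lam τ) (fun τ => mul_nonneg hK.le (hlam τ)) hV0
    have e4 : Ex (range (bd L)) (fun i => mu (levA i)) (fun τ => 2 ^ Fintype.card κ * lam τ) ≤
        2 * DL * D1 := by
      have e5 : Ex (range (bd L)) (fun i => mu (levA i))
          (fun τ => 2 ^ Fintype.card κ * lam τ) = 2 ^ Fintype.card κ * vol (UW Z) *
            Ex (range (bd L)) (fun i => mu (levA i)) (fun τ => RA a0 y τ / 2 ^ a0) := by
        rw [← Ex_mul]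
        congr 1
        funext τ
        rw [hlamdef]
        ring
      have e6 := RA_mean hLA a0 y (by linarith)
      have e7 : 0 ≤ 2 * DL * ∑ i, th levA i := by positivity
      rw [e5]
      calc _ ≤ 2 ^ Fintype.card κ * vol (UW Z) * (2 * DL * ∑ i, th levA i) :=
            mul_le_mul_of_nonneg_left e6 (mul_nonneg hK.le (vol_nonneg _))
        _ ≤ M * (2 * DL * ∑ i, th levA i) := mul_le_mul_of_nonneg_right hvolM e7
        _ = 2 * DL * (M * ∑ i, th levA i) := by ring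
        _ ≤ 2 * DL * D1 :=
            mul_le_mul_of_nonneg_left (le_trans hs2 hD1) (by positivity)
    have e8 : 2 * DL * D1 / V0 ≤ η / 8 := by
      rw [div_le_iff₀ hV0]
      rw [div_le_iff₀ hη] at hV2
      linarith
    have e9 : Ex (range (bd L)) (fun i => mu (levA i))
        (fun τ => 2 ^ Fintype.card κ * lam τ) / V0 ≤ 2 * DL * D1 / V0 :=
      div_le_div_of_nonneg_right e4 hV0.le
    linarith
  -- flatness on the good event
  have hG2 : ∀ τ, Gd τ → ∀ i ∈ univ.filter (fun i => a0 < levB i + s1), ∀ c : ℝ, 0 ≤ c →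
      c ≤ DS * C2 * 2 ^ a0 → |∑ S : Finset ι, ∑ p ∈ range (bd L), mu (levB i) p *
        ind (y - sz τ S - c - Real.log p ∈ UW Z) - lam τ| ≤ ε / 2 ^ Fintype.card κ := by
    intro τ hGd i hi c hc0 hc
    have hi' : a0 < levB i + s1 := (mem_filter.1 hi).2
    have hRv : 0 ≤ RA a0 y τ / 2 ^ a0 := div_nonneg (RA_nonneg _ _ _) hp.le
    have hpl : (2 : ℝ) ^ levB i ≤ 2 ^ a0 := pow_le_pow_right₀ (by norm_num) (hB' i)
    have h3 := hl0 (Finset ι) (fun S => y - sz τ S) (levB i) a0 r L CR c tm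
      (RA a0 y τ / 2 ^ a0) (η3 / M) Z (by omega) (hB' i) h2 har hq htm0 hc0
      (by
        rw [hCRdef]
        have : DT * 2 ^ levB i ≤ DT * 2 ^ a0 :=
          mul_le_mul_of_nonneg_left hpl (by linarith)
        nlinarith) hRv (by positivity)
      (by
        intro q hqr
        have h4 := hGd.1
        rw [not_exists] at h4
        have h5 := h4 q
        rw [not_and, not_lt] at h5
        have h6 := h5 hqr
        rw [Wn_card] at h6
        exact h6)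
    have hX := X_num (CR := CR) (CT := CT) (ε4 := ε / (8 * B)) (η1 := η1) (tm := tm) (a0 := a0)
      (l := levB i) (r := r) (s1 := s1) hCR (by positivity) hCT.le hη1.le ht hi'
    have hX0 : 0 ≤ (CR + 1) * (2 ^ a0 / 2 ^ levB i) *
        (ε / (8 * B) + CT * (tm + 2 ^ a0 / 2 ^ r) / 2 ^ levB i) := by positivity
    have hfin : η3 + 2 * (V0 + η3) * ((CR + 1) * (2 ^ a0 / 2 ^ levB i) *
        (ε / (8 * B) + CT * (tm + 2 ^ a0 / 2 ^ r) / 2 ^ levB i)) ≤ ε := by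
      have h7 : 2 * (V0 + η3) * ((CR + 1) * (2 ^ a0 / 2 ^ levB i) *
          (ε / (8 * B) + CT * (tm + 2 ^ a0 / 2 ^ r) / 2 ^ levB i)) ≤
          2 * (V0 + η3) * ((CR + 1) * 2 ^ s1 *
            (ε / (8 * B) + CT * (η1 + 1 / 2 ^ r) * 2 ^ s1)) :=
        mul_le_mul_of_nonneg_left hX (by positivity)
      have h8 : 2 * (V0 + η3) * ((CR + 1) * 2 ^ s1 *
            (ε / (8 * B) + CT * (η1 + 1 / 2 ^ r) * 2 ^ s1)) =
          B * (ε / (8 * B)) + B * CT * 2 ^ s1 * η1 + B * CT * 2 ^ s1 * (1 / 2 ^ r) := by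
        rw [hBdef]
        ring
      have h9 : B * (ε / (8 * B)) = ε / 8 := by field_simp
      rw [h8, h9] at h7
      rw [hη3def] at h7 ⊢
      linarith
    have h10 := err_num (K2 := 2 ^ Fintype.card κ) (vT := vol (UW Z)) (M := M)
      (Rv := RA a0 y τ / 2 ^ a0) (η3 := η3) (V0 := V0) hM hvolM hGd.2 hη3.le hX0 hfin
    rw [le_div_iff₀ hK]
    calc _ ≤ vol (UW Z) * (η3 / M + 2 * (RA a0 y τ / 2 ^ a0 + η3 / M) *
          ((CR + 1) * (2 ^ a0 / 2 ^ levB i) *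
            (ε / (8 * B) + CT * (tm + 2 ^ a0 / 2 ^ r) / 2 ^ levB i))) * 2 ^ Fintype.card κ :=
          mul_le_mul_of_nonneg_right h3 hK.le
      _ ≤ ε := by
          rw [mul_comm]
          exact h10
  -- the support of the low levels
  have hsum : ∀ σ : κ → ℕ, (∀ i, mu (levB i) (σ i) ≠ 0) →
      ∑ i, Real.log (σ i) ≤ DS * C2 * 2 ^ a0 := by
    intro σ hσ
    calc ∑ i, Real.log (σ i) ≤ ∑ i, DS * 2 ^ levB i :=
          Finset.sum_le_sum fun i _ => (hsupp _ _ (hσ i)).2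
      _ = DS * ∑ i, (2 : ℝ) ^ levB i := by rw [Finset.mul_sum]
      _ ≤ DS * (C2 * 2 ^ a0) := by
          refine mul_le_mul_of_nonneg_left (le_trans hC ?_) (by linarith)
          exact mul_le_mul_of_nonneg_right hC2 hp.le
      _ = DS * C2 * 2 ^ a0 := by ring
  have hmain := key_M (κ := κ) (ι := ι) (range (bd L)) (fun i => mu (levB i))
    (fun i => mu (levA i)) hB00 (fun i => mu_mass (hB i).1 (le_trans (hB i).2 h2)) hA0
    (fun i => mu_mass (by have := hA' i; omega) (hA i).2) (DS * C2 * 2 ^ a0) hsum (UW Z) y hyT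
    (univ.filter fun i => a0 < levB i + s1) R V0 ε hV0.le hε.le lam hlam Gd
    (fun τ h => h.2) hG2
  -- the exceptional tuples
  have hlaw : Laws (range (bd L)) (Sum.elim (fun i => mu (levB i)) (fun i => mu (levA i)))
      (Sum.elim levB levA) DL := by
    have h3 := hlaws (κ ⊕ ι) L (Sum.elim levB levA) (by
      rintro (i | i)
      · exact ⟨(hB i).1, le_trans (hB i).2 h2⟩
      · refine ⟨?_, (hA i).2⟩
        have := hA' i
        simp only [Sum.elim_inr]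
        omega)
    have h4 : (fun i => mu (Sum.elim levB levA i)) =
        Sum.elim (fun i => mu (levB i)) (fun i => mu (levA i)) := by
      funext i
      rcases i with i | i <;> rfl
    rwa [h4] at h3
  have hcov : ∀ t ∈ UW Z, ∃ q ∈ Z, q ≤ t ∧ t ≤ q + 1 := by
    rintro t ⟨q, hqZ, h3, h4⟩
    exact ⟨q, hqZ, h3, by linarith [log_two_le_one]⟩
  set nc := (univ.filter fun i => a0 < levB i + s1).card with hncdef
  have hexck : ∀ k ∈ range (R + 1),
      ∑ v ∈ univ.filter (fun v : κ ⊕ ι → Fin k → Bool =>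
          Dist v ∧ ¬ Priv v ((univ.filter fun i => a0 < levB i + s1).map
            Function.Embedding.inl)),
          Ex (range (bd L)) (Sum.elim (fun i => mu (levB i)) (fun i => mu (levA i)))
            (fun τ => ind (∀ a, y - sv τ v a ∈ UW Z)) ≤
      (1 + CE k * DL * (D1 + 1)) ^ k * (CE k * DL * η1 + k * (1 - (1 / 2) ^ k) ^ nc) := by
    intro k _
    have h3 := hexc k (κ ⊕ ι) (range (bd L))
      (Sum.elim (fun i => mu (levB i)) (fun i => mu (levA i))) (Sum.elim levB levA) DL hDL hlaw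
      (UW Z) Z hcov y a0 ((univ.filter fun i => a0 < levB i + s1).map
            Function.Embedding.inl) (by
        intro i hi
        obtain ⟨j, _, rfl⟩ := Finset.mem_map.1 hi
        exact hB' j)
    refine le_trans h3 ?_
    rw [sum_th_elim levB levA a0 hB' hA', sum_th_low levB levA a0 hB' hA', Finset.card_map]
    refine exc_le (hCE0 k) hDL0 hzc.le (by positivity) ?_ ?_ hthB hs1
    · exact mul_nonneg (Nat.cast_nonneg _) (pow_nonneg (base_nonneg k) _)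
    · have h4 : (Z.card : ℝ) * (∑ i, th levB i + 2 ^ Fintype.card κ * ∑ i, th levA i) =
          Z.card * ∑ i, th levB i + M * ∑ i, th levA i := by rw [hMdef]; ring
      rw [h4]
      linarith
  have hsumk : ∑ k ∈ range (R + 1), ((V0 + ε) ^ k - V0 ^ k +
      V0 ^ k * (k * (1 - (1 / 2) ^ k) ^ nc) +
        ∑ v ∈ univ.filter (fun v : κ ⊕ ι → Fin k → Bool =>
          Dist v ∧ ¬ Priv v ((univ.filter fun i => a0 < levB i + s1).map
            Function.Embedding.inl)),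
          Ex (range (bd L)) (Sum.elim (fun i => mu (levB i)) (fun i => mu (levA i)))
            (fun τ => ind (∀ a, y - sv τ v a ∈ UW Z))) ≤ η / 8 + η / 8 + η / 8 := by
    calc _ ≤ ∑ k ∈ range (R + 1), (((V0 + ε) ^ k - V0 ^ k) +
          (V0 ^ k + (1 + CE k * DL * (D1 + 1)) ^ k) * (k * (1 - (1 / 2) ^ k) ^ nc) +
          (1 + CE k * DL * (D1 + 1)) ^ k * (CE k * DL) * η1) := by
          refine Finset.sum_le_sum fun k hk => ?_
          have h3 := hexck k hk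
          calc _ ≤ (V0 + ε) ^ k - V0 ^ k + V0 ^ k * (k * (1 - (1 / 2) ^ k) ^ nc) +
                (1 + CE k * DL * (D1 + 1)) ^ k *
                  (CE k * DL * η1 + k * (1 - (1 / 2) ^ k) ^ nc) := by gcongr
            _ = _ := by ring
      _ = ∑ k ∈ range (R + 1), ((V0 + ε) ^ k - V0 ^ k) +
          ∑ k ∈ range (R + 1), (V0 ^ k + (1 + CE k * DL * (D1 + 1)) ^ k) *
            (k * (1 - (1 / 2) ^ k) ^ nc) + SE * η1 := by
          rw [Finset.sum_add_distrib, Finset.sum_add_distrib, hSEdef, Finset.sum_mul]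
      _ ≤ η / 8 + η / 8 + η / 8 := by
          have h4 := hκ0 nc hκ
          exact add_le_add (add_le_add hεs h4) hη1S
  calc _ ≤ _ := hmain
    _ ≤ (η / 16 + η / 8) + η / 8 + (η / 8 + η / 8 + η / 8) := by
        exact add_le_add (add_le_add hbad hR) hsumk
    _ ≤ η := by linarith

end Pool.Agent.EN
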