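import Mathlib
import Pool.Agent.Lib.MP_ec0ede_nt_EN.Defs4
import Pool.Agent.Lib.MP_ec0ede_nt_EN.LawA
import Pool.Agent.Lib.MP_ec0ede_nt_EN.Path
import Pool.Agent.Lib.MP_ec0ede_nt_EN.LawB
import Pool.Agent.Lib.MP_ec0ede_nt_EN.ExB
import Pool.Agent.Lib.MP_ec0ede_nt_EN.Spl
import Pool.Agent.Lib.MP_ec0ede_nt_EN.ThS
import Pool.Agent.Lib.MP_ec0ede_nt_EN.Key

set_option autoImplicit false

/-!
# MP_ec0ede_nt, project EN, module KeyC: the key proposition for counts
-/

noncomputable section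

namespace Pool.Agent.EN

open Real Filter Topology Finset

namespace KeyC

theorem cnt_append_left {m n : ℕ} (ν : Fin m → ℕ) (ν' : Fin n → ℕ) {j : ℕ} (hj : j ≤ m) :
    cnt (Fin.append ν ν') j = cnt ν j := by
  unfold cnt
  rw [Fin.sum_univ_add]
  simp only [Fin.val_castAdd, Fin.append_left, Fin.val_natAdd, Fin.append_right]
  have h1 : ∑ i : Fin n, (if m + (i : ℕ) < j then ν' i else 0) = 0 :=
    Finset.sum_eq_zero fun i _ => if_neg (by omega)
  rw [h1, add_zero]

theorem cnt_append_right {m n : ℕ} (ν : Fin m → ℕ) (ν' : Fin n → ℕ) (j : ℕ) :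
    cnt (Fin.append ν ν') (m + j) = cnt ν m + cnt ν' j := by
  unfold cnt
  rw [Fin.sum_univ_add]
  simp only [Fin.val_castAdd, Fin.append_left, Fin.val_natAdd, Fin.append_right]
  congr 1
  · refine Finset.sum_congr rfl fun i _ => ?_
    have hi := i.2
    rw [if_pos (by omega), if_pos hi]
  · refine Finset.sum_congr rfl fun i _ => ?_
    simp only [add_lt_add_iff_left]

theorem zpow_X {L : ℕ} (ν : Fin L → ℕ) (j : ℕ) :
    (2 : ℝ) ^ (-X ν j) = 2 ^ cnt ν j / 2 ^ j := by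
  unfold X
  rw [neg_sub, zpow_sub₀ (by norm_num), zpow_natCast, zpow_natCast]

/-- the term of the level `K + l + 1` of the middle block -/
def tB {n : ℕ} (K cC : ℕ) (νB : Fin n → ℕ) (l : Fin n) : ℝ :=
  ((νB l : ℝ) + 1) * (2 ^ (cC + cnt νB (l + 1)) / 2 ^ (K + l + 1))

theorem tB_nonneg {n : ℕ} (K cC : ℕ) (νB : Fin n → ℕ) (l : Fin n) : 0 ≤ tB K cC νB l := by
  unfold tB; positivity

theorem xi_split (K n s K' a : ℕ) (νC : Fin K → ℕ) (νB : Fin n → ℕ) (νA : Fin s → ℕ) :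
    (∑ l : Fin n, if K' ≤ K + (l : ℕ) ∧ K + (l : ℕ) + 1 ≤ a then tB K (cnt νC K) νB l else 0) +
    (∑ l : Fin s, if K' ≤ K + n + (l : ℕ) ∧ K + n + (l : ℕ) + 1 ≤ a then
      tB (K + n) (cnt νC K + cnt νB n) νA l else 0) ≤
    xi K' a (Fin.append νC (Fin.append νB νA)) := by
  unfold xi
  rw [Fin.sum_univ_add, Fin.sum_univ_add]
  have h0 : 0 ≤ ∑ i : Fin K, (if K' ≤ ((Fin.castAdd (n + s) i : Fin (K + (n + s))) : ℕ) ∧
      ((Fin.castAdd (n + s) i : Fin (K + (n + s))) : ℕ) + 1 ≤ a then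
      (((Fin.append νC (Fin.append νB νA)) (Fin.castAdd (n + s) i) : ℝ) + 1) *
      (2 : ℝ) ^ (-X (Fin.append νC (Fin.append νB νA))
        (((Fin.castAdd (n + s) i : Fin (K + (n + s))) : ℕ) + 1)) else 0) :=
    Finset.sum_nonneg fun i _ => by split_ifs <;> positivity
  refine le_trans (le_of_eq ?_) (le_add_of_nonneg_left h0)
  congr 1
  · refine Finset.sum_congr rfl fun l _ => ?_
    have hl := l.2
    have e1 : ((Fin.natAdd K (Fin.castAdd s l) : Fin (K + (n + s))) : ℕ) = K + l := by simp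
    have e2 : cnt (Fin.append νC (Fin.append νB νA)) (K + l + 1) =
        cnt νC K + cnt νB (l + 1) := by
      rw [add_assoc, cnt_append_right, cnt_append_left _ _ (by omega)]
    rw [e1]
    refine if_congr Iff.rfl ?_ rfl
    rw [zpow_X, e2, Fin.append_right, Fin.append_left]
    rfl
  · refine Finset.sum_congr rfl fun l _ => ?_
    have e1 : ((Fin.natAdd K (Fin.natAdd n l) : Fin (K + (n + s))) : ℕ) = K + n + l := by
      simp [add_assoc]
    have e2 : cnt (Fin.append νC (Fin.append νB νA)) (K + n + l + 1) =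
        cnt νC K + cnt νB n + cnt νA (l + 1) := by
      rw [show K + n + (l : ℕ) + 1 = K + (n + (l + 1)) by omega, cnt_append_right,
        cnt_append_right, add_assoc]
    rw [e1]
    refine if_congr Iff.rfl ?_ rfl
    rw [zpow_X, e2, Fin.append_right, Fin.append_right]
    rfl

/-- one block of levels: the sum of the quantities `th` -/
theorem th_le {n : ℕ} (K cC : ℕ) (νB : Fin n → ℕ) :
    2 ^ cC * ∑ i : Idx νB, th (lv K νB) i ≤ ∑ l : Fin n, tB K cC νB l := by
  rw [sum_th, Finset.mul_sum]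
  refine Finset.sum_le_sum fun l _ => ?_
  unfold tB
  rw [pow_add 2 cC]
  have h : (0 : ℝ) ≤ 2 ^ cC * 2 ^ cnt νB (l + 1) / 2 ^ (K + (l : ℕ) + 1) := by positivity
  have e : 2 ^ cC * ((νB l : ℝ) * (2 ^ cnt νB (l + 1) / 2 ^ (K + (l : ℕ) + 1))) =
      (νB l : ℝ) * (2 ^ cC * 2 ^ cnt νB (l + 1) / 2 ^ (K + (l : ℕ) + 1)) := by ring
  rw [e]
  nlinarith

/-- the weighted sum over the top block -/
theorem wth_le {s : ℕ} (a0 cB : ℕ) (νA : Fin s → ℕ) :
    2 ^ cB * ∑ i : Idx νA, 2 ^ a0 / 2 ^ (lv a0 νA i) * th (lv a0 νA) i ≤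
      ∑ l : Fin s, (1 / 2) ^ ((l : ℕ) + 1) * tB a0 cB νA l := by
  have h := sum_lv a0 νA (fun a b => (2 : ℝ) ^ a0 / 2 ^ b * (2 ^ a / 2 ^ b))
  have e : ∑ i : Idx νA, 2 ^ a0 / 2 ^ (lv a0 νA i) * th (lv a0 νA) i =
      ∑ i : Idx νA, (2 : ℝ) ^ a0 / 2 ^ (lv a0 νA i) *
        (2 ^ (nb (lv a0 νA) i) / 2 ^ (lv a0 νA i)) := rfl
  rw [e, h, Finset.mul_sum]
  refine Finset.sum_le_sum fun l _ => ?_
  unfold tB
  have h2 : (2 : ℝ) ^ a0 / 2 ^ (a0 + (l : ℕ) + 1) = (1 / 2) ^ ((l : ℕ) + 1) := by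
    rw [one_div, inv_pow, add_assoc, pow_add]
    field_simp
  rw [h2, pow_add 2 cB]
  have h3 : (0 : ℝ) ≤ (1 / 2) ^ ((l : ℕ) + 1) *
    (2 ^ cB * 2 ^ cnt νA (l + 1) / 2 ^ (a0 + (l : ℕ) + 1)) := by positivity
  have e3 : 2 ^ cB * ((νA l : ℝ) * ((1 / 2) ^ ((l : ℕ) + 1) *
      (2 ^ cnt νA (l + 1) / 2 ^ (a0 + (l : ℕ) + 1)))) =
      (νA l : ℝ) * ((1 / 2) ^ ((l : ℕ) + 1) *
    (2 ^ cB * 2 ^ cnt νA (l + 1) / 2 ^ (a0 + (l : ℕ) + 1))) := by ring
  rw [e3]
  nlinarith

/-- the weighted sum, split at the level `t` -/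
theorem wsum_le {s : ℕ} (a0 cB t : ℕ) (νA : Fin s → ℕ) :
    ∑ l : Fin s, (1 / 2) ^ ((l : ℕ) + 1) * tB a0 cB νA l ≤
      (∑ l : Fin s, if (l : ℕ) + 1 ≤ t then tB a0 cB νA l else 0) +
        (1 / 2) ^ t * ∑ l : Fin s, tB a0 cB νA l := by
  rw [Finset.mul_sum, ← Finset.sum_add_distrib]
  refine Finset.sum_le_sum fun l _ => ?_
  have h0 := tB_nonneg a0 cB νA l
  split_ifs with h
  · have h1 : ((1 : ℝ) / 2) ^ ((l : ℕ) + 1) ≤ 1 := pow_le_one₀ (by norm_num) (by norm_num)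
    have h2 : (0 : ℝ) ≤ (1 / 2) ^ t * tB a0 cB νA l := by positivity
    nlinarith
  · have h1 : ((1 : ℝ) / 2) ^ ((l : ℕ) + 1) ≤ (1 / 2) ^ t :=
      pow_le_pow_of_le_one (by norm_num) (by norm_num) (by omega)
    nlinarith

theorem EX_mass {L K n : ℕ} (ν : Fin n → ℕ) (h : K + n ≤ L) (i : Idx ν) :
    ∑ p ∈ range (bd L), mu (lv K ν i) p = 1 := by
  have hi := i.1.2
  refine mu_mass ?_ ?_
  · unfold lv; omega
  · unfold lv; omega

end KeyC

open KeyC in
theorem key_C (c1 F0 : ℕ) (D0 C1 : ℝ) {y1 η : ℝ} (hy1 : 0 < y1) (hη : 0 < η) : ∃ κ0 : ℕ,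
    ∀ s1 : ℕ, ∃ η1 : ℝ, 0 < η1 ∧ ∃ s0 : ℕ, ∀ K s : ℕ, s0 ≤ s → ∃ n0 : ℕ, ∀ n ≥ n0,
    ∀ f ∈ Icc 1 F0, ∀ y : ℝ, y1 * 2 ^ (K + (n + s)) ≤ y →
    ∀ (νC : Fin K → ℕ) (νB : Fin n → ℕ) (νA : Fin s → ℕ), cnt νC K ≤ K + c1 →
    Nice D0 C1 η1 κ0 s1 K n s (Fin.append νC (Fin.append νB νA)) →
    |PrB f K (n + s) y νC (Fin.append νB νA) - PrC f K n s y νC (cnt νB n) νA| ≤ η := by
  obtain ⟨D, hD1, hD⟩ := supp_bounds
  obtain ⟨κ0, hκ0⟩ := key (F0 * D0) C1 hη
  refine ⟨κ0, fun s1 => ?_⟩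
  obtain ⟨η', hη', a00, hkey⟩ := hκ0 s1
  have hF0 : (0 : ℝ) ≤ F0 := Nat.cast_nonneg _
  refine ⟨η' / (2 * (F0 + 1)), by positivity, ?_⟩
  -- the choice of `s0`
  obtain ⟨m, hm⟩ := exists_pow_lt_of_lt_one
    (show (0 : ℝ) < η' / (2 * (F0 * |D0| + 1)) by positivity) (show (1 / 2 : ℝ) < 1 by norm_num)
  obtain ⟨m', hm'⟩ := pow_unbounded_of_one_lt (1 / (η' * y1)) (show (1 : ℝ) < 2 by norm_num)
  refine ⟨2 * m + m', fun K s hs => ?_⟩
  set tm : ℝ := Real.log F0 + (K + c1 : ℕ) * (D * 2 ^ K) + 1 with htm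
  obtain ⟨n1, hn1⟩ := pow_unbounded_of_one_lt (tm / η') (show (1 : ℝ) < 2 by norm_num)
  refine ⟨max (max a00 s1) (max 1 n1), fun n hn f hf y hy νC νB νA hcC hN => ?_⟩
  have hn_a : a00 ≤ n := le_trans (le_trans (le_max_left _ _) (le_max_left _ _)) hn
  have hn_s : s1 ≤ n := le_trans (le_trans (le_max_right _ _) (le_max_left _ _)) hn
  have hn_1 : 1 ≤ n := le_trans (le_trans (le_max_left _ _) (le_max_right _ _)) hn
  have hn_t : n1 ≤ n := le_trans (le_trans (le_max_right _ _) (le_max_right _ _)) hn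
  obtain ⟨hf1, hfF⟩ := Finset.mem_Icc.mp hf
  have hfne : f ≠ 0 := by omega
  have hF1 : (1 : ℝ) ≤ F0 := by exact_mod_cast le_trans hf1 hfF
  obtain ⟨hN1, hN2, hN3, hN4⟩ := hN
  -- the sums over the levels
  set cC := cnt νC K with hcCdef
  set cB := cnt νB n with hcBdef
  have hSA : ∑ l : Fin s, tB (K + n) (cC + cB) νA l ≤ D0 := by
    refine le_trans ?_ hN1
    refine le_trans ?_ (xi_split K n s 0 (K + (n + s)) νC νB νA)
    have h1 : 0 ≤ ∑ l : Fin n, (if 0 ≤ K + (l : ℕ) ∧ K + (l : ℕ) + 1 ≤ K + (n + s) then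
        tB K (cnt νC K) νB l else 0) :=
      Finset.sum_nonneg fun l _ => by
        split_ifs
        · exact tB_nonneg _ _ _ _
        · exact le_rfl
    refine le_trans (le_of_eq ?_) (le_add_of_nonneg_left h1)
    refine Finset.sum_congr rfl fun l _ => ?_
    have hl := l.2
    rw [if_pos ⟨Nat.zero_le _, by omega⟩]
  have hSB : (∑ l : Fin n, tB K cC νB l) +
      (∑ l : Fin s, if (l : ℕ) + 1 ≤ s - s / 2 then tB (K + n) (cC + cB) νA l else 0) ≤
      η' / (2 * (F0 + 1)) := by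
    refine le_trans (le_of_eq ?_) (le_trans (xi_split K n s K (K + n + (s - s / 2)) νC νB νA) hN2)
    congr 1
    · refine Finset.sum_congr rfl fun l _ => ?_
      have hl := l.2
      rw [if_pos ⟨Nat.le_add_right _ _, by omega⟩]
    · refine Finset.sum_congr rfl fun l _ => ?_
      refine if_congr ?_ rfl rfl
      constructor
      · intro h
        exact ⟨by omega, by omega⟩
      · rintro ⟨_, h⟩
        omega
  have hSA'0 : 0 ≤ ∑ l : Fin s, (if (l : ℕ) + 1 ≤ s - s / 2 then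
      tB (K + n) (cC + cB) νA l else 0) :=
    Finset.sum_nonneg fun l _ => by
      split_ifs
      · exact tB_nonneg _ _ _ _
      · exact le_rfl
  have hSB0 : 0 ≤ ∑ l : Fin n, tB K cC νB l := Finset.sum_nonneg fun l _ => tB_nonneg _ _ _ _
  have hSA0 : 0 ≤ ∑ l : Fin s, tB (K + n) (cC + cB) νA l :=
    Finset.sum_nonneg fun l _ => tB_nonneg _ _ _ _
  have hD0 : 0 ≤ D0 := le_trans hSA0 hSA
  have hFη : (F0 : ℝ) * (η' / (2 * (F0 + 1))) ≤ η' / 2 := by
    have h1 : (F0 : ℝ) * (η' / (2 * (F0 + 1))) = η' / 2 * (F0 / (F0 + 1)) := by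
      field_simp
    have h2 : (F0 : ℝ) / (F0 + 1) ≤ 1 := by
      rw [div_le_one (by positivity)]
      linarith
    rw [h1]
    have h3 : 0 ≤ η' / 2 := by positivity
    nlinarith
  -- the inequality for a fixed tuple over the first `K` levels
  have main : ∀ τ : Idx νC → ℕ, (∀ i, mu (lv 0 νC i) (τ i) ≠ 0) →
      |EX (K + (n + s)) K νB (fun σ => EX (K + (n + s)) (K + n) νA
          (fun τ' => ind (Wn (TW f τ) y (Sum.elim σ τ') = 0))) -
        EX (K + (n + s)) (K + n) νA (fun τ' =>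
          Real.exp (-(RA (K + n) y τ' / 2 ^ (K + n) * 2 ^ cB * vol (TW f τ))))| ≤ η := by
    intro τ hτ
    obtain ⟨Z, hZne, hZ, hZc, hZq⟩ := TW_eq_UW f hfne τ
    have hZcR : (Z.card : ℝ) ≤ F0 * 2 ^ cC := by
      have h1 : f.divisors.card ≤ F0 := le_trans (Nat.card_divisors_le_self f) hfF
      have h2 : Z.card ≤ F0 * 2 ^ cC := by
        refine le_trans hZc ?_
        rw [card_Idx]
        exact Nat.mul_le_mul_right _ h1
      exact_mod_cast h2
    have hZ0 : (0 : ℝ) ≤ Z.card := Nat.cast_nonneg _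
    have hk := hkey (Idx νB) (Idx νA) (K + (n + s)) (K + n) (lv K νB) (lv (K + n) νA) Z tm y
      (by omega) (by omega) ?_ ?_ hZne ?_ ?_ ?_ ?_ ?_ ?_ ?_ ?_ ?_
    · rw [hZ]
      have e : ∀ τ' : Idx νA → ℕ, RA (K + n) y τ' / 2 ^ (K + n) * 2 ^ cB * vol (UW Z) =
          2 ^ Fintype.card (Idx νB) * (vol (UW Z) * (RA (K + n) y τ' / 2 ^ (K + n))) := by
        intro τ'
        rw [card_Idx]
        ring
      simp only [e]
      exact hk
    · intro i
      have hi := i.1.2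
      unfold lv
      constructor <;> omega
    · intro i
      have hi := i.1.2
      unfold lv
      constructor <;> omega
    · -- the windows
      intro q hq
      obtain ⟨h1, h2⟩ := hZq q hq
      refine ⟨h1, ?_⟩
      have h3 : Real.log f ≤ Real.log F0 :=
        Real.log_le_log (by exact_mod_cast hf1) (by exact_mod_cast hfF)
      have h4 : ∑ i, Real.log (τ i) ≤ (K + c1 : ℕ) * (D * 2 ^ K) := by
        have h5 : ∀ i : Idx νC, Real.log (τ i) ≤ D * 2 ^ K := by
          intro i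
          refine le_trans (hD _ _ (hτ i)).2 ?_
          have hi := i.1.2
          have : (2 : ℝ) ^ (lv 0 νC i) ≤ 2 ^ K :=
            pow_le_pow_right₀ (by norm_num) (by unfold lv; omega)
          have hD0' : 0 ≤ D := by linarith
          exact mul_le_mul_of_nonneg_left this hD0'
        refine le_trans (Finset.sum_le_sum fun i _ => h5 i) ?_
        rw [Finset.sum_const, Finset.card_univ, card_Idx, nsmul_eq_mul]
        have h6 : (cnt νC K : ℝ) ≤ (K + c1 : ℕ) := by exact_mod_cast hcC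
        have h7 : 0 ≤ D * 2 ^ K := by positivity
        exact mul_le_mul_of_nonneg_right h6 h7
      have h8 : Real.log 2 ≤ 1 := by
        have := Real.log_two_lt_d9
        linarith
      rw [htm]
      linarith
    · -- the constant `tm`
      have h1 : tm / η' ≤ 2 ^ (K + n) :=
        le_trans hn1.le (pow_le_pow_right₀ (by norm_num) (by omega))
      rw [div_le_iff₀ hη'] at h1
      linarith
    · -- the size of `y`
      have h1 : 1 ≤ η' * y1 * 2 ^ s := by
        have h2 : (2 : ℝ) ^ m' ≤ 2 ^ s := pow_le_pow_right₀ (by norm_num) (by omega)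
        have h3 : 1 / (η' * y1) ≤ 2 ^ s := le_trans hm'.le h2
        rw [div_le_iff₀ (by positivity)] at h3
        linarith
      have h4 : (2 : ℝ) ^ (K + (n + s)) = 2 ^ (K + n) * 2 ^ s := by
        rw [← pow_add]; congr 1; omega
      rw [h4] at hy
      have h5 : η' * (y1 * (2 ^ (K + n) * 2 ^ s)) ≤ η' * y :=
        mul_le_mul_of_nonneg_left hy hη'.le
      have h6 : (0 : ℝ) < 2 ^ (K + n) := by positivity
      nlinarith
    · -- the levels of the middle block
      have h1 := th_le K cC νB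
      have h2 : 0 ≤ ∑ i : Idx νB, th (lv K νB) i :=
        Finset.sum_nonneg fun i _ => by unfold th; positivity
      calc (Z.card : ℝ) * ∑ i : Idx νB, th (lv K νB) i
          ≤ F0 * 2 ^ cC * ∑ i : Idx νB, th (lv K νB) i := mul_le_mul_of_nonneg_right hZcR h2
        _ = F0 * (2 ^ cC * ∑ i : Idx νB, th (lv K νB) i) := by ring
        _ ≤ F0 * ∑ l : Fin n, tB K cC νB l := mul_le_mul_of_nonneg_left h1 hF0
        _ ≤ F0 * (η' / (2 * (F0 + 1))) := mul_le_mul_of_nonneg_left (by linarith) hF0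
        _ ≤ η' := by linarith
    · -- the levels of the top block
      have h1 := th_le (K + n) (cC + cB) νA
      have h2 : 0 ≤ ∑ i : Idx νA, th (lv (K + n) νA) i :=
        Finset.sum_nonneg fun i _ => by unfold th; positivity
      have h3 : (0 : ℝ) ≤ 2 ^ cB := by positivity
      rw [card_Idx]
      calc (Z.card : ℝ) * 2 ^ cnt νB n * ∑ i : Idx νA, th (lv (K + n) νA) i
          ≤ F0 * 2 ^ cC * 2 ^ cB * ∑ i : Idx νA, th (lv (K + n) νA) i :=
            mul_le_mul_of_nonneg_right (mul_le_mul_of_nonneg_right hZcR h3) h2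
        _ = F0 * (2 ^ (cC + cB) * ∑ i : Idx νA, th (lv (K + n) νA) i) := by
            rw [pow_add]; ring
        _ ≤ F0 * ∑ l : Fin s, tB (K + n) (cC + cB) νA l := mul_le_mul_of_nonneg_left h1 hF0
        _ ≤ F0 * D0 := mul_le_mul_of_nonneg_left hSA hF0
    · -- the number of windows
      rw [card_Idx]
      have h1 : (2 : ℝ) ^ (cC + cB) / 2 ^ (K + n) ≤ ∑ l : Fin n, tB K cC νB l := by
        have h2 : tB K cC νB ⟨n - 1, by omega⟩ ≤ ∑ l : Fin n, tB K cC νB l :=
          Finset.single_le_sum (f := fun l => tB K cC νB l) (fun l _ => tB_nonneg _ _ _ _)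
            (Finset.mem_univ _)
        refine le_trans ?_ h2
        unfold tB
        have e1 : n - 1 + 1 = n := by omega
        have e2 : K + (n - 1) + 1 = K + n := by omega
        simp only [e1, e2]
        have h3 : (0 : ℝ) ≤ 2 ^ (cC + cB) / 2 ^ (K + n) := by positivity
        have h4 : (0 : ℝ) ≤ νB ⟨n - 1, by omega⟩ := Nat.cast_nonneg _
        nlinarith
      calc (Z.card : ℝ) * 2 ^ cnt νB n / 2 ^ (K + n)
          ≤ F0 * 2 ^ cC * 2 ^ cB / 2 ^ (K + n) := by gcongr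
        _ = F0 * (2 ^ (cC + cB) / 2 ^ (K + n)) := by rw [pow_add]; ring
        _ ≤ F0 * ∑ l : Fin n, tB K cC νB l := mul_le_mul_of_nonneg_left h1 hF0
        _ ≤ F0 * (η' / (2 * (F0 + 1))) := mul_le_mul_of_nonneg_left (by linarith) hF0
        _ ≤ η' := by linarith
    · -- the weighted sum over the top block
      rw [card_Idx]
      have h1 := wth_le (K + n) (cC + cB) νA
      have h2 := wsum_le (K + n) (cC + cB) (s - s / 2) νA
      have h3 : 0 ≤ ∑ i : Idx νA, 2 ^ (K + n) / 2 ^ (lv (K + n) νA i) * th (lv (K + n) νA) i :=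
        Finset.sum_nonneg fun i _ => by unfold th; positivity
      have h4 : (0 : ℝ) ≤ 2 ^ cB := by positivity
      have h5 : ((1 : ℝ) / 2) ^ (s - s / 2) ≤ (1 / 2) ^ m :=
        pow_le_pow_of_le_one (by norm_num) (by norm_num) (by omega)
      have h6 : (F0 : ℝ) * ((1 / 2) ^ (s - s / 2) * ∑ l : Fin s, tB (K + n) (cC + cB) νA l) ≤
          η' / 2 := by
        have h7 : (1 / 2 : ℝ) ^ m * (2 * (F0 * |D0| + 1)) < η' := by
          rwa [lt_div_iff₀ (by positivity)] at hm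
        rw [abs_of_nonneg hD0] at h7
        have h8 : (1 / 2 : ℝ) ^ (s - s / 2) * ∑ l : Fin s, tB (K + n) (cC + cB) νA l ≤
            (1 / 2) ^ m * D0 :=
          mul_le_mul h5 hSA hSA0 (by positivity)
        have h9 := mul_le_mul_of_nonneg_left h8 hF0
        have h10 : (0 : ℝ) < (1 / 2) ^ m := by positivity
        nlinarith
      calc (Z.card : ℝ) * 2 ^ cnt νB n *
            ∑ i : Idx νA, 2 ^ (K + n) / 2 ^ (lv (K + n) νA i) * th (lv (K + n) νA) i
          ≤ F0 * 2 ^ cC * 2 ^ cB *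
            ∑ i : Idx νA, 2 ^ (K + n) / 2 ^ (lv (K + n) νA i) * th (lv (K + n) νA) i :=
            mul_le_mul_of_nonneg_right (mul_le_mul_of_nonneg_right hZcR h4) h3
        _ = F0 * (2 ^ (cC + cB) *
            ∑ i : Idx νA, 2 ^ (K + n) / 2 ^ (lv (K + n) νA i) * th (lv (K + n) νA) i) := by
            rw [pow_add]; ring
        _ ≤ F0 * ((∑ l : Fin s, if (l : ℕ) + 1 ≤ s - s / 2 then
              tB (K + n) (cC + cB) νA l else 0) +
            (1 / 2) ^ (s - s / 2) * ∑ l : Fin s, tB (K + n) (cC + cB) νA l) :=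
            mul_le_mul_of_nonneg_left (le_trans h1 h2) hF0
        _ ≤ F0 * (η' / (2 * (F0 + 1))) +
            F0 * ((1 / 2) ^ (s - s / 2) * ∑ l : Fin s, tB (K + n) (cC + cB) νA l) := by
            rw [mul_add]
            have := mul_le_mul_of_nonneg_left (show (∑ l : Fin s, if (l : ℕ) + 1 ≤ s - s / 2 then
              tB (K + n) (cC + cB) νA l else 0) ≤ η' / (2 * (F0 + 1)) by linarith) hF0
            linarith
        _ ≤ η' := by linarith
    · -- the total size of the primes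
      have h1 := sum_lv K νB (fun _ b => (2 : ℝ) ^ b)
      have h2 : ∑ i : Idx νB, (2 : ℝ) ^ lv K νB i =
          ∑ l : Fin n, (νB l : ℝ) * 2 ^ (K + (l : ℕ) + 1) := h1
      rw [h2]
      have h3 : Q (Fin.append νC (Fin.append νB νA)) (K + n) = Q νC K / 2 ^ n + Q νB n := by
        rw [Q_append_right, Q_append_left _ _ le_rfl]
      have h4 : 0 ≤ Q νC K / 2 ^ n := by
        refine div_nonneg ?_ (by positivity)
        unfold Q
        exact Finset.sum_nonneg fun l _ => by split_ifs <;> positivity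
      have h5 : Q νB n ≤ C1 := by linarith
      have h6 : ∑ l : Fin n, (νB l : ℝ) * 2 ^ (K + (l : ℕ) + 1) = Q νB n * 2 ^ (K + n) := by
        unfold Q
        rw [Finset.sum_mul]
        refine Finset.sum_congr rfl fun l _ => ?_
        rw [if_pos l.2, show K + (l : ℕ) + 1 = K + ((l : ℕ) + 1) by omega, pow_add, pow_add 2 K]
        field_simp
      rw [h6]
      exact mul_le_mul_of_nonneg_right h5 (by positivity)
    · -- the block of `s1` levels
      rw [card_lv_gt K νB (K + n) s1 (by omega) rfl]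
      have h1 : cnt (Fin.append νC (Fin.append νB νA)) (K + n) = cC + cB := by
        rw [cnt_append_right, cnt_append_left _ _ le_rfl]
      have h2 : cnt (Fin.append νC (Fin.append νB νA)) (K + n - s1) = cC + cnt νB (n - s1) := by
        rw [show K + n - s1 = K + (n - s1) by omega, cnt_append_right,
          cnt_append_left _ _ (by omega)]
      rw [h1, h2] at hN4
      omega
  -- the two expectations
  have hLB : K + n ≤ K + (n + s) := by omega
  have hLA : K + n + s ≤ K + (n + s) := by omega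
  have e1 : ∀ τ : Idx νC → ℕ, EX (K + (n + s)) K (Fin.append νB νA)
      (fun τ' => ind (0 < Wn (TW f τ) y τ')) =
      1 - EX (K + (n + s)) K νB (fun σ => EX (K + (n + s)) (K + n) νA
          (fun τ' => ind (Wn (TW f τ) y (Sum.elim σ τ') = 0))) := by
    intro τ
    rw [EX_append]
    have h1 : ∀ (σ : Idx νB → ℕ) (τ' : Idx νA → ℕ), ind (0 < Wn (TW f τ) y (jn σ τ')) =
        1 - ind (Wn (TW f τ) y (Sum.elim σ τ') = 0) := by
      intro σ τ'
      rw [Wn_jn, ← ind_not]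
      exact ind_congr Nat.pos_iff_ne_zero
    simp only [h1]
    have h2 : ∀ σ : Idx νB → ℕ, EX (K + (n + s)) (K + n) νA
        (fun τ' => 1 - ind (Wn (TW f τ) y (Sum.elim σ τ') = 0)) =
        1 - EX (K + (n + s)) (K + n) νA
          (fun τ' => ind (Wn (TW f τ) y (Sum.elim σ τ') = 0)) := by
      intro σ
      unfold EX
      rw [Ex_sub, Ex_const _ _ (EX_mass νA hLA)]
    simp only [h2]
    unfold EX
    rw [Ex_sub, Ex_const _ _ (EX_mass νB hLB)]
  have e2 : ∀ τ : Idx νC → ℕ, EX (K + (n + s)) (K + n) νA (fun τ' =>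
      1 - Real.exp (-(RA (K + n) y τ' / 2 ^ (K + n) * 2 ^ cB * vol (TW f τ)))) =
      1 - EX (K + (n + s)) (K + n) νA (fun τ' =>
        Real.exp (-(RA (K + n) y τ' / 2 ^ (K + n) * 2 ^ cB * vol (TW f τ)))) := by
    intro τ
    unfold EX
    rw [Ex_sub, Ex_const _ _ (EX_mass νA hLA)]
  have hLC : 0 + K ≤ K + (n + s) := by omega
  unfold PrB PrC
  simp only [e1, e2]
  unfold EX at main ⊢
  rw [← Ex_sub]
  refine le_trans (Ex_abs_le _ _ (fun i p => mu_nonneg _ _) _) ?_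
  refine le_trans (Ex_mono _ _ (fun i p => mu_nonneg _ _) _ (fun _ => η) ?_)
    (le_of_eq (Ex_const _ _ (EX_mass νC hLC) η))
  intro τ hτ
  have h1 := main τ (fun i => (hτ i).2)
  rw [← mul_sub, abs_mul, abs_of_nonneg (ind_nonneg _)]
  have h2 := ind_le_one (Inj f τ)
  have h3 := ind_nonneg (Inj f τ)
  rw [sub_sub_sub_cancel_left, abs_sub_comm]
  refine le_trans (mul_le_mul_of_nonneg_left h1 h3) ?_
  nlinarith

end Pool.Agent.EN
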