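import Mathlib
import Pool.Agent.Lib.MP_ec0ede_nt_EN.Defs4
import Pool.Agent.Lib.MP_ec0ede_nt_EN.LawA
import Pool.Agent.Lib.MP_ec0ede_nt_EN.Good
import Pool.Agent.Lib.MP_ec0ede_nt_EN.ExB
import Pool.Agent.Lib.MP_ec0ede_nt_EN.ZBd
import Pool.Agent.Lib.MP_ec0ede_nt_EN.BadP
import Pool.Agent.Lib.MP_ec0ede_nt_EN.KeyC

set_option autoImplicit false

/-!
# MP_ec0ede_nt, project EN, module StC: from the key proposition to the weighted sums
-/

noncomputable section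

namespace Pool.Agent.EN

open Real Filter Topology Finset

namespace StC

theorem EX_Icc {L K n : ℕ} (ν : Fin n → ℕ) (h : K + n ≤ L) (F : (Idx ν → ℕ) → ℝ)
    (h0 : ∀ τ, 0 ≤ F τ) (h1 : ∀ τ, F τ ≤ 1) : 0 ≤ EX L K ν F ∧ EX L K ν F ≤ 1 := by
  unfold EX
  constructor
  · exact Ex_nonneg _ _ (fun i p => mu_nonneg _ _) F fun τ _ => h0 τ
  · refine (Ex_mono _ _ (fun i p => mu_nonneg _ _) F (fun _ => 1) fun τ _ => h1 τ).trans ?_
    refine (Ex_const _ _ (fun i => ?_) 1).le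
    refine mu_mass ?_ ?_
    · unfold lv; omega
    · have := i.1.isLt
      unfold lv; omega

theorem RA_nonneg {ι : Type} [Fintype ι] (a : ℕ) (y : ℝ) (τ : ι → ℕ) : 0 ≤ RA a y τ :=
  Finset.sum_nonneg fun _ _ => tent_nonneg _

theorem vol_nonneg (T : Set ℝ) : 0 ≤ vol T := ENNReal.toReal_nonneg

theorem PrB_Icc (f K m : ℕ) (y : ℝ) (νC : Fin K → ℕ) (ν : Fin m → ℕ) :
    0 ≤ PrB f K m y νC ν ∧ PrB f K m y νC ν ≤ 1 := by
  unfold PrB
  have h : ∀ τ : Idx νC → ℕ, 0 ≤ EX (K + m) K ν (fun τ' => ind (0 < Wn (TW f τ) y τ')) ∧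
      EX (K + m) K ν (fun τ' => ind (0 < Wn (TW f τ) y τ')) ≤ 1 := fun τ =>
    EX_Icc ν le_rfl _ (fun _ => ind_nonneg _) (fun _ => ind_le_one _)
  refine EX_Icc νC (by omega) _ (fun τ => mul_nonneg (ind_nonneg _) (h τ).1) (fun τ => ?_)
  exact mul_le_one₀ (ind_le_one _) (h τ).1 (h τ).2

theorem PrC_Icc (f K n s : ℕ) (y : ℝ) (νC : Fin K → ℕ) (N : ℕ) (νA : Fin s → ℕ) :
    0 ≤ PrC f K n s y νC N νA ∧ PrC f K n s y νC N νA ≤ 1 := by
  unfold PrC
  have h : ∀ τ : Idx νC → ℕ, 0 ≤ EX (K + (n + s)) (K + n) νA (fun τ' =>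
      1 - Real.exp (-(RA (K + n) y τ' / 2 ^ (K + n) * 2 ^ N * vol (TW f τ)))) ∧
      EX (K + (n + s)) (K + n) νA (fun τ' =>
      1 - Real.exp (-(RA (K + n) y τ' / 2 ^ (K + n) * 2 ^ N * vol (TW f τ)))) ≤ 1 := fun τ => by
    refine EX_Icc νA (by omega) _ (fun τ' => ?_) (fun τ' => ?_)
    · have h1 : 0 ≤ RA (K + n) y τ' / 2 ^ (K + n) * 2 ^ N * vol (TW f τ) :=
        mul_nonneg (mul_nonneg (div_nonneg (RA_nonneg _ _ _) (by positivity)) (by positivity))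
          (vol_nonneg _)
      have h2 := Real.exp_le_one_iff.mpr (neg_nonpos.mpr h1)
      linarith
    · have := Real.exp_pos (-(RA (K + n) y τ' / 2 ^ (K + n) * 2 ^ N * vol (TW f τ)))
      linarith
  refine EX_Icc νC (by omega) _ (fun τ => mul_nonneg (ind_nonneg _) (h τ).1) (fun τ => ?_)
  exact mul_le_one₀ (ind_le_one _) (h τ).1 (h τ).2

theorem one_le_zz : 1 ≤ zz := by
  unfold zz
  rw [le_div_iff₀ (Real.log_pos (by norm_num))]
  have := Real.log_two_lt_d9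
  linarith

theorem cnt_lo {K m c1 c2 : ℕ} {ν : Fin (K + m) → ℕ} (h : E0 c1 c2 ν) :
    cnt (lo ν) K ≤ K + c1 := by
  have h1 := X_append_left (lo ν) (hi ν) (le_refl K)
  rw [append_lo_hi] at h1
  have h2 := h.1 K (by omega)
  rw [h1] at h2
  unfold X at h2
  omega

theorem PW_add {L : ℕ} (F G : (Fin L → ℕ) → ENNReal) :
    PW L (fun ν => F ν + G ν) = PW L F + PW L G := by
  unfold PW
  rw [← ENNReal.tsum_add]
  exact tsum_congr fun ν => by ring

theorem PW_cmul {L : ℕ} (c : ENNReal) (F : (Fin L → ℕ) → ENNReal) :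
    PW L (fun ν => c * F ν) = c * PW L F := by
  unfold PW
  rw [← ENNReal.tsum_mul_left]
  exact tsum_congr fun ν => by ring

end StC

open StC in
theorem st_C (c1 c2 F0 : ℕ) {y1 ε : ℝ} (hy1 : 0 < y1) (hε : 0 < ε) : ∃ K0 : ℕ, ∀ K s : ℕ,
    K0 ≤ K → K0 ≤ s → ∃ n0 : ℕ, ∀ n ≥ n0, ∀ f ∈ Icc 1 F0, ∀ y : ℝ,
    y1 * 2 ^ (K + (n + s)) ≤ y →
    |ZS (K + (n + s)) (fun ν => ind (E0 c1 c2 ν) * PrB f K (n + s) y (lo ν) (hi ν)) -
      ZS (K + (n + s)) (fun ν => ind (E0 c1 c2 ν) *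
        PrC f K n s y (lo ν) (cnt (lo (hi ν)) n) (hi (hi ν)))| ≤
      ε / (((K + (n + s) : ℕ) : ℝ) + 1) ^ (3 / 2 : ℝ) := by
  classical
  obtain ⟨C, hC, hgood⟩ := good_all c1 c2
  have hz1 := one_le_zz
  have hz0 : 0 < zz := lt_of_lt_of_le one_pos hz1
  set A : ℝ := zz ^ c2 with hA
  have hA0 : 0 < A := by positivity
  obtain ⟨D0, C1, hbad⟩ := bad_P c1 c2 (ε := ε / (2 * A)) (by positivity)
  set η : ℝ := ε / (2 * C * A) with hη
  have hη0 : 0 < η := by positivity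
  obtain ⟨κ0, hkey⟩ := key_C c1 F0 D0 C1 hy1 hη0
  obtain ⟨s1, hbad⟩ := hbad κ0
  obtain ⟨η1, hη1, s0, hkey⟩ := hkey s1
  obtain ⟨K0, hbad⟩ := hbad η1 hη1
  refine ⟨max K0 s0, fun K s hK hs => ?_⟩
  obtain ⟨nb, hbad⟩ := hbad K s (le_trans (le_max_left _ _) hK) (le_trans (le_max_left _ _) hs)
  obtain ⟨nk, hkey⟩ := hkey K s (le_trans (le_max_right _ _) hs)
  refine ⟨max nb nk, fun n hn f hf y hy => ?_⟩
  have hbad := hbad n (le_trans (le_max_left _ _) hn)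
  have hkey := hkey n (le_trans (le_max_right _ _) hn) f hf y hy
  have hgood := hgood (K + (n + s))
  set L : ℕ := K + (n + s) with hL
  have hD : 0 < ((L : ℝ) + 1) ^ (3 / 2 : ℝ) := by positivity
  set D : ℝ := ((L : ℝ) + 1) ^ (3 / 2 : ℝ) with hDdef
  let H : (Fin L → ℕ) → ℝ := fun ν =>
    ind (E0 c1 c2 ν) * (η + ind (¬ Nice D0 C1 η1 κ0 s1 K n s ν))
  have hH0 : ∀ ν, 0 ≤ H ν := fun ν =>
    mul_nonneg (ind_nonneg _) (add_nonneg hη0.le (ind_nonneg _))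
  have hH1 : ∀ ν, H ν ≤ 1 + η := fun ν => by
    have h1 := ind_le_one (E0 c1 c2 ν)
    have h2 := ind_nonneg (E0 c1 c2 ν)
    have h3 := ind_le_one (¬ Nice D0 C1 η1 κ0 s1 K n s ν)
    have h4 := ind_nonneg (¬ Nice D0 C1 η1 κ0 s1 K n s ν)
    calc H ν ≤ 1 * (η + 1) := mul_le_mul h1 (by linarith) (by linarith) zero_le_one
      _ = 1 + η := by ring
  refine (ZS_dist _ _ H (1 + η) (fun ν => ?_) (fun ν => ?_) (fun ν => ?_) (fun ν => ?_)).trans ?_
  · have h1 := PrB_Icc f K (n + s) y (lo ν) (hi ν)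
    rw [abs_of_nonneg (mul_nonneg (ind_nonneg _) h1.1)]
    have := mul_le_one₀ (ind_le_one (E0 c1 c2 ν)) h1.1 h1.2
    linarith
  · have h1 := PrC_Icc f K n s y (lo ν) (cnt (lo (hi ν)) n) (hi (hi ν))
    rw [abs_of_nonneg (mul_nonneg (ind_nonneg _) h1.1)]
    have := mul_le_one₀ (ind_le_one (E0 c1 c2 ν)) h1.1 h1.2
    linarith
  · rw [abs_of_nonneg (hH0 ν)]
    exact hH1 ν
  · rw [← mul_sub, abs_mul, abs_of_nonneg (ind_nonneg _)]
    by_cases h0 : E0 c1 c2 ν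
    swap
    · simp only [H, ind_not_of h0, zero_mul, le_refl]
    refine mul_le_mul_of_nonneg_left ?_ (ind_nonneg _)
    by_cases h1 : Nice D0 C1 η1 κ0 s1 K n s ν
    · rw [ind_not_of (not_not.mpr h1), add_zero]
      have h2 := hkey (lo ν) (lo (hi ν)) (hi (hi ν)) (cnt_lo h0)
      rw [append_lo_hi, append_lo_hi] at h2
      exact h2 h1
    · rw [ind_of h1]
      have h2 := PrB_Icc f K (n + s) y (lo ν) (hi ν)
      have h3 := PrC_Icc f K n s y (lo ν) (cnt (lo (hi ν)) n) (hi (hi ν))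
      rw [abs_le]
      constructor <;> linarith [h2.1, h2.2, h3.1, h3.2]
  · refine ZS_le H (1 + η) _ hH0 hH1 (by positivity) ?_
    have hpt : ∀ ν : Fin L → ℕ, ENNReal.ofReal (zz ^ (X ν L) * H ν) ≤
        ENNReal.ofReal (A * η) * (if E0 c1 c2 ν then 1 else 0) +
        ENNReal.ofReal A *
          (if E0 c1 c2 ν ∧ ¬ Nice D0 C1 η1 κ0 s1 K n s ν then 1 else 0) := fun ν => by
      by_cases h0 : E0 c1 c2 ν
      swap
      · simp only [H, ind_not_of h0, zero_mul, mul_zero, ENNReal.ofReal_zero]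
        exact zero_le
      have hX : zz ^ (X ν L) ≤ A := by
        rw [hA, ← zpow_natCast]
        exact zpow_le_zpow_right₀ hz1 h0.2
      rw [if_pos h0, mul_one]
      by_cases h1 : Nice D0 C1 η1 κ0 s1 K n s ν
      · rw [if_neg (fun h => h.2 h1), mul_zero, add_zero]
        refine ENNReal.ofReal_le_ofReal ?_
        simp only [H, ind_of h0, ind_not_of (not_not.mpr h1), one_mul, add_zero]
        exact mul_le_mul_of_nonneg_right hX hη0.le
      · rw [if_pos ⟨h0, h1⟩, mul_one, ← ENNReal.ofReal_add (by positivity) hA0.le]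
        refine ENNReal.ofReal_le_ofReal ?_
        simp only [H, ind_of h0, ind_of h1, one_mul]
        calc zz ^ (X ν L) * (η + 1) ≤ A * (η + 1) :=
              mul_le_mul_of_nonneg_right hX (by linarith)
          _ = A * η + A := by ring
    calc PW L (fun ν => ENNReal.ofReal (zz ^ (X ν L) * H ν))
        ≤ PW L (fun ν => ENNReal.ofReal (A * η) * (if E0 c1 c2 ν then 1 else 0) +
          ENNReal.ofReal A *
            (if E0 c1 c2 ν ∧ ¬ Nice D0 C1 η1 κ0 s1 K n s ν then 1 else 0)) := PW_mono hpt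
      _ = ENNReal.ofReal (A * η) * PW L (fun ν => if E0 c1 c2 ν then 1 else 0) +
          ENNReal.ofReal A * PW L (fun ν =>
            if E0 c1 c2 ν ∧ ¬ Nice D0 C1 η1 κ0 s1 K n s ν then 1 else 0) := by
          rw [PW_add, PW_cmul, PW_cmul]
      _ ≤ ENNReal.ofReal (A * η) * ENNReal.ofReal (C / D) +
          ENNReal.ofReal A * ENNReal.ofReal (ε / (2 * A) / D) := by
          gcongr
      _ = ENNReal.ofReal (ε / D) := by
          rw [← ENNReal.ofReal_mul (by positivity), ← ENNReal.ofReal_mul hA0.le,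
            ← ENNReal.ofReal_add (by positivity) (by positivity)]
          congr 1
          rw [hη]
          field_simp
          ring

end Pool.Agent.EN
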