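import Mathlib
import Pool.Agent.Lib.MP_ec0ede_nt_EN.Defs4
import Pool.Agent.Lib.MP_ec0ede_nt_EN.LawB
import Pool.Agent.Lib.MP_ec0ede_nt_EN.WfT
import Pool.Agent.Lib.MP_ec0ede_nt_EN.EpsC
import Pool.Agent.Lib.MP_ec0ede_nt_EN.CnL
import Pool.Agent.Lib.MP_ec0ede_nt_EN.StA
import Pool.Agent.Lib.MP_ec0ede_nt_EN.StB
import Pool.Agent.Lib.MP_ec0ede_nt_EN.StC
import Pool.Agent.Lib.MP_ec0ede_nt_EN.MP
import Pool.Agent.Lib.MP_ec0ede_nt_EN.PsiC

set_option autoImplicit false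

/-!
# MP_ec0ede_nt, project EN, module App: the approximations of the normalised densities
-/

noncomputable section

namespace Pool.Agent.EN

open Real Filter Topology Finset

namespace App

theorem xx_tendsto : Tendsto xx atTop atTop := by
  unfold xx
  have h1 : Tendsto (fun N : ℕ => Real.log (Real.log (N : ℝ))) atTop atTop :=
    Real.tendsto_log_atTop.comp (Real.tendsto_log_atTop.comp tendsto_natCast_atTop_atTop)
  exact h1.atTop_div_const (Real.log_pos (by norm_num))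

theorem log_two_pos : 0 < Real.log 2 := Real.log_pos (by norm_num)

theorem log_pos_of {N : ℕ} (hN : 3 ≤ N) : 0 < Real.log N := by
  refine Real.log_pos ?_
  have : (3 : ℝ) ≤ N := by exact_mod_cast hN
  linarith

theorem loglog_eq (N : ℕ) : Real.log (Real.log N) = xx N * Real.log 2 := by
  unfold xx
  rw [div_mul_cancel₀ _ log_two_pos.ne']

theorem log_eq {N : ℕ} (hN : 3 ≤ N) : Real.log N = (2 : ℝ) ^ xx N := by
  rw [Real.rpow_def_of_pos (by norm_num : (0 : ℝ) < 2), mul_comm, ← loglog_eq,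
    Real.exp_log (log_pos_of hN)]

theorem log_split {N : ℕ} (hN : 3 ≤ N) (L : ℕ) :
    Real.log N = (2 : ℝ) ^ (xx N - L) * 2 ^ L := by
  rw [log_eq hN, ← Real.rpow_natCast, ← Real.rpow_add (by norm_num)]
  congr 1
  ring

/-- `AA` in terms of the main sum -/
theorem AA_eq {N L : ℕ} (hN : 3 ≤ N) (hGL : G N ≤ L * Real.log 2) (hx : 0 ≤ xx N) :
    AA N = cN N L * (((L : ℝ) + 1) ^ (3 / 2 : ℝ) *
        ∑' f : ℕ, ind (Sm N f) * wf f * Z f L (Real.log N)) *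
      (xx N / ((L : ℝ) + 1)) ^ (3 / 2 : ℝ) *
      ((2 : ℝ) ^ (dl * (xx N - L)) * (Real.log 2) ^ (3 / 2 : ℝ)) := by
  have hmi := main_identity N L (by omega) hGL
  have hL1 : (0 : ℝ) < (L : ℝ) + 1 := by positivity
  have e1 : (Real.log N) ^ dl = (2 : ℝ) ^ (dl * (xx N - L)) * (2 : ℝ) ^ (dl * L) := by
    rw [log_eq hN, ← Real.rpow_mul (by norm_num), ← Real.rpow_add (by norm_num)]
    congr 1
    ring
  have e2 : (Real.log (Real.log N)) ^ (3 / 2 : ℝ) =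
      ((L : ℝ) + 1) ^ (3 / 2 : ℝ) * (xx N / ((L : ℝ) + 1)) ^ (3 / 2 : ℝ) *
        (Real.log 2) ^ (3 / 2 : ℝ) := by
    rw [loglog_eq, Real.mul_rpow hx log_two_pos.le, ← Real.mul_rpow hL1.le (by positivity),
      mul_div_cancel₀ _ hL1.ne']
  unfold AA
  rw [e1, e2]
  linear_combination (((L : ℝ) + 1) ^ (3 / 2 : ℝ) * (xx N / ((L : ℝ) + 1)) ^ (3 / 2 : ℝ) *
        (Real.log 2) ^ (3 / 2 : ℝ) * (2 : ℝ) ^ (dl * (xx N - L))) * hmi

theorem L_large (Λ : ℝ) : ∃ N0 : ℕ, ∀ N ≥ N0, ∀ L : ℕ, xx N - L ≤ al + 2 → Λ ≤ L := by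
  obtain ⟨N0, h⟩ := eventually_atTop.mp (xx_tendsto.eventually_ge_atTop (Λ + al + 2))
  exact ⟨N0, fun N hN L hL => by have := h N hN; linarith⟩

theorem G_le : ∃ N0 : ℕ, ∀ N ≥ N0, ∀ L : ℕ, xx N - L ≤ al + 2 → G N ≤ L * Real.log 2 := by
  have h2 := log_two_pos
  have h := mer_tendsto.eventually_le_const (show Mer < Mer + Real.log 2 / 2 by linarith)
  obtain ⟨N0, h⟩ := eventually_atTop.mp h
  refine ⟨N0, fun N hN L hL => ?_⟩
  have h3 := h N hN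
  rw [loglog_eq] at h3
  have h4 : xx N * Real.log 2 ≤ (L + al + 2) * Real.log 2 :=
    mul_le_mul_of_nonneg_right (by linarith) h2.le
  have h5 : (L + al + 2) * Real.log 2 = L * Real.log 2 - Mer - Real.log 2 / 2 := by
    unfold al
    field_simp
    ring
  linarith

theorem r_lim {δ : ℝ} (hδ : 0 < δ) : ∃ N0 : ℕ, ∀ N ≥ N0, ∀ L : ℕ, al ≤ xx N - L →
    xx N - L ≤ al + 2 → |(xx N / ((L : ℝ) + 1)) ^ (3 / 2 : ℝ) - 1| ≤ δ := by
  have hc : ContinuousAt (fun x : ℝ => x ^ (3 / 2 : ℝ)) 1 :=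
    Real.continuousAt_rpow_const 1 _ (Or.inl one_ne_zero)
  rw [Metric.continuousAt_iff] at hc
  obtain ⟨δ', hδ', hc⟩ := hc δ hδ
  obtain ⟨N0, hN0⟩ := L_large ((|al| + 3) / δ')
  refine ⟨N0, fun N hN L h1 h2 => ?_⟩
  have h3 := hN0 N hN L h2
  have hL1 : (0 : ℝ) < (L : ℝ) + 1 := by positivity
  have h4 : dist (xx N / ((L : ℝ) + 1)) 1 < δ' := by
    rw [Real.dist_eq]
    have e : xx N / ((L : ℝ) + 1) - 1 = (xx N - L - 1) / ((L : ℝ) + 1) := by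
      field_simp
      ring
    rw [e, abs_div, abs_of_pos hL1, div_lt_iff₀ hL1]
    have h5 : |xx N - L - 1| ≤ |al| + 3 := by
      rw [abs_le]
      have h6 := neg_abs_le al
      have h7 := le_abs_self al
      constructor <;> linarith
    rw [div_le_iff₀ hδ'] at h3
    nlinarith
  have h8 := hc h4
  rw [Real.dist_eq, Real.one_rpow] at h8
  exact h8.le

/-- combination of the three steps for each `f` -/
theorem comb {ι : Type} (s : Finset ι) (w ZA ZB ZC Ps : ι → ℝ) (Sig T C R e1 e2 e3 : ℝ)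
    (hT : 0 < T) (hw0 : ∀ f, 0 ≤ w f) (hw1 : ∀ f, w f ≤ 1)
    (h1 : |Sig - ∑ f ∈ s, w f * ZA f| ≤ C / T * R)
    (h2 : ∀ f ∈ s, |ZA f - ZB f| ≤ e1 / T)
    (h3 : ∀ f ∈ s, |ZB f - ZC f| ≤ e2 / T)
    (h4 : ∀ f ∈ s, |T * ZC f - Ps f| ≤ e3) :
    |T * Sig - ∑ f ∈ s, w f * Ps f| ≤ C * R + s.card * (e1 + e2 + e3) := by
  have e : T * Sig - ∑ f ∈ s, w f * Ps f = T * (Sig - ∑ f ∈ s, w f * ZA f) +
      ∑ f ∈ s, w f * (T * (ZA f - ZB f) + T * (ZB f - ZC f) + (T * ZC f - Ps f)) := by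
    have e1 : ∑ f ∈ s, w f * (T * (ZA f - ZB f) + T * (ZB f - ZC f) + (T * ZC f - Ps f)) =
        T * ∑ f ∈ s, w f * ZA f - ∑ f ∈ s, w f * Ps f := by
      rw [Finset.mul_sum, ← Finset.sum_sub_distrib]
      refine Finset.sum_congr rfl fun f _ => ?_
      ring
    rw [e1]
    ring
  rw [e]
  refine (abs_add_le _ _).trans (add_le_add ?_ ?_)
  · rw [abs_mul, abs_of_pos hT]
    calc T * |Sig - ∑ f ∈ s, w f * ZA f| ≤ T * (C / T * R) :=
          mul_le_mul_of_nonneg_left h1 hT.le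
      _ = C * R := by field_simp
  · refine (Finset.abs_sum_le_sum_abs _ _).trans ?_
    calc ∑ f ∈ s, |w f * (T * (ZA f - ZB f) + T * (ZB f - ZC f) + (T * ZC f - Ps f))|
        ≤ ∑ f ∈ s, (e1 + e2 + e3) := by
          refine Finset.sum_le_sum fun f hf => ?_
          rw [abs_mul, abs_of_nonneg (hw0 f)]
          have g2 : |T * (ZA f - ZB f)| ≤ e1 := by
            rw [abs_mul, abs_of_pos hT]
            calc T * |ZA f - ZB f| ≤ T * (e1 / T) := mul_le_mul_of_nonneg_left (h2 f hf) hT.le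
              _ = e1 := by field_simp
          have g3 : |T * (ZB f - ZC f)| ≤ e2 := by
            rw [abs_mul, abs_of_pos hT]
            calc T * |ZB f - ZC f| ≤ T * (e2 / T) := mul_le_mul_of_nonneg_left (h3 f hf) hT.le
              _ = e2 := by field_simp
          have g4 := h4 f hf
          have g5 : |T * (ZA f - ZB f) + T * (ZB f - ZC f) + (T * ZC f - Ps f)| ≤
              e1 + e2 + e3 := (abs_add_three _ _ _).trans (by linarith)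
          calc w f * |T * (ZA f - ZB f) + T * (ZB f - ZC f) + (T * ZC f - Ps f)|
              ≤ 1 * (e1 + e2 + e3) := mul_le_mul (hw1 f) g5 (abs_nonneg _) zero_le_one
            _ = e1 + e2 + e3 := one_mul _
      _ = s.card * (e1 + e2 + e3) := by rw [Finset.sum_const, nsmul_eq_mul]

/-- the final combination -/
theorem fin_comb (c S r m ci P M1 Cr e0 d2 B : ℝ) (hm0 : 0 ≤ m) (hm : m ≤ M1)
    (h1 : |S - P| ≤ e0) (h2 : |c * r - ci| ≤ d2) (h3 : |c * r| ≤ Cr) (h4 : |P| ≤ B) :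
    |c * S * r * m - ci * P * m| ≤ M1 * (Cr * e0 + d2 * B) := by
  have e : c * S * r * m - ci * P * m = m * ((c * r) * (S - P) + (c * r - ci) * P) := by ring
  rw [e, abs_mul, abs_of_nonneg hm0]
  have hCr : 0 ≤ Cr := (abs_nonneg _).trans h3
  have hd2 : 0 ≤ d2 := (abs_nonneg _).trans h2
  have h5 : |(c * r) * (S - P) + (c * r - ci) * P| ≤ Cr * e0 + d2 * B := by
    refine (abs_add_le _ _).trans (add_le_add ?_ ?_)
    · rw [abs_mul]
      exact mul_le_mul h3 h1 (abs_nonneg _) hCr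
    · rw [abs_mul]
      exact mul_le_mul h2 h4 (abs_nonneg _) hd2
  exact mul_le_mul hm h5 (abs_nonneg _) (hm0.trans hm)

theorem Th_cont (K s c1 c2 F0 : ℕ) : Continuous (Th K s c1 c2 F0) := by
  unfold Th
  have h2 : Continuous (fun t : ℝ => (2 : ℝ) ^ t) := Real.continuous_const_rpow (by norm_num)
  have h3 : Continuous (fun t : ℝ => (2 : ℝ) ^ (dl * t)) :=
    h2.comp (continuous_const.mul continuous_id)
  refine (continuous_const.mul h3).mul (continuous_finsetSum _ fun f _ => ?_)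
  exact continuous_const.mul ((Psi_continuous K s c1 c2 f).comp h2)

theorem P_cont (K s c1 c2 F0 : ℕ) :
    Continuous (fun t : ℝ => ∑ f ∈ Icc 1 F0, wf f * Psi K s c1 c2 f ((2 : ℝ) ^ t)) := by
  have h2 : Continuous (fun t : ℝ => (2 : ℝ) ^ t) := Real.continuous_const_rpow (by norm_num)
  refine continuous_finsetSum _ fun f _ => ?_
  exact continuous_const.mul ((Psi_continuous K s c1 c2 f).comp h2)

theorem bound_on {F : ℝ → ℝ} (hF : Continuous F) :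
    ∃ B : ℝ, 0 < B ∧ ∀ t ∈ Set.Icc al (al + 2), |F t| ≤ B := by
  obtain ⟨B, hB⟩ := (isCompact_Icc (a := al) (b := al + 2)).exists_bound_of_continuousOn
    hF.continuousOn
  refine ⟨|B| + 1, by positivity, fun t ht => ?_⟩
  have := hB t ht
  rw [Real.norm_eq_abs] at this
  have h2 := le_abs_self B
  linarith

theorem mp_unif (K s c1 c2 F0 : ℕ) {ε : ℝ} (hε : 0 < ε) : ∃ n1 : ℕ, ∀ n ≥ n1,
    ∀ f ∈ Icc 1 F0, ∀ Y : ℝ,
    |(((K + (n + s) : ℕ) : ℝ) + 1) ^ (3 / 2 : ℝ) *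
      ZS (K + (n + s)) (fun ν => ind (E0 c1 c2 ν) *
        PrC f K n s (Y * 2 ^ (K + (n + s))) (lo ν) (cnt (lo (hi ν)) n) (hi (hi ν))) -
      Psi K s c1 c2 f Y| ≤ ε := by
  choose nf hnf using fun f : ℕ => mp_lim K s c1 c2 f hε
  refine ⟨(Icc 1 F0).sup nf, fun n hn f hf Y => hnf f n ?_ Y⟩
  exact (Finset.le_sup hf).trans hn

/-- the sum for `N` against the limit function -/
theorem sum_est {c1 c2 F0 K s n N : ℕ} {C ρ e0 e' t : ℝ} (hF : (F0 : ℝ) * (3 * e') ≤ 3 * (e0 / 8))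
    (he0 : 0 < e0) (hN : 3 ≤ N) (ht : t = xx N - ((K + (n + s) : ℕ) : ℝ))
    (hc1 : C * ρ ^ c1 ≤ e0 / 8) (hc2 : C * ρ ^ c2 ≤ e0 / 8)
    (hcF : C * ((F0 : ℝ) + 1) ^ (-1 / 8 : ℝ) ≤ e0 / 8) (hcL : C * ρ ^ (K + (n + s)) ≤ e0 / 8)
    (hA : |∑' f : ℕ, ind (Sm N f) * wf f * Z f (K + (n + s)) (Real.log N) -
      ∑ f ∈ Icc 1 F0, wf f * ZS (K + (n + s)) (fun ν => ind (E0 c1 c2 ν) *
        PrA f (K + (n + s)) (Real.log N) ν)| ≤
      C / (((K + (n + s) : ℕ) : ℝ) + 1) ^ (3 / 2 : ℝ) *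
        (ρ ^ c1 + ρ ^ c2 + ((F0 : ℝ) + 1) ^ (-1 / 8 : ℝ) + ρ ^ (K + (n + s))))
    (hB : ∀ f ∈ Icc 1 F0, |ZS (K + (n + s)) (fun ν => ind (E0 c1 c2 ν) *
        PrA f (K + (n + s)) (Real.log N) ν) -
      ZS (K + (n + s)) (fun ν => ind (E0 c1 c2 ν) *
        PrB f K (n + s) (Real.log N) (lo ν) (hi ν))| ≤
      e' / (((K + (n + s) : ℕ) : ℝ) + 1) ^ (3 / 2 : ℝ))
    (hC : ∀ f ∈ Icc 1 F0, |ZS (K + (n + s)) (fun ν => ind (E0 c1 c2 ν) *
        PrB f K (n + s) (Real.log N) (lo ν) (hi ν)) -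
      ZS (K + (n + s)) (fun ν => ind (E0 c1 c2 ν) *
        PrC f K n s (Real.log N) (lo ν) (cnt (lo (hi ν)) n) (hi (hi ν)))| ≤
      e' / (((K + (n + s) : ℕ) : ℝ) + 1) ^ (3 / 2 : ℝ))
    (hM : ∀ f ∈ Icc 1 F0, ∀ Y : ℝ, |(((K + (n + s) : ℕ) : ℝ) + 1) ^ (3 / 2 : ℝ) *
      ZS (K + (n + s)) (fun ν => ind (E0 c1 c2 ν) *
        PrC f K n s (Y * 2 ^ (K + (n + s))) (lo ν) (cnt (lo (hi ν)) n) (hi (hi ν))) -
      Psi K s c1 c2 f Y| ≤ e') :
    |(((K + (n + s) : ℕ) : ℝ) + 1) ^ (3 / 2 : ℝ) *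
        ∑' f : ℕ, ind (Sm N f) * wf f * Z f (K + (n + s)) (Real.log N) -
      ∑ f ∈ Icc 1 F0, wf f * Psi K s c1 c2 f ((2 : ℝ) ^ t)| ≤ e0 := by
  have hT : (0 : ℝ) < (((K + (n + s) : ℕ) : ℝ) + 1) ^ (3 / 2 : ℝ) := by positivity
  have hy : Real.log N = (2 : ℝ) ^ t * 2 ^ (K + (n + s)) := by
    rw [ht]
    exact log_split hN _
  have h4 : ∀ f ∈ Icc 1 F0, |(((K + (n + s) : ℕ) : ℝ) + 1) ^ (3 / 2 : ℝ) *
      ZS (K + (n + s)) (fun ν => ind (E0 c1 c2 ν) *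
        PrC f K n s (Real.log N) (lo ν) (cnt (lo (hi ν)) n) (hi (hi ν))) -
      Psi K s c1 c2 f ((2 : ℝ) ^ t)| ≤ e' := by
    intro f hf
    have := hM f hf ((2 : ℝ) ^ t)
    rwa [← hy] at this
  have h := comb (Icc 1 F0) wf _ _ _ _ _ _ C _ e' e' e' hT wf_nonneg wf_le_one
    hA hB hC h4
  refine h.trans ?_
  rw [Nat.card_Icc, Nat.add_sub_cancel]
  have e1 : C * (ρ ^ c1 + ρ ^ c2 + ((F0 : ℝ) + 1) ^ (-1 / 8 : ℝ) + ρ ^ (K + (n + s))) =
      C * ρ ^ c1 + C * ρ ^ c2 + C * ((F0 : ℝ) + 1) ^ (-1 / 8 : ℝ) + C * ρ ^ (K + (n + s)) := by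
    ring
  rw [e1]
  have e2 : (F0 : ℝ) * (e' + e' + e') = (F0 : ℝ) * (3 * e') := by ring
  rw [e2]
  linarith

end App

open App in
theorem app {ε : ℝ} (hε : 0 < ε) : ∃ c0 : ℕ, ∀ c1 ≥ c0, ∀ c2 ≥ c0, ∀ F0 ≥ c0, ∃ K0 : ℕ,
    ∀ K ≥ K0, ∀ s ≥ K0, Appr AA al (Th K s c1 c2 F0) ε := by
  have hci := cinf_pos
  have hl2 := log_two_pos
  -- the factor `m`
  have hmc : Continuous (fun t : ℝ => (2 : ℝ) ^ (dl * t) * (Real.log 2) ^ (3 / 2 : ℝ)) := by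
    have h2 : Continuous (fun t : ℝ => (2 : ℝ) ^ t) := Real.continuous_const_rpow (by norm_num)
    exact (h2.comp (continuous_const.mul continuous_id)).mul continuous_const
  obtain ⟨M1, hM1, hm⟩ := bound_on hmc
  have hy1 : (0 : ℝ) < (2 : ℝ) ^ al := Real.rpow_pos_of_pos (by norm_num) _
  obtain ⟨C, ρ, hC, hρ0, hρ1, L0, hA⟩ := st_A hy1
  obtain ⟨e0, he0⟩ : ∃ e0 : ℝ, e0 = ε / (2 * M1 * (cinf + 1)) := ⟨_, rfl⟩
  have he00 : 0 < e0 := by
    rw [he0]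
    positivity
  have E1 : ∀ᶠ c : ℕ in atTop, C * ρ ^ c ≤ e0 / 8 := by
    have h := (tendsto_pow_atTop_nhds_zero_of_lt_one hρ0.le hρ1).const_mul C
    rw [mul_zero] at h
    exact h.eventually_le_const (by positivity)
  have E2 : ∀ᶠ F : ℕ in atTop, C * ((F : ℝ) + 1) ^ (-1 / 8 : ℝ) ≤ e0 / 8 := by
    have h1 : Tendsto (fun F : ℕ => (F : ℝ) + 1) atTop atTop :=
      tendsto_atTop_add_const_right _ _ tendsto_natCast_atTop_atTop
    have h := ((tendsto_rpow_neg_atTop (show (0 : ℝ) < 1 / 8 by norm_num)).comp h1).const_mul C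
    rw [mul_zero] at h
    have h2 := h.eventually_le_const (show (0 : ℝ) < e0 / 8 by positivity)
    refine h2.mono fun F hF => ?_
    have e : (-1 / 8 : ℝ) = -(1 / 8) := by norm_num
    rw [e]
    exact hF
  obtain ⟨c0, hc0⟩ := eventually_atTop.mp (E1.and E2)
  refine ⟨c0, fun c1 h1 c2 h2 F0 hF => ?_⟩
  obtain ⟨e', he'⟩ : ∃ e' : ℝ, e' = e0 / (8 * ((F0 : ℝ) + 1)) := ⟨_, rfl⟩
  have he'0 : 0 < e' := by
    rw [he']
    positivity
  have hF3 : (F0 : ℝ) * (3 * e') ≤ 3 * (e0 / 8) := by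
    have h3 : (F0 : ℝ) * e' ≤ e0 / 8 := by
      have h4 : ((F0 : ℝ) + 1) * e' = e0 / 8 := by
        rw [he']
        field_simp
      linarith
    linarith
  obtain ⟨KB, hB⟩ := st_B c1 c2 F0 he'0
  obtain ⟨KC, hCC⟩ := st_C c1 c2 F0 hy1 he'0
  refine ⟨max KB KC, fun K hK s hs => ⟨(Th_cont K s c1 c2 F0).continuousOn, ?_⟩⟩
  obtain ⟨n0, hn0⟩ := hCC K s ((le_max_right _ _).trans hK) ((le_max_right _ _).trans hs)
  obtain ⟨n1, hn1⟩ := mp_unif K s c1 c2 F0 he'0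
  obtain ⟨B, hB0, hBd⟩ := bound_on (P_cont K s c1 c2 F0)
  obtain ⟨d2, hd2⟩ : ∃ d2 : ℝ, d2 = min 1 (ε / (2 * M1 * B)) := ⟨_, rfl⟩
  have hd20 : 0 < d2 := by
    rw [hd2]
    exact lt_min one_pos (by positivity)
  obtain ⟨δ, hδ⟩ : ∃ δ : ℝ, δ = min 1 (d2 / (2 + cinf)) := ⟨_, rfl⟩
  have hδ0 : 0 < δ := by
    rw [hδ]
    exact lt_min one_pos (by positivity)
  obtain ⟨Na, ha⟩ := cN_lim hδ0
  obtain ⟨Nb, hb⟩ := r_lim hδ0
  obtain ⟨Nc, hc⟩ := G_le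
  obtain ⟨Nd, hd⟩ := L_large ((K + s + n0 + n1 + L0 + c0 : ℕ) : ℝ)
  obtain ⟨Ne, hNe⟩ := eventually_atTop.mp (xx_tendsto.eventually_ge_atTop 0)
  refine ⟨Na + Nb + Nc + Nd + Ne + 3 + F0, fun N hN L hL1 hL2 => ?_⟩
  have hN3 : 3 ≤ N := by omega
  have hGL := hc N (by omega) L hL2
  have hxx : 0 ≤ xx N := hNe N (by omega)
  have hLl : K + s + n0 + n1 + L0 + c0 ≤ L := by
    have := hd N (by omega) L hL2
    exact_mod_cast this
  have hcN := ha N (by omega) L hGL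
  have hr := hb N (by omega) L hL1 hL2
  obtain ⟨n, hn⟩ : ∃ n : ℕ, L = K + (n + s) := ⟨L - K - s, by omega⟩
  subst hn
  obtain ⟨t, ht⟩ : ∃ t : ℝ, t = xx N - ((K + (n + s) : ℕ) : ℝ) := ⟨_, rfl⟩
  have hy : Real.log N = (2 : ℝ) ^ t * 2 ^ (K + (n + s)) := by
    rw [ht]
    exact log_split hN3 _
  have hy2 : (2 : ℝ) ^ al * 2 ^ (K + (n + s)) ≤ Real.log N := by
    rw [hy]
    refine mul_le_mul_of_nonneg_right ?_ (by positivity)
    refine Real.rpow_le_rpow_of_exponent_le (by norm_num) ?_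
    rw [ht]
    exact hL1
  have hS := sum_est (c1 := c1) (c2 := c2) (F0 := F0) (K := K) (s := s) (n := n) (N := N)
    (C := C) (ρ := ρ) (e0 := e0) (e' := e') (t := t) hF3 he00 hN3 ht (hc0 c1 h1).1
    (hc0 c2 h2).1 (hc0 F0 hF).2 (hc0 _ (by omega)).1
    (hA (K + (n + s)) N c1 c2 F0 (Real.log N) (by omega) hy2 (by omega))
    (fun f hf => hB K ((le_max_left _ _).trans hK) (n + s) f hf (Real.log N))
    (fun f hf => hn0 n (by omega) f hf (Real.log N) hy2)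
    (fun f hf => hn1 n (by omega) f hf)
  rw [AA_eq hN3 hGL hxx, ← ht]
  have hT : Th K s c1 c2 F0 t = cinf *
      (∑ f ∈ Icc 1 F0, wf f * Psi K s c1 c2 f ((2 : ℝ) ^ t)) *
      ((2 : ℝ) ^ (dl * t) * (Real.log 2) ^ (3 / 2 : ℝ)) := by
    unfold Th
    ring
  rw [hT]
  have htI : t ∈ Set.Icc al (al + 2) := by
    rw [ht]
    exact ⟨hL1, hL2⟩
  have hm0 : 0 ≤ (2 : ℝ) ^ (dl * t) * (Real.log 2) ^ (3 / 2 : ℝ) := by positivity
  have hm1 : (2 : ℝ) ^ (dl * t) * (Real.log 2) ^ (3 / 2 : ℝ) ≤ M1 := (le_abs_self _).trans (hm t htI)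
  have hδ1 : δ ≤ 1 := by
    rw [hδ]
    exact min_le_left _ _
  have hcr : |cN N (K + (n + s)) * (xx N / (((K + (n + s) : ℕ) : ℝ) + 1)) ^ (3 / 2 : ℝ) - cinf| ≤
      d2 := by
    obtain ⟨c, hcc⟩ : ∃ c : ℝ, c = cN N (K + (n + s)) := ⟨_, rfl⟩
    obtain ⟨r, hrr⟩ : ∃ r : ℝ, r = (xx N / (((K + (n + s) : ℕ) : ℝ) + 1)) ^ (3 / 2 : ℝ) := ⟨_, rfl⟩
    rw [← hrr] at hr ⊢
    rw [← hcc] at hcN ⊢
    have e : c * r - cinf = (c - cinf) * r + cinf * (r - 1) := by ring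
    rw [e]
    have hr2 : |r| ≤ 2 := by
      rw [abs_le] at hr ⊢
      constructor <;> linarith [hr.1, hr.2]
    calc |(c - cinf) * r + cinf * (r - 1)| ≤ |(c - cinf) * r| + |cinf * (r - 1)| := abs_add_le _ _
      _ = |c - cinf| * |r| + cinf * |r - 1| := by
          rw [abs_mul, abs_mul, abs_of_pos hci]
      _ ≤ δ * 2 + cinf * δ := add_le_add (mul_le_mul hcN hr2 (abs_nonneg _) hδ0.le)
          (mul_le_mul_of_nonneg_left hr hci.le)
      _ = (2 + cinf) * δ := by ring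
      _ ≤ (2 + cinf) * (d2 / (2 + cinf)) := by
          refine mul_le_mul_of_nonneg_left ?_ (by positivity)
          rw [hδ]
          exact min_le_right _ _
      _ = d2 := by field_simp
  have hd21 : d2 ≤ 1 := by
    rw [hd2]
    exact min_le_left _ _
  have hcr1 : |cN N (K + (n + s)) * (xx N / (((K + (n + s) : ℕ) : ℝ) + 1)) ^ (3 / 2 : ℝ)| ≤
      cinf + 1 := by
    have h3 := abs_le.mp (hcr.trans hd21)
    rw [abs_le]
    constructor <;> linarith [h3.1, h3.2]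
  refine (fin_comb _ _ _ _ _ _ M1 (cinf + 1) e0 d2 B hm0 hm1 hS hcr hcr1 (hBd t htI)).trans ?_
  have g1 : M1 * ((cinf + 1) * e0) = ε / 2 := by
    rw [he0]
    field_simp
  have g2 : M1 * (d2 * B) ≤ ε / 2 := by
    have g3 : d2 ≤ ε / (2 * M1 * B) := by
      rw [hd2]
      exact min_le_right _ _
    calc M1 * (d2 * B) ≤ M1 * (ε / (2 * M1 * B) * B) :=
          mul_le_mul_of_nonneg_left (mul_le_mul_of_nonneg_right g3 hB0.le) hM1.le
      _ = ε / 2 := by field_simp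
  linarith

end Pool.Agent.EN
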