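import Mathlib
import Pool.Agent.Lib.MP_ec0ede_nt_EN.Defs4

set_option autoImplicit false

/-!
# MP_ec0ede_nt, project EN, module Lim: from approximations to the periodic function
-/

noncomputable section

namespace Pool.Agent.EN

open Real Filter Topology Finset

namespace Lim

lemma log2_pos : 0 < Real.log 2 := Real.log_pos (by norm_num)

lemma xx_tendsto : Tendsto xx atTop atTop := by
  have h1 : Tendsto (fun N : ℕ => Real.log (Real.log N)) atTop atTop :=
    Real.tendsto_log_atTop.comp (Real.tendsto_log_atTop.comp tendsto_natCast_atTop_atTop)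
  exact h1.atTop_div_const log2_pos

lemma log_step {a : ℝ} (ha : 0 < a) {b : ℝ} (hab : a ≤ b) :
    Real.log b - Real.log a ≤ (b - a) / a := by
  have hb : 0 < b := by linarith
  rw [← Real.log_div hb.ne' ha.ne']
  have h1 := Real.log_le_sub_one_of_pos (x := b / a) (by positivity)
  have h2 : b / a - 1 = (b - a) / a := by field_simp
  linarith

lemma xx_step {δ : ℝ} (hδ : 0 < δ) : ∃ N1 : ℕ, ∀ N ≥ N1, xx N ≤ xx (N + 1) ∧
    xx (N + 1) - xx N < δ := by
  have hl := log2_pos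
  obtain ⟨N1, hN1⟩ := exists_nat_gt (1 / (δ * Real.log 2) + 3)
  refine ⟨N1, fun N hN => ?_⟩
  have hNN : (N1 : ℝ) ≤ N := by exact_mod_cast hN
  have hpos : 0 < 1 / (δ * Real.log 2) := by positivity
  have hN3 : (3 : ℝ) < N := by linarith
  have hN0 : (0 : ℝ) < N := by linarith
  have hlog : 1 ≤ Real.log N := by
    rw [Real.le_log_iff_exp_le hN0]
    have := Real.exp_one_lt_d9
    linarith
  have hcast : ((N + 1 : ℕ) : ℝ) = N + 1 := by push_cast; ring
  have h1 : Real.log N ≤ Real.log ((N + 1 : ℕ) : ℝ) := by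
    apply Real.log_le_log hN0
    rw [hcast]
    linarith
  have h2 : Real.log (Real.log N) ≤ Real.log (Real.log ((N + 1 : ℕ) : ℝ)) :=
    Real.log_le_log (by linarith) h1
  have h3 := log_step hN0 (b := ((N + 1 : ℕ) : ℝ)) (by rw [hcast]; linarith)
  have h4 := log_step (by linarith : 0 < Real.log N) h1
  rw [hcast, show (N : ℝ) + 1 - N = 1 by ring, ← hcast] at h3
  have h5 : (Real.log ((N + 1 : ℕ) : ℝ) - Real.log N) / Real.log N ≤ 1 / N := by
    rw [div_le_iff₀ (by linarith)]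
    have h6 : 0 < 1 / (N : ℝ) := by positivity
    nlinarith
  have h7 : 1 / (N : ℝ) < δ * Real.log 2 := by
    rw [div_lt_iff₀ hN0]
    have h8 : 1 / (δ * Real.log 2) < N := by linarith
    rw [div_lt_iff₀ (by positivity)] at h8
    linarith
  constructor
  · unfold xx
    gcongr
  · unfold xx
    rw [← sub_div, div_lt_iff₀ hl]
    linarith

/-- density, from the right -/
lemma dense_right (t : ℝ) {δ : ℝ} (hδ : 0 < δ) (N0 : ℕ) : ∃ N ≥ N0, ∃ L : ℕ,
    0 ≤ xx N - L - t ∧ xx N - L - t < δ := by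
  obtain ⟨N1, hN1⟩ := xx_step hδ
  set M := max N0 N1 with hM
  obtain ⟨L, hL⟩ := exists_nat_gt (xx M - t)
  have hex : ∃ N, M ≤ N ∧ (L : ℝ) + t ≤ xx N := by
    obtain ⟨N, h1, h2⟩ := ((xx_tendsto.eventually_ge_atTop ((L : ℝ) + t)).and
      (eventually_ge_atTop M)).exists
    exact ⟨N, h2, h1⟩
  classical
  set N := Nat.find hex with hNdef
  obtain ⟨hN1', hN2'⟩ := Nat.find_spec hex
  have hne : N ≠ M := by
    intro h
    rw [← hNdef, h] at hN2'
    linarith
  have hlt : M < N := lt_of_le_of_ne hN1' (Ne.symm hne)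
  obtain ⟨k, hk⟩ : ∃ k, N = k + 1 := ⟨N - 1, by omega⟩
  have hkM : M ≤ k := by omega
  have h3 : ¬ ((L : ℝ) + t ≤ xx k) := by
    intro h
    have := Nat.find_min hex (m := k) (by omega)
    exact this ⟨hkM, h⟩
  have h4 := (hN1 k (le_trans (le_max_right _ _) hkM)).2
  rw [← hk] at h4
  push Not at h3
  refine ⟨N, le_trans (le_max_left _ _) hN1', L, ?_, ?_⟩
  · linarith
  · linarith

/-- density in an interval -/
lemma dense_Icc {a b : ℝ} (hab : a < b) {t : ℝ} (ht : t ∈ Set.Icc a b) {δ : ℝ} (hδ : 0 < δ)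
    (N0 : ℕ) : ∃ N ≥ N0, ∃ L : ℕ, xx N - L ∈ Set.Icc a b ∧ |xx N - L - t| ≤ δ := by
  set d : ℝ := min δ ((b - a) / 2) with hd
  have hd0 : 0 < d := lt_min hδ (by linarith)
  have hd1 : d ≤ δ := min_le_left _ _
  have hd2 : d ≤ (b - a) / 2 := min_le_right _ _
  by_cases h : t ≤ (a + b) / 2
  · obtain ⟨N, hN, L, h1, h2⟩ := dense_right t hd0 N0
    refine ⟨N, hN, L, ⟨by linarith [ht.1], by linarith⟩, ?_⟩
    rw [abs_of_nonneg h1]
    linarith
  · push Not at h
    obtain ⟨N, hN, L, h1, h2⟩ := dense_right (t - d) hd0 N0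
    refine ⟨N, hN, L, ⟨by linarith, by linarith [ht.2]⟩, ?_⟩
    rw [abs_le]
    constructor <;> linarith

/-- two approximations differ by at most the sum of the errors -/
lemma appr_diff {A : ℕ → ℝ} {α : ℝ} {T T' : ℝ → ℝ} {ε ε' : ℝ} (h : Appr A α T ε)
    (h' : Appr A α T' ε') {t : ℝ} (ht : t ∈ Set.Icc α (α + 2)) : |T t - T' t| ≤ ε + ε' := by
  apply le_of_forall_pos_le_add
  intro η hη
  obtain ⟨hc, N0, hN0⟩ := h
  obtain ⟨hc', N0', hN0'⟩ := h'
  have c1 := hc t ht
  have c2 := hc' t ht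
  rw [Metric.continuousWithinAt_iff] at c1 c2
  obtain ⟨δ1, hδ1, c1⟩ := c1 (η / 2) (by positivity)
  obtain ⟨δ2, hδ2, c2⟩ := c2 (η / 2) (by positivity)
  have hδ : 0 < min δ1 δ2 / 2 := by
    have := lt_min hδ1 hδ2
    linarith
  obtain ⟨N, hN, L, hs, hst⟩ := dense_Icc (by linarith : α < α + 2) ht hδ (max N0 N0')
  have hm1 : min δ1 δ2 ≤ δ1 := min_le_left _ _
  have hm2 : min δ1 δ2 ≤ δ2 := min_le_right _ _
  have e1 := c1 hs (by rw [Real.dist_eq]; linarith)
  have e2 := c2 hs (by rw [Real.dist_eq]; linarith)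
  rw [Real.dist_eq] at e1 e2
  have e3 := hN0 N (le_trans (le_max_left _ _) hN) L hs.1 hs.2
  have e4 := hN0' N (le_trans (le_max_right _ _) hN) L hs.1 hs.2
  rw [abs_lt] at e1 e2
  rw [abs_le] at e3 e4 ⊢
  constructor <;> linarith [e1.1, e1.2, e2.1, e2.2, e3.1, e3.2, e4.1, e4.2]

/-- the limit function on the window -/
lemma exists_T {A : ℕ → ℝ} {α : ℝ} (h : ∀ ε > 0, ∃ T, Appr A α T ε) :
    ∃ T : ℝ → ℝ, ContinuousOn T (Set.Icc α (α + 2)) ∧
      ∀ S ε, Appr A α S ε → ∀ t ∈ Set.Icc α (α + 2), |T t - S t| ≤ ε := by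
  have hk : ∀ k : ℕ, 0 < 1 / ((k : ℝ) + 1) := fun k => by positivity
  choose F hF using fun k : ℕ => h (1 / ((k : ℝ) + 1)) (hk k)
  have hlim0 : Tendsto (fun k : ℕ => 1 / ((k : ℝ) + 1)) atTop (𝓝 0) :=
    tendsto_one_div_add_atTop_nhds_zero_nat
  have hcau : ∀ t ∈ Set.Icc α (α + 2), CauchySeq (fun k => F k t) := by
    intro t ht
    rw [Metric.cauchySeq_iff']
    intro η hη
    obtain ⟨K, hK⟩ := (hlim0.eventually (gt_mem_nhds (by positivity : 0 < η / 2))).exists_forall_of_atTop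
    refine ⟨K, fun n hn => ?_⟩
    rw [Real.dist_eq]
    have e1 := appr_diff (hF n) (hF K) ht
    have e2 := hK n hn
    have e3 := hK K le_rfl
    linarith
  have hex : ∀ t, ∃ y, t ∈ Set.Icc α (α + 2) → Tendsto (fun k => F k t) atTop (𝓝 y) := by
    intro t
    by_cases ht : t ∈ Set.Icc α (α + 2)
    · obtain ⟨y, hy⟩ := cauchySeq_tendsto_of_complete (hcau t ht)
      exact ⟨y, fun _ => hy⟩
    · exact ⟨0, fun h' => absurd h' ht⟩
  choose T hT using hex
  have hTS : ∀ S ε, Appr A α S ε → ∀ t ∈ Set.Icc α (α + 2), |T t - S t| ≤ ε := by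
    intro S ε hS t ht
    have e1 : Tendsto (fun k => |F k t - S t|) atTop (𝓝 |T t - S t|) :=
      ((hT t ht).sub_const _).abs
    have e2 : Tendsto (fun k : ℕ => 1 / ((k : ℝ) + 1) + ε) atTop (𝓝 (0 + ε)) :=
      hlim0.add_const ε
    rw [zero_add] at e2
    exact le_of_tendsto_of_tendsto' e1 e2 (fun k => appr_diff (hF k) hS ht)
  refine ⟨T, ?_, hTS⟩
  have hu : TendstoUniformlyOn F T atTop (Set.Icc α (α + 2)) := by
    rw [Metric.tendstoUniformlyOn_iff]
    intro η hη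
    filter_upwards [hlim0.eventually (gt_mem_nhds hη)] with k hk2 t ht
    rw [Real.dist_eq]
    exact lt_of_le_of_lt (hTS (F k) _ (hF k) t ht) hk2
  exact hu.continuousOn (Eventually.of_forall fun k => (hF k).1).frequently

end Lim

open Lim

theorem lim_abs (A : ℕ → ℝ) (α : ℝ) (h : ∀ ε > 0, ∃ T, Appr A α T ε) :
    ∃ Φ : ℝ → ℝ, Continuous Φ ∧ (∀ x, Φ (x + 1) = Φ x) ∧
      Tendsto (fun N => A N - Φ (xx N)) atTop (𝓝 0) ∧
      (∀ T ε, Appr A α T ε → ∀ t ∈ Set.Icc α (α + 2), |Φ t - T t| ≤ ε) ∧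
      ∀ c : ℝ, (∀ᶠ N in atTop, c ≤ A N) → ∀ x, c ≤ Φ x := by
  obtain ⟨T, hTc, hTS⟩ := exists_T h
  -- T approximates A with any error
  have hA : ∀ η : ℝ, 0 < η → ∃ N0 : ℕ, ∀ N ≥ N0, ∀ L : ℕ, xx N - L ∈ Set.Icc α (α + 2) →
      |A N - T (xx N - L)| ≤ η := by
    intro η hη
    obtain ⟨S, hS⟩ := h (η / 2) (by positivity)
    obtain ⟨N0, hN0⟩ := hS.2
    refine ⟨N0, fun N hN L hL => ?_⟩
    have e1 := hN0 N hN L hL.1 hL.2
    have e2 := hTS S _ hS _ hL
    rw [abs_le] at e1 e2 ⊢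
    constructor <;> linarith [e1.1, e1.2, e2.1, e2.2]
  -- periodicity
  have hper : ∀ t ∈ Set.Icc α (α + 1), T (t + 1) = T t := by
    intro t ht
    have ht0 : t ∈ Set.Icc α (α + 2) := ⟨ht.1, by linarith [ht.2]⟩
    have ht1 : t + 1 ∈ Set.Icc α (α + 2) := ⟨by linarith [ht.1], by linarith [ht.2]⟩
    have key : ∀ η : ℝ, 0 < η → |T (t + 1) - T t| ≤ 0 + 4 * η := by
      intro η hη
      have c1 := hTc t ht0
      have c2 := hTc (t + 1) ht1
      rw [Metric.continuousWithinAt_iff] at c1 c2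
      obtain ⟨δ1, hδ1, c1⟩ := c1 η hη
      obtain ⟨δ2, hδ2, c2⟩ := c2 η hη
      have hδ : 0 < min δ1 δ2 / 2 := by
        have := lt_min hδ1 hδ2
        linarith
      have hm1 : min δ1 δ2 ≤ δ1 := min_le_left _ _
      have hm2 : min δ1 δ2 ≤ δ2 := min_le_right _ _
      obtain ⟨N0, hN0⟩ := hA η hη
      obtain ⟨N, hN, L, hs, hst⟩ := dense_Icc (by linarith : α + 1 < α + 2)
        (t := t + 1) ⟨by linarith [ht.1], by linarith [ht.2]⟩ hδ N0
      have hcast : ((L + 1 : ℕ) : ℝ) = L + 1 := by push_cast; ring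
      have hs1 : xx N - L ∈ Set.Icc α (α + 2) := ⟨by linarith [hs.1], hs.2⟩
      have hs2 : xx N - ((L + 1 : ℕ) : ℝ) ∈ Set.Icc α (α + 2) := by
        rw [hcast]
        exact ⟨by linarith [hs.1], by linarith [hs.2]⟩
      have e1 := hN0 N hN L hs1
      have e2 := hN0 N hN (L + 1) hs2
      have e3 := c2 hs1 (by rw [Real.dist_eq]; linarith)
      have e4 := c1 hs2 (by
        rw [Real.dist_eq, hcast, show xx N - ((L : ℝ) + 1) - t = xx N - L - (t + 1) by ring]
        linarith)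
      rw [Real.dist_eq] at e3 e4
      rw [abs_lt] at e3 e4
      rw [abs_le] at e1 e2 ⊢
      constructor <;> linarith [e1.1, e1.2, e2.1, e2.2, e3.1, e3.2, e4.1, e4.2]
    have h0 : |T (t + 1) - T t| ≤ 0 := by
      apply le_of_forall_pos_le_add
      intro η hη
      have := key (η / 4) (by positivity)
      linarith
    have h1 := abs_nonpos_iff.mp h0
    linarith
  set Φ : ℝ → ℝ := fun x => T (α + Int.fract (x - α)) with hΦ
  have hcont : Continuous Φ := by
    have h1 : ContinuousOn (fun y : ℝ => T (α + y)) (Set.Icc 0 1) := by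
      have h0 : Continuous (fun y : ℝ => α + y) := continuous_const.add continuous_id
      apply hTc.comp h0.continuousOn
      intro y hy
      exact ⟨by simpa using hy.1, by linarith [hy.2]⟩
    have h2 : (fun y : ℝ => T (α + y)) 0 = (fun y : ℝ => T (α + y)) 1 := by
      simp only [add_zero]
      exact (hper α ⟨le_refl _, by linarith⟩).symm
    have h3 := ContinuousOn.comp_fract'' h1 h2
    exact h3.comp (continuous_id.sub continuous_const)
  have hΦper : ∀ x, Φ (x + 1) = Φ x := by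
    intro x
    simp only [hΦ]
    rw [show x + 1 - α = (x - α) + 1 by ring, Int.fract_add_one]
  have hΦnat : ∀ (x : ℝ) (L : ℕ), Φ (x - L) = Φ x := by
    intro x L
    simp only [hΦ]
    rw [show x - L - α = (x - α) - (L : ℝ) by ring, Int.fract_sub_natCast]
  have hΦT0 : ∀ t ∈ Set.Ico α (α + 1), Φ t = T t := by
    intro t ht
    simp only [hΦ]
    rw [Int.fract_eq_self.mpr ⟨by linarith [ht.1], by linarith [ht.2]⟩]
    congr 1
    ring
  have hΦT1 : ∀ t ∈ Set.Icc α (α + 1), Φ t = T t := by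
    intro t ht
    rcases lt_or_eq_of_le ht.2 with h1 | h1
    · exact hΦT0 t ⟨ht.1, h1⟩
    · rw [h1, hΦper, hΦT0 α ⟨le_refl _, by linarith⟩]
      exact (hper α ⟨le_refl _, by linarith⟩).symm
  have hΦT : ∀ t ∈ Set.Icc α (α + 2), Φ t = T t := by
    intro t ht
    by_cases h1 : t ≤ α + 1
    · exact hΦT1 t ⟨ht.1, h1⟩
    · push Not at h1
      have h2 : t - 1 ∈ Set.Icc α (α + 1) := ⟨by linarith, by linarith [ht.2]⟩
      have h3 := hΦper (t - 1)
      have h4 := hper (t - 1) h2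
      rw [sub_add_cancel] at h3 h4
      rw [h3, hΦT1 _ h2, h4]
  have htend : Tendsto (fun N => A N - Φ (xx N)) atTop (𝓝 0) := by
    rw [Metric.tendsto_atTop]
    intro η hη
    obtain ⟨N0, hN0⟩ := hA (η / 2) (by positivity)
    obtain ⟨N1, hN1⟩ := (xx_tendsto.eventually_ge_atTop α).exists_forall_of_atTop
    refine ⟨max N0 N1, fun N hN => ?_⟩
    have h1 := hN1 N (le_trans (le_max_right _ _) hN)
    set L := ⌊xx N - α⌋₊ with hL
    have h2 : (L : ℝ) ≤ xx N - α := Nat.floor_le (by linarith)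
    have h3 : xx N - α < L + 1 := Nat.lt_floor_add_one _
    have hm : xx N - L ∈ Set.Icc α (α + 2) := ⟨by linarith, by linarith⟩
    have h4 := hN0 N (le_trans (le_max_left _ _) hN) L hm
    rw [← hΦT _ hm, hΦnat] at h4
    rw [Real.dist_eq, sub_zero]
    linarith
  refine ⟨Φ, hcont, hΦper, htend, ?_, ?_⟩
  · intro S ε hS t ht
    rw [hΦT t ht]
    exact hTS S ε hS t ht
  · intro c hc x
    obtain ⟨N1, hN1⟩ := hc.exists_forall_of_atTop
    set t : ℝ := α + Int.fract (x - α) with ht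
    have ht0 : t ∈ Set.Icc α (α + 2) :=
      ⟨by linarith [Int.fract_nonneg (x - α)], by linarith [Int.fract_lt_one (x - α)]⟩
    have hx : Φ x = T t := rfl
    rw [hx]
    apply le_of_forall_pos_sub_le
    intro η hη
    have c1 := hTc t ht0
    rw [Metric.continuousWithinAt_iff] at c1
    obtain ⟨δ, hδ, c1⟩ := c1 (η / 2) (by positivity)
    obtain ⟨N0, hN0⟩ := hA (η / 2) (by positivity)
    obtain ⟨N, hN, L, hs, hst⟩ := dense_Icc (by linarith : α < α + 2) ht0
      (by positivity : 0 < δ / 2) (max N0 N1)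
    have e1 := hN0 N (le_trans (le_max_left _ _) hN) L hs
    have e2 := hN1 N (le_trans (le_max_right _ _) hN)
    have e3 := c1 hs (by rw [Real.dist_eq]; linarith)
    rw [Real.dist_eq, abs_lt] at e3
    rw [abs_le] at e1
    linarith [e1.1, e1.2, e3.1, e3.2]

end Pool.Agent.EN
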