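import Mathlib
import Pool.Agent.Lib.MP_ec0ede_nt_EN.Defs4
import Pool.Agent.Lib.MP_ec0ede_nt_EN.Ker
import Pool.Agent.Lib.MP_ec0ede_nt_EN.Path
import Pool.Agent.Lib.MP_ec0ede_nt_EN.Good

set_option autoImplicit false

/-!
# MP_ec0ede_nt, project EN, module PosA: the paths used for the lower bound
-/

noncomputable section

namespace Pool.Agent.EN

open Real Filter Topology Finset

namespace PosA

/-- the last step of a path of the killed walk -/
theorem kp_last (n : ℕ) : ∀ b a : ℕ, 1 ≤ a → pw a * kp n b 1 ≤ kp (n + 1) b a := by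
  induction n with
  | zero =>
    intro b a ha
    rw [Ker.kp_zero]
    split_ifs with h
    · subst h
      rw [Ker.kp_succ 0 1 a (a + 2) (by omega), mul_one]
      have h1 : pw a * (if 2 ≤ 1 + a then kp 0 (1 + a - 1) a else 0) = pw a := by
        rw [if_pos (by omega), Ker.kp_zero, if_pos (by omega), mul_one]
      calc pw a = pw a * (if 2 ≤ 1 + a then kp 0 (1 + a - 1) a else 0) := h1.symm
        _ ≤ _ := single_le_sum (f := fun k => pw k * (if 2 ≤ 1 + k then kp 0 (1 + k - 1) a else 0))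
            (fun k _ => mul_nonneg (Ker.pw_nonneg k) (by split_ifs; exacts [kp_nonneg _ _ _, le_rfl]))
            (mem_range.2 (by omega))
    · rw [mul_zero]
      exact kp_nonneg _ _ _
  | succ n ih =>
    intro b a ha
    rw [Ker.kp_succ (n + 1) b a (a + n + 3) (by omega), Ker.kp_succ n b 1 (a + n + 3) (by omega),
      mul_sum]
    refine sum_le_sum fun k _ => ?_
    split_ifs with h
    · calc pw a * (pw k * kp n (b + k - 1) 1) = pw k * (pw a * kp n (b + k - 1) 1) := by ring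
        _ ≤ _ := mul_le_mul_of_nonneg_left (ih _ a ha) (Ker.pw_nonneg k)
    · simp

theorem hg_one : 0 < hg 1 := by
  rw [Ker.hg_eq]
  simp only [range_one, sum_singleton, Ker.fp_zero, mul_zero, sub_zero]
  positivity

/-- lower bound for the kernel from `1` to `1` -/
theorem kp_low : ∃ n0 : ℕ, 1 ≤ n0 ∧ ∀ n ≥ n0, hg 1 / 2 / (n : ℝ) ^ (3 / 2 : ℝ) ≤ kp n 1 1 := by
  have h := kp_tendsto 1 1 le_rfl le_rfl
  simp only [Nat.cast_one, one_mul] at h
  have h1 := h.eventually_const_le (show hg 1 / 2 < hg 1 by linarith [hg_one])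
  obtain ⟨n0, hn0⟩ := eventually_atTop.1 h1
  refine ⟨n0 + 1, by omega, fun n hn => ?_⟩
  have h2 := hn0 n (by omega)
  have h3 : 0 < (n : ℝ) ^ (3 / 2 : ℝ) := by
    have : (0 : ℝ) < n := by
      exact_mod_cast (by omega : 0 < n)
    positivity
  rw [div_le_iff₀ h3]
  linarith

theorem wt_zero (K : ℕ) : wt (fun _ : Fin K => 0) = Real.exp (-(K : ℝ)) := by
  unfold wt pw
  rw [prod_const, card_univ, Fintype.card_fin, Nat.factorial_zero, Nat.cast_one, div_one,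
    ← Real.exp_nat_mul]
  ring_nf

theorem X_zeros (K j : ℕ) : X (fun _ : Fin K => 0) j = j := by
  unfold X cnt
  simp

/-- the path event -/
def Ev (K1 : ℕ) {b : ℕ} (ν : Fin b → ℕ) : Prop :=
  (∀ l : Fin b, (l : ℕ) < K1 → ν l = 0) ∧ (∀ j ≤ b, 0 ≤ X ν j) ∧ X ν b = 0

open Classical in
theorem ev_low (K1 n : ℕ) : ENNReal.ofReal (Real.exp (-(K1 : ℝ)) * kp n 1 (K1 + 1)) ≤
    PW (K1 + n) (fun ν => if Ev K1 ν then 1 else 0) := by
  rw [PW_append]
  have h1 : PW n (fun ν' => if Ev K1 (Fin.append (fun _ : Fin K1 => 0) ν') then 1 else 0) =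
      ENNReal.ofReal (kp n 1 (K1 + 1)) := by
    have h2 := path_kernel 0 n K1 0 0 (by simp) (by simp)
    have h3 : ((K1 : ℤ) + 0 + 1).toNat = K1 + 1 := by omega
    rw [h3] at h2
    simp only [zero_add, Int.toNat_one] at h2
    rw [kp, ← h2]
    congr 1
    funext ν'
    have hx0 := X_zeros K1 K1
    have h4 : Ev K1 (Fin.append (fun _ : Fin K1 => 0) ν') ↔
        (∀ j ≤ n, -0 ≤ (K1 : ℤ) + X ν' j) ∧ (K1 : ℤ) + X ν' n = 0 := by
      unfold Ev
      constructor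
      · rintro ⟨-, h5, h6⟩
        refine ⟨fun j hj => ?_, ?_⟩
        · have := h5 (K1 + j) (by omega)
          rw [X_append_right, hx0] at this
          simpa using this
        · rw [X_append_right, hx0] at h6
          exact h6
      · rintro ⟨h5, h6⟩
        refine ⟨fun l hl => ?_, fun j hj => ?_, ?_⟩
        · have h7 : l = Fin.castAdd n ⟨l, hl⟩ := by
            ext; rfl
          rw [h7, Fin.append_left]
        · rcases le_total j K1 with h7 | h7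
          · rw [X_append_left _ _ h7, X_zeros K1 j]
            exact Int.natCast_nonneg _
          · obtain ⟨i, rfl⟩ := Nat.exists_eq_add_of_le h7
            rw [X_append_right, hx0]
            simpa using h5 i (by omega)
        · rw [X_append_right, hx0]
          exact h6
    simp only [h4, zero_mul, Real.exp_zero, ENNReal.ofReal_one]
  rw [ENNReal.ofReal_mul (Real.exp_pos _).le, ← wt_zero, ← h1]
  unfold PW
  exact ENNReal.le_tsum (f := fun ν : Fin K1 → ℕ => ENNReal.ofReal (wt ν) *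
    ∑' ν' : Fin n → ℕ, ENNReal.ofReal (wt ν') * (if Ev K1 (Fin.append ν ν') then 1 else 0))
    (fun _ : Fin K1 => 0)

theorem sum_three_halves : ∃ C : ℝ, 0 < C ∧ ∀ L : ℕ,
    ∑ l : Fin L, 1 / ((((l : ℕ) : ℝ) + 1) ^ (3 / 2 : ℝ) * ((L : ℝ) - l) ^ (3 / 2 : ℝ)) ≤
      C / ((L : ℝ) + 1) ^ (3 / 2 : ℝ) := by
  have hs : Summable fun k : ℕ => 1 / (k : ℝ) ^ (3 / 2 : ℝ) :=
    Real.summable_one_div_nat_rpow.2 (by norm_num)
  set S := ∑' k : ℕ, 1 / (k : ℝ) ^ (3 / 2 : ℝ) with hS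
  have hS0 : 0 ≤ S := tsum_nonneg fun k => by positivity
  have hsum : ∀ L : ℕ, ∑ k ∈ range L, 1 / ((k : ℝ) + 1) ^ (3 / 2 : ℝ) ≤ S := by
    intro L
    have h1 : ∑ k ∈ range (L + 1), 1 / (k : ℝ) ^ (3 / 2 : ℝ) ≤ S :=
      hs.sum_le_tsum _ fun k _ => by positivity
    rw [sum_range_succ'] at h1
    have h2 : (0 : ℝ) ≤ 1 / ((0 : ℕ) : ℝ) ^ (3 / 2 : ℝ) := by positivity
    push_cast at h1 h2
    linarith
  refine ⟨2 ^ (3 / 2 : ℝ) * (2 * S) + 1, by positivity, fun L => ?_⟩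
  have hL : (0 : ℝ) < ((L : ℝ) + 1) ^ (3 / 2 : ℝ) := by positivity
  have hterm : ∀ l : Fin L, 1 / ((((l : ℕ) : ℝ) + 1) ^ (3 / 2 : ℝ) * ((L : ℝ) - l) ^ (3 / 2 : ℝ)) ≤
      2 ^ (3 / 2 : ℝ) / ((L : ℝ) + 1) ^ (3 / 2 : ℝ) * (1 / (((l : ℕ) : ℝ) + 1) ^ (3 / 2 : ℝ) +
        1 / ((L : ℝ) - l) ^ (3 / 2 : ℝ)) := by
    intro l
    have hl : ((l : ℕ) : ℝ) + 1 ≤ L := by exact_mod_cast l.2
    have hl0 : (0 : ℝ) ≤ ((l : ℕ) : ℝ) := Nat.cast_nonneg _
    set u : ℝ := ((l : ℕ) : ℝ) + 1 with hu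
    set v : ℝ := (L : ℝ) - l with hv
    have hu0 : 0 < u := by linarith
    have hv0 : 0 < v := by linarith
    have huv : (L : ℝ) + 1 = u + v := by rw [hu, hv]; ring
    have key : ∀ x : ℝ, 0 < x → (L : ℝ) + 1 ≤ 2 * x →
        1 / x ^ (3 / 2 : ℝ) ≤ 2 ^ (3 / 2 : ℝ) / ((L : ℝ) + 1) ^ (3 / 2 : ℝ) := by
      intro x hx hx2
      rw [div_le_div_iff₀ (by positivity) hL, one_mul, ← Real.mul_rpow (by norm_num) hx.le]
      exact Real.rpow_le_rpow (by positivity) hx2 (by norm_num)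
    have hc : (0 : ℝ) ≤ 2 ^ (3 / 2 : ℝ) / ((L : ℝ) + 1) ^ (3 / 2 : ℝ) := by positivity
    rcases le_total u v with h | h
    · have h1 := key v hv0 (by linarith)
      have h2 : (0 : ℝ) ≤ 1 / v ^ (3 / 2 : ℝ) := by positivity
      have h3 : (0 : ℝ) ≤ 1 / u ^ (3 / 2 : ℝ) := by positivity
      calc 1 / (u ^ (3 / 2 : ℝ) * v ^ (3 / 2 : ℝ)) = 1 / v ^ (3 / 2 : ℝ) * (1 / u ^ (3 / 2 : ℝ)) := by
            rw [one_div_mul_one_div, mul_comm]
        _ ≤ 2 ^ (3 / 2 : ℝ) / ((L : ℝ) + 1) ^ (3 / 2 : ℝ) * (1 / u ^ (3 / 2 : ℝ)) :=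
            mul_le_mul_of_nonneg_right h1 h3
        _ ≤ _ := mul_le_mul_of_nonneg_left (by linarith) hc
    · have h1 := key u hu0 (by linarith)
      have h2 : (0 : ℝ) ≤ 1 / v ^ (3 / 2 : ℝ) := by positivity
      have h3 : (0 : ℝ) ≤ 1 / u ^ (3 / 2 : ℝ) := by positivity
      calc 1 / (u ^ (3 / 2 : ℝ) * v ^ (3 / 2 : ℝ)) = 1 / u ^ (3 / 2 : ℝ) * (1 / v ^ (3 / 2 : ℝ)) := by
            rw [one_div_mul_one_div]
        _ ≤ 2 ^ (3 / 2 : ℝ) / ((L : ℝ) + 1) ^ (3 / 2 : ℝ) * (1 / v ^ (3 / 2 : ℝ)) :=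
            mul_le_mul_of_nonneg_right h1 h2
        _ ≤ _ := mul_le_mul_of_nonneg_left (by linarith) hc
  have h1 : ∑ l : Fin L, 1 / (((l : ℕ) : ℝ) + 1) ^ (3 / 2 : ℝ) ≤ S := by
    rw [Fin.sum_univ_eq_sum_range (fun k : ℕ => 1 / ((k : ℝ) + 1) ^ (3 / 2 : ℝ))]
    exact hsum L
  have h2 : ∑ l : Fin L, 1 / ((L : ℝ) - ((l : ℕ) : ℝ)) ^ (3 / 2 : ℝ) ≤ S := by
    rw [Fin.sum_univ_eq_sum_range (fun k : ℕ => 1 / ((L : ℝ) - (k : ℝ)) ^ (3 / 2 : ℝ)),
      ← sum_range_reflect]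
    refine le_trans (le_of_eq (sum_congr rfl fun k hk => ?_)) (hsum L)
    rw [mem_range] at hk
    congr 2
    rw [Nat.cast_sub (by omega), Nat.cast_sub (by omega)]
    push_cast
    ring
  calc _ ≤ ∑ l : Fin L, 2 ^ (3 / 2 : ℝ) / ((L : ℝ) + 1) ^ (3 / 2 : ℝ) *
        (1 / (((l : ℕ) : ℝ) + 1) ^ (3 / 2 : ℝ) + 1 / ((L : ℝ) - ((l : ℕ) : ℝ)) ^ (3 / 2 : ℝ)) :=
        sum_le_sum fun l _ => hterm l
    _ = 2 ^ (3 / 2 : ℝ) / ((L : ℝ) + 1) ^ (3 / 2 : ℝ) *
        (∑ l : Fin L, 1 / (((l : ℕ) : ℝ) + 1) ^ (3 / 2 : ℝ) +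
          ∑ l : Fin L, 1 / ((L : ℝ) - ((l : ℕ) : ℝ)) ^ (3 / 2 : ℝ)) := by
        rw [← mul_sum, sum_add_distrib]
    _ ≤ 2 ^ (3 / 2 : ℝ) / ((L : ℝ) + 1) ^ (3 / 2 : ℝ) * (2 * S) :=
        mul_le_mul_of_nonneg_left (by linarith) (by positivity)
    _ = 2 ^ (3 / 2 : ℝ) * (2 * S) / ((L : ℝ) + 1) ^ (3 / 2 : ℝ) := by ring
    _ ≤ _ := div_le_div_of_nonneg_right (by linarith) hL.le

open Classical in
/-- the sum `xi` is small on average -/
theorem bad_xi : ∃ C : ℝ, 0 < C ∧ ∀ (b : ℕ) (D : ℝ), 0 < D →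
    PW b (fun ν => if E0 0 0 ν ∧ D < xi 0 b ν then 1 else 0) ≤
      ENNReal.ofReal (C / D / ((b : ℝ) + 1) ^ (3 / 2 : ℝ)) := by
  obtain ⟨C, hC, hg⟩ := good_high 0 0
  obtain ⟨S, hS, hsum⟩ := sum_three_halves
  refine ⟨C * S, by positivity, fun b D hD => ?_⟩
  have h1 : ∀ ν : Fin b → ℕ, (if E0 0 0 ν ∧ D < xi 0 b ν then (1 : ENNReal) else 0) ≤
      ENNReal.ofReal (1 / D) * ∑ l : Fin b, if E0 0 0 ν then
        ENNReal.ofReal ((ν l + 1 : ℝ) * (2 : ℝ) ^ (-X ν (l + 1))) else 0 := by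
    intro ν
    split_ifs with h2 h3
    · rw [← ENNReal.ofReal_sum_of_nonneg (fun l _ => by positivity),
        ← ENNReal.ofReal_mul (by positivity), ← ENNReal.ofReal_one]
      refine ENNReal.ofReal_le_ofReal ?_
      have h4 : xi 0 b ν = ∑ l : Fin b, ((ν l : ℝ) + 1) * (2 : ℝ) ^ (-X ν (l + 1)) := by
        unfold xi
        refine sum_congr rfl fun l _ => ?_
        rw [if_pos ⟨Nat.zero_le _, l.2⟩]
      rw [← h4, one_div, ← div_eq_inv_mul, le_div_iff₀ hD]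
      linarith [h2.2]
    · exact absurd h2.1 h3
    · exact zero_le
    · exact zero_le
  refine (PW_mono h1).trans ?_
  rw [Good.PW_const, Good.PW_sum]
  calc ENNReal.ofReal (1 / D) * ∑ l : Fin b, PW b (fun ν => if E0 0 0 ν then
        ENNReal.ofReal ((ν l + 1 : ℝ) * (2 : ℝ) ^ (-X ν (l + 1))) else 0)
      ≤ ENNReal.ofReal (1 / D) * ∑ l : Fin b, ENNReal.ofReal
        (C / (((l : ℕ) + 1 : ℝ) ^ (3 / 2 : ℝ) * ((b : ℝ) - l) ^ (3 / 2 : ℝ))) := by
        gcongr with l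
        exact hg b l
    _ = ENNReal.ofReal (1 / D * ∑ l : Fin b,
        (C / (((l : ℕ) + 1 : ℝ) ^ (3 / 2 : ℝ) * ((b : ℝ) - l) ^ (3 / 2 : ℝ)))) := by
        rw [← ENNReal.ofReal_sum_of_nonneg, ← ENNReal.ofReal_mul (by positivity)]
        intro l _
        have : ((l : ℕ) : ℝ) ≤ b := by exact_mod_cast l.2.le
        have h5 : (0 : ℝ) ≤ (b : ℝ) - l := by linarith
        positivity
    _ ≤ _ := by
        refine ENNReal.ofReal_le_ofReal ?_
        have h6 : ∑ l : Fin b, (C / (((l : ℕ) + 1 : ℝ) ^ (3 / 2 : ℝ) * ((b : ℝ) - l) ^ (3 / 2 : ℝ))) =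
            C * ∑ l : Fin b, 1 / ((((l : ℕ) : ℝ) + 1) ^ (3 / 2 : ℝ) *
              ((b : ℝ) - l) ^ (3 / 2 : ℝ)) := by
          rw [mul_sum]
          exact sum_congr rfl fun l _ => by rw [mul_one_div]
        rw [h6]
        calc 1 / D * (C * ∑ l : Fin b, 1 / ((((l : ℕ) : ℝ) + 1) ^ (3 / 2 : ℝ) *
              ((b : ℝ) - l) ^ (3 / 2 : ℝ))) ≤ 1 / D * (C * (S / ((b : ℝ) + 1) ^ (3 / 2 : ℝ))) := by
              gcongr
              exact hsum b
          _ = _ := by ring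

open Classical in
/-- large `Q` is rare -/
theorem bad_Q : ∃ C : ℝ, 0 < C ∧ ∀ (b : ℕ) (D : ℝ),
    PW b (fun ν => if E0 0 0 ν ∧ D < Q ν b then 1 else 0) ≤
      ENNReal.ofReal (C * Real.exp (-D) / ((b : ℝ) + 1) ^ (3 / 2 : ℝ)) := by
  obtain ⟨C, hC, hg⟩ := good_Q 0 0
  refine ⟨C, hC, fun b D => ?_⟩
  have h1 : ∀ ν : Fin b → ℕ, (if E0 0 0 ν ∧ D < Q ν b then (1 : ENNReal) else 0) ≤
      ENNReal.ofReal (Real.exp (-D)) * if E0 0 0 ν then
        ENNReal.ofReal (Real.exp (Q ν b)) else 0 := by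
    intro ν
    split_ifs with h2 h3
    · rw [← ENNReal.ofReal_mul (Real.exp_pos _).le, ← ENNReal.ofReal_one, ← Real.exp_add]
      refine ENNReal.ofReal_le_ofReal ?_
      exact Real.one_le_exp (by linarith [h2.2])
    · exact absurd h2.1 h3
    · exact zero_le
    · exact zero_le
  refine (PW_mono h1).trans ?_
  rw [Good.PW_const]
  refine (mul_le_mul_right (hg b b (by omega) le_rfl) _).trans ?_
  rw [← ENNReal.ofReal_mul (Real.exp_pos _).le]
  refine ENNReal.ofReal_le_ofReal (le_of_eq ?_)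
  ring

/-- the size of the main term -/
theorem main_const (K1 : ℕ) : Real.exp (-(2 * ((K1 : ℝ) + 1) ^ 2)) ≤
    Real.exp (-(K1 : ℝ)) * pw (K1 + 1) := by
  unfold pw
  have h1 : (((K1 + 1).factorial : ℕ) : ℝ) ≤ Real.exp (((K1 : ℝ) + 1) * K1) := by
    have h2 : ((K1 + 1).factorial : ℝ) ≤ ((K1 : ℝ) + 1) ^ (K1 + 1) := by
      exact_mod_cast Nat.factorial_le_pow (K1 + 1)
    have h3 : (K1 : ℝ) + 1 ≤ Real.exp K1 := Real.add_one_le_exp _
    calc ((K1 + 1).factorial : ℝ) ≤ ((K1 : ℝ) + 1) ^ (K1 + 1) := h2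
      _ ≤ (Real.exp K1) ^ (K1 + 1) := pow_le_pow_left₀ (by positivity) h3 _
      _ = Real.exp (((K1 : ℝ) + 1) * K1) := by
          rw [← Real.exp_nat_mul]
          push_cast
          ring_nf
  have h4 : (0 : ℝ) < ((K1 + 1).factorial : ℝ) := by exact_mod_cast Nat.factorial_pos _
  rw [← mul_div_assoc, le_div_iff₀ h4, ← Real.exp_add]
  calc Real.exp (-(2 * ((K1 : ℝ) + 1) ^ 2)) * ((K1 + 1).factorial : ℝ)
      ≤ Real.exp (-(2 * ((K1 : ℝ) + 1) ^ 2)) * Real.exp (((K1 : ℝ) + 1) * K1) :=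
        mul_le_mul_of_nonneg_left h1 (Real.exp_pos _).le
    _ ≤ _ := by
        rw [← Real.exp_add]
        refine Real.exp_le_exp.2 ?_
        have : (0 : ℝ) ≤ K1 := Nat.cast_nonneg _
        nlinarith

theorem small (A B m : ℝ) (hA : 0 < A) (hB : 0 < B) (hm : 1 ≤ m) :
    A * Real.exp (-((2 + |Real.log (A / B)|) * m)) ≤ B * Real.exp (-(2 * m)) := by
  have h1 : Real.exp (-((2 + |Real.log (A / B)|) * m)) =
      Real.exp (-(2 * m)) * Real.exp (-(|Real.log (A / B)| * m)) := by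
    rw [← Real.exp_add]
    ring_nf
  have h2 : Real.exp (-(|Real.log (A / B)| * m)) ≤ B / A := by
    have h3 : B / A = Real.exp (-Real.log (A / B)) := by
      rw [Real.exp_neg, Real.exp_log (by positivity), inv_div]
    rw [h3]
    refine Real.exp_le_exp.2 (neg_le_neg ?_)
    have h4 := abs_nonneg (Real.log (A / B))
    have h5 := le_abs_self (Real.log (A / B))
    nlinarith
  rw [h1]
  calc A * (Real.exp (-(2 * m)) * Real.exp (-(|Real.log (A / B)| * m)))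
      ≤ A * (Real.exp (-(2 * m)) * (B / A)) := by gcongr
    _ = B * Real.exp (-(2 * m)) := by
        field_simp

end PosA

open Classical in
theorem pos_paths : ∃ C0 : ℝ, 0 < C0 ∧ ∀ K1 : ℕ, ∃ c : ℝ, 0 < c ∧ ∃ b0 : ℕ, ∀ b ≥ b0,
    ENNReal.ofReal (c / ((b : ℝ) + 1) ^ (3 / 2 : ℝ)) ≤
      PW b (fun ν => if NP K1 (Real.exp (C0 * (K1 + 1) ^ 2)) (C0 * (K1 + 1) ^ 2) ν then 1 else 0) := by
  obtain ⟨n0, hn1, hn0⟩ := PosA.kp_low
  obtain ⟨Ax, hAx, hxi⟩ := PosA.bad_xi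
  obtain ⟨Aq, hAq, hQ⟩ := PosA.bad_Q
  have hg1 := PosA.hg_one
  set B : ℝ := hg 1 / 8 with hB
  have hB0 : 0 < B := by positivity
  refine ⟨2 + |Real.log ((Ax + Aq) / B)|, by positivity, fun K1 => ?_⟩
  set C0 : ℝ := 2 + |Real.log ((Ax + Aq) / B)| with hC0
  set m : ℝ := ((K1 : ℝ) + 1) ^ 2 with hm
  have hm1 : 1 ≤ m := by
    have : (0 : ℝ) ≤ K1 := Nat.cast_nonneg _
    rw [hm]
    nlinarith
  refine ⟨B * Real.exp (-(2 * m)), by positivity, n0 + K1 + 1, fun b hb => ?_⟩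
  set r : ℝ := ((b : ℝ) + 1) ^ (3 / 2 : ℝ) with hr
  have hr0 : 0 < r := by positivity
  -- the main term
  have hmain : ENNReal.ofReal (4 * B * Real.exp (-(2 * m)) / r) ≤
      PW b (fun ν => if PosA.Ev K1 ν then 1 else 0) := by
    obtain ⟨n, rfl⟩ : ∃ n, b = K1 + (n + 1) := ⟨b - K1 - 1, by omega⟩
    refine le_trans (ENNReal.ofReal_le_ofReal ?_) (PosA.ev_low K1 (n + 1))
    have h1 := PosA.kp_last n 1 (K1 + 1) (by omega)
    have h2 := hn0 n (by omega)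
    have h3 : (hg 1 / 2) / r ≤ hg 1 / 2 / (n : ℝ) ^ (3 / 2 : ℝ) := by
      have hn : (0 : ℝ) < n := by exact_mod_cast (by omega : 0 < n)
      refine div_le_div_of_nonneg_left (by positivity) (by positivity) ?_
      refine Real.rpow_le_rpow (by positivity) ?_ (by norm_num)
      push_cast
      have : (0 : ℝ) ≤ K1 := Nat.cast_nonneg _
      linarith
    have h4 := PosA.main_const K1
    have h5 : 0 ≤ kp n 1 1 := kp_nonneg _ _ _
    calc 4 * B * Real.exp (-(2 * m)) / r = Real.exp (-(2 * m)) * ((hg 1 / 2) / r) := by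
          rw [hB]; ring
      _ ≤ (Real.exp (-(K1 : ℝ)) * pw (K1 + 1)) * kp n 1 1 :=
          mul_le_mul h4 (h3.trans h2) (by positivity)
            (mul_nonneg (Real.exp_pos _).le (Ker.pw_nonneg _))
      _ = Real.exp (-(K1 : ℝ)) * (pw (K1 + 1) * kp n 1 1) := by ring
      _ ≤ _ := mul_le_mul_of_nonneg_left h1 (Real.exp_pos _).le
  -- the bad parts
  have hx := hxi b (Real.exp (C0 * m)) (Real.exp_pos _)
  have hq := hQ b (C0 * m)
  have hsplit : PW b (fun ν => if PosA.Ev K1 ν then 1 else 0) ≤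
      PW b (fun ν => if NP K1 (Real.exp (C0 * m)) (C0 * m) ν then 1 else 0) +
      (PW b (fun ν => if E0 0 0 ν ∧ Real.exp (C0 * m) < xi 0 b ν then 1 else 0) +
      PW b (fun ν => if E0 0 0 ν ∧ C0 * m < Q ν b then 1 else 0)) := by
    unfold PW
    rw [← ENNReal.tsum_add, ← ENNReal.tsum_add]
    refine ENNReal.tsum_le_tsum fun ν => ?_
    rw [← mul_add, ← mul_add]
    refine mul_le_mul_right ?_ _
    beta_reduce
    by_cases hE : PosA.Ev K1 ν
    · have hE0 : E0 0 0 ν := by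
        refine ⟨fun j hj => ?_, ?_⟩
        · have := hE.2.1 j hj
          simpa using this
        · rw [hE.2.2]
          simp
      rw [if_pos hE]
      by_cases h1 : Real.exp (C0 * m) < xi 0 b ν
      · rw [if_pos (show E0 0 0 ν ∧ Real.exp (C0 * m) < xi 0 b ν from ⟨hE0, h1⟩)]
        exact le_add_left le_self_add
      · by_cases h2 : C0 * m < Q ν b
        · rw [if_pos (show E0 0 0 ν ∧ C0 * m < Q ν b from ⟨hE0, h2⟩)]
          exact le_add_left (le_add_left le_rfl)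
        · have h3 : NP K1 (Real.exp (C0 * m)) (C0 * m) ν :=
            ⟨hE.1, hE.2.1, hE.2.2, not_lt.1 h1, not_lt.1 h2⟩
          rw [if_pos h3]
          exact le_self_add
    · rw [if_neg hE]
      exact zero_le
  -- the sum of the bad parts
  have hbad : Ax / Real.exp (C0 * m) / r + Aq * Real.exp (-(C0 * m)) / r ≤
      B * Real.exp (-(2 * m)) / r := by
    have h1 := PosA.small (Ax + Aq) B m (by positivity) hB0 hm1
    rw [← hC0] at h1
    calc Ax / Real.exp (C0 * m) / r + Aq * Real.exp (-(C0 * m)) / r =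
        (Ax + Aq) * Real.exp (-(C0 * m)) / r := by
          rw [Real.exp_neg]
          ring
      _ ≤ _ := div_le_div_of_nonneg_right h1 hr0.le
  have hfin : ENNReal.ofReal (4 * B * Real.exp (-(2 * m)) / r) ≤
      PW b (fun ν => if NP K1 (Real.exp (C0 * m)) (C0 * m) ν then 1 else 0) +
      ENNReal.ofReal (B * Real.exp (-(2 * m)) / r) := by
    refine hmain.trans (hsplit.trans (add_le_add le_rfl ?_))
    refine (add_le_add hx hq).trans ?_
    rw [← ENNReal.ofReal_add (by positivity) (by positivity)]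
    exact ENNReal.ofReal_le_ofReal hbad
  have hfin2 := tsub_le_iff_right.2 hfin
  rw [← ENNReal.ofReal_sub _ (by positivity)] at hfin2
  refine le_trans (ENNReal.ofReal_le_ofReal ?_) hfin2
  have h6 : 0 ≤ B * Real.exp (-(2 * m)) / r := by positivity
  have h7 : 4 * B * Real.exp (-(2 * m)) / r = 4 * (B * Real.exp (-(2 * m)) / r) := by ring
  rw [h7]
  linarith

end Pool.Agent.EN
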