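import Mathlib
import Pool.Agent.Lib.MP_ec0ede_nt_EN.Defs4
import Pool.Agent.Lib.MP_ec0ede_nt_EN.LawA
import Pool.Agent.Lib.MP_ec0ede_nt_EN.LawB
import Pool.Agent.Lib.MP_ec0ede_nt_EN.LawD
import Pool.Agent.Lib.MP_ec0ede_nt_EN.ExB
import Pool.Agent.Lib.MP_ec0ede_nt_EN.Spl
import Pool.Agent.Lib.MP_ec0ede_nt_EN.Bonf

set_option autoImplicit false

/-!
# MP_ec0ede_nt, project EN, module PosB: the first moment
-/

noncomputable section

namespace Pool.Agent.EN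

open Real Filter Topology Finset

namespace PosB

theorem psi_low : ∃ c : ℝ, 0 < c ∧ ∀ x : ℝ, Real.exp (-Mer) * (2 : ℝ) ^ (-(3 / 4 : ℝ)) ≤ x →
    x ≤ Real.exp (-Mer) * (2 : ℝ) ^ (1 / 2 : ℝ) → c ≤ psi x := by
  have hl2 : 0 < Real.log 2 := Real.log_pos (by norm_num)
  refine ⟨1 / 4 / (Real.exp (-Mer) * (2 : ℝ) ^ (1 / 2 : ℝ) * Real.log 2), by positivity, ?_⟩
  intro x h1 h2
  have hx : 0 < x := lt_of_lt_of_le (by positivity) h1
  have h3 : -Mer + -(3 / 4) * Real.log 2 ≤ Real.log x := by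
    have h := Real.log_le_log (by positivity) h1
    rw [Real.log_mul (Real.exp_pos _).ne' (by positivity), Real.log_exp,
      Real.log_rpow (by norm_num)] at h
    exact h
  have h4 : Real.log x ≤ -Mer + 1 / 2 * Real.log 2 := by
    have h := Real.log_le_log hx h2
    rw [Real.log_mul (Real.exp_pos _).ne' (by positivity), Real.log_exp,
      Real.log_rpow (by norm_num)] at h
    exact h
  have h5 : -(3 / 4) ≤ (Real.log x + Mer) / Real.log 2 := by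
    rw [le_div_iff₀ hl2]
    linarith
  have h6 : (Real.log x + Mer) / Real.log 2 ≤ 1 / 2 := by
    rw [div_le_iff₀ hl2]
    linarith
  have h7 : 1 / 4 ≤ tent ((Real.log x + Mer) / Real.log 2) := by
    unfold tent
    have h8 : |(Real.log x + Mer) / Real.log 2| ≤ 3 / 4 := abs_le.2 ⟨h5, by linarith⟩
    exact le_max_of_le_right (by linarith)
  unfold psi
  rw [if_pos hx]
  have h9 : x * Real.log 2 ≤ Real.exp (-Mer) * (2 : ℝ) ^ (1 / 2 : ℝ) * Real.log 2 :=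
    mul_le_mul_of_nonneg_right h2 hl2.le
  exact div_le_div₀ (by linarith) h7 (by positivity) h9

theorem Ex_one {ι : Type} [Fintype ι] [DecidableEq ι] (P : Finset ℕ) (m : ι → ℕ → ℝ)
    (h1 : ∀ i, ∑ p ∈ P, m i p = 1) (i0 : ι) (f : ℕ → ℝ) :
    Ex P m (fun τ => f (τ i0)) = ∑ p ∈ P, m i0 p * f p := by
  rw [Ex_pivot P m h1 i0]
  simp only [Function.update_self]
  exact Ex_const P m h1 _

theorem sum_lev {b : ℕ} (ν : Fin b → ℕ) :
    ∑ i : Idx ν, (2 : ℝ) ^ lv 0 ν i = 2 ^ b * Q ν b := by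
  have hQ : 2 ^ b * Q ν b = ∑ l : Fin b, (ν l : ℝ) * 2 ^ ((l : ℕ) + 1) := by
    unfold Q
    rw [Finset.mul_sum]
    refine Finset.sum_congr rfl fun l _ => ?_
    rw [if_pos l.2]
    field_simp
  rw [hQ, Fintype.sum_sigma]
  refine Finset.sum_congr rfl fun l _ => ?_
  simp only [lv, zero_add, Finset.sum_const, Finset.card_univ, Fintype.card_fin, nsmul_eq_mul]

theorem sz_bounds {D : ℝ} (hD1 : 1 ≤ D) (hD : ∀ j p : ℕ, mu j p ≠ 0 →
    2 ^ j / D ≤ Real.log p ∧ Real.log p ≤ D * 2 ^ j) {b : ℕ} (ν : Fin b → ℕ)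
    (τ : Idx ν → ℕ) (hτ : ∀ i, mu (lv 0 ν i) (τ i) ≠ 0) (S : Finset (Idx ν)) :
    0 ≤ sz τ S ∧ sz τ S ≤ D * (2 ^ b * Q ν b) := by
  have h0 : ∀ i, 0 ≤ Real.log (τ i) := fun i => Real.log_natCast_nonneg _
  refine ⟨Finset.sum_nonneg fun i _ => h0 i, ?_⟩
  calc sz τ S ≤ ∑ i, Real.log (τ i) :=
        Finset.sum_le_univ_sum_of_nonneg fun i => h0 i
    _ ≤ ∑ i, D * 2 ^ lv 0 ν i := Finset.sum_le_sum fun i _ => (hD _ _ (hτ i)).2
    _ = D * (2 ^ b * Q ν b) := by rw [← Finset.mul_sum, sum_lev]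

/-- the index in the second block -/
def i0 {c s : ℕ} (h1 : 1 ≤ c) (h2 : c ≤ s) : Idx (tp c s) :=
  ⟨⟨c - 1, by omega⟩, ⟨0, by
    show 0 < (if (c - 1) + 1 = c then 1 else 0)
    rw [if_pos (by omega)]
    norm_num⟩⟩

theorem lv_i0 {c s : ℕ} (h1 : 1 ≤ c) (h2 : c ≤ s) (b : ℕ) :
    lv (0 + b) (tp c s) (i0 h1 h2) = b + c := by
  show 0 + b + (c - 1) + 1 = b + c
  omega

theorem Wn_ge (T : Set ℝ) (y : ℝ) {b c s : ℕ} (ν : Fin b → ℕ) (h1 : 1 ≤ c) (h2 : c ≤ s)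
    (τ : Idx ν → ℕ) (τ' : Idx (tp c s) → ℕ) :
    ∑ S : Finset (Idx ν), ind (y - sz τ S - Real.log (τ' (i0 h1 h2)) ∈ T) ≤
      (Wn T y (jn τ τ') : ℝ) := by
  classical
  rw [Wn_jn, Wn_eq_sum]
  have hinj : Function.Injective (fun S : Finset (Idx ν) => S.disjSum {i0 h1 h2}) := by
    intro S S' h
    have h3 := congrArg Finset.toLeft h
    simpa using h3
  have h3 : ∀ S : Finset (Idx ν), sz (Sum.elim τ τ') (S.disjSum {i0 h1 h2}) =
      sz τ S + Real.log (τ' (i0 h1 h2)) := by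
    intro S
    unfold sz
    rw [Finset.sum_disjSum]
    simp
  calc ∑ S : Finset (Idx ν), ind (y - sz τ S - Real.log (τ' (i0 h1 h2)) ∈ T) =
        ∑ S : Finset (Idx ν), ind (y - sz (Sum.elim τ τ') (S.disjSum {i0 h1 h2}) ∈ T) := by
        refine Finset.sum_congr rfl fun S _ => ?_
        rw [h3 S, sub_add_eq_sub_sub]
    _ = ∑ S ∈ Finset.univ.image (fun S : Finset (Idx ν) => S.disjSum {i0 h1 h2}),
          ind (y - sz (Sum.elim τ τ') S ∈ T) := by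
        rw [Finset.sum_image fun a _ b _ h => hinj h]
    _ ≤ ∑ S, ind (y - sz (Sum.elim τ τ') S ∈ T) :=
        Finset.sum_le_univ_sum_of_nonneg fun _ => ind_nonneg _

theorem lv_le {b c s : ℕ} (i : Idx (tp c s)) :
    1 ≤ lv (0 + b) (tp c s) i ∧ lv (0 + b) (tp c s) i ≤ b + s := by
  have := i.1.2
  unfold lv
  omega

theorem lv_le' {b s : ℕ} (ν : Fin b → ℕ) (i : Idx ν) :
    1 ≤ lv 0 ν i ∧ lv 0 ν i ≤ b + s := by
  have := i.1.2
  unfold lv
  omega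

end PosB

theorem pos_first : ∃ c C : ℝ, 0 < c ∧ 1 ≤ C ∧ ∀ (C1 : ℝ) (c4 : ℕ), 1 ≤ c4 → C * C1 ≤ 2 ^ c4 →
    ∃ b0 : ℕ, ∀ b ≥ b0, ∀ ν : Fin b → ℕ, Q ν b ≤ C1 → X ν b = 0 → ∀ s ≥ c4, ∀ y : ℝ,
    Real.exp (-Mer) * (2 : ℝ) ^ ((b : ℝ) + c4 - 1 / 2) ≤ y →
    y ≤ Real.exp (-Mer) * (2 : ℝ) ^ ((b : ℝ) + c4 + 1 / 2) →
    c / 2 ^ c4 ≤ EX (b + s) 0 (Fin.append ν (tp c4 s))
      (fun τ => (Wn (Set.Ico 0 (Real.log 2)) y τ : ℝ)) := by
  classical
  obtain ⟨D, hD1, hD⟩ := supp_bounds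
  obtain ⟨Cf, hCf0, hCf⟩ := mass_flat
  obtain ⟨c0, hc0, hpsi⟩ := PosB.psi_low
  have hl2 : 0 < Real.log 2 := Real.log_pos (by norm_num)
  have hE : 0 < Real.exp (-Mer) := Real.exp_pos _
  obtain ⟨g, hg⟩ : ∃ g : ℝ, g = Real.exp (-Mer) * ((2 : ℝ) ^ (-(1 / 2 : ℝ)) -
    (2 : ℝ) ^ (-(3 / 4 : ℝ))) := ⟨_, rfl⟩
  have hg0 : 0 < g := by
    rw [hg]
    refine mul_pos hE (sub_pos.2 ?_)
    exact Real.rpow_lt_rpow_of_exponent_lt (by norm_num) (by norm_num)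
  have hDg : 0 < 2 * D / g := by positivity
  refine ⟨Real.log 2 * c0 / 2, 1 + 2 * D / g, by positivity, by linarith, ?_⟩
  intro C1 c4 hc4 hC
  obtain ⟨l0, hl0⟩ := hCf (c0 / 4) (Real.log 2) (by positivity) hl2
  have hlim : Tendsto (fun b : ℕ => (2 : ℝ) ^ b) atTop atTop :=
    tendsto_pow_atTop_atTop_of_one_lt (by norm_num)
  obtain ⟨b1, hb1⟩ := Filter.eventually_atTop.1
    ((hlim.eventually_ge_atTop (4 * Cf * Real.log 2 / c0)).and
      (hlim.eventually_ge_atTop (2 * Real.log 2 / g)))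
  refine ⟨max l0 b1, ?_⟩
  intro b hb ν hQ hX s hs y hy1 hy2
  obtain ⟨hb2, hb3⟩ := hb1 b (le_trans (le_max_right _ _) hb)
  have hbl : l0 ≤ b := le_trans (le_max_left _ _) hb
  obtain ⟨l, hl⟩ : ∃ l : ℕ, l = b + c4 := ⟨_, rfl⟩
  have hll : l0 ≤ l := by omega
  have hpb : (0 : ℝ) < 2 ^ b := by positivity
  have hpl : (0 : ℝ) < 2 ^ l := by positivity
  have hbl2 : (2 : ℝ) ^ b ≤ 2 ^ l := pow_le_pow_right₀ (by norm_num) (by omega)
  have hsplit : (2 : ℝ) ^ l = 2 ^ b * 2 ^ c4 := by rw [hl, pow_add]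
  have hQ0 : 0 ≤ Q ν b := by
    unfold Q
    refine Finset.sum_nonneg fun i _ => ?_
    split
    · positivity
    · exact le_rfl
  have hC10 : 0 ≤ C1 := hQ0.trans hQ
  -- the size of the window positions
  have hy1' : Real.exp (-Mer) * (2 : ℝ) ^ (-(1 / 2 : ℝ)) * 2 ^ l ≤ y := by
    refine le_trans (le_of_eq ?_) hy1
    rw [show ((b : ℝ) + c4 - 1 / 2) = -(1 / 2) + ((l : ℕ) : ℝ) by rw [hl]; push_cast; ring,
      Real.rpow_add (by norm_num), Real.rpow_natCast]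
    ring
  have hy2' : y ≤ Real.exp (-Mer) * (2 : ℝ) ^ (1 / 2 : ℝ) * 2 ^ l := by
    refine le_trans hy2 (le_of_eq ?_)
    rw [show ((b : ℝ) + c4 + 1 / 2) = 1 / 2 + ((l : ℕ) : ℝ) by rw [hl]; push_cast; ring,
      Real.rpow_add (by norm_num), Real.rpow_natCast]
    ring
  have key : ∀ u : ℝ, 0 ≤ u → u ≤ D * (2 ^ b * Q ν b) →
      Real.log 2 * c0 / 2 / 2 ^ l ≤ mass l (y - u - Real.log 2) (y - u) := by
    intro u hu0 hu1
    have hu2 : u ≤ g / 2 * 2 ^ l := by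
      have h1 : D * C1 ≤ g / 2 * 2 ^ c4 := by
        have h2 : (2 * D / g) * C1 ≤ 2 ^ c4 := by nlinarith
        have h3 : g / 2 * ((2 * D / g) * C1) ≤ g / 2 * 2 ^ c4 :=
          mul_le_mul_of_nonneg_left h2 (by positivity)
        have h4 : g / 2 * ((2 * D / g) * C1) = D * C1 := by field_simp
        linarith
      calc u ≤ D * (2 ^ b * Q ν b) := hu1
        _ ≤ D * (2 ^ b * C1) :=
            mul_le_mul_of_nonneg_left (mul_le_mul_of_nonneg_left hQ hpb.le) (by linarith)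
        _ = 2 ^ b * (D * C1) := by ring
        _ ≤ 2 ^ b * (g / 2 * 2 ^ c4) := mul_le_mul_of_nonneg_left h1 hpb.le
        _ = g / 2 * 2 ^ l := by rw [hsplit]; ring
    have hlog : Real.log 2 ≤ g / 2 * 2 ^ l := by
      have h1 : 2 * Real.log 2 / g ≤ 2 ^ l := hb3.trans hbl2
      have h2 : g / 2 * (2 * Real.log 2 / g) ≤ g / 2 * 2 ^ l :=
        mul_le_mul_of_nonneg_left h1 (by positivity)
      have h3 : g / 2 * (2 * Real.log 2 / g) = Real.log 2 := by field_simp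
      linarith
    have hx1 : Real.exp (-Mer) * (2 : ℝ) ^ (-(3 / 4 : ℝ)) ≤ (y - u - Real.log 2) / 2 ^ l := by
      rw [le_div_iff₀ hpl]
      have h1 : Real.exp (-Mer) * (2 : ℝ) ^ (-(3 / 4 : ℝ)) =
          Real.exp (-Mer) * (2 : ℝ) ^ (-(1 / 2 : ℝ)) - g := by rw [hg]; ring
      rw [h1, sub_mul]
      linarith
    have hx2 : (y - u - Real.log 2) / 2 ^ l ≤ Real.exp (-Mer) * (2 : ℝ) ^ (1 / 2 : ℝ) := by
      rw [div_le_iff₀ hpl]
      linarith
    have hp := hpsi _ hx1 hx2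
    have hm := hl0 l hll (y - u - Real.log 2) (y - u) (by linarith)
    have hd : y - u - (y - u - Real.log 2) = Real.log 2 := by ring
    rw [hd] at hm
    have hm' := (abs_le.1 hm).1
    have hsm : Cf * Real.log 2 / 2 ^ l ≤ c0 / 4 := by
      rw [div_le_iff₀ hpl]
      have h1 : 4 * Cf * Real.log 2 / c0 ≤ 2 ^ l := hb2.trans hbl2
      rw [div_le_iff₀ hc0] at h1
      linarith
    have hq : 0 < Real.log 2 / 2 ^ l := by positivity
    have h1 : Real.log 2 / 2 ^ l * c0 ≤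
        Real.log 2 * psi ((y - u - Real.log 2) / 2 ^ l) / 2 ^ l := by
      have := mul_le_mul_of_nonneg_left hp hq.le
      calc Real.log 2 / 2 ^ l * c0 ≤
            Real.log 2 / 2 ^ l * psi ((y - u - Real.log 2) / 2 ^ l) := this
        _ = _ := by ring
    have h2 : Real.log 2 / 2 ^ l * (c0 / 4 + Cf * Real.log 2 / 2 ^ l) ≤
        Real.log 2 / 2 ^ l * (c0 / 2) :=
      mul_le_mul_of_nonneg_left (by linarith) hq.le
    calc Real.log 2 * c0 / 2 / 2 ^ l = Real.log 2 / 2 ^ l * c0 -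
          Real.log 2 / 2 ^ l * (c0 / 2) := by ring
      _ ≤ _ := by linarith
  -- expectation over the second block
  rw [EX_append]
  have hcard : (Fintype.card (Finset (Idx ν)) : ℝ) = 2 ^ b := by
    rw [Fintype.card_finset, card_Idx]
    have h1 : cnt ν b = b := by
      unfold X at hX
      omega
    rw [h1]
    push_cast
    ring
  have hms : ∀ i : Idx (tp c4 s), ∑ p ∈ range (bd (b + s)), mu (lv (0 + b) (tp c4 s) i) p = 1 :=
    fun i => mu_mass (PosB.lv_le i).1 (PosB.lv_le i).2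
  have hms' : ∀ i : Idx ν, ∑ p ∈ range (bd (b + s)), mu (lv 0 ν i) p = 1 :=
    fun i => mu_mass (PosB.lv_le' (s := s) ν i).1 (PosB.lv_le' ν i).2
  have hstep : ∀ τ : Idx ν → ℕ, (∀ i, τ i ∈ range (bd (b + s)) ∧ mu (lv 0 ν i) (τ i) ≠ 0) →
      Real.log 2 * c0 / 2 / 2 ^ c4 ≤ EX (b + s) (0 + b) (tp c4 s)
        (fun τ' => (Wn (Set.Ico 0 (Real.log 2)) y (jn τ τ') : ℝ)) := by
    intro τ hτ
    have h1 : EX (b + s) (0 + b) (tp c4 s) (fun τ' => ∑ S : Finset (Idx ν),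
        ind (y - sz τ S - Real.log (τ' (PosB.i0 hc4 hs)) ∈ Set.Ico 0 (Real.log 2))) ≤
        EX (b + s) (0 + b) (tp c4 s)
          (fun τ' => (Wn (Set.Ico 0 (Real.log 2)) y (jn τ τ') : ℝ)) :=
      Ex_mono _ _ (fun i p => mu_nonneg _ _) _ _ fun τ' _ => PosB.Wn_ge _ y ν hc4 hs τ τ'
    refine le_trans ?_ h1
    unfold EX
    rw [Ex_fsum]
    have h2 : ∀ S ∈ (Finset.univ : Finset (Finset (Idx ν))), Real.log 2 * c0 / 2 / 2 ^ l ≤
        Ex (range (bd (b + s))) (fun i => mu (lv (0 + b) (tp c4 s) i)) (fun τ' =>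
          ind (y - sz τ S - Real.log (τ' (PosB.i0 hc4 hs)) ∈ Set.Ico 0 (Real.log 2))) := by
      intro S _
      rw [PosB.Ex_one (range (bd (b + s))) (fun i => mu (lv (0 + b) (tp c4 s) i)) hms
        (PosB.i0 hc4 hs)
        (fun p => ind (y - sz τ S - Real.log p ∈ Set.Ico 0 (Real.log 2)))]
      obtain ⟨hs0, hs1⟩ := PosB.sz_bounds hD1 hD ν τ (fun i => (hτ i).2) S
      have h3 := key _ hs0 hs1
      rw [mass_eq (L := b + s) (by omega)] at h3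
      refine h3.trans (le_of_eq ?_)
      refine Finset.sum_congr rfl fun p _ => ?_
      rw [PosB.lv_i0, ← hl]
      congr 1
      refine ind_congr ?_
      rw [Set.mem_Ico]
      constructor
      · rintro ⟨h4, h5⟩
        constructor <;> linarith
      · rintro ⟨h4, h5⟩
        constructor <;> linarith
    have h3 := Finset.card_nsmul_le_sum _ _ _ h2
    refine le_trans (le_of_eq ?_) h3
    rw [Finset.card_univ, nsmul_eq_mul, hcard, hsplit]
    field_simp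
  have hfin : EX (b + s) 0 ν (fun _ => Real.log 2 * c0 / 2 / 2 ^ c4) =
      Real.log 2 * c0 / 2 / 2 ^ c4 := Ex_const _ _ hms' _
  rw [← hfin]
  exact Ex_mono _ _ (fun i p => mu_nonneg _ _) _ _ hstep

end Pool.Agent.EN
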