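import Mathlib
import Pool.Agent.Lib.MP_ec0ede_nt_EN.Defs4
import Pool.Agent.Lib.MP_ec0ede_nt_EN.LawA
import Pool.Agent.Lib.MP_ec0ede_nt_EN.LawC
import Pool.Agent.Lib.MP_ec0ede_nt_EN.ExB
import Pool.Agent.Lib.MP_ec0ede_nt_EN.ExcS
import Pool.Agent.Lib.MP_ec0ede_nt_EN.Bonf
import Pool.Agent.Lib.MP_ec0ede_nt_EN.ThS
import Pool.Agent.Lib.MP_ec0ede_nt_EN.Path

set_option autoImplicit false

/-!
# MP_ec0ede_nt, project EN, module PosC: the second moment and the Cauchy-Schwarz inequality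
-/

noncomputable section

namespace Pool.Agent.EN

open Real Filter Topology Finset

namespace PosC

theorem cnt_append_left {m n : ℕ} (ν : Fin m → ℕ) (ν' : Fin n → ℕ) {j : ℕ} (hj : j ≤ m) :
    cnt (Fin.append ν ν') j = cnt ν j := by
  have h := X_append_left ν ν' hj
  unfold X at h
  have h2 : (cnt (Fin.append ν ν') j : ℤ) = cnt ν j := by linarith
  exact_mod_cast h2

theorem cnt_append_right {m n : ℕ} (ν : Fin m → ℕ) (ν' : Fin n → ℕ) (j : ℕ) :
    cnt (Fin.append ν ν') (m + j) = cnt ν m + cnt ν' j := by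
  have h := X_append_right ν ν' j
  unfold X at h
  push_cast at h
  have h2 : (cnt (Fin.append ν ν') (m + j) : ℤ) = cnt ν m + cnt ν' j := by linarith
  exact_mod_cast h2

theorem cnt_tp {c s : ℕ} (h1 : 1 ≤ c) (hs : c ≤ s) : cnt (tp c s) c = 1 := by
  unfold cnt tp
  rw [Finset.sum_eq_single (⟨c - 1, by omega⟩ : Fin s)]
  · simp only
    rw [if_pos (by omega), if_pos (by omega)]
  · intro i _ hi
    by_cases h : (i : ℕ) < c
    · rw [if_pos h, if_neg]
      intro h2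
      exact hi (Fin.ext (by simp only; omega))
    · rw [if_neg h]
  · intro h
    exact absurd (Finset.mem_univ _) h

/-- the sum of `th` for the appended counts -/
theorem th_sum (D0 : ℝ) (b s c4 : ℕ) (ν : Fin b → ℕ) (hx : xi 0 b ν ≤ D0) (hX : X ν b = 0)
    (h1 : 1 ≤ c4) (hs : c4 ≤ s) :
    ∑ i : Idx (Fin.append ν (tp c4 s)), th (lv 0 (Fin.append ν (tp c4 s))) i ≤ D0 + 1 := by
  rw [sum_th, Fin.sum_univ_add]
  have hA : ∑ l : Fin b, ((Fin.append ν (tp c4 s) (Fin.castAdd s l) : ℕ) : ℝ) *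
      (2 ^ cnt (Fin.append ν (tp c4 s)) ((Fin.castAdd s l : Fin (b + s)) + 1) /
        2 ^ (0 + ((Fin.castAdd s l : Fin (b + s)) : ℕ) + 1)) ≤ D0 := by
    refine le_trans (Finset.sum_le_sum fun l _ => ?_) hx
    have hl : (l : ℕ) + 1 ≤ b := l.isLt
    rw [if_pos ⟨Nat.zero_le _, hl⟩, Fin.append_left, Fin.val_castAdd,
      cnt_append_left ν (tp c4 s) hl]
    have h2 : (2 : ℝ) ^ (-X ν ((l : ℕ) + 1)) = 2 ^ cnt ν ((l : ℕ) + 1) / 2 ^ ((l : ℕ) + 1) := by
      unfold X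
      rw [neg_sub, zpow_sub₀ (by norm_num), zpow_natCast, zpow_natCast]
    rw [h2, zero_add]
    exact mul_le_mul_of_nonneg_right (by linarith) (by positivity)
  have hB : ∑ l : Fin s, ((Fin.append ν (tp c4 s) (Fin.natAdd b l) : ℕ) : ℝ) *
      (2 ^ cnt (Fin.append ν (tp c4 s)) ((Fin.natAdd b l : Fin (b + s)) + 1) /
        2 ^ (0 + ((Fin.natAdd b l : Fin (b + s)) : ℕ) + 1)) ≤ 1 := by
    rw [Finset.sum_eq_single (⟨c4 - 1, by omega⟩ : Fin s)]
    · rw [Fin.append_right, Fin.val_natAdd]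
      have e1 : b + (c4 - 1) + 1 = b + c4 := by omega
      have e2 : 0 + (b + (c4 - 1)) + 1 = b + c4 := by omega
      have e3 : tp c4 s ⟨c4 - 1, by omega⟩ = 1 := by
        unfold tp
        rw [if_pos (by simp only; omega)]
      have hc : cnt ν b = b := by
        unfold X at hX
        have : (cnt ν b : ℤ) = b := by linarith
        exact_mod_cast this
      simp only
      rw [e1, e2, e3, cnt_append_right, cnt_tp h1 hs, hc, Nat.cast_one, one_mul,
        div_le_one (by positivity)]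
      exact pow_le_pow_right₀ (by norm_num) (by omega)
    · intro l _ hl
      rw [Fin.append_right]
      have : tp c4 s l = 0 := by
        unfold tp
        rw [if_neg]
        intro h2
        exact hl (Fin.ext (by simp only; omega))
      rw [this, Nat.cast_zero, zero_mul]
    · intro h
      exact absurd (Finset.mem_univ _) h
  linarith

end PosC

theorem pos_second : ∃ C : ℝ, 1 ≤ C ∧ ∀ (D0 : ℝ) (b s c4 : ℕ) (ν : Fin b → ℕ) (y : ℝ),
    xi 0 b ν ≤ D0 → X ν b = 0 → 1 ≤ c4 → c4 ≤ s →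
    EX (b + s) 0 (Fin.append ν (tp c4 s))
      (fun τ => (Wn (Set.Ico 0 (Real.log 2)) y τ : ℝ) ^ 2) ≤ C * (2 + D0) ^ 2 := by
  obtain ⟨C, hC, hT⟩ := tup_bound 2
  obtain ⟨D, hD, hL⟩ := laws_mu
  have hCD : 1 ≤ C * D := one_le_mul_of_one_le_of_one_le hC hD
  refine ⟨(C * D) ^ 2, one_le_pow₀ hCD, ?_⟩
  intro D0 b s c4 ν y hx hX h1 hs
  have hth := PosC.th_sum D0 b s c4 ν hx hX h1 hs
  have hlev : ∀ i, 1 ≤ lv 0 (Fin.append ν (tp c4 s)) i ∧
      lv 0 (Fin.append ν (tp c4 s)) i ≤ b + s := by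
    intro i
    unfold lv
    have := i.1.isLt
    omega
  have hlaw := hL (Idx (Fin.append ν (tp c4 s))) (b + s) (lv 0 (Fin.append ν (tp c4 s))) hlev
  have hb := hT (Idx (Fin.append ν (tp c4 s))) (range (bd (b + s)))
    (fun i => mu (lv 0 (Fin.append ν (tp c4 s)) i)) (lv 0 (Fin.append ν (tp c4 s))) D hD hlaw
    (Set.Ico 0 (Real.log 2)) {0} (by
      intro t ht
      refine ⟨0, Finset.mem_singleton_self _, ht.1, ?_⟩
      have h3 : Real.log 2 < 1 := by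
        have := Real.log_two_lt_d9
        linarith
      linarith [ht.2]) y
  rw [Finset.card_singleton, Nat.cast_one, mul_one] at hb
  have hthn : 0 ≤ ∑ i : Idx (Fin.append ν (tp c4 s)), th (lv 0 (Fin.append ν (tp c4 s))) i :=
    Finset.sum_nonneg fun i _ => by unfold th; positivity
  have heq : EX (b + s) 0 (Fin.append ν (tp c4 s))
      (fun τ => (Wn (Set.Ico 0 (Real.log 2)) y τ : ℝ) ^ 2) =
      ∑ v : Idx (Fin.append ν (tp c4 s)) → Fin 2 → Bool,
        Ex (range (bd (b + s))) (fun i => mu (lv 0 (Fin.append ν (tp c4 s)) i))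
          (fun τ => ind (∀ a, y - sv τ v a ∈ Set.Ico 0 (Real.log 2))) := by
    unfold EX
    rw [← Ex_fsum]
    congr 1
    funext τ
    exact Wn_sq _ _ _
  rw [heq]
  refine hb.trans ?_
  rw [← mul_pow]
  refine pow_le_pow_left₀ (by positivity) ?_ 2
  nlinarith [mul_le_mul_of_nonneg_left hth (by positivity : 0 ≤ C * D)]

/-- the Cauchy-Schwarz inequality -/
theorem cs_hit (L : ℕ) {n : ℕ} (ν : Fin n → ℕ) (h : n ≤ L) (W : (Idx ν → ℕ) → ℕ) :
    (EX L 0 ν (fun τ => (W τ : ℝ))) ^ 2 ≤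
      EX L 0 ν (fun τ => ind (0 < W τ)) * EX L 0 ν (fun τ => (W τ : ℝ) ^ 2) := by
  unfold EX Ex
  have hw : ∀ τ : Idx ν → ℕ, 0 ≤ ∏ i, mu (lv 0 ν i) (τ i) := fun τ =>
    Finset.prod_nonneg fun i _ => mu_nonneg _ _
  have key := Finset.sum_mul_sq_le_sq_mul_sq
    (Fintype.piFinset (fun _ : Idx ν => range (bd L)))
    (fun τ => √(∏ i, mu (lv 0 ν i) (τ i)) * ind (0 < W τ))
    (fun τ => √(∏ i, mu (lv 0 ν i) (τ i)) * (W τ : ℝ))
  have e1 : ∀ τ : Idx ν → ℕ, (√(∏ i, mu (lv 0 ν i) (τ i)) * ind (0 < W τ)) *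
      (√(∏ i, mu (lv 0 ν i) (τ i)) * (W τ : ℝ)) =
      (∏ i, mu (lv 0 ν i) (τ i)) * (W τ : ℝ) := by
    intro τ
    have hs := Real.mul_self_sqrt (hw τ)
    have hi : ind (0 < W τ) * (W τ : ℝ) = (W τ : ℝ) := by
      rcases Nat.eq_zero_or_pos (W τ) with h0 | h0
      · rw [h0]; simp
      · rw [ind_of h0, one_mul]
    calc _ = (√(∏ i, mu (lv 0 ν i) (τ i)) * √(∏ i, mu (lv 0 ν i) (τ i))) *
          (ind (0 < W τ) * (W τ : ℝ)) := by ring
      _ = _ := by rw [hs, hi]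
  have e2 : ∀ τ : Idx ν → ℕ, (√(∏ i, mu (lv 0 ν i) (τ i)) * ind (0 < W τ)) ^ 2 =
      (∏ i, mu (lv 0 ν i) (τ i)) * ind (0 < W τ) := by
    intro τ
    rw [mul_pow, Real.sq_sqrt (hw τ)]
    congr 1
    by_cases h0 : 0 < W τ
    · rw [ind_of h0, one_pow]
    · rw [ind_not_of h0]; norm_num
  have e3 : ∀ τ : Idx ν → ℕ, (√(∏ i, mu (lv 0 ν i) (τ i)) * (W τ : ℝ)) ^ 2 =
      (∏ i, mu (lv 0 ν i) (τ i)) * (W τ : ℝ) ^ 2 := by
    intro τ
    rw [mul_pow, Real.sq_sqrt (hw τ)]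
  simp only [e1, e2, e3] at key
  exact key

end Pool.Agent.EN
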