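import Mathlib
import Pool.Agent.Lib.MP_ec0ede_nt_EN.Defs4
import Pool.Agent.Lib.MP_ec0ede_nt_EN.LawA
import Pool.Agent.Lib.MP_ec0ede_nt_EN.ExB
import Pool.Agent.Lib.MP_ec0ede_nt_EN.ZBd
import Pool.Agent.Lib.MP_ec0ede_nt_EN.Path
import Pool.Agent.Lib.MP_ec0ede_nt_EN.Coin
import Pool.Agent.Lib.MP_ec0ede_nt_EN.PosA
import Pool.Agent.Lib.MP_ec0ede_nt_EN.PosB
import Pool.Agent.Lib.MP_ec0ede_nt_EN.PosC

set_option autoImplicit false

/-!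
# MP_ec0ede_nt, project EN, module PosE: the lower bound for the weighted probability
-/

noncomputable section

namespace Pool.Agent.EN

open Real Filter Topology Finset

namespace PosE

theorem mem_TW_one {ι : Type} [Fintype ι] (τ : ι → ℕ) (y : ℝ) :
    y ∈ TW 1 τ ↔ 0 < Wn (Set.Ico 0 (Real.log 2)) y τ := by
  unfold TW Wn
  rw [Finset.card_pos]
  constructor
  · rintro ⟨d, hd, S, h1, h2⟩
    have hd1 : d = 1 := by simpa using hd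
    subst hd1
    refine ⟨S, ?_⟩
    simp only [Finset.mem_filter, Finset.mem_univ, true_and, Set.mem_Ico]
    simp only [Nat.cast_one, Real.log_one, zero_add] at h1 h2
    constructor <;> linarith
  · rintro ⟨S, hS⟩
    simp only [Finset.mem_filter, Finset.mem_univ, true_and, Set.mem_Ico] at hS
    refine ⟨1, by simp, S, ?_, ?_⟩
    · simp only [Nat.cast_one, Real.log_one, zero_add]
      linarith [hS.1]
    · simp only [Nat.cast_one, Real.log_one, zero_add]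
      linarith [hS.2]

theorem EX_nonneg (L K : ℕ) {n : ℕ} (ν : Fin n → ℕ) (F : (Idx ν → ℕ) → ℝ) (h : ∀ τ, 0 ≤ F τ) :
    0 ≤ EX L K ν F :=
  Ex_nonneg _ _ (fun _ _ => mu_nonneg _ _) F (fun τ _ => h τ)

theorem mass_lv {L n : ℕ} (h : n ≤ L) (ν : Fin n → ℕ) (i : Idx ν) :
    ∑ p ∈ range (bd L), mu (lv 0 ν i) p = 1 := by
  apply mu_mass
  · unfold lv
    omega
  · unfold lv
    have := i.1.isLt
    omega

theorem EX_le_one {L n : ℕ} (h : n ≤ L) (ν : Fin n → ℕ) (F : (Idx ν → ℕ) → ℝ)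
    (hF : ∀ τ, F τ ≤ 1) : EX L 0 ν F ≤ 1 := by
  calc EX L 0 ν F ≤ EX L 0 ν (fun _ => 1) :=
        Ex_mono _ _ (fun _ _ => mu_nonneg _ _) _ _ fun τ _ => hF τ
    _ = 1 := Ex_const _ _ (fun i => mass_lv h ν i) 1

theorem hit_inj (L : ℕ) {n : ℕ} (ν : Fin n → ℕ) (y : ℝ) :
    EX L 0 ν (fun τ => ind (0 < Wn (Set.Ico 0 (Real.log 2)) y τ)) ≤
      EX L 0 ν (fun τ => ind (Inj 1 τ ∧ y ∈ TW 1 τ)) + EX L 0 ν (fun τ => ind (¬ Inj 1 τ)) := by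
  unfold EX
  rw [← Ex_add]
  refine Ex_mono _ _ (fun _ _ => mu_nonneg _ _) _ _ fun τ _ => ?_
  by_cases h : Inj 1 τ
  · rw [ind_not_of (not_not.mpr h), add_zero]
    exact ind_mono fun h' => ⟨h, (mem_TW_one τ y).mpr h'⟩
  · rw [ind_of h]
    have h1 := ind_le_one (0 < Wn (Set.Ico 0 (Real.log 2)) y τ)
    have h2 := ind_nonneg (Inj 1 τ ∧ y ∈ TW 1 τ)
    linarith

theorem le_cnt {n : ℕ} (ν : Fin n → ℕ) (l : Fin n) : ν l ≤ cnt ν ((l : ℕ) + 1) := by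
  unfold cnt
  have h1 : ν l = (if (l : ℕ) < (l : ℕ) + 1 then ν l else 0) := by simp
  calc ν l = (if (l : ℕ) < (l : ℕ) + 1 then ν l else 0) := h1
    _ ≤ _ := Finset.single_le_sum (f := fun i : Fin n => if (i : ℕ) < (l : ℕ) + 1 then ν i else 0)
        (fun i _ => Nat.zero_le _) (Finset.mem_univ l)

theorem term_bound {D A : ℝ} {l : ℕ} (h : (A + 5) * ((l : ℝ) + 1) ^ 2 ≤ 2 ^ (l + 1) / D) :
    ((l : ℝ) + 1) * ((l : ℝ) + 1) * (2 * Real.exp (-(2 ^ (l + 1) / D))) ≤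
      Real.exp (-(A * ((l : ℝ) + 1) ^ 2)) * (1 / 2) ^ (l + 2) := by
  set x : ℝ := (l : ℝ) + 1 with hx
  have hx1 : 1 ≤ x := by
    rw [hx]
    have : (0 : ℝ) ≤ l := Nat.cast_nonneg l
    linarith
  have h1 : Real.exp (-(2 ^ (l + 1) / D)) ≤
      Real.exp (-(A * x ^ 2)) * Real.exp (-(5 * x ^ 2)) := by
    rw [← Real.exp_add]
    apply Real.exp_le_exp.mpr
    nlinarith
  have h2 : x ≤ Real.exp x := by
    have := Real.add_one_le_exp x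
    linarith
  have h3 : (2 : ℝ) ≤ Real.exp 1 := by
    have := Real.add_one_le_exp (1 : ℝ)
    linarith
  have h4 : (2 : ℝ) ^ (l + 2) ≤ Real.exp (x + 1) := by
    calc (2 : ℝ) ^ (l + 2) ≤ (Real.exp 1) ^ (l + 2) := pow_le_pow_left₀ (by norm_num) h3 _
      _ = Real.exp (x + 1) := by
        rw [← Real.exp_nat_mul]
        congr 1
        rw [hx]
        push_cast
        ring
  have h5 : x * x * 2 * 2 ^ (l + 2) ≤ Real.exp (5 * x ^ 2) := by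
    calc x * x * 2 * 2 ^ (l + 2) ≤ Real.exp x * Real.exp x * Real.exp 1 * Real.exp (x + 1) := by
          gcongr
      _ = Real.exp (3 * x + 2) := by
        rw [← Real.exp_add, ← Real.exp_add, ← Real.exp_add]
        congr 1
        ring
      _ ≤ Real.exp (5 * x ^ 2) := by
        apply Real.exp_le_exp.mpr
        nlinarith
  have h6 : x * x * 2 * Real.exp (-(5 * x ^ 2)) ≤ (1 / 2) ^ (l + 2) := by
    rw [one_div, inv_pow, Real.exp_neg, ← div_eq_mul_inv, div_le_iff₀ (Real.exp_pos _)]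
    have h7 : (0 : ℝ) < 2 ^ (l + 2) := by positivity
    rw [inv_mul_eq_div, le_div_iff₀ h7]
    exact h5
  calc x * x * (2 * Real.exp (-(2 ^ (l + 1) / D)))
      ≤ x * x * (2 * (Real.exp (-(A * x ^ 2)) * Real.exp (-(5 * x ^ 2)))) := by gcongr
    _ = Real.exp (-(A * x ^ 2)) * (x * x * 2 * Real.exp (-(5 * x ^ 2))) := by ring
    _ ≤ _ := by gcongr

theorem coin_sum {D A : ℝ} (hA : 0 ≤ A) {K1 n : ℕ}
    (hK : ∀ l : ℕ, K1 ≤ l → (A + 5) * ((l : ℝ) + 1) ^ 2 ≤ 2 ^ (l + 1) / D)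
    (ν : Fin n → ℕ) (h0 : ∀ l : Fin n, (l : ℕ) < K1 → ν l = 0) (hX : ∀ j ≤ n, 0 ≤ X ν j) :
    ∑ l : Fin n, (ν l : ℝ) * cnt ν (l + 1) * (2 * Real.exp (-(2 ^ ((l : ℕ) + 1) / D))) ≤
      Real.exp (-(A * ((K1 : ℝ) + 1) ^ 2)) / 2 := by
  have h1 : ∀ l : Fin n,
      (ν l : ℝ) * cnt ν (l + 1) * (2 * Real.exp (-(2 ^ ((l : ℕ) + 1) / D))) ≤
      Real.exp (-(A * ((K1 : ℝ) + 1) ^ 2)) * (1 / 2) ^ ((l : ℕ) + 2) := by
    intro l
    by_cases hl : (l : ℕ) < K1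
    · rw [h0 l hl]
      simp only [Nat.cast_zero, zero_mul]
      positivity
    · have hl' : K1 ≤ (l : ℕ) := not_lt.mp hl
      have h2 : cnt ν ((l : ℕ) + 1) ≤ (l : ℕ) + 1 := by
        have := hX ((l : ℕ) + 1) l.isLt
        unfold X at this
        omega
      have h3 : ((cnt ν ((l : ℕ) + 1) : ℕ) : ℝ) ≤ (l : ℕ) + 1 := by exact_mod_cast h2
      have h4 : (ν l : ℝ) ≤ (l : ℕ) + 1 := by
        exact_mod_cast (le_cnt ν l).trans h2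
      calc (ν l : ℝ) * cnt ν (l + 1) * (2 * Real.exp (-(2 ^ ((l : ℕ) + 1) / D)))
          ≤ (((l : ℕ) : ℝ) + 1) * (((l : ℕ) : ℝ) + 1) *
            (2 * Real.exp (-(2 ^ ((l : ℕ) + 1) / D))) := by gcongr
        _ ≤ Real.exp (-(A * (((l : ℕ) : ℝ) + 1) ^ 2)) * (1 / 2) ^ ((l : ℕ) + 2) :=
            term_bound (hK l hl')
        _ ≤ _ := by
          have h5 : (K1 : ℝ) ≤ ((l : ℕ) : ℝ) := by exact_mod_cast hl'
          gcongr
  calc _ ≤ ∑ l : Fin n, Real.exp (-(A * ((K1 : ℝ) + 1) ^ 2)) * (1 / 2) ^ ((l : ℕ) + 2) :=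
        Finset.sum_le_sum fun l _ => h1 l
    _ = Real.exp (-(A * ((K1 : ℝ) + 1) ^ 2)) * ((1 / 4) * ∑ i ∈ range n, (1 / 2 : ℝ) ^ i) := by
        rw [← Finset.mul_sum, Fin.sum_univ_eq_sum_range (fun i => (1 / 2 : ℝ) ^ (i + 2)) n]
        congr 1
        rw [Finset.mul_sum]
        refine Finset.sum_congr rfl fun i _ => ?_
        rw [pow_add]
        ring
    _ ≤ Real.exp (-(A * ((K1 : ℝ) + 1) ^ 2)) * ((1 / 4) * 2) := by
        gcongr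
        exact sum_geometric_two_le n
    _ = _ := by ring

theorem exists_K1 {D A : ℝ} (hD : 1 ≤ D) (hA : 0 ≤ A) : ∃ K1 : ℕ, ∀ l : ℕ, K1 ≤ l →
    (A + 5) * ((l : ℝ) + 1) ^ 2 ≤ 2 ^ (l + 1) / D := by
  have h1 := tendsto_pow_const_div_const_pow_of_one_lt 2 (show (1 : ℝ) < 2 by norm_num)
  have h2 : (0 : ℝ) < 1 / (D * (A + 5)) := by positivity
  obtain ⟨N, hN⟩ := Filter.eventually_atTop.mp (h1.eventually (gt_mem_nhds h2))
  refine ⟨N, fun l hl => ?_⟩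
  have h3 := hN (l + 1) (by omega)
  push_cast at h3
  have h4 : (0 : ℝ) < 2 ^ (l + 1) := by positivity
  have hD0 : 0 < D := by linarith
  rw [div_lt_div_iff₀ h4 (by positivity)] at h3
  rw [le_div_iff₀ hD0]
  nlinarith

theorem exists_c4 {B : ℝ} (hB : 0 ≤ B) : ∃ c4 : ℕ, 1 ≤ c4 ∧ B ≤ 2 ^ c4 ∧
    (2 : ℝ) ^ c4 ≤ 2 * B + 2 := by
  rcases le_total B 1 with h | h
  · exact ⟨1, le_rfl, by norm_num; linarith, by norm_num; linarith⟩
  · obtain ⟨n, h1, h2⟩ := exists_nat_pow_near h (show (1 : ℝ) < 2 by norm_num)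
    refine ⟨n + 1, by omega, h2.le, ?_⟩
    rw [pow_succ]
    linarith

theorem p0_bound {c C C' C0 : ℝ} (hc : 0 < c) (hC : 1 ≤ C) (hC' : 1 ≤ C') (hC0 : 0 < C0) :
    ∃ A : ℝ, 0 ≤ A ∧ ∀ K1 c4 : ℕ, (2 : ℝ) ^ c4 ≤ 2 * (C * (C0 * ((K1 : ℝ) + 1) ^ 2)) + 2 →
      Real.exp (-(A * ((K1 : ℝ) + 1) ^ 2)) ≤
        (c / 2 ^ c4) ^ 2 / (C' * (2 + Real.exp (C0 * ((K1 : ℝ) + 1) ^ 2)) ^ 2) := by
  refine ⟨C' / c ^ 2 + 2 * (C0 + 2) + 2 * (2 * C * C0 + 2), by positivity, fun K1 c4 h => ?_⟩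
  set x : ℝ := ((K1 : ℝ) + 1) ^ 2 with hx
  have hx1 : 1 ≤ x := by
    have : (0 : ℝ) ≤ K1 := Nat.cast_nonneg K1
    rw [hx]
    nlinarith
  have h1 : (2 : ℝ) ^ c4 ≤ Real.exp ((2 * C * C0 + 2) * x) := by
    have h2 : (2 : ℝ) ^ c4 ≤ (2 * C * C0 + 2) * x := by nlinarith
    have h3 := Real.add_one_le_exp ((2 * C * C0 + 2) * x)
    linarith
  have h2 : 2 + Real.exp (C0 * x) ≤ Real.exp ((C0 + 2) * x) := by
    have h3 : Real.exp ((C0 + 2) * x) = Real.exp (C0 * x) * Real.exp (2 * x) := by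
      rw [← Real.exp_add]
      congr 1
      ring
    have h4 : 3 ≤ Real.exp (2 * x) := by
      have := Real.add_one_le_exp (2 * x)
      linarith
    have h5 : 1 ≤ Real.exp (C0 * x) := Real.one_le_exp (by positivity)
    rw [h3]
    nlinarith
  have h3 : C' / c ^ 2 ≤ Real.exp (C' / c ^ 2 * x) := by
    have h4 := Real.add_one_le_exp (C' / c ^ 2 * x)
    have h5 : 0 < C' / c ^ 2 := by positivity
    nlinarith
  have h4 : C' / c ^ 2 * (2 + Real.exp (C0 * x)) ^ 2 * (2 ^ c4) ^ 2 ≤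
      Real.exp ((C' / c ^ 2 + 2 * (C0 + 2) + 2 * (2 * C * C0 + 2)) * x) := by
    calc C' / c ^ 2 * (2 + Real.exp (C0 * x)) ^ 2 * (2 ^ c4) ^ 2
        ≤ Real.exp (C' / c ^ 2 * x) * (Real.exp ((C0 + 2) * x)) ^ 2 *
          (Real.exp ((2 * C * C0 + 2) * x)) ^ 2 := by gcongr
      _ = _ := by
        rw [← Real.exp_nat_mul, ← Real.exp_nat_mul, ← Real.exp_add, ← Real.exp_add]
        congr 1
        push_cast
        ring
  rw [Real.exp_neg, le_div_iff₀ (by positivity), inv_mul_le_iff₀ (Real.exp_pos _)]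
  have h5 : C' * (2 + Real.exp (C0 * x)) ^ 2 =
      (C' / c ^ 2 * (2 + Real.exp (C0 * x)) ^ 2 * (2 ^ c4) ^ 2) * (c / 2 ^ c4) ^ 2 := by
    field_simp
  rw [h5]
  gcongr

theorem cnt_tp_le (c s j : ℕ) : cnt (tp c s) j ≤ 1 := by
  unfold cnt tp
  calc ∑ i : Fin s, (if (i : ℕ) < j then (if (i : ℕ) + 1 = c then 1 else 0) else 0)
      ≤ ∑ i : Fin s, (if (i : ℕ) + 1 = c then 1 else 0) := by
        refine Finset.sum_le_sum fun i _ => ?_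
        split_ifs <;> simp
    _ = (univ.filter fun i : Fin s => (i : ℕ) + 1 = c).card := by
        rw [Finset.card_filter]
    _ ≤ 1 := by
        rw [Finset.card_le_one]
        intro a ha b hb
        simp only [Finset.mem_filter, Finset.mem_univ, true_and] at ha hb
        exact Fin.ext (by omega)

theorem X_tp_nonneg (c s j : ℕ) : 0 ≤ X (tp c s) j := by
  unfold X
  rcases Nat.eq_zero_or_pos j with h | h
  · subst h
    simp [cnt]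
  · have := cnt_tp_le c s j
    omega

theorem X_app_nonneg {b c4 s : ℕ} (ν : Fin b → ℕ) (h : ∀ j ≤ b, 0 ≤ X ν j) :
    ∀ j ≤ b + s, 0 ≤ X (Fin.append ν (tp c4 s)) j := by
  intro j hj
  rcases le_total j b with h1 | h1
  · rw [X_append_left _ _ h1]
    exact h j h1
  · obtain ⟨k, rfl⟩ := Nat.exists_eq_add_of_le h1
    rw [X_append_right]
    exact add_nonneg (h b le_rfl) (X_tp_nonneg _ _ _)

/-- the probability of a hit without coincidences, given the counts -/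
theorem prob_lower {c C' A D D0 C1 : ℝ} {K1 c4 b s : ℕ} {y : ℝ} (hc : 0 < c) (hC' : 1 ≤ C')
    (hD0 : 0 ≤ D0) (hA : 0 ≤ A) (hb : K1 ≤ b) (hc4 : 1 ≤ c4) (hs : c4 ≤ s)
    (hK : ∀ l : ℕ, K1 ≤ l → (A + 5) * ((l : ℝ) + 1) ^ 2 ≤ 2 ^ (l + 1) / D)
    (hp0 : Real.exp (-(A * ((K1 : ℝ) + 1) ^ 2)) ≤ (c / 2 ^ c4) ^ 2 / (C' * (2 + D0) ^ 2))
    (hcoin : ∀ (L n : ℕ) (ν : Fin n → ℕ), n ≤ L →
      EX L 0 ν (fun τ => ind (¬ Inj 1 τ)) ≤
        ∑ l : Fin n, (ν l : ℝ) * cnt ν (l + 1) * (2 * Real.exp (-(2 ^ ((l : ℕ) + 1) / D))))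
    (hsec : ∀ (D0 : ℝ) (b s c4 : ℕ) (ν : Fin b → ℕ) (y : ℝ),
      xi 0 b ν ≤ D0 → X ν b = 0 → 1 ≤ c4 → c4 ≤ s →
      EX (b + s) 0 (Fin.append ν (tp c4 s))
        (fun τ => (Wn (Set.Ico 0 (Real.log 2)) y τ : ℝ) ^ 2) ≤ C' * (2 + D0) ^ 2)
    (ν : Fin b → ℕ) (hν : NP K1 D0 C1 ν)
    (hfirst : c / 2 ^ c4 ≤ EX (b + s) 0 (Fin.append ν (tp c4 s))
      (fun τ => (Wn (Set.Ico 0 (Real.log 2)) y τ : ℝ))) :
    Real.exp (-(A * ((K1 : ℝ) + 1) ^ 2)) / 2 ≤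
      EX (b + s) 0 (Fin.append ν (tp c4 s)) (fun τ => ind (Inj 1 τ ∧ y ∈ TW 1 τ)) := by
  obtain ⟨n1, n2, n3, n4, n5⟩ := hν
  set ν' := Fin.append ν (tp c4 s) with hν'
  set E1 := EX (b + s) 0 ν' (fun τ => (Wn (Set.Ico 0 (Real.log 2)) y τ : ℝ)) with hE1
  set E2 := EX (b + s) 0 ν' (fun τ => (Wn (Set.Ico 0 (Real.log 2)) y τ : ℝ) ^ 2) with hE2
  set p := EX (b + s) 0 ν' (fun τ => ind (0 < Wn (Set.Ico 0 (Real.log 2)) y τ)) with hp
  have h1 : E1 ^ 2 ≤ p * E2 := cs_hit (b + s) ν' le_rfl _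
  have h2 : E2 ≤ C' * (2 + D0) ^ 2 := hsec D0 b s c4 ν y n4 n3 hc4 hs
  have hp00 : 0 ≤ p := EX_nonneg _ _ _ _ fun τ => ind_nonneg _
  have hcc : 0 < c / 2 ^ c4 := by positivity
  have h3 : (c / 2 ^ c4) ^ 2 ≤ p * (C' * (2 + D0) ^ 2) := by
    calc (c / 2 ^ c4) ^ 2 ≤ E1 ^ 2 := pow_le_pow_left₀ hcc.le hfirst 2
      _ ≤ p * E2 := h1
      _ ≤ _ := mul_le_mul_of_nonneg_left h2 hp00
  have h4 : (c / 2 ^ c4) ^ 2 / (C' * (2 + D0) ^ 2) ≤ p := by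
    rw [div_le_iff₀ (by positivity)]
    exact h3
  have h5 : p ≤ EX (b + s) 0 ν' (fun τ => ind (Inj 1 τ ∧ y ∈ TW 1 τ)) +
      EX (b + s) 0 ν' (fun τ => ind (¬ Inj 1 τ)) := hit_inj _ _ _
  have h6 : EX (b + s) 0 ν' (fun τ => ind (¬ Inj 1 τ)) ≤
      Real.exp (-(A * ((K1 : ℝ) + 1) ^ 2)) / 2 := by
    refine (hcoin (b + s) (b + s) ν' le_rfl).trans (coin_sum hA hK ν' ?_ ?_)
    · intro l hl
      have hlb : (l : ℕ) < b := lt_of_lt_of_le hl hb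
      have h7 : l = Fin.castAdd s ⟨(l : ℕ), hlb⟩ := Fin.ext rfl
      rw [hν', h7, Fin.append_left]
      exact n1 _ hl
    · exact X_app_nonneg ν n2
  linarith

theorem zz_ge_one : 1 ≤ zz := by
  unfold zz
  have h1 : 0 < Real.log 2 := Real.log_pos (by norm_num)
  rw [le_div_iff₀ h1]
  have := Real.log_two_lt_d9
  linarith

theorem pw_pos (k : ℕ) : 0 < pw k := by
  unfold pw
  positivity

theorem wt_pos {L : ℕ} (ν : Fin L → ℕ) : 0 < wt ν := Finset.prod_pos fun _ _ => pw_pos _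

theorem Z_nonneg (L : ℕ) (y : ℝ) : 0 ≤ ZS L (PrA 1 L y) := by
  refine tsum_nonneg fun ν => ?_
  have h1 : 0 < zz := lt_of_lt_of_le one_pos zz_ge_one
  have h2 : 0 ≤ PrA 1 L y ν := EX_nonneg _ _ _ _ fun τ => ind_nonneg _
  have h3 := wt_pos ν
  positivity

open Classical in
theorem Z_lower {K1 : ℕ} {D0 C1 p q : ℝ} {b c4 s : ℕ} {y : ℝ} (hp : 0 ≤ p)
    (hpaths : ENNReal.ofReal q ≤ PW b (fun ν => if NP K1 D0 C1 ν then 1 else 0))
    (hprob : ∀ ν : Fin b → ℕ, NP K1 D0 C1 ν →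
      p ≤ EX (b + s) 0 (Fin.append ν (tp c4 s)) (fun τ => ind (Inj 1 τ ∧ y ∈ TW 1 τ))) :
    wt (tp c4 s) * p * q ≤ Z 1 (b + s) y := by
  have hZ : Z 1 (b + s) y = ZS (b + s) (PrA 1 (b + s) y) := rfl
  rw [hZ, ← ENNReal.ofReal_le_ofReal_iff (Z_nonneg _ _)]
  rw [ZS_PW (PrA 1 (b + s) y) 1 (fun ν => EX_nonneg _ _ _ _ fun τ => ind_nonneg _)
    (fun ν => EX_le_one le_rfl ν _ fun τ => ind_le_one _)]
  rw [PW_append]
  have hw := wt_pos (tp c4 s)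
  rw [ENNReal.ofReal_mul (by positivity)]
  calc ENNReal.ofReal (wt (tp c4 s) * p) * ENNReal.ofReal q
      ≤ ENNReal.ofReal (wt (tp c4 s) * p) * PW b (fun ν => if NP K1 D0 C1 ν then 1 else 0) := by
        gcongr
    _ = PW b (fun ν => ENNReal.ofReal (wt (tp c4 s) * p) *
          (if NP K1 D0 C1 ν then 1 else 0)) := by
        unfold PW
        rw [← ENNReal.tsum_mul_left]
        refine tsum_congr fun ν => ?_
        ring
    _ ≤ _ := by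
        refine PW_mono fun ν => ?_
        by_cases hν : NP K1 D0 C1 ν
        · simp only [hν, if_true, mul_one]
          refine le_trans ?_ (ENNReal.le_tsum (tp c4 s))
          rw [ENNReal.ofReal_mul hw.le]
          refine mul_le_mul_right ?_ _
          refine ENNReal.ofReal_le_ofReal ?_
          have h1 := hprob ν hν
          have h2 : (1 : ℝ) ≤ zz ^ (X (Fin.append ν (tp c4 s)) (b + s)) := by
            have h3 := X_app_nonneg (c4 := c4) (s := s) ν hν.2.1 (b + s) le_rfl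
            exact one_le_zpow₀ zz_ge_one h3
          have h3 : p ≤ PrA 1 (b + s) y (Fin.append ν (tp c4 s)) := h1
          calc p = 1 * p := (one_mul p).symm
            _ ≤ _ := mul_le_mul h2 h3 hp (by positivity)
        · simp [hν]

theorem two_rpow_al : (2 : ℝ) ^ al = Real.exp (-Mer) * (2 : ℝ) ^ (-(5 / 2) : ℝ) := by
  have h1 : 0 < Real.log 2 := Real.log_pos (by norm_num)
  unfold al
  rw [sub_eq_add_neg, Real.rpow_add (by norm_num)]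
  congr 1
  rw [Real.rpow_def_of_pos (by norm_num)]
  congr 1
  field_simp

theorem two_rpow_al_mul (L : ℕ) (t : ℝ) : (2 : ℝ) ^ (al + t) * 2 ^ L =
    Real.exp (-Mer) * (2 : ℝ) ^ ((L : ℝ) - 5 / 2 + t) := by
  rw [Real.rpow_add (by norm_num), two_rpow_al, ← Real.rpow_natCast 2 L]
  rw [show (L : ℝ) - 5 / 2 + t = -(5 / 2) + t + L by ring, Real.rpow_add (by norm_num),
    Real.rpow_add (by norm_num)]
  ring

/-- the lower bound for a fixed number of top levels -/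
theorem core {c C' A D D0 C1 cP : ℝ} {K1 c4 bP bF s : ℕ} (hc : 0 < c) (hC' : 1 ≤ C')
    (hD0 : 0 ≤ D0) (hA : 0 ≤ A) (hc4 : 1 ≤ c4) (hs : c4 ≤ s) (hcP : 0 < cP)
    (hK : ∀ l : ℕ, K1 ≤ l → (A + 5) * ((l : ℝ) + 1) ^ 2 ≤ 2 ^ (l + 1) / D)
    (hp0 : Real.exp (-(A * ((K1 : ℝ) + 1) ^ 2)) ≤ (c / 2 ^ c4) ^ 2 / (C' * (2 + D0) ^ 2))
    (hcoin : ∀ (L n : ℕ) (ν : Fin n → ℕ), n ≤ L →
      EX L 0 ν (fun τ => ind (¬ Inj 1 τ)) ≤
        ∑ l : Fin n, (ν l : ℝ) * cnt ν (l + 1) * (2 * Real.exp (-(2 ^ ((l : ℕ) + 1) / D))))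
    (hsec : ∀ (D0 : ℝ) (b s c4 : ℕ) (ν : Fin b → ℕ) (y : ℝ),
      xi 0 b ν ≤ D0 → X ν b = 0 → 1 ≤ c4 → c4 ≤ s →
      EX (b + s) 0 (Fin.append ν (tp c4 s))
        (fun τ => (Wn (Set.Ico 0 (Real.log 2)) y τ : ℝ) ^ 2) ≤ C' * (2 + D0) ^ 2)
    (hF : ∀ b ≥ bF, ∀ ν : Fin b → ℕ, Q ν b ≤ C1 → X ν b = 0 → ∀ s ≥ c4, ∀ y : ℝ,
      Real.exp (-Mer) * (2 : ℝ) ^ ((b : ℝ) + c4 - 1 / 2) ≤ y →
      y ≤ Real.exp (-Mer) * (2 : ℝ) ^ ((b : ℝ) + c4 + 1 / 2) →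
      c / 2 ^ c4 ≤ EX (b + s) 0 (Fin.append ν (tp c4 s))
        (fun τ => (Wn (Set.Ico 0 (Real.log 2)) y τ : ℝ)))
    (hP : open Classical in ∀ b ≥ bP, ENNReal.ofReal (cP / ((b : ℝ) + 1) ^ (3 / 2 : ℝ)) ≤
      PW b (fun ν => if NP K1 D0 C1 ν then 1 else 0)) :
    ∀ b : ℕ, bP ≤ b → bF ≤ b → K1 ≤ b → ∀ y : ℝ,
      Real.exp (-Mer) * (2 : ℝ) ^ ((b : ℝ) + c4 - 1 / 2) ≤ y →
      y ≤ Real.exp (-Mer) * (2 : ℝ) ^ ((b : ℝ) + c4 + 1 / 2) →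
      wt (tp c4 s) * (Real.exp (-(A * ((K1 : ℝ) + 1) ^ 2)) / 2) * cP /
        (((b + s : ℕ) : ℝ) + 1) ^ (3 / 2 : ℝ) ≤ Z 1 (b + s) y := by
  intro b hb1 hb2 hb3 y hy1 hy2
  have hw := wt_pos (tp c4 s)
  have h1 := Z_lower (K1 := K1) (D0 := D0) (C1 := C1) (c4 := c4) (s := s) (y := y)
    (p := Real.exp (-(A * ((K1 : ℝ) + 1) ^ 2)) / 2) (by positivity) (hP b hb1)
    (fun ν hν => prob_lower hc hC' hD0 hA hb3 hc4 hs hK hp0 hcoin hsec ν hν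
      (hF b hb2 ν hν.2.2.2.2 hν.2.2.1 s hs y hy1 hy2))
  refine le_trans ?_ h1
  rw [mul_div_assoc]
  have h2 : cP / (((b + s : ℕ) : ℝ) + 1) ^ (3 / 2 : ℝ) ≤ cP / ((b : ℝ) + 1) ^ (3 / 2 : ℝ) := by
    have h3 : (b : ℝ) ≤ ((b + s : ℕ) : ℝ) := by
      push_cast
      have : (0 : ℝ) ≤ s := Nat.cast_nonneg s
      linarith
    gcongr
  gcongr

end PosE

theorem pos_lower : ∃ c : ℝ, 0 < c ∧ ∃ L0 : ℕ, ∀ L ≥ L0, ∀ y : ℝ,
    (2 : ℝ) ^ al * 2 ^ L ≤ y → y ≤ (2 : ℝ) ^ (al + 2) * 2 ^ L →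
    c / ((L : ℝ) + 1) ^ (3 / 2 : ℝ) ≤ Z 1 L y := by
  obtain ⟨c, C, hc, hC, hfirst⟩ := pos_first
  obtain ⟨C', hC', hsec⟩ := pos_second
  obtain ⟨C0, hC0, hpaths⟩ := pos_paths
  obtain ⟨D, hD, hcoin⟩ := coin_one
  obtain ⟨A, hA, hp0⟩ := PosE.p0_bound hc hC hC' hC0
  obtain ⟨K1, hK⟩ := PosE.exists_K1 hD hA
  obtain ⟨c4, hc41, hc42, hc43⟩ := PosE.exists_c4
    (show (0 : ℝ) ≤ C * (C0 * ((K1 : ℝ) + 1) ^ 2) by positivity)
  obtain ⟨cP, hcP, bP, hP⟩ := hpaths K1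
  obtain ⟨bF, hF⟩ := hfirst (C0 * ((K1 : ℝ) + 1) ^ 2) c4 hc41 hc42
  have hp := hp0 K1 c4 hc43
  have hcore : ∀ s : ℕ, c4 ≤ s → ∀ b : ℕ, bP ≤ b → bF ≤ b → K1 ≤ b → ∀ y : ℝ,
      Real.exp (-Mer) * (2 : ℝ) ^ ((b : ℝ) + c4 - 1 / 2) ≤ y →
      y ≤ Real.exp (-Mer) * (2 : ℝ) ^ ((b : ℝ) + c4 + 1 / 2) →
      wt (tp c4 s) * (Real.exp (-(A * ((K1 : ℝ) + 1) ^ 2)) / 2) * cP /
        (((b + s : ℕ) : ℝ) + 1) ^ (3 / 2 : ℝ) ≤ Z 1 (b + s) y := fun s hs =>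
    PosE.core hc hC' (Real.exp_pos _).le hA hc41 hs hcP hK hp hcoin hsec hF hP
  set E : ℝ := Real.exp (-(A * ((K1 : ℝ) + 1) ^ 2)) / 2 with hE
  have hE0 : 0 < E := by positivity
  have hw1 := PosE.wt_pos (tp c4 (c4 + 1))
  have hw2 := PosE.wt_pos (tp c4 (c4 + 2))
  set c' : ℝ := min (wt (tp c4 (c4 + 1))) (wt (tp c4 (c4 + 2))) * E * cP with hc'
  refine ⟨c', by positivity, bP + bF + K1 + c4 + 2, fun L hL y hy1 hy2 => ?_⟩
  have e1 : (2 : ℝ) ^ al * 2 ^ L = Real.exp (-Mer) * (2 : ℝ) ^ ((L : ℝ) - 5 / 2) := by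
    have := PosE.two_rpow_al_mul L 0
    simpa using this
  have e2 := PosE.two_rpow_al_mul L 2
  rw [e1] at hy1
  rw [e2] at hy2
  rcases le_total y (Real.exp (-Mer) * (2 : ℝ) ^ ((L : ℝ) - 3 / 2)) with h | h
  · obtain ⟨b, hb⟩ : ∃ b, L = b + (c4 + 2) := ⟨L - (c4 + 2), by omega⟩
    subst hb
    have h1 := hcore (c4 + 2) (by omega) b (by omega) (by omega) (by omega) y
      (by
        refine le_trans (le_of_eq ?_) hy1
        congr 2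
        push_cast
        ring)
      (by
        refine le_trans h (le_of_eq ?_)
        congr 2
        push_cast
        ring)
    refine le_trans ?_ h1
    rw [hc']
    gcongr
    exact min_le_right _ _
  · obtain ⟨b, hb⟩ : ∃ b, L = b + (c4 + 1) := ⟨L - (c4 + 1), by omega⟩
    subst hb
    have h1 := hcore (c4 + 1) (by omega) b (by omega) (by omega) (by omega) y
      (by
        refine le_trans (le_of_eq ?_) h
        congr 2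
        push_cast
        ring)
      (by
        refine le_trans hy2 (le_of_eq ?_)
        congr 2
        push_cast
        ring)
    refine le_trans ?_ h1
    rw [hc']
    gcongr
    exact min_le_left _ _

end Pool.Agent.EN
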