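import Mathlib
import Pool.Agent.Lib.MP_ec0ede_nt_EN.Defs4
import Pool.Agent.Lib.MP_ec0ede_nt_EN.LawA
import Pool.Agent.Lib.MP_ec0ede_nt_EN.LawB
import Pool.Agent.Lib.MP_ec0ede_nt_EN.WfT
import Pool.Agent.Lib.MP_ec0ede_nt_EN.EpsB
import Pool.Agent.Lib.MP_ec0ede_nt_EN.EpsC
import Pool.Agent.Lib.MP_ec0ede_nt_EN.CnL
import Pool.Agent.Lib.MP_ec0ede_nt_EN.ZBd
import Pool.Agent.Lib.MP_ec0ede_nt_EN.PosE

set_option autoImplicit false

/-!
# MP_ec0ede_nt, project EN, module PosF: the normalised densities are bounded below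
-/

noncomputable section

namespace Pool.Agent.EN

open Real Filter Topology Finset

namespace PosF

theorem wt_nonneg {L : ℕ} (ν : Fin L → ℕ) : 0 ≤ wt ν := by
  unfold wt pw
  exact Finset.prod_nonneg fun i _ => by positivity

theorem log2 : 0 < Real.log 2 := Real.log_pos one_lt_two

theorem zz_pos : 0 < zz := by
  unfold zz
  have := log2
  positivity

theorem EX_nonneg {L : ℕ} (ν : Fin L → ℕ) (F : (Idx ν → ℕ) → ℝ) (h : ∀ τ, 0 ≤ F τ) :
    0 ≤ EX L 0 ν F := by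
  unfold EX Ex
  exact Finset.sum_nonneg fun τ _ =>
    mul_nonneg (Finset.prod_nonneg fun i _ => mu_nonneg _ _) (h τ)

theorem EX_le_one {L : ℕ} (ν : Fin L → ℕ) (F : (Idx ν → ℕ) → ℝ) (h : ∀ τ, F τ ≤ 1) :
    EX L 0 ν F ≤ 1 := by
  unfold EX Ex
  calc ∑ τ ∈ Fintype.piFinset (fun _ : Idx ν => range (bd L)),
        (∏ i, mu (lv 0 ν i) (τ i)) * F τ
      ≤ ∑ τ ∈ Fintype.piFinset (fun _ : Idx ν => range (bd L)), ∏ i, mu (lv 0 ν i) (τ i) :=
        Finset.sum_le_sum fun τ _ =>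
          mul_le_of_le_one_right (Finset.prod_nonneg fun i _ => mu_nonneg _ _) (h τ)
    _ = ∏ i : Idx ν, ∑ p ∈ range (bd L), mu (lv 0 ν i) p :=
        (Finset.prod_univ_sum (fun _ : Idx ν => range (bd L)) fun i p => mu (lv 0 ν i) p).symm
    _ = 1 := by
        refine Finset.prod_eq_one fun i _ => mu_mass ?_ ?_
        · unfold lv
          omega
        · unfold lv
          have := i.1.isLt
          omega

theorem PrA_nonneg (f L : ℕ) (y : ℝ) (ν : Fin L → ℕ) : 0 ≤ PrA f L y ν :=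
  EX_nonneg ν _ fun _ => ind_nonneg _

theorem PrA_le_one (f L : ℕ) (y : ℝ) (ν : Fin L → ℕ) : PrA f L y ν ≤ 1 :=
  EX_le_one ν _ fun _ => ind_le_one _

theorem Z_eq (f L : ℕ) (y : ℝ) : Z f L y = ZS L (PrA f L y) := rfl

theorem Z_nonneg (f L : ℕ) (y : ℝ) : 0 ≤ Z f L y := by
  rw [Z_eq, ZS]
  exact tsum_nonneg fun ν => mul_nonneg (mul_nonneg (wt_nonneg ν) (zpow_nonneg zz_pos.le _))
    (PrA_nonneg f L y ν)

theorem Z_le (f L : ℕ) (y : ℝ) : Z f L y ≤ (2 : ℝ) ^ (dl * L) := by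
  rw [Z_eq, ← ZS_one]
  refine ZS_mono _ _ 1 (fun ν => ?_) (fun ν => ?_) fun ν => PrA_le_one f L y ν
  · rw [abs_of_nonneg (PrA_nonneg f L y ν)]
    exact PrA_le_one f L y ν
  · simp

theorem wf_one : wf 1 = 1 := by
  simp [wf]

theorem Sm_one (N : ℕ) : Sm N 1 :=
  ⟨one_ne_zero, fun _ hp h => absurd (Nat.dvd_one.mp h) hp.one_lt.ne'⟩

/-- the term of `f = 1` -/
theorem tsum_ge (N L : ℕ) (y : ℝ) :
    Z 1 L y ≤ ∑' f : ℕ, ind (Sm N f) * wf f * Z f L y := by
  have h0 : ∀ f, 0 ≤ ind (Sm N f) * wf f := fun f => mul_nonneg (ind_nonneg _) (wf_nonneg f)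
  have hs : Summable (fun f : ℕ => ind (Sm N f) * wf f * Z f L y) :=
    Summable.of_nonneg_of_le (fun f => mul_nonneg (h0 f) (Z_nonneg f L y))
      (fun f => mul_le_mul_of_nonneg_left (Z_le f L y) (h0 f))
      ((summable_wf_sm N).mul_right ((2 : ℝ) ^ (dl * L)))
  have h := hs.le_tsum 1 fun f _ => mul_nonneg (h0 f) (Z_nonneg f L y)
  rwa [ind_of (Sm_one N), wf_one, one_mul, one_mul] at h

theorem eps_ge {N L : ℕ} (hN : 1 ≤ N) (hL : G N ≤ L * Real.log 2) :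
    cN N L * Z 1 L (Real.log N) ≤ eps N * (2 : ℝ) ^ (dl * L) := by
  rw [main_identity N L hN hL]
  exact mul_le_mul_of_nonneg_left (tsum_ge N L _) (cN_pos N L).le

theorem xx_tendsto : Tendsto xx atTop atTop := by
  unfold xx
  exact (Real.tendsto_log_atTop.comp (Real.tendsto_log_atTop.comp
    tendsto_natCast_atTop_atTop)).atTop_div_const log2

end PosF

open PosF

theorem AA_lower : ∃ c : ℝ, 0 < c ∧ ∀ᶠ N in atTop, c ≤ AA N := by
  obtain ⟨c1, hc1, L0, hpos⟩ := pos_lower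
  have hci := cinf_pos
  obtain ⟨N0, hN0⟩ := cN_lim (ε := cinf / 2) (by positivity)
  have hl2 := log2
  refine ⟨cinf / 2 * c1 * (2 : ℝ) ^ (-(|dl| * (|al| + 1))) * (Real.log 2 / 2) ^ (3 / 2 : ℝ),
    by positivity, ?_⟩
  have hmer : ∀ᶠ N : ℕ in atTop, G N - Real.log (Real.log N) < Mer + 3 / 2 * Real.log 2 :=
    mer_tendsto.eventually_lt_const (by linarith)
  filter_upwards [hmer, eventually_ge_atTop N0, eventually_ge_atTop 3,
    xx_tendsto.eventually_ge_atTop ((L0 : ℝ) + 3 + 4 * |al|)] with N h1 h2 h3 h4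
  have ha := abs_nonneg al
  have ha1 := le_abs_self al
  have ha2 := neg_abs_le al
  have hL0 : (0 : ℝ) ≤ L0 := Nat.cast_nonneg _
  have hN3 : (3 : ℝ) ≤ N := by exact_mod_cast h3
  have hlogN : 1 < Real.log N := by
    have h5 : Real.log (Real.exp 1) < Real.log 3 :=
      Real.log_lt_log (Real.exp_pos 1) (by have := Real.exp_one_lt_d9; linarith)
    rw [Real.log_exp] at h5
    exact lt_of_lt_of_le h5 (Real.log_le_log (by norm_num) hN3)
  have hlogN0 : 0 < Real.log N := by linarith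
  have hll : 0 < Real.log (Real.log N) := Real.log_pos hlogN
  -- the level
  obtain ⟨L, hLdef⟩ : ∃ L, L = ⌊xx N - al⌋₊ := ⟨_, rfl⟩
  have hL1 : (L : ℝ) ≤ xx N - al := by
    rw [hLdef]
    exact Nat.floor_le (by linarith)
  have hL2 : xx N - al < L + 1 := by
    rw [hLdef]
    exact Nat.lt_floor_add_one _
  have hL3 : L0 ≤ L := by
    rw [hLdef]
    exact Nat.le_floor (by linarith)
  have hxx : xx N * Real.log 2 = Real.log (Real.log N) := by
    unfold xx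
    field_simp
  have hG : G N ≤ L * Real.log 2 := by
    have h5 : (xx N - al - 1) * Real.log 2 ≤ L * Real.log 2 :=
      mul_le_mul_of_nonneg_right (by linarith) hl2.le
    have h6 : (xx N - al - 1) * Real.log 2 =
        Real.log (Real.log N) + Mer + 3 / 2 * Real.log 2 := by
      rw [← hxx]
      unfold al
      field_simp
      ring
    linarith
  have hpow : Real.log N = (2 : ℝ) ^ xx N := by
    rw [Real.rpow_def_of_pos two_pos, mul_comm, hxx, Real.exp_log hlogN0]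
  have hy1 : (2 : ℝ) ^ al * 2 ^ L ≤ Real.log N := by
    rw [hpow, ← Real.rpow_natCast, ← Real.rpow_add two_pos]
    exact Real.rpow_le_rpow_of_exponent_le one_le_two (by linarith)
  have hy2 : Real.log N ≤ (2 : ℝ) ^ (al + 2) * 2 ^ L := by
    rw [hpow, ← Real.rpow_natCast, ← Real.rpow_add two_pos]
    exact Real.rpow_le_rpow_of_exponent_le one_le_two (by linarith)
  have hZ := hpos L hL3 (Real.log N) hy1 hy2
  have hcN : cinf / 2 ≤ cN N L := by
    have h5 := abs_le.mp (hN0 N h2 L hG)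
    linarith [h5.1]
  have he := eps_ge (by omega : 1 ≤ N) hG
  have hL1' : (0 : ℝ) < (L : ℝ) + 1 := by positivity
  have hP : 0 < ((L : ℝ) + 1) ^ (3 / 2 : ℝ) := Real.rpow_pos_of_pos hL1' _
  have h5 : cinf / 2 * (c1 / ((L : ℝ) + 1) ^ (3 / 2 : ℝ)) ≤ eps N * (2 : ℝ) ^ (dl * L) := by
    refine le_trans (mul_le_mul hcN hZ (by positivity) (cN_pos N L).le) he
  -- the normalisation
  have h6 : (Real.log N) ^ dl = (2 : ℝ) ^ (dl * L) * (2 : ℝ) ^ (dl * (xx N - L)) := by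
    rw [← Real.rpow_add two_pos, hpow, ← Real.rpow_mul two_pos.le]
    congr 1
    ring
  have h7 : (2 : ℝ) ^ (-(|dl| * (|al| + 1))) ≤ (2 : ℝ) ^ (dl * (xx N - L)) := by
    refine Real.rpow_le_rpow_of_exponent_le one_le_two ?_
    have h8 : |xx N - L| ≤ |al| + 1 := abs_le.mpr ⟨by linarith, by linarith⟩
    have h9 : |dl * (xx N - L)| ≤ |dl| * (|al| + 1) := by
      rw [abs_mul]
      exact mul_le_mul_of_nonneg_left h8 (abs_nonneg _)
    linarith [(abs_le.mp h9).1]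
  have h8 : (Real.log 2 / 2) ^ (3 / 2 : ℝ) * ((L : ℝ) + 1) ^ (3 / 2 : ℝ) ≤
      (Real.log (Real.log N)) ^ (3 / 2 : ℝ) := by
    rw [← Real.mul_rpow (by positivity) hL1'.le]
    refine Real.rpow_le_rpow (by positivity) ?_ (by norm_num)
    rw [← hxx]
    have h9 : ((L : ℝ) + 1) / 2 ≤ xx N := by linarith
    nlinarith
  unfold AA
  rw [h6]
  have h10 : 0 ≤ eps N * (2 : ℝ) ^ (dl * L) := le_trans (by positivity) h5
  calc cinf / 2 * c1 * (2 : ℝ) ^ (-(|dl| * (|al| + 1))) * (Real.log 2 / 2) ^ (3 / 2 : ℝ)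
      = cinf / 2 * (c1 / ((L : ℝ) + 1) ^ (3 / 2 : ℝ)) * (2 : ℝ) ^ (-(|dl| * (|al| + 1))) *
          ((Real.log 2 / 2) ^ (3 / 2 : ℝ) * ((L : ℝ) + 1) ^ (3 / 2 : ℝ)) := by
        field_simp
    _ ≤ eps N * (2 : ℝ) ^ (dl * L) * (2 : ℝ) ^ (dl * (xx N - L)) *
          (Real.log (Real.log N)) ^ (3 / 2 : ℝ) := by
        refine mul_le_mul (mul_le_mul h5 h7 (by positivity) h10) h8 (by positivity) (by positivity)
    _ = eps N * ((2 : ℝ) ^ (dl * L) * (2 : ℝ) ^ (dl * (xx N - L))) *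
          (Real.log (Real.log N)) ^ (3 / 2 : ℝ) := by ring

end Pool.Agent.EN
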