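import Mathlib
import Pool.Agent.Lib.MP_ec0ede_nt_EN.Defs4
import Pool.Agent.Lib.MP_ec0ede_nt_EN.EpsA
import Pool.Agent.Lib.MP_ec0ede_nt_EN.Lim
import Pool.Agent.Lib.MP_ec0ede_nt_EN.App
import Pool.Agent.Lib.MP_ec0ede_nt_EN.PosF

set_option autoImplicit false

/-!
# MP_ec0ede_nt: the asymptotic formula for the density of the integers with a divisor in (N/2, N]

`IsDens N e` says that `e` is the natural density of the integers with a divisor in `(N/2, N]`.
The theorem: these densities are asymptotic to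
`(log N)^(-dl) (log log N)^(-3/2) Φ(log log N / log 2)` with `dl = 1 - (1 + log log 2) / log 2` and
a continuous positive function `Φ` of period `1`, which is the limit (uniform on `[al, al + 2]`) of
the explicit functions `Th K s c1 c2 F0`.
-/

noncomputable section

namespace Pool.Agent.Lib.MP_ec0ede_nt_EN.AsymptoticResult

open Real Filter Topology Finset Pool.Agent.EN

theorem result : ∃ Φ : ℝ → ℝ, Continuous Φ ∧ (∀ x, Φ (x + 1) = Φ x) ∧ (∀ x, 0 < Φ x) ∧
    (∀ e : ℝ, 0 < e → ∃ c0 : ℕ, ∀ c1 ≥ c0, ∀ c2 ≥ c0, ∀ F0 ≥ c0, ∃ K0 : ℕ, ∀ K ≥ K0, ∀ s ≥ K0,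
      ∀ t ∈ Set.Icc al (al + 2), |Φ t - Th K s c1 c2 F0 t| ≤ e) ∧
    ∀ ε : ℕ → ℝ, (∀ N, IsDens N (ε N)) →
      Tendsto (fun N : ℕ => ε N / ((Real.log N) ^ (-dl) * (Real.log (Real.log N)) ^ (-3 / 2 : ℝ) *
        Φ (Real.log (Real.log N) / Real.log 2))) atTop (𝓝 1) := by
  obtain ⟨Φ, hc, hp, hl, ha, hb⟩ := lim_abs AA al (fun ε hε => by
    obtain ⟨c0, h⟩ := app hε
    obtain ⟨K0, h'⟩ := h c0 le_rfl c0 le_rfl c0 le_rfl
    exact ⟨_, h' K0 le_rfl K0 le_rfl⟩)
  obtain ⟨c, hc0, hcA⟩ := AA_lower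
  have hpos : ∀ x, c ≤ Φ x := hb c hcA
  refine ⟨Φ, hc, hp, fun x => lt_of_lt_of_le hc0 (hpos x), ?_, ?_⟩
  · intro e he
    obtain ⟨c0, h⟩ := app he
    refine ⟨c0, fun c1 h1 c2 h2 F0 h3 => ?_⟩
    obtain ⟨K0, h'⟩ := h c1 h1 c2 h2 F0 h3
    exact ⟨K0, fun K hK s hs t ht => ha _ _ (h' K hK s hs) t ht⟩
  · intro e he
    have he' : ∀ N, e N = eps N := fun N => isDens_unique (he N) (eps_isDens N)
    have hll : Tendsto (fun N : ℕ => Real.log (Real.log N)) atTop atTop :=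
      Real.tendsto_log_atTop.comp (Real.tendsto_log_atTop.comp tendsto_natCast_atTop_atTop)
    have hl1 : Tendsto (fun N : ℕ => Real.log N) atTop atTop :=
      Real.tendsto_log_atTop.comp tendsto_natCast_atTop_atTop
    have key : Tendsto (fun N : ℕ => AA N / Φ (xx N)) atTop (𝓝 1) := by
      have h1 : Tendsto (fun N : ℕ => 1 + (AA N - Φ (xx N)) / Φ (xx N)) atTop (𝓝 (1 + 0)) := by
        refine tendsto_const_nhds.add ?_
        rw [tendsto_zero_iff_abs_tendsto_zero]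
        have h2 : Tendsto (fun N : ℕ => |AA N - Φ (xx N)| / c) atTop (𝓝 0) := by
          have := (tendsto_zero_iff_abs_tendsto_zero _).1 hl
          simpa using this.div_const c
        refine squeeze_zero (fun N => abs_nonneg _) (fun N => ?_) h2
        have hx := hpos (xx N)
        show |(AA N - Φ (xx N)) / Φ (xx N)| ≤ |AA N - Φ (xx N)| / c
        rw [abs_div]
        have h3 : c ≤ |Φ (xx N)| := le_trans hx (le_abs_self _)
        exact div_le_div_of_nonneg_left (abs_nonneg _) hc0 h3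
      rw [add_zero] at h1
      refine h1.congr (fun N => ?_)
      have hx : Φ (xx N) ≠ 0 := (lt_of_lt_of_le hc0 (hpos _)).ne'
      field_simp
      ring
    refine key.congr' ?_
    filter_upwards [hll.eventually_gt_atTop 0, hl1.eventually_gt_atTop 0] with N h1 h2
    have hx : Φ (xx N) ≠ 0 := (lt_of_lt_of_le hc0 (hpos _)).ne'
    have e1 : (Real.log N) ^ (-dl) = ((Real.log N) ^ dl)⁻¹ := Real.rpow_neg h2.le _
    have e2 : (Real.log (Real.log N)) ^ (-3 / 2 : ℝ) =
        ((Real.log (Real.log N)) ^ (3 / 2 : ℝ))⁻¹ := by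
      rw [show (-3 / 2 : ℝ) = -(3 / 2) by ring]; exact Real.rpow_neg h1.le _
    rw [he' N, e1, e2]
    have p1 : 0 < (Real.log N) ^ dl := Real.rpow_pos_of_pos h2 _
    have p2 : 0 < (Real.log (Real.log N)) ^ (3 / 2 : ℝ) := Real.rpow_pos_of_pos h1 _
    have hxx : Real.log (Real.log N) / Real.log 2 = xx N := rfl
    rw [hxx]
    unfold AA
    field_simp

end Pool.Agent.Lib.MP_ec0ede_nt_EN.AsymptoticResult
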