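import Mathlib
import Pool.Agent.Lib.MP_ec0ede_nt_EN.Defs2
import Pool.Agent.Lib.MP_ec0ede_nt_EN.ExB

set_option autoImplicit false

/-!
# MP_ec0ede_nt, project EN, module Gen: tuples of sets with private indices
-/

noncomputable section

namespace Pool.Agent.EN

open Real Filter Topology Finset

namespace Gen

/-- a product of numbers close to `lam` is close to a power of `lam` -/
theorem prod_near {α : Type} (s : Finset α) (x : α → ℝ) (lam ε : ℝ) (hl : 0 ≤ lam) (hε : 0 ≤ ε)
    (h : ∀ a ∈ s, |x a - lam| ≤ ε) :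
    |∏ a ∈ s, x a - lam ^ s.card| ≤ (lam + ε) ^ s.card - lam ^ s.card := by
  classical
  induction s using Finset.induction_on with
  | empty => simp
  | insert b s hb ih =>
    have ih' := ih fun a ha => h a (Finset.mem_insert_of_mem ha)
    have h1 := h b (Finset.mem_insert_self b s)
    rw [Finset.prod_insert hb, Finset.card_insert_of_notMem hb]
    have h2 : |x b| ≤ lam + ε := by
      have h3 : |x b| ≤ |x b - lam| + |lam| := by
        have h4 := abs_add_le (x b - lam) lam
        rwa [sub_add_cancel] at h4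
      rw [abs_of_nonneg hl] at h3
      linarith
    have h5 : x b * ∏ a ∈ s, x a - lam ^ (s.card + 1) =
        x b * (∏ a ∈ s, x a - lam ^ s.card) + (x b - lam) * lam ^ s.card := by
      rw [pow_succ]
      ring
    have h6 : 0 ≤ lam ^ s.card := pow_nonneg hl _
    rw [h5]
    calc |x b * (∏ a ∈ s, x a - lam ^ s.card) + (x b - lam) * lam ^ s.card|
        ≤ |x b| * |∏ a ∈ s, x a - lam ^ s.card| + |x b - lam| * lam ^ s.card := by
          refine (abs_add_le _ _).trans (le_of_eq ?_)
          rw [abs_mul, abs_mul, abs_of_nonneg h6]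
      _ ≤ (lam + ε) * ((lam + ε) ^ s.card - lam ^ s.card) + ε * lam ^ s.card :=
          add_le_add (mul_le_mul h2 ih' (abs_nonneg _) (by linarith))
            (mul_le_mul_of_nonneg_right h1 h6)
      _ = (lam + ε) ^ (s.card + 1) - lam ^ (s.card + 1) := by
          rw [pow_succ, pow_succ]
          ring

end Gen

theorem gen_priv {ι E : Type} [Fintype ι] [DecidableEq ι] [Fintype E] {k : ℕ} (P : Finset ℕ)
    (m : ι → ℕ → ℝ) (hm : ∀ i p, 0 ≤ m i p) (h1 : ∀ i, ∑ p ∈ P, m i p = 1) (cm : ℝ)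
    (hc : ∀ τ : ι → ℕ, (∀ i, m i (τ i) ≠ 0) → ∑ i, Real.log (τ i) ≤ cm) (z : E → ℝ)
    (T : Set ℝ) (v : ι → Fin k → Bool) (pr : Fin k → ι)
    (hpr : ∀ a b, v (pr a) b = true ↔ b = a) (lam ε : ℝ) (hl : 0 ≤ lam) (hε : 0 ≤ ε)
    (hflat : ∀ a, ∀ c : ℝ, 0 ≤ c → c ≤ cm →
      |∑ e, ∑ p ∈ P, m (pr a) p * ind (z e - c - Real.log p ∈ T) - lam| ≤ ε) :
    |Ex P m (fun τ => ∏ a, ∑ e, ind (z e - sv τ v a ∈ T)) - lam ^ k| ≤
      (lam + ε) ^ k - lam ^ k := by
  classical
  -- `pr` is injective
  have hinj : Function.Injective pr := by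
    intro a b hab
    have h2 := (hpr a a).2 rfl
    rw [hab] at h2
    exact (hpr b a).1 h2
  set J : Finset ι := Finset.univ.image pr with hJ
  have hprJ : ∀ a, pr a ∈ J := fun a => Finset.mem_image_of_mem _ (Finset.mem_univ a)
  -- the contribution of the other coordinates
  set c : (ι → ℕ) → Fin k → ℝ := fun τ a =>
    ∑ i, if v i a = true ∧ i ∉ J then Real.log (τ i) else 0 with hcdef
  have hsv : ∀ (τ σ : ι → ℕ) (a : Fin k), sv (fun i => if i ∈ J then σ i else τ i) v a =
      c τ a + Real.log (σ (pr a)) := by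
    intro τ σ a
    have h3 : ∑ i, (if v i a = true ∧ i ∈ J then Real.log (σ i) else 0) =
        Real.log (σ (pr a)) := by
      rw [Finset.sum_eq_single (pr a)]
      · rw [if_pos ⟨(hpr a a).2 rfl, hprJ a⟩]
      · intro i _ hi
        rw [if_neg]
        rintro ⟨h4, h5⟩
        rw [hJ, Finset.mem_image] at h5
        obtain ⟨b, _, rfl⟩ := h5
        exact hi (congrArg pr ((hpr b a).1 h4).symm)
      · intro h4
        exact absurd (Finset.mem_univ _) h4
    rw [← h3, hcdef]
    simp only [sv]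
    rw [← Finset.sum_add_distrib]
    refine Finset.sum_congr rfl fun i _ => ?_
    by_cases hv : v i a = true
    · by_cases hi : i ∈ J
      · rw [if_pos hv, if_pos hi, if_neg (fun h => h.2 hi), if_pos ⟨hv, hi⟩, zero_add]
      · rw [if_pos hv, if_neg hi, if_pos ⟨hv, hi⟩, if_neg (fun h => hi h.2), add_zero]
    · rw [if_neg hv, if_neg (fun h => hv h.1), if_neg (fun h => hv h.1), add_zero]
  -- bounds for `c`
  have hlog : ∀ n : ℕ, 0 ≤ Real.log n := fun n => Real.log_natCast_nonneg n
  have hc0 : ∀ τ a, 0 ≤ c τ a := by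
    intro τ a
    rw [hcdef]
    refine Finset.sum_nonneg fun i _ => ?_
    split
    · exact hlog _
    · exact le_rfl
  have hc1 : ∀ τ : ι → ℕ, (∀ i, τ i ∈ P ∧ m i (τ i) ≠ 0) → ∀ a, c τ a ≤ cm := by
    intro τ hτ a
    refine le_trans ?_ (hc τ fun i => (hτ i).2)
    rw [hcdef]
    refine Finset.sum_le_sum fun i _ => ?_
    split
    · exact le_rfl
    · exact hlog _
  -- the inner expectation
  set g : (ι → ℕ) → Fin k → ℕ → ℝ := fun τ a p => ∑ e, ind (z e - (c τ a + Real.log p) ∈ T)
    with hg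
  set x : (ι → ℕ) → Fin k → ℝ := fun τ a => ∑ p ∈ P, m (pr a) p * g τ a p with hx
  have hinner : ∀ τ : ι → ℕ,
      Ex P m (fun σ => (fun τ' : ι → ℕ => ∏ a, ∑ e, ind (z e - sv τ' v a ∈ T))
        (fun i => if i ∈ J then σ i else τ i)) = ∏ a, x τ a := by
    intro τ
    have h2 : (fun σ : ι → ℕ => (fun τ' : ι → ℕ => ∏ a, ∑ e, ind (z e - sv τ' v a ∈ T))
        (fun i => if i ∈ J then σ i else τ i)) =
        fun σ => ∏ i, (fun (i : ι) (p : ℕ) => ∏ a, if pr a = i then g τ a p else 1) i (σ i) := by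
      funext σ
      show ∏ a, ∑ e, ind (z e - sv (fun i => if i ∈ J then σ i else τ i) v a ∈ T) =
        ∏ i, ∏ a, if pr a = i then g τ a (σ i) else 1
      rw [Finset.prod_comm]
      refine Finset.prod_congr rfl fun a _ => ?_
      rw [Finset.prod_ite_eq, if_pos (Finset.mem_univ _), hsv τ σ a]
    rw [h2, Ex_prod P m (fun (i : ι) (p : ℕ) => ∏ a, if pr a = i then g τ a p else 1)]
    have h3 : ∀ i, ∑ p ∈ P, m i p * (fun (i : ι) (p : ℕ) => ∏ a, if pr a = i then g τ a p else 1) i p
        = ∏ a, if pr a = i then x τ a else 1 := by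
      intro i
      show ∑ p ∈ P, m i p * (∏ a, if pr a = i then g τ a p else 1) = _
      by_cases hi : ∃ b, pr b = i
      · obtain ⟨b, rfl⟩ := hi
        have h4 : ∀ y : Fin k → ℝ, (∏ a, if pr a = pr b then y a else 1) = y b := by
          intro y
          rw [Finset.prod_eq_single b]
          · rw [if_pos rfl]
          · intro a _ hab
            rw [if_neg fun h => hab (hinj h)]
          · intro h
            exact absurd (Finset.mem_univ _) h
        rw [h4 (fun a => x τ a), hx]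
        exact Finset.sum_congr rfl fun p _ => by rw [h4 (fun a => g τ a p)]
      · push Not at hi
        have h4 : ∀ y : Fin k → ℝ, (∏ a, if pr a = i then y a else 1) = 1 := fun y =>
          Finset.prod_eq_one fun a _ => if_neg (hi a)
        rw [h4]
        refine Eq.trans (Finset.sum_congr rfl fun p _ => ?_) (h1 i)
        rw [h4, mul_one]
    rw [Finset.prod_congr rfl fun i _ => h3 i, Finset.prod_comm]
    refine Finset.prod_congr rfl fun a _ => ?_
    rw [Finset.prod_ite_eq, if_pos (Finset.mem_univ _)]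
  -- each factor is close to `lam`
  have hxl : ∀ τ : ι → ℕ, (∀ i, τ i ∈ P ∧ m i (τ i) ≠ 0) → ∀ a, |x τ a - lam| ≤ ε := by
    intro τ hτ a
    have h2 : x τ a = ∑ e, ∑ p ∈ P, m (pr a) p * ind (z e - c τ a - Real.log p ∈ T) := by
      rw [hx, Finset.sum_comm]
      refine Finset.sum_congr rfl fun p _ => ?_
      rw [hg, Finset.mul_sum]
      refine Finset.sum_congr rfl fun e _ => ?_
      rw [sub_sub]
    rw [h2]
    exact hflat a (c τ a) (hc0 τ a) (hc1 τ hτ a)
  rw [Ex_pivots P m h1 J]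
  rw [show (fun τ : ι → ℕ => Ex P m (fun σ =>
      (fun τ' : ι → ℕ => ∏ a, ∑ e, ind (z e - sv τ' v a ∈ T))
        (fun i => if i ∈ J then σ i else τ i))) = fun τ => ∏ a, x τ a from funext hinner]
  have h5 : Ex P m (fun τ => ∏ a, x τ a) - lam ^ k =
      Ex P m (fun τ => ∏ a, x τ a - lam ^ k) := by
    rw [Ex_sub P m (fun τ => ∏ a, x τ a) (fun _ => lam ^ k), Ex_const P m h1]
  rw [h5]
  refine (Ex_abs_le P m hm _).trans ?_
  refine (Ex_mono P m hm _ (fun _ => (lam + ε) ^ k - lam ^ k) fun τ hτ => ?_).trans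
    (le_of_eq (Ex_const P m h1 _))
  have h6 := Gen.prod_near Finset.univ (x τ) lam ε hl hε fun a _ => hxl τ hτ a
  rw [Finset.card_univ, Fintype.card_fin] at h6
  exact h6

end Pool.Agent.EN
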