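import Mathlib
import Pool.Agent.Lib.MP_ec0ede_nt_EN.Defs4
import Pool.Agent.Lib.MP_ec0ede_nt_EN.Gen

set_option autoImplicit false

/-!
# MP_ec0ede_nt, project EN, module GenK: the generic moment
-/

noncomputable section

namespace Pool.Agent.EN

open Real Filter Topology Finset

namespace GenK

/-- the unit vector number `a` -/
def un {k : ℕ} (a b : Fin k) : Bool := decide (b = a)

theorem un_iff {k : ℕ} (x : Fin k → Bool) (a : Fin k) :
    (∀ b, x b = true ↔ b = a) ↔ x = un a := by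
  constructor
  · intro h
    funext b
    unfold un
    by_cases hb : b = a
    · rw [(h b).mpr hb, decide_eq_true hb]
    · have h2 : x b ≠ true := fun h3 => hb ((h b).mp h3)
      rw [decide_eq_false hb]
      simpa using h2
  · intro h b
    rw [h]
    unfold un
    simp

open Classical in
theorem count_one {κ : Type} [Fintype κ] [DecidableEq κ] (k : ℕ) (blk : Finset κ) (a : Fin k) :
    ((univ.filter fun v : κ → Fin k → Bool => ∀ i ∈ blk, v i ≠ un a).card : ℝ) =
      2 ^ (k * Fintype.card κ) * (1 - (1 / 2) ^ k) ^ blk.card := by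
  have e : (univ.filter fun v : κ → Fin k → Bool => ∀ i ∈ blk, v i ≠ un a) =
      Fintype.piFinset (fun i : κ => if i ∈ blk then univ.erase (un a) else univ) := by
    ext v
    rw [Finset.mem_filter, Fintype.mem_piFinset]
    constructor
    · rintro ⟨_, h⟩ i
      split_ifs with hi
      · exact Finset.mem_erase.mpr ⟨h i hi, Finset.mem_univ _⟩
      · exact Finset.mem_univ _
    · intro h
      refine ⟨Finset.mem_univ _, ?_⟩
      intro i hi
      have := h i
      rw [if_pos hi] at this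
      exact (Finset.mem_erase.mp this).1
  have hc : Fintype.card (Fin k → Bool) = 2 ^ k := by simp
  have hp : (1 : ℝ) ≤ 2 ^ k := one_le_pow₀ (by norm_num)
  have hi : ∀ i : κ, (((if i ∈ blk then univ.erase (un a) else univ : Finset (Fin k → Bool)).card
      : ℕ) : ℝ) = 2 ^ k * (if i ∈ blk then (1 - (1 / 2) ^ k) else 1) := by
    intro i
    split_ifs with h
    · rw [Finset.card_erase_of_mem (Finset.mem_univ _), Finset.card_univ, hc,
        Nat.cast_sub (Nat.one_le_two_pow)]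
      push_cast
      rw [mul_sub, mul_one, ← mul_pow]
      norm_num
    · rw [Finset.card_univ, hc]
      push_cast
      ring
  rw [e, Fintype.card_piFinset, Nat.cast_prod, Finset.prod_congr rfl (fun i _ => hi i),
    Finset.prod_mul_distrib, Finset.prod_const, Finset.card_univ, pow_mul,
    Finset.prod_ite_mem, Finset.univ_inter, Finset.prod_const]

open Classical in
theorem count {κ : Type} [Fintype κ] [DecidableEq κ] (k : ℕ) (blk : Finset κ) :
    ((univ.filter fun v : κ → Fin k → Bool => ¬ Priv v blk).card : ℝ) ≤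
      2 ^ (k * Fintype.card κ) * (k * (1 - (1 / 2) ^ k) ^ blk.card) := by
  have hsub : (univ.filter fun v : κ → Fin k → Bool => ¬ Priv v blk) ⊆
      (univ : Finset (Fin k)).biUnion
        (fun a => univ.filter fun v : κ → Fin k → Bool => ∀ i ∈ blk, v i ≠ un a) := by
    intro v hv
    rw [Finset.mem_filter] at hv
    unfold Priv at hv
    have h := hv.2
    push Not at h
    obtain ⟨a, ha⟩ := h
    rw [Finset.mem_biUnion]
    refine ⟨a, Finset.mem_univ _, ?_⟩
    rw [Finset.mem_filter]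
    refine ⟨Finset.mem_univ _, ?_⟩
    intro i hi hva
    obtain ⟨b, hb⟩ := ha i hi
    have := (un_iff (v i) a).mpr hva b
    tauto
  have h1 := (Finset.card_le_card hsub).trans Finset.card_biUnion_le
  have h2 : ((univ.filter fun v : κ → Fin k → Bool => ¬ Priv v blk).card : ℝ) ≤
      ∑ a : Fin k, ((univ.filter fun v : κ → Fin k → Bool => ∀ i ∈ blk, v i ≠ un a).card : ℝ) := by
    exact_mod_cast h1
  refine h2.trans (le_of_eq ?_)
  rw [Finset.sum_congr rfl (fun a _ => count_one k blk a), Finset.sum_const, Finset.card_univ,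
    Fintype.card_fin, nsmul_eq_mul]
  ring

theorem Ex_sum {κ V : Type} [Fintype κ] [DecidableEq κ] (P : Finset ℕ) (m : κ → ℕ → ℝ)
    (S : Finset V) (F : V → (κ → ℕ) → ℝ) :
    Ex P m (fun τ => ∑ v ∈ S, F v τ) = ∑ v ∈ S, Ex P m (F v) := by
  unfold Ex
  rw [Finset.sum_comm]
  refine Finset.sum_congr rfl fun τ _ => ?_
  rw [Finset.mul_sum]

end GenK

open Classical in
theorem count_priv {κ : Type} [Fintype κ] (k : ℕ) (blk : Finset κ) :
    ((univ.filter fun v : κ → Fin k → Bool => ¬ Priv v blk).card : ℝ) ≤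
      2 ^ (k * Fintype.card κ) * (k * (1 - (1 / 2) ^ k) ^ blk.card) :=
  GenK.count k blk

open Classical in
theorem gen_mom {κ E : Type} [Fintype κ] [DecidableEq κ] [Fintype E] (k : ℕ) (P : Finset ℕ)
    (m : κ → ℕ → ℝ) (hm : ∀ i p, 0 ≤ m i p) (h1 : ∀ i, ∑ p ∈ P, m i p = 1) (cm : ℝ)
    (hc : ∀ τ : κ → ℕ, (∀ i, m i (τ i) ≠ 0) → ∑ i, Real.log (τ i) ≤ cm) (z : E → ℝ)
    (T : Set ℝ) (blk : Finset κ) (lam ε : ℝ) (hl : 0 ≤ lam) (hε : 0 ≤ ε)
    (hflat : ∀ i ∈ blk, ∀ c : ℝ, 0 ≤ c → c ≤ cm →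
      |∑ e, ∑ p ∈ P, m i p * ind (z e - c - Real.log p ∈ T) - lam| ≤ ε) :
    |Ex P m (fun τ => ∑ v ∈ univ.filter (fun v : κ → Fin k → Bool => Priv v blk),
        ∏ a, ∑ e, ind (z e - sv τ v a ∈ T)) - (2 ^ Fintype.card κ * lam) ^ k| ≤
      (2 ^ Fintype.card κ * (lam + ε)) ^ k - (2 ^ Fintype.card κ * lam) ^ k +
        (2 ^ Fintype.card κ * lam) ^ k * (k * (1 - (1 / 2) ^ k) ^ blk.card) := by
  set S : Finset (κ → Fin k → Bool) := univ.filter (fun v => Priv v blk) with hS
  set N : ℝ := 2 ^ (k * Fintype.card κ) with hN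
  have hNN : ∀ x : ℝ, (2 ^ Fintype.card κ * x) ^ k = N * x ^ k := by
    intro x
    rw [mul_pow, hN, ← pow_mul, mul_comm (Fintype.card κ) k]
  have hcard : (S.card : ℝ) + ((univ.filter fun v : κ → Fin k → Bool => ¬ Priv v blk).card : ℝ)
      = N := by
    have h2 := Finset.card_filter_add_card_filter_not (s := (univ : Finset (κ → Fin k → Bool)))
      (fun v => Priv v blk)
    have h3 : (univ : Finset (κ → Fin k → Bool)).card = 2 ^ (k * Fintype.card κ) := by
      rw [Finset.card_univ]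
      simp [← pow_mul]
    rw [h3] at h2
    rw [hN, hS]
    exact_mod_cast h2
  have hcount := GenK.count (κ := κ) k blk
  rw [← hN] at hcount
  rw [GenK.Ex_sum, hNN, hNN]
  have hterm : ∀ v ∈ S, |Ex P m (fun τ => ∏ a, ∑ e, ind (z e - sv τ v a ∈ T)) - lam ^ k| ≤
      (lam + ε) ^ k - lam ^ k := by
    intro v hv
    have hP : Priv v blk := (Finset.mem_filter.mp hv).2
    choose pr hpr1 hpr2 using hP
    exact gen_priv P m hm h1 cm hc z T v pr hpr2 lam ε hl hε (fun a => hflat (pr a) (hpr1 a))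
  have hd : 0 ≤ (lam + ε) ^ k - lam ^ k := by
    rw [sub_nonneg]
    exact pow_le_pow_left₀ hl (by linarith) k
  have hlk : 0 ≤ lam ^ k := pow_nonneg hl k
  have hSN : (S.card : ℝ) ≤ N := by
    rw [← hcard]
    have : (0:ℝ) ≤ ((univ.filter fun v : κ → Fin k → Bool => ¬ Priv v blk).card : ℝ) :=
      Nat.cast_nonneg _
    linarith
  have h4 : ∑ v ∈ S, Ex P m (fun τ => ∏ a, ∑ e, ind (z e - sv τ v a ∈ T)) - N * lam ^ k =
      ∑ v ∈ S, (Ex P m (fun τ => ∏ a, ∑ e, ind (z e - sv τ v a ∈ T)) - lam ^ k) -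
        (N - S.card) * lam ^ k := by
    rw [Finset.sum_sub_distrib, Finset.sum_const, nsmul_eq_mul]
    ring
  rw [h4]
  have h5 : |∑ v ∈ S, (Ex P m (fun τ => ∏ a, ∑ e, ind (z e - sv τ v a ∈ T)) - lam ^ k)| ≤
      N * ((lam + ε) ^ k - lam ^ k) := by
    calc _ ≤ ∑ v ∈ S, |Ex P m (fun τ => ∏ a, ∑ e, ind (z e - sv τ v a ∈ T)) - lam ^ k| :=
          Finset.abs_sum_le_sum_abs _ _
      _ ≤ ∑ v ∈ S, ((lam + ε) ^ k - lam ^ k) := Finset.sum_le_sum hterm
      _ = S.card * ((lam + ε) ^ k - lam ^ k) := by rw [Finset.sum_const, nsmul_eq_mul]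
      _ ≤ N * ((lam + ε) ^ k - lam ^ k) := mul_le_mul_of_nonneg_right hSN hd
  have h6 : N - S.card ≤ N * (k * (1 - (1 / 2) ^ k) ^ blk.card) := by
    rw [← hcard] at hcount ⊢
    linarith
  have h7 : |(N - S.card) * lam ^ k| ≤ N * lam ^ k * (k * (1 - (1 / 2) ^ k) ^ blk.card) := by
    rw [abs_of_nonneg (mul_nonneg (by linarith) hlk)]
    calc (N - S.card) * lam ^ k ≤ (N * (k * (1 - (1 / 2) ^ k) ^ blk.card)) * lam ^ k :=
          mul_le_mul_of_nonneg_right h6 hlk
      _ = _ := by ring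
  calc _ ≤ |∑ v ∈ S, (Ex P m (fun τ => ∏ a, ∑ e, ind (z e - sv τ v a ∈ T)) - lam ^ k)| +
        |(N - S.card) * lam ^ k| := abs_sub _ _
    _ ≤ _ := by linarith

end Pool.Agent.EN
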