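import Mathlib
import Pool.Agent.Lib.MP_ec0ede_nt_EN.Defs4
import Pool.Agent.Lib.MP_ec0ede_nt_EN.GenK
import Pool.Agent.Lib.MP_ec0ede_nt_EN.Bonf
import Pool.Agent.Lib.MP_ec0ede_nt_EN.ExB

set_option autoImplicit false

/-!
# MP_ec0ede_nt, project EN, module KeyM: the probability of no hit, in terms of the regularity of
the high levels
-/

noncomputable section

namespace Pool.Agent.EN

open Real Filter Topology Finset

namespace KeyM

theorem ind_forall {α : Type} [Fintype α] (p : α → Prop) : ind (∀ a, p a) = ∏ a, ind (p a) := by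
  classical
  by_cases h : ∀ a, p a
  · rw [ind_of h]
    exact (Finset.prod_eq_one fun a _ => ind_of (h a)).symm
  · rw [ind_not_of h]
    push Not at h
    obtain ⟨a, ha⟩ := h
    exact (Finset.prod_eq_zero (Finset.mem_univ a) (ind_not_of ha)).symm

/-- families of subsets as systems of vectors -/
def famE (ι : Type) [Fintype ι] [DecidableEq ι] (k : ℕ) :
    (Fin k → Finset ι) ≃ (ι → Fin k → Bool) where
  toFun S i a := decide (i ∈ S a)
  invFun u a := univ.filter fun i => u i a = true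
  left_inv S := by
    funext a
    ext i
    simp
  right_inv u := by
    funext i a
    simp

theorem sv_famE {ι : Type} [Fintype ι] [DecidableEq ι] {k : ℕ} (τ : ι → ℕ)
    (S : Fin k → Finset ι) (a : Fin k) : sv τ (famE ι k S) a = sz τ (S a) := by
  unfold sv sz famE
  simp only [Equiv.coe_fn_mk, decide_eq_true_eq]
  rw [← Finset.sum_filter]
  congr 1
  ext i
  simp

theorem sv_elim {κ ι : Type} [Fintype κ] [Fintype ι] {k : ℕ}
    (σ : κ → ℕ) (τ : ι → ℕ) (v : κ → Fin k → Bool) (u : ι → Fin k → Bool) (a : Fin k) :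
    sv (Sum.elim σ τ) (Sum.elim v u) a = sv σ v a + sv τ u a := by
  unfold sv
  rw [Fintype.sum_sum_type]
  rfl

theorem Ex_swap {κ ι : Type} [Fintype κ] [DecidableEq κ] [Fintype ι] [DecidableEq ι]
    (P : Finset ℕ) (mB : κ → ℕ → ℝ) (mA : ι → ℕ → ℝ) (F : (κ → ℕ) → (ι → ℕ) → ℝ) :
    Ex P mB (fun σ => Ex P mA (fun τ => F σ τ)) =
      Ex P mA (fun τ => Ex P mB (fun σ => F σ τ)) := by
  unfold Ex
  simp only [Finset.mul_sum]
  rw [Finset.sum_comm]
  refine Finset.sum_congr rfl fun τ _ => Finset.sum_congr rfl fun σ _ => ?_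
  ring

theorem pow_sub_mono {x y ε : ℝ} (hx : 0 ≤ x) (hxy : x ≤ y) (hε : 0 ≤ ε) (k : ℕ) :
    (x + ε) ^ k - x ^ k ≤ (y + ε) ^ k - y ^ k := by
  induction k with
  | zero => simp
  | succ k ih =>
    have h1 : (x + ε) ^ (k + 1) - x ^ (k + 1) = (x + ε) * ((x + ε) ^ k - x ^ k) + ε * x ^ k := by
      ring
    have h2 : (y + ε) ^ (k + 1) - y ^ (k + 1) = (y + ε) * ((y + ε) ^ k - y ^ k) + ε * y ^ k := by
      ring
    rw [h1, h2]
    have h3 : x ^ k ≤ (x + ε) ^ k := pow_le_pow_left₀ hx (by linarith) k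
    have h4 : x ^ k ≤ y ^ k := pow_le_pow_left₀ hx hxy k
    have h5 : (x + ε) * ((x + ε) ^ k - x ^ k) ≤ (y + ε) * ((y + ε) ^ k - y ^ k) :=
      mul_le_mul (by linarith) ih (by linarith) (by linarith)
    have h6 : ε * x ^ k ≤ ε * y ^ k := mul_le_mul_of_nonneg_left h4 hε
    linarith

/-- private elements make the sets nonempty and distinct -/
theorem dist_of_priv {ι : Type} {k : ℕ} {v : ι → Fin k → Bool} {B : Finset ι} (h : Priv v B) :
    Dist v := by
  constructor
  · intro a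
    obtain ⟨i, -, hi⟩ := h a
    exact ⟨i, (hi a).2 rfl⟩
  · intro a b hab
    obtain ⟨i, -, hi⟩ := h a
    refine ⟨i, fun he => hab ?_⟩
    have h1 : v i a = true := (hi a).2 rfl
    rw [he] at h1
    exact ((hi b).1 h1).symm

theorem priv_elim {κ ι : Type} {k : ℕ} (v : κ → Fin k → Bool) (u : ι → Fin k → Bool)
    (blk : Finset κ) :
    Priv (Sum.elim v u) (blk.map Function.Embedding.inl) ↔ Priv v blk := by
  unfold Priv
  refine forall_congr' fun a => ?_
  constructor
  · rintro ⟨i, hi, h⟩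
    rw [Finset.mem_map] at hi
    obtain ⟨j, hj, rfl⟩ := hi
    exact ⟨j, hj, h⟩
  · rintro ⟨j, hj, h⟩
    exact ⟨Sum.inl j, Finset.mem_map_of_mem _ hj, h⟩

open Classical in
/-- the factorial moments, split -/
theorem choose_split {κ ι : Type} [Fintype κ] [DecidableEq κ] [Fintype ι] [DecidableEq ι]
    (T : Set ℝ) (y : ℝ) (hy : y ∉ T) (σ : κ → ℕ) (τ : ι → ℕ) (k : ℕ) (blk : Finset κ)
    (hsplit : ∀ v : κ → Fin k → Bool,
      ∑ u : ι → Fin k → Bool, ind (∀ a, y - sv (Sum.elim σ τ) (Sum.elim v u) a ∈ T) =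
      ∏ a, ∑ S : Finset ι, ind (y - sz τ S - sv σ v a ∈ T)) :
    ((Wn T y (Sum.elim σ τ)).choose k : ℝ) * k.factorial =
      ∑ v ∈ univ.filter (fun v : κ → Fin k → Bool => Priv v blk),
        ∏ a, ∑ S : Finset ι, ind (y - sz τ S - sv σ v a ∈ T) +
      ∑ v ∈ univ.filter (fun v : κ ⊕ ι → Fin k → Bool =>
          Dist v ∧ ¬ Priv v (blk.map Function.Embedding.inl)),
        ind (∀ a, y - sv (Sum.elim σ τ) v a ∈ T) := by
  rw [choose_Wn T y _ k hy, ← Finset.sum_filter_add_sum_filter_not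
    (univ.filter fun v : κ ⊕ ι → Fin k → Bool => Dist v)
    (fun v => Priv v (blk.map Function.Embedding.inl)), Finset.filter_filter,
    Finset.filter_filter]
  congr 1
  have h1 : (univ.filter fun v : κ ⊕ ι → Fin k → Bool =>
      Dist v ∧ Priv v (blk.map Function.Embedding.inl)) =
      univ.filter fun v : κ ⊕ ι → Fin k → Bool => Priv v (blk.map Function.Embedding.inl) := by
    refine Finset.filter_congr fun v _ => ⟨fun h => h.2, fun h => ⟨dist_of_priv h, h⟩⟩
  rw [h1, Finset.sum_filter, Finset.sum_filter]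
  rw [← Equiv.sum_comp (Equiv.sumArrowEquivProdArrow κ ι (Fin k → Bool)).symm,
    Fintype.sum_prod_type]
  refine Finset.sum_congr rfl fun v _ => ?_
  have h2 : ∀ u : ι → Fin k → Bool,
      (Equiv.sumArrowEquivProdArrow κ ι (Fin k → Bool)).symm (v, u) = Sum.elim v u := fun u => rfl
  simp only [h2, priv_elim]
  by_cases hp : Priv v blk
  · simp only [if_pos hp]
    exact hsplit v
  · simp only [if_neg hp, Finset.sum_const_zero]

end KeyM

/-- the tuples of the joint index type with a fixed part over the low levels -/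
theorem split_v {κ ι : Type} [Fintype κ] [DecidableEq κ] [Fintype ι] [DecidableEq ι] (k : ℕ)
    (T : Set ℝ) (y : ℝ) (σ : κ → ℕ) (τ : ι → ℕ) (v : κ → Fin k → Bool) :
    ∑ u : ι → Fin k → Bool, ind (∀ a, y - sv (Sum.elim σ τ) (Sum.elim v u) a ∈ T) =
      ∏ a, ∑ S : Finset ι, ind (y - sz τ S - sv σ v a ∈ T) := by
  rw [Finset.prod_univ_sum, ← Equiv.sum_comp (KeyM.famE ι k)]
  have h1 : (Fintype.piFinset fun _ : Fin k => (univ : Finset (Finset ι))) = univ := by
    ext S
    simp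
  rw [h1]
  refine Finset.sum_congr rfl fun S _ => ?_
  rw [KeyM.ind_forall]
  refine Finset.prod_congr rfl fun a _ => ?_
  rw [KeyM.sv_elim, KeyM.sv_famE]
  congr 2
  ring

open Classical in
theorem key_M {κ ι : Type} [Fintype κ] [DecidableEq κ] [Fintype ι] [DecidableEq ι]
    (P : Finset ℕ) (mB : κ → ℕ → ℝ) (mA : ι → ℕ → ℝ) (hB0 : ∀ i p, 0 ≤ mB i p)
    (hB1 : ∀ i, ∑ p ∈ P, mB i p = 1) (hA0 : ∀ i p, 0 ≤ mA i p) (hA1 : ∀ i, ∑ p ∈ P, mA i p = 1)
    (cm : ℝ) (hc : ∀ σ : κ → ℕ, (∀ i, mB i (σ i) ≠ 0) → ∑ i, Real.log (σ i) ≤ cm)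
    (T : Set ℝ) (y : ℝ) (hy : y ∉ T) (blk : Finset κ) (R : ℕ) (V0 ε : ℝ) (hV : 0 ≤ V0)
    (hε : 0 ≤ ε) (lam : (ι → ℕ) → ℝ) (hlam : ∀ τ, 0 ≤ lam τ) (Gd : (ι → ℕ) → Prop)
    (hG1 : ∀ τ, Gd τ → 2 ^ Fintype.card κ * lam τ ≤ V0)
    (hG2 : ∀ τ, Gd τ → ∀ i ∈ blk, ∀ c : ℝ, 0 ≤ c → c ≤ cm →
      |∑ S : Finset ι, ∑ p ∈ P, mB i p * ind (y - sz τ S - c - Real.log p ∈ T) - lam τ| ≤
        ε / 2 ^ Fintype.card κ) :
    |Ex P mB (fun σ => Ex P mA (fun τ => ind (Wn T y (Sum.elim σ τ) = 0))) -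
      Ex P mA (fun τ => Real.exp (-(2 ^ Fintype.card κ * lam τ)))| ≤
    Ex P mA (fun τ => ind (¬ Gd τ)) + 2 * V0 ^ R / R.factorial +
      ∑ k ∈ range (R + 1), ((V0 + ε) ^ k - V0 ^ k + V0 ^ k * (k * (1 - (1 / 2) ^ k) ^ blk.card) +
        ∑ v ∈ univ.filter (fun v : κ ⊕ ι → Fin k → Bool =>
          Dist v ∧ ¬ Priv v (blk.map Function.Embedding.inl)),
          Ex P (Sum.elim mB mA) (fun τ => ind (∀ a, y - sv τ v a ∈ T))) := by
  set A : ℕ → ℝ := fun k =>
    (V0 + ε) ^ k - V0 ^ k + V0 ^ k * (k * (1 - (1 / 2) ^ k) ^ blk.card) with hA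
  set E : ℕ → (ι → ℕ) → ℝ := fun k τ => ∑ v ∈ univ.filter (fun v : κ ⊕ ι → Fin k → Bool =>
    Dist v ∧ ¬ Priv v (blk.map Function.Embedding.inl)),
      Ex P mB (fun σ => ind (∀ a, y - sv (Sum.elim σ τ) v a ∈ T)) with hE
  have hq : ∀ k : ℕ, (0 : ℝ) ≤ k * (1 - (1 / 2) ^ k) ^ blk.card := by
    intro k
    have h1 : ((1 : ℝ) / 2) ^ k ≤ 1 := pow_le_one₀ (by norm_num) (by norm_num)
    have h2 : (0 : ℝ) ≤ 1 - (1 / 2) ^ k := by linarith
    positivity
  have hA_nonneg : ∀ k, 0 ≤ A k := by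
    intro k
    have h1 : V0 ^ k ≤ (V0 + ε) ^ k := pow_le_pow_left₀ hV (by linarith) k
    have h2 : 0 ≤ V0 ^ k * (k * (1 - (1 / 2) ^ k) ^ blk.card) :=
      mul_nonneg (pow_nonneg hV k) (hq k)
    simp only [hA]
    linarith
  have hE_nonneg : ∀ k τ, 0 ≤ E k τ := fun k τ =>
    Finset.sum_nonneg fun v _ => Ex_nonneg P mB hB0 _ fun _ _ => ind_nonneg _
  -- the bound for fixed `τ`
  have hpt : ∀ τ : ι → ℕ, |Ex P mB (fun σ => ind (Wn T y (Sum.elim σ τ) = 0)) -
      Real.exp (-(2 ^ Fintype.card κ * lam τ))| ≤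
      ind (¬ Gd τ) + 2 * V0 ^ R / R.factorial + ∑ k ∈ range (R + 1), (A k + E k τ) := by
    intro τ
    have hsum : 0 ≤ ∑ k ∈ range (R + 1), (A k + E k τ) :=
      Finset.sum_nonneg fun k _ => add_nonneg (hA_nonneg k) (hE_nonneg k τ)
    by_cases hg : Gd τ
    · have hind : ind (¬ Gd τ) = 0 := ind_not_of (not_not.mpr hg)
      rw [hind, zero_add]
      set x : ℝ := 2 ^ Fintype.card κ * lam τ with hx
      have hx0 : 0 ≤ x := mul_nonneg (by positivity) (hlam τ)
      have hxV : x ≤ V0 := hG1 τ hg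
      -- one factorial moment
      have hmom : ∀ k : ℕ, |Ex P mB (fun σ => ((Wn T y (Sum.elim σ τ)).choose k : ℝ)) -
          x ^ k / k.factorial| ≤ A k + E k τ := by
        intro k
        have hf0 : (0 : ℝ) < k.factorial := by exact_mod_cast k.factorial_pos
        have hf1 : (1 : ℝ) ≤ k.factorial := by exact_mod_cast k.factorial_pos
        have h1 : Ex P mB (fun σ => ((Wn T y (Sum.elim σ τ)).choose k : ℝ)) * k.factorial =
            Ex P mB (fun σ => ∑ v ∈ univ.filter (fun v : κ → Fin k → Bool => Priv v blk),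
              ∏ a, ∑ S : Finset ι, ind (y - sz τ S - sv σ v a ∈ T)) + E k τ := by
          rw [mul_comm, ← Ex_mul]
          simp only [hE]
          rw [← Ex_fsum, ← Ex_add]
          congr 1
          funext σ
          rw [mul_comm]
          exact KeyM.choose_split T y hy σ τ k blk fun v => split_v k T y σ τ v
        have h2 := gen_mom k P mB hB0 hB1 cm hc (fun S : Finset ι => y - sz τ S) T blk (lam τ)
          (ε / 2 ^ Fintype.card κ) (hlam τ) (by positivity) (hG2 τ hg)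
        have h3 : (2 : ℝ) ^ Fintype.card κ * (lam τ + ε / 2 ^ Fintype.card κ) = x + ε := by
          rw [hx]
          field_simp
        rw [h3, ← hx] at h2
        have h4 := KeyM.pow_sub_mono hx0 hxV hε k
        have h5 : x ^ k * (k * (1 - (1 / 2) ^ k) ^ blk.card) ≤
            V0 ^ k * (k * (1 - (1 / 2) ^ k) ^ blk.card) :=
          mul_le_mul_of_nonneg_right (pow_le_pow_left₀ hx0 hxV k) (hq k)
        have h6 : |Ex P mB (fun σ => ((Wn T y (Sum.elim σ τ)).choose k : ℝ)) * k.factorial -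
            x ^ k| ≤ A k + E k τ := by
          rw [h1, add_sub_right_comm]
          refine (abs_add_le _ _).trans (add_le_add ?_ (abs_of_nonneg (hE_nonneg k τ)).le)
          refine h2.trans ?_
          simp only [hA]
          linarith
        have h7 : Ex P mB (fun σ => ((Wn T y (Sum.elim σ τ)).choose k : ℝ)) -
            x ^ k / k.factorial =
            (Ex P mB (fun σ => ((Wn T y (Sum.elim σ τ)).choose k : ℝ)) * k.factorial -
              x ^ k) / k.factorial := by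
          field_simp
        rw [h7, abs_div, abs_of_pos hf0]
        exact (div_le_self (abs_nonneg _) hf1).trans h6
      have hR0 : 0 ≤ x ^ R / R.factorial := by positivity
      have hR1 : x ^ R / R.factorial ≤ V0 ^ R / R.factorial := by
        gcongr
      -- the truncated series
      have h1 : |Ex P mB (fun σ => ind (Wn T y (Sum.elim σ τ) = 0)) -
          ∑ k ∈ range R, (-1 : ℝ) ^ k *
            Ex P mB (fun σ => ((Wn T y (Sum.elim σ τ)).choose k : ℝ))| ≤
          Ex P mB (fun σ => ((Wn T y (Sum.elim σ τ)).choose R : ℝ)) := by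
        have h2 : ∑ k ∈ range R, (-1 : ℝ) ^ k *
            Ex P mB (fun σ => ((Wn T y (Sum.elim σ τ)).choose k : ℝ)) =
            Ex P mB (fun σ => ∑ k ∈ range R, (-1 : ℝ) ^ k *
              ((Wn T y (Sum.elim σ τ)).choose k : ℝ)) := by
          rw [Ex_fsum]
          exact Finset.sum_congr rfl fun k _ => (Ex_mul P mB _ _).symm
        rw [h2, ← Ex_sub]
        exact (Ex_abs_le P mB hB0 _).trans (Ex_mono P mB hB0 _ _ fun σ _ => bonf_zero _ R)
      have h3 := bonf_exp hx0 R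
      have h4 : |∑ k ∈ range R, (-1 : ℝ) ^ k *
            Ex P mB (fun σ => ((Wn T y (Sum.elim σ τ)).choose k : ℝ)) -
          ∑ k ∈ range R, (-1 : ℝ) ^ k * (x ^ k / k.factorial)| ≤
          ∑ k ∈ range R, (A k + E k τ) := by
        rw [← Finset.sum_sub_distrib]
        refine (Finset.abs_sum_le_sum_abs _ _).trans (Finset.sum_le_sum fun k _ => ?_)
        rw [← mul_sub, abs_mul, abs_pow, abs_neg, abs_one, one_pow, one_mul]
        exact hmom k
      have h5 := hmom R
      rw [Finset.sum_range_succ]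
      rw [abs_le] at h1 h3 h4 h5 ⊢
      have h6 : 2 * V0 ^ R / R.factorial = V0 ^ R / R.factorial + V0 ^ R / R.factorial := by ring
      rw [h6]
      constructor <;> linarith [h1.1, h1.2, h3.1, h3.2, h4.1, h4.2, h5.1, h5.2]
    · have hind : ind (¬ Gd τ) = 1 := ind_of hg
      have h1 : 0 ≤ Ex P mB (fun σ => ind (Wn T y (Sum.elim σ τ) = 0)) :=
        Ex_nonneg P mB hB0 _ fun _ _ => ind_nonneg _
      have h2 : Ex P mB (fun σ => ind (Wn T y (Sum.elim σ τ) = 0)) ≤ 1 := by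
        have h3 := Ex_mono P mB hB0 (fun σ => ind (Wn T y (Sum.elim σ τ) = 0)) (fun _ => 1)
          fun _ _ => ind_le_one _
        rwa [Ex_const P mB hB1] at h3
      have h4 : 0 < Real.exp (-(2 ^ Fintype.card κ * lam τ)) := Real.exp_pos _
      have h5 : Real.exp (-(2 ^ Fintype.card κ * lam τ)) ≤ 1 := by
        rw [Real.exp_le_one_iff, neg_nonpos]
        exact mul_nonneg (by positivity) (hlam τ)
      have h6 : 0 ≤ 2 * V0 ^ R / R.factorial := by positivity
      rw [hind, abs_le]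
      constructor <;> linarith
  rw [KeyM.Ex_swap, ← Ex_sub]
  refine (Ex_abs_le P mA hA0 _).trans ?_
  refine (Ex_mono P mA hA0 _ _ fun τ _ => hpt τ).trans (le_of_eq ?_)
  rw [Ex_add, Ex_add, Ex_const P mA hA1, Ex_fsum]
  congr 1
  refine Finset.sum_congr rfl fun k _ => ?_
  rw [Ex_add, Ex_const P mA hA1]
  congr 1
  simp only [hE]
  rw [Ex_fsum]
  refine Finset.sum_congr rfl fun v _ => ?_
  rw [Ex_sumType]
  exact (KeyM.Ex_swap P mB mA _).symm

end Pool.Agent.EN
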